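import Pool.Agent.Lib.MP_abd955_pr.TransB

/-! Two-gons of a family. -/

namespace Pool.Agent.Lib.MP_abd955_pr

open Equiv Equiv.Perm Finset PowerSeries

set_option linter.unusedSectionVars false

variable {D : Type} [DecidableEq D] [Fintype D]

lemma hole2_f {K : Cfg D} (h : WF K) {a : Perm D} (p : Pre K K.X a) {v : ℕ} {e : Perm (E0 v)}
    (he : e ∈ VS (K0 v)) {ι : E0 v → D} (hι : Emb e a K.f ι) (h0 : ∀ c, ι (.inr c) ∈ K.X)
    (c : Bool) : K.f (ι (.inr c)) = ι (.inr !c) := by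
  have q := (mem_VS.1 he).1
  have x : ∀ c, .inr c ∈ (K0 v).X := by simp [K0]
  have k : ∀ z, (K.f * a).SameCycle (ι (.inr !c)) (ι z) → e z = .inr c →
      K.f (ι (.inr c)) = ι (.inr !c) := fun z s hz => (p.simp _ (h0 _) _ (h.fX _ (h0 _))
    (s.trans (by simpa [hι.mb, hz] using sc_step (K.f * a) (ι z)))).symm
  have i := (q.inv (.inr c) (mem_univ _)).2.1
  have s : ((K0 v).f * e).SameCycle (.inr !c) (e (.inr c)) := by
    simpa [i, K0] using (sc_step ((K0 v).f * e) (e (.inr c))).symm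
  refine (sc_ind (P := fun z => ((K0 v).f * e).SameCycle (.inr !c) z ∧
    ((K.f * a).SameCycle (ι (.inr !c)) (ι z) ∨ _)) s ⟨.refl _ _, .inl (.refl _ _)⟩ fun z hz =>
      ⟨hz.1.trans (sc_step _ _), hz.2.elim (fun s => ?_) .inr⟩).2.elim (k _ · i) id
  rcases hw : e z with w | b
  · refine .inl (s.trans ?_)
    simpa [hι.mb, hw, hι.mf, K0] using sc_step (K.f * a) (ι z)
  by_cases hb : b = c
  · exact .inr (k z s (hb ▸ hw))
  · have := q.simp _ (x _) (.inr !b) (x _) (hz.1.trans (by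
      simpa [hw, K0] using sc_step ((K0 v).f * e) z))
    exact absurd (by simpa using this.symm) hb

theorem hole2 {K : Cfg D} (h : WF K) {a : Perm D} (p : Pre K K.X a) {v : ℕ} {e : Perm (E0 v)}
    (he : e ∈ VS (K0 v)) {ι : E0 v → D} (hι : Emb e a K.f ι) (h0 : ∀ c, ι (.inr c) ∈ K.X)
    (_h1 : ∀ u, ι (.inl u) ∈ K.U \ K.X) : Cyc K.f [ι (.inr false), ι (.inr true)] :=
  cyc_cons.2 ⟨by simp [hι.inj.eq_iff], by simp [hole2_f h p he hι h0]⟩

/-- the component of the two-gon is the image of the embedding -/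
lemma emb_image {K : Cfg D} (h : WF K) {W : Finset D} {v w : ℕ} {e : Perm (E0 w)} {ι : E0 w → D}
    (hW : W ∈ Inv K [[ι (.inr false), ι (.inr true)]].flatten.toFinset v) {a1 a2 : Perm D}
    (h1 : a1 ∈ VS (K.res W)) (h2 : a2 ∈ VS (K.res (K.U \ W))) (he : e ∈ VS (K0 w))
    (hι : Emb e (a1 * a2) K.f ι) : W = univ.image ι ∧ (∀ u, a1 (ι u) = ι (e u)) ∧
      ∀ u, K.f (ι u) = ι ((K0 w).f u) := by
  obtain ⟨w1, -, hX, -⟩ := Inv_spec h hW
  have x : ∀ c, ι (.inr c) ∈ (K.res W).X := by simp [hX]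
  have p := (mem_VS.1 h1).1
  have ea : ∀ u ∈ W, (a1 * a2) u = a1 u := fun u hu => by
    rw [mul_apply, (mem_VS.1 h2).2 u fun e => (mem_sdiff.1 e).2 hu]
  have f : ∀ u, K.f (ι u) = ι ((K0 w).f u) := by
    rintro (u | c)
    exacts [hι.mf u, hole2_f h (mem_VS.1 (mul_mem_VS h hW h1 h2)).1 he hι
      (fun c => (mem_inter.1 (x c)).1) c]
  have i : ∀ u, ι u ∈ W := fun u => by
    obtain ⟨y, hy, c⟩ := (mem_VS.1 he).1.con u (mem_univ _)
    refine (conn_pred (fun z => ι z ∈ W) (fun z => ?_) (fun z => ?_) c).2 ?_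
    · rw [← hι.mb]
      exact mem_iff_of_maps (fun u hu => ea u hu ▸ p.aU u hu) _
    · rw [← f]
      exact mem_iff_of_maps w1.fU _
    · simp only [K0, mem_insert, mem_singleton] at hy
      rcases hy with rfl | rfl <;> exact w1.sub (x _)
  have e1 : ∀ u, a1 (ι u) = ι (e u) := fun u => (ea _ (i u)).symm.trans (hι.mb u)
  refine ⟨Subset.antisymm (fun u hu => ?_) (image_subset_iff.2 fun u _ => i u), e1, f⟩
  obtain ⟨y, hy, c⟩ := p.con u hu
  refine conn_mem (forall_mem_image.2 fun z _ => e1 z ▸ mem_image_of_mem _ (mem_univ _))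
    (forall_mem_image.2 fun z _ => (f z).symm ▸ mem_image_of_mem _ (mem_univ _)) ?_
    (Setoid.symm' _ c)
  simp only [hX, List.flatten_singleton, List.mem_toFinset, List.mem_cons, List.not_mem_nil,
    or_false] at hy
  rcases hy with rfl | rfl <;> exact mem_image_of_mem _ (mem_univ _)

open Classical in
theorem card_has {F : Fam} {V : ℕ} (hF : FamOk F V) {K : Cfg D} (h : WF K) {ls : List (List D)}
    (hl : Holes K ls) {t0 t1 : D} (h0 : t0 ∈ K.X) (h1 : t1 ∈ K.X) :
    (((VS K).filter fun a => Has F a K.f (↑(K.U \ K.X)) t0 t1).card : ℝ) ≤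
      GG K.m * ∑ x ∈ antidiagonal K.m, phi F x.1 * coeff x.2 (Zm (ls.map List.length)) := by
  have p0 : ∀ v, 0 ≤ phi F v := fun v => div_nonneg (Nat.cast_nonneg _) (GG_pos v).le
  rcases eq_empty_or_nonempty ((VS K).filter fun a => Has F a K.f (↑(K.U \ K.X)) t0 t1) with
    e | ⟨a, ha⟩
  · rw [e, card_empty, Nat.cast_zero]
    exact mul_nonneg (GG_pos _).le (sum_nonneg fun _ _ => mul_nonneg (p0 _) (coeff_Zm_nonneg _ _))
  obtain ⟨ha, v0, e0, he0, ι0, hι0, r0, r1, i0⟩ := mem_filter.1 ha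
  have c := hole2 h (mem_VS.1 ha).1 (hF.val _ he0) hι0 (by rintro (_ | _) <;> simp [*]) i0
  rw [r0, r1] at c
  obtain ⟨l, m, hx⟩ := List.mem_flatten.1 ((hl.mem t0).1 h0)
  obtain ⟨A, B, rfl⟩ := List.append_of_mem hx
  have pm := List.perm_cons_erase m
  generalize ls.erase _ = rest at pm
  have H := (hl.perm pm).comm
  have e : B ++ A = [t1] := (H.cyc _ List.mem_cons_self).uniq c
  rw [List.cons_append, e] at H
  have z : Zm (ls.map List.length) = Zl 2 * Zm (rest.map List.length) := by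
    rw [Zm, ((pm.map _).map _).prod_eq, ← Zm, List.map_cons, Zm_cons, List.perm_append_comm.length_eq,
      List.cons_append, e]
    rfl
  rw [card_filter, Nat.cast_sum, sum_dec h (S := [[t0, t1]].flatten.toFinset) (by
    simp [insert_subset_iff, h0, h1]) (fun z hz => by simpa using c.mem (by simpa using hz)),
    Nat.sum_antidiagonal_eq_sum_range_succ_mk, mul_sum]
  refine sum_le_sum fun v hv => (sum_le_card_nsmul _ _ ((F v).card * (GG (K.m - v) *
    coeff (K.m - v) (Zm (rest.map List.length)))) fun W hW => ?_).trans ?_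
  · obtain ⟨w1, w2, -, -, m1, m2⟩ := Inv_spec h hW
    obtain ⟨H1, H2⟩ := Holes.res h (l1 := [[t0, t1]]) H hW
    obtain ⟨φ, i1, i2, i3, i4, i5⟩ := exists_shape_iso w1 (K0_spec v).1 H1 (K0_spec v).2.1 rfl
      (m1.trans (K0_spec v).2.2.symm)
    obtain ⟨T, b, hT⟩ := transfer w1 φ i1 i2 i3 i4
    rw [← Nat.eq_sub_of_add_eq m2, ← card_VS w2 H2, sum_comm, mul_comm, ← nsmul_eq_mul]
    refine sum_le_card_nsmul _ _ _ fun a2 h2 => ?_
    rw [← Nat.cast_sum, ← card_filter, Nat.cast_le]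
    refine card_le_card_of_injOn T (fun a1 g1 => ?_) (b.injOn.mono (coe_subset.2 (filter_subset _ _)))
    obtain ⟨g2, w, d, he, ι, hι, rfl, rfl, -⟩ := mem_filter.1 (mem_coe.1 g1)
    obtain ⟨rfl, j1, j2⟩ := emb_image h hW g2 h2 (hF.val _ he) hι
    have iW := fun u => mem_image_of_mem ι (mem_univ u)
    obtain rfl : w = v := by
      have := (card_image_of_injective _ hι.inj).symm.trans w1.card
      rw [m1, H1.card] at this
      simp at this
      omega
    let g : Perm (E0 w) := .ofBijective (φ ∘ ι) (Finite.injective_iff_bijective.1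
      fun x y e => hι.inj (i1 (iW x) (iW y) e))
    rw [show T a1 = g * d * g⁻¹ from _root_.eq_mul_inv_iff_mul_eq.2
      (Equiv.ext fun u => (hT _ g2 _ (iW u)).trans (congrArg φ (j1 u)))]
    refine hF.inv w d he g (Equiv.ext fun u => ?_) fun c => ?_
    · exact (congrArg φ (j2 u).symm).trans (i4 _ (iW u)).symm
    · simp only [List.map_cons, List.cons.injEq] at i5
      cases c
      exacts [i5.1.1, i5.1.2.1]
  · have hv := Nat.le_of_lt_succ (mem_range.1 hv)
    have g : (K.m.choose v : ℝ) * GG (K.m - v) = GG K.m / GG v := by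
      rw [eq_div_iff (GG_pos v).ne', GG, GG, GG, ← Nat.choose_mul_factorial_mul_factorial hv,
        ← pow_sub_mul_pow (4 : ℝ) hv]
      push_cast
      ring
    rw [card_Inv h (by simp [insert_subset_iff, h0, h1])
      fun z hz => by simpa using c.mem (by simpa using hz), nsmul_eq_mul, mul_left_comm,
      ← mul_assoc (_ : ℝ) (GG _), g, z, coeff_mul]
    calc _ = GG K.m * (phi F v * (coeff 0 (Zl 2) * coeff (K.m - v) (Zm (rest.map List.length)))) := by
          rw [coeff_zero_Zl, phi, if_pos rfl]; ring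
      _ ≤ _ := mul_le_mul_of_nonneg_left (mul_le_mul_of_nonneg_left (single_le_sum
          (f := fun x : ℕ × ℕ => coeff x.1 (Zl 2) * coeff x.2 (Zm (rest.map List.length)))
          (a := (0, K.m - v)) (fun _ _ => mul_nonneg (coeff_Zl_nonneg _ _) (coeff_Zm_nonneg _ _))
          (by simp)) (p0 v)) (GG_pos _).le

end Pool.Agent.Lib.MP_abd955_pr
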