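import Pool.Agent.Lib.MP_abd955_pr.Count
import Pool.Agent.Lib.MP_abd955_pr.Trans

/-! From the second moment bound to a rare feature. -/

namespace Pool.Agent.Lib.MP_abd955_pr

open Equiv Equiv.Perm Finset PowerSeries Filter Topology

lemma conj_VS {D : Type} [DecidableEq D] [Fintype D] {K : Cfg D} (h : WF K) (hU : K.U = univ)
    {g : Perm D} (hf : ∀ u, K.f (g u) = g (K.f u)) (hX : ∀ x ∈ K.X, g x = x) {a : Perm D}
    (ha : a ∈ VS K) : g * a * g⁻¹ ∈ VS K := by
  refine mem_VS.2 ⟨(pre_map (K := K) (K' := K) h g g.injective.injOn ?_ ?_ (fun u _ => hf u)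
    (a := a) (fun u _ => by rw [hU]; exact mem_univ _) (fun u _ => by simp)).1 (mem_VS.1 ha).1,
    fun u hu => absurd (by rw [hU]; exact mem_univ _) hu⟩
  · rw [hU, image_univ_equiv]
  · rw [image_congr (g := id) fun x hx => hX x hx, image_id]

open Classical in
/-- number of ways to open the configuration along a path of length k -/
noncomputable def NN (v k : ℕ) (e : Perm (E0 v)) : ℕ := ((VS (K1 v k)).filter fun a => Rz a e).card

lemma j01_inj {v k : ℕ} : Function.Injective (j01 : E0 v → E1 v k) :=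
  Function.Injective.sumMap Function.injective_id Sum.inl_injective

lemma Rz_uniq {v k : ℕ} {a : Perm (E1 v k)} {e e' : Perm (E0 v)} (h : Rz a e) (h' : Rz a e') :
    e = e' := Equiv.ext fun u => j01_inj ((h u).trans (h' u).symm)

lemma NN_conj {v : ℕ} (k : ℕ) (e : Perm (E0 v)) {g : Perm (E0 v)}
    (hf : g * (K0 v).f = (K0 v).f * g) (hc : ∀ c, g (.inr c) = .inr c) :
    NN v k e ≤ NN v k (g * e * g⁻¹) := by
  classical
  have h1 : ∀ u, ∃ u', g (.inl u) = .inl u' := fun u => by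
    rcases hu : g (.inl u) with u' | c
    · exact ⟨u', rfl⟩
    · rw [← hc c] at hu
      exact absurd (g.injective hu) (by simp)
  choose g0 hg0 using h1
  have hi : Function.Injective g0 := fun u u' e => by
    have : g (.inl u) = g (.inl u') := by rw [hg0, hg0, e]
    exact Sum.inl_injective (g.injective this)
  let g1 : Perm (Fin v × Fin 4) := Equiv.ofBijective g0 (Finite.injective_iff_bijective.1 hi)
  let G : Perm (E1 v k) := Equiv.sumCongr g1 (Equiv.refl _)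
  have Gl : ∀ u, G (.inl u) = .inl (g0 u) := fun u => rfl
  have Gr : ∀ x, G (.inr x) = .inr x := fun x => rfl
  have Gj : ∀ u, G (j01 u) = j01 (g u) := fun u => by
    rcases u with u | c
    · rw [hg0]; rfl
    · rw [hc]; rfl
  obtain ⟨w, -, -, fl⟩ := K1_spec v k
  have hX : ∀ x ∈ (K1 v k).X, G x = x := fun x hx => by
    obtain ⟨y, -, rfl⟩ := mem_image.1 hx
    exact Gr y
  have hG : ∀ u, (K1 v k).f (G u) = G ((K1 v k).f u) := fun u => by
    rcases u with u | x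
    · rw [Gl, fl, fl, Gl]
      have h2 : g ((K0 v).f (.inl u)) = (K0 v).f (g (.inl u)) := by
        rw [← mul_apply, hf, mul_apply]
      have h3 : ∀ u, (K0 v).f (.inl u) = .inl (sq v u) := fun u => rfl
      rw [h3, hg0, hg0, h3] at h2
      rw [Sum.inl_injective h2]
    · rw [Gr, hX _ (w.fX _ (mem_image_of_mem _ (mem_univ _)))]
  have GS : ∀ x, G x ∈ {x : E1 v k | ∃ i, x = .inr (.inr i)} ↔
      x ∈ {x : E1 v k | ∃ i, x = .inr (.inr i)} := fun x => by
    rcases x with u | x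
    · simp [Gl]
    · rw [Gr]
  have Gt : ∀ x, t1 v k (G x) = G (t1 v k x) := fun x => by
    rcases x with u | x <;> rfl
  unfold NN
  refine card_le_card_of_injOn (fun a => G * a * G⁻¹) (fun a ha => ?_) fun a _ b _ e => by
    simpa using e
  obtain ⟨ha, hr⟩ := mem_filter.1 ha
  refine mem_filter.2 ⟨conj_VS w rfl hG hX ha, fun u => ?_⟩
  obtain ⟨u, rfl⟩ := g.surjective u
  have e1 : ∀ x, (G * a * G⁻¹) (G x) = G (a x) := fun x => by simp
  rw [show (g * e * g⁻¹) (g u) = g (e u) by simp, ← Gj, ← Gj, hr u]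
  unfold zipf
  rw [e1, Gt, Gt, e1]
  simp only [GS]
  split_ifs <;> rfl

noncomputable def Zf (K v : ℕ) (e : Perm (E0 v)) : ℝ := ∑ k ∈ Icc 1 K, (2 / 9 : ℝ) ^ k * NN v k e

noncomputable def muv (v : ℕ) : ℝ := (1 / 12) ^ v / GG v

lemma muv_pos (v : ℕ) : 0 < muv v := div_pos (by positivity) (GG_pos v)

lemma Zf_nonneg (K v : ℕ) (e : Perm (E0 v)) : 0 ≤ Zf K v e :=
  sum_nonneg fun _ _ => by positivity

open Classical in
noncomputable def FL (K V : ℕ) (t : ℝ) : Fam := fun v =>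
  (VS (K0 v)).filter fun e => v ≤ V ∧ t ≤ Zf K v e

lemma FL_ok (K V : ℕ) (t : ℝ) : FamOk (FL K V t) V := by
  classical
  refine ⟨fun v => filter_subset _ _, fun v hv => filter_false_of_mem fun e _ h => by omega,
    fun v e he g hf hc => ?_⟩
  obtain ⟨h1, h2, h3⟩ := mem_filter.1 he
  refine mem_filter.2 ⟨conj_VS (K0_spec v).1 rfl (fun u => ?_) (fun x hx => ?_) h1, h2,
    h3.trans (sum_le_sum fun k _ => ?_)⟩
  · rw [← mul_apply, ← hf, mul_apply]
  · simp only [K0, mem_insert, mem_singleton] at hx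
    rcases hx with rfl | rfl <;> exact hc _
  · have := NN_conj k e hf hc
    gcongr

lemma card_TS (F : Fam) (v k : ℕ) : (TS F v k).card = ∑ e ∈ F v, NN v k e := by
  classical
  unfold NN
  rw [← card_biUnion]
  · congr 1
    ext a
    simp only [TS, mem_filter, mem_biUnion]
    constructor
    · rintro ⟨h, e, h1, h2⟩; exact ⟨e, h1, h, h2⟩
    · rintro ⟨e, h1, h, h2⟩; exact ⟨h, e, h1, h2⟩
  · intro e _ e' _ hne
    refine disjoint_left.2 fun a h1 h2 => hne (Rz_uniq (mem_filter.1 h1).2 (mem_filter.1 h2).2)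

lemma del'_eq (F : Fam) (V K : ℕ) :
    del' F V K = ∑ v ∈ range (V + 1), muv v * ∑ e ∈ F v, Zf K v e := by
  unfold del' Zf
  rw [sum_comm]
  refine sum_congr rfl fun v _ => ?_
  rw [sum_comm, mul_sum]
  refine sum_congr rfl fun k _ => ?_
  rw [card_TS, ← mul_sum, muv]
  push_cast
  ring

lemma del_eq (F : Fam) (V : ℕ) : del F V = ∑ v ∈ range (V + 1), muv v * (F v).card := by
  unfold del phi muv
  exact sum_congr rfl fun v _ => by ring

lemma del'_le_one (F : Fam) (V K : ℕ) : del' F V K ≤ 1 := by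
  classical
  have h1 : ∀ k ∈ Icc 1 K, ∑ v ∈ range (V + 1),
      (2 / 9 : ℝ) ^ k * (((TS F v k).card / GG v) * (1 / 12) ^ v) ≤ 3 / 2 * zl (k + 1) := by
    intro k _
    have h2 := (hasSum_tm [k + 1, k + 1]).1
    have h3 := sum_le_hasSum (range (V + 1)) (fun v _ => tm_nonneg _ v) h2
    have h4 : zl (k + 1) ≤ 1 / 3 := le_hasSum hasSum_zl _ fun j _ => zl_nonneg j
    have h5 := zl_nonneg (k + 1)
    simp only [List.map_cons, List.map_nil, List.prod_cons, List.prod_nil, mul_one] at h3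
    calc _ ≤ ∑ v ∈ range (V + 1), 9 / 2 * tm [k + 1, k + 1] v := sum_le_sum fun v _ => ?_
      _ ≤ 9 / 2 * (zl (k + 1) * zl (k + 1)) := by rw [← mul_sum]; linarith
      _ ≤ _ := by nlinarith
    obtain ⟨w, hl, hm, -⟩ := K1_spec v k
    have h6 := card_VS w hl
    have h7 : ((TS F v k).card : ℝ) ≤ (VS (K1 v k)).card := by
      exact_mod_cast card_le_card (filter_subset _ _)
    have h8 : [hP v k, hQ v k].map List.length = [k + 1, k + 1] := by simp [hP, hQ]
    rw [h8, hm] at h6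
    have h9 : ((TS F v k).card : ℝ) / GG v ≤ coeff v (Zm [k + 1, k + 1]) := by
      rw [div_le_iff₀ (GG_pos v)]; linarith
    rw [tm, show [k + 1, k + 1].sum / 2 = k + 1 by simp; omega, pow_succ]
    calc _ ≤ (2 / 9 : ℝ) ^ k * (coeff v (Zm [k + 1, k + 1]) * (1 / 12) ^ v) := by gcongr
      _ = _ := by ring
  have h2 := sum_le_hasSum (Icc 1 K) (fun k _ => zl_nonneg (k + 1)) hasSum_zl1
  have h3 := sum_le_sum h1
  rw [← mul_sum] at h3
  unfold del'
  linarith

lemma layer (Z : ℝ) (m : ℕ) :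
    min Z (2 ^ m) ≤ 1 + ∑ i ∈ range m, if (2 : ℝ) ^ i ≤ Z then (2 : ℝ) ^ i else 0 := by
  induction m with
  | zero => simp
  | succ m ih =>
    rw [sum_range_succ]
    split_ifs with h
    · rw [min_eq_right h] at ih
      have := min_le_right Z (2 ^ (m + 1))
      rw [pow_succ] at this ⊢
      linarith
    · push Not at h
      rw [min_eq_left h.le] at ih
      have := min_le_left Z (2 ^ (m + 1))
      linarith

lemma Zf_le (K V v : ℕ) (hv : v ≤ V) (e : Perm (E0 v)) :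
    Zf K v e ≤ 2 ^ (K + (4 * V + 2 + 2 * K) ^ 2) := by
  classical
  set N := 4 * V + 2 + 2 * K with hN
  have h1 : ∀ k ∈ Icc 1 K, (2 / 9 : ℝ) ^ k * NN v k e ≤ 2 ^ (N ^ 2) := by
    intro k hk
    have hk' := (mem_Icc.1 hk).2
    have h2 : NN v k e ≤ (Fintype.card (E1 v k)).factorial := by
      rw [← Fintype.card_perm]; exact card_le_univ _
    have h3 : Fintype.card (E1 v k) ≤ N := by
      simp only [Fintype.card_sum, Fintype.card_prod, Fintype.card_fin, Fintype.card_bool]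
      omega
    have h4 : NN v k e ≤ 2 ^ (N ^ 2) := by
      calc _ ≤ N.factorial := h2.trans (Nat.factorial_le h3)
        _ ≤ N ^ N := Nat.factorial_le_pow N
        _ ≤ (2 ^ N) ^ N := Nat.pow_le_pow_left (Nat.lt_two_pow_self.le) N
        _ = _ := by rw [← pow_mul, pow_two]
    have h5 : (NN v k e : ℝ) ≤ 2 ^ (N ^ 2) := by exact_mod_cast h4
    have h6 : (2 / 9 : ℝ) ^ k ≤ 1 := pow_le_one₀ (by norm_num) (by norm_num)
    calc _ ≤ 1 * (NN v k e : ℝ) := by gcongr
      _ ≤ _ := by linarith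
  have h2 := sum_le_card_nsmul _ _ _ h1
  rw [Nat.card_Icc, nsmul_eq_mul] at h2
  have h3 : ((K + 1 - 1 : ℕ) : ℝ) ≤ 2 ^ K := by
    exact_mod_cast (show K + 1 - 1 ≤ 2 ^ K from Nat.lt_two_pow_self.le)
  rw [pow_add]
  exact h2.trans (by gcongr)

lemma second_le (K V m : ℕ) (hm : ∀ v ≤ V, ∀ e, Zf K v e ≤ 2 ^ m) :
    ∑ v ∈ range (V + 1), muv v * ∑ e ∈ VS (K0 v), Zf K v e ^ 2 ≤
      1 + ∑ i ∈ range m, 2 ^ i * del' (FL K V (2 ^ i)) V K := by
  classical
  have h0 := del'_le_one (fun v => VS (K0 v)) V K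
  simp only [del'_eq] at h0 ⊢
  have h1 : ∑ i ∈ range m, (2 : ℝ) ^ i * ∑ v ∈ range (V + 1),
      muv v * ∑ e ∈ FL K V (2 ^ i) v, Zf K v e = ∑ v ∈ range (V + 1), muv v * ∑ e ∈ VS (K0 v),
        Zf K v e * ∑ i ∈ range m, if (2 : ℝ) ^ i ≤ Zf K v e then (2 : ℝ) ^ i else 0 := by
    simp only [mul_sum]
    rw [sum_comm]
    refine sum_congr rfl fun v hv => ?_
    rw [sum_comm (s := VS (K0 v))]
    refine sum_congr rfl fun i _ => ?_
    unfold FL
    rw [sum_filter]
    refine sum_congr rfl fun e _ => ?_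
    have : v ≤ V := by have := mem_range.1 hv; omega
    simp only [this, true_and]
    split_ifs <;> ring
  rw [h1]
  refine le_trans (sum_le_sum fun v hv => ?_) (by rw [sum_add_distrib]; exact add_le_add_left h0 _)
  rw [← mul_add, ← sum_add_distrib]
  refine mul_le_mul_of_nonneg_left (sum_le_sum fun e _ => ?_) (muv_pos v).le
  have h2 := layer (Zf K v e) m
  rw [min_eq_left (hm v (by have := mem_range.1 hv; omega) e)] at h2
  have h3 := mul_le_mul_of_nonneg_left h2 (Zf_nonneg K v e)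
  linarith [pow_two (Zf K v e)]

lemma del_mul_le (K V : ℕ) (t : ℝ) : del (FL K V t) V * t ≤ del' (FL K V t) V K := by
  classical
  rw [del_eq, del'_eq, sum_mul]
  refine sum_le_sum fun v _ => ?_
  rw [mul_assoc]
  refine mul_le_mul_of_nonneg_left ?_ (muv_pos v).le
  have := card_nsmul_le_sum (FL K V t v) (Zf K v) t fun e he => (mem_filter.1 he).2.2
  rwa [nsmul_eq_mul] at this

theorem feature_of (H : ∃ (C : ℕ) (lam c : ℝ), 1 < lam ∧ 0 < c ∧ ∀ n : ℕ, 1 ≤ n →
    c * lam ^ n / (n : ℝ) ^ 6 ≤ ∑ k ∈ Icc 1 (C * n), ∑ k' ∈ Icc 1 (C * n),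
      ∑ v ∈ range (C * n ^ 2 + 1), (2 / 9 : ℝ) ^ (k + k') * (1 / 12) ^ v / GG v *
        ∑ e ∈ VS (K0 v), (open Classical in
          (((VS (K1 v k)).filter fun a => Rz a e).card *
            ((VS (K1 v k')).filter fun a => Rz a e).card : ℝ))) (c w0 : ℕ) :
    ∃ w ≥ w0, ∃ (K V : ℕ) (F : Fam), FamOk F V ∧ 4 * V + 2 ≤ w ∧
    0 < del' F V K ∧ del F V * (w : ℝ) ^ c ≤ del' F V K ^ 2 ∧ 1 ≤ del' F V K * 2 ^ w ∧
    del' F V K ≤ 1 := by
  obtain ⟨C, lam, c0, hl, hc, H⟩ := H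
  set A : ℕ := C + (6 * C + 2) ^ 2 + w0 with hA
  have hA0 : (0 : ℝ) < 2 * (A : ℝ) ^ (c + 1) := by
    have : 0 < A := by positivity
    positivity
  have ht := (tendsto_pow_const_div_const_pow_of_one_lt (4 * (c + 1) + 6) hl).eventually
    (eventually_lt_nhds (div_pos hc hA0))
  obtain ⟨n, hn, h1⟩ := (ht.and (eventually_ge_atTop 1)).exists
  set K := C * n with hK
  set V := C * n ^ 2 with hV
  set m := K + (4 * V + 2 + 2 * K) ^ 2 with hm
  have n2 : n ≤ n ^ 2 := by nlinarith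
  have n4 : n ≤ n ^ 4 := Nat.le_self_pow (by norm_num) n
  have hN : 4 * V + 2 + 2 * K ≤ (6 * C + 2) * n ^ 2 := by
    have : C * n ≤ C * n ^ 2 := Nat.mul_le_mul_left _ n2
    nlinarith
  have hw : m + w0 ≤ A * n ^ 4 := by
    have a1 : (4 * V + 2 + 2 * K) ^ 2 ≤ (6 * C + 2) ^ 2 * n ^ 4 := by
      calc _ ≤ ((6 * C + 2) * n ^ 2) ^ 2 := Nat.pow_le_pow_left hN 2
        _ = _ := by ring
    have a2 : C * n ≤ C * n ^ 4 := Nat.mul_le_mul_left _ n4
    have a3 : w0 ≤ w0 * n ^ 4 := Nat.le_mul_of_pos_right _ (by omega)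
    rw [hA, add_mul, add_mul]
    omega
  have hm1 : 4 * V + 2 ≤ m := by
    have := Nat.le_self_pow (n := 2) (by norm_num) (4 * V + 2 + 2 * K)
    omega
  set w := m + w0 with hw0
  have w1 : (1 : ℝ) ≤ w := by exact_mod_cast (show 1 ≤ w by omega)
  have wc : (1 : ℝ) ≤ (w : ℝ) ^ c := one_le_pow₀ w1
  have s1 := second_le K V m (Zf_le K V)
  have s2 : c0 * lam ^ n / (n : ℝ) ^ 6 ≤
      ∑ v ∈ range (V + 1), muv v * ∑ e ∈ VS (K0 v), Zf K v e ^ 2 := by
    refine (H n h1).trans (le_of_eq ?_)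
    rw [sum_congr rfl fun k _ => sum_comm, sum_comm]
    refine sum_congr rfl fun v _ => ?_
    simp only [pow_two, Zf, sum_mul_sum]
    simp only [mul_sum]
    rw [sum_comm (s := VS (K0 v))]
    refine sum_congr rfl fun k _ => ?_
    rw [sum_comm (s := VS (K0 v))]
    refine sum_congr rfl fun k' _ => sum_congr rfl fun e _ => ?_
    unfold NN muv
    rw [pow_add]
    ring
  have np : (0 : ℝ) < n := by exact_mod_cast h1
  have s3 : 2 * (w : ℝ) ^ (c + 1) ≤ c0 * lam ^ n / (n : ℝ) ^ 6 := by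
    have a1 : (w : ℝ) ≤ A * (n : ℝ) ^ 4 := by exact_mod_cast hw
    have lp : 0 < lam ^ n := by positivity
    rw [div_lt_div_iff₀ lp hA0] at hn
    rw [le_div_iff₀ (by positivity)]
    calc _ ≤ 2 * (A * (n : ℝ) ^ 4) ^ (c + 1) * (n : ℝ) ^ 6 := by gcongr
      _ = (n : ℝ) ^ (4 * (c + 1) + 6) * (2 * (A : ℝ) ^ (c + 1)) := by
        rw [mul_pow, ← pow_mul, pow_add (n : ℝ) (4 * (c + 1)) 6]; ring
      _ ≤ _ := hn.le
  have s4 : ∑ _i ∈ range m, (w : ℝ) ^ c ≤ ∑ i ∈ range m, 2 ^ i * del' (FL K V (2 ^ i)) V K := by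
    rw [sum_const, card_range, nsmul_eq_mul]
    have a1 : (m : ℝ) ≤ w := by exact_mod_cast (show m ≤ w by omega)
    have a2 : (m : ℝ) * (w : ℝ) ^ c ≤ (w : ℝ) ^ (c + 1) := by rw [pow_succ']; gcongr
    have a3 : (1 : ℝ) ≤ (w : ℝ) ^ (c + 1) := one_le_pow₀ w1
    linarith
  obtain ⟨i, hi, s5⟩ := exists_le_of_sum_le (nonempty_range_iff.2 (by omega)) s4
  have p2 : (0 : ℝ) < 2 ^ i := by positivity
  have dp : 0 < del' (FL K V (2 ^ i)) V K := pos_of_mul_pos_left (by linarith) p2.le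
  have d0 : 0 ≤ del (FL K V (2 ^ i)) V := by
    rw [del_eq]
    exact sum_nonneg fun v _ => mul_nonneg (muv_pos v).le (Nat.cast_nonneg _)
  refine ⟨w, by omega, K, V, FL K V (2 ^ i), FL_ok _ _ _, by omega, dp, ?_, ?_, del'_le_one _ _ _⟩
  · have a1 := del_mul_le K V (2 ^ i)
    calc _ ≤ del (FL K V (2 ^ i)) V * (2 ^ i * del' (FL K V (2 ^ i)) V K) := by gcongr
      _ = del (FL K V (2 ^ i)) V * 2 ^ i * del' (FL K V (2 ^ i)) V K := by ring
      _ ≤ _ := by rw [pow_two]; gcongr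
  · have a1 : (2 : ℝ) ^ i ≤ 2 ^ w :=
      pow_le_pow_right₀ (by norm_num) (by have := mem_range.1 hi; omega)
    calc (1 : ℝ) ≤ 2 ^ i * del' (FL K V (2 ^ i)) V K := wc.trans s5
      _ ≤ 2 ^ w * del' (FL K V (2 ^ i)) V K := by gcongr
      _ = _ := mul_comm _ _

end Pool.Agent.Lib.MP_abd955_pr
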