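import Pool.Agent.Lib.MP_abd955_pr.Feature1
import Pool.Agent.Lib.MP_abd955_pr.Feature2

namespace Pool.Agent.Lib.MP_abd955_pr

theorem feature (c w0 : ℕ) : ∃ w ≥ w0, ∃ (K V : ℕ) (F : Fam), FamOk F V ∧ 4 * V + 2 ≤ w ∧
    0 < del' F V K ∧ del F V * (w : ℝ) ^ c ≤ del' F V K ^ 2 ∧ 1 ≤ del' F V K * 2 ^ w ∧
    del' F V K ≤ 1 := feature_of second_moment c w0

end Pool.Agent.Lib.MP_abd955_pr
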