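import Pool.Agent.Lib.MP_abd955_pr.FinDefs

namespace Pool.Agent.Lib.MP_abd955_pr

open Equiv Finset MeasureTheory ProbabilityTheory Filter Topology

@[simp] theorem act_true {D : Type} (b f : Perm D) : act b f (.of true) = b := by simp [act]

@[simp] theorem act_false {D : Type} (b f : Perm D) : act b f (.of false) = f := by simp [act]

theorem act_mul {D : Type} (b f : Perm D) (u v : Wd) (r : D) :
    act b f (u * v) r = act b f u (act b f v r) := by simp

theorem inv_of_invol {D : Type} {b : Perm D} (hb : ∀ d, b (b d) = d) : b⁻¹ = b := by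
  ext d
  rw [Perm.inv_eq_iff_eq, hb]

theorem mk_cons (x : Bool × Bool) (l : List (Bool × Bool)) :
    FreeGroup.mk (x :: l) = (if x.2 then FreeGroup.of x.1 else (FreeGroup.of x.1)⁻¹) *
      FreeGroup.mk l := by
  obtain ⟨s, t⟩ := x
  cases t
  · simp only [Bool.false_eq_true, if_false]
    rw [FreeGroup.of, FreeGroup.inv_mk, FreeGroup.mul_mk]; rfl
  · simp only [if_true]
    rw [FreeGroup.of, FreeGroup.mul_mk]; rfl

theorem foldr_eq_act {D : Type} {b : Perm D} (f : Perm D) (hb : ∀ d, b (b d) = d)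
    (l : List (Bool × Bool)) (r : D) :
    l.foldr (fun x d => if x.1 then b d else if x.2 then f d else f⁻¹ d) r =
      act b f (FreeGroup.mk l) r := by
  induction l with
  | nil => simp [← FreeGroup.one_eq_mk]
  | cons x l ih =>
    rw [List.foldr_cons, ih, mk_cons, act_mul]
    obtain ⟨s, t⟩ := x
    cases s <;> cases t <;> simp [inv_of_invol hb]

theorem code_iff {D : Type} {b : Perm D} (f : Perm D) (hb : ∀ d, b (b d) = d) (r : D) (w : Wd) :
    code b f r w = true ↔ act b f w r = r := by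
  simp only [code, decide_eq_true_eq]
  rw [foldr_eq_act f hb, FreeGroup.mk_toWord]

theorem range_act {D : Type} (a f : Perm D) : (act a f).range = Subgroup.closure {a, f} := by
  unfold act
  rw [FreeGroup.range_lift_eq_closure]
  congr 1
  ext g
  simp [eq_comm, or_comm]

theorem pretrans_iff {D : Type} (a f : Perm D) :
    MulAction.IsPretransitive (Subgroup.closure {a, f}) D ↔
      ∀ r d : D, ∃ w, act a f w r = d := by
  constructor
  · intro h r d
    obtain ⟨⟨g, hg⟩, hgr⟩ := h.exists_smul_eq r d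
    rw [← range_act] at hg
    obtain ⟨w, rfl⟩ := hg
    exact ⟨w, hgr⟩
  · intro h
    refine ⟨fun r d => ?_⟩
    obtain ⟨w, hw⟩ := h r d
    exact ⟨⟨act a f w, by rw [← range_act]; exact ⟨w, rfl⟩⟩, hw⟩

theorem act_comm {D D' : Type} {a f : Perm D} {a' f' : Perm D'} (g : D → D')
    (ha : ∀ d, g (a d) = a' (g d)) (hf : ∀ d, g (f d) = f' (g d)) (w : Wd) :
    ∀ d, g (act a f w d) = act a' f' w (g d) := by
  induction w using FreeGroup.induction_on with
  | C1 => simp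
  | of x => cases x <;> simp [ha, hf]
  | inv_of x ih =>
    intro d
    rw [map_inv, map_inv, eq_comm, Perm.inv_eq_iff_eq, ← ih]
    simp
  | mul u v hu hv => intro d; rw [act_mul, act_mul, hu, hv]

theorem act_eq_iff {D : Type} (a f : Perm D) (r : D) (u v : Wd) :
    act a f u r = act a f v r ↔ act a f (u⁻¹ * v) r = r := by
  rw [act_mul, map_inv, Perm.inv_eq_iff_eq, eq_comm]

theorem exists_iso {D D' : Type} {a f : Perm D} {a' f' : Perm D'} {r : D} {r' : D'}
    (ht : ∀ d, ∃ w, act a f w r = d) (ht' : ∀ d, ∃ w, act a' f' w r' = d)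
    (h : ∀ w, act a f w r = r ↔ act a' f' w r' = r') :
    ∃ g : D ≃ D', g r = r' ∧ (∀ d, g (a d) = a' (g d)) ∧ ∀ d, g (f d) = f' (g d) := by
  choose c hc using ht
  have key : ∀ u v, act a f u r = act a f v r ↔ act a' f' u r' = act a' f' v r' := by
    intro u v; rw [act_eq_iff, act_eq_iff, h]
  have hφ : ∀ w, act a' f' (c (act a f w r)) r' = act a' f' w r' := fun w =>
    (key _ _).1 (hc _)
  have hb : Function.Bijective fun d => act a' f' (c d) r' := by
    constructor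
    · intro d e hde
      rw [← hc d, ← hc e]
      exact (key _ _).2 hde
    · intro d
      obtain ⟨w, rfl⟩ := ht' d
      exact ⟨_, hφ w⟩
  refine ⟨Equiv.ofBijective _ hb, ?_, fun d => ?_, fun d => ?_⟩
  · simpa using hφ 1
  · have := hφ (.of true * c d)
    rw [act_mul, act_mul, hc] at this
    simpa using this
  · have := hφ (.of false * c d)
    rw [act_mul, act_mul, hc] at this
    simpa using this

theorem IsMap.conj {D : Type} {a f g : Perm D} {v : ℕ} (h : IsMap a f v)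
    (hg : ∀ d, g (f d) = f (g d)) : IsMap (g * a * g⁻¹) f v := by
  obtain ⟨h1, h2, h3⟩ := h
  refine ⟨fun d => ⟨by simp [(h1 _).1], fun hd => ?_⟩, ?_, ?_⟩
  · apply (h1 (g⁻¹ d)).2
    rw [Perm.eq_inv_iff_eq]
    exact hd
  · rw [pretrans_iff] at h2 ⊢
    intro r d
    obtain ⟨w, hw⟩ := h2 (g⁻¹ r) (g⁻¹ d)
    refine ⟨w, ?_⟩
    have := act_comm (a := a) (f := f) (a' := g * a * g⁻¹) (f' := f) g (by simp) hg w (g⁻¹ r)
    rw [hw] at this
    simpa using this.symm
  · rw [← h3]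
    have e : f * (g * a * g⁻¹) = g * (f * a) * g⁻¹ := by
      ext d; simp [hg]
    refine Nat.card_congr (Quotient.congr g⁻¹ fun x y => ?_)
    change (f * (g * a * g⁻¹)).SameCycle x y ↔ (f * a).SameCycle (g⁻¹ x) (g⁻¹ y)
    rw [e, Perm.sameCycle_conj]

open Classical in
theorem fibre_card {D X : Type} (f : Perm D) (S : Finset X) (G : Finset (Perm D))
    (α : X → Perm D) (ρ : X → D) (mul : Perm D → X → X)
    (hinj : ∀ x y, α x = α y → ρ x = ρ y → x = y)
    (hS : ∀ x ∈ S, (∀ d, α x (α x d) = d) ∧ ∀ r d, ∃ w, act (α x) f w r = d)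
    (hG : ∀ g ∈ G, (∀ d, g (f d) = f (g d)) ∧ ∀ x ∈ S, mul g x ∈ S ∧
      α (mul g x) = g * α x * g⁻¹ ∧ ρ (mul g x) = g (ρ x))
    (hG' : ∀ g : Perm D, (∀ d, g (f d) = f (g d)) → ∀ x ∈ S, ∀ y ∈ S, g (ρ x) = ρ y → g ∈ G)
    {x : X} (hx : x ∈ S) :
    #{y ∈ S | code (α y) f (ρ y) = code (α x) f (ρ x)} = #G := by
  symm
  refine Finset.card_bij (fun g _ => mul g x) (fun g hg => ?_) (fun g hg g' hg' e => ?_)
    (fun y hy => ?_)
  · obtain ⟨h1, h2⟩ := hG g hg
    obtain ⟨h3, h4, h5⟩ := h2 x hx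
    refine mem_filter.2 ⟨h3, funext fun w => ?_⟩
    rw [Bool.eq_iff_iff, code_iff _ (hS _ h3).1, code_iff _ (hS _ hx).1, h4, h5,
      ← act_comm (a := α x) (f := f) g (by simp) h1 w, g.apply_eq_iff_eq]
  · obtain ⟨h1, h2⟩ := hG g hg
    obtain ⟨-, h4, h5⟩ := h2 x hx
    obtain ⟨h1', h2'⟩ := hG g' hg'
    obtain ⟨-, h4', h5'⟩ := h2' x hx
    ext d
    obtain ⟨w, rfl⟩ := (hS x hx).2 (ρ x) d
    rw [act_comm (a := α x) (f := f) (a' := g * α x * g⁻¹) g (by simp) h1 w,
      act_comm (a := α x) (f := f) (a' := g' * α x * g'⁻¹) g' (by simp) h1' w,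
      ← h4, ← h4', ← h5, ← h5', e]
  · obtain ⟨hy, hc⟩ := mem_filter.1 hy
    obtain ⟨g, g1, g2, g3⟩ := exists_iso (a := α x) (f := f) (a' := α y) (f' := f)
      ((hS x hx).2 (ρ x)) ((hS y hy).2 (ρ y)) (fun w => by
        rw [← code_iff _ (hS _ hy).1, ← code_iff _ (hS _ hx).1, hc])
    have hg := hG' g g3 x hx y hy g1
    refine ⟨g, hg, ?_⟩
    obtain ⟨-, h4, h5⟩ := (hG g hg).2 x hx
    refine hinj _ _ ?_ (h5.trans g1)
    rw [h4]
    ext d
    simp [g2]

open Classical in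
theorem card_of_fibres {X Y : Type} (S : Finset X) (φ : X → Y) (m : ℕ)
    (hf : ∀ x ∈ S, #{y ∈ S | φ y = φ x} = m) (C : Set Y) :
    #{x ∈ S | φ x ∈ C} = #{z ∈ S.image φ | z ∈ C} * m := by
  rw [card_eq_sum_card_fiberwise (f := φ) (t := {z ∈ S.image φ | z ∈ C})]
  · rw [← smul_eq_mul, ← sum_const]
    refine sum_congr rfl fun z hz => ?_
    obtain ⟨hz, hC⟩ := mem_filter.1 hz
    obtain ⟨x, hx, rfl⟩ := mem_image.1 hz
    rw [← hf x hx, filter_filter]
    congr 1
    refine filter_congr fun y _ => ⟨fun h => h.2, fun h => ⟨h ▸ hC, h⟩⟩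
  · intro x hx
    obtain ⟨hx, hC⟩ := mem_filter.1 (mem_coe.1 hx)
    exact mem_coe.2 (mem_filter.2 ⟨mem_image_of_mem _ hx, hC⟩)

open Classical in
theorem uniformOn_of_fibres {X : Type} (S : Finset X) (φ : X → Om) (m : ℕ) (hm : 0 < m)
    (hf : ∀ x ∈ S, #{y ∈ S | φ y = φ x} = m) (C : Set Om) :
    uniformOn (φ '' S) C = (#{x ∈ S | φ x ∈ C} : ENNReal) / #S := by
  have h1 := card_of_fibres S φ m hf C
  have h2 := card_of_fibres S φ m hf Set.univ
  simp only [Set.mem_univ, filter_true] at h2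
  rw [← coe_image, uniformOn, cond_apply (Finset.measurableSet _), Measure.count_apply_finset]
  have e : ((S.image φ : Finset Om) : Set Om) ∩ C = ({z ∈ S.image φ | z ∈ C} : Finset Om) := by
    ext z; simp
  rw [e, Measure.count_apply_finset, h1, h2, Nat.cast_mul, Nat.cast_mul,
    ENNReal.mul_div_mul_right _ _ (by exact_mod_cast hm.ne') (ENNReal.natCast_ne_top m),
    ENNReal.div_eq_inv_mul]

theorem poly_inr (n p : ℕ) (i : Fin (2 * p + 2)) : poly n p (.inr i) = .inr (i + 1) := by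
  simp [poly]

/-- the class of an integer modulo the perimeter -/
def zi (p : ℕ) (k : ℤ) : Fin (2 * p + 2) := (k : ZMod (2 * p + 2))

theorem zi_add (p : ℕ) (k l : ℤ) : zi p (k + l) = zi p k + zi p l :=
  Int.cast_add (R := ZMod (2 * p + 2)) k l

theorem zi_neg (p : ℕ) (k : ℤ) : zi p (-k) = -zi p k :=
  Int.cast_neg (R := ZMod (2 * p + 2)) k

theorem zi_zero (p : ℕ) : zi p 0 = 0 := Int.cast_zero (R := ZMod (2 * p + 2))

theorem zi_one (p : ℕ) : zi p 1 = 1 := Int.cast_one (R := ZMod (2 * p + 2))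

theorem zi_rev (p : ℕ) (k : ℤ) : (zi p k).rev = zi p (-1 - k) := by
  rw [sub_eq_add_neg, zi_add, zi_neg, zi_neg, zi_one]
  generalize zi p k = i
  rw [← neg_add, eq_neg_iff_add_eq_zero, add_comm 1, ← add_assoc]
  have : i.rev + i = Fin.last _ := by
    apply Fin.ext
    have := i.2
    rw [Fin.val_add, Fin.val_rev, Fin.val_last, Nat.mod_eq_of_lt] <;> omega
  rw [this, Fin.last_add_one]

theorem poly_zpow (n p : ℕ) (k : ℤ) : (poly n p ^ k) (.inr 0) = .inr (zi p k) := by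
  induction k using Int.induction_on with
  | zero => simp [zi_zero]
  | succ k ih =>
    rw [add_comm (k : ℤ), zpow_add, Perm.mul_apply, ih, zpow_one, poly_inr, zi_add, zi_one,
      add_comm (zi p k)]
  | pred k ih =>
    rw [sub_eq_add_neg, add_comm (-k : ℤ), zpow_add, Perm.mul_apply, ih, zpow_neg_one,
      Perm.inv_eq_iff_eq, poly_inr, zi_add, zi_neg p 1, zi_one]
    congr 1
    abel

theorem exists_poly_zpow (n p : ℕ) (i : Fin (2 * p + 2)) :
    ∃ k : ℤ, (poly n p ^ k) (.inr 0) = .inr i := by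
  refine ⟨(ZMod.val (n := 2 * p + 2) i : ℤ), ?_⟩
  rw [poly_zpow, zi, Int.cast_natCast, ZMod.natCast_zmod_val]

theorem zi_eq_zero {p : ℕ} {k : ℤ} (h : zi p k = 0) : ((2 * p + 2 : ℕ) : ℤ) ∣ k :=
  (ZMod.intCast_zmod_eq_zero_iff_dvd k (2 * p + 2)).1 h

theorem comm_zpow {D : Type} {f g : Perm D} (hg : ∀ d, g (f d) = f (g d)) (k : ℤ) (d : D) :
    g ((f ^ k) d) = (f ^ k) (g d) := by
  have : Commute g f := by ext d; exact hg d
  exact congrArg (fun e : Perm D => e d) (this.zpow_right k).eq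

theorem mem_DiscS {n p : ℕ} {a : Perm (DD n p)} : a ∈ DiscS n p ↔
    IsMap a (poly n p) (n + p + 2) ∧
      ∀ i j, (poly n p * a).SameCycle (.inr i) (.inr j) → i = j := by
  simp [DiscS]

theorem mem_SphS {n : ℕ} {x : Perm (Fin n × Fin 4) × (Fin n × Fin 4)} :
    x ∈ SphS n ↔ IsMap x.1 (sq n) (n + 2) := by
  simp [SphS]

theorem disc_eq (n p : ℕ) :
    disc n p = (fun a : Perm (DD n p) => code a (poly n p) (.inr 0)) '' DiscS n p := by
  ext ω
  simp only [disc, Set.mem_ofPred_eq, Set.mem_image, mem_coe, mem_DiscS]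
  exact ⟨fun ⟨a, h1, h2, h3⟩ => ⟨a, ⟨h1, h2⟩, h3.symm⟩,
    fun ⟨a, ⟨h1, h2⟩, h3⟩ => ⟨a, h1, h2, h3.symm⟩⟩

theorem sphere_eq (n : ℕ) : sphere n =
    (fun x : Perm (Fin n × Fin 4) × (Fin n × Fin 4) => code x.1 (sq n) x.2) '' SphS n := by
  ext ω
  simp only [sphere, Set.mem_ofPred_eq, Set.mem_image, mem_coe, mem_SphS]
  exact ⟨fun ⟨a, r, h1, h2⟩ => ⟨(a, r), h1, h2.symm⟩,
    fun ⟨x, h1, h2⟩ => ⟨x.1, x.2, h1, h2.symm⟩⟩

open Classical in
theorem uniformOn_disc (n p : ℕ) (C : Set Om) : uniformOn (disc n p) C =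
    (#((DiscS n p).filter fun a : Perm (DD n p) => code a (poly n p) (.inr 0) ∈ C) : ENNReal)
      / #(DiscS n p) := by
  rw [disc_eq]
  let G : Finset (Perm (DD n p)) :=
    {g | (∀ d, g (poly n p d) = poly n p (g d)) ∧ g (.inr 0) = .inr 0}
  refine uniformOn_of_fibres _ _ #G (card_pos.2 ⟨1, by simp [G]⟩) (fun x hx => ?_) C
  refine fibre_card (poly n p) _ G id (fun _ => .inr 0) (fun g a => g * a * g⁻¹)
    (fun _ _ h _ => h) (fun a ha => ?_) (fun g hg => ?_) (fun g hg _ _ _ _ h => ?_) hx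
  · obtain ⟨⟨h1, h2, -⟩, -⟩ := mem_DiscS.1 ha
    exact ⟨fun d => (h1 d).1, (pretrans_iff _ _).1 h2⟩
  · obtain ⟨h1, h2⟩ : (∀ d, g (poly n p d) = poly n p (g d)) ∧ g (.inr 0) = .inr 0 := by
      simpa [G] using hg
    refine ⟨h1, fun a ha => ⟨?_, rfl, h2.symm⟩⟩
    obtain ⟨h3, h4⟩ := mem_DiscS.1 ha
    refine mem_DiscS.2 ⟨h3.conj h1, fun i j hij => h4 i j ?_⟩
    have e : poly n p * (g * a * g⁻¹) = g * (poly n p * a) * g⁻¹ := by
      ext d; simp [h1]
    have hfix : ∀ i, g⁻¹ (.inr i) = .inr i := by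
      intro i
      obtain ⟨k, hk⟩ := exists_poly_zpow n p i
      rw [Perm.inv_eq_iff_eq, ← hk, comm_zpow h1, h2]
    rwa [e, Perm.sameCycle_conj, hfix, hfix] at hij
  · simp only [G, mem_filter, mem_univ, true_and]
    exact ⟨hg, h⟩

open Classical in
theorem uniformOn_sphere (n : ℕ) (C : Set Om) : uniformOn (sphere n) C =
    (#{x ∈ SphS n | code x.1 (sq n) x.2 ∈ C} : ENNReal) / #(SphS n) := by
  rw [sphere_eq]
  let G : Finset (Perm (Fin n × Fin 4)) := {g | ∀ d, g (sq n d) = sq n (g d)}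
  refine uniformOn_of_fibres _ _ #G (card_pos.2 ⟨1, by simp [G]⟩) (fun x hx => ?_) C
  refine fibre_card (sq n) _ G Prod.fst Prod.snd (fun g x => (g * x.1 * g⁻¹, g x.2))
    (fun _ _ h h' => Prod.ext h h') (fun a ha => ?_) (fun g hg => ?_)
    (fun g hg _ _ _ _ _ => ?_) hx
  · obtain ⟨h1, h2, -⟩ := mem_SphS.1 ha
    exact ⟨fun d => (h1 d).1, (pretrans_iff _ _).1 h2⟩
  · have h1 : ∀ d, g (sq n d) = sq n (g d) := by simpa [G] using hg
    exact ⟨h1, fun a ha => ⟨mem_SphS.2 ((mem_SphS.1 ha).conj h1), rfl, rfl⟩⟩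
  · simp only [G, mem_filter, mem_univ, true_and]
    exact hg

instance finite_ball (R : ℕ) : Finite {w : Wd // w.norm ≤ R} := by
  have h := (List.finite_length_le (Bool × Bool) R).to_subtype
  refine Finite.of_injective (β := {l : List (Bool × Bool) | l.length ≤ R})
    (fun w => ⟨w.1.toWord, w.2⟩) fun u v h => ?_
  exact Subtype.ext (FreeGroup.toWord_injective (congrArg Subtype.val h))

/-- restriction of a code to the words of length at most R -/
def res (R : ℕ) (ω : Om) : {w : Wd // w.norm ≤ R} → Bool := fun w => ω w.1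

theorem continuous_res (R : ℕ) : Continuous (res R) :=
  continuous_pi fun w => continuous_apply w.1

theorem isClopen_res (R : ℕ) (T : Set ({w : Wd // w.norm ≤ R} → Bool)) :
    IsClopen (res R ⁻¹' T) := (isClopen_discrete T).preimage (continuous_res R)

theorem isClopen_of_local (R : ℕ) (C : Set Om)
    (h : ∀ ω ω' : Om, (∀ w : Wd, w.norm ≤ R → ω w = ω' w) → ω ∈ C → ω' ∈ C) : IsClopen C := by
  have : C = res R ⁻¹' (res R '' C) := by
    ext ω
    refine ⟨fun hω => ⟨ω, hω, rfl⟩, fun ⟨ω', h1, h2⟩ => h ω' ω (fun w hw => ?_) h1⟩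
    exact congrFun h2 ⟨w, hw⟩
  rw [this]
  exact isClopen_res R _

end Pool.Agent.Lib.MP_abd955_pr
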