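import Pool.Agent.Lib.MP_abd955_pr.ZipA
import Pool.Agent.Lib.MP_abd955_pr.Trans
import Pool.Agent.Lib.MP_abd955_pr.MeasA

/-! Rooted spheres are discs of perimeter two. -/

namespace Pool.Agent.Lib.MP_abd955_pr

open Equiv Equiv.Perm Finset

set_option linter.unusedSectionVars false

namespace Sph

section
variable {D D' : Type} [DecidableEq D] [Fintype D] [DecidableEq D'] [Fintype D']

lemma conn_act (a f : Perm D) (w : Wd) : ∀ r, conn a f r (act a f w r) := by
  induction w using FreeGroup.induction_on with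
  | C1 => intro r; simp
  | of x =>
    intro r
    cases x
    · simpa [act] using conn_f a f r
    · simpa [act] using conn_a a f r
  | inv_of x ih =>
    intro r
    have := ih (act a f (FreeGroup.of x)⁻¹ r)
    rw [← act_mul, mul_inv_cancel, map_one, Perm.one_apply] at this
    exact (conn a f).symm this
  | mul u v hu hv => intro r; rw [act_mul]; exact (conn a f).trans (hv r) (hu _)

lemma act_of_conn {a f : Perm D} {r d : D} (e : conn a f r d) : ∃ w, act a f w r = d := by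
  induction e with
  | rel x y h =>
    rcases h with rfl | rfl
    · exact ⟨FreeGroup.of true, by simp [act]⟩
    · exact ⟨FreeGroup.of false, by simp [act]⟩
  | refl x => exact ⟨1, by simp⟩
  | symm x y _ ih =>
    obtain ⟨w, rfl⟩ := ih
    exact ⟨w⁻¹, by rw [← act_mul, inv_mul_cancel, map_one, Perm.one_apply]⟩
  | trans x y z _ _ i1 i2 =>
    obtain ⟨u, rfl⟩ := i1
    obtain ⟨v, rfl⟩ := i2
    exact ⟨v * u, act_mul _ _ _ _ _⟩

lemma card_quot (r : Setoid D) : Nat.card (Quotient r) = cnt r univ := by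
  classical
  unfold cnt
  rw [Nat.card_eq_fintype_card, ← card_univ]
  congr 1

lemma isMap_iff (a f : Perm D) (v : ℕ) : IsMap a f v ↔
    (∀ d, a (a d) = d ∧ a d ≠ d) ∧ (∀ r d, conn a f r d) ∧ cnt (sc (f * a)) univ = v := by
  unfold IsMap
  rw [pretrans_iff, card_quot]
  refine and_congr_right fun _ => and_congr ?_ Iff.rfl
  exact forall₂_congr fun r d => ⟨fun ⟨w, e⟩ => e ▸ conn_act a f w r, act_of_conn⟩

lemma sc_map {π : Perm D} {π' : Perm D'} {φ : D → D'} (hi : Function.Injective φ)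
    (h : ∀ p, π' (φ p) = φ (π p)) (p q : D) : π.SameCycle p q ↔ π'.SameCycle (φ p) (φ q) := by
  constructor
  · intro e
    refine sc_ind (P := fun z => π'.SameCycle (φ p) (φ z)) e (SameCycle.refl _ _) fun z hz => ?_
    rw [← h]; exact hz.trans (sc_step _ _)
  · intro e
    obtain ⟨z, h1, h2⟩ := sc_ind (P := fun z => ∃ q', z = φ q' ∧ π.SameCycle p q') e
      ⟨p, rfl, SameCycle.refl _ _⟩ (by
        rintro z ⟨q', rfl, h2⟩
        exact ⟨π q', h q', h2.trans (sc_step _ _)⟩)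
    rwa [hi h1]

end

variable {n : ℕ}

abbrev xx (n : ℕ) : DD n 0 := .inr 0
abbrev yy (n : ℕ) : DD n 0 := .inr 1

lemma two_cases (i : Fin (2 * 0 + 2)) : i = 0 ∨ i = 1 := by revert i; decide

lemma dd_cases (z : DD n 0) : z = xx n ∨ z = yy n ∨ ∃ u, z = .inl u := by
  rcases z with u | i
  · exact Or.inr (Or.inr ⟨u, rfl⟩)
  · rcases two_cases i with rfl | rfl
    exacts [Or.inl rfl, Or.inr (Or.inl rfl)]

lemma fx : poly n 0 (xx n) = yy n := by rw [poly_inr]; rfl
lemma fy : poly n 0 (yy n) = xx n := by rw [poly_inr]; rfl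
lemma fl (u) : poly n 0 (.inl u) = .inl (sq n u) := rfl
lemma xy : xx n ≠ yy n := fun e => absurd (Sum.inr.inj e) (by decide)

lemma ek_neg : ek n 0 (-1) = yy n := by
  rw [ek, zpow_neg_one, Perm.inv_eq_iff_eq, fy]

/-- the disc a is the sphere b cut open along the edge r0 r1 -/
structure SR (a : Perm (DD n 0)) (b : Perm (Fin n × Fin 4)) (r0 r1 : Fin n × Fin 4) : Prop where
  ax : a (xx n) = .inl r0
  ay : a (yy n) = .inl r1
  a0 : a (.inl r0) = xx n
  a1 : a (.inl r1) = yy n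
  b0 : b r0 = r1
  b1 : b r1 = r0
  ab : ∀ u, u ≠ r0 → u ≠ r1 → a (.inl u) = .inl (b u)

namespace SR

variable {a : Perm (DD n 0)} {b : Perm (Fin n × Fin 4)} {r0 r1 : Fin n × Fin 4}
  (h : SR a b r0 r1)
include h

lemma ne : r0 ≠ r1 := fun e => xy (by rw [← h.a0, e, h.a1])

lemma ok : ZOk a (xx n) (yy n) :=
  ⟨xy, by rw [h.ax, h.a0], by rw [h.ay, h.a1], by simp [h.ax], by simp [h.ay], by simp [h.ax]⟩

lemma cases (u : Fin n × Fin 4) :
    u = r0 ∨ u = r1 ∨ (u ≠ r0 ∧ u ≠ r1 ∧ a (.inl u) = .inl (b u)) := by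
  by_cases h0 : u = r0
  · exact Or.inl h0
  by_cases h1 : u = r1
  · exact Or.inr (Or.inl h1)
  exact Or.inr (Or.inr ⟨h0, h1, h.ab u h0 h1⟩)

lemma zb_inl (u : Fin n × Fin 4) : zb a (xx n) (yy n) (.inl u) = .inl (b u) := by
  rcases h.cases u with rfl | rfl | ⟨h0, h1, h2⟩
  · rw [← h.ax, h.ok.z_ax, h.ay, h.b0]
  · rw [← h.ay, h.ok.z_ay, h.ax, h.b1]
  · rw [h.ok.z_of (by simp) (by simp) (by simp [h.ax, h0]) (by simp [h.ay, h1]), h2]

lemma cnt_eq : cnt (sc (poly n 0 * a)) univ = cnt (sc (sq n * b)) univ := by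
  rw [← h.ok.cnt_zb fx fy (mem_univ _) (mem_univ _),
    cnt_map (sc (sq n * b)) (sc (poly n 0 * zb a (xx n) (yy n))) Sum.inl univ fun p _ q _ =>
      sc_map Sum.inl_injective (fun p => by rw [Perm.mul_apply, h.zb_inl]; rfl) p q]
  congr 1
  ext z
  rcases dd_cases z with rfl | rfl | ⟨u, rfl⟩ <;> simp

lemma inv_iff : (∀ d, a (a d) = d ∧ a d ≠ d) ↔ ∀ d, b (b d) = d ∧ b d ≠ d := by
  constructor
  · intro H u
    rcases h.cases u with rfl | rfl | ⟨h0, h1, h2⟩
    · rw [h.b0, h.b1]; exact ⟨rfl, h.ne.symm⟩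
    · rw [h.b1, h.b0]; exact ⟨rfl, h.ne⟩
    · have := H (.inl u)
      rw [h2, h.ab _ (fun e => h1 (b.injective (e.trans h.b1.symm)))
        fun e => h0 (b.injective (e.trans h.b0.symm))] at this
      simpa using this
  · intro H z
    rcases dd_cases z with rfl | rfl | ⟨u, rfl⟩
    · exact ⟨h.ok.ax, h.ok.nx⟩
    · exact ⟨h.ok.ay, h.ok.ny⟩
    rcases h.cases u with rfl | rfl | ⟨h0, h1, h2⟩
    · rw [h.a0, h.ax]; simp
    · rw [h.a1, h.ay]; simp
    · rw [h2, h.ab _ (fun e => h1 (b.injective (e.trans h.b1.symm)))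
        fun e => h0 (b.injective (e.trans h.b0.symm))]
      simpa using H u

lemma conn_iff : (∀ r d, conn a (poly n 0) r d) ↔ ∀ r d, conn b (sq n) r d := by
  constructor
  · intro H r d
    have c01 : conn b (sq n) r0 r1 := h.b0 ▸ conn_a b _ r0
    refine conn_le (conn b (sq n)) (Sum.elim id fun _ => r0) (fun z => ?_) (fun z => ?_)
      (H (.inl r) (.inl d))
    · rcases dd_cases z with rfl | rfl | ⟨u, rfl⟩
      · rw [h.ax]; exact (conn b _).refl _
      · rw [h.ay]; exact c01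
      rcases h.cases u with rfl | rfl | ⟨h0, h1, h2⟩
      · rw [h.a0]; exact (conn b _).refl _
      · rw [h.a1]; exact (conn b _).symm c01
      · rw [h2]; exact conn_a b _ u
    · rcases dd_cases z with rfl | rfl | ⟨u, rfl⟩
      · rw [fx]; exact (conn b _).refl _
      · rw [fy]; exact (conn b _).refl _
      · exact conn_f b _ u
  · intro H
    have c0 : conn a (poly n 0) (xx n) (.inl r0) := h.ax ▸ conn_a a _ _
    have c1 : conn a (poly n 0) (yy n) (.inl r1) := h.ay ▸ conn_a a _ _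
    have c2 : conn a (poly n 0) (xx n) (yy n) := fx ▸ conn_f a _ _
    have c3 : conn a (poly n 0) (.inl r0) (.inl r1) :=
      (conn a _).trans ((conn a _).symm c0) ((conn a _).trans c2 c1)
    have k : ∀ p q, conn a (poly n 0) (.inl p) (.inl q) := fun p q =>
      conn_le (conn a (poly n 0)) Sum.inl (fun u => by
        rcases h.cases u with rfl | rfl | ⟨h0, h1, h2⟩
        · rw [h.b0]; exact c3
        · rw [h.b1]; exact (conn a _).symm c3
        · rw [← h2]; exact conn_a a _ _) (fun u => conn_f a _ (.inl u)) (H p q)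
    have k2 : ∀ z, conn a (poly n 0) z (.inl r0) := fun z => by
      rcases dd_cases z with rfl | rfl | ⟨u, rfl⟩
      exacts [c0, (conn a _).trans c1 (k _ _), k _ _]
    exact fun r d => (conn a _).trans (k2 r) ((conn a _).symm (k2 d))

lemma isMap (v : ℕ) : IsMap a (poly n 0) v ↔ IsMap b (sq n) v := by
  rw [isMap_iff, isMap_iff, h.inv_iff, h.conn_iff, h.cnt_eq]

lemma uniq {b' : Perm (Fin n × Fin 4)} {s0 s1 : Fin n × Fin 4} (h' : SR a b' s0 s1) :
    b = b' ∧ r1 = s1 :=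
  ⟨Equiv.ext fun u => Sum.inl.inj ((h.zb_inl u).symm.trans (h'.zb_inl u)),
    Sum.inl.inj (h.ay.symm.trans h'.ay)⟩

lemma uniq' {a' : Perm (DD n 0)} (h' : SR a' b r0 r1) : a = a' := by
  ext z
  rcases dd_cases z with rfl | rfl | ⟨u, rfl⟩
  · rw [h.ax, h'.ax]
  · rw [h.ay, h'.ay]
  rcases h.cases u with rfl | rfl | ⟨h0, h1, h2⟩
  · rw [h.a0, h'.a0]
  · rw [h.a1, h'.a1]
  · rw [h2, h'.ab u h0 h1]

lemma fold (hn : 1 ≤ n) (ha : a ∈ DiscS n 0) (u : Fin n × Fin 4) :
    foldP a (.inl u) = .inl (b u) := by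
  rw [(foldP_apply hn ha _).1]
  have m0 : mirF n 0 (xx n) = yy n := rfl
  have m1 : mirF n 0 (yy n) = xx n := rfl
  unfold zipf extS
  rw [if_neg (by simp)]
  rcases h.cases u with rfl | rfl | ⟨h0, h1, h2⟩
  · rw [h.a0, if_pos (by simp), m0, h.ay, h.b0]
  · rw [h.a1, if_pos (by simp), m1, h.ax, h.b1]
  · rw [h2, if_neg (by simp)]

end SR

def K2 (n : ℕ) : Cfg (DD n 0) := ⟨univ, {xx n, yy n}, poly n 0⟩

lemma K2_wf : WF (K2 n) := by
  refine ⟨subset_univ _, fun _ _ => mem_univ _, fun z hz => ?_, fun z _ hz => ?_⟩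
  · simp only [K2, mem_insert, mem_singleton] at hz ⊢
    rcases hz with rfl | rfl
    exacts [Or.inr fx, Or.inl fy]
  · simp only [K2, mem_insert, mem_singleton, not_or] at hz ⊢
    rcases dd_cases z with rfl | rfl | ⟨⟨i, j⟩, rfl⟩
    · exact absurd rfl hz.1
    · exact absurd rfl hz.2
    · have : ∀ j : Fin 4, finRotate 4 (finRotate 4 (finRotate 4 (finRotate 4 j))) = j ∧
          finRotate 4 (finRotate 4 j) ≠ j := by decide
      simp only [fl, sq, prodCongr_apply, Prod.map, Equiv.refl_apply, ne_eq, Sum.inl.injEq,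
        Prod.mk.injEq, true_and]
      exact this j

lemma no_loop {a : Perm (DD n 0)} (ha : IsMap a (poly n 0) (n + 2)) :
    ¬(poly n 0 * a).SameCycle (xx n) (yy n) := by
  intro e
  obtain ⟨h1, h2, h3⟩ := (isMap_iff _ _ _).1 ha
  have mx : xx n ∈ (K2 n).X := by simp [K2]
  have my : yy n ∈ (K2 n).X := by simp [K2]
  have p : Pre (K2 n) {yy n} a := by
    refine ⟨fun z _ => ⟨mem_univ _, h1 z⟩, fun p hp q hq _ => ?_, fun u _ => ⟨_, mx, h2 _ _⟩, ?_⟩
    · rw [mem_singleton.1 hp, mem_singleton.1 hq]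
    · have c1 := (K2_wf (n := n)).faces
      have c2 := cnt_two (g := poly n 0) mx fx fy
      have c3 : ((K2 n).X.erase (xx n)).erase (yy n) = ∅ := by
        ext z
        simp only [K2, mem_erase, mem_insert, mem_singleton, notMem_empty]
        tauto
      rw [c3, cnt_empty] at c2
      have c4 : (K2 n).X.card = 2 := card_pair xy
      have c5 : (K2 n).U.card = n * 4 + 2 := by simp [K2]
      change 2 * cnt (sc (poly n 0 * a)) univ = 2 * cnt (sc (K2 n).f) (K2 n).U + (K2 n).X.card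
      change cnt (sc (K2 n).f) (K2 n).X = _ at c2
      omega
  have q := (split_iff K2_wf (Y := {yy n}) (by simp [K2]) mx (by simpa using xy)
    (mem_singleton_self _) (fx ▸ sc_step (poly n 0) (xx n))).2 ⟨p, e⟩
  have c : Cyc ((K2 n).sw (xx n) (yy n)).f [xx n] :=
    cyc_cons.2 ⟨by simp, by simp [Cfg.sw, K2, fx]⟩
  have := even_hole (K2_wf.sw mx my) q c (fun z hz => List.mem_singleton.1 hz ▸ mx)
  simp at this

/-- cut open along the root edge -/
def cutO (x : Perm (Fin n × Fin 4) × (Fin n × Fin 4)) : Perm (DD n 0) :=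
  swap (.inl (x.1 x.2)) (yy n) * Equiv.sumCongr x.1 (swap 0 1) * swap (.inl (x.1 x.2)) (yy n)

lemma cutO_SR {b : Perm (Fin n × Fin 4)} {r : Fin n × Fin 4} (h1 : b (b r) = r) (h2 : b r ≠ r) :
    SR (cutO (b, r)) b (b r) r := by
  refine ⟨?_, ?_, ?_, ?_, h1, rfl, fun u u0 u1 => ?_⟩
  · simp [cutO, swap_apply_of_ne_of_ne]
  · simp [cutO, h1, swap_apply_of_ne_of_ne, h2.symm]
  · simp [cutO, swap_apply_of_ne_of_ne]
  · simp [cutO, swap_apply_of_ne_of_ne, h2.symm]
  · simp [cutO, swap_apply_of_ne_of_ne, u0, u1]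

lemma exists_SR (hn : 1 ≤ n) {a : Perm (DD n 0)} (ha : a ∈ DiscS n 0) :
    ∃ b r, SR a b (b r) r := by
  have hi := (mem_DiscS.1 ha).1.1
  have l : ∀ i, ∃ r, a (.inr i) = .inl r := fun i => by
    rcases e : a (.inr i) with r | j
    exacts [⟨r, rfl⟩, absurd e (disc_nondeg hn ha i j)]
  obtain ⟨r0, e0⟩ := l 0
  obtain ⟨r1, e1⟩ := l 1
  have ok : ZOk a (xx n) (yy n) :=
    ⟨xy, (hi _).1, (hi _).1, (hi _).2, (hi _).2, disc_nondeg hn ha _ _⟩
  obtain ⟨⟨b, c⟩, hb⟩ := Perm.mem_sumCongrHom_range_of_perm_mapsTo_inl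
    (σ := zb a (xx n) (yy n)) (by
      rintro _ ⟨u, rfl⟩
      rcases dd_cases (zb a (xx n) (yy n) (.inl u)) with e | e | ⟨v, e⟩
      · exact absurd ((zb a _ _).injective (e.trans ok.z_y.symm)) (by simp)
      · exact absurd ((zb a _ _).injective (e.trans ok.z_x.symm)) (by simp)
      · exact ⟨v, e.symm⟩)
  have hz : ∀ u, zb a (xx n) (yy n) (.inl u) = .inl (b u) := fun u => by rw [← hb]; rfl
  have b0 : b r0 = r1 := Sum.inl.inj (by rw [← hz, ← e0, ok.z_ax, e1])
  have b1 : b r1 = r0 := Sum.inl.inj (by rw [← hz, ← e1, ok.z_ay, e0])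
  refine ⟨b, r1, b1.symm ▸ ⟨e0, e1, by rw [← e0, (hi _).1], by rw [← e1, (hi _).1], b0, b1,
    fun u u0 u1 => ?_⟩⟩
  rw [← hz, ok.z_of (by simp) (by simp) (by simp [e0, u0]) (by simp [e1, u1])]

open Classical in
theorem card_filter (hn : 1 ≤ n) (R : ℕ) (P : ∀ D : Type, Perm D → Perm D → D → Prop)
    (hP : LocalP R P) : ((SphS n).filter fun x => P _ x.1 (sq n) x.2).card =
      ((DiscS n 0).filter fun a => P _ (foldP a) (poly n 0) (a (ek n 0 (-1)))).card := by
  have sr : ∀ x ∈ SphS n, SR (cutO x) x.1 (x.1 x.2) x.2 := fun x hx =>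
    cutO_SR ((mem_SphS.1 hx).1 _).1 ((mem_SphS.1 hx).1 _).2
  have md : ∀ x ∈ SphS n, cutO x ∈ DiscS n 0 := fun x hx => by
    have m := ((sr x hx).isMap _).2 (mem_SphS.1 hx)
    refine mem_DiscS.2 ⟨m, fun i j e => ?_⟩
    rcases two_cases i with rfl | rfl <;> rcases two_cases j with rfl | rfl
    exacts [rfl, absurd e (no_loop m), absurd e.symm (no_loop m), rfl]
  have pp : ∀ x ∈ SphS n, P _ x.1 (sq n) x.2 ↔
      P _ (foldP (cutO x)) (poly n 0) (cutO x (ek n 0 (-1))) := fun x hx => by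
    rw [ek_neg, (sr x hx).ay]
    have k : ∀ w : Wd, act x.1 (sq n) w x.2 = x.2 ↔
        act (foldP (cutO x)) (poly n 0) w (.inl x.2) = .inl x.2 := fun w => by
      rw [← act_comm Sum.inl (fun d => ((sr x hx).fold hn (md x hx) d).symm)
        (fun d => (fl d).symm) w, Sum.inl.injEq]
    exact ⟨hP _ _ _ _ _ _ _ _ fun w _ => k w, hP _ _ _ _ _ _ _ _ fun w _ => (k w).symm⟩
  refine card_bij (fun x _ => cutO x) (fun x hx => ?_) (fun x hx y hy e => ?_) fun a ha => ?_
  · obtain ⟨h1, h2⟩ := mem_filter.1 hx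
    exact mem_filter.2 ⟨md x h1, (pp x h1).1 h2⟩
  · have h1 := sr x (mem_filter.1 hx).1
    have h2 := sr y (mem_filter.1 hy).1
    rw [← e] at h2
    exact Prod.ext (h1.uniq h2).1 (h1.uniq h2).2
  · obtain ⟨h1, h2⟩ := mem_filter.1 ha
    obtain ⟨b, r, s⟩ := exists_SR hn h1
    have m : (b, r) ∈ SphS n := mem_SphS.2 ((s.isMap _).1 (mem_DiscS.1 h1).1)
    have e : cutO (b, r) = a := (sr _ m).uniq' s
    exact ⟨(b, r), mem_filter.2 ⟨m, (pp _ m).2 (e ▸ h2)⟩, e⟩

end Sph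

open Classical in
/-- rooted spheres = discs of perimeter 2 -/
theorem sphere_card {n : ℕ} (hn : 1 ≤ n) (R : ℕ) (P : ∀ D : Type, Perm D → Perm D → D → Prop)
    (hP : LocalP R P) : ((SphS n).filter fun x => P _ x.1 (sq n) x.2).card =
      ((DiscS n 0).filter fun a => P _ (foldP a) (poly n 0) (a (ek n 0 (-1)))).card ∧
    (SphS n).card = (DiscS n 0).card := by
  refine ⟨Sph.card_filter hn R P hP, ?_⟩
  have := Sph.card_filter hn 0 (fun _ _ _ _ => True) fun _ _ _ _ _ _ _ _ _ h => h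
  simpa using this

end Pool.Agent.Lib.MP_abd955_pr
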