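import Pool.Agent.Lib.MP_abd955_pr.AsmC
import Pool.Agent.Lib.MP_abd955_pr.Feature
import Pool.Agent.Lib.MP_abd955_pr.Zip

/-! Assembly of the finite estimates. -/

namespace Pool.Agent.Lib.MP_abd955_pr

open Equiv Equiv.Perm Finset Filter Topology

lemma eb_good {δ : ℝ} (hδ : 0 < δ) (Rb : ℕ) : ∃ J,
    EB DiscS (fun _ _ a => GoodF J Rb a) δ ∧ EB DS2 (fun _ _ a => GoodG J Rb a) δ := by
  obtain ⟨C, hC, h⟩ := eb_ext
  obtain ⟨w, hw⟩ := ev_small C 0 0 hδ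
  obtain ⟨w1, -, w2, -⟩ := hw w le_rfl
  have w3 : (5 : ℝ) ≤ w := by exact_mod_cast (show 5 ≤ w by omega)
  have s1 : (1 : ℝ) ≤ ((Rb + 2 : ℕ) : ℝ) := by exact_mod_cast (show 1 ≤ Rb + 2 by omega)
  have hM : 1 ≤ (Rb + 2) ^ 2 * w ^ 2 := Nat.pos_of_ne_zero (by positivity)
  have hx : (2 : ℝ) * w ≤ ((Rb + 2 : ℕ) : ℝ) ^ 2 * w ^ (2 * 1) := by
    have := mul_le_mul_of_nonneg_right (one_le_pow₀ (n := 2) s1) (sq_nonneg (w : ℝ))
    rw [show 2 * 1 = 2 by rfl]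
    nlinarith
  have e := (xerr_le hC (s := Rb + 2) (w := w) (a := 0) (b := 1) (e := 2) (q := 1) (R := Rb)
    (x := 2) (by omega) (by omega) (by simp) hx le_rfl le_rfl le_rfl).trans w2
  obtain ⟨h1, h2⟩ := h (fun _ => ∅) 0 (1 / (((Rb + 2 : ℕ) : ℝ) * w ^ 1)) Rb ((Rb + 2) ^ 2 * w ^ 2)
    ((Rb + 2) ^ 2 * w ^ (2 * 1)) empty_ok (by positivity)
    (by rw [div_le_one (by positivity)]; nlinarith) (by rw [empty_del]; positivity) hM hM
  refine ⟨_, h1.mono 0 (fun n p hn _ a ha h => goodF_of hn ha h.1) e,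
    (h2 0 1 le_rfl).mono 0 (fun n p hn _ a ha h => goodG_of hn (Fintype.mem_piFinset.1 ha) h.1) ?_⟩
  simpa using e

open Classical in
theorem main_est {δ : ℝ} (hδ : 0 < δ) : ∃ (F : Fam) (V r R r' R' ρ : ℕ), FamOk F V ∧
    EB DiscS (fun n p a => PP F r R r' R' ρ _ (foldP a) (poly n p) (a (ek n p (-1)))) (8 * δ) ∧
    EB DS2 (fun n p a => ¬PP F r R r' R' ρ _ (glueP a) (gpoly n p) (true, a true (ek n p 0)))
      (7 * δ) ∧
    ∀ᶠ n : ℕ in atTop, (((DiscS n 0).filter fun a =>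
      PP F r R r' R' ρ _ (foldP a) (poly n 0) (a (ek n 0 (-1)))).card : ℝ) ≤
        2 * δ * (DiscS n 0).card := by
  obtain ⟨C0, hcov⟩ := eb_cov
  obtain ⟨C, hC, hext⟩ := eb_ext
  obtain ⟨Cs, hCs, hsph⟩ := sphere_fin
  obtain ⟨w0, hw0⟩ := ev_small C Cs C0 hδ
  obtain ⟨w, hw, K, V, F, hF, hV, d0, d1, d2, d3⟩ := feature 324 w0
  obtain ⟨w1, w2, w3, w4, w5, w6⟩ := hw0 w hw
  obtain ⟨s, hs, s1, s2⟩ := exists_s0 d0 d3
  have hw1 : 1 ≤ w := by omega
  have w7 : (5 : ℝ) ≤ w := by exact_mod_cast (show 5 ≤ w by omega)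
  have s3 : (1 : ℝ) ≤ s := by exact_mod_cast hs
  have s4 : (s : ℝ) ^ 2 ≤ 4 * 2 ^ w := by
    calc (s : ℝ) ^ 2 ≤ del' F V K * 2 ^ w * s ^ 2 := le_mul_of_one_le_left (by positivity) d2
      _ = del' F V K * s ^ 2 * 2 ^ w := by ring
      _ ≤ 4 * 2 ^ w := by gcongr
  have hs2 : 1 ≤ s ^ 2 := Nat.one_le_pow _ _ hs
  obtain ⟨η, hη⟩ : ∃ η : ℝ, η = 1 / (s * w ^ 80) := ⟨_, rfl⟩
  have η0 : 0 < η := by rw [hη]; positivity
  have η1 : η ≤ 1 := by
    rw [hη, div_le_one (by positivity)]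
    exact one_le_mul_of_one_le_of_one_le s3 (one_le_pow₀ (by linarith))
  have η2 : del F V ≤ η ^ 4 := by
    have a1 : (del' F V K * s ^ 2) ^ 2 ≤ 4 ^ 2 := pow_le_pow_left₀ (by positivity) s2 2
    have a2 : (2 : ℝ) ^ 4 ≤ w ^ 4 := pow_le_pow_left₀ (by norm_num) (by linarith) 4
    have a3 : del F V * (s * w ^ 80) ^ 4 * w ^ 4 ≤ 1 * w ^ 4 := by
      calc del F V * (s * w ^ 80) ^ 4 * w ^ 4 = del F V * w ^ 324 * s ^ 4 := by ring
        _ ≤ del' F V K ^ 2 * s ^ 4 := by gcongr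
        _ = (del' F V K * s ^ 2) ^ 2 := by ring
        _ ≤ 1 * w ^ 4 := by linarith
    rw [hη, div_pow, one_pow, le_div_iff₀ (by positivity)]
    exact le_of_mul_le_mul_right a3 (by positivity)
  obtain ⟨L, hL⟩ : ∃ L : ℕ → ℕ, ∀ e, L e = s * w ^ e := ⟨_, fun _ => rfl⟩
  obtain ⟨A, hA⟩ : ∃ A : ℕ → ℕ, ∀ e, A e = s ^ 2 * w ^ e := ⟨_, fun _ => rfl⟩
  have L1 : ∀ e e', e < e' → 5 * L e ≤ L e' := fun e e' h => by
    rw [hL, hL]; exact pw_step (by omega) hw1 h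
  have L2 : ∀ e, 1 ≤ e → w ≤ L e := fun e h => by rw [hL]; exact pw_ge hs hw1 h
  have A1 : ∀ e e', e < e' → 5 * A e ≤ A e' := fun e e' h => by
    rw [hA, hA]; exact pw_step (by omega) hw1 h
  have A2 : ∀ e, 1 ≤ A e := fun e => by rw [hA]; exact Nat.pos_of_ne_zero (by positivity)
  have A3 : ∀ b, A (2 * b) = L b ^ 2 := fun b => by rw [hA, hL]; ring
  have cv : ∀ N b, 1 ≤ N → N ≤ A (2 * b) → ∃ x, x + 5 * w ≤ L (b + 2) ∧
      EB DiscS (fun _ _ a => Cov (A 152 + 1) N x a) δ := by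
    intro N b h1 h2
    refine ⟨C0 * L b * (10 * w), by rw [hL, hL]; exact rad_le hs w1 b,
      (hcov _ N (L b) (10 * w) h1 (by rw [← A3]; exact h2)).le ?_⟩
    rw [hA]
    exact (cov_err hs hw1 s4).trans w4
  have xe : ∀ (R a b e : ℕ) (x : ℕ), R + 2 ≤ L a → x * w ≤ A (2 * b) → a + 1 ≤ b → a + b + 1 ≤ e →
      a + 2 * b + 1 ≤ 3 * 80 → xerr C η x R (A e) (A (2 * b)) ≤ δ := by
    intro R a b e x h1 h2 h3 h4 h5
    rw [hL] at h1
    rw [hA] at h2
    rw [hη, hA, hA]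
    exact (xerr_le hC hs hw1 h1 (by exact_mod_cast h2) h3 h4 h5).trans w3
  have two : ∀ b, 1 ≤ b → 2 * w ≤ A (2 * b) := fun b hb => by
    have := A1 1 (2 * b) (by omega)
    have : w ≤ A 1 := by rw [hA]; exact pw_ge hs2 hw1 le_rfl
    omega
  have xF : ∀ R a, R + 2 ≤ L a → a ≤ 79 →
      EB DiscS (fun _ _ c => ExtF R (A (2 * (a + 1))) c ∧ NoBF F V R c) δ ∧
      EB DS2 (fun _ _ c => ExtG R (A (2 * (a + 1))) 0 (1 : ℕ) c ∧ NoBG F V R 0 (1 : ℕ) c) δ := by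
    intro R a h1 h2
    have e := xe R a (a + 1) (2 * (a + 1)) 2 h1 (two _ (by omega)) le_rfl (by omega) (by omega)
    obtain ⟨a1, a2⟩ := hext F V η R _ _ hF η0 η1 η2 (A2 (2 * (a + 1))) (A2 (2 * (a + 1)))
    exact ⟨a1.le (by simpa using e), (a2 0 1 le_rfl).le (by simpa using e)⟩
  have tr : ((w ^ 73 + 1 : ℕ) : ℝ) * ((1 - del' F V K / 32) ^ (s ^ 2 * w) +
      4 * ((s ^ 2 * w : ℕ) : ℝ) / (A 77 : ℕ)) ≤ δ := by
    rw [hA]; exact (trial_err hs hw1 d3 s1).trans w5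
  have tr1 : (1 - del' F V K / 32) ^ (s ^ 2 * w) + 4 * ((s ^ 2 * w : ℕ) : ℝ) / (A 77 : ℕ) ≤ δ := by
    refine le_trans (le_mul_of_one_le_left ?_ ?_) tr
    · have := pow_nonneg (show 0 ≤ 1 - del' F V K / 32 by linarith) (s ^ 2 * w)
      positivity
    · exact_mod_cast Nat.le_add_left 1 _
  have g1 : A 150 = w ^ 73 * A 77 := by rw [hA, hA]; ring
  have g2 : A 140 = w ^ 63 * A 77 := by rw [hA, hA]; ring
  have g3 : w ^ 63 ≤ w ^ 73 := Nat.pow_le_pow_right hw1 (by norm_num)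
  have g4 : A 161 * w = A 162 := by rw [hA, hA]; ring
  obtain ⟨x0, x0l, c0⟩ := cv (A 132) 66 (A2 _) le_rfl
  obtain ⟨xg, xgl, cg⟩ := cv (2 * A 77) 39 (by have := A2 77; omega)
    (by have := A1 77 (2 * 39) (by norm_num); omega)
  obtain ⟨xa, xal, ca⟩ := cv (A 142) 71 (A2 _) le_rfl
  obtain ⟨x1, x1l, c1⟩ := cv (A 152) 76 (A2 _) le_rfl
  obtain ⟨y0, y0l, c2⟩ := cv (A 124) 62 (A2 _) le_rfl
  have l1 := L1 64 65 (by norm_num)
  have l2 := L1 64 68 (by norm_num)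
  have l3 := L1 68 69 (by norm_num)
  have l4 := L1 73 74 (by norm_num)
  have l5 := L1 73 78 (by norm_num)
  have l6 := L1 78 79 (by norm_num)
  have l7 := L1 41 42 (by norm_num)
  have m1 := L2 64 (by norm_num)
  have m2 := L2 68 (by norm_num)
  have m3 := L2 73 (by norm_num)
  have m4 := L2 78 (by norm_num)
  have m5 := L2 41 (by norm_num)
  have n1 := A1 77 124 (by norm_num)
  have n2 := A1 124 132 (by norm_num)
  have n3 := A1 132 140 (by norm_num)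
  have n4 := A1 140 141 (by norm_num)
  have n5 := A1 141 142 (by norm_num)
  have n6 := A1 142 150 (by norm_num)
  have n7 := A1 150 152 (by norm_num)
  have n8 := A1 152 160 (by norm_num)
  have n9 := A1 160 161 (by norm_num)
  have n0 := A2 77
  simp only [Nat.reduceAdd] at x0l xgl xal x1l y0l
  refine ⟨F, V, L 68, L 73, L 64, L 78, L 41, hF, ?_, ?_, ?_⟩
  · have e0 := (xF (L 64) 65 (by omega) (by norm_num)).1
    have er := (xF (L 68) 69 (by omega) (by norm_num)).1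
    have e1 := (xF (L 73 + (4 * V + 4)) 74 (by omega) (by norm_num)).1
    have t := (EB.all (I := range (w ^ 73 + 1)) fun i _ =>
      eb_trF hF K (A 132 + i * A 77) (s ^ 2 * w) (A 77) n0).le (y := δ) (by rw [card_range]; exact tr)
    refine (((((((c0.and cg).and ca).and c1).and e0).and er).and e1).and t).mono (A 152 + 1)
      (fun n p hn hp a ha h => ?_) (by linarith)
    obtain ⟨⟨⟨⟨⟨⟨⟨h1, h2⟩, h3⟩, h4⟩, h5⟩, h6⟩, h7⟩, h8⟩ := h
    exact fold_good (ia := w ^ 63) hn ha n0 hp h1 h2 h3 h4 h5.1 h6.1 h7.1 h7.2 h8 (by omega) (by omega)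
      (by omega) (by omega) (by omega) (by omega) (by simp only [Nat.reduceMul, Nat.reduceAdd]; omega)
      g3 (by simp only [Nat.reduceMul, Nat.reduceAdd]; omega) (by omega) (by omega) le_rfl
  · have er := (xF (L 68) 69 (by omega) (by norm_num)).2
    have e1 := (xF (L 78 + (4 * V + 4)) 79 (by omega) (by norm_num)).2
    have e2 := ((hext F V η (L 41 + (8 * V + 10)) _ _ hF η0 η1 η2 (A2 124) (A2 (2 * 81))).2
      (A 124) (A 160 + 1) (by omega)).le (y := δ) (by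
        have := xe (L 41 + (8 * V + 10)) 42 81 124 (2 * (A 160 + 1)) (by omega) (by
          rw [show 2 * 81 = 162 by rfl, ← g4]; exact Nat.mul_le_mul_right _ (by omega))
          (by norm_num) (by norm_num) (by norm_num)
        rwa [Nat.cast_mul, Nat.cast_ofNat] at this)
    have t := fun b => (eb_trG hF K (A 141) (s ^ 2 * w) (A 77) n0 (A2 _) b).le tr1
    refine ((((((c2.pi.and ca.pi).and er).and e1).and e2).and (t true)).and (t false)).mono
      (3 * A 160 + 2) (fun n p hn hp a ha h => ?_) (by linarith)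
    obtain ⟨⟨⟨⟨⟨⟨h1, h2⟩, h3⟩, h4⟩, h5⟩, h6⟩, h7⟩ := h
    exact glue_good hn (Fintype.mem_piFinset.1 ha) hp h1 h2 h3.1 h4.1 h4.2 h5.1 h6 h7 (by omega)
      (by omega) (by simp only [Nat.reduceMul, Nat.reduceAdd]; omega) (by omega) (by omega)
      (by omega) (by omega)
  · have q1 : (1 : ℝ) ≤ 4 * (Cs + 1) * ((L 73 : ℕ) + 2) := by
      have : (0 : ℝ) ≤ (L 73 : ℕ) := Nat.cast_nonneg _
      nlinarith
    have q2 := hsph F V η ((1 / (4 * (Cs + 1) * ((L 73 : ℕ) + 2))) ^ 2) (L 73)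
      ((L 73 + 2) ^ 2 * w ^ 2) hF η0 η1 η2 (by positivity)
      (pow_le_one₀ (by positivity) (by rw [div_le_one (by positivity)]; exact q1))
      (Nat.pos_of_ne_zero (by positivity)) δ hδ
    have q3 := (sph_err hCs (R := L 73) hs w2 s4 (by rw [← hL]; omega)).trans w6
    rw [← hη] at q3
    filter_upwards [q2, eventually_ge_atTop 1] with n hn hn1
    refine le_trans (Nat.cast_le.2 (card_le_card fun a ha => ?_))
      (hn.trans (mul_le_mul_of_nonneg_right (by linarith) (Nat.cast_nonneg _)))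
    rw [mem_filter] at *
    exact ⟨ha.1, fun h => sphere_good hn1 ha.1 h (by omega) ha.2⟩

open Classical in
theorem hfin_holds (ε : ℝ) (hε : 0 < ε) :
    ∃ (R J : ℕ) (P : ∀ D : Type, Perm D → Perm D → D → Prop),
      LocalP R P ∧
      (∀ᶠ p : ℕ in atTop, ∀ᶠ n : ℕ in atTop,
        ((((DiscS n p).filter fun a => ¬(GoodF J R a ∧
          P _ (foldP a) (poly n p) (a ((poly n p)⁻¹ (.inr 0))))).card : ℝ)
            ≤ ε * (DiscS n p).card)) ∧
      (∀ᶠ n : ℕ in atTop,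
        ((((SphS n).filter fun x => P _ x.1 (sq n) x.2).card : ℝ) ≤ ε * (SphS n).card)) ∧
      (∀ᶠ p : ℕ in atTop, ∀ᶠ n : ℕ in atTop,
        ((((Fintype.piFinset fun _ : Bool => DiscS n p).filter fun a => ¬(GoodG J R a ∧
          ¬P _ (glueP a) (gpoly n p) (true, a true (.inr 0)))).card : ℝ)
            ≤ ε * (Fintype.piFinset fun _ : Bool => DiscS n p).card)) := by
  have hδ : 0 < ε / 10 := by positivity
  obtain ⟨F, V, r, R, r', R', ρ, hF, h1, h2, h3⟩ := main_est hδ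
  obtain ⟨Rb, hR⟩ := PP_local hF r R r' R' ρ
  obtain ⟨J, g1, g2⟩ := eb_good hδ Rb
  refine ⟨Rb, J, PP F r R r' R' ρ, hR, ?_, ?_, ?_⟩
  · filter_upwards [g1.and h1 _ hδ] with p hp
    filter_upwards [hp] with n hn
    exact (hn.mono (fun a _ h => by rwa [ek_neg_one] at h) (by linarith)).out
  · filter_upwards [h3, eventually_ge_atTop 1] with n hn hn1
    obtain ⟨e1, e2⟩ := sphere_card hn1 Rb _ hR
    rw [e1, e2]
    exact hn.trans (mul_le_mul_of_nonneg_right (by linarith) (Nat.cast_nonneg _))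
  · filter_upwards [g2.and h2 _ hδ] with p hp
    filter_upwards [hp] with n hn
    exact (hn.mono (fun a _ h => by rwa [ek_zero] at h) (by linarith)).out

end Pool.Agent.Lib.MP_abd955_pr
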