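import Pool.Agent.Lib.MP_abd955_pr.Loc
import Pool.Agent.Lib.MP_abd955_pr.Trans

/-! Deterministic geometry of the test property. -/

namespace Pool.Agent.Lib.MP_abd955_pr

open Equiv Equiv.Perm Finset

lemma Near.sb {D : Type} {b f : Perm D} {n : ℕ} {x y : D} (h : Near b f n x y) :
    Near b f (n + 1) x (b y) := near_succ.2 (Or.inr ⟨y, h, Or.inl rfl⟩)

lemma Near.sf {D : Type} {b f : Perm D} {n : ℕ} {x y : D} (h : Near b f n x y) :
    Near b f (n + 1) x (f y) := near_succ.2 (Or.inr ⟨y, h, Or.inr (Or.inr (Or.inl rfl))⟩)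

lemma Near.sg {D : Type} {b f : Perm D} {n : ℕ} {x y : D} (h : Near b f n x y) :
    Near b f (n + 1) x (f⁻¹ y) := near_succ.2 (Or.inr ⟨y, h, Or.inr (Or.inr (Or.inr rfl))⟩)

lemma chain_rtg {X : Type} {S : X → X → Prop} {c : ℕ → X} {I : ℕ}
    (h1 : ∀ i < I, S (c i) (c (i + 1))) (h2 : ∀ i < I, S (c (i + 1)) (c i)) {i j : ℕ} (hi : i ≤ I)
    (hj : j ≤ I) : Relation.ReflTransGen S (c i) (c j) := by
  have up : ∀ i j, i ≤ j → j ≤ I → Relation.ReflTransGen S (c i) (c j) ∧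
      Relation.ReflTransGen S (c j) (c i) := by
    intro i j hij
    induction j, hij using Nat.le_induction with
    | base => intro _; exact ⟨.refl, .refl⟩
    | succ j _ ih =>
      intro hj
      exact ⟨(ih (by omega)).1.tail (h1 j hj), .head (h2 j hj) (ih (by omega)).2⟩
  rcases le_total i j with h | h
  · exact (up i j h hj).1
  · exact (up j i h hi).2

variable {n p : ℕ}

lemma poly_inner {x : DD n p} : poly n p x ∈ extS n p ↔ x ∈ extS n p := by
  rcases x with x | x <;> simp [poly, extS]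

lemma poly_inv_inner {x : DD n p} : (poly n p)⁻¹ x ∈ extS n p ↔ x ∈ extS n p := by
  rw [← poly_inner (x := (poly n p)⁻¹ x)]; simp

lemma disc_inv {a : Perm (DD n p)} (ha : a ∈ DiscS n p) (u : DD n p) : a (a u) = u := by
  simp only [DiscS, mem_filter] at ha
  exact (ha.2.1.1 u).1

lemma ek_mem (k : ℤ) : ek n p k ∈ extS n p := (ek_ext n p _).2 ⟨k, rfl⟩

lemma ek_inr (k : ℤ) : ∃ i, ek n p k = .inr i := by
  obtain ⟨i, hi⟩ := ek_mem (n := n) (p := p) k
  exact ⟨i, hi.symm⟩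

lemma ek_inj {k k' : ℤ} (h : ek n p k = ek n p k') (h1 : |k - k'| ≤ 2 * p) : k = k' := by
  have h2 := (ek_eq_iff n p k k').1 h
  have h3 := Int.eq_zero_of_abs_lt_dvd h2 (by push_cast; omega)
  omega

lemma ek_zero : ek n p 0 = .inr 0 := by simp [ek]

lemma ek_neg_one : ek n p (-1) = (poly n p)⁻¹ (.inr 0) := by simp [ek]

lemma bd_inner (hn : 1 ≤ n) {a : Perm (DD n p)} (ha : a ∈ DiscS n p) (k : ℤ) :
    a (ek n p k) ∉ extS n p := by
  obtain ⟨i, hi⟩ := ek_inr (n := n) (p := p) k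
  rintro ⟨j, hj⟩
  exact disc_nondeg hn ha i j (by rw [← hi, hj])

lemma fold_bd (hn : 1 ≤ n) {a : Perm (DD n p)} (ha : a ∈ DiscS n p) (k : ℤ) :
    foldP a (a (ek n p k)) = a (ek n p (-1 - k)) := by
  rw [(foldP_apply hn ha _).1, zipf, if_neg (bd_inner hn ha k), disc_inv ha, if_pos (ek_mem k),
    mirF_ek]

lemma glue_bd (hn : 1 ≤ n) {a : Bool → Perm (DD n p)} (ha : ∀ b, a b ∈ DiscS n p) (b : Bool)
    (k : ℤ) : glueP a (b, a b (ek n p k)) = (!b, a (!b) (ek n p (-k))) := by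
  have e : Equiv.prodCongrRight a (b, a b (ek n p k)) = (b, ek n p k) := by
    simp [disc_inv (ha b)]
  rw [(glueP_apply hn ha _).1, zipf, if_neg (by exact bd_inner hn (ha b) k), e,
    if_pos (by exact ek_mem k), mirG_ek]
  simp

lemma walk_fold (hn : 1 ≤ n) {a : Perm (DD n p)} (ha : a ∈ DiscS n p) {m : ℕ} {x y : DD n p}
    (h : Walk a (poly n p) (extS n p)ᶜ m x y) :
    y ∉ extS n p ∧ Near (foldP a) (poly n p) m x y := by
  induction h with
  | refl m x hx => exact ⟨hx, Near.refl _ _ _ _⟩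
  | sa _ hy ih =>
    refine ⟨hy, ?_⟩
    have := ih.2.sb
    rwa [(foldP_apply hn ha _).1, zipf, if_neg ih.1, if_neg hy] at this
  | sf _ ih => exact ⟨fun h => ih.1 (poly_inner.1 h), ih.2.sf⟩
  | sg _ ih => exact ⟨fun h => ih.1 (poly_inv_inner.1 h), ih.2.sg⟩

lemma walk_glue (hn : 1 ≤ n) {a : Bool → Perm (DD n p)} (ha : ∀ b, a b ∈ DiscS n p) (b : Bool)
    {m : ℕ} {x y : DD n p} (h : Walk (a b) (poly n p) (extS n p)ᶜ m x y) :
    y ∉ extS n p ∧ Near (glueP a) (gpoly n p) m (b, x) (b, y) := by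
  induction h with
  | refl m x hx => exact ⟨hx, Near.refl _ _ _ _⟩
  | sa _ hy ih =>
    refine ⟨hy, ?_⟩
    have := ih.2.sb
    rwa [(glueP_apply hn ha _).1, zipf, if_neg (by exact ih.1), if_neg (by exact hy)] at this
  | sf _ ih => exact ⟨fun h => ih.1 (poly_inner.1 h), ih.2.sf⟩
  | sg _ ih => exact ⟨fun h => ih.1 (poly_inv_inner.1 h), ih.2.sg⟩

/-- all boundary darts of small index at index distance at most N are at distance at most x -/
def Cov (k2 N x : ℕ) {n p : ℕ} (a : Perm (DD n p)) : Prop :=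
  ∀ y ∈ Icc (-(k2 : ℤ)) k2 ×ˢ Icc (-(k2 : ℤ)) k2, |y.1 - y.2| ≤ N →
    Walk a (poly n p) (extS n p)ᶜ x (a (ek n p y.1)) (a (ek n p y.2))

lemma Cov.walk {k2 N x : ℕ} {a : Perm (DD n p)} (h : Cov k2 N x a) {i j : ℤ} (hi : |i| ≤ k2)
    (hj : |j| ≤ k2) (hij : |i - j| ≤ N) :
    Walk a (poly n p) (extS n p)ᶜ x (a (ek n p i)) (a (ek n p j)) :=
  h (i, j) (mem_product.2 ⟨mem_Icc.2 (abs_le.1 hi), mem_Icc.2 (abs_le.1 hj)⟩) hij

lemma ExtF.idx {R J : ℕ} {a : Perm (DD n p)} (h : ExtF R J a) {k : ℤ} (hk : |k| ≤ p) (hJ : J ≤ p)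
    (h1 : Near (foldP a) (poly n p) R (a (ek n p (-1))) (a (ek n p k))) : |k| ≤ J := by
  obtain ⟨i, hi⟩ := ek_inr (n := n) (p := p) k
  rw [hi] at h1
  obtain ⟨k', a1, a2⟩ := h i h1
  rw [ek_inj (hi.trans a2) (by rw [abs_le] at *; omega)]
  exact a1

def TrF (F : Fam) (k0 g : ℕ) {n p : ℕ} (a : Perm (DD n p)) : Prop :=
  ∃ k : ℕ, k0 ≤ k ∧ k < k0 + g ∧ Feat F (foldP a) (poly n p) (a (ek n p (-1 - k)))

theorem fold_good (hn : 1 ≤ n) {a : Perm (DD n p)} (ha : a ∈ DiscS n p) {F : Fam}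
    {V r R r' R' ρ g k0 k1 k2 I ia Jr Na N1 x0 xg xa x1 : ℕ} (hg : 1 ≤ g) (hp : k2 ≤ p)
    (c0 : Cov k2 k0 x0 a) (cg : Cov k2 (2 * g) xg a) (ca : Cov k2 Na xa a) (c1 : Cov k2 N1 x1 a)
    (e0 : ExtF r' k0 a) (er : ExtF r Jr a) (e1 : ExtF (R + (4 * V + 4)) k1 a)
    (nb : NoBF F V (R + (4 * V + 4)) a) (tr : ∀ i ∈ range (I + 1), TrF F (k0 + i * g) g a)
    (h1 : x0 + (4 * V + 4) ≤ r) (h2 : xg + (4 * V + 5) ≤ ρ) (h3 : xa ≤ R) (h4 : x1 ≤ R')
    (h5 : r' ≤ r) (h6 : R ≤ R') (h7 : k1 ≤ I * g) (h8 : ia ≤ I) (h9 : Jr ≤ k0 + ia * g)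
    (h10 : k0 + ia * g + g ≤ Na) (h11 : k0 + I * g + g ≤ N1) (h12 : N1 + 1 ≤ k2) :
    PP F r R r' R' ρ _ (foldP a) (poly n p) (a (ek n p (-1))) := by
  have tr' : ∀ i, ∃ k : ℕ, i ≤ I → k0 + i * g ≤ k ∧ k < k0 + i * g + g ∧
      Feat F (foldP a) (poly n p) (a (ek n p (-1 - k))) := by
    intro i
    by_cases hi : i ≤ I
    · obtain ⟨k, hk⟩ := tr i (mem_range.2 (by omega))
      exact ⟨k, fun _ => hk⟩
    · exact ⟨0, fun h => absurd h hi⟩
  choose m hm using tr'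
  have mI : ∀ i ≤ I, i * g ≤ I * g := fun i hi => Nat.mul_le_mul_right g hi
  have hia := mI ia h8
  have nr : ∀ {N x : ℕ}, Cov k2 N x a → ∀ {i j : ℤ}, |i| ≤ k2 → |j| ≤ k2 → |i - j| ≤ N →
      Near (foldP a) (poly n p) x (a (ek n p i)) (a (ek n p j)) :=
    fun c _ _ hi hj hij => (walk_fold hn ha (c.walk hi hj hij)).2
  have chk : ∀ i ≤ I, An (foldP a) (poly n p) (a (ek n p (-1))) r' R' (a (ek n p (-1 - m i))) := by
    intro i hi
    obtain ⟨b1, b2, -⟩ := hm i hi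
    have := mI i hi
    refine ⟨(nr c1 ?_ ?_ ?_).mono h4, fun h => ?_⟩
    · rw [abs_le]; omega
    · rw [abs_le]; omega
    · rw [abs_le]; omega
    · have := e0.idx (by rw [abs_le]; omega) (by omega) h
      rw [abs_le] at this; omega
  have close : ∀ y, Feat F (foldP a) (poly n p) y →
      An (foldP a) (poly n p) (a (ek n p (-1))) r R y →
      ∃ i ≤ I, Near (foldP a) (poly n p) ρ y (a (ek n p (-1 - m i))) := by
    intro y hy hA
    obtain ⟨i, hi⟩ := nb y hy (hA.1.mono (by omega))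
    obtain ⟨k, k1', k2'⟩ := e1 i (hA.1.trans hi)
    rw [k2'] at hi
    rw [abs_le] at k1'
    have far : ¬ |(-1 : ℤ) - k| ≤ k0 := fun h =>
      hA.2 (((nr c0 (by rw [abs_le]; omega) (by rw [abs_le]; omega) h).trans hi.symm).mono h1)
    rw [abs_le] at far
    obtain ⟨l, l1, l2, l3⟩ : ∃ l : ℕ, k0 ≤ l ∧ l ≤ k1 ∧
        Near (foldP a) (poly n p) (4 * V + 5) y (a (ek n p (-1 - l))) := by
      rcases le_or_gt 0 k with h | h
      · refine ⟨k.toNat, by omega, by omega, ?_⟩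
        have := hi.sb
        rwa [fold_bd hn ha, ← Int.toNat_of_nonneg h] at this
      · refine ⟨(-1 - k).toNat, by omega, by omega, ?_⟩
        rw [Int.toNat_of_nonneg (by omega), show -1 - (-1 - k) = k by ring]
        exact hi.mono (by omega)
    have d1 := Nat.div_add_mod (l - k0) g
    have d2 := Nat.mod_lt (l - k0) (show 0 < g by omega)
    have d3 : (l - k0) / g ≤ I := Nat.div_le_of_le_mul (by rw [mul_comm]; omega)
    rw [mul_comm] at d1
    obtain ⟨b1, b2, -⟩ := hm _ d3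
    have := mI _ d3
    refine ⟨_, d3, (l3.trans (nr cg ?_ ?_ ?_)).mono (by omega)⟩
    · rw [abs_le]; omega
    · rw [abs_le]; omega
    · rw [abs_le]; omega
  have nx : ∀ i < I, Near (foldP a) (poly n p) ρ (a (ek n p (-1 - m i)))
      (a (ek n p (-1 - m (i + 1)))) := by
    intro i hi
    obtain ⟨b1, b2, -⟩ := hm i hi.le
    obtain ⟨b3, b4, -⟩ := hm (i + 1) hi
    have := mI (i + 1) hi
    rw [add_mul, one_mul] at this b3 b4
    refine (nr cg ?_ ?_ ?_).mono (by omega)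
    · rw [abs_le]; omega
    · rw [abs_le]; omega
    · rw [abs_le]; omega
  constructor
  · obtain ⟨b1, b2, b3⟩ := hm ia h8
    refine ⟨_, b3, (nr ca ?_ ?_ ?_).mono h3, fun h => ?_⟩
    · rw [abs_le]; omega
    · rw [abs_le]; omega
    · rw [abs_le]; omega
    · have := er.idx (by rw [abs_le]; omega) (by omega) h
      rw [abs_le] at this; omega
  · intro y y' hy hA hy' hA'
    obtain ⟨i, hi, d1⟩ := close y hy hA
    obtain ⟨j, hj, d2⟩ := close y' hy' hA'
    refine Relation.ReflTransGen.head ⟨(hm i hi).2.2, chk i hi, d1⟩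
      (Relation.ReflTransGen.tail (chain_rtg (c := fun i => a (ek n p (-1 - m i))) (I := I)
        (fun i hi => ⟨(hm _ hi).2.2, chk _ hi, nx i hi⟩)
        (fun i hi => ⟨(hm _ hi.le).2.2, chk _ hi.le, (nx i hi).symm⟩) hi hj)
        ⟨hy', ⟨hA'.1.mono h6, fun h => hA'.2 (h.mono h5)⟩, d2.symm⟩)

theorem sphere_good (hn : 1 ≤ n) {a : Perm (DD n 0)} (ha : a ∈ DiscS n 0) {F : Fam}
    {V r R r' R' ρ : ℕ} (nb : NoBF F V R a) (h : 4 * V + 5 ≤ r) :
    ¬PP F r R r' R' ρ _ (foldP a) (poly n 0) (a (ek n 0 (-1))) := by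
  rintro ⟨⟨y, hy, hA⟩, -⟩
  obtain ⟨i, hi⟩ := nb y hy hA.1
  obtain ⟨k, hk⟩ := (ek_ext n 0 (.inr i)).1 ⟨i, rfl⟩
  rw [hk] at hi
  refine hA.2 (Near.mono (Near.symm ?_) h)
  rcases Int.emod_two_eq_zero_or_one k with h0 | h0
  · have := hi.sb
    rwa [fold_bd hn ha, (ek_eq_iff n 0 (-1 - k) (-1)).2 (by push_cast; omega)] at this
  · rw [(ek_eq_iff n 0 k (-1)).2 (by push_cast; omega)] at hi
    exact hi.mono (by omega)

lemma ExtG.idx {R J d : ℕ} {s : ℤ} {a : Bool → Perm (DD n p)} (h : ExtG R J s d a) {k j : ℤ}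
    (h1 : s ≤ k) (h2 : k < s + d) (b : Bool) (hj : |j| ≤ p) (hs : -p ≤ s - J)
    (hs' : s + d + J ≤ p)
    (h3 : Near (glueP a) (gpoly n p) R (true, a true (ek n p k))
      (b, a b (ek n p (if b then j else -j)))) : s - J < j ∧ j < s + d + J := by
  obtain ⟨i, hi⟩ := ek_inr (n := n) (p := p) (if b then j else -j)
  rw [hi] at h3
  obtain ⟨k', a1, a2, a3⟩ := h k h1 h2 b i h3
  rw [abs_le] at hj
  have := ek_inj (hi.trans a3) (by rw [abs_le]; split_ifs <;> omega)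
  split_ifs at this <;> omega

def TrG (F : Fam) (k0 g : ℕ) (b : Bool) {n p : ℕ} (a : Bool → Perm (DD n p)) : Prop :=
  ∃ k : ℕ, k0 ≤ k ∧ k < k0 + g ∧ Feat F (glueP a) (gpoly n p) (!b, a (!b) (ek n p (-k)))

theorem glue_good (hn : 1 ≤ n) {a : Bool → Perm (DD n p)} (ha : ∀ b, a b ∈ DiscS n p) {F : Fam}
    {V r R r' R' ρ g ka k0 k1 k2 Jr Na x0 xa : ℕ} (hp : 3 * k1 + 2 ≤ p)
    (c0 : Cov k2 k0 x0 (a true)) (ca : Cov k2 Na xa (a true))
    (er : ExtG r Jr 0 1 a) (e1 : ExtG (R' + (4 * V + 4)) k1 0 1 a)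
    (nb : NoBG F V (R' + (4 * V + 4)) 0 1 a)
    (e2 : ExtG (ρ + (8 * V + 10)) k0 k0 (k1 + 1) a)
    (t1 : TrG F ka g true a) (t2 : TrG F ka g false a)
    (h1 : x0 + (4 * V + 5) ≤ r') (h2 : xa + 1 ≤ R) (h3 : Jr < ka) (h4 : ka + g ≤ Na)
    (h5 : k0 ≤ ka) (h6 : ka + g ≤ k1) (h7 : Na ≤ k2) :
    ¬PP F r R r' R' ρ _ (glueP a) (gpoly n p) (true, a true (ek n p 0)) := by
  rintro ⟨-, hch⟩
  obtain ⟨k, k1', k2', k3⟩ := t1
  obtain ⟨l, l1, l2, l3⟩ := t2
  simp only [Bool.not_true, Bool.not_false] at k3 l3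
  have nr : ∀ {N x : ℕ}, Cov k2 N x (a true) → ∀ {j : ℤ}, |j| ≤ k2 → |j| ≤ N →
      Near (glueP a) (gpoly n p) x (true, a true (ek n p 0)) (true, a true (ek n p j)) :=
    fun c _ hj hij => (walk_glue hn ha true (c.walk (by simp) hj (by simpa using hij))).2
  have gk := glue_bd hn ha true k
  rw [Bool.not_true] at gk
  have A1 : An (glueP a) (gpoly n p) (true, a true (ek n p 0)) r R
      (false, a false (ek n p (-k))) := by
    refine ⟨?_, fun h => ?_⟩
    · have := (nr ca (j := k) (by rw [abs_le]; omega) (by rw [abs_le]; omega)).sb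
      rw [gk] at this
      exact this.mono h2
    · have := er.idx (k := 0) (j := k) le_rfl (by simp) false (by rw [abs_le]; omega) (by omega)
        (by omega) h
      omega
  have A2 : An (glueP a) (gpoly n p) (true, a true (ek n p 0)) r R
      (true, a true (ek n p (-l))) := by
    refine ⟨(nr ca (by rw [abs_le]; omega) (by rw [abs_le]; omega)).mono (by omega), fun h => ?_⟩
    have := er.idx (k := 0) (j := -l) le_rfl (by simp) true (by rw [abs_le]; omega) (by omega)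
      (by omega) h
    omega
  have key : ∀ y, Relation.ReflTransGen (fun u v => Feat F (glueP a) (gpoly n p) v ∧
      An (glueP a) (gpoly n p) (true, a true (ek n p 0)) r' R' v ∧ Near (glueP a) (gpoly n p) ρ u v)
      (false, a false (ek n p (-k))) y → ∃ j : ℤ, k0 ≤ j ∧ j ≤ k1 ∧
        Near (glueP a) (gpoly n p) (4 * V + 5) y (true, a true (ek n p j)) := by
    intro y hy
    induction hy with
    | refl =>
      refine ⟨k, by omega, by omega, ?_⟩
      have := near_b (glueP a) (gpoly n p) (true, a true (ek n p k))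
      rw [gk] at this
      exact this.symm.mono (by omega)
    | @tail u v _ hv ih =>
      obtain ⟨j, j1, j2, j3⟩ := ih
      obtain ⟨v1, v2, v3⟩ := hv
      obtain ⟨b, i, hi⟩ := nb 0 le_rfl (by simp) v v1 (v2.1.mono (by omega))
      obtain ⟨j', a1, a2, a3⟩ := e1 0 le_rfl (by simp) b i (v2.1.trans hi)
      rw [a3] at hi
      have n1 : Near (glueP a) (gpoly n p) (4 * V + 5) v (true, a true (ek n p j')) := by
        cases b
        · have := hi.sb
          rw [glue_bd hn ha] at this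
          simpa using this
        · exact hi.mono (by omega)
      have far : ¬ |j'| ≤ k0 := fun h =>
        v2.2 (((nr c0 (h.trans (by omega)) h).trans n1.symm).mono h1)
      have := e2.idx (k := j) (j := j') j1 (by push_cast; omega) true (by rw [abs_le]; omega)
        (by omega) (by push_cast; omega) (((j3.symm.trans v3).trans n1).mono (by omega))
      rw [abs_le] at far
      exact ⟨j', by omega, by omega, n1⟩
  obtain ⟨j, j1, j2, j3⟩ := key _ (hch _ _ k3 A1 l3 A2)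
  have := e2.idx (k := j) (j := -l) j1 (by push_cast; omega) true (by rw [abs_le]; omega)
    (by omega) (by push_cast; omega) (j3.symm.mono (by omega))
  omega

lemma goodF_of (hn : 1 ≤ n) {a : Perm (DD n p)} (ha : a ∈ DiscS n p) {R J : ℕ} (h : ExtF R J a) :
    GoodF J R a := by
  refine ⟨disc_nondeg hn ha, fun w hw i hi => ?_⟩
  obtain ⟨k, k1, k2⟩ := h i ⟨w, hw, by rw [ek_neg_one, ← hi, disc_inv ha]⟩
  exact ⟨k, k1, k2.symm⟩

lemma goodG_of (hn : 1 ≤ n) {a : Bool → Perm (DD n p)} (ha : ∀ b, a b ∈ DiscS n p) {R J : ℕ}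
    (h : ExtG R J 0 1 a) : GoodG J R a := by
  refine ⟨fun b => disc_nondeg hn (ha b), fun w hw b i hi => ?_⟩
  have e : act (glueP a) (gpoly n p) w (true, a true (.inr 0)) = (b, a b (.inr i)) := by
    generalize act (glueP a) (gpoly n p) w (true, a true (.inr 0)) = u at hi
    obtain ⟨c, u⟩ := u
    simp only [Equiv.prodCongrRight_apply, Prod.mk.injEq] at hi
    obtain ⟨rfl, hi⟩ := hi
    rw [← hi, disc_inv (ha c)]
  obtain ⟨k, k1, k2, k3⟩ := h 0 le_rfl (by simp) b i ⟨w, hw, by rw [ek_zero, e]⟩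
  refine ⟨_, ?_, k3.symm⟩
  rw [abs_le]; split_ifs <;> omega

end Pool.Agent.Lib.MP_abd955_pr
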