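import Pool.Agent.Lib.MP_abd955_pr.FeatBB

/-! The peeling rule that avoids the unexplored features. -/

namespace Pool.Agent.Lib.MP_abd955_pr

open Equiv Equiv.Perm Finset PowerSeries Step Filter

set_option linter.unusedSectionVars false

namespace FB

variable {D : Type} [DecidableEq D] [Fintype D] {F : Fam} {V : ℕ}

lemma cnt_le {S : St D} (h : S.WF) (b : Bool) {E E' : Perm D → Prop} {β : ℝ}
    (e : ∀ a g, (∀ u ∈ (S.K b).U, g u = a u) → a ∈ VS (S.K b) → E g → E' a)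
    (hβ : cn (S.K b) E' ≤ β * (VS (S.K b)).card) : S.cnt E ≤ β * S.tot := by
  rw [St.cnt, St.sum_b h b, St.tot_b b]
  refine (sum_le_sum fun c hc => sum_le_sum fun a' ha' => (sum_le_sum fun a ha => ?_).trans
    hβ).trans (le_of_eq (by simp only [sum_const, nsmul_eq_mul]; ring))
  have := e a _ (fun u hu => h.on hc ha ha' hu) ha
  split_ifs <;> first | tauto | norm_num

lemma hasSum_del (hF : FamOk F V) : HasSum (fun v => phi F v * (1 / 12) ^ v) (del F V) :=
  hasSum_sum_of_ne_finset_zero fun v hv => by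
    simp [phi, hF.big v (by simpa using hv)]

lemma coeff_rare (hF : FamOk F V) {m l : ℕ}
    (h : ∀ v ≤ V, coeff (m - v) (Zl l) ≤ 2 * (1 / 12) ^ v * coeff m (Zl l)) :
    coeff m (Ph F * Zl l) ≤ 2 * del F V * coeff m (Zl l) := by
  rw [coeff_mul, Nat.sum_antidiagonal_eq_sum_range_succ_mk]
  have z := coeff_Zl_nonneg l m
  calc _ ≤ ∑ v ∈ range (m + 1), phi F v * (1 / 12) ^ v * (2 * coeff m (Zl l)) :=
        sum_le_sum fun v _ => by
          simp only [Ph, coeff_mk]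
          by_cases e : v ≤ V
          · exact (mul_le_mul_of_nonneg_left (h v e) (phi_nn F v)).trans (le_of_eq (by ring))
          · simp [phi, hF.big v (by omega)]
    _ ≤ del F V * (2 * coeff m (Zl l)) := by
        rw [← sum_mul]
        exact mul_le_mul_of_nonneg_right (sum_le_hasSum _
          (fun v _ => mul_nonneg (phi_nn F v) (by positivity)) (hasSum_del hF)) (by positivity)
    _ = _ := by ring

/-- proportion of the fillings of the finite holes that contain a feature -/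
noncomputable def bt (F : Fam) (y : Step × ℕ) : ℝ :=
  min 1 (4 * coeff y.2 (Ph F * th (Zm y.1.fin)) / coeff y.2 (Zm y.1.fin))

lemma bt_nn (F : Fam) (y : Step × ℕ) : 0 ≤ bt F y :=
  le_min zero_le_one (div_nonneg (mul_nonneg (by norm_num) ((nn_Ph F).mul (nn_Zm _).th _))
    (nn_Zm _ _))

lemma cn_bt (hF : FamOk F V) {K : Cfg D} (h : WF K) {ls : List (List D)} (hl : Holes K ls)
    {t : Step} (e : ls.map List.length = t.fin) :
    cn K (fun a => ∃ y, IFeat F (Inn K) K.f a y) ≤ bt F (t, K.m) * (VS K).card := by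
  have h1 := cn_feat hF _ h hl rfl
  have h2 := cn_le K fun a => ∃ y, IFeat F (Inn K) K.f a y
  have h3 := card_VS h hl
  rw [e] at h1 h3
  rw [bt, min_mul_of_nonneg _ _ (Nat.cast_nonneg _), one_mul]
  refine le_min h2 ?_
  by_cases z : coeff K.m (Zm t.fin) = 0
  · rw [h3, z] at h2 ⊢; simpa using h2
  · rw [h3]
    exact h1.trans (le_of_eq (by field_simp))

lemma wv_bt (F : Fam) (t : Step) (v : ℕ) : wv t v * bt F (t, v) ≤
    4 * ∑ x ∈ antidiagonal v, phi F x.1 * (1 / 12) ^ x.1 * (x.2 * wv t x.2) := by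
  by_cases z : coeff v (Zm t.fin) = 0
  · rw [wv, z, mul_zero, zero_mul, zero_mul]
    exact mul_nonneg (by norm_num) (sum_nonneg fun x _ => mul_nonneg
      (mul_nonneg (phi_nn _ _) (by positivity)) (mul_nonneg (by positivity) (wv_nonneg _ _)))
  refine (mul_le_mul_of_nonneg_left (min_le_right _ _) (wv_nonneg t v)).trans (le_of_eq ?_)
  rw [show ∀ B : ℝ, wv t v * (4 * B / coeff v (Zm t.fin)) =
    4 * (3 / 8 * (2 / 9) ^ (t.fin.sum / 2) * (1 / 12) ^ v * B) from fun B => by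
      rw [wv]; field_simp, coeff_mul, mul_sum]
  congr 1
  refine sum_congr rfl fun x hx => ?_
  rw [← mem_antidiagonal.1 hx, pow_add, wv]
  simp only [Ph, th, coeff_mk]
  ring

lemma summable_bt (F : Fam) : Summable fun y : Step × ℕ => wv y.1 y.2 * bt F y :=
  Summable.of_nonneg_of_le (fun y => mul_nonneg (wv_nonneg _ _) (bt_nn F y))
    (fun _ => mul_le_of_le_one_right (wv_nonneg _ _) (min_le_left _ _)) hasSum_wv2.summable

lemma sum_bt : ∃ C : ℝ, 0 ≤ C ∧ ∀ (F : Fam) (V : ℕ) (η : ℝ), FamOk F V → 0 < η → η ≤ 1 →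
    del F V ≤ η ^ 4 → ∑' y : Step × ℕ, wv y.1 y.2 * bt F y ≤ C * η ^ 3 := by
  obtain ⟨C, hC, H⟩ := cost_le
  refine ⟨4 * C, by positivity, fun F V η hF h0 h1 hd => ?_⟩
  have s := fun t => (summable_bt F).prod_factor t
  have n : ∀ t, 0 ≤ ∑' v, wv t v * bt F (t, v) := fun t =>
    tsum_nonneg fun v => mul_nonneg (wv_nonneg _ _) (bt_nn F _)
  have := H η h0 h1 (fun t => (∑' v, wv t v * bt F (t, v)) / 4) (fun t => by have := n t; positivity)
    (fun t => ?_) fun t => ?_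
  · rw [tsum_div_const] at this
    rw [(summable_bt F).tsum_prod]
    linarith
  · have := hasSum_le (fun v => mul_le_of_le_one_right (wv_nonneg t v) (min_le_left _ _))
      (s t).hasSum (hasSum_wv t)
    linarith [n t]
  · have n2 : ∀ v : ℕ, 0 ≤ (v : ℝ) * wv t v := fun v => mul_nonneg (by positivity) (wv_nonneg _ _)
    have := hasSum_le (wv_bt F t) (s t).hasSum ((Enum.hasSum_conv
      (fun v => mul_nonneg (phi_nn F v) (by positivity)) n2 (hasSum_del hF)
      (summable_vol t).hasSum).mul_left 4)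
    have n3 : 0 ≤ ∑' v : ℕ, (v : ℝ) * wv t v := tsum_nonneg n2
    linarith [mul_le_mul_of_nonneg_right hd n3]

lemma tch_congr {K : Cfg D} (h : WF K) {s : D} (hs : s ∈ Inn K) {a g : Perm D}
    (e : ∀ u ∈ K.U, g u = a u) (t : Tch F K s g) : Tch F K s a :=
  t.imp fun _ t => ⟨feat_congr t.1 (inn_iff h) fun u hu => ⟨(e u (mem_sdiff.1 hu).1).symm, rfl, hu⟩,
    fun c => t.2 (feat_congr c (in1_iff h hs) fun u hu => ⟨e u (mem_sdiff.1 hu.1).1, rfl, hu⟩)⟩

section
variable {S : St D} {b : Bool} {x s : D} {rest : List D} {t : Step} {v : ℕ} {W : Finset D}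
  (k : Kid S b x rest t v s W) (hF : FamOk F V)
include k hF

lemma kid_split {g : Perm D} (hg : (S.ch b x s rest t W).Ok g) (n : ¬Tch F (S.K b) s g) {z : D}
    (hz : UF F S b g z) : UF F (S.ch b x s rest t W) b g z ∨
      IFeat F (Inn (((S.K b).aft x s rest t).res W)) (((S.K b).aft x s rest t).res W).f g z := by
  have h1 : IFeat F (In1 (S.K b) s) (S.K b).f g z := by
    by_contra c
    exact n ⟨z, hz, c⟩
  have hI := in1_iff (k.wf.wf b) k.hs
  have m : ∀ u ∈ In1 (S.K b) s, u ∈ ((S.K b).aft x s rest t).U ∧ u ∉ ((S.K b).aft x s rest t).X :=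
    fun u hu => mem_sdiff.1 (by rwa [← inn_raw k.ok rest (t.raw rest.length)] at hu)
  have hf := fun u hu => (k.aft_inner (m u hu).1 (m u hu).2).2
  have ha := hg.mem_iff k.wf' b
  have hP : ∀ u ∈ In1 (S.K b) s, u ∈ ((S.K b).main x s rest t W).U ↔
      (S.K b).f u ∈ ((S.K b).main x s rest t W).U := fun u hu =>
    hf u hu ▸ mem_iff_of_maps k.spec.2.1.fU u
  rw [UF]
  rw [St.ch_same] at ha ⊢
  by_cases c : z ∈ ((S.K b).main x s rest t W).U
  · exact Or.inl (feat_congr (feat_res hF.val h1 hI ha hP c)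
      (fun u => ⟨fun e => ⟨(hI u).1 e.1, (hP u e.1).1 e.2⟩,
        fun e => ⟨(hI u).2 e.1, (hP u ((hI u).2 e.1)).2 e.2⟩⟩) fun u hu =>
      ⟨rfl, hf u hu.1, mem_sdiff.2 ⟨hu.2, fun e => (m u hu.1).2 (mem_inter.1 e).1⟩⟩)
  · refine Or.inr (feat_congr (feat_res hF.val h1 hI (fun u => not_congr (ha u))
      (fun u hu => not_congr (hP u hu)) c)
      (fun u => ⟨fun e => ⟨(hI u).1 e.1, mt (hP u e.1).2 e.2⟩,
        fun e => ⟨(hI u).2 e.1, mt (hP u ((hI u).2 e.1)).1 e.2⟩⟩) fun u hu =>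
      ⟨rfl, hf u hu.1, mem_sdiff.2 ⟨?_, fun e => (m u hu.1).2 (mem_inter.1 e).1⟩⟩)
    by_contra e
    exact hu.2 (mem_sdiff.2 ⟨(m u hu.1).1, e⟩)

open Classical in
lemma kid_frac {Q : Perm D → Prop} (hQ : ∀ c, Q c → ∃ z,
    IFeat F (Inn (((S.K b).aft x s rest t).res W)) (((S.K b).aft x s rest t).res W).f c z) :
    (((S.ch b x s rest t W).A.filter Q).card : ℝ) ≤ bt F (t, v) * (S.ch b x s rest t W).A.card := by
  obtain ⟨w, -, hl, -, hm, -⟩ := k.spec
  have := cn_bt hF w hl (finL_length _ _ k.fit)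
  rw [hm] at this
  rw [card_filter, card_eq_sum_ones, Nat.cast_sum, Nat.cast_sum, k.sumA, k.sumA, mul_sum]
  refine sum_le_sum fun c hc => le_trans (sum_le_sum fun a ha => ?_) (this.trans (by simp))
  split_ifs with c1 c2
  · simp
  · refine absurd ((hQ _ c1).imp fun z hz => feat_congr hz (inn_iff w) fun u hu => ⟨?_, rfl, hu⟩) c2
    obtain ⟨e1, e2⟩ := (k.new ha).2.2.1 u (mem_sdiff.1 hu).1
    rw [mul_apply, e1, k.wf.fix c hc b _ (k.aftU.1 (k.subW e2)).2.2]
  all_goals simp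

omit hF in
lemma kid_off {u : D} (hu : u ∈ W) (b' : Bool) : u ∉ ((S.ch b x s rest t W).K b').U := by
  by_cases e : b' = b
  · rw [e, St.ch_same, k.mainU]; exact fun c => c.2 hu
  · rw [St.ch_ne e, show b' = !b by cases b <;> cases b' <;> simp_all]
    exact k.wf.dis b u (k.aftU.1 (k.subW hu)).2.2

end

section
variable {ι : Type} {𝓕 : Filter ι} {D : ι → Type} [∀ i, DecidableEq (D i)] [∀ i, Fintype (D i)]
  (hF : FamOk F V) (b : Bool)
include hF

lemma bd_tch {Sz : ι → ℕ → ℕ → Prop} {wt : Step × ℕ → ℝ} (md : Md 𝓕 Sz wt) :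
    Bd 𝓕 (D := D) (fun i S E => S.WF ∧ ∃ x rest, Holes (S.K b) [x :: rest] ∧
      Sz i (S.K b).m (rest.length + 1) ∧
      E = fun g => g x ∉ (S.K b).X ∧ Tch F (S.K b) (g x) g) (8 * del F V) := fun ε hε => by
  filter_upwards [md.big 0, md.rare V] with i a1 a2
  rintro S E ⟨w, x, rest, hl, sz, rfl⟩
  have hr : rest ≠ [] := List.ne_nil_of_length_pos (by have := (a1 _ _ sz).2; omega)
  have hx := (w.wf b).sub (hl.mem1.2 List.mem_cons_self)
  refine (cnt_le w b (β := 8 * del F V) (fun a g e ha p => ?_)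
    ((cn_tch hF (w.wf b) hl hr).trans ?_)).trans
    (mul_le_mul_of_nonneg_right (by linarith) S.tot_nonneg)
  · rw [e x hx] at p
    exact ⟨p.1, tch_congr (w.wf b) (mem_sdiff.2 ⟨(mem_VS.1 ha).1.aU x hx, p.1⟩) e p.2⟩
  · have := mul_le_mul_of_nonneg_left (coeff_rare hF fun v => a2 _ _ v sz) (GG_pos (S.K b).m).le
    rw [card_VS (w.wf b) hl]
    simp only [List.map_cons, List.map_nil, Zm_cons, Zm_nil, mul_one, List.length_cons]
    linarith

lemma bd_fin (y : Step × ℕ) : Bd 𝓕 (D := D) (fun _ S' E => ∃ S x rest s W,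
    Kid S b x rest y.1 y.2 s W ∧ S' = S.ch b x s rest y.1 W ∧ E = fun g => ∃ z,
      IFeat F (Inn (((S.K b).aft x s rest y.1).res W)) (((S.K b).aft x s rest y.1).res W).f g z)
    (bt F y * 1) :=
  Bd.frac (I' := fun _ _ _ => True) Bd.one zero_le_one (bt_nn F y) (Eventually.of_forall (by
    rintro i _ _ ⟨S, x, rest, s, W, k, rfl, rfl⟩
    refine ⟨_, kid_frac k hF fun _ => id, trivial, fun g hg p => ?_⟩
    obtain ⟨c, -, n, a, ha, a', ha', rfl⟩ := St.ok_filt.1 hg
    exact n (p.imp fun z hz => feat_congr hz (inn_iff k.spec.1) fun u hu =>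
      ⟨(St.off (b := true) ha ha' (kid_off k (mem_sdiff.1 hu).1 _)
        (kid_off k (mem_sdiff.1 hu).1 _)).symm, rfl, hu⟩)))

lemma bd_kid (y : Step × ℕ) {J : Iv D} {c : ℝ} (hJ : Bd 𝓕 J c) :
    Bd 𝓕 (D := D) (fun i S' E' => ∃ S x rest s W,
      ∃ E : Perm (D i) → Prop, Kid S b x rest y.1 y.2 s W ∧ S' = S.ch b x s rest y.1 W ∧
      J i S' (fun g => E g ∧ ∀ z, UF F S b g z → UF F S' b g z) ∧
      E' = fun g => E g ∧ ¬(g x ∉ (S.K b).X ∧ Tch F (S.K b) (g x) g))
      (min 1 (c + bt F y * 1)) :=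
  Bd.one.min (hJ.union (bd_fin hF b y) (Eventually.of_forall (by
    rintro i _ _ ⟨S, x, rest, s, W, E, k, rfl, j, rfl⟩
    refine ⟨_, _, fun g hg p => ?_, j, S, x, rest, s, W, k, rfl, rfl⟩
    by_contra n
    rw [not_or] at n
    have := p.2
    rw [(k.up hg).2.1] at this
    exact n.1 ⟨p.1, fun z hz => (kid_split k hF hg (fun t => this ⟨k.ok.hs', t⟩) hz).resolve_right
      fun f => n.2 ⟨z, f⟩⟩)))

end

end FB

open FB

theorem ruleF : ∃ C : ℝ, 0 ≤ C ∧ ∀ (F : Fam) (V : ℕ) (η : ℝ), FamOk F V → 0 < η → η ≤ 1 →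
    del F V ≤ η ^ 4 → RuleF F (C * η ^ 3) := by
  obtain ⟨C, hC, H⟩ := sum_bt
  refine ⟨8 + 2 * C, by positivity, fun F V η hF h0 h1 hd => ?_⟩
  intro ι 𝓕 D _ _ Sz wt md hwt b I J c c0 c1 hJ G hG e
  have n3 : ∀ y, 0 ≤ min 1 (c y + bt F y * 1) := fun y =>
    le_min zero_le_one (by linarith [c0 y, bt_nn F y])
  have B4 := Bd.step md b n3 (fun _ => min_le_left _ _) (fun y => bd_kid hF b y (hJ y)) hG
    (Eventually.of_forall fun _ _ _ => id)
  refine ((bd_tch hF b md).union B4 (e.mono fun i h S E hI => ?_)).le ?_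
  · obtain ⟨w, x, rest, hl, sz, k⟩ := h S E hI
    exact ⟨fun g => g x ∉ (S.K b).X ∧ Tch F (S.K b) (g x) g,
      fun g => E g ∧ ¬(g x ∉ (S.K b).X ∧ Tch F (S.K b) (g x) g),
      fun g _ p => (em _).imp_right fun n => ⟨p, n⟩, ⟨w, x, rest, hl, sz, rfl⟩, w, x, rest, hl, sz,
      fun y hy s W kd => ⟨S, x, rest, s, W, E, kd, rfl, k y hy s W kd, rfl⟩⟩
  · have s1 : Summable fun y => wt y * c y := Summable.of_nonneg_of_le
      (fun y => mul_nonneg (md.nn y) (c0 y)) (fun y => mul_le_of_le_one_right (md.nn y) (c1 y))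
      md.sum.summable
    have le : ∀ y, wt y * min 1 (c y + bt F y * 1) ≤ wt y * c y + 2 * (wv y.1 y.2 * bt F y) :=
      fun y => (mul_le_mul_of_nonneg_left (min_le_right _ _) (md.nn y)).trans (by
        linarith [mul_le_mul_of_nonneg_right (hwt y) (bt_nn F y)])
    have s2 := s1.add ((summable_bt F).mul_left 2)
    have := (Summable.of_nonneg_of_le (fun y => mul_nonneg (md.nn y) (n3 y)) le s2).tsum_le_tsum
      le s2
    rw [s1.tsum_add ((summable_bt F).mul_left 2), tsum_mul_left] at this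
    have e2 : η ^ 4 ≤ η ^ 3 := pow_le_pow_of_le_one h0.le h1 (by norm_num)
    linarith [H F V η hF h0 h1 hd]

end Pool.Agent.Lib.MP_abd955_pr
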