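import Pool.Agent.Lib.MP_abd955_pr.ExtF
import Pool.Agent.Lib.MP_abd955_pr.FeatB

/-! Extents of balls along the boundary and absence of bulk features. -/

namespace Pool.Agent.Lib.MP_abd955_pr

open Equiv Equiv.Perm Finset Step Filter

lemma ext_num {C C' a η R M J ε x : ℝ} (hC : 0 ≤ C) (hC' : 0 ≤ C') (hη : 0 < η) (hR : 0 ≤ R)
    (hM : 0 ≤ M) (hJ : 0 ≤ J) (h : x ≤ (a + C * (R + 1 + 1) * √M) / M + C * (R + 1 + 1) * √M / J +
      C' * η ^ 3 * (R + 1 + 1) * (M + 1)) : x + ε ≤ (a + (C + C') * (R + 2) * √M) / M +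
        (C + C') * (R + 2) * √M / J + (C + C') * η ^ 3 * (R + 2) * (M + 1) + ε := by
  rw [show R + 1 + 1 = R + 2 by ring] at h
  refine add_le_add (h.trans ?_) le_rfl
  gcongr <;> linarith

open Classical in
theorem extent_fold : ∃ C : ℝ, 0 ≤ C ∧ ∀ (F : Fam) (V : ℕ) (η : ℝ) (R J0 M : ℕ), FamOk F V → 0 < η →
    η ≤ 1 → del F V ≤ η ^ 4 → 1 ≤ J0 → 1 ≤ M → ∀ ε : ℝ, 0 < ε →
    ∀ᶠ p : ℕ in atTop, ∀ᶠ n : ℕ in atTop, (((DiscS n p).filter fun a => ¬(ExtF R J0 a ∧ NoBF F V R a)).card : ℝ)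
      ≤ ((2 + C * (R + 2) * √M) / M + C * (R + 2) * √M / J0 + C * η ^ 3 * (R + 2) * (M + 1) + ε) *
        (DiscS n p).card := by
  obtain ⟨C, hC, h⟩ := extent_bound
  obtain ⟨C', hC', h'⟩ := ruleF
  refine ⟨C + C', by positivity, fun F V η R J0 M hF h0 h1 h2 hJ hM ε hε => ?_⟩
  obtain ⟨J, rfl⟩ : ∃ J, J0 = J + 1 := ⟨J0 - 1, by omega⟩
  have hκ : 0 ≤ C' * η ^ 3 := by positivity
  obtain ⟨m, hm⟩ := h false (R + 1) (J + 1) M (2 * 1) 0 _ hκ hJ hM (by norm_num)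
  filter_upwards [ext_fold_gen (h' F V η hF h0 h1 h2) hκ le_rfl (fun n p => {ek n p (-1)})
    (fun n p e he => mem_zls.2 ⟨-1, by simp, by simp, he⟩) R J M m hε,
    eventually_ge_atTop (1 + J)] with p hp hp'
  filter_upwards [hp, eventually_ge_atTop 1] with n hn hn'
  refine le_trans (Nat.cast_le.2 (card_le_card fun a ha => ?_)) (hn.trans
    (mul_le_mul_of_nonneg_right (ext_num hC hC' h0 (by positivity) (by positivity) (by positivity)
      (by simpa using hm)) (by positivity)))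
  obtain ⟨ha, e⟩ := mem_filter.1 ha
  refine mem_filter.2 ⟨ha, (not_and_or.1 e).imp (fun e => ?_) (noBF_of hn' ha hF)⟩
  simp only [ExtF, not_forall] at e
  obtain ⟨i, e1, e2⟩ := e
  refine ⟨.inr i, ?_, _, rfl, e1⟩
  by_contra c
  obtain ⟨k, k1, k2, k3⟩ := not_RS hp' ⟨i, rfl⟩ c
  exact e2 ⟨k, abs_le.2 ⟨by omega, by omega⟩, k3⟩

open Classical in
theorem extent_glue : ∃ C : ℝ, 0 ≤ C ∧ ∀ (F : Fam) (V : ℕ) (η : ℝ) (R J0 M : ℕ) (s : ℤ) (d : ℕ),
    FamOk F V → 0 < η → η ≤ 1 → del F V ≤ η ^ 4 → 1 ≤ J0 → 1 ≤ M → 1 ≤ d → ∀ ε : ℝ, 0 < ε →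
    ∀ᶠ p : ℕ in atTop, ∀ᶠ n : ℕ in atTop,
      (((Fintype.piFinset fun _ : Bool => DiscS n p).filter fun a =>
        ¬(ExtG R J0 s d a ∧ NoBG F V R s d a)).card : ℝ)
      ≤ ((2 * d + C * (R + 2) * √M) / M + C * (R + 2) * √M / J0 + C * η ^ 3 * (R + 2) * (M + 1) + ε) *
        (Fintype.piFinset fun _ : Bool => DiscS n p).card := by
  obtain ⟨C, hC, h⟩ := extent_bound
  obtain ⟨C', hC', h'⟩ := ruleF
  refine ⟨C + C', by positivity, fun F V η R J0 M s d hF h0 h1 h2 hJ hM hd ε hε => ?_⟩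
  obtain ⟨J, rfl⟩ : ∃ J, J0 = J + 1 := ⟨J0 - 1, by omega⟩
  have hκ : 0 ≤ C' * η ^ 3 := by positivity
  obtain ⟨m, hm⟩ := h true (R + 1) (J + 1) M d d _ hκ hJ hM hd
  have := ext_bd (D := fun i => Bool × DD i.2 i.1) (h' F V η hF h0 h1 h2) hκ
    (G := fun i => glG i.2 i.1 {e | e ∈ segG i.2 i.1 s d true})
    (R0 := fun i => R0G i.2 i.1 s d) (two := true)
    ((evH_ge d).mono fun i hi => mirG_ok (by omega) hi.1 fun e he => by
      obtain ⟨k, -, -, rfl⟩ := mem_zls.1 he; exact ek_mem k)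
    (fun L => (evH_ge (L + d)).mono fun i hi b c => by rw [R0G, zls_len]; omega) R J M m
    ⟨fun c => List.replicate (if c then d else d) true, 0, 0⟩ 2
    (Or.inl (mem_repl (by simpa using hd))) ε hε
  filter_upwards [evH.1 (this.and (evH_ge d))] with p hp
  filter_upwards [hp] with n ⟨k1, k2⟩
  have hn : 1 ≤ n := le_trans hd k2.2
  have := k1 (St.two n p) (EBad F (glG n p {e | e ∈ segG n p s d true}) (RS (R0G n p s d) J) R
    (St.two n p)) ⟨⟨_, _, initG hn k2.1⟩, fun b c => by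
      change SzH 2 (p, n) (K2 n p b).m (K2 n p b).X.card
      rw [← (two_holes b 0).len, two_m]
      exact ⟨by simp, by simp; omega, by simp⟩, fun _ _ e => e⟩
  rw [two_cnt, two_tot] at this
  refine le_trans (Nat.cast_le.2 (card_le_card fun a ha => ?_)) (this.trans
    (mul_le_mul_of_nonneg_right (ext_num hC hC' h0 (by positivity) (by positivity) (by positivity)
      (by simpa [two_mul] using hm)) (by positivity)))
  obtain ⟨ha, e⟩ := mem_filter.1 ha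
  have nr : ∀ {k : ℤ} {y}, s ≤ k → k < s + d →
      Near (glueP a) (gpoly n p) R (true, a true (ek n p k)) y →
      (glG n p {e | e ∈ segG n p s d true}).Nr (Equiv.prodCongrRight a) R y :=
    fun {k y} a1 a2 a3 => ⟨(true, ek n p k), mem_zls.2 ⟨k, a1, a2, rfl⟩, a3⟩
  refine mem_filter.2 ⟨ha, (not_and_or.1 e).imp (fun e => ?_) fun e => ?_⟩
  · simp only [ExtG, not_forall] at e
    obtain ⟨k, a1, a2, b, i, e1, e2⟩ := e
    refine ⟨(b, .inr i), ?_, nr a1 a2 e1⟩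
    by_contra c
    obtain ⟨k, k1, k2, k3⟩ := not_RSG ⟨i, rfl⟩ c
    exact e2 ⟨k, by omega, by omega, k3⟩
  · simp only [NoBG, not_forall, not_exists] at e
    obtain ⟨k, a1, a2, y, e1, e2, e3⟩ := e
    have o := (mirG_ok (s := s) (rt := {e | e ∈ segG n p s d true}) hn k2.1 fun e he => by
      obtain ⟨k, -, -, rfl⟩ := mem_zls.1 he; exact ek_mem k).ok
    refine ⟨y.1, y, ?_, nr a1 a2 e2⟩
    exact feat_inner o ⟨a, ha, rfl⟩ hF (I := ↑((K2 n p y.1).U \ (K2 n p y.1).X))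
      (fun _ h => (K2_in.1 h).2) (fun u => by
        simp only [mem_coe, K2_in]; exact and_congr Iff.rfl (not_congr poly_inner))
      (fun u h h' => K2_in.2 ⟨(K2_in.1 h).1, h'⟩)
      (K2_in.2 ⟨rfl, o.inner ⟨a, ha, rfl⟩ (nr a1 a2 e2)⟩) e1
      (by rintro ⟨b, _⟩ ⟨i, rfl⟩; exact e3 b i)

open Classical in
theorem sphere_fin : ∃ C : ℝ, 0 ≤ C ∧ ∀ (F : Fam) (V : ℕ) (η lam : ℝ) (R M : ℕ), FamOk F V → 0 < η →
    η ≤ 1 → del F V ≤ η ^ 4 → 0 ≤ lam → lam ≤ 1 → 1 ≤ M → ∀ ε : ℝ, 0 < ε →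
    ∀ᶠ n : ℕ in atTop, (((DiscS n 0).filter fun a => ¬NoBF F V R a).card : ℝ)
      ≤ (C * √M * Real.exp (-lam * M + C * lam * √lam * (R + 2) * (M + 1)) +
        C * η ^ 3 * (R + 2) * (M + 1) + ε) * (DiscS n 0).card := by
  obtain ⟨C, hC, h⟩ := sphere_bound
  obtain ⟨C', hC', h'⟩ := ruleF
  refine ⟨C + C', by positivity, fun F V η lam R M hF h0 h1 h2 l0 l1 hM ε hε => ?_⟩
  have hκ : 0 ≤ C' * η ^ 3 := by positivity
  obtain ⟨m, hm⟩ := h (R + 1) M _ lam hκ l0 l1 hM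
  have k : ∀ n, ({ek n 0 (-1)} : Set (DD n 0)) ⊆ extS n 0 := fun n => by
    rintro _ rfl; exact ek_mem _
  filter_upwards [sph_bd (D := fun n => DD n 0) (h' F V η hF h0 h1 h2) hκ
    (G := fun n => glF n 0 {ek n 0 (-1)})
    ((eventually_ge_atTop 1).mono fun n hn => glF_ok hn (k n)) R M m ([true, true], 0) 0 ε hε,
    eventually_ge_atTop 1] with n k1 hn
  have := k1 (St.one (KD n 0)) (fun a => ¬NoBF F V R a) ⟨⟨_, _, initS hn (k n) 0⟩,
    (KD_spec n 0).2.1.ge, fun g hg e => Or.inr (noBF_of hn (one_val.1 hg) hF e)⟩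
  rw [one_cnt, one_tot, (KD_spec n 0).2.2.1] at this
  refine le_trans (le_of_eq_of_le (by congr) this) (mul_le_mul_of_nonneg_right (add_le_add (hm.trans ?_) le_rfl)
    (by positivity))
  push_cast
  rw [show (R : ℝ) + 1 + 1 = R + 2 by ring]
  gcongr <;> linarith

end Pool.Agent.Lib.MP_abd955_pr
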