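import Pool.Agent.Lib.MP_abd955_pr.TrialC

/-! Features appear along the seam. -/

namespace Pool.Agent.Lib.MP_abd955_pr

open Equiv Equiv.Perm Finset PowerSeries Step Filter

lemma cut_zero {α : Type} (l : List α) : cut 0 0 l = l := by simp [cut]

lemma sg_range {D : Type} [DecidableEq D] [Fintype D] {K : Cfg D} {e : ℕ → D} {N L : ℕ}
    (h : Holes K [(List.range N).map e]) (hL : L ≤ N) : Sg K ((List.range L).map e) := by
  obtain ⟨m, rfl⟩ := Nat.exists_eq_add_of_le hL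
  rw [List.range_add, List.map_append] at h
  exact ⟨_, h⟩

lemma rev_range {α : Type} {e e' : ℕ → α} {L : ℕ} (h : ∀ i j, i + j + 1 = L → e i = e' j) :
    ((List.range L).map e).reverse = (List.range L).map e' :=
  List.ext_getElem (by simp) fun i h1 h2 => by
    simp only [List.length_map, List.length_range, List.getElem_reverse, List.getElem_map,
      List.getElem_range] at h2 ⊢
    exact h _ _ (by omega)

lemma mem_take_range {α : Type} {e : ℕ → α} {L g : ℕ} {x : α}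
    (h : x ∈ ((List.range L).map e).take g) : ∃ i < g, x = e i := by
  rw [← List.map_take, List.take_range] at h
  obtain ⟨i, hi, rfl⟩ := List.mem_map.1 h
  exact ⟨i, (List.mem_range.1 hi).trans_le (min_le_left _ _), rfl⟩

lemma KD_X {n p : ℕ} {u : DD n p} : u ∈ (KD n p).X ↔ u ∈ extS n p := by simp [KD, extS]

lemma KD_card (n p : ℕ) : (KD n p).X.card = 2 * p + 2 := by
  rw [← ((KD_spec n p).2.2.2 0).len]; simp

open Classical in
theorem trial_fold {F : Fam} {V : ℕ} (_hF : FamOk F V) (K k0 t g : ℕ) (hg : 1 ≤ g) (ε : ℝ) (hε : 0 < ε) :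
    ∀ᶠ p : ℕ in atTop, ∀ᶠ n : ℕ in atTop, (((DiscS n p).filter fun a => ¬∃ k : ℕ, k0 ≤ k ∧
      k < k0 + g ∧ Feat F (foldP a) (poly n p) (a (ek n p (-1 - k)))).card : ℝ) ≤
      ((1 - del' F V K / 32) ^ t + 4 * t / g + ε) * (DiscS n p).card := by
  have h := trial_gen (D := fun i => DD i.2 i.1) (F := F) (K := K) (b1 := true) (b2 := true)
    V hg t 0 2 ε hε
  refine (evH.1 (h.and (evH_ge (k0 + (2 * g + 2 * K + 1))))).mono fun p e => e.mono ?_
  rintro n ⟨h, hp, hn⟩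
  obtain ⟨w, m, vs, hl⟩ := KD_spec n p
  have := h (St.one (KD n p)) (fun a => ¬∃ k : ℕ, k0 ≤ k ∧ k < k0 + g ∧
    Feat F (foldP a) (poly n p) (a (ek n p (-1 - k))))
    ⟨⟨poly n p, mirF n p, extS n p, (List.range (2 * g + 2 * K + 1)).map fun i : ℕ => ek n p (k0 + i)⟩,
      fun u => ?_, fun x hx => ?_, by simp, one_wf w, fun b u hu => ?_, ?_, ?_, fun b hb => ?_,
      fun a ha hE x hx => ?_⟩
  · rw [one_cnt, one_tot, vs, Nat.cast_zero, zero_add] at this
    convert this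
  · rcases u with u | u <;> simp [mirF]
  · obtain ⟨i, hi, rfl⟩ := List.mem_map.1 hx
    rw [mirF_ek]
    refine ⟨(ek_ext ..).2 ⟨_, rfl⟩, (ek_ext ..).2 ⟨_, rfl⟩, fun c => ?_⟩
    obtain ⟨j, hj, e⟩ := List.mem_map.1 c
    have := Int.le_of_dvd (by omega) ((ek_eq_iff ..).1 e)
    have := List.mem_range.1 hi
    have := List.mem_range.1 hj
    omega
  · cases b
    · simp [St.one, emp] at hu
    · exact ⟨fun c => (mem_sdiff.1 hu).2 (KD_X.2 c), rfl⟩
  · rw [cut_zero]; exact sg_range (hl k0) (by omega)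
  · rw [cut_zero, List.map_map, rev_range (e' := fun i : ℕ =>
      ek n p (-k0 - (2 * g + 2 * K + 1 : ℕ) + i)) fun i j e => ?_]
    exacts [sg_range (hl _) (by omega), (mirF_ek ..).trans (by congr 1; omega)]
  · rw [or_self_iff.1 hb]
    change SzH 2 (p, n) (KD n p).m (KD n p).X.card
    rw [m, KD_card]
    exact ⟨by omega, by omega, by omega⟩
  · obtain ⟨i, hi, rfl⟩ := mem_take_range hx
    refine ⟨foldP a, fun u => (foldP_apply (by omega) (vs ▸ one_ok.1 ha) u).1, fun c => hE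
      ⟨k0 + i, by omega, by omega, ?_⟩⟩
    rwa [mirF_ek, ← Nat.cast_add] at c

open Classical in
theorem trial_glue {F : Fam} {V : ℕ} (_hF : FamOk F V) (K k0 t g : ℕ) (hg : 1 ≤ g) (_hk : 1 ≤ k0)
    (b : Bool) (ε : ℝ) (hε : 0 < ε) :
    ∀ᶠ p : ℕ in atTop, ∀ᶠ n : ℕ in atTop,
      (((Fintype.piFinset fun _ : Bool => DiscS n p).filter fun a => ¬∃ k : ℕ, k0 ≤ k ∧
      k < k0 + g ∧ Feat F (glueP a) (gpoly n p) (!b, a (!b) (ek n p (-k)))).card : ℝ) ≤
      ((1 - del' F V K / 32) ^ t + 4 * t / g + ε) *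
        (Fintype.piFinset fun _ : Bool => DiscS n p).card := by
  have h := trial_gen (D := fun i => Bool × DD i.2 i.1) (F := F) (K := K) (b1 := b) (b2 := !b)
    V hg t 0 2 ε hε
  refine (evH.1 (h.and (evH_ge (2 * g + 2 * K + 1)))).mono fun p e => e.mono ?_
  rintro n ⟨h, hp, hn⟩
  have := h (St.two n p) (fun c => ∃ a ∈ Fintype.piFinset fun _ : Bool => DiscS n p,
    c = Equiv.prodCongrRight a ∧ ¬∃ k : ℕ, k0 ≤ k ∧ k < k0 + g ∧
      Feat F (glueP a) (gpoly n p) (!b, a (!b) (ek n p (-k))))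
    ⟨⟨gpoly n p, mirG n p, {x | x.2 ∈ extS n p},
      (List.range (2 * g + 2 * K + 1)).map fun i : ℕ => (b, ek n p (k0 + i))⟩,
      fun u => ?_, fun x hx => ?_, by simp, two_wf, fun b u hu => ?_, ?_, ?_, fun b _ => ?_,
      fun c _ hE x hx => ?_⟩
  · rw [two_cnt, two_tot, Nat.cast_zero, zero_add] at this
    refine le_trans (Nat.cast_le.2 (card_le_card fun a ha => ?_)) this
    simp only [mem_filter] at ha ⊢
    exact ⟨ha.1, a, ha.1, rfl, ha.2⟩
  · rcases u with ⟨c, u | u⟩ <;> simp [mirG]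
  · obtain ⟨i, hi, rfl⟩ := List.mem_map.1 hx
    rw [mirG_ek]
    refine ⟨(ek_ext ..).2 ⟨_, rfl⟩, (ek_ext ..).2 ⟨_, rfl⟩, fun c => ?_⟩
    obtain ⟨j, hj, e⟩ := List.mem_map.1 c
    simpa using congrArg Prod.fst e
  · exact ⟨fun c => (mem_sdiff.1 hu).2 (K2_X.2 ⟨K2_U.1 (mem_sdiff.1 hu).1, KD_X.2 c⟩), rfl⟩
  · rw [cut_zero]; exact sg_range (two_holes b k0) (by omega)
  · rw [cut_zero, List.map_map, rev_range (e' := fun i : ℕ =>
      (!b, ek n p (1 - k0 - (2 * g + 2 * K + 1 : ℕ) + i)))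
      fun i j e => ?_]
    exacts [sg_range (two_holes _ _) (by omega), (mirG_ek ..).trans (by congr 2; omega)]
  · change SzH 2 (p, n) (K2 n p b).m (K2 n p b).X.card
    rw [two_m, ← (two_holes b 0).len, List.length_map, List.length_range]
    exact ⟨by omega, by omega, by omega⟩
  · obtain ⟨i, hi, rfl⟩ := mem_take_range hx
    obtain ⟨a, ha, rfl, hE⟩ := hE
    refine ⟨glueP a, fun u => (glueP_apply (by omega) (Fintype.mem_piFinset.1 ha) u).1, fun c => hE
      ⟨k0 + i, by omega, by omega, ?_⟩⟩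
    rwa [mirG_ek, ← Nat.cast_add] at c

end Pool.Agent.Lib.MP_abd955_pr
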