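import Pool.Agent.Lib.MP_abd955_pr.Cover
import Pool.Agent.Lib.MP_abd955_pr.ExtT
import Pool.Agent.Lib.MP_abd955_pr.Trial

/-! Bookkeeping of failure probabilities. -/

namespace Pool.Agent.Lib.MP_abd955_pr

open Equiv Equiv.Perm Finset Filter Topology

open Classical in
/-- P fails on a proportion at most x of S -/
def Bad {α : Type} (S : Finset α) (P : α → Prop) (x : ℝ) : Prop :=
  ((S.filter fun a => ¬P a).card : ℝ) ≤ x * S.card

section
variable {α : Type} {S : Finset α} {P Q : α → Prop} {x y : ℝ}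

lemma bad_iff [DecidablePred fun a => ¬P a] :
    Bad S P x ↔ ((S.filter fun a => ¬P a).card : ℝ) ≤ x * S.card := by
  unfold Bad; congr!

lemma bad_of {i : DecidablePred fun a => ¬P a}
    (h : ((@Finset.filter _ (fun a => ¬P a) i S).card : ℝ) ≤ x * S.card) : Bad S P x :=
  bad_iff.2 h

lemma Bad.out {i : DecidablePred fun a => ¬P a} (h : Bad S P x) :
    ((@Finset.filter _ (fun a => ¬P a) i S).card : ℝ) ≤ x * S.card := bad_iff.1 h

lemma Bad.mono (h : Bad S P x) (h1 : ∀ a ∈ S, P a → Q a) (h2 : x ≤ y) : Bad S Q y := by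
  classical
  rw [bad_iff] at *
  refine le_trans ?_ (h.trans (mul_le_mul_of_nonneg_right h2 (Nat.cast_nonneg _)))
  refine Nat.cast_le.2 (card_le_card fun a ha => ?_)
  rw [mem_filter] at *
  exact ⟨ha.1, fun hp => ha.2 (h1 a ha.1 hp)⟩

lemma Bad.and (h : Bad S P x) (h' : Bad S Q y) : Bad S (fun a => P a ∧ Q a) (x + y) := by
  classical
  rw [bad_iff] at *
  have : (S.filter fun a => ¬(P a ∧ Q a)).card ≤
      (S.filter fun a => ¬P a).card + (S.filter fun a => ¬Q a).card := by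
    refine le_trans (card_le_card fun a ha => ?_) (card_union_le _ _)
    simp only [mem_filter, mem_union] at *
    tauto
  have h2 : ((S.filter fun a => ¬(P a ∧ Q a)).card : ℝ) ≤
      (S.filter fun a => ¬P a).card + (S.filter fun a => ¬Q a).card := by exact_mod_cast this
  linarith

lemma bad_of_all (h : ∀ a ∈ S, P a) (hx : 0 ≤ x) : Bad S P x := by
  classical
  rw [bad_iff, filter_eq_empty_iff.2 fun a ha => not_not.2 (h a ha)]
  simp only [card_empty, Nat.cast_zero]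
  positivity

lemma Bad.all {ι : Type} {T : Finset ι} {R : ι → α → Prop} (h : ∀ i ∈ T, Bad S (R i) x) :
    Bad S (fun a => ∀ i ∈ T, R i a) (T.card * x) := by
  classical
  induction T using Finset.induction_on with
  | empty => exact bad_of_all (by simp) (by simp)
  | insert i T hi ih =>
    refine ((h i (mem_insert_self _ _)).and (ih fun j hj => h j (mem_insert_of_mem hj))).mono
      (fun a _ ha => by simpa using ha) (le_of_eq ?_)
    rw [card_insert_of_notMem hi]; push_cast; ring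

lemma Bad.pi (h : Bad S P x) :
    Bad (Fintype.piFinset fun _ : Bool => S) (fun a => P (a true)) x := by
  classical
  rw [bad_iff] at *
  have e : ((Fintype.piFinset fun _ : Bool => S).filter fun a => ¬P (a true)) =
      Fintype.piFinset fun b : Bool => if b then S.filter fun a => ¬P a else S := by
    ext a
    simp only [mem_filter, Fintype.mem_piFinset, Bool.forall_bool, Bool.false_eq_true, if_false,
      if_true]
    tauto
  rw [e, Fintype.card_piFinset, Fintype.card_piFinset, Fintype.prod_bool, Fintype.prod_bool]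
  simp only [Bool.false_eq_true, if_false, if_true]
  push_cast
  rw [← mul_assoc]
  exact mul_le_mul_of_nonneg_right h (Nat.cast_nonneg _)

end

/-- asymptotic failure probability at most x -/
def EB {T : ℕ → ℕ → Type} (S : ∀ n p, Finset (T n p)) (P : ∀ n p, T n p → Prop) (x : ℝ) : Prop :=
  ∀ ε : ℝ, 0 < ε → ∀ᶠ p : ℕ in atTop, ∀ᶠ n : ℕ in atTop, Bad (S n p) (P n p) (x + ε)

section
variable {T : ℕ → ℕ → Type} {S : ∀ n p, Finset (T n p)} {P Q : ∀ n p, T n p → Prop} {x y : ℝ}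

lemma EB.mono (h : EB S P x) (p0 : ℕ) (h1 : ∀ n p, 1 ≤ n → p0 ≤ p → ∀ a ∈ S n p, P n p a → Q n p a)
    (h2 : x ≤ y) : EB S Q y := by
  intro ε hε
  filter_upwards [h ε hε, eventually_ge_atTop p0] with p hp hp0
  filter_upwards [hp, eventually_ge_atTop 1] with n hn hn1
  exact hn.mono (h1 n p hn1 hp0) (by linarith)

lemma EB.le (h : EB S P x) (h2 : x ≤ y) : EB S P y := h.mono 0 (fun _ _ _ _ _ _ h => h) h2

lemma EB.and (h : EB S P x) (h' : EB S Q y) : EB S (fun n p a => P n p a ∧ Q n p a) (x + y) := by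
  intro ε hε
  filter_upwards [h _ (half_pos hε), h' _ (half_pos hε)] with p h1 h2
  filter_upwards [h1, h2] with n h1 h2
  exact (h1.and h2).mono (fun _ _ h => h) (by linarith)

lemma EB.all {ι : Type} {I : Finset ι} {R : ι → ∀ n p, T n p → Prop} (h : ∀ i ∈ I, EB S (R i) x) :
    EB S (fun n p a => ∀ i ∈ I, R i n p a) (I.card * x) := by
  intro ε hε
  have h0 : (0 : ℝ) < I.card + 1 := by positivity
  filter_upwards [(eventually_all_finset I).2 fun i hi => h i hi _ (div_pos hε h0)] with p hp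
  filter_upwards [(eventually_all_finset I).2 hp] with n hn
  refine (Bad.all hn).mono (fun _ _ h => h) ?_
  have : I.card * (ε / (I.card + 1)) ≤ ε := by
    rw [← mul_div_assoc, div_le_iff₀ h0]; nlinarith
  linarith

lemma EB.pi (h : EB S P x) :
    EB (fun n p => Fintype.piFinset fun _ : Bool => S n p) (fun n p a => P n p (a true)) x := by
  intro ε hε
  filter_upwards [h ε hε] with p hp
  filter_upwards [hp] with n hn
  exact hn.pi

end

noncomputable abbrev DS2 (n p : ℕ) : Finset (Bool → Perm (DD n p)) := Fintype.piFinset fun _ : Bool => DiscS n p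

lemma eb_cov : ∃ C : ℕ, ∀ k2 N s lam : ℕ, 1 ≤ N → N ≤ s ^ 2 →
    EB DiscS (fun _ _ a => Cov k2 N (C * s * lam) a) ((2 * k2 + 1) ^ 2 * (2 * (3 / 4) ^ lam)) := by
  obtain ⟨C, hC⟩ := cover_fin
  refine ⟨C, fun k2 N s lam h1 h2 => ?_⟩
  refine (EB.all (I := Icc (-(k2 : ℤ)) k2 ×ˢ Icc (-(k2 : ℤ)) k2) (x := 2 * (3 / 4) ^ lam)
    (R := fun y n p a => |y.1 - y.2| ≤ N → Walk a (poly n p) (extS n p)ᶜ (C * s * lam)
      (a (ek n p y.1)) (a (ek n p y.2))) fun y _ ε hε => ?_).le (le_of_eq ?_)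
  · by_cases hy : |y.1 - y.2| ≤ N
    · filter_upwards [hC N s lam h1 h2 y.1 y.2 hy ε hε] with p hp
      filter_upwards [hp] with n hn
      exact (bad_of hn).mono (fun _ _ h _ => h) le_rfl
    · exact Eventually.of_forall fun p => Eventually.of_forall fun n =>
        bad_of_all (fun _ _ h => absurd h hy) (by positivity)
  · rw [card_product, Int.card_Icc, show ((k2 : ℤ) + 1 - -k2).toNat = 2 * k2 + 1 by omega]
    push_cast; ring

/-- error term of the extent machines -/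
noncomputable def xerr (C η x : ℝ) (R J0 M : ℕ) : ℝ :=
  (x + C * (R + 2) * √M) / M + C * (R + 2) * √M / J0 + C * η ^ 3 * (R + 2) * (M + 1)

lemma xerr_mono {C C' η x : ℝ} (h : C ≤ C') (hη : 0 ≤ η) (R J0 M : ℕ) :
    xerr C η x R J0 M ≤ xerr C' η x R J0 M := by
  unfold xerr; gcongr

lemma eb_ext : ∃ C : ℝ, 0 ≤ C ∧ ∀ (F : Fam) (V : ℕ) (η : ℝ) (R J0 M : ℕ), FamOk F V → 0 < η →
    η ≤ 1 → del F V ≤ η ^ 4 → 1 ≤ J0 → 1 ≤ M →
      EB DiscS (fun _ _ a => ExtF R J0 a ∧ NoBF F V R a) (xerr C η 2 R J0 M) ∧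
      ∀ (s : ℤ) (d : ℕ), 1 ≤ d →
        EB DS2 (fun _ _ a => ExtG R J0 s d a ∧ NoBG F V R s d a) (xerr C η (2 * d) R J0 M) := by
  obtain ⟨C1, c1, h1⟩ := extent_fold
  obtain ⟨C2, c2, h2⟩ := extent_glue
  refine ⟨C1 + C2, by linarith, fun F V η R J0 M a1 a2 a3 a4 a5 a6 => ⟨?_, fun s d hd => ?_⟩⟩
  · refine EB.le (x := xerr C1 η 2 R J0 M) (fun ε hε => ?_) (xerr_mono (by linarith) a2.le _ _ _)
    filter_upwards [h1 F V η R J0 M a1 a2 a3 a4 a5 a6 ε hε] with p hp
    filter_upwards [hp] with n hn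
    exact bad_of hn
  · refine EB.le (x := xerr C2 η (2 * d) R J0 M) (fun ε hε => ?_)
      (xerr_mono (by linarith) a2.le _ _ _)
    filter_upwards [h2 F V η R J0 M s d a1 a2 a3 a4 a5 a6 hd ε hε] with p hp
    filter_upwards [hp] with n hn
    exact bad_of hn

lemma eb_trF {F : Fam} {V : ℕ} (hF : FamOk F V) (K k0 t g : ℕ) (hg : 1 ≤ g) :
    EB DiscS (fun _ _ a => TrF F k0 g a) ((1 - del' F V K / 32) ^ t + 4 * t / g) := by
  intro ε hε
  filter_upwards [trial_fold hF K k0 t g hg ε hε] with p hp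
  filter_upwards [hp] with n hn
  exact bad_of hn

lemma eb_trG {F : Fam} {V : ℕ} (hF : FamOk F V) (K k0 t g : ℕ) (hg : 1 ≤ g) (hk : 1 ≤ k0) (b : Bool) :
    EB DS2 (fun _ _ a => TrG F k0 g b a) ((1 - del' F V K / 32) ^ t + 4 * t / g) := by
  intro ε hε
  filter_upwards [trial_glue hF K k0 t g hg hk b ε hε] with p hp
  filter_upwards [hp] with n hn
  exact bad_of hn

lemma xerr_le {C : ℝ} (hC : 0 ≤ C) {s w a b e q R : ℕ} {x : ℝ} (hs : 1 ≤ s) (hw : 1 ≤ w)
    (hR : R + 2 ≤ s * w ^ a) (hx : x * w ≤ s ^ 2 * w ^ (2 * b)) (h1 : a + 1 ≤ b)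
    (h2 : a + b + 1 ≤ e) (h3 : a + 2 * b + 1 ≤ 3 * q) :
    xerr C (1 / (s * w ^ q)) x R (s ^ 2 * w ^ e) (s ^ 2 * w ^ (2 * b)) ≤ (1 + 4 * C) / w := by
  have s1 : (1 : ℝ) ≤ s := by exact_mod_cast hs
  have w1 : (1 : ℝ) ≤ w := by exact_mod_cast hw
  have r1 : (R : ℝ) + 2 ≤ s * w ^ a := by exact_mod_cast hR
  have e1 : √((s ^ 2 * w ^ (2 * b) : ℕ) : ℝ) = s * w ^ b := by
    rw [show ((s ^ 2 * w ^ (2 * b) : ℕ) : ℝ) = (s * w ^ b) ^ 2 by push_cast; ring,
      Real.sqrt_sq (by positivity)]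
  have pw : ∀ {i j : ℕ}, i ≤ j → (w : ℝ) ^ i ≤ w ^ j := fun h => pow_le_pow_right₀ w1 h
  have key : ∀ j, a + b + 1 ≤ j → C * (R + 2) * (s * w ^ b) / (s ^ 2 * w ^ j) ≤ C / w := by
    intro j hj
    rw [div_le_div_iff₀ (by positivity) (by positivity)]
    calc C * (R + 2) * (s * w ^ b) * w ≤ C * (s * w ^ a) * (s * w ^ b) * w := by gcongr
      _ = C * (s ^ 2 * w ^ (a + b + 1)) := by ring
      _ ≤ C * (s ^ 2 * w ^ j) := by have := pw hj; gcongr
  have k1 := key (2 * b) (by omega)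
  have k2 := key e h2
  have k3 : x / (s ^ 2 * w ^ (2 * b)) ≤ 1 / w := by
    rw [div_le_div_iff₀ (by positivity) (by positivity)]; linarith
  have k4 : C * (1 / (s * w ^ q)) ^ 3 * (R + 2) * (s ^ 2 * w ^ (2 * b) + 1) ≤ 2 * C / w := by
    have a1 : (1 : ℝ) ≤ s ^ 2 * w ^ (2 * b) :=
      one_le_mul_of_one_le_of_one_le (one_le_pow₀ s1) (one_le_pow₀ w1)
    rw [le_div_iff₀ (by positivity)]
    calc C * (1 / (s * w ^ q)) ^ 3 * (R + 2) * (s ^ 2 * w ^ (2 * b) + 1) * w
        ≤ C * (1 / (s * w ^ q)) ^ 3 * (s * w ^ a) * (2 * (s ^ 2 * w ^ (2 * b))) * w := by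
          gcongr; linarith
      _ = 2 * C * (w ^ (a + 2 * b + 1) / w ^ (3 * q)) := by field_simp; ring
      _ ≤ 2 * C * 1 := by
          gcongr; rw [div_le_one (by positivity)]; exact pw h3
      _ = 2 * C := mul_one _
  unfold xerr
  rw [e1, add_div]
  push_cast
  have : (1 + 4 * C) / w = 1 / w + C / w + C / w + 2 * C / w := by ring
  linarith

end Pool.Agent.Lib.MP_abd955_pr
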