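import Pool.Agent.Lib.MP_abd955_pr.AsmB

/-! Numerical estimates for the assembly. -/

namespace Pool.Agent.Lib.MP_abd955_pr

open Finset Filter Topology

lemma exists_s0 {d : ℝ} (h0 : 0 < d) (h1 : d ≤ 1) :
    ∃ s : ℕ, 1 ≤ s ∧ 1 ≤ d * s ^ 2 ∧ d * s ^ 2 ≤ 4 := by
  obtain ⟨x, hx⟩ : ∃ x, x = 1 / √d := ⟨_, rfl⟩
  have a1 := Real.sqrt_pos.2 h0
  have a2 : 1 ≤ x := by rw [hx, one_le_div a1]; exact Real.sqrt_le_one.2 h1
  have a3 : d * x ^ 2 = 1 := by rw [hx, div_pow, Real.sq_sqrt h0.le]; field_simp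
  have a4 : x ≤ (⌈x⌉₊ : ℕ) := Nat.le_ceil _
  have a5 : ((⌈x⌉₊ : ℕ) : ℝ) < x + 1 := Nat.ceil_lt_add_one (by linarith)
  refine ⟨⌈x⌉₊, by exact_mod_cast a2.trans a4, ?_, ?_⟩
  · rw [← a3]; gcongr
  · calc d * ((⌈x⌉₊ : ℕ) : ℝ) ^ 2 ≤ d * (2 * x) ^ 2 := by gcongr; linarith
      _ = 4 := by linear_combination 4 * a3

lemma cov_err {s w : ℕ} (hs : 1 ≤ s) (hw : 1 ≤ w) (h : (s : ℝ) ^ 2 ≤ 4 * 2 ^ w) :
    (2 * ((s ^ 2 * w ^ 152 + 1 : ℕ) : ℝ) + 1) ^ 2 * (2 * (3 / 4) ^ (10 * w)) ≤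
      800 * (w ^ 304 / 4 ^ w) := by
  have s1 : (1 : ℝ) ≤ s := by exact_mod_cast hs
  have w1 : (1 : ℝ) ≤ w := by exact_mod_cast hw
  have a1 : (1 : ℝ) ≤ s ^ 2 * w ^ 152 :=
    one_le_mul_of_one_le_of_one_le (one_le_pow₀ s1) (one_le_pow₀ w1)
  have a2 : 2 * ((s ^ 2 * w ^ 152 + 1 : ℕ) : ℝ) + 1 ≤ 20 * 2 ^ w * w ^ 152 := by
    have := mul_le_mul_of_nonneg_right h (show (0 : ℝ) ≤ w ^ 152 by positivity)
    push_cast; linarith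
  have a3 : (3 / 4 : ℝ) ^ (10 * w) ≤ (1 / 16) ^ w := by
    rw [pow_mul]; exact pow_le_pow_left₀ (by positivity) (by norm_num) w
  have a4 : ((2 : ℝ) ^ w) ^ 2 * (1 / 16) ^ w = 1 / 4 ^ w := by
    rw [← pow_mul, mul_comm w 2, pow_mul, ← mul_pow, one_div (4 ^ w : ℝ), ← inv_pow]; norm_num
  calc _ ≤ (20 * 2 ^ w * w ^ 152 : ℝ) ^ 2 * (2 * (1 / 16) ^ w) := by gcongr
    _ = 800 * (w ^ 304 * (((2 : ℝ) ^ w) ^ 2 * (1 / 16) ^ w)) := by ring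
    _ = _ := by rw [a4, mul_one_div]

lemma trial_err {s w : ℕ} {d : ℝ} (hs : 1 ≤ s) (hw : 1 ≤ w) (h1 : d ≤ 1) (h2 : 1 ≤ d * s ^ 2) :
    ((w ^ 73 + 1 : ℕ) : ℝ) * ((1 - d / 32) ^ (s ^ 2 * w) +
      4 * ((s ^ 2 * w : ℕ) : ℝ) / ((s ^ 2 * w ^ 77 : ℕ) : ℝ)) ≤
      2 * (w ^ 73 * Real.exp (-(w / 32))) + 8 / w := by
  have s1 : (1 : ℝ) ≤ s := by exact_mod_cast hs
  have w1 : (1 : ℝ) ≤ w := by exact_mod_cast hw
  have a1 : (1 - d / 32) ^ (s ^ 2 * w) ≤ Real.exp (-(w / 32)) := by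
    refine (pow_le_pow_left₀ (by linarith) (Real.one_sub_le_exp_neg (d / 32)) _).trans ?_
    rw [← Real.exp_nat_mul]
    refine Real.exp_le_exp.2 ?_
    push_cast
    nlinarith
  have a2 : ((w ^ 73 + 1 : ℕ) : ℝ) ≤ 2 * w ^ 73 := by
    have := one_le_pow₀ (n := 73) w1
    push_cast; linarith
  have a3 : 4 * ((s ^ 2 * w : ℕ) : ℝ) / ((s ^ 2 * w ^ 77 : ℕ) : ℝ) = 4 / w ^ 76 := by
    push_cast; field_simp
  have a4 : 2 * (w : ℝ) ^ 73 * (4 / w ^ 76) ≤ 8 / w := by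
    rw [show 2 * (w : ℝ) ^ 73 * (4 / w ^ 76) = 8 / w ^ 3 by field_simp; norm_num]
    exact div_le_div_of_nonneg_left (by norm_num) (by linarith) (le_self_pow₀ w1 (by norm_num))
  have a5 : 0 ≤ (1 - d / 32) ^ (s ^ 2 * w) := pow_nonneg (by linarith) _
  rw [a3]
  calc _ ≤ 2 * (w : ℝ) ^ 73 * (Real.exp (-(w / 32)) + 4 / w ^ 76) := by gcongr
    _ ≤ _ := by linarith

lemma sph_err {C : ℝ} (hC : 0 ≤ C) {s w R : ℕ} (hs : 1 ≤ s) (hw : 64 * (C + 1) ^ 2 ≤ w)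
    (h : (s : ℝ) ^ 2 ≤ 4 * 2 ^ w) (hR : R + 2 ≤ s * w ^ 74) :
    C * √(((R + 2) ^ 2 * w ^ 2 : ℕ) : ℝ) * Real.exp (-(1 / (4 * (C + 1) * (R + 2))) ^ 2 *
      ((R + 2) ^ 2 * w ^ 2 : ℕ) + C * (1 / (4 * (C + 1) * (R + 2))) ^ 2 *
        √((1 / (4 * (C + 1) * (R + 2))) ^ 2) * (R + 2) * (((R + 2) ^ 2 * w ^ 2 : ℕ) + 1)) +
      C * (1 / (s * w ^ 80)) ^ 3 * (R + 2) * (((R + 2) ^ 2 * w ^ 2 : ℕ) + 1) ≤
      4 * C * (w ^ 75 * Real.exp (-w)) + 2 * C / w := by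
  have s1 : (1 : ℝ) ≤ s := by exact_mod_cast hs
  have w1 : (1 : ℝ) ≤ w := by nlinarith
  have r1 : (R : ℝ) + 2 ≤ s * w ^ 74 := by exact_mod_cast hR
  obtain ⟨T, hT⟩ : ∃ T : ℝ, T = R + 2 := ⟨_, rfl⟩
  have t1 : 1 ≤ T := by rw [hT]; have : (0 : ℝ) ≤ R := R.cast_nonneg; linarith
  have e0 : (((R + 2) ^ 2 * w ^ 2 : ℕ) : ℝ) = (T * w) ^ 2 := by rw [hT]; push_cast; ring
  rw [← hT] at r1
  rw [e0, ← hT]
  rw [Real.sqrt_sq (by positivity), Real.sqrt_sq (by positivity)]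
  have m1 : 1 ≤ (T * w) ^ 2 := one_le_pow₀ (one_le_mul_of_one_le_of_one_le t1 w1)
  refine add_le_add ?_ ?_
  · obtain ⟨m, hm⟩ : ∃ m, m = 1 / (4 * (C + 1) * T) := ⟨_, rfl⟩
    have m0 : 0 < m := by rw [hm]; positivity
    have m2 : C * m * T ≤ 1 / 4 := by
      rw [hm, show C * (1 / (4 * (C + 1) * T)) * T = C / (4 * (C + 1)) by field_simp,
        div_le_div_iff₀ (by positivity) (by norm_num)]
      linarith
    have m3 : 4 * w ≤ m ^ 2 * (T * w) ^ 2 := by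
      rw [hm, show (1 / (4 * (C + 1) * T)) ^ 2 * (T * w) ^ 2 = w * w / (16 * (C + 1) ^ 2) by
        field_simp; ring, le_div_iff₀ (by positivity)]
      nlinarith
    rw [← hm]
    have m4 : -m ^ 2 * (T * w) ^ 2 + C * m ^ 2 * m * T * ((T * w) ^ 2 + 1) ≤ -w + -w := by
      have b1 : C * m ^ 2 * m * T * ((T * w) ^ 2 + 1) = C * m * T * (m ^ 2 * ((T * w) ^ 2 + 1)) := by
        ring
      have b2 : m ^ 2 * ((T * w) ^ 2 + 1) ≤ m ^ 2 * (2 * (T * w) ^ 2) := by gcongr; linarith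
      have b3 := mul_le_mul m2 b2 (by positivity) (by norm_num)
      rw [b1]; linarith
    have m5 : (2 : ℝ) ^ w * Real.exp (-w) ≤ 1 := by
      have : (2 : ℝ) ^ w ≤ Real.exp w := by
        rw [← Real.exp_one_pow]
        exact pow_le_pow_left₀ (by norm_num) (by linarith [Real.add_one_le_exp (1 : ℝ)]) w
      calc _ ≤ Real.exp w * Real.exp (-w) := by gcongr
        _ = 1 := by rw [← Real.exp_add]; simp
    have m6 : T ≤ 4 * 2 ^ w * w ^ 74 := r1.trans (by gcongr; nlinarith)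
    calc _ ≤ C * (4 * 2 ^ w * w ^ 74 * w) * Real.exp (-w + -w) := by gcongr
      _ = 4 * C * (w ^ 75 * Real.exp (-w)) * (2 ^ w * Real.exp (-w)) := by
        rw [Real.exp_add]; ring
      _ ≤ 4 * C * (w ^ 75 * Real.exp (-w)) * 1 := by gcongr
      _ = _ := mul_one _
  · rw [le_div_iff₀ (by positivity)]
    calc C * (1 / (s * w ^ 80)) ^ 3 * T * ((T * w) ^ 2 + 1) * w
        ≤ C * (1 / (s * w ^ 80)) ^ 3 * (s * w ^ 74) * (2 * (s * w ^ 74 * w) ^ 2) * w := by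
          gcongr
          have : (T * w) ^ 2 ≤ (s * w ^ 74 * w) ^ 2 := by gcongr
          linarith
      _ = 2 * C * (1 / w ^ 15) := by field_simp
      _ ≤ 2 * C * 1 := by
          gcongr; rw [div_le_one (by positivity)]; exact one_le_pow₀ w1
      _ = 2 * C := mul_one _

lemma ev_small (C Cs : ℝ) (C0 : ℕ) {δ : ℝ} (hδ : 0 < δ) : ∃ w0 : ℕ, ∀ w ≥ w0,
    10 * C0 + 5 ≤ w ∧ 64 * (Cs + 1) ^ 2 ≤ (w : ℝ) ∧ (1 + 4 * C) / w ≤ δ ∧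
    800 * ((w : ℝ) ^ 304 / 4 ^ w) ≤ δ ∧ 2 * (w ^ 73 * Real.exp (-(w / 32))) + 8 / w ≤ δ ∧
    4 * Cs * (w ^ 75 * Real.exp (-w)) + 2 * Cs / w ≤ δ := by
  have t0 : Tendsto (fun w : ℕ => (w : ℝ)) atTop atTop := tendsto_natCast_atTop_atTop
  have t1 : ∀ c : ℝ, Tendsto (fun w : ℕ => c / (w : ℝ)) atTop (𝓝 0) :=
    tendsto_const_div_atTop_nhds_zero_nat
  have t2 := (tendsto_pow_const_div_const_pow_of_one_lt 304 (show (1 : ℝ) < 4 by norm_num)).const_mul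
    800
  have t3 : Tendsto (fun w : ℕ => 2 * ((w : ℝ) ^ 73 * Real.exp (-(w / 32))) + 8 / w) atTop (𝓝 0) := by
    have := ((((Real.tendsto_pow_mul_exp_neg_atTop_nhds_zero 73).comp
      (t0.atTop_div_const (show (0 : ℝ) < 32 by norm_num))).const_mul (2 * 32 ^ 73)).add (t1 8))
    rw [mul_zero, add_zero] at this
    refine this.congr fun w => ?_
    simp only [Function.comp]
    field_simp
  have t4 := (((Real.tendsto_pow_mul_exp_neg_atTop_nhds_zero 75).comp t0).const_mul (4 * Cs)).add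
    (t1 (2 * Cs))
  rw [mul_zero] at t2
  rw [mul_zero, add_zero] at t4
  refine eventually_atTop.1 ?_
  filter_upwards [eventually_ge_atTop (10 * C0 + 5), t0.eventually_ge_atTop (64 * (Cs + 1) ^ 2),
    (t1 (1 + 4 * C)).eventually_le_const hδ, t2.eventually_le_const hδ, t3.eventually_le_const hδ,
    t4.eventually_le_const hδ] with w h1 h2 h3 h4 h5 h6
  exact ⟨h1, h2, h3, h4, h5, h6⟩

lemma pw_step {s w c e e' : ℕ} (hc : c ≤ w) (hw : 1 ≤ w) (he : e < e') :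
    c * (s * w ^ e) ≤ s * w ^ e' := by
  calc c * (s * w ^ e) ≤ w * (s * w ^ e) := Nat.mul_le_mul_right _ hc
    _ = s * w ^ (e + 1) := by ring
    _ ≤ s * w ^ e' := Nat.mul_le_mul_left _ (Nat.pow_le_pow_right hw he)

lemma pw_ge {s w e : ℕ} (hs : 1 ≤ s) (hw : 1 ≤ w) (he : 1 ≤ e) : w ≤ s * w ^ e := by
  have := pw_step (s := s) (c := 1) (e := 0) (e' := 1) hw hw (by norm_num)
  calc w = 1 * w ^ 1 := by ring
    _ ≤ s * w ^ e := Nat.mul_le_mul hs (Nat.pow_le_pow_right hw he)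

lemma rad_le {s w C0 : ℕ} (hs : 1 ≤ s) (hw : 10 * C0 + 5 ≤ w) (b : ℕ) :
    C0 * (s * w ^ b) * (10 * w) + 5 * w ≤ s * w ^ (b + 2) := by
  have h1 := pw_step (s := s) hw (by omega) (show b + 1 < b + 2 by omega)
  have h2 := pw_ge hs (show 1 ≤ w by omega) (show 1 ≤ b + 1 by omega)
  have h3 : C0 * (s * w ^ b) * (10 * w) = 10 * C0 * (s * w ^ (b + 1)) := by ring
  rw [h3]
  rw [add_mul] at h1
  omega

lemma empty_ok : FamOk (fun _ => ∅) 0 := ⟨fun _ => empty_subset _, fun _ _ => rfl, by simp⟩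

lemma empty_del : del (fun _ => ∅) 0 = 0 := by simp [del, phi]

end Pool.Agent.Lib.MP_abd955_pr
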