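import Pool.Agent.Lib.MP_abd955_pr.StepA

namespace Pool.Agent.Lib.MP_abd955_pr

open Enum PowerSeries Finset Filter Topology Step

lemma nl_add_fin (l : ℕ) (t : Step) (h : t.sL + t.sR < l) : nl l t + t.fin.sum = l + 2 := by
  have h1 := fin_sum_add t
  have h2 := one_le_nw t
  unfold nl; omega

lemma Zm_odd (ls : List ℕ) (h : ¬ Even ls.sum) : Zm ls = 0 := by
  induction ls with
  | nil => simp at h
  | cons a ls ih =>
    rw [Zm_cons]
    by_cases ha : Even a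
    · rw [ih fun h2 => h (by rw [List.sum_cons]; exact ha.add h2), mul_zero]
    · rw [Zl_odd ha, zero_mul]

lemma ev_shift {P : ℕ → Prop} (h : ∀ᶠ m in atTop, P m) (j : ℕ) :
    ∀ᶠ n : ℕ in atTop, ∀ m : ℕ, n ≤ m + j → P m := by
  obtain ⟨a, ha⟩ := eventually_atTop.1 h
  filter_upwards [eventually_ge_atTop (a + j)] with n hn m hm
  exact ha m (by omega)

lemma limS0 (t : Step) (v l : ℕ) (h : Even l) (h2 : 2 ≤ l) (ε : ℝ) (hε : 0 < ε) :
    ∀ᶠ m : ℕ in atTop,
      |(if t.sL + t.sR < l then coeff v (Zm t.fin) * coeff (m - 1 - v) (Zl (nl l t)) else 0)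
        - wv t v * hl (nl l t) / hl l * coeff m (Zl l)| ≤ ε * coeff m (Zl l) := by
  have triv : ∀ m, (0 : ℝ) ≤ ε * coeff m (Zl l) := fun m => mul_nonneg hε.le (coeff_Zl_nonneg _ _)
  by_cases hs : t.sL + t.sR < l
  swap
  · refine Eventually.of_forall fun m => ?_
    rw [if_neg hs, hl_nl_zero l (by omega) t (by omega)]
    simpa using triv m
  by_cases he : Even (nl l t)
  swap
  · refine Eventually.of_forall fun m => ?_
    rw [if_pos hs, hl_odd he, Zl_odd he]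
    simpa using triv m
  obtain ⟨P, rfl⟩ := h.two_dvd
  obtain ⟨r, hr⟩ := he.two_dvd
  have h3 := nl_add_fin _ t hs
  obtain ⟨s, hs2⟩ : ∃ s, t.fin.sum / 2 = s := ⟨_, rfl⟩
  have h4 : r + s = P + 1 := by omega
  have hP : 1 ≤ P := by omega
  have h5 := (tendsto_q_ratio_sub (1 + v) P r hP).const_mul (coeff v (Zm t.fin))
  have h6 := (h_pos' hP).ne'
  have e : coeff v (Zm t.fin) * ((1 / 12) ^ (1 + v) * ((9 / 2) ^ r * Enum.h r) / ((9 / 2) ^ P * Enum.h P))
      = wv t v * Enum.h r / Enum.h P := by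
    have e1 : (9 / 2 : ℝ) ^ r = (9 / 2) ^ P * (9 / 2) * (2 / 9) ^ s := by
      rw [← pow_succ, ← h4, pow_add, mul_assoc, ← mul_pow]; norm_num
    rw [wv, hs2, e1, pow_add]
    generalize (1 / 12 : ℝ) ^ v = x
    generalize (2 / 9 : ℝ) ^ s = y
    field_simp
    ring
  rw [e] at h5
  filter_upwards [Metric.tendsto_nhds.1 h5 ε hε, eventually_ge_atTop P] with m hm hmP
  have h7 : 0 < q m P := by
    obtain ⟨j, rfl⟩ := Nat.exists_eq_add_of_le' hP
    exact q_pos m j (by omega)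
  rw [if_pos hs, hr, coeff_Zl_two_mul, coeff_Zl_two_mul, hl_two_mul, hl_two_mul, Nat.sub_sub]
  rw [Real.dist_eq] at hm
  have e2 : coeff v (Zm t.fin) * q (m - (1 + v)) r - wv t v * Enum.h r / Enum.h P * q m P =
      (coeff v (Zm t.fin) * (q (m - (1 + v)) r / q m P) - wv t v * Enum.h r / Enum.h P) * q m P := by
    field_simp
  rw [e2, abs_mul, abs_of_pos h7]
  exact mul_le_mul_of_nonneg_right hm.le h7.le

theorem limS (t : Step) (v j l : ℕ) (h : Even l) (h2 : 2 ≤ l) (ε : ℝ) (hε : 0 < ε) :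
    ∀ᶠ n : ℕ in atTop, ∀ m : ℕ, n ≤ m + j →
      |(if t.sL + t.sR < l then coeff v (Zm t.fin) * coeff (m - 1 - v) (Zl (nl l t)) else 0)
        - wv t v * hl (nl l t) / hl l * coeff m (Zl l)| ≤ ε * coeff m (Zl l) :=
  ev_shift (limS0 t v l h h2 ε hε) j

lemma wv_odd (t : Step) (v : ℕ) (h : ¬ Even t.fin.sum) : wv t v = 0 := by
  simp [wv, Zm_odd _ h]

lemma ev_ratio (t : Step) (v : ℕ) (ε : ℝ) (hε : 0 < ε) : ∀ᶠ l : ℕ in atTop, Even l →
    |wv t v * hl (nl l t) / hl l - wv t v| ≤ ε := by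
  by_cases he : Even t.fin.sum
  swap
  · refine Eventually.of_forall fun l _ => ?_
    simpa [wv_odd t v he] using hε.le
  obtain ⟨s, hs⟩ := he.two_dvd
  have h1 := (tendsto_h_sub 1 s).const_mul (wv t v)
  rw [mul_one] at h1
  obtain ⟨a, ha⟩ := eventually_atTop.1 (Metric.tendsto_nhds.1 h1 ε hε)
  filter_upwards [eventually_ge_atTop (2 * a), eventually_gt_atTop (t.sL + t.sR)] with l h2 h3 hl
  obtain ⟨P, rfl⟩ := hl.two_dvd
  have h4 := nl_add_fin _ t h3
  have h5 := ha P (by omega)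
  rw [Real.dist_eq] at h5
  rw [show nl (2 * P) t = 2 * (P + 1 - s) by omega, hl_two_mul, hl_two_mul, mul_div_assoc]
  exact h5.le

lemma limH0 (t : Step) (v : ℕ) (ε : ℝ) (hε : 0 < ε) : ∀ᶠ l : ℕ in atTop, ∀ᶠ m : ℕ in atTop,
      |coeff v (Zm t.fin) * coeff (m - 1 - v) (Zl (nl l t)) - wv t v * coeff m (Zl l)|
        ≤ ε * coeff m (Zl l) := by
  filter_upwards [ev_ratio t v (ε / 2) (half_pos hε), eventually_gt_atTop (t.sL + t.sR),
    eventually_ge_atTop 2] with l h1 h2 h3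
  by_cases he : Even l
  · filter_upwards [limS0 t v l he h3 (ε / 2) (half_pos hε)] with m hm
    rw [if_pos h2] at hm
    have h4 := coeff_Zl_nonneg l m
    have h5 := mul_le_mul_of_nonneg_right (h1 he) h4
    rw [← abs_of_nonneg h4, ← abs_mul, abs_of_nonneg h4, sub_mul] at h5
    have h6 := abs_sub_le (coeff v (Zm t.fin) * coeff (m - 1 - v) (Zl (nl l t)))
      (wv t v * hl (nl l t) / hl l * coeff m (Zl l)) (wv t v * coeff m (Zl l))
    linarith
  · refine Eventually.of_forall fun m => ?_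
    have h4 := nl_add_fin l t h2
    rw [Zl_odd he]
    by_cases h5 : Even t.fin.sum
    · rw [Zl_odd (l := nl l t) (by rw [Nat.even_iff] at *; omega)]; simp
    · rw [Zm_odd _ h5]; simp

theorem limH (t : Step) (v j : ℕ) (ε : ℝ) (hε : 0 < ε) :
    ∀ᶠ p : ℕ in atTop, ∀ᶠ n : ℕ in atTop, ∀ m l : ℕ, n ≤ m + j → p ≤ l + j → l ≤ 2 * p + j →
      |coeff v (Zm t.fin) * coeff (m - 1 - v) (Zl (nl l t)) - wv t v * coeff m (Zl l)|
        ≤ ε * coeff m (Zl l) := by
  filter_upwards [ev_shift (limH0 t v ε hε) j] with p hp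
  have h1 : ∀ l ∈ (range (2 * p + j + 1)).filter (fun l => p ≤ l + j), ∀ᶠ n : ℕ in atTop,
      ∀ m : ℕ, n ≤ m + j →
      |coeff v (Zm t.fin) * coeff (m - 1 - v) (Zl (nl l t)) - wv t v * coeff m (Zl l)|
        ≤ ε * coeff m (Zl l) := fun l hl => ev_shift (hp l (mem_filter.1 hl).2) j
  filter_upwards [(eventually_all_finset _).2 h1] with n hn m l h2 h3 h4
  exact hn l (mem_filter.2 ⟨mem_range.2 (by omega), h3⟩) m h2

lemma limA0 (v l : ℕ) :
    ∀ᶠ m : ℕ in atTop, coeff (m - v) (Zl l) ≤ 2 * (1 / 12) ^ v * coeff m (Zl l) := by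
  rcases Nat.even_or_odd' l with ⟨p, rfl | rfl⟩
  swap
  · refine Eventually.of_forall fun m => ?_
    rw [Zl_odd (by simp)]; simp
  rcases Nat.eq_zero_or_pos p with rfl | hp
  · refine Eventually.of_forall fun m => ?_
    simp [Zl_zero]
  have h1 := tendsto_q_ratio_sub v p p hp
  have h2 := (h_pos' hp).ne'
  rw [mul_div_assoc, div_self (by positivity), mul_one] at h1
  have h3 : (1 / 12 : ℝ) ^ v < 2 * (1 / 12) ^ v := by
    have : (0 : ℝ) < (1 / 12) ^ v := by positivity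
    linarith
  filter_upwards [h1.eventually_lt_const h3, eventually_ge_atTop p] with m hm hmp
  have h7 : 0 < q m p := by
    obtain ⟨j, rfl⟩ := Nat.exists_eq_add_of_le' hp
    exact q_pos m j (by omega)
  rw [coeff_Zl_two_mul, coeff_Zl_two_mul]
  exact ((div_lt_iff₀ h7).1 hm).le

theorem limA (V j L : ℕ) :
    ∀ᶠ n : ℕ in atTop, ∀ m l v : ℕ, n ≤ m + j → l ≤ L → v ≤ V →
      coeff (m - v) (Zl l) ≤ 2 * (1 / 12) ^ v * coeff m (Zl l) := by
  have h1 : ∀ x ∈ range (L + 1) ×ˢ range (V + 1), ∀ᶠ n : ℕ in atTop, ∀ m : ℕ, n ≤ m + j →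
      coeff (m - x.2) (Zl x.1) ≤ 2 * (1 / 12) ^ x.2 * coeff m (Zl x.1) :=
    fun x _ => ev_shift (limA0 x.2 x.1) j
  filter_upwards [(eventually_all_finset _).2 h1] with n hn m l v h2 h3 h4
  exact hn (l, v) (mem_product.2 ⟨mem_range.2 (by omega), mem_range.2 (by omega)⟩) m h2

end Pool.Agent.Lib.MP_abd955_pr
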