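import Pool.Agent.Lib.MP_abd955_pr.Link
import Pool.Agent.Lib.MP_abd955_pr.StepB

/-! Exploration states, their children, and the splitting of sums along a peeling step. -/

namespace Pool.Agent.Lib.MP_abd955_pr

open Equiv Equiv.Perm Finset PowerSeries Step Filter Topology

set_option linter.unusedSectionVars false

variable {D : Type} [DecidableEq D] [Fintype D]

/-- a set of explored parts and two unexplored configurations -/
structure St (D : Type) where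
  A : Finset (Perm D)
  K : Bool → Cfg D

structure St.WF (S : St D) : Prop where
  wf : ∀ b, MP_abd955_pr.WF (S.K b)
  dis : ∀ b, ∀ u ∈ (S.K b).U, u ∉ (S.K (!b)).U
  fix : ∀ c ∈ S.A, ∀ b, ∀ u ∈ (S.K b).U, c u = u

noncomputable def St.sum (S : St D) (Φ : Perm D → ℝ) : ℝ :=
  ∑ c ∈ S.A, ∑ a ∈ VS (S.K true), ∑ a' ∈ VS (S.K false), Φ (c * (a * a'))

def St.Ok (S : St D) (g : Perm D) : Prop :=
  ∃ c ∈ S.A, ∃ a ∈ VS (S.K true), ∃ a' ∈ VS (S.K false), g = c * (a * a')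

open Classical in
noncomputable def St.cnt (S : St D) (E : Perm D → Prop) : ℝ := S.sum fun a => if E a then 1 else 0

noncomputable def St.tot (S : St D) : ℝ := S.sum fun _ => 1

lemma VS_comm {K K' : Cfg D} (h : ∀ u ∈ K.U, u ∉ K'.U) {a a' : Perm D} (ha : a ∈ VS K)
    (ha' : a' ∈ VS K') : a * a' = a' * a :=
  (show Perm.Disjoint a a' from fun u => by
    by_cases e : u ∈ K.U
    exacts [Or.inr ((mem_VS.1 ha').2 u (h u e)), Or.inl ((mem_VS.1 ha).2 u e)]).commute.eq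

namespace St
variable {S : St D}

lemma sum_b (h : S.WF) (b : Bool) (Φ : Perm D → ℝ) : S.sum Φ =
    ∑ c ∈ S.A, ∑ a' ∈ VS (S.K (!b)), ∑ a ∈ VS (S.K b), Φ (c * (a * a')) := by
  cases b
  · exact sum_congr rfl fun c _ => sum_congr rfl fun a ha => sum_congr rfl fun a' ha' => by
      rw [VS_comm (h.dis true) ha ha']
  · exact sum_congr rfl fun c _ => sum_comm

lemma ok_b (h : S.WF) (b : Bool) {g : Perm D} : S.Ok g ↔
    ∃ c ∈ S.A, ∃ a ∈ VS (S.K b), ∃ a' ∈ VS (S.K (!b)), g = c * (a * a') := by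
  cases b
  · constructor <;> rintro ⟨c, hc, a, ha, a', ha', rfl⟩
    exacts [⟨c, hc, a', ha', a, ha, by rw [VS_comm (h.dis true) ha ha']⟩,
      ⟨c, hc, a', ha', a, ha, by rw [VS_comm (h.dis false) ha ha']⟩]
  · rfl

lemma WF.on (h : S.WF) {b : Bool} {c a a' : Perm D} (hc : c ∈ S.A) (ha : a ∈ VS (S.K b))
    (ha' : a' ∈ VS (S.K (!b))) {u : D} (hu : u ∈ (S.K b).U) : (c * (a * a')) u = a u := by
  rw [mul_apply, mul_apply, (mem_VS.1 ha').2 u (h.dis b u hu),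
    h.fix c hc b _ ((mem_VS.1 ha).1.aU u hu)]

lemma off {b : Bool} {c a a' : Perm D} (ha : a ∈ VS (S.K b)) (ha' : a' ∈ VS (S.K (!b))) {u : D}
    (hu : u ∉ (S.K b).U) (hu' : u ∉ (S.K (!b)).U) : (c * (a * a')) u = c u := by
  rw [mul_apply, mul_apply, (mem_VS.1 ha').2 u hu', (mem_VS.1 ha).2 u hu]

lemma Ok.pre (h : S.WF) {g : Perm D} (hg : S.Ok g) (b : Bool) : Pre (S.K b) (S.K b).X g := by
  obtain ⟨c, hc, a, ha, a', ha', rfl⟩ := (ok_b h b).1 hg
  exact (mem_VS.1 ha).1.congr (h.wf b) (h.wf b).sub fun u hu => h.on hc ha ha' hu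

lemma Ok.mem_iff (h : S.WF) {g : Perm D} (hg : S.Ok g) (b : Bool) (u : D) :
    u ∈ (S.K b).U ↔ g u ∈ (S.K b).U := mem_iff_of_maps (hg.pre h b).aU u

lemma sum_le {Φ Ψ : Perm D → ℝ} (h : ∀ g, S.Ok g → Φ g ≤ Ψ g) : S.sum Φ ≤ S.sum Ψ :=
  sum_le_sum fun c hc => sum_le_sum fun a ha => sum_le_sum fun a' ha' =>
    h _ ⟨c, hc, a, ha, a', ha', rfl⟩

lemma sum_add (Φ Ψ : Perm D → ℝ) : S.sum (fun g => Φ g + Ψ g) = S.sum Φ + S.sum Ψ := by
  simp only [St.sum, sum_add_distrib]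

lemma sum_nonneg {Φ : Perm D → ℝ} (h : ∀ g, 0 ≤ Φ g) : 0 ≤ S.sum Φ :=
  Finset.sum_nonneg fun _ _ => Finset.sum_nonneg fun _ _ => Finset.sum_nonneg fun _ _ => h _

lemma tot_eq : S.tot = S.A.card * ((VS (S.K true)).card * (VS (S.K false)).card) := by
  simp [St.tot, St.sum]

lemma tot_b (b : Bool) : S.tot = S.A.card * ((VS (S.K (!b))).card * (VS (S.K b)).card) := by
  cases b <;> simp [tot_eq, mul_comm]

lemma tot_nonneg : 0 ≤ S.tot := sum_nonneg fun _ => zero_le_one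

lemma cnt_nonneg (E : Perm D → Prop) : 0 ≤ S.cnt E := sum_nonneg fun _ => by positivity

lemma cnt_le_tot (E : Perm D → Prop) : S.cnt E ≤ S.tot :=
  sum_le fun _ _ => by split_ifs <;> norm_num

lemma cnt_union {E E1 E2 : Perm D → Prop} (h : ∀ g, S.Ok g → E g → E1 g ∨ E2 g) :
    S.cnt E ≤ S.cnt E1 + S.cnt E2 := by
  rw [St.cnt, St.cnt, St.cnt, ← sum_add]
  refine sum_le fun g hg => ?_
  have := h g hg
  split_ifs <;> first | tauto | norm_num

lemma cnt_mono {E E' : Perm D → Prop} (h : ∀ g, S.Ok g → E g → E' g) : S.cnt E ≤ S.cnt E' :=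
  sum_le fun g hg => by
    have := h g hg
    split_ifs <;> first | tauto | norm_num

lemma cnt_zero {E : Perm D → Prop} (h : ∀ g, S.Ok g → ¬E g) : S.cnt E = 0 :=
  sum_eq_zero fun c hc => sum_eq_zero fun a ha => sum_eq_zero fun a' ha' =>
    if_neg (h _ ⟨c, hc, a, ha, a', ha', rfl⟩)

lemma cnt_not (E : Perm D → Prop) : S.cnt E + S.cnt (fun g => ¬E g) = S.tot := by
  rw [St.cnt, St.cnt, ← sum_add]
  exact congrArg S.sum (funext fun g => by by_cases e : E g <;> simp [e])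

open Classical in
/-- restrict the explored parts -/
noncomputable def filt (S : St D) (Q : Perm D → Prop) : St D := ⟨S.A.filter Q, S.K⟩

lemma WF.filt (h : S.WF) (Q : Perm D → Prop) : (S.filt Q).WF :=
  ⟨h.wf, h.dis, fun c hc => h.fix c (by classical exact (mem_filter.1 hc).1)⟩

lemma ok_filt {Q : Perm D → Prop} {g : Perm D} : (S.filt Q).Ok g ↔ ∃ c ∈ S.A, Q c ∧
    ∃ a ∈ VS (S.K true), ∃ a' ∈ VS (S.K false), g = c * (a * a') := by
  simp [St.Ok, St.filt, and_assoc]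

lemma Ok.of_filt {Q : Perm D → Prop} {g : Perm D} (h : (S.filt Q).Ok g) : S.Ok g := by
  obtain ⟨c, hc, -, h⟩ := ok_filt.1 h
  exact ⟨c, hc, h⟩

lemma sum_filt (Q : Perm D → Prop) (Φ : Perm D → ℝ) :
    (S.filt Q).sum Φ + (S.filt fun c => ¬Q c).sum Φ = S.sum Φ := by
  classical
  simp only [St.sum, St.filt]
  convert sum_filter_add_sum_filter_not S.A Q _

/-- the state after a step -/
noncomputable def ch (S : St D) (b : Bool) (x s : D) (rest : List D) (t : Step) (W : Finset D) :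
    St D :=
  ⟨(S.A ×ˢ VS (((S.K b).aft x s rest t).res W)).image fun y => y.1 * (swap x s * y.2),
    Function.update S.K b ((S.K b).main x s rest t W)⟩

@[simp] lemma ch_same (b x s rest t W) : (S.ch b x s rest t W).K b = (S.K b).main x s rest t W :=
  Function.update_self ..

lemma ch_ne {b b' : Bool} (h : b' ≠ b) (x s rest t W) : (S.ch b x s rest t W).K b' = S.K b' :=
  Function.update_of_ne h ..

@[simp] lemma ch_not (b x s rest t W) : (S.ch b x s rest t W).K (!b) = S.K (!b) :=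
  ch_ne (by simp) ..

end St

/-- the data of an admissible step -/
structure Kid (S : St D) (b : Bool) (x : D) (rest : List D) (t : Step) (v : ℕ) (s : D)
    (W : Finset D) : Prop where
  wf : S.WF
  hl : Holes (S.K b) [x :: rest]
  ne : rest ≠ []
  fit : t.sL + t.sR ≤ rest.length
  hs : s ∈ (S.K b).U \ (S.K b).X
  hW : W ∈ Sup (S.K b) x s rest t v

namespace Kid
variable {S : St D} {b : Bool} {x s : D} {rest : List D} {t : Step} {v : ℕ} {W : Finset D}
  (k : Kid S b x rest t v s W)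
include k

lemma ok : PeelOk (S.K b) x s := k.hl.ok (k.wf.wf b) k.ne k.hs

lemma spec : WF (((S.K b).aft x s rest t).res W) ∧ WF ((S.K b).main x s rest t W) ∧
    Holes (((S.K b).aft x s rest t).res W) (finL (S.K b) s rest t) ∧
    Holes ((S.K b).main x s rest t W) [mainL (S.K b) s rest t] ∧
    (((S.K b).aft x s rest t).res W).m = v ∧ ((S.K b).main x s rest t W).m + v + 1 = (S.K b).m :=
  child_spec k.ok k.hl k.fit k.hW

lemma aftU {u : D} : u ∈ ((S.K b).aft x s rest t).U ↔ u ≠ s ∧ u ≠ x ∧ u ∈ (S.K b).U := by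
  rw [Cfg.aft, raw_U, k.ok.memU]

lemma aftX {u : D} : u ∈ ((S.K b).aft x s rest t).X ↔ u = (S.K b).f ((S.K b).f ((S.K b).f s)) ∨
    u = (S.K b).f ((S.K b).f s) ∨ u = (S.K b).f s ∨ u ≠ x ∧ u ∈ (S.K b).X := by
  rw [Cfg.aft, raw_X, k.ok.memX]

lemma subW : W ⊆ ((S.K b).aft x s rest t).U := by
  classical exact mem_powerset.1 (mem_filter.1 k.hW).1

lemma mainU {u : D} : u ∈ ((S.K b).main x s rest t W).U ↔
    (u ≠ s ∧ u ≠ x ∧ u ∈ (S.K b).U) ∧ u ∉ W := by
  rw [← k.aftU]; exact mem_sdiff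

lemma xU : x ∈ (S.K b).U := k.ok.wf.sub k.ok.hx

/-- inner darts of the configuration after the step -/
lemma aft_inner {u : D} (hu : u ∈ ((S.K b).aft x s rest t).U) (hu' : u ∉ ((S.K b).aft x s rest t).X) :
    u ∈ (S.K b).U \ (S.K b).X ∧ ((S.K b).aft x s rest t).f u = (S.K b).f u := by
  rw [Cfg.aft, raw_U] at hu
  rw [Cfg.aft, raw_X] at hu'
  exact ⟨mem_sdiff.2 ⟨(k.ok.memU.1 hu).2.2, (k.ok.g_inner hu hu').2.1⟩,
    (aft_spec k.ok k.hl k.fit).2.2 u hu hu'⟩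

lemma main_inner {u : D}
    (hu : u ∈ ((S.K b).main x s rest t W).U \ ((S.K b).main x s rest t W).X) :
    u ∈ (S.K b).U \ (S.K b).X ∧ ((S.K b).main x s rest t W).f u = (S.K b).f u := by
  obtain ⟨h1, h2⟩ := mem_sdiff.1 hu
  exact k.aft_inner (mem_sdiff.1 h1).1 fun e => h2 (mem_inter.2 ⟨e, h1⟩)

lemma inner {b' : Bool} {u : D}
    (hu : u ∈ ((S.ch b x s rest t W).K b').U \ ((S.ch b x s rest t W).K b').X) :
    u ∈ (S.K b').U \ (S.K b').X ∧ ((S.ch b x s rest t W).K b').f u = (S.K b').f u := by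
  by_cases e : b' = b
  · subst e; rw [St.ch_same] at hu ⊢; exact k.main_inner hu
  · rw [St.ch_ne e] at hu ⊢; exact ⟨hu, rfl⟩

lemma subU {b' : Bool} : ((S.ch b x s rest t W).K b').U ⊆ (S.K b').U := by
  by_cases e : b' = b
  · subst e; rw [St.ch_same]; exact fun u hu => (k.mainU.1 hu).1.2.2
  · rw [St.ch_ne e]

/-- the newly explored part of the gluing -/
lemma new {a1 : Perm D} (h1 : a1 ∈ VS (((S.K b).aft x s rest t).res W)) :
    (swap x s * a1) x = s ∧ (swap x s * a1) s = x ∧ (∀ u ∈ W, (swap x s * a1) u = a1 u ∧ a1 u ∈ W) ∧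
      (∀ u, u ≠ x → u ≠ s → u ∉ W → (swap x s * a1) u = u) ∧
      ∀ u ∈ (S.K b).U, (swap x s * a1) u ∈ (S.K b).U := by
  obtain ⟨p, h⟩ := mem_VS.1 h1
  have hx : x ∉ W := fun e => (k.aftU.1 (k.subW e)).2.1 rfl
  have hs : s ∉ W := fun e => (k.aftU.1 (k.subW e)).1 rfl
  refine ⟨by simp [h x hx], by simp [h s hs], fun u hu => ⟨?_, p.aU u hu⟩, fun u a b c => ?_,
    fun u hu => swap_mem k.xU k.ok.hs ?_⟩
  · have := k.aftU.1 (k.subW (p.aU u hu))
    exact swap_apply_of_ne_of_ne this.2.1 this.1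
  · rw [mul_apply, h u c, swap_apply_of_ne_of_ne a b]
  · by_cases e : u ∈ W
    · exact (k.aftU.1 (k.subW (p.aU u e))).2.2
    · rwa [h u e]

lemma new_off {a1 : Perm D} (h1 : a1 ∈ VS (((S.K b).aft x s rest t).res W)) {u : D}
    (hu : u ∉ (S.K b).U) : (swap x s * a1) u = u :=
  (k.new h1).2.2.2.1 u (fun e => hu (e ▸ k.xU)) (fun e => hu (e ▸ k.ok.hs))
    fun e => hu (k.aftU.1 (k.subW e)).2.2

lemma memA {c' : Perm D} : c' ∈ (S.ch b x s rest t W).A ↔ ∃ c ∈ S.A,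
    ∃ a1 ∈ VS (((S.K b).aft x s rest t).res W), c' = c * (swap x s * a1) := by
  simp only [St.ch, mem_image, mem_product, Prod.exists]
  exact ⟨fun ⟨c, a, ⟨h1, h2⟩, e⟩ => ⟨c, h1, a, h2, e.symm⟩,
    fun ⟨c, h1, a, h2, e⟩ => ⟨c, a, ⟨h1, h2⟩, e.symm⟩⟩

lemma sumA (Ψ : Perm D → ℝ) : ∑ c' ∈ (S.ch b x s rest t W).A, Ψ c' =
    ∑ c ∈ S.A, ∑ a1 ∈ VS (((S.K b).aft x s rest t).res W), Ψ (c * (swap x s * a1)) := by
  rw [St.ch, sum_image, sum_product]
  rintro ⟨c, a⟩ h ⟨c', a'⟩ h' e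
  obtain ⟨h1, h2⟩ := mem_product.1 h
  obtain ⟨h3, h4⟩ := mem_product.1 h'
  have e1 : swap x s * a = swap x s * a' := Equiv.ext fun u => by
    by_cases hu : u ∈ (S.K b).U
    · have := Equiv.congr_fun e u
      rwa [mul_apply, mul_apply c', k.wf.fix c h1 b _ ((k.new h2).2.2.2.2 u hu),
        k.wf.fix c' h3 b _ ((k.new h4).2.2.2.2 u hu)] at this
    · rw [k.new_off h2 hu, k.new_off h4 hu]
  dsimp only at e
  rw [e1] at e
  rw [mul_right_cancel e, mul_left_cancel e1]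

lemma wf' : (S.ch b x s rest t W).WF := by
  refine ⟨fun b' => ?_, fun b' u hu e => k.wf.dis b' u (k.subU hu) (k.subU e), fun c' hc' b' u hu => ?_⟩
  · by_cases e : b' = b
    · subst e; rw [St.ch_same]; exact k.spec.2.1
    · rw [St.ch_ne e]; exact k.wf.wf b'
  · obtain ⟨c, hc, a1, h1, rfl⟩ := k.memA.1 hc'
    rw [mul_apply, show (swap x s * a1) u = u from ?_, k.wf.fix c hc b' u (k.subU hu)]
    by_cases e : b' = b
    · subst e
      rw [St.ch_same, k.mainU] at hu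
      exact (k.new h1).2.2.2.1 u hu.1.2.1 hu.1.1 hu.2
    · refine k.new_off h1 fun h => k.wf.dis b u h ?_
      rw [show (!b) = b' by cases b <;> cases b' <;> simp_all]
      exact k.subU hu

lemma sum_ch (Φ : Perm D → ℝ) : (S.ch b x s rest t W).sum Φ =
    ∑ c ∈ S.A, ∑ a' ∈ VS (S.K (!b)), ∑ a1 ∈ VS (((S.K b).aft x s rest t).res W),
      ∑ a2 ∈ VS ((S.K b).main x s rest t W), Φ (c * (swap x s * (a1 * a2) * a')) := by
  rw [St.sum_b k.wf' b, k.sumA, St.ch_same, St.ch_not]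
  exact sum_congr rfl fun c _ => sum_comm.trans (by simp only [mul_assoc])

lemma mem_VS_of {a1 a2 : Perm D} (h1 : a1 ∈ VS (((S.K b).aft x s rest t).res W))
    (h2 : a2 ∈ VS ((S.K b).main x s rest t W)) : swap x s * (a1 * a2) ∈ VS (S.K b) := by
  have m := mul_mem_VS (aft_spec k.ok k.hl k.fit).1 k.hW h1 h2
  obtain ⟨e1, e2, e3, e4⟩ := swap_facts (U := (S.K b).U) (raw_U _ _ _ _ _) m
  have w := (aft_spec k.ok k.hl k.fit).1
  exact mem_VS.2 ⟨raw_to k.ok k.hl (raw_mem k.fit) e1 e2 ((mem_VS.1 m).1.congr w w.sub e3),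
    fun u hu => e4 u hu (fun e => hu (e ▸ k.xU)) fun e => hu (e ▸ k.ok.hs)⟩

lemma ok_iff {g : Perm D} : (S.ch b x s rest t W).Ok g ↔ ∃ c ∈ S.A,
    ∃ a1 ∈ VS (((S.K b).aft x s rest t).res W), ∃ a2 ∈ VS ((S.K b).main x s rest t W),
      ∃ a' ∈ VS (S.K (!b)), g = c * (swap x s * (a1 * a2) * a') := by
  rw [St.ok_b k.wf' b, St.ch_same, St.ch_not]
  constructor
  · rintro ⟨c', hc', a2, h2, a', h', rfl⟩
    obtain ⟨c, hc, a1, h1, rfl⟩ := k.memA.1 hc'
    exact ⟨c, hc, a1, h1, a2, h2, a', h', by simp only [mul_assoc]⟩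
  · rintro ⟨c, hc, a1, h1, a2, h2, a', h', rfl⟩
    exact ⟨_, k.memA.2 ⟨c, hc, a1, h1, rfl⟩, a2, h2, a', h', by simp only [mul_assoc]⟩

lemma up {g : Perm D} (hg : (S.ch b x s rest t W).Ok g) : S.Ok g ∧ g x = s ∧ g s = x := by
  obtain ⟨c, hc, a1, h1, a2, h2, a', h', rfl⟩ := k.ok_iff.1 hg
  have m := k.mem_VS_of h1 h2
  obtain ⟨e1, e2, -, -⟩ := swap_facts (U := (S.K b).U) (raw_U _ _ _ _ _)
    (mul_mem_VS (aft_spec k.ok k.hl k.fit).1 k.hW h1 h2)
  exact ⟨(St.ok_b k.wf b).2 ⟨c, hc, _, m, a', h', rfl⟩, by rw [k.wf.on hc m h' k.xU, e1],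
    by rw [k.wf.on hc m h' k.ok.hs, e2]⟩

end Kid

/-- sum over all the children of a given kind -/
noncomputable def St.chs (S : St D) (b : Bool) (x : D) (rest : List D) (y : Step × ℕ)
    (Φ : St D → ℝ) : ℝ :=
  if y.1.sL + y.1.sR ≤ rest.length then ∑ s ∈ (S.K b).U \ (S.K b).X,
    ∑ W ∈ Sup (S.K b) x s rest y.1 y.2, Φ (S.ch b x s rest y.1 W) else 0

section
variable {S : St D} (h : S.WF) {b : Bool} {x : D} {rest : List D}
  (hl : Holes (S.K b) [x :: rest]) (hr : rest ≠ [])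
include h hl hr

lemma chs_eq {y : Step × ℕ} (ht : y.1.sL + y.1.sR ≤ rest.length) (Φ : Perm D → ℝ) :
    S.chs b x rest y (·.sum Φ) = ∑ c ∈ S.A, ∑ a' ∈ VS (S.K (!b)),
      stepSum (S.K b) x rest y.1 y.2 fun a => Φ (c * (a * a')) := by
  rw [St.chs, if_pos ht, sum_congr rfl fun s hs => sum_congr rfl fun W hW =>
    Kid.sum_ch ⟨h, hl, hr, ht, hs, hW⟩ Φ]
  simp only [stepSum]
  rw [sum_congr rfl fun s _ => sum_comm, sum_comm]
  refine sum_congr rfl fun c _ => ?_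
  rw [sum_congr rfl fun s _ => sum_comm, sum_comm]

lemma chs_le (A : Finset (Step × ℕ)) (hv : ∀ y ∈ A, 2 * y.2 + 1 < (S.K b).m) (Φ : Perm D → ℝ)
    (hΦ : ∀ a, 0 ≤ Φ a) : ∑ y ∈ A, S.chs b x rest y (·.sum Φ) ≤ S.sum Φ := by
  rw [← sum_filter_of_ne (p := fun y => y.1.sL + y.1.sR ≤ rest.length) fun y _ e => by
      by_contra c; exact e (if_neg c),
    sum_congr rfl fun y hy => chs_eq h hl hr (mem_filter.1 hy).2 Φ, St.sum_b h b, sum_comm]
  refine sum_le_sum fun c _ => ?_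
  rw [sum_comm]
  exact sum_le_sum fun a' _ => stepSum_le (h.wf b) hl hr _ (fun y hy => (mem_filter.1 hy).2)
    (fun y hy => hv y (mem_filter.1 hy).1) _ fun a => hΦ _

lemma chs_tot {y : Step × ℕ} (hv : y.2 < (S.K b).m) {ω ε : ℝ}
    (e : |(if y.1.sL + y.1.sR < rest.length + 1 then coeff y.2 (Zm y.1.fin) *
      coeff ((S.K b).m - 1 - y.2) (Zl (nl (rest.length + 1) y.1)) else 0) -
        ω * coeff (S.K b).m (Zl (rest.length + 1))| ≤ ε * coeff (S.K b).m (Zl (rest.length + 1))) :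
    |S.chs b x rest y St.tot - ω * S.tot| ≤ ε * S.tot := by
  have e1 : S.chs b x rest y St.tot = S.A.card * (VS (S.K (!b))).card * GG (S.K b).m *
      (if y.1.sL + y.1.sR < rest.length + 1 then coeff y.2 (Zm y.1.fin) *
      coeff ((S.K b).m - 1 - y.2) (Zl (nl (rest.length + 1) y.1)) else 0) := by
    split_ifs with ht
    · refine (chs_eq h hl hr (by omega) fun _ => 1).trans ?_
      rw [stepSum_one (h.wf b) hl hr (by omega) hv]
      simp only [sum_const, nsmul_eq_mul]; ring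
    · rw [St.chs, if_neg (by omega), mul_zero]
  have e2 : S.tot = S.A.card * (VS (S.K (!b))).card * GG (S.K b).m *
      coeff (S.K b).m (Zl (rest.length + 1)) := by
    rw [St.tot_b b, card_VS (h.wf b) hl]
    simp [Zm_cons, Zm_nil]; ring
  have := GG_pos (S.K b).m
  rw [e1, e2, mul_left_comm ω, ← mul_sub, abs_mul, abs_of_nonneg (by positivity), mul_left_comm ε]
  exact mul_le_mul_of_nonneg_left e (by positivity)

end

end Pool.Agent.Lib.MP_abd955_pr
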