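import Mathlib

/-! Counting classes, cycles of a permutation multiplied by a swap. -/

namespace Pool.Agent.Lib.MP_abd955_pr

open Equiv Equiv.Perm Finset

set_option linter.unusedSectionVars false

variable {D : Type} [DecidableEq D]

open Classical in
/-- number of classes that meet U -/
noncomputable def cnt (r : Setoid D) (U : Finset D) : ℕ := (U.image (Quotient.mk r)).card

lemma card_image_congr {A B : Type} [DecidableEq A] [DecidableEq B] (g : D → A) (g' : D → B)
    (U : Finset D) (h : ∀ x ∈ U, ∀ y ∈ U, g x = g y ↔ g' x = g' y) :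
    (U.image g).card = (U.image g').card := by
  induction U using Finset.induction_on with
  | empty => simp
  | insert a s ha ih =>
    have ih' := ih fun x hx y hy => h x (mem_insert_of_mem hx) y (mem_insert_of_mem hy)
    rw [image_insert, image_insert]
    by_cases h1 : g a ∈ s.image g
    · have h2 : g' a ∈ s.image g' := by
        obtain ⟨x, hx, e⟩ := mem_image.1 h1
        exact mem_image.2 ⟨x, hx, (h x (mem_insert_of_mem hx) a (mem_insert_self _ _)).1 e⟩
      rw [insert_eq_of_mem h1, insert_eq_of_mem h2, ih']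
    · have h2 : g' a ∉ s.image g' := by
        intro h2
        obtain ⟨x, hx, e⟩ := mem_image.1 h2
        exact h1 (mem_image.2 ⟨x, hx, (h x (mem_insert_of_mem hx) a (mem_insert_self _ _)).2 e⟩)
      rw [card_insert_of_notMem h1, card_insert_of_notMem h2, ih']

lemma cnt_map {D' : Type} [DecidableEq D'] (r : Setoid D) (r' : Setoid D') (φ : D → D')
    (U : Finset D) (h : ∀ x ∈ U, ∀ y ∈ U, r x y ↔ r' (φ x) (φ y)) :
    cnt r U = cnt r' (U.image φ) := by
  classical
  unfold cnt
  rw [image_image]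
  convert card_image_congr (Quotient.mk r) (Quotient.mk r' ∘ φ) U ?_
  intro x hx y hy
  simp only [Function.comp, Quotient.eq]
  exact h x hx y hy

lemma cnt_congr {r r' : Setoid D} {U : Finset D} (h : ∀ x ∈ U, ∀ y ∈ U, r x y ↔ r' x y) :
    cnt r U = cnt r' U := by
  have := cnt_map r r' id U h
  rwa [image_id] at this

lemma cnt_le_of {r : Setoid D} {U X : Finset D} (h : ∀ x ∈ U, ∃ y ∈ X, r x y) :
    cnt r U ≤ cnt r X := by
  classical
  unfold cnt
  apply card_le_card
  intro q hq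
  obtain ⟨x, hx, rfl⟩ := mem_image.1 hq
  obtain ⟨y, hy, e⟩ := h x hx
  exact mem_image.2 ⟨y, hy, Quotient.sound (r.symm e)⟩

lemma cnt_eq_of {r : Setoid D} {U X : Finset D} (hs : X ⊆ U) (h : ∀ x ∈ U, ∃ y ∈ X, r x y) :
    cnt r U = cnt r X :=
  le_antisymm (cnt_le_of h) (cnt_le_of fun x hx => ⟨x, hs hx, r.refl x⟩)

lemma cnt_insert {r : Setoid D} {U : Finset D} {v : D} (h : ∀ x ∈ U, ¬r x v) :
    cnt r (insert v U) = cnt r U + 1 := by
  classical
  unfold cnt
  rw [image_insert, card_insert_of_notMem]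
  intro hq
  obtain ⟨x, hx, e⟩ := mem_image.1 hq
  exact h x hx (Quotient.exact e)

lemma cnt_empty (r : Setoid D) : cnt r ∅ = 0 := by simp [cnt]

lemma cnt_union {r : Setoid D} {U W : Finset D} (h : ∀ x ∈ U, ∀ y ∈ W, ¬r x y) :
    cnt r (U ∪ W) = cnt r U + cnt r W := by
  classical
  unfold cnt
  rw [image_union, card_union_of_disjoint]
  rw [disjoint_left]
  intro q h1 h2
  obtain ⟨x, hx, rfl⟩ := mem_image.1 h1
  obtain ⟨y, hy, e⟩ := mem_image.1 h2
  exact h x hx y hy (r.symm (Quotient.exact e))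

lemma cnt_anti {r r' : Setoid D} {U : Finset D} (h : ∀ x ∈ U, ∀ y ∈ U, r x y → r' x y) :
    cnt r' U ≤ cnt r U := by
  induction U using Finset.induction_on with
  | empty => simp [cnt_empty]
  | insert a s ha ih =>
    have ih' := ih fun x hx y hy => h x (mem_insert_of_mem hx) y (mem_insert_of_mem hy)
    by_cases h1 : ∃ x ∈ s, r x a
    · obtain ⟨x, hx, e⟩ := h1
      have e' := h x (mem_insert_of_mem hx) a (mem_insert_self _ _) e
      have h2 : cnt r' (insert a s) = cnt r' s := cnt_eq_of (subset_insert _ _) fun y hy => by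
        rcases mem_insert.1 hy with rfl | hy
        · exact ⟨x, hx, r'.symm e'⟩
        · exact ⟨y, hy, r'.refl y⟩
      have h3 : cnt r s ≤ cnt r (insert a s) :=
        cnt_le_of fun y hy => ⟨y, mem_insert_of_mem hy, r.refl y⟩
      omega
    · push Not at h1
      rw [cnt_insert h1]
      have h2 : cnt r' (insert a s) ≤ cnt r' s + 1 := by
        classical
        unfold cnt
        rw [image_insert]
        exact card_insert_le _ _
      omega

/-- a coarser relation with as many classes is the same relation -/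
lemma rel_of_cnt_le {r r' : Setoid D} {U : Finset D} (h : ∀ x ∈ U, ∀ y ∈ U, r x y → r' x y)
    (hc : cnt r U ≤ cnt r' U) {x y : D} (hx : x ∈ U) (hy : y ∈ U) (e : r' x y) : r x y := by
  classical
  by_contra hn
  set U0 := U.filter fun z => ¬r z y with hU0
  have h1 : cnt r U = cnt r (insert y U0) := by
    refine cnt_eq_of (insert_subset hy (filter_subset _ _)) fun z hz => ?_
    by_cases hz' : r z y
    · exact ⟨y, mem_insert_self _ _, hz'⟩
    · exact ⟨z, mem_insert_of_mem (mem_filter.2 ⟨hz, hz'⟩), r.refl z⟩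
  rw [cnt_insert (U := U0) fun z hz => (mem_filter.1 hz).2] at h1
  have h2 : cnt r' U = cnt r' U0 := by
    refine cnt_eq_of (filter_subset _ _) fun z hz => ?_
    by_cases hz' : r z y
    · exact ⟨x, mem_filter.2 ⟨hx, hn⟩, r'.trans (h z hz y hy hz') (r'.symm e)⟩
    · exact ⟨z, mem_filter.2 ⟨hz, hz'⟩, r'.refl z⟩
  have h3 : cnt r' U0 ≤ cnt r U0 :=
    cnt_anti fun a ha b hb => h a (mem_filter.1 ha).1 b (mem_filter.1 hb).1
  omega

/-- r' is r with the classes of u and v merged -/
def IsJoin (r r' : Setoid D) (u v : D) : Prop :=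
  ∀ x y, r' x y ↔ r x y ∨ (r x u ∧ r v y) ∨ (r x v ∧ r u y)

lemma cnt_join {r r' : Setoid D} {U : Finset D} {u v : D} (hu : u ∈ U) (hv : v ∈ U)
    (hn : ¬r u v) (h : IsJoin r r' u v) : cnt r U = cnt r' U + 1 := by
  classical
  set U0 := U.filter fun z => ¬r z v with hU0
  have h1 : cnt r U = cnt r (insert v U0) := by
    refine cnt_eq_of (insert_subset hv (filter_subset _ _)) fun z hz => ?_
    by_cases hz' : r z v
    · exact ⟨v, mem_insert_self _ _, hz'⟩
    · exact ⟨z, mem_insert_of_mem (mem_filter.2 ⟨hz, hz'⟩), r.refl z⟩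
  rw [cnt_insert (U := U0) fun z hz => (mem_filter.1 hz).2] at h1
  have h2 : cnt r' U = cnt r' U0 := by
    refine cnt_eq_of (filter_subset _ _) fun z hz => ?_
    by_cases hz' : r z v
    · exact ⟨u, mem_filter.2 ⟨hu, hn⟩, (h z u).2 (Or.inr (Or.inr ⟨hz', r.refl u⟩))⟩
    · exact ⟨z, mem_filter.2 ⟨hz, hz'⟩, r'.refl z⟩
  have h3 : cnt r' U0 = cnt r U0 := by
    refine cnt_congr fun a ha b hb => ?_
    rw [h]
    have ha' := (mem_filter.1 ha).2
    have hb' := (mem_filter.1 hb).2
    constructor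
    · rintro (e | ⟨-, e⟩ | ⟨e, -⟩)
      · exact e
      · exact absurd (r.symm e) hb'
      · exact absurd e ha'
    · exact Or.inl
  omega

/-- the cycles of a permutation -/
abbrev sc (π : Perm D) : Setoid D := SameCycle.setoid π

omit [DecidableEq D] in
lemma sc_iff (π : Perm D) (x y : D) : sc π x y ↔ π.SameCycle x y := Iff.rfl

variable [Fintype D]

omit [DecidableEq D] in
lemma sc_ind {π : Perm D} {P : D → Prop} {x y : D} (e : π.SameCycle x y) (hx : P x)
    (hs : ∀ z, P z → P (π z)) : P y := by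
  obtain ⟨i, -, rfl⟩ := e.exists_pow_eq'
  induction i with
  | zero => simpa using hx
  | succ i ih => rw [pow_succ', mul_apply]; exact hs _ (ih ⟨i, by simp⟩)

omit [DecidableEq D] in
lemma sc_le {π : Perm D} (r : Setoid D) (h : ∀ z, r z (π z)) {x y : D} (e : π.SameCycle x y) :
    r x y := sc_ind (P := fun z => r x z) e (r.refl x) fun z hz => r.trans hz (h z)

omit [DecidableEq D] [Fintype D] in
lemma sc_step (π : Perm D) (x : D) : π.SameCycle x (π x) := ⟨1, by simp⟩

lemma first_hit (π : Perm D) (u v : D) : ∃ k, 0 < k ∧ ((π ^ k) u = u ∨ (π ^ k) u = v) ∧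
    (∀ i < k, 0 < i → (π ^ i) u ≠ u ∧ (π ^ i) u ≠ v) ∧
    (∀ i < k, ((swap u v * π) ^ i) u = (π ^ i) u) ∧
    ((swap u v * π) ^ k) u = swap u v ((π ^ k) u) := by
  have hex : ∃ k, 0 < k ∧ ((π ^ k) u = u ∨ (π ^ k) u = v) :=
    ⟨orderOf π, orderOf_pos π, Or.inl (by simp [pow_orderOf_eq_one])⟩
  have h1 := Nat.find_spec hex
  have h2 : ∀ i < Nat.find hex, 0 < i → (π ^ i) u ≠ u ∧ (π ^ i) u ≠ v := by
    intro i hi h0
    have := Nat.find_min hex hi
    push Not at this
    exact this h0
  have h3 : ∀ i < Nat.find hex, ((swap u v * π) ^ i) u = (π ^ i) u := by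
    intro i hi
    induction i with
    | zero => simp
    | succ i ih =>
      have h4 := h2 (i + 1) hi (by omega)
      rw [pow_succ', mul_apply, ih (by omega), mul_apply, ← mul_apply π, ← pow_succ',
        swap_apply_of_ne_of_ne h4.1 h4.2]
  refine ⟨_, h1.1, h1.2, h2, h3, ?_⟩
  obtain ⟨j, hj⟩ : ∃ j, Nat.find hex = j + 1 := ⟨Nat.find hex - 1, by omega⟩
  rw [hj, pow_succ', mul_apply, h3 j (by omega), mul_apply, ← mul_apply π, ← pow_succ']

omit [DecidableEq D] in
lemma sc_period {π : Perm D} {u y : D} {k : ℕ} (hk : 0 < k) (h : (π ^ k) u = u)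
    (e : π.SameCycle u y) : ∃ i < k, (π ^ i) u = y := by
  refine sc_ind (P := fun z => ∃ i < k, (π ^ i) u = z) e ⟨0, hk, by simp⟩ ?_
  rintro z ⟨i, hi, rfl⟩
  rcases Nat.lt_or_ge (i + 1) k with h1 | h1
  · exact ⟨i + 1, h1, by rw [pow_succ', mul_apply]⟩
  · refine ⟨0, hk, ?_⟩
    have : i + 1 = k := by omega
    rw [← mul_apply π, ← pow_succ', this, h]; simp

lemma sc_split {π : Perm D} {u v : D} (huv : u ≠ v) (e : π.SameCycle u v) :
    ¬(swap u v * π).SameCycle u v := by
  obtain ⟨k, hk, h1, h2, h3, h4⟩ := first_hit π u v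
  rcases h1 with h1 | h1
  · obtain ⟨i, hi, e'⟩ := sc_period hk h1 e
    rcases Nat.eq_zero_or_pos i with rfl | h0
    · exact absurd (by simpa using e') huv
    · exact absurd e' (h2 i hi h0).2
  · intro e2
    rw [h1, swap_apply_right] at h4
    obtain ⟨i, hi, e'⟩ := sc_period hk h4 e2
    rw [h3 i hi] at e'
    rcases Nat.eq_zero_or_pos i with rfl | h0
    · exact huv (by simpa using e')
    · exact (h2 i hi h0).2 e'

lemma sc_join {π : Perm D} {u v : D} (hn : ¬π.SameCycle u v) :
    IsJoin (sc π) (sc (swap u v * π)) u v := by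
  have huv : (swap u v * π).SameCycle u v := by
    obtain ⟨k, hk, h1, h2, h3, h4⟩ := first_hit π u v
    rcases h1 with h1 | h1
    · rw [h1, swap_apply_left] at h4
      exact ⟨k, by simpa using h4⟩
    · exact absurd ⟨k, by simpa using h1⟩ hn
  have hle : ∀ {x y}, π.SameCycle x y → (swap u v * π).SameCycle x y := by
    intro x y e
    refine sc_le (sc _) (fun z => ?_) e
    have h1 := sc_step (swap u v * π) z
    rw [mul_apply] at h1
    by_cases a1 : π z = u
    · rw [a1, swap_apply_left] at h1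
      rw [a1]; exact h1.trans huv.symm
    by_cases a2 : π z = v
    · rw [a2, swap_apply_right] at h1
      rw [a2]; exact h1.trans huv
    rwa [swap_apply_of_ne_of_ne a1 a2] at h1
  intro x y
  constructor
  · intro e
    refine sc_ind (P := fun y => π.SameCycle x y ∨ (π.SameCycle x u ∧ π.SameCycle v y) ∨
      (π.SameCycle x v ∧ π.SameCycle u y)) e (Or.inl (SameCycle.refl _ _)) fun z hz => ?_
    have h1 := sc_step π z
    rw [mul_apply]
    by_cases a1 : π z = u
    · rw [a1, swap_apply_left]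
      rw [a1] at h1
      rcases hz with e | ⟨e, e'⟩ | ⟨e, e'⟩
      · exact Or.inr (Or.inl ⟨e.trans h1, SameCycle.refl _ _⟩)
      · exact absurd (e'.trans h1).symm hn
      · exact Or.inl e
    by_cases a2 : π z = v
    · rw [a2, swap_apply_right]
      rw [a2] at h1
      rcases hz with e | ⟨e, e'⟩ | ⟨e, e'⟩
      · exact Or.inr (Or.inr ⟨e.trans h1, SameCycle.refl _ _⟩)
      · exact Or.inl e
      · exact absurd (e'.trans h1) hn
    rw [swap_apply_of_ne_of_ne a1 a2]
    rcases hz with e | ⟨e, e'⟩ | ⟨e, e'⟩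
    · exact Or.inl (e.trans h1)
    · exact Or.inr (Or.inl ⟨e, e'.trans h1⟩)
    · exact Or.inr (Or.inr ⟨e, e'.trans h1⟩)
  · rintro (e | ⟨e, e'⟩ | ⟨e, e'⟩)
    · exact hle e
    · exact ((hle e).trans huv).trans (hle e')
    · exact ((hle e).trans huv.symm).trans (hle e')

lemma sc_join' {π : Perm D} {u v : D} (huv : u ≠ v) (e : π.SameCycle u v) :
    IsJoin (sc (swap u v * π)) (sc π) u v := by
  have := sc_join (sc_split huv e)
  rwa [← mul_assoc, swap_mul_self, one_mul] at this

lemma cnt_swap_join {π : Perm D} {U : Finset D} {u v : D} (hu : u ∈ U) (hv : v ∈ U)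
    (hn : ¬π.SameCycle u v) : cnt (sc π) U = cnt (sc (swap u v * π)) U + 1 :=
  cnt_join hu hv hn (sc_join hn)

lemma cnt_swap_split {π : Perm D} {U : Finset D} {u v : D} (hu : u ∈ U) (hv : v ∈ U)
    (huv : u ≠ v) (e : π.SameCycle u v) : cnt (sc (swap u v * π)) U = cnt (sc π) U + 1 :=
  cnt_join hu hv (sc_split huv e) (sc_join' huv e)

omit [DecidableEq D] in
lemma sc_mem {π : Perm D} {U : Finset D} (h : ∀ z ∈ U, π z ∈ U) {x y : D} (hx : x ∈ U)
    (e : π.SameCycle x y) : y ∈ U := sc_ind (P := fun z => z ∈ U) e hx h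

omit [DecidableEq D] in
lemma sc_congr {π π' : Perm D} {U : Finset D} (h : ∀ z ∈ U, π z ∈ U) (h' : ∀ z ∈ U, π' z = π z)
    {x y : D} (hx : x ∈ U) : π'.SameCycle x y ↔ π.SameCycle x y := by
  constructor
  · intro e
    refine (sc_ind (P := fun z => z ∈ U ∧ π.SameCycle x z) e ⟨hx, SameCycle.refl _ _⟩ ?_).2
    rintro z ⟨hz, e⟩
    rw [h' z hz]
    exact ⟨h z hz, e.trans (sc_step π z)⟩
  · intro e
    refine (sc_ind (P := fun z => z ∈ U ∧ π'.SameCycle x z) e ⟨hx, SameCycle.refl _ _⟩ ?_).2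
    rintro z ⟨hz, e⟩
    refine ⟨h z hz, ?_⟩
    rw [← h' z hz]
    exact e.trans (sc_step π' z)

omit [DecidableEq D] in
lemma sc_fixed {π : Perm D} {x y : D} (h : π x = x) (e : π.SameCycle x y) : y = x :=
  sc_ind (P := fun z => z = x) e rfl fun z hz => by rw [hz, h]

/-- taking a point out of its cycle -/
lemma sc_excise {π : Perm D} {x : D} (hx : π x ≠ x) {p q : D} (hp : p ≠ x) (hq : q ≠ x) :
    (swap x (π x) * π).SameCycle p q ↔ π.SameCycle p q := by
  have h1 := sc_join' hx.symm (sc_step π x) p q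
  have hf : (swap x (π x) * π) x = x := by simp
  rw [sc_iff, sc_iff, sc_iff, sc_iff, sc_iff, sc_iff] at h1
  rw [h1]
  constructor
  · exact Or.inl
  · rintro (e | ⟨e, -⟩ | ⟨-, e⟩)
    · exact e
    · exact absurd (sc_fixed hf e.symm) hp
    · exact absurd (sc_fixed hf e) hq

lemma cnt_excise {π : Perm D} {U : Finset D} {x : D} (hx : π x ≠ x) (h : π x ∈ U) :
    cnt (sc (swap x (π x) * π)) (U.erase x) = cnt (sc π) U := by
  rw [cnt_eq_of (erase_subset x U) (r := sc π) fun y hy => by
    by_cases e : y = x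
    · exact ⟨π x, mem_erase.2 ⟨hx, h⟩, e ▸ sc_step π x⟩
    · exact ⟨y, mem_erase.2 ⟨e, hy⟩, (sc π).refl y⟩]
  exact cnt_congr fun p hp q hq => sc_excise hx (mem_erase.1 hp).1 (mem_erase.1 hq).1

end Pool.Agent.Lib.MP_abd955_pr
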