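import Pool.Agent.Lib.MP_abd955_pr.Stmt

namespace Pool.Agent.Lib.MP_abd955_pr

open Equiv Finset

abbrev DD (n p : ℕ) := Fin n × Fin 4 ⊕ Fin (2 * p + 2)

open Classical in
noncomputable def DiscS (n p : ℕ) : Finset (Perm (DD n p)) :=
  univ.filter fun a => IsMap a (poly n p) (n + p + 2) ∧
    ∀ i j, (poly n p * a).SameCycle (.inr i) (.inr j) → i = j

open Classical in
noncomputable def SphS (n : ℕ) : Finset (Perm (Fin n × Fin 4) × (Fin n × Fin 4)) :=
  univ.filter fun x => IsMap x.1 (sq n) (n + 2)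

/-- action of words -/
def act {D : Type} (b f : Perm D) : Wd →* Perm D := FreeGroup.lift fun x => if x then b else f

open Classical in
/-- zip the darts of S in pairs given by t -/
noncomputable def zipf {D : Type} (S : Set D) (t a : Perm D) (u : D) : D :=
  if u ∈ S then t u else if a u ∈ S then a (t (a u)) else a u

open Classical in
noncomputable def zp {D : Type} (S : Set D) (t a : Perm D) : Perm D :=
  if h : Function.Involutive (zipf S t a) then h.toPerm _ else 1

def extS (n p : ℕ) : Set (DD n p) := Set.range Sum.inr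

def mirF (n p : ℕ) : Perm (DD n p) := Equiv.sumCongr (Equiv.refl _) Fin.revPerm

noncomputable def foldP {n p : ℕ} (a : Perm (DD n p)) : Perm (DD n p) :=
  zp (extS n p) (mirF n p) a

def gpoly (n p : ℕ) : Perm (Bool × DD n p) := Equiv.prodCongr (Equiv.refl _) (poly n p)

def mirG (n p : ℕ) : Perm (Bool × DD n p) :=
  Equiv.prodCongr Equiv.boolNot (Equiv.sumCongr (Equiv.refl _) (Equiv.neg _))

noncomputable def glueP {n p : ℕ} (a : Bool → Perm (DD n p)) : Perm (Bool × DD n p) :=
  zp {x | x.2 ∈ extS n p} (mirG n p) (Equiv.prodCongrRight a)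

/-- the property depends only on the words of length at most R -/
def LocalP (R : ℕ) (P : ∀ D : Type, Perm D → Perm D → D → Prop) : Prop :=
  ∀ (D D' : Type) (b f : Perm D) (r : D) (b' f' : Perm D') (r' : D'),
    (∀ w : Wd, w.norm ≤ R → (act b f w r = r ↔ act b' f' w r' = r')) → P D b f r → P D' b' f' r'

def GoodF (J R : ℕ) {n p : ℕ} (a : Perm (DD n p)) : Prop :=
  (∀ i j, a (.inr i) ≠ .inr j) ∧ ∀ w : Wd, w.norm ≤ R → ∀ i,
    a (act (foldP a) (poly n p) w (a ((poly n p)⁻¹ (.inr 0)))) = .inr i →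
      ∃ k : ℤ, |k| ≤ J ∧ (poly n p ^ k) (.inr 0) = .inr i

def GoodG (J R : ℕ) {n p : ℕ} (a : Bool → Perm (DD n p)) : Prop :=
  (∀ b i j, a b (.inr i) ≠ .inr j) ∧ ∀ w : Wd, w.norm ≤ R → ∀ b i,
    Equiv.prodCongrRight a (act (glueP a) (gpoly n p) w (true, a true (.inr 0))) = (b, .inr i) →
      ∃ k : ℤ, |k| ≤ J ∧ (poly n p ^ k) (.inr 0) = .inr i

end Pool.Agent.Lib.MP_abd955_pr
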