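import Pool.Agent.Lib.MP_abd955_pr.Cyc
import Pool.Agent.Lib.MP_abd955_pr.FinDefs

/-! Definitions shared by the combinatorial files. -/

namespace Pool.Agent.Lib.MP_abd955_pr

open Equiv Equiv.Perm Finset

section
variable {D : Type} [DecidableEq D] [Fintype D]

open Classical in
/-- valid gluings of a configuration, the identity outside the active darts -/
noncomputable def VS (K : Cfg D) : Finset (Perm D) :=
  univ.filter fun a => Pre K K.X a ∧ ∀ u, u ∉ K.U → a u = u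

/-- number of inner faces -/
def Cfg.m (K : Cfg D) : ℕ := (K.U.card - K.X.card) / 4

noncomputable def GG (m : ℕ) : ℝ := 4 ^ m * m.factorial

def Cfg.res (K : Cfg D) (W : Finset D) : Cfg D := ⟨W, K.X ∩ W, K.f⟩

open Classical in
/-- possible supports with v inner faces of the components of the holes S -/
noncomputable def Inv (K : Cfg D) (S : Finset D) (v : ℕ) : Finset (Finset D) :=
  K.U.powerset.filter fun W => K.X ∩ W = S ∧ (∀ z ∈ W, K.f z ∈ W) ∧ W.card = S.card + 4 * v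

end

/-- y is reached from x by a word of length at most n -/
def Near {D : Type} (b f : Perm D) (n : ℕ) (x y : D) : Prop :=
  ∃ w : Wd, w.norm ≤ n ∧ act b f w x = y

abbrev E0 (v : ℕ) := Fin v × Fin 4 ⊕ Bool
abbrev E1 (v k : ℕ) := Fin v × Fin 4 ⊕ (Bool ⊕ Fin k × Bool)

/-- v squares and a hole of length 2 -/
def K0 (v : ℕ) : Cfg (E0 v) := ⟨univ, {.inr false, .inr true}, Equiv.sumCongr (sq v) Equiv.boolNot⟩

def hP (v k : ℕ) : List (E1 v k) :=
  .inr (.inl true) :: (List.finRange k).map fun i => .inr (.inr (i, true))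
def hQ (v k : ℕ) : List (E1 v k) :=
  .inr (.inl false) :: ((List.finRange k).map fun i => .inr (.inr (i, false))).reverse

/-- v squares and two holes of length k+1 -/
def K1 (v k : ℕ) : Cfg (E1 v k) :=
  ⟨univ, univ.image Sum.inr,
    Equiv.sumCongr (sq v) (Equiv.refl _) * ((hP v k).formPerm * (hQ v k).formPerm)⟩

def j01 {v k : ℕ} : E0 v → E1 v k := Sum.map id Sum.inl

def t1 (v k : ℕ) : Perm (E1 v k) :=
  Equiv.sumCongr (Equiv.refl _)
    (Equiv.sumCongr (Equiv.refl _) (Equiv.prodCongr (Equiv.refl _) Equiv.boolNot))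

/-- e is obtained from a by zipping the path -/
def Rz {v k : ℕ} (a : Perm (E1 v k)) (e : Perm (E0 v)) : Prop :=
  ∀ u, j01 (e u) = zipf {x | ∃ i, x = .inr (.inr i)} (t1 v k) a (j01 u)

structure Emb {D : Type} {v : ℕ} (e : Perm (E0 v)) (b f : Perm D) (ι : E0 v → D) : Prop where
  inj : Function.Injective ι
  mb : ∀ u, b (ι u) = ι (e u)
  mf : ∀ u, f (ι (.inl u)) = ι (.inl (sq v u))

abbrev Fam := ∀ v : ℕ, Finset (Perm (E0 v))

/-- the two-gon with sides t0 and t1 has its content in the family -/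
def Has {D : Type} (F : Fam) (b f : Perm D) (I : Set D) (t0 t1 : D) : Prop :=
  ∃ v, ∃ e ∈ F v, ∃ ι, Emb e b f ι ∧ ι (.inr false) = t0 ∧ ι (.inr true) = t1 ∧
    ∀ u, ι (.inl u) ∈ I

def Feat {D : Type} (F : Fam) (b f : Perm D) (y : D) : Prop :=
  Has F b f Set.univ (f y) (f⁻¹ (b y)) ∧ ∀ i < 4, b y ≠ (f ^ i) y

structure FamOk (F : Fam) (V : ℕ) : Prop where
  val : ∀ v, F v ⊆ VS (K0 v)
  big : ∀ v, V < v → F v = ∅
  inv : ∀ v, ∀ e ∈ F v, ∀ g : Perm (E0 v), g * (K0 v).f = (K0 v).f * g →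
    (∀ c, g (.inr c) = .inr c) → g * e * g⁻¹ ∈ F v

noncomputable def phi (F : Fam) (v : ℕ) : ℝ := (F v).card / GG v

noncomputable def del (F : Fam) (V : ℕ) : ℝ := ∑ v ∈ range (V + 1), phi F v * (1 / 12) ^ v

open Classical in
noncomputable def TS (F : Fam) (v k : ℕ) : Finset (Perm (E1 v k)) :=
  (VS (K1 v k)).filter fun a => ∃ e ∈ F v, Rz a e

noncomputable def del' (F : Fam) (V K : ℕ) : ℝ :=
  ∑ k ∈ Icc 1 K, ∑ v ∈ range (V + 1), (2 / 9) ^ k * (((TS F v k).card / GG v) * (1 / 12) ^ v)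

def An {D : Type} (b f : Perm D) (x : D) (lo hi : ℕ) (y : D) : Prop :=
  Near b f hi x y ∧ ¬Near b f lo x y

/-- the test property -/
def PP (F : Fam) (r R r' R' ρ : ℕ) (D : Type) (b f : Perm D) (x : D) : Prop :=
  (∃ y, Feat F b f y ∧ An b f x r R y) ∧
    ∀ y y', Feat F b f y → An b f x r R y → Feat F b f y' → An b f x r R y' →
      Relation.ReflTransGen (fun u v => Feat F b f v ∧ An b f x r' R' v ∧ Near b f ρ u v) y y'

/-- k-th boundary dart and its inner partner -/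
def ek (n p : ℕ) (k : ℤ) : DD n p := (poly n p ^ k) (.inr 0)

/-- walks among the inner darts -/
inductive Walk {D : Type} (a f : Perm D) (I : Set D) : ℕ → D → D → Prop
  | refl (n x) : x ∈ I → Walk a f I n x x
  | sa {n x y} : Walk a f I n x y → a y ∈ I → Walk a f I (n + 1) x (a y)
  | sf {n x y} : Walk a f I n x y → Walk a f I (n + 1) x (f y)
  | sg {n x y} : Walk a f I n x y → Walk a f I (n + 1) x (f⁻¹ y)

def KD (n p : ℕ) : Cfg (DD n p) := ⟨univ, univ.image Sum.inr, poly n p⟩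

def ExtF (R J : ℕ) {n p : ℕ} (a : Perm (DD n p)) : Prop :=
  ∀ i, Near (foldP a) (poly n p) R (a (ek n p (-1))) (a (.inr i)) →
    ∃ k : ℤ, |k| ≤ J ∧ .inr i = ek n p k

def NoBF (F : Fam) (V R : ℕ) {n p : ℕ} (a : Perm (DD n p)) : Prop :=
  ∀ y, Feat F (foldP a) (poly n p) y → Near (foldP a) (poly n p) R (a (ek n p (-1))) y →
    ∃ i, Near (foldP a) (poly n p) (4 * V + 4) y (a (.inr i))

def ExtG (R J : ℕ) (s : ℤ) (d : ℕ) {n p : ℕ} (a : Bool → Perm (DD n p)) : Prop :=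
  ∀ k : ℤ, s ≤ k → k < s + d → ∀ b i,
    Near (glueP a) (gpoly n p) R (true, a true (ek n p k)) (b, a b (.inr i)) →
      ∃ k' : ℤ, s - J < k' ∧ k' < s + d + J ∧ .inr i = ek n p (if b then k' else -k')

def NoBG (F : Fam) (V R : ℕ) (s : ℤ) (d : ℕ) {n p : ℕ} (a : Bool → Perm (DD n p)) : Prop :=
  ∀ k : ℤ, s ≤ k → k < s + d → ∀ y, Feat F (glueP a) (gpoly n p) y →
    Near (glueP a) (gpoly n p) R (true, a true (ek n p k)) y →
      ∃ b i, Near (glueP a) (gpoly n p) (4 * V + 4) y (b, a b (.inr i))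

end Pool.Agent.Lib.MP_abd955_pr
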