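import Pool.Agent.Lib.MP_abd955_pr.CoreDefs

/-! Components of a configuration, the product formula. -/

namespace Pool.Agent.Lib.MP_abd955_pr

open Equiv Equiv.Perm Finset

set_option linter.unusedSectionVars false
set_option linter.unusedVariables false

variable {D : Type} [DecidableEq D] [Fintype D]

lemma dVS {K : Cfg D} {a : Perm D} : a ∈ VS K ↔ Pre K K.X a ∧ ∀ u, u ∉ K.U → a u = u := by
  simp [VS]

lemma dInv {K : Cfg D} {S W : Finset D} {v : ℕ} : W ∈ Inv K S v ↔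
    W ⊆ K.U ∧ K.X ∩ W = S ∧ (∀ z ∈ W, K.f z ∈ W) ∧ W.card = S.card + 4 * v := by
  simp [Inv]

lemma maps_sdiff {π : Perm D} {U W : Finset D} (hU : ∀ z ∈ U, π z ∈ U) (hW : ∀ z ∈ W, π z ∈ W) :
    ∀ z ∈ U \ W, π z ∈ U \ W := fun z hz =>
  mem_sdiff.2 ⟨hU z (mem_sdiff.1 hz).1, fun e => (mem_sdiff.1 hz).2 ((mem_iff_of_maps hW z).2 e)⟩

lemma cnt_sdiff {π : Perm D} {U W : Finset D} (h : W ⊆ U) (hW : ∀ z ∈ W, π z ∈ W) :
    cnt (sc π) U = cnt (sc π) W + cnt (sc π) (U \ W) := by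
  rw [← cnt_union fun x hx y hy e => (mem_sdiff.1 hy).2 (sc_mem hW hx e), union_sdiff_of_subset h]

lemma card_X_split {K : Cfg D} (h : WF K) (W : Finset D) :
    K.X.card = (K.X ∩ W).card + (K.X ∩ (K.U \ W)).card := by
  have : K.X ∩ (K.U \ W) = K.X \ W := by
    ext z
    simp only [mem_inter, mem_sdiff]
    exact ⟨fun e => ⟨e.1, e.2.2⟩, fun e => ⟨e.1, h.sub e.1, e.2⟩⟩
  rw [this, card_inter_add_card_sdiff]

theorem WF.res {K : Cfg D} (h : WF K) {W : Finset D} (hW : W ⊆ K.U) (hf : ∀ z ∈ W, K.f z ∈ W) :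
    WF (K.res W) :=
  ⟨inter_subset_right, hf,
    fun x hx => mem_inter.2 ⟨h.fX x (mem_inter.1 hx).1, hf x (mem_inter.1 hx).2⟩,
    fun x hx hn => h.four x (hW hx) fun e => hn (mem_inter.2 ⟨e, hx⟩)⟩

theorem WF.card {K : Cfg D} (h : WF K) : K.U.card = K.X.card + 4 * K.m := by
  have h1 := cnt_four K.f _ (K.U \ K.X) rfl (fun z hz => h.fI hz)
    fun z hz => h.four z (mem_sdiff.1 hz).1 (mem_sdiff.1 hz).2
  rw [card_sdiff_of_subset h.sub] at h1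
  have := card_le_card h.sub
  unfold Cfg.m
  omega

theorem dec_of {K : Cfg D} (h : WF K) {a : Perm D} (p : Pre K K.X a) {W : Finset D} (hW : W ⊆ K.U)
    (hf : ∀ z ∈ W, K.f z ∈ W) (ha : ∀ z ∈ W, a z ∈ W) : Pre (K.res W) (K.res W).X a := by
  have key : ∀ {W : Finset D}, W ⊆ K.U → (∀ z ∈ W, K.f z ∈ W) → (∀ z ∈ W, a z ∈ W) →
      (∀ x ∈ W, a x ∈ W ∧ a (a x) = x ∧ a x ≠ x) ∧
      (∀ u ∈ W, ∃ x ∈ K.X ∩ W, conn a K.f u x) := fun hW hf ha =>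
    ⟨fun x hx => ⟨ha x hx, (p.inv x (hW hx)).2⟩, fun u hu => by
      obtain ⟨x, hx, c⟩ := p.con u (hW hu)
      exact ⟨x, mem_inter.2 ⟨hx, conn_mem ha hf hu c⟩, c⟩⟩
  have k1 := key hW hf ha
  have hf' := maps_sdiff h.fU hf
  have k2 := key sdiff_subset hf' (maps_sdiff p.aU ha)
  refine ⟨k1.1, fun x hx y hy => p.simp x (mem_inter.1 hx).1 y (mem_inter.1 hy).1, k1.2, ?_⟩
  have e1 := eul_le (h.res hW hf) k1.1 k1.2
  have e2 := eul_le (h.res sdiff_subset hf') k2.1 k2.2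
  have e3 := cnt_sdiff (π := K.f * a) hW fun z hz => hf _ (ha z hz)
  have e4 := cnt_sdiff hW hf
  have e5 := card_X_split h W
  have e6 := p.eul
  simp only [Cfg.res] at e1 e2 ⊢
  omega

theorem dec_to {K : Cfg D} (h : WF K) {a : Perm D} {W : Finset D} (hW : W ⊆ K.U)
    (hf : ∀ z ∈ W, K.f z ∈ W) (p1 : Pre (K.res W) (K.res W).X a)
    (p2 : Pre (K.res (K.U \ W)) (K.res (K.U \ W)).X a) : Pre K K.X a := by
  have hσ : ∀ z ∈ W, (K.f * a) z ∈ W := fun z hz => hf _ (p1.aU z hz)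
  refine ⟨fun x hx => ?_, fun x hx y hy e => ?_, fun u hu => ?_, ?_⟩
  · by_cases c : x ∈ W
    · exact ⟨hW (p1.inv x c).1, (p1.inv x c).2⟩
    · have := p2.inv x (mem_sdiff.2 ⟨hx, c⟩)
      exact ⟨(mem_sdiff.1 this.1).1, this.2⟩
  · by_cases c : x ∈ W
    · exact p1.simp x (mem_inter.2 ⟨hx, c⟩) y (mem_inter.2 ⟨hy, sc_mem hσ c e⟩) e
    · exact p2.simp x (mem_inter.2 ⟨hx, mem_sdiff.2 ⟨h.sub hx, c⟩⟩) y
        (mem_inter.2 ⟨hy, mem_sdiff.2 ⟨h.sub hy, fun d => c (sc_mem hσ d e.symm)⟩⟩) e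
  · by_cases c : u ∈ W
    · obtain ⟨x, hx, e⟩ := p1.con u c
      exact ⟨x, (mem_inter.1 hx).1, e⟩
    · obtain ⟨x, hx, e⟩ := p2.con u (mem_sdiff.2 ⟨hu, c⟩)
      exact ⟨x, (mem_inter.1 hx).1, e⟩
  · have e1 := p1.eul
    have e2 := p2.eul
    have e3 := cnt_sdiff hW hσ
    have e4 := cnt_sdiff hW hf
    have e5 := card_X_split h W
    simp only [Cfg.res] at e1 e2
    omega

open Classical in
/-- the union of the components that meet S -/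
noncomputable def cmpS (K : Cfg D) (a : Perm D) (S : Finset D) : Finset D :=
  K.U.filter fun u => ∃ x ∈ S, conn a K.f u x

lemma mem_cmpS {K : Cfg D} {a : Perm D} {S : Finset D} {u : D} :
    u ∈ cmpS K a S ↔ u ∈ K.U ∧ ∃ x ∈ S, conn a K.f u x := by
  simp [cmpS]

lemma cmpS_spec {K : Cfg D} (h : WF K) {a : Perm D} (p : Pre K K.X a) {S : Finset D}
    (hS : S ⊆ K.X) (hf : ∀ z ∈ S, K.f z ∈ S) :
    cmpS K a S ⊆ K.U ∧ K.X ∩ cmpS K a S = S ∧ (∀ z ∈ cmpS K a S, K.f z ∈ cmpS K a S) ∧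
      ∀ z ∈ cmpS K a S, a z ∈ cmpS K a S := by
  refine ⟨fun z hz => (mem_cmpS.1 hz).1, ?_, fun z hz => ?_, fun z hz => ?_⟩
  · ext z
    rw [mem_inter, mem_cmpS]
    constructor
    · rintro ⟨hz, -, x, hx, c⟩
      exact sc_mem hf hx (p.hole h hz (hS hx) c).symm
    · exact fun hz => ⟨hS hz, h.sub (hS hz), z, hz, (conn a K.f).refl z⟩
  · obtain ⟨hu, x, hx, c⟩ := mem_cmpS.1 hz
    exact mem_cmpS.2 ⟨h.fU z hu, x, hx, (conn a K.f).trans ((conn a K.f).symm (conn_f a K.f z)) c⟩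
  · obtain ⟨hu, x, hx, c⟩ := mem_cmpS.1 hz
    exact mem_cmpS.2 ⟨p.aU z hu, x, hx, (conn a K.f).trans ((conn a K.f).symm (conn_a a K.f z)) c⟩

theorem even_hole {K : Cfg D} (h : WF K) {a : Perm D} (p : Pre K K.X a) {l : List D}
    (c : Cyc K.f l) (hl : ∀ x ∈ l, x ∈ K.X) : Even l.length := by
  obtain ⟨s1, s2, s3, s4⟩ := cmpS_spec h p (S := l.toFinset)
    (fun x hx => hl x (List.mem_toFinset.1 hx))
    fun z hz => List.mem_toFinset.2 (c.mem (List.mem_toFinset.1 hz))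
  have e := (dec_of h p s1 s3 s4).eul
  simp only [Cfg.res] at e
  rw [s2, List.toFinset_card_of_nodup c.1] at e
  exact Nat.even_iff.2 (by omega)

theorem Inv_spec {K : Cfg D} (h : WF K) {S W : Finset D} {v : ℕ} (hW : W ∈ Inv K S v) :
    WF (K.res W) ∧ WF (K.res (K.U \ W)) ∧ (K.res W).X = S ∧ (K.res (K.U \ W)).X = K.X \ S ∧
      (K.res W).m = v ∧ (K.res (K.U \ W)).m + v = K.m := by
  obtain ⟨s1, s2, s3, s4⟩ := dInv.1 hW
  have w1 := h.res s1 s3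
  have w2 := h.res sdiff_subset (maps_sdiff h.fU s3)
  have c0 := h.card
  have c1 := w1.card
  have c2 := w2.card
  have c3 := card_X_split h W
  have c4 := card_sdiff_add_card_eq_card s1
  refine ⟨w1, w2, s2, ?_, ?_, ?_⟩
  · rw [← s2]
    ext z
    simp only [Cfg.res, mem_inter, mem_sdiff, not_and]
    exact ⟨fun e => ⟨e.1, fun _ => e.2.2⟩, fun e => ⟨e.1, h.sub e.1, e.2 e.1⟩⟩
  · rw [← s2] at s4
    change W.card = (K.X ∩ W).card + _ at c1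
    omega
  · rw [← s2] at s4
    change (K.U \ W).card = (K.X ∩ (K.U \ W)).card + _ at c2
    omega

theorem card_Inv {K : Cfg D} (h : WF K) {S : Finset D} (hS : S ⊆ K.X) (hf : ∀ z ∈ S, K.f z ∈ S)
    (v : ℕ) : (Inv K S v).card = K.m.choose v := by
  classical
  have four : ∀ T : Finset D, T ⊆ K.U \ K.X → (∀ z ∈ T, K.f z ∈ T) →
      4 * (T.image (Quotient.mk (sc K.f))).card = T.card := fun T hT hf => by
    have := cnt_four K.f _ T rfl hf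
      fun z hz => h.four z (mem_sdiff.1 (hT hz)).1 (mem_sdiff.1 (hT hz)).2
    unfold cnt at this
    convert this
  have hQ : ((K.U \ K.X).image (Quotient.mk (sc K.f))).card = K.m := by
    have h1 := four _ Subset.rfl fun z hz => h.fI hz
    rw [card_sdiff_of_subset h.sub] at h1
    have := h.card
    omega
  rw [← hQ, ← card_powersetCard]
  have back : ∀ W ∈ Inv K S v, ∀ z, z ∈ W ↔ z ∈ S ∨ z ∈ K.U \ K.X ∧
      Quotient.mk (sc K.f) z ∈ (W \ K.X).image (Quotient.mk (sc K.f)) := by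
    intro W hW z
    obtain ⟨s1, s2, s3, -⟩ := dInv.1 hW
    constructor
    · intro hz
      by_cases c : z ∈ K.X
      · exact Or.inl (s2 ▸ mem_inter.2 ⟨c, hz⟩)
      · exact Or.inr ⟨mem_sdiff.2 ⟨s1 hz, c⟩, mem_image_of_mem _ (mem_sdiff.2 ⟨hz, c⟩)⟩
    · rintro (hz | ⟨-, hz⟩)
      · exact (mem_inter.1 (s2 ▸ hz)).2
      · obtain ⟨y, hy, e⟩ := mem_image.1 hz
        exact sc_mem s3 (mem_sdiff.1 hy).1 (Quotient.exact e)
  refine card_bij (fun W _ => (W \ K.X).image (Quotient.mk (sc K.f))) (fun W hW => ?_)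
    (fun W hW W' hW' e => ?_) fun T hT => ?_
  · obtain ⟨s1, s2, s3, s4⟩ := dInv.1 hW
    have h1 := four (W \ K.X) (sdiff_subset_sdiff s1 Subset.rfl) (maps_sdiff s3 h.fX)
    have h2 := card_inter_add_card_sdiff W K.X
    rw [inter_comm, s2] at h2
    exact mem_powersetCard.2 ⟨image_subset_image (sdiff_subset_sdiff s1 Subset.rfl), by omega⟩
  · ext z
    rw [back W hW, back W' hW', e]
  · obtain ⟨t1, t2⟩ := mem_powersetCard.1 hT
    set R := (K.U \ K.X).filter fun z => Quotient.mk (sc K.f) z ∈ T with hR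
    have r1 : R ⊆ K.U \ K.X := filter_subset _ _
    have r2 : ∀ z ∈ R, K.f z ∈ R := fun z hz => mem_filter.2 ⟨h.fI (r1 hz), by
      rw [← Quotient.sound (s := sc K.f) (sc_step K.f z)]; exact (mem_filter.1 hz).2⟩
    have r3 : R.image (Quotient.mk (sc K.f)) = T := by
      ext q
      constructor
      · intro hq
        obtain ⟨z, hz, rfl⟩ := mem_image.1 hq
        exact (mem_filter.1 hz).2
      · intro hq
        obtain ⟨z, hz, rfl⟩ := mem_image.1 (t1 hq)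
        exact mem_image_of_mem _ (mem_filter.2 ⟨hz, hq⟩)
    have r4 := four R r1 r2
    have r5 : Disjoint S R := disjoint_left.2 fun z hz hz' => (mem_sdiff.1 (r1 hz')).2 (hS hz)
    have r6 : (S ∪ R) \ K.X = R := by
      ext z
      simp only [mem_sdiff, mem_union]
      exact ⟨fun e => e.1.resolve_left fun d => e.2 (hS d),
        fun e => ⟨Or.inr e, (mem_sdiff.1 (r1 e)).2⟩⟩
    refine ⟨S ∪ R, dInv.2 ⟨union_subset (hS.trans h.sub) (r1.trans sdiff_subset), ?_,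
      fun z hz => ?_, ?_⟩, ?_⟩
    · ext z
      simp only [mem_inter, mem_union]
      exact ⟨fun e => e.2.resolve_right fun d => (mem_sdiff.1 (r1 d)).2 e.1,
        fun e => ⟨hS e, Or.inl e⟩⟩
    · rcases mem_union.1 hz with c | c
      exacts [mem_union_left _ (hf z c), mem_union_right _ (r2 z c)]
    · rw [card_union_of_disjoint r5, ← r4, r3, t2]
    · simp only [r6, r3]

lemma mul_on {K : Cfg D} {W : Finset D} {a1 a2 : Perm D} (h1 : a1 ∈ VS (K.res W))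
    (h2 : a2 ∈ VS (K.res (K.U \ W))) :
    (∀ z ∈ W, (a1 * a2) z = a1 z) ∧ ∀ z, z ∉ W → (a1 * a2) z = a2 z := by
  obtain ⟨p1, s1⟩ := dVS.1 h1
  obtain ⟨p2, s2⟩ := dVS.1 h2
  refine ⟨fun z hz => ?_, fun z hz => ?_⟩
  · rw [mul_apply, s2 z fun e => (mem_sdiff.1 e).2 hz]
  · rw [mul_apply]
    by_cases c : z ∈ K.U \ W
    · exact s1 _ (mem_sdiff.1 (p2.aU z c)).2
    · rw [s2 z c]; exact s1 z hz

theorem mul_mem_VS {K : Cfg D} (h : WF K) {S W : Finset D} {v : ℕ} (hW : W ∈ Inv K S v)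
    {a1 a2 : Perm D} (h1 : a1 ∈ VS (K.res W)) (h2 : a2 ∈ VS (K.res (K.U \ W))) :
    a1 * a2 ∈ VS K := by
  obtain ⟨s1, -, s3, -⟩ := dInv.1 hW
  obtain ⟨w1, w2, -⟩ := Inv_spec h hW
  obtain ⟨m1, m2⟩ := mul_on h1 h2
  refine dVS.2 ⟨dec_to h s1 s3 ((dVS.1 h1).1.congr w1 w1.sub m1)
    ((dVS.1 h2).1.congr w2 w2.sub fun z hz => m2 z (mem_sdiff.1 hz).2), fun u hu => ?_⟩
  rw [m2 u fun e => hu (s1 e)]
  exact (dVS.1 h2).2 u fun e => hu (mem_sdiff.1 e).1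

lemma Inv_eq_cmpS {K : Cfg D} {S W : Finset D} {v : ℕ} (hW : W ∈ Inv K S v)
    {a1 a2 : Perm D} (h1 : a1 ∈ VS (K.res W)) (h2 : a2 ∈ VS (K.res (K.U \ W))) :
    W = cmpS K (a1 * a2) S := by
  obtain ⟨s1, s2, s3, -⟩ := dInv.1 hW
  obtain ⟨m1, -⟩ := mul_on h1 h2
  have p := (dVS.1 h1).1
  ext u
  rw [mem_cmpS]
  constructor
  · intro hu
    obtain ⟨x, hx, c⟩ := p.con u hu
    exact ⟨s1 hu, x, s2 ▸ hx, (conn_congr p.aU s3 m1 (fun _ _ => rfl) hu).2 c⟩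
  · rintro ⟨-, x, hx, c⟩
    exact conn_mem (fun z hz => by rw [m1 z hz]; exact p.aU z hz) s3 (mem_inter.1 (s2 ▸ hx)).2
      ((conn _ _).symm c)

/-- the support of the component is determined by the gluing -/
theorem Inv_uniq {K : Cfg D} (h : WF K) {S W W' : Finset D} {v v' : ℕ} (hW : W ∈ Inv K S v)
    (hW' : W' ∈ Inv K S v') {a1 a2 b1 b2 : Perm D} (h1 : a1 ∈ VS (K.res W))
    (h2 : a2 ∈ VS (K.res (K.U \ W))) (h3 : b1 ∈ VS (K.res W')) (h4 : b2 ∈ VS (K.res (K.U \ W')))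
    (e : a1 * a2 = b1 * b2) : W = W' ∧ a1 = b1 ∧ a2 = b2 := by
  obtain rfl : W = W' := by rw [Inv_eq_cmpS hW h1 h2, e, ← Inv_eq_cmpS hW' h3 h4]
  have e1 : a1 = b1 := Equiv.ext fun z => by
    by_cases c : z ∈ W
    · rw [← (mul_on h1 h2).1 z c, e, (mul_on h3 h4).1 z c]
    · rw [(dVS.1 h1).2 z c, (dVS.1 h3).2 z c]
  exact ⟨rfl, e1, mul_left_cancel (e1 ▸ e)⟩

lemma exists_dec {K : Cfg D} (h : WF K) {S : Finset D} (hS : S ⊆ K.X) (hf : ∀ z ∈ S, K.f z ∈ S)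
    {a : Perm D} (ha : a ∈ VS K) : ∃ v ∈ range (K.m + 1), ∃ W ∈ Inv K S v,
      ∃ a1 ∈ VS (K.res W), ∃ a2 ∈ VS (K.res (K.U \ W)), a1 * a2 = a := by
  obtain ⟨p, s⟩ := dVS.1 ha
  obtain ⟨s1, s2, s3, s4⟩ := cmpS_spec h p hS hf
  generalize cmpS K a S = W at s1 s2 s3 s4
  have hW : W ∈ Inv K S (K.res W).m := dInv.2 ⟨s1, s2, s3, s2 ▸ (h.res s1 s3).card⟩
  obtain ⟨w1, w2, -, -, -, hm⟩ := Inv_spec h hW
  have i4 : ∀ z, a z ∈ W ↔ z ∈ W := fun z => (mem_iff_of_maps s4 z).symm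
  set a1 := ofSubtype (a.subtypePerm i4) with ha1
  have b1 : ∀ z ∈ W, a1 z = a z := fun z hz => ofSubtype_subtypePerm_of_mem i4 hz
  have b2 : ∀ z, z ∉ W → a1 z = z := fun z hz => ofSubtype_subtypePerm_of_not_mem i4 hz
  have b3 : ∀ z, z ∉ W → (a1⁻¹ * a) z = a z := fun z hz => by
    rw [mul_apply, inv_eq_iff_eq, b2 _ (mt (i4 z).1 hz)]
  refine ⟨_, mem_range.2 (by omega), W, hW, a1,
    dVS.2 ⟨(dec_of h p s1 s3 s4).congr w1 w1.sub b1, b2⟩, a1⁻¹ * a,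
    dVS.2 ⟨(dec_of h p sdiff_subset w2.fU (maps_sdiff p.aU s4)).congr w2 w2.sub
      fun z hz => b3 z (mem_sdiff.1 hz).2, fun u hu => ?_⟩, mul_inv_cancel_left _ _⟩
  by_cases c : u ∈ W
  · rw [mul_apply, inv_eq_iff_eq, b1 u c]
  · rw [b3 u c]
    exact s u fun e => hu (mem_sdiff.2 ⟨e, c⟩)

theorem sum_dec {K : Cfg D} (h : WF K) {S : Finset D} (hS : S ⊆ K.X) (hf : ∀ z ∈ S, K.f z ∈ S)
    (Φ : Perm D → ℝ) : ∑ a ∈ VS K, Φ a = ∑ v ∈ range (K.m + 1), ∑ W ∈ Inv K S v,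
      ∑ a1 ∈ VS (K.res W), ∑ a2 ∈ VS (K.res (K.U \ W)), Φ (a1 * a2) := by
  simp_rw [sum_sigma']
  symm
  refine sum_bij (fun t _ => t.2.2.1 * t.2.2.2) (fun t ht => ?_) (fun t ht t' ht' e => ?_)
    (fun a ha => ?_) fun _ _ => rfl
  · simp only [mem_sigma] at ht
    exact mul_mem_VS h ht.2.1 ht.2.2.1 ht.2.2.2
  · obtain ⟨v, W, a1, a2⟩ := t
    obtain ⟨v', W', b1, b2⟩ := t'
    simp only [mem_sigma] at ht ht' e
    obtain ⟨rfl, rfl, rfl⟩ := Inv_uniq h ht.2.1 ht'.2.1 ht.2.2.1 ht.2.2.2 ht'.2.2.1 ht'.2.2.2 e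
    obtain rfl : v = v' := (Inv_spec h ht.2.1).2.2.2.2.1.symm.trans (Inv_spec h ht'.2.1).2.2.2.2.1
    rfl
  · obtain ⟨v, hv, W, hW, a1, h1, a2, h2, e⟩ := exists_dec h hS hf ha
    exact ⟨⟨v, W, a1, a2⟩, by simp only [mem_sigma]; exact ⟨hv, hW, h1, h2⟩, e⟩

theorem Holes.res {K : Cfg D} (w : WF K) {l1 l2 : List (List D)} (h : Holes K (l1 ++ l2))
    {W : Finset D} {v : ℕ} (hW : W ∈ Inv K l1.flatten.toFinset v) :
    Holes (K.res W) l1 ∧ Holes (K.res (K.U \ W)) l2 := by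
  obtain ⟨-, -, e1, e2, -⟩ := Inv_spec w hW
  have nd := h.nd
  rw [List.flatten_append, List.nodup_append] at nd
  refine ⟨⟨fun l hl => h.cyc l (List.mem_append_left _ hl), nd.1, fun x => ?_⟩,
    ⟨fun l hl => h.cyc l (List.mem_append_right _ hl), nd.2.1, fun x => ?_⟩⟩
  · rw [e1, List.mem_toFinset]
  · rw [e2, mem_sdiff, h.mem, List.flatten_append, List.mem_append, List.mem_toFinset]
    exact ⟨fun e => e.1.resolve_left e.2, fun e => ⟨Or.inr e, fun d => nd.2.2 x d x e rfl⟩⟩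

end Pool.Agent.Lib.MP_abd955_pr
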