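import Pool.Agent.Lib.MP_abd955_pr.StepA0

namespace Pool.Agent.Lib.MP_abd955_pr

open Enum PowerSeries Finset Filter Topology Step

def stepEquiv : (Unit ⊕ ℕ ⊕ ℕ ⊕ ℕ ⊕ ℕ ⊕ (ℕ × ℕ) ⊕ (ℕ × ℕ) ⊕ (ℕ × ℕ)) ≃ Step where
  toFun x := match x with
    | .inl _ => .N
    | .inr (.inl a) => .R1 a
    | .inr (.inr (.inl a)) => .L2 a
    | .inr (.inr (.inr (.inl a))) => .R2 a
    | .inr (.inr (.inr (.inr (.inl a)))) => .L1 a
    | .inr (.inr (.inr (.inr (.inr (.inl a))))) => .RR a.1 a.2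
    | .inr (.inr (.inr (.inr (.inr (.inr (.inl a)))))) => .LR a.1 a.2
    | .inr (.inr (.inr (.inr (.inr (.inr (.inr a)))))) => .LL a.1 a.2
  invFun t := match t with
    | .N => .inl ()
    | .R1 a => .inr (.inl a)
    | .L2 a => .inr (.inr (.inl a))
    | .R2 a => .inr (.inr (.inr (.inl a)))
    | .L1 a => .inr (.inr (.inr (.inr (.inl a))))
    | .RR a b => .inr (.inr (.inr (.inr (.inr (.inl (a, b))))))
    | .LR a b => .inr (.inr (.inr (.inr (.inr (.inr (.inl (a, b)))))))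
    | .LL a b => .inr (.inr (.inr (.inr (.inr (.inr (.inr (a, b)))))))
  left_inv x := by
    rcases x with _ | a | a | a | a | a | a | a <;> rfl
  right_inv t := by cases t <;> rfl

instance : Countable Step := stepEquiv.symm.countable_iff.2 inferInstance

lemma hasSum_step (f : Step → ℝ) {s1 s2 s3 s4 s5 s6 s7 : ℝ}
    (h1 : HasSum (fun a => f (.R1 a)) s1) (h2 : HasSum (fun a => f (.L2 a)) s2)
    (h3 : HasSum (fun a => f (.R2 a)) s3) (h4 : HasSum (fun a => f (.L1 a)) s4)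
    (h5 : HasSum (fun a : ℕ × ℕ => f (.RR a.1 a.2)) s5)
    (h6 : HasSum (fun a : ℕ × ℕ => f (.LR a.1 a.2)) s6)
    (h7 : HasSum (fun a : ℕ × ℕ => f (.LL a.1 a.2)) s7) :
    HasSum f (f .N + (s1 + (s2 + (s3 + (s4 + (s5 + (s6 + s7))))))) := by
  rw [← stepEquiv.hasSum_iff]
  refine HasSum.sum ?_ (HasSum.sum h1 (HasSum.sum h2 (HasSum.sum h3 (HasSum.sum h4
    (HasSum.sum h5 (HasSum.sum h6 h7))))))
  exact hasSum_unique _

lemma hs_congr' {ι : Type} {f g : ι → ℝ} {a b : ℝ} (h : HasSum f a) (hf : ∀ n, g n = f n)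
    (ha : b = a) : HasSum g b := by
  rw [ha, funext hf]; exact h

lemma hasSum_prod_nonneg {ι κ : Type} {f : ι × κ → ℝ} {g : ι → ℝ} {s : ℝ} (hf : ∀ x, 0 ≤ f x)
    (h1 : ∀ a, HasSum (fun b => f (a, b)) (g a)) (h2 : HasSum g s) : HasSum f s := by
  have h3 : Summable f := (summable_prod_of_nonneg hf).2 ⟨fun a => (h1 a).summable, by
    simp only [fun a => (h1 a).tsum_eq]; exact h2.summable⟩
  rw [h2.unique (h3.hasSum.prod_fiberwise h1)]
  exact h3.hasSum

lemma hasSum_mul2 {a b : ℕ → ℝ} {A B : ℝ} (ha : ∀ n, 0 ≤ a n) (hb : ∀ n, 0 ≤ b n)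
    (hA : HasSum a A) (hB : HasSum b B) :
    HasSum (fun x : ℕ × ℕ => a x.1 * b x.2) (A * B) :=
  hasSum_prod_nonneg (fun x => mul_nonneg (ha _) (hb _)) (fun n => hB.mul_left (a n))
    (hA.mul_right B)

lemma hasSum_spr {f : ℕ → ℝ} {s : ℝ} (h : HasSum (fun p => z p * f (2 * p)) s) :
    HasSum (fun l => zl l * f l) s := by
  have h1 : HasSum (fun p => zl (2 * p) * f (2 * p)) s := by simpa only [zl_two_mul] using h
  have h2 : HasSum (fun p => zl (2 * p + 1) * f (2 * p + 1)) 0 :=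
    hs_congr hasSum_zero (fun p => by rw [zl_odd (by simp), zero_mul]) rfl
  simpa using HasSum.even_add_odd (f := fun l => zl l * f l) h1 h2

lemma hasSum_sh1 {f : ℕ → ℝ} {s : ℝ} (h : HasSum (fun l => zl l * f l) s) :
    HasSum (fun a => zl (a + 1) * f (a + 1)) s := by
  simpa [zl_zero] using (hasSum_nat_add_iff' 1).2 h

lemma hasSum_sh2 {f : ℕ → ℝ} {s : ℝ} (h : HasSum (fun l => zl l * f l) s) :
    HasSum (fun a => zl (a + 2) * f (a + 2)) s := by
  simpa [zl_zero, zl_one, sum_range_succ] using (hasSum_nat_add_iff' 2).2 h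

lemma hasSum_zl' : HasSum (fun l => zl l * 1) (1 / 3) :=
  hasSum_spr (f := fun _ => 1) (by simpa using hasSum_z)

lemma hasSum_zl : HasSum zl (1 / 3) := by simpa using hasSum_zl'

lemma hasSum_zl1 : HasSum (fun a => zl (a + 1)) (1 / 3) := by
  simpa using hasSum_sh1 (f := fun _ => 1) hasSum_zl'

lemma hasSum_zl2 : HasSum (fun a => zl (a + 2)) (1 / 3) := by
  simpa using hasSum_sh2 (f := fun _ => 1) hasSum_zl'

lemma hasSum_zl_mul : HasSum (fun l : ℕ => zl l * l) (8 / 9) :=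
  hasSum_spr (f := fun l => l)
    (hs_congr (hasSum_mul_z.mul_left 2) (fun p => by push_cast; ring) (by norm_num))

lemma w_N : w .N = 3 / 8 := by simp [w, Step.fin]
lemma w_R1 (a : ℕ) : w (.R1 a) = 3 / 8 * zl (a + 2) := by simp [w, Step.fin]
lemma w_L2 (a : ℕ) : w (.L2 a) = 3 / 8 * zl (a + 1) := by simp [w, Step.fin]
lemma w_R2 (a : ℕ) : w (.R2 a) = 3 / 8 * zl (a + 1) := by simp [w, Step.fin]
lemma w_L1 (a : ℕ) : w (.L1 a) = 3 / 8 * zl (a + 2) := by simp [w, Step.fin]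
lemma w_RR (a b : ℕ) : w (.RR a b) = 3 / 8 * (zl (a + 1) * zl (b + 1)) := by simp [w, Step.fin]
lemma w_LR (a b : ℕ) : w (.LR a b) = 3 / 8 * (zl (a + 1) * zl (b + 1)) := by simp [w, Step.fin]
lemma w_LL (a b : ℕ) : w (.LL a b) = 3 / 8 * (zl (a + 1) * zl (b + 1)) := by simp [w, Step.fin]

/-- expectation of a function of the type of the step -/
lemma hasSum_type (g : Step → ℝ) (c1 c2 c3 c4 c5 c6 c7 : ℝ) (h1 : ∀ a, g (.R1 a) = c1)
    (h2 : ∀ a, g (.L2 a) = c2) (h3 : ∀ a, g (.R2 a) = c3) (h4 : ∀ a, g (.L1 a) = c4)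
    (h5 : ∀ a b, g (.RR a b) = c5) (h6 : ∀ a b, g (.LR a b) = c6) (h7 : ∀ a b, g (.LL a b) = c7) :
    HasSum (fun t => w t * g t)
      (3 / 8 * g .N + (c1 + c2 + c3 + c4) / 8 + (c5 + c6 + c7) / 24) := by
  have hh := hasSum_mul2 (fun a => zl_nonneg (a + 1)) (fun a => zl_nonneg (a + 1))
    hasSum_zl1 hasSum_zl1
  refine hs_congr' (hasSum_step (fun t => w t * g t)
    (hs_congr (hasSum_zl2.mul_left (3 / 8 * c1)) (fun a => by rw [w_R1, h1]; ring) rfl)
    (hs_congr (hasSum_zl1.mul_left (3 / 8 * c2)) (fun a => by rw [w_L2, h2]; ring) rfl)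
    (hs_congr (hasSum_zl1.mul_left (3 / 8 * c3)) (fun a => by rw [w_R2, h3]; ring) rfl)
    (hs_congr (hasSum_zl2.mul_left (3 / 8 * c4)) (fun a => by rw [w_L1, h4]; ring) rfl)
    (hs_congr' (hh.mul_left (3 / 8 * c5)) (fun a => by rw [w_RR, h5]; ring) rfl)
    (hs_congr' (hh.mul_left (3 / 8 * c6)) (fun a => by rw [w_LR, h6]; ring) rfl)
    (hs_congr' (hh.mul_left (3 / 8 * c7)) (fun a => by rw [w_LL, h7]; ring) rfl))
    (fun _ => rfl) ?_
  rw [w_N]; ring

theorem hasSum_w : HasSum w 1 :=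
  hs_congr' (hasSum_type (fun _ => 1) 1 1 1 1 1 1 1 (fun _ => rfl) (fun _ => rfl) (fun _ => rfl)
    (fun _ => rfl) (fun _ _ => rfl) (fun _ _ => rfl) (fun _ _ => rfl)) (fun t => by ring)
    (by norm_num)

theorem hasSum_wv2 : HasSum (fun x : Step × ℕ => wv x.1 x.2) 1 :=
  hasSum_prod_nonneg (fun x => wv_nonneg _ _) (fun t => hasSum_wv t) hasSum_w

lemma hasSum_nw : HasSum (fun t => w t * (t.nw : ℝ)) 2 :=
  hs_congr' (hasSum_type (fun t => (t.nw : ℝ)) 1 2 2 1 1 1 1 (fun _ => by simp [nw])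
    (fun _ => by simp [nw]) (fun _ => by simp [nw]) (fun _ => by simp [nw])
    (fun _ _ => by simp [nw]) (fun _ _ => by simp [nw]) (fun _ _ => by simp [nw]))
    (fun _ => rfl) (by norm_num [nw])

/-- expectation of an additive function of the finite holes -/
lemma hasSum_fin {φ : ℕ → ℝ} {B : ℝ} (hφ : ∀ l, 0 ≤ φ l) (hB : HasSum (fun l => zl l * φ l) B) :
    HasSum (fun t => w t * (t.fin.map φ).sum) (9 / 4 * B) := by
  have a1 := hasSum_sh1 hB
  have a2 := hasSum_sh2 hB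
  have n1 : ∀ a, 0 ≤ zl (a + 1) := fun a => zl_nonneg _
  have n2 : ∀ a, 0 ≤ zl (a + 1) * φ (a + 1) := fun a => mul_nonneg (zl_nonneg _) (hφ _)
  have hh := ((hasSum_mul2 n2 n1 a1 hasSum_zl1).add (hasSum_mul2 n1 n2 hasSum_zl1 a1)).mul_left
    (3 / 8)
  refine hs_congr' (hasSum_step (fun t => w t * (t.fin.map φ).sum)
    (hs_congr (a2.mul_left (3 / 8)) (fun a => by simp [w_R1, Step.fin, mul_assoc]) rfl)
    (hs_congr (a1.mul_left (3 / 8)) (fun a => by simp [w_L2, Step.fin, mul_assoc]) rfl)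
    (hs_congr (a1.mul_left (3 / 8)) (fun a => by simp [w_R2, Step.fin, mul_assoc]) rfl)
    (hs_congr (a2.mul_left (3 / 8)) (fun a => by simp [w_L1, Step.fin, mul_assoc]) rfl)
    (hs_congr' hh (fun a => by simp only [w_RR, Step.fin, List.map, List.sum_cons, List.sum_nil]; ring) rfl)
    (hs_congr' hh (fun a => by simp only [w_LR, Step.fin, List.map, List.sum_cons, List.sum_nil]; ring) rfl)
    (hs_congr' hh (fun a => by simp only [w_LL, Step.fin, List.map, List.sum_cons, List.sum_nil]; ring) rfl))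
    (fun _ => rfl) ?_
  simp only [Step.fin, List.map_nil, List.sum_nil]; ring

lemma fin_sum_add (t : Step) : t.fin.sum + t.nw = t.sL + t.sR + 3 := by
  cases t <;> simp [Step.fin, nw, sL, sR] <;> omega

lemma nw_le (t : Step) : t.nw ≤ 3 := by cases t <;> simp [nw]
lemma one_le_nw (t : Step) : 1 ≤ t.nw := by cases t <;> simp [nw]

lemma hasSum_fin_sum : HasSum (fun t => w t * (t.fin.sum : ℕ)) 2 :=
  hs_congr' (hasSum_fin (φ := fun l => l) (fun l => l.cast_nonneg) hasSum_zl_mul)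
    (fun t => by rw [Nat.cast_list_sum]) (by norm_num)

theorem hasSum_LR : HasSum (fun t => w t * (t.sL + t.sR : ℕ)) 1 := by
  refine hs_congr' ((hasSum_fin_sum.add hasSum_nw).sub (hasSum_w.mul_right 3)) (fun t => ?_)
    (by norm_num)
  have h : ((t.fin.sum + t.nw : ℕ) : ℝ) = ((t.sL + t.sR + 3 : ℕ) : ℝ) := by rw [fin_sum_add]
  rw [Nat.cast_add, Nat.cast_add (t.sL + t.sR)] at h
  linear_combination (-w t) * h

/-- increment of the length -/
noncomputable def xi (t : Step) : ℝ := t.nw - 1 - (t.sL + t.sR : ℕ)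

lemma hasSum_xi : HasSum (fun t => w t * xi t) 0 :=
  hs_congr' ((hasSum_nw.sub hasSum_w).sub hasSum_LR) (fun t => by rw [xi]; ring) (by norm_num)

/-- expectation of a monotone function of the number of swallowed darts -/
lemma E_mono {f : ℕ → ℝ} {B : ℝ} (h0 : ∀ n, 0 ≤ f n) (hm : Monotone f)
    (hB : ∀ N, ∑ p ∈ range N, z p * f (4 * p) ≤ B) :
    Summable (fun t => w t * f (t.sL + t.sR)) ∧
      ∑' t, w t * f (t.sL + t.sR) ≤ f 0 + 9 / 4 * B := by
  have hn : ∀ p, 0 ≤ z p * f (4 * p) := fun p => mul_nonneg (z_nonneg p) (h0 _)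
  have h1 := summable_of_sum_range_le hn hB
  have h2 : ∑' p, z p * f (4 * p) ≤ B := Real.tsum_le_of_sum_range_le hn hB
  have h3 : HasSum (fun l => zl l * f (2 * l)) (∑' p, z p * f (4 * p)) :=
    hasSum_spr (f := fun l => f (2 * l))
      (hs_congr h1.hasSum (fun p => by rw [show 2 * (2 * p) = 4 * p by ring]) rfl)
  have h4 := (hasSum_w.mul_right (f 0)).add (hasSum_fin (φ := fun l => f (2 * l)) (fun l => h0 _) h3)
  have two : ∀ a b, f (a + b) ≤ f 0 + (f (2 * (a + 1)) + (f (2 * (b + 1)) + 0)) := by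
    intro a b
    rcases le_total a b with h | h
    · have := hm (show a + b ≤ 2 * (b + 1) by omega)
      linarith [h0 0, h0 (2 * (a + 1))]
    · have := hm (show a + b ≤ 2 * (a + 1) by omega)
      linarith [h0 0, h0 (2 * (b + 1))]
  have one : ∀ a c, f a ≤ f 0 + (f (2 * (a + c)) + 0) := by
    intro a c
    have := hm (show a ≤ 2 * (a + c) by omega)
    linarith [h0 0]
  have h5 : ∀ t : Step, f (t.sL + t.sR) ≤ f 0 + (t.fin.map fun l => f (2 * l)).sum := by
    intro t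
    cases t with
    | N => simp [sL, sR, Step.fin]
    | R1 a => simpa only [sL, sR, Step.fin, zero_add, List.map, List.sum_cons, List.sum_nil] using one a 2
    | L2 a => simpa only [sL, sR, Step.fin, add_zero a, List.map, List.sum_cons, List.sum_nil] using one a 1
    | R2 a => simpa only [sL, sR, Step.fin, zero_add, List.map, List.sum_cons, List.sum_nil] using one a 1
    | L1 a => simpa only [sL, sR, Step.fin, add_zero a, List.map, List.sum_cons, List.sum_nil] using one a 2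
    | RR a b => simpa only [sL, sR, Step.fin, zero_add, List.map, List.sum_cons, List.sum_nil] using two a b
    | LR a b => simpa only [sL, sR, Step.fin, add_comm b a, List.map, List.sum_cons, List.sum_nil] using two a b
    | LL a b => simpa only [sL, sR, Step.fin, add_zero (a + b), List.map, List.sum_cons, List.sum_nil] using two a b
  have h6 : ∀ t : Step, w t * f (t.sL + t.sR) ≤
      w t * f 0 + w t * (t.fin.map fun l => f (2 * l)).sum := fun t => by
    rw [← mul_add]; exact mul_le_mul_of_nonneg_left (h5 t) (w_nonneg t)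
  have h7 : Summable (fun t => w t * f (t.sL + t.sR)) :=
    Summable.of_nonneg_of_le (fun t => mul_nonneg (w_nonneg t) (h0 _)) h6 h4.summable
  refine ⟨h7, (hasSum_le h6 h7.hasSum h4).trans ?_⟩
  linarith

lemma hasSum_cv (a g : ℕ → ℝ) (hg : g 0 = 0) (M : ℕ) :
    HasSum (fun k => a k * g (M - k)) (cv a g M) := by
  rw [cv, Finset.Nat.sum_antidiagonal_eq_sum_range_succ (fun x y => a x * g y)]
  refine hasSum_sum_of_ne_finset_zero fun k hk => ?_
  rw [mem_range] at hk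
  rw [show M - k = 0 by omega, hg, mul_zero]

lemma hl_harm (l : ℕ) (h1 : 1 ≤ l) :
    hl l = 3 / 8 * (hl (l + 2) + 4 * cv zl hl (l + 2) + 3 * cv zl (cv zl hl) (l + 2)) := by
  have h2 := congrArg (PowerSeries.expand 2 two_ne_zero) harm1
  have e1 : PowerSeries.expand 2 two_ne_zero Zs = PowerSeries.mk zl := (mk_spr z).symm
  have e2 : PowerSeries.expand 2 two_ne_zero Hs = PowerSeries.mk hl := (mk_spr h).symm
  simp only [map_mul, map_add, map_ofNat, expand_X, e1, e2] at h2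
  have h3 := congrArg (coeff (l + 2)) h2
  rw [← mk_cv, ← mk_cv] at h3
  simp only [map_add, mul_assoc, coeff_ofNat_mul, coeff_X_pow_mul, coeff_mk, coeff_X_pow] at h3
  rw [if_neg (by omega)] at h3
  linarith

lemma cv_zl_zero (g : ℕ → ℝ) : cv zl g 0 = 0 := by simp [cv, zl_zero]

theorem hasSum_harm' (l : ℕ) (h1 : 1 ≤ l) : HasSum (fun t => w t * hl (nl l t)) (hl l) := by
  have a := hasSum_cv zl hl hl_zero (l + 2)
  have a1 := (hasSum_sh1 (f := fun k => hl (l + 2 - k)) a).mul_left (3 / 8)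
  have a2 := (hasSum_sh2 (f := fun k => hl (l + 2 - k)) a).mul_left (3 / 8)
  have b : HasSum (fun x : ℕ × ℕ => zl (x.1 + 1) * (zl (x.2 + 1) * hl (l - x.1 - x.2)))
      (cv zl (cv zl hl) (l + 2)) := by
    refine hasSum_prod_nonneg (g := fun a => zl (a + 1) * cv zl hl (l + 2 - (a + 1)))
      (fun x => mul_nonneg (zl_nonneg _) (mul_nonneg (zl_nonneg _) (hl_nonneg _))) (fun a => ?_)
      (hasSum_sh1 (f := fun k => cv zl hl (l + 2 - k)) (hasSum_cv zl _ (cv_zl_zero hl) (l + 2)))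
    refine hs_congr ((hasSum_sh1 (f := fun k => hl (l + 2 - (a + 1) - k))
      (hasSum_cv zl hl hl_zero (l + 2 - (a + 1)))).mul_left (zl (a + 1))) (fun b => ?_) rfl
    rw [show l + 2 - (a + 1) - (b + 1) = l - a - b by omega]
  have b1 := b.mul_left (3 / 8)
  refine hs_congr' (hasSum_step (fun t => w t * hl (nl l t))
    (hs_congr a2 (fun a => ?_) rfl) (hs_congr a1 (fun a => ?_) rfl)
    (hs_congr a1 (fun a => ?_) rfl) (hs_congr a2 (fun a => ?_) rfl)
    (hs_congr' b1 (fun a => ?_) rfl) (hs_congr' b1 (fun a => ?_) rfl)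
    (hs_congr' b1 (fun a => ?_) rfl)) (fun _ => rfl) ?_
  · rw [w_R1, show nl l (.R1 a) = l + 2 - (a + 2) by simp only [nl, nw, sL, sR]; omega]; ring
  · rw [w_L2, show nl l (.L2 a) = l + 2 - (a + 1) by simp only [nl, nw, sL, sR]; omega]; ring
  · rw [w_R2, show nl l (.R2 a) = l + 2 - (a + 1) by simp only [nl, nw, sL, sR]; omega]; ring
  · rw [w_L1, show nl l (.L1 a) = l + 2 - (a + 2) by simp only [nl, nw, sL, sR]; omega]; ring
  · rw [w_RR, show nl l (.RR a.1 a.2) = l - a.1 - a.2 by simp only [nl, nw, sL, sR]; omega]; ring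
  · rw [w_LR, show nl l (.LR a.1 a.2) = l - a.1 - a.2 by simp only [nl, nw, sL, sR]; omega]; ring
  · rw [w_LL, show nl l (.LL a.1 a.2) = l - a.1 - a.2 by simp only [nl, nw, sL, sR]; omega]; ring
  · rw [w_N, show nl l .N = l + 2 by simp only [nl, nw, sL, sR]; omega]
    linear_combination hl_harm l h1

theorem hasSum_harm (l : ℕ) (_h : Even l) (h2 : 2 ≤ l) :
    HasSum (fun t => w t * hl (nl l t)) (hl l) := hasSum_harm' l (by omega)

lemma nl_le (l : ℕ) (t : Step) : nl l t ≤ l + 2 := by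
  have := nw_le t
  unfold nl; omega

theorem hl_nl_le (l : ℕ) (h : Even l) (h2 : 2 ≤ l) (t : Step) : hl (nl l t) ≤ 2 * hl l := by
  obtain ⟨p, rfl⟩ := h.two_dvd
  have h1 := nl_le (2 * p) t
  have h3 : Enum.h (nl (2 * p) t / 2) ≤ Enum.h (p + 1) := h_mono (by omega)
  have h4 := h_ratio_upper p (by omega)
  have h5 : (1 : ℝ) ≤ p := by exact_mod_cast (show 1 ≤ p by omega)
  have h6 := h_nonneg p
  rw [hl_two_mul]
  refine (hl_le _).trans (h3.trans ?_)
  refine le_of_mul_le_mul_right ?_ (show (0 : ℝ) < 2 * p by positivity)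
  nlinarith

theorem hl_nl_zero (l : ℕ) (h1 : 1 ≤ l) (t : Step) (h : l ≤ t.sL + t.sR) : hl (nl l t) = 0 := by
  have h2 : nl l t ≤ 1 := by
    cases t <;> simp only [nl, nw, sL, sR] at * <;> omega
  rcases Nat.le_one_iff_eq_zero_or_eq_one.1 h2 with h | h <;> rw [h]
  · exact hl_zero
  · exact hl_one

/-- splitting a sum against z at a threshold -/
lemma sum_z_split {f : ℕ → ℝ} {K : ℕ} (hK : 1 ≤ K) {a b c : ℝ} (ha : 0 ≤ a) (hb : 0 ≤ b)
    (hc : 0 ≤ c) (h1 : ∀ p, 1 ≤ p → p < K → f p ≤ a * (p : ℝ) ^ 2)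
    (h2 : ∀ p, K ≤ p → f p ≤ b * p + c) (N : ℕ) :
    ∑ p ∈ range N, z p * f p ≤ a * h K + b * (4 / 3 * (h K / K)) + c * (4 / 3 * (h K / K ^ 2)) := by
  have e : ∑ p ∈ range N, z p * f p ≤ ∑ p ∈ range N, ((if p < K then a * ((p : ℝ) ^ 2 * z p) else 0) +
      (if K ≤ p then b * (p * z p) + c * z p else 0)) := by
    refine sum_le_sum fun p _ => ?_
    rcases Nat.eq_zero_or_pos p with rfl | hp
    · simp [z_zero]
    by_cases hpK : p < K
    · rw [if_pos hpK, if_neg (by omega)]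
      nlinarith [mul_le_mul_of_nonneg_left (h1 p hp hpK) (z_nonneg p)]
    · rw [if_neg hpK, if_pos (by omega)]
      nlinarith [mul_le_mul_of_nonneg_left (h2 p (by omega)) (z_nonneg p)]
  refine e.trans ?_
  rw [sum_add_distrib, ← sum_filter, ← sum_filter, add_assoc]
  refine add_le_add ?_ ?_
  · refine le_trans (sum_le_sum_of_subset_of_nonneg (t := range K) ?_ fun p _ _ => ?_) ?_
    · intro p hp; simp only [mem_filter, mem_range] at *; exact hp.2
    · exact mul_nonneg ha (mul_nonneg (sq_nonneg _) (z_nonneg p))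
    · rw [← mul_sum]; exact mul_le_mul_of_nonneg_left (sum_sq_z K) ha
  · have e2 : (range N).filter (fun p => K ≤ p) = Ico K N := by
      ext p; simp only [mem_filter, mem_range, mem_Ico]; tauto
    rw [e2, sum_add_distrib, ← mul_sum, ← mul_sum]
    exact add_le_add (mul_le_mul_of_nonneg_left (sum_mul_z_tail K N hK) hb)
      (mul_le_mul_of_nonneg_left (sum_z_tail K N hK) hc)

/-- a threshold K with K between x^2 and 2 x^2 -/
lemma exists_thr {x : ℝ} (hx : 1 ≤ x) :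
    ∃ K : ℕ, 1 ≤ K ∧ x ^ 2 ≤ K ∧ h K ≤ 2 * x ∧ h K / K ≤ 2 / x ∧ h K / K ^ 2 ≤ 2 / x ^ 3 := by
  have hx2 : 1 ≤ x ^ 2 := one_le_pow₀ hx
  have h1 : x ^ 2 ≤ (⌈x ^ 2⌉₊ : ℕ) := Nat.le_ceil _
  have h2 : ((⌈x ^ 2⌉₊ : ℕ) : ℝ) < x ^ 2 + 1 := Nat.ceil_lt_add_one (by positivity)
  obtain ⟨K, hK⟩ : ∃ K : ℕ, K = ⌈x ^ 2⌉₊ := ⟨_, rfl⟩
  rw [← hK] at h1 h2
  have h3 := h_sq_le K
  have h4 : h K ≤ 2 * x := by
    refine abs_le_of_sq_le_sq' ?_ (by positivity) |>.2
    nlinarith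
  have hK0 : (0 : ℝ) < K := by linarith
  refine ⟨K, by exact_mod_cast (show (1 : ℝ) ≤ K by linarith), h1, h4, ?_, ?_⟩
  · rw [div_le_div_iff₀ hK0 (by positivity)]
    nlinarith
  · rw [div_le_div_iff₀ (by positivity) (by positivity)]
    have h5 : (x ^ 2) ^ 2 ≤ (K : ℝ) ^ 2 := pow_le_pow_left₀ (by positivity) h1 2
    have h6 : h K * x ^ 3 ≤ 2 * x * x ^ 3 := mul_le_mul_of_nonneg_right h4 (by positivity)
    nlinarith

/-- cost of a rare event inside the finite holes -/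
theorem cost_le : ∃ C : ℝ, 0 ≤ C ∧ ∀ η : ℝ, 0 < η → η ≤ 1 → ∀ b : Step → ℝ, (∀ t, 0 ≤ b t) →
    (∀ t, b t ≤ w t) → (∀ t, b t ≤ η ^ 4 * ∑' v : ℕ, (v : ℝ) * wv t v) → ∑' t, b t ≤ C * η ^ 3 := by
  refine ⟨200, by norm_num, fun η h0 h1 b hb0 hb1 hb2 => ?_⟩
  obtain ⟨K, hK1, -, hK3, -, hK5⟩ := exists_thr (x := 1 / η) (by rw [one_le_div h0]; exact h1)
  obtain ⟨f, hf⟩ : ∃ f : ℕ → ℝ, f = fun s : ℕ => min 1 (η ^ 4 * (9 / 8 * ((s : ℝ) + 2) ^ 2)) :=
    ⟨_, rfl⟩
  have f0 : ∀ s, 0 ≤ f s := fun s => by rw [hf]; exact le_min zero_le_one (by positivity)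
  have fm : Monotone f := by
    intro a c hac
    have : (a : ℝ) ≤ c := by exact_mod_cast hac
    rw [hf]
    exact min_le_min le_rfl (by gcongr)
  have hB := sum_z_split (f := fun p => f (4 * p)) hK1 (a := η ^ 4 * (9 / 8 * 36)) (b := 0) (c := 1)
    (by positivity) le_rfl zero_le_one
    (fun p hp _ => by
      have : (1 : ℝ) ≤ p := by exact_mod_cast hp
      rw [hf]
      refine (min_le_right _ _).trans ?_
      have h3 : (((4 * p : ℕ) : ℝ) + 2) ^ 2 ≤ 36 * (p : ℝ) ^ 2 := by push_cast; nlinarith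
      nlinarith [mul_le_mul_of_nonneg_left h3 (show 0 ≤ η ^ 4 by positivity)])
    (fun p _ => by rw [hf]; simp)
  obtain ⟨hs, hle⟩ := E_mono f0 fm hB
  have hbf : ∀ t, b t ≤ w t * f (t.sL + t.sR) := by
    intro t
    rw [hf, mul_min_of_nonneg _ _ (w_nonneg t)]
    refine le_min (by simpa using hb1 t) ((hb2 t).trans ?_)
    nlinarith [mul_le_mul_of_nonneg_left (tsum_vol_le t) (show 0 ≤ η ^ 4 by positivity)]
  refine ((Summable.of_nonneg_of_le hb0 hbf hs).tsum_le_tsum hbf hs).trans (hle.trans ?_)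
  have e1 : f 0 ≤ η ^ 4 * (9 / 2) := by
    rw [hf]; refine (min_le_right _ _).trans (le_of_eq ?_); push_cast; ring
  have e2 : η ^ 4 ≤ η ^ 3 := pow_le_pow_of_le_one h0.le h1 (by norm_num)
  have e3 : η ^ 4 * h K ≤ 2 * η ^ 3 := by
    have := mul_le_mul_of_nonneg_left hK3 (show 0 ≤ η ^ 4 by positivity)
    rwa [show η ^ 4 * (2 * (1 / η)) = 2 * η ^ 3 by field_simp] at this
  rw [show 2 / (1 / η) ^ 3 = 2 * η ^ 3 by field_simp] at hK5
  have e4 : 0 ≤ η ^ 3 := by positivity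
  nlinarith

end Pool.Agent.Lib.MP_abd955_pr
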