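import Pool.Agent.Lib.MP_abd955_pr.Raw
import Pool.Agent.Lib.MP_abd955_pr.Dec
import Pool.Agent.Lib.MP_abd955_pr.StepA

/-! The peeling decomposition of the set of gluings, and its cardinality. -/

namespace Pool.Agent.Lib.MP_abd955_pr

open Equiv Equiv.Perm Finset PowerSeries

set_option linter.unusedSectionVars false

variable {D : Type} [DecidableEq D] [Fintype D]

lemma mem_VS {K : Cfg D} {a : Perm D} : a ∈ VS K ↔ Pre K K.X a ∧ ∀ u, u ∉ K.U → a u = u := by
  simp [VS]

lemma swap_facts {U : Finset D} {K' : Cfg D} {x s : D} (hU : K'.U = (U.erase x).erase s)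
    {a : Perm D} (ha : a ∈ VS K') :
    (swap x s * a) x = s ∧ (swap x s * a) s = x ∧ (∀ u ∈ K'.U, (swap x s * a) u = a u) ∧
      ∀ u, u ∉ U → u ≠ x → u ≠ s → (swap x s * a) u = u := by
  obtain ⟨p, h⟩ := mem_VS.1 ha
  refine ⟨by simp [h x (by simp [hU])], by simp [h s (by simp [hU])], fun u hu => ?_,
    fun u hu h1 h2 => ?_⟩
  · have := p.aU u hu
    rw [hU] at this
    simp only [mem_erase] at this
    exact swap_apply_of_ne_of_ne this.2.1 this.1
  · rw [mul_apply, h u (by simp [hU, hu]), swap_apply_of_ne_of_ne h1 h2]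

open Classical in
lemma sum_swap {U : Finset D} {K' : Cfg D} (h : WF K') {x s : D} (hx : x ∈ U) (hs : s ∈ U)
    (hU : K'.U = (U.erase x).erase s) (Φ : Perm D → ℝ) :
    ∑ a : Perm D, (if a x = s ∧ a s = x ∧ Pre K' K'.X a ∧ ∀ u, u ∉ U → a u = u then Φ a else 0) =
      ∑ a ∈ VS K', Φ (swap x s * a) := by
  rw [← sum_filter]
  refine sum_bij' (fun a _ => swap x s * a) (fun a _ => swap x s * a) (fun a ha => ?_)
    (fun a ha => ?_) (fun a _ => by simp) (fun a _ => by simp) fun a _ => by simp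
  · obtain ⟨h1, h2, p, h3⟩ := (mem_filter.1 ha).2
    refine mem_VS.2 ⟨p.congr h h.sub fun u hu => ?_, fun u hu => ?_⟩
    · have := p.aU u hu
      rw [hU] at this
      simp only [mem_erase] at this
      exact swap_apply_of_ne_of_ne this.2.1 this.1
    · by_cases e1 : u = x
      · simp [e1, h1]
      by_cases e2 : u = s
      · simp [e2, h2]
      rw [mul_apply, h3 u (by simpa [hU, e1, e2] using hu), swap_apply_of_ne_of_ne e1 e2]
  · obtain ⟨a1, a2, a3, a4⟩ := swap_facts hU ha
    exact mem_filter.2 ⟨mem_univ _, a1, a2, (mem_VS.1 ha).1.congr h h.sub a3,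
      fun u hu => a4 u hu (fun e => hu (e ▸ hx)) fun e => hu (e ▸ hs)⟩

lemma Holes.ok {K : Cfg D} (h : WF K) {x s : D} {rest : List D} {ls : List (List D)}
    (hl : Holes K ((x :: rest) :: ls)) (hr : rest ≠ []) (hs : s ∈ K.U \ K.X) : PeelOk K x s := by
  refine ⟨h, hl.sub List.mem_cons_self List.mem_cons_self, (mem_sdiff.1 hs).1, (mem_sdiff.1 hs).2,
    ?_⟩
  obtain ⟨y, r, rfl⟩ := List.exists_cons_of_ne_nil hr
  have c := hl.cyc _ List.mem_cons_self
  rw [c.next (A := [])]
  exact fun e => (List.nodup_cons.1 c.1).1 (e ▸ List.mem_cons_self)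

theorem sum_peel {K : Cfg D} (h : WF K) {x : D} {rest : List D} {ls : List (List D)}
    (hl : Holes K ((x :: rest) :: ls)) (hr : rest ≠ []) (Φ : Perm D → ℝ) :
    ∑ a ∈ (VS K).filter (fun a => a x ∉ K.X), Φ a = ∑ s ∈ K.U \ K.X,
      ∑ ρ ∈ raws (rest.length + 1), ∑ a ∈ VS (K.raw x s rest ρ), Φ (swap x s * a) := by
  classical
  have hx := hl.sub List.mem_cons_self (x := x) List.mem_cons_self
  rw [sum_congr rfl fun s hs => sum_congr rfl fun ρ hρ => (sum_swap
    (raw_spec (hl.ok h hr hs) hl hρ).1 (h.sub hx) (mem_sdiff.1 hs).1 (raw_U _ _ _ _ _) Φ).symm]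
  rw [sum_congr rfl fun s _ => sum_comm, sum_comm, ← sum_subset (subset_univ _)]
  · refine sum_congr rfl fun a ha => ?_
    obtain ⟨ha, hax⟩ := mem_filter.1 ha
    obtain ⟨p, hs⟩ := mem_VS.1 ha
    have hi := p.inv x (h.sub hx)
    have hm : a x ∈ K.U \ K.X := mem_sdiff.2 ⟨hi.1, hax⟩
    obtain ⟨ρ, hρ, pρ⟩ := raw_ex (hl.ok h hr hm) hl rfl hi.2.1 p
    rw [sum_eq_single_of_mem _ hm fun s _ hs => sum_eq_zero fun ρ _ => if_neg fun e => hs e.1.symm,
      sum_eq_single_of_mem _ hρ fun ρ' hρ' hne => if_neg fun e =>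
        hne (raw_uniq (hl.ok h hr hm) hl hρ' hρ e.2.2.1 pρ), if_pos ⟨rfl, hi.2.1, pρ, hs⟩]
  · intro a _ ha
    refine sum_eq_zero fun s hs => sum_eq_zero fun ρ hρ => if_neg fun e => ha ?_
    exact mem_filter.2 ⟨mem_VS.2 ⟨raw_to (hl.ok h hr hs) hl hρ e.1 e.2.1 e.2.2.1, e.2.2.2⟩,
      e.1 ▸ (mem_sdiff.1 hs).2⟩

lemma close_eq {K : Cfg D} (h : WF K) {x : D} {rest : List D} {ls : List (List D)}
    (hl : Holes K ((x :: rest) :: ls)) {a : Perm D} (p : Pre K K.X a) (hax : a x ∈ K.X) :
    rest = [a x] := by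
  have hx := hl.sub List.mem_cons_self (x := x) List.mem_cons_self
  have hi := p.inv x (h.sub hx)
  have e1 : x = K.f (a x) := p.simp x hx _ (h.fX _ hax) (sc_step (K.f * a) x)
  have e2 : a x = K.f x := p.simp _ hax _ (h.fX _ hx) (by
    have := sc_step (K.f * a) (a x)
    rwa [mul_apply, hi.2.1] at this)
  exact (hl.cyc _ List.mem_cons_self).uniq (cyc_cons.2 ⟨by simp [hi.2.2.symm], by
    simp [← e1, ← e2]⟩)

lemma pre_two {K : Cfg D} {x y : D} (hxy : x ≠ y) (hx : x ∈ K.X) (hy : y ∈ K.X) (f1 : K.f x = y)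
    (f2 : K.f y = x) {a : Perm D} (a1 : a x = y) (a2 : a y = x) :
    Pre (K.res {x, y}) (K.res {x, y}).X a := by
  have hX : (K.res {x, y}).X = {x, y} := inter_eq_right.2 (by simp [insert_subset_iff, hx, hy])
  have s1 : (K.f * a) x = x := by simp [a1, f2]
  have s2 : (K.f * a) y = y := by simp [a2, f1]
  have n : ¬(K.f * a).SameCycle y x := fun e => hxy (sc_fixed s2 e)
  refine ⟨fun z hz => ?_, fun u hu v hv e => ?_, fun u hu => ⟨u, by rw [hX]; exact hu, (conn _ _).refl u⟩, ?_⟩
  · simp only [Cfg.res, mem_insert, mem_singleton] at hz ⊢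
    rcases hz with rfl | rfl <;> simp [a1, a2, hxy, hxy.symm]
  · rw [hX] at hu
    simp only [mem_insert, mem_singleton] at hu
    rcases hu with rfl | rfl
    exacts [(sc_fixed s1 e).symm, (sc_fixed s2 e).symm]
  · rw [hX, card_pair hxy]
    have c1 : cnt (sc (K.f * a)) {x, y} = cnt (sc (K.f * a)) {y} + 1 :=
      cnt_insert fun z hz => by rw [mem_singleton.1 hz]; exact n
    have c2 : ∀ r : Setoid D, cnt r {y} = 1 := fun r => by simp [cnt]
    have c3 : cnt (sc K.f) {x, y} = cnt (sc K.f) {y} :=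
      cnt_eq_of (by simp) fun z hz => ⟨y, by simp, by
        simp only [mem_insert, mem_singleton] at hz
        rcases hz with rfl | rfl
        exacts [f1 ▸ sc_step K.f z, (sc K.f).refl _]⟩
    simp only [Cfg.res]
    rw [c1, c3, c2, c2]

lemma close_spec {K : Cfg D} (h : WF K) {x y : D} {ls : List (List D)}
    (hl : Holes K ([x, y] :: ls)) : {x, y} ∈ Inv K [[x, y]].flatten.toFinset 0 := by
  have c := hl.cyc _ List.mem_cons_self
  have hx := hl.sub List.mem_cons_self (x := x) (by simp)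
  have hy := hl.sub List.mem_cons_self (x := y) (by simp)
  have f1 : K.f x = y := c.next (A := [])
  have f2 : K.f y = x := c.last (A := [])
  simp only [Inv, mem_filter, mem_powerset]
  refine ⟨by simp [insert_subset_iff, h.sub hx, h.sub hy], ?_, by simp [f1, f2], by simp⟩
  rw [inter_eq_right.2 (by simp [insert_subset_iff, hx, hy])]; simp

theorem sum_close {K : Cfg D} (h : WF K) {x y : D} {ls : List (List D)}
    (hl : Holes K ([x, y] :: ls)) (Φ : Perm D → ℝ) :
    ∑ a ∈ (VS K).filter (fun a => a x ∈ K.X), Φ a =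
      ∑ a ∈ VS (K.res (K.U \ {x, y})), Φ (swap x y * a) := by
  classical
  have c := hl.cyc _ List.mem_cons_self
  have hx := hl.sub List.mem_cons_self (x := x) (by simp)
  have hy := hl.sub List.mem_cons_self (x := y) (by simp)
  have f1 : K.f x = y := c.next (A := [])
  have f2 : K.f y = x := c.last (A := [])
  have hxy : x ≠ y := by simpa using c.1
  have hW : ({x, y} : Finset D) ⊆ K.U := by simp [insert_subset_iff, h.sub hx, h.sub hy]
  have hf : ∀ z ∈ ({x, y} : Finset D), K.f z ∈ ({x, y} : Finset D) := by simp [f1, f2]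
  have w := (Inv_spec h (close_spec h hl)).2.1
  rw [← sum_swap w (h.sub hx) (h.sub hy) (by ext; simp [Cfg.res]; tauto), ← sum_filter]
  refine sum_congr ?_ fun _ _ => rfl
  ext a
  simp only [mem_filter, mem_VS, mem_univ, true_and]
  constructor
  · rintro ⟨⟨p, hs⟩, hax⟩
    have e : y = a x := by simpa using close_eq h hl p hax
    have e2 : a y = x := e ▸ (p.inv x (h.sub hx)).2.1
    refine ⟨e.symm, e2, dec_of h p sdiff_subset w.fU fun z hz => ?_, hs⟩
    simp only [mem_sdiff, mem_insert, mem_singleton, not_or] at hz ⊢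
    exact ⟨p.aU z hz.1, fun e' => hz.2.2 (a.injective (e'.trans e2.symm)),
      fun e' => hz.2.1 (a.injective (e'.trans e))⟩
  · rintro ⟨e1, e2, p, hs⟩
    exact ⟨⟨dec_to h hW hf (pre_two hxy hx hy f1 f2 e1 e2) p, hs⟩, e1 ▸ hy⟩

lemma raw_m {K : Cfg D} {x s : D} (ok : PeelOk K x s) (rest : List D) (ρ : Raw) :
    (K.raw x s rest ρ).m + 1 = K.m := by
  have h1 := ok.cardU
  have h2 := ok.cardX
  have h3 := ok.wf.card
  have h4 := ok.wf'.card
  simp only [Cfg.m, raw_U, raw_X] at *
  omega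

lemma WF.card_inner {K : Cfg D} (h : WF K) : (K.U \ K.X).card = 4 * K.m := by
  rw [card_sdiff_of_subset h.sub, h.card]; omega

lemma GG_succ (m : ℕ) : GG (m + 1) = 4 * (m + 1) * GG m := by
  simp [GG, Nat.factorial_succ, pow_succ]; ring

lemma GG_pos (m : ℕ) : 0 < GG m := by unfold GG; positivity

lemma Zm_append (a b : List ℕ) : Zm (a ++ b) = Zm a * Zm b := by simp [Zm]

lemma VS_odd {K : Cfg D} (h : WF K) {l : List D} {ls : List (List D)} (hl : Holes K (l :: ls))
    (ho : ¬Even l.length) : VS K = ∅ :=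
  eq_empty_of_forall_notMem fun _ ha => ho (even_hole h (mem_VS.1 ha).1
    (hl.cyc _ List.mem_cons_self) fun _ hx => hl.sub List.mem_cons_self hx)

theorem card_VS_aux (n : ℕ) : ∀ {K : Cfg D}, WF K → ∀ {ls : List (List D)}, Holes K ls →
    K.U.card = n → ((VS K).card : ℝ) = GG K.m * coeff K.m (Zm (ls.map List.length)) := by
  induction n using Nat.strong_induction_on with
  | _ n ih =>
  intro K h ls hl hn
  rcases ls with _ | ⟨l, ls⟩
  · have hX : K.X = ∅ := eq_empty_of_forall_notMem fun x hx => by simpa using (hl.mem x).1 hx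
    have hc := h.card
    rw [hX, card_empty, zero_add] at hc
    rw [List.map_nil, Zm_nil, coeff_one]
    split_ifs with e
    · have hU : K.U = ∅ := card_eq_zero.1 (by omega)
      have : VS K = {1} := by
        ext a
        rw [mem_VS, mem_singleton]
        constructor
        · exact fun p => Equiv.ext fun u => p.2 u (by simp [hU])
        · rintro rfl
          exact ⟨⟨by simp [hU], by simp [hX], by simp [hU], by simp [hU, hX, cnt_empty]⟩,
            fun _ _ => rfl⟩
      simp [this, e, GG]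
    · obtain ⟨u, hu⟩ := card_pos.1 (show 0 < K.U.card by omega)
      rw [eq_empty_of_forall_notMem (s := VS K) fun a ha => by
        obtain ⟨x, hx, -⟩ := (mem_VS.1 ha).1.con u hu
        simp [hX] at hx]
      simp
  obtain ⟨x, rest, rfl⟩ := List.exists_cons_of_ne_nil (hl.cyc _ List.mem_cons_self).2.1
  by_cases hr : rest = []
  · rw [VS_odd h hl (by simp [hr])]
    simp [hr, Zm_cons, Zl]
  have h1 := sum_peel h hl hr fun _ => 1
  have h2 : ∑ a ∈ (VS K).filter (fun a => a x ∈ K.X), (1 : ℝ) =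
      GG K.m * coeff K.m ((if rest.length + 1 = 2 then 1 else 0) * Zm (ls.map List.length)) := by
    split_ifs with e
    · obtain ⟨y, rfl⟩ := List.length_eq_one_iff.1 (show rest.length = 1 by omega)
      have hI := close_spec h hl
      obtain ⟨-, w, -, -, -, hm⟩ := Inv_spec h hI
      have hx := hl.sub List.mem_cons_self (x := x) (by simp)
      rw [sum_close h hl, sum_const, nsmul_eq_mul, mul_one, one_mul,
        ih _ ?_ w (Holes.res (l1 := [[x, y]]) h hl hI).2 rfl, ← hm, add_zero]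
      rw [← hn]
      exact card_lt_card ⟨sdiff_subset, fun e => by simpa [Cfg.res] using e (h.sub hx)⟩
    · rw [filter_false_of_mem fun a ha hax => e (by rw [close_eq h hl (mem_VS.1 ha).1 hax]; rfl)]
      simp
  have h3 := sum_filter_add_sum_filter_not (VS K) (fun a => a x ∈ K.X) fun _ => (1 : ℝ)
  rw [h1, h2, sum_const, nsmul_eq_mul, mul_one] at h3
  rw [← h3, List.map_cons, Zm_cons, List.length_cons, Zl_rec _ (by omega), add_mul, map_add, mul_add]
  congr 1
  rw [sum_congr rfl fun s hs => sum_congr rfl fun ρ hρ => show _ = GG (K.m - 1) *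
      coeff (K.m - 1) (Zm (rl (rest.length + 1) ρ) * Zm (ls.map List.length)) by
    have ok := hl.ok h hr hs
    obtain ⟨w, hh, -⟩ := raw_spec ok hl hρ
    have hm := raw_m ok rest ρ
    rw [sum_const, nsmul_eq_mul, mul_one, ih _ ?_ w hh rfl, List.map_append, rawH_length hρ,
      Zm_append, show K.m - 1 = (K.raw x s rest ρ).m by omega]
    have := ok.cardU
    rw [raw_U]; omega]
  rw [sum_const, h.card_inner, mul_assoc, nsmul_eq_mul]
  rcases hm : K.m with _ | m
  · simp
  · rw [coeff_succ_X_mul, sum_mul, map_sum, GG_succ, ← mul_sum]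
    push_cast; ring

theorem card_VS {K : Cfg D} (h : WF K) {ls : List (List D)} (hl : Holes K ls) :
    ((VS K).card : ℝ) = GG K.m * coeff K.m (Zm (ls.map List.length)) :=
  card_VS_aux _ h hl rfl

end Pool.Agent.Lib.MP_abd955_pr
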