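import Pool.Agent.Lib.MP_abd955_pr.TransA
import Pool.Agent.Lib.MP_abd955_pr.MeasA

/-! The canonical configurations. -/

namespace Pool.Agent.Lib.MP_abd955_pr

open Equiv Equiv.Perm Finset

set_option linter.unusedSectionVars false

variable {D : Type} [DecidableEq D] [Fintype D]

lemma sq_four (v : ℕ) (u : Fin v × Fin 4) :
    sq v (sq v (sq v (sq v u))) = u ∧ sq v (sq v u) ≠ u := by
  obtain ⟨i, j⟩ := u
  simp only [sq, prodCongr_apply, Prod.map, coe_refl, id, ne_eq, Prod.mk.injEq, true_and]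
  revert j
  decide

/-- squares on the left, boundary darts on the right -/
lemma wf_sum {v : ℕ} {B : Type} [DecidableEq B] [Fintype B] {K : Cfg (Fin v × Fin 4 ⊕ B)}
    (hU : K.U = univ) (hX : K.X = univ.image Sum.inr) (hf : ∀ u, K.f (.inl u) = .inl (sq v u)) :
    WF K ∧ K.m = v := by
  refine ⟨⟨by simp [hU], by simp [hU], fun x hx => ?_, fun x _ hx => ?_⟩, ?_⟩
  · rcases e : K.f x with u | b
    · rw [← (sq v).apply_symm_apply u, ← hf] at e
      simp [hX, K.f.injective e] at hx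
    · simp [hX]
  · rcases x with u | b
    · simpa [hf] using sq_four v u
    · simp [hX] at hx
  · rw [Cfg.m, hU, hX, card_image_of_injective _ Sum.inr_injective]
    simp

theorem K0_spec (v : ℕ) : WF (K0 v) ∧ Holes (K0 v) [[.inr false, .inr true]] ∧ (K0 v).m = v := by
  have := wf_sum (K := K0 v) rfl (by ext; simp [K0, or_comm]) fun _ => rfl
  exact ⟨this.1, ⟨by simp [cyc_cons, K0], by simp, by simp [K0]⟩, this.2⟩

lemma cyc_formPerm {l : List D} (h : l.Nodup) (h0 : l ≠ []) : Cyc l.formPerm l :=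
  ⟨h, h0, List.ext_getElem (by simp) fun i h1 _ => by
    rw [List.getElem_map, List.formPerm_apply_getElem _ h, List.getElem_rotate]⟩

theorem K1_spec (v k : ℕ) : WF (K1 v k) ∧ Holes (K1 v k) [hP v k, hQ v k] ∧ (K1 v k).m = v ∧
    ∀ u, (K1 v k).f (.inl u) = .inl (sq v u) := by
  have f : ∀ u, (K1 v k).f (.inl u) = .inl (sq v u) := fun u => by
    simp [K1, List.formPerm_apply_of_notMem, hP, hQ]
  have := wf_sum (K := K1 v k) rfl rfl f
  have i : ∀ b, Function.Injective fun i : Fin k => (.inr (.inr (i, b)) : E1 v k) :=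
    fun b i j e => by simpa using e
  have nP : (hP v k).Nodup := by simp [hP, (List.nodup_finRange k).map (i _)]
  have nQ : (hQ v k).Nodup := by simp [hQ, (List.nodup_finRange k).map (i _)]
  have d : (hP v k).Disjoint (hQ v k) := by
    intro x
    simp only [hP, hQ, List.mem_cons, List.mem_map, List.mem_reverse]
    rintro (rfl | ⟨i, -, rfl⟩) <;> simp
  have m : ∀ x, x ∈ (K1 v k).X ↔ x ∈ [hP v k, hQ v k].flatten := by
    rintro (u | ⟨_ | _⟩ | ⟨i, _ | _⟩) <;> simp [K1, hP, hQ]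
  have r : ∀ x ∈ [hP v k, hQ v k].flatten, Equiv.sumCongr (sq v) (Equiv.refl _) x = x :=
    fun x hx => by obtain ⟨b, -, rfl⟩ := mem_image.1 ((m x).2 hx); rfl
  refine ⟨this.1, ⟨?_, by simpa using nP.append nQ d, m⟩, this.2, f⟩
  simp only [List.forall_mem_cons, List.not_mem_nil, false_imp_iff, implies_true, and_true]
  refine ⟨(cyc_formPerm nP (by simp [hP])).congr fun x hx => ?_,
    (cyc_formPerm nQ (by simp [hQ])).congr fun x hx => ?_⟩ <;> simp only [K1, mul_apply]
  · rw [List.formPerm_apply_of_notMem (d hx), r _ (by simp [List.formPerm_mem_iff_mem, hx])]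
  · rw [List.formPerm_apply_of_notMem (l := hP v k) fun e => d e (List.formPerm_apply_mem_of_mem hx),
      r _ (by simp [List.formPerm_mem_iff_mem, hx])]

lemma ek_succ (n p : ℕ) (k : ℤ) : poly n p (ek n p k) = ek n p (k + 1) := by
  rw [ek, ek, add_comm k, zpow_one_add, mul_apply]

lemma ek_eq (n p : ℕ) (k : ℤ) : ek n p k = .inr (k : ZMod (2 * p + 2)) := by
  have h : ∀ k : ℤ, poly n p (.inr (k : ZMod (2 * p + 2))) = .inr ((k + 1 : ℤ) : ZMod (2 * p + 2)) :=
    fun k => congrArg Sum.inr ((finRotate_apply _).trans (by push_cast; rfl))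
  induction k using Int.induction_on with
  | zero => exact congrArg Sum.inr (Int.cast_zero (R := ZMod (2 * p + 2))).symm
  | succ k ih => rw [← ek_succ, ih, h]
  | pred k ih => exact (poly n p).injective (by rw [ek_succ, h, sub_add_cancel, ih])

theorem ek_eq_iff (n p : ℕ) (k k' : ℤ) : ek n p k = ek n p k' ↔ ((2 * p + 2 : ℕ) : ℤ) ∣ k - k' := by
  rw [ek_eq, ek_eq, eq_comm]
  exact Sum.inr_injective.eq_iff.trans (ZMod.intCast_eq_intCast_iff_dvd_sub _ _ _)

theorem ek_ext (n p : ℕ) (x : DD n p) : x ∈ extS n p ↔ ∃ k, x = ek n p k := by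
  simp only [ek_eq]
  refine ⟨?_, fun ⟨k, e⟩ => ⟨_, e.symm⟩⟩
  rintro ⟨i, rfl⟩
  obtain ⟨k, e⟩ := ZMod.intCast_surjective (n := 2 * p + 2) i
  exact ⟨k, e ▸ rfl⟩

theorem mirF_ek (n p : ℕ) (k : ℤ) : mirF n p (ek n p k) = ek n p (-1 - k) := by
  rw [ek_eq, ek_eq]
  refine congrArg Sum.inr ((Fin.last_sub _).symm.trans ?_)
  rw [← neg_neg (Fin.last _), Fin.neg_last]
  push_cast
  rfl

theorem mirG_ek (n p : ℕ) (b : Bool) (k : ℤ) : mirG n p (b, ek n p k) = (!b, ek n p (-k)) := by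
  rw [ek_eq, ek_eq, Int.cast_neg]
  rfl

lemma cnt_univ (r : Setoid D) : cnt r univ = Nat.card (Quotient r) := by
  classical
  rw [cnt, Nat.card_eq_fintype_card, ← card_univ]
  exact congrArg card (image_univ_of_surjective Quotient.mk_surjective)

lemma pretr_conn {a f : Perm D} :
    MulAction.IsPretransitive (Subgroup.closure {a, f}) D ↔ ∀ x y, conn a f x y := by
  constructor
  · intro h x y
    obtain ⟨⟨g, hg⟩, rfl⟩ := h.1 x y
    change conn a f x (g x)
    induction hg using Subgroup.closure_induction generalizing x with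
    | mem g hg => rcases hg with rfl | rfl; exacts [conn_a _ _ _, conn_f _ _ _]
    | one => exact (conn a f).refl x
    | mul g h _ _ i1 i2 => exact (conn a f).trans (i2 x) (i1 _)
    | inv g _ i => simpa using (conn a f).symm (i (g⁻¹ x))
  · exact fun h => ⟨fun x y => conn_le (MulAction.orbitRel (Subgroup.closure {a, f}) D) id
      (fun z => Setoid.symm' _ ⟨⟨a, Subgroup.subset_closure (by simp)⟩, rfl⟩)
      (fun z => Setoid.symm' _ ⟨⟨f, Subgroup.subset_closure (by simp)⟩, rfl⟩) (h y x)⟩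

theorem KD_spec (n p : ℕ) : WF (KD n p) ∧ (KD n p).m = n ∧ VS (KD n p) = DiscS n p ∧
    ∀ s : ℤ, Holes (KD n p) [(List.range (2 * p + 2)).map fun i : ℕ => ek n p (s + i)] := by
  obtain ⟨w, m⟩ := wf_sum (K := KD n p) rfl rfl fun _ => rfl
  have H : ∀ s : ℤ, Holes (KD n p) [(List.range (2 * p + 2)).map fun i : ℕ => ek n p (s + i)] := by
    intro s
    have nd : ((List.range (2 * p + 2)).map fun i : ℕ => ek n p (s + i)).Nodup :=
      List.nodup_range.map_on fun i hi j hj e => by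
        have := Int.eq_zero_of_abs_lt_dvd ((ek_eq_iff ..).1 e) (by
          rw [List.mem_range] at hi hj
          rw [abs_lt]
          omega)
        omega
    refine ⟨List.forall_mem_singleton.2 ⟨nd, by simp, List.ext_getElem (by simp) fun i h1 _ => ?_⟩,
      by simpa using nd, fun x => ?_⟩
    · simp only [List.getElem_map, List.getElem_rotate, List.getElem_range, List.length_map,
        List.length_range]
      refine (ek_succ ..).trans ((ek_eq_iff ..).2 ?_)
      rw [add_assoc, add_sub_add_left_eq_sub]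
      exact_mod_cast (Nat.mod_modEq (i + 1) (2 * p + 2)).dvd
    · have := ek_ext n p x
      simp only [KD, extS, Set.mem_range, mem_image, mem_univ, true_and, List.flatten_singleton,
        List.mem_map, List.mem_range] at this ⊢
      refine this.trans ⟨?_, fun ⟨i, _, e⟩ => ⟨_, e.symm⟩⟩
      rintro ⟨k, rfl⟩
      have h0 := Int.emod_nonneg (k - s) (show ((2 * p + 2 : ℕ) : ℤ) ≠ 0 by omega)
      have h1 := Int.emod_lt_of_pos (k - s) (show 0 < ((2 * p + 2 : ℕ) : ℤ) by omega)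
      refine ⟨((k - s) % (2 * p + 2 : ℕ)).toNat, by omega, (ek_eq_iff ..).2 ?_⟩
      rw [Int.toNat_of_nonneg h0, show ∀ t, s + t - k = t - (k - s) from fun t => by ring]
      exact Int.dvd_emod_sub_self
  have s : ∀ x ∈ (KD n p).X, ∀ y ∈ (KD n p).X, (poly n p).SameCycle x y := fun x hx y hy =>
    ((H 0).cyc _ List.mem_cons_self).sc (by simpa using ((H 0).mem x).1 hx)
      (by simpa using ((H 0).mem y).1 hy)
  have x0 : .inr 0 ∈ (KD n p).X := mem_image_of_mem _ (mem_univ _)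
  have c1 : cnt (sc (KD n p).f) (KD n p).X = 1 :=
    (cnt_eq_of (singleton_subset_iff.2 x0) fun x hx => ⟨_, mem_singleton_self _, s x hx _ x0⟩).trans
      (by simp [cnt])
  have c2 := w.faces
  have c3 := w.card
  have c4 : (KD n p).X.card = 2 * p + 2 := by simpa using (H 0).card
  refine ⟨w, m, Finset.ext fun a => ?_, H⟩
  rw [mem_VS, mem_DiscS, IsMap, pretr_conn, ← cnt_univ]
  constructor
  · rintro ⟨q, -⟩
    refine ⟨⟨fun d => (q.inv d (mem_univ _)).2, fun x y => ?_, ?_⟩, fun i j e =>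
      Sum.inr.inj (q.simp _ (mem_image_of_mem _ (mem_univ _)) _ (mem_image_of_mem _ (mem_univ _)) e)⟩
    · obtain ⟨x', h1, e1⟩ := q.con x (mem_univ _)
      obtain ⟨y', h2, e2⟩ := q.con y (mem_univ _)
      exact Setoid.trans' _ (Setoid.trans' _ e1 (conn_of_scf (s _ h1 _ h2))) (Setoid.symm' _ e2)
    · have := q.eul
      change cnt (sc ((KD n p).f * a)) (KD n p).U = _
      omega
  · rintro ⟨⟨h1, h2, h3⟩, h4⟩
    refine ⟨⟨fun d _ => ⟨mem_univ _, h1 d⟩, forall_mem_image.2 fun i _ => forall_mem_image.2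
      fun j _ e => congrArg _ (h4 i j e), fun u _ => ⟨_, x0, h2 _ _⟩, ?_⟩,
      fun u hu => absurd (mem_univ u) hu⟩
    change cnt (sc ((KD n p).f * a)) (KD n p).U = _ at h3
    omega

theorem disc_nondeg {n p : ℕ} (hn : 1 ≤ n) {a : Perm (DD n p)} (ha : a ∈ DiscS n p) (i j) :
    a (.inr i) ≠ .inr j := fun e => by
  obtain ⟨⟨h1, h2, -⟩, h4⟩ := mem_DiscS.1 ha
  have e' : a (.inr j) = .inr i := e ▸ (h1 _).1
  have s : ∀ i j, a (.inr i) = .inr j → poly n p (.inr j) = .inr i := fun i j e =>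
    congrArg Sum.inr (h4 i _ (by simpa [e, poly] using sc_step (poly n p * a) (.inr i))).symm
  simpa using conn_mem (U := {.inr i, .inr j}) (by simp [e, e']) (by simp [s _ _ e, s _ _ e'])
    (mem_insert_self _ _) (pretr_conn.1 h2 _ (.inl (⟨0, hn⟩, 0)))

omit [DecidableEq D] [Fintype D] in
lemma zp_spec {S : Set D} {t a : Perm D} (ht : ∀ u, t (t u) = u) (ha : ∀ u, a (a u) = u)
    (hS : ∀ u ∈ S, t u ∈ S ∧ a u ∉ S) (u : D) :
    zp S t a u = zipf S t a u ∧ zp S t a (zp S t a u) = u := by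
  have : Function.Involutive (zipf S t a) := fun u => by
    by_cases h1 : u ∈ S
    · simp [zipf, h1, (hS u h1).1, ht]
    by_cases h2 : a u ∈ S
    · simp [zipf, h1, h2, (hS _ h2).1, (hS _ (hS _ h2).1).2, ht, ha]
    · simp [zipf, h1, h2, ha]
  rw [zp, dif_pos this]
  exact ⟨rfl, this u⟩

theorem foldP_apply {n p : ℕ} (hn : 1 ≤ n) {a : Perm (DD n p)} (ha : a ∈ DiscS n p) (u) :
    foldP a u = zipf (extS n p) (mirF n p) a u ∧ foldP a (foldP a u) = u := by
  refine zp_spec (by rintro (u | i) <;> simp [mirF]) (fun u => ((mem_DiscS.1 ha).1.1 u).1) ?_ u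
  rintro _ ⟨i, rfl⟩
  exact ⟨⟨_, rfl⟩, fun ⟨j, e⟩ => disc_nondeg hn ha i j e.symm⟩

theorem glueP_apply {n p : ℕ} (hn : 1 ≤ n) {a : Bool → Perm (DD n p)} (ha : ∀ b, a b ∈ DiscS n p) (u) :
    glueP a u = zipf {x | x.2 ∈ extS n p} (mirG n p) (Equiv.prodCongrRight a) u ∧
      glueP a (glueP a u) = u := by
  refine zp_spec (by rintro ⟨b, u | i⟩ <;> simp [mirG])
    (fun u => Prod.ext rfl ((mem_DiscS.1 (ha u.1)).1.1 u.2).1) ?_ u
  rintro ⟨b, _⟩ ⟨i, rfl⟩
  exact ⟨⟨_, rfl⟩, fun ⟨j, e⟩ => disc_nondeg hn (ha b) i j e.symm⟩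

end Pool.Agent.Lib.MP_abd955_pr
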