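import Pool.Agent.Lib.MP_abd955_pr.CoverB
import Pool.Agent.Lib.MP_abd955_pr.TransB

/-! Nearby boundary edges are joined by short inner walks. -/

namespace Pool.Agent.Lib.MP_abd955_pr

open Equiv Equiv.Perm Finset Step Filter

lemma inner_f {n p : ℕ} (u : DD n p) : poly n p u ∈ (extS n p)ᶜ ↔ u ∈ (extS n p)ᶜ := by
  rcases u with x | x <;> simp [poly, extS]

lemma inner_a {n p : ℕ} (hn : 1 ≤ n) {a : Perm (DD n p)} (ha : a ∈ DiscS n p) (u : DD n p)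
    (hu : u ∉ (extS n p)ᶜ) : a u ∈ (extS n p)ᶜ := by
  obtain ⟨i, rfl⟩ := not_not.1 hu
  rintro ⟨j, hj⟩
  exact disc_nondeg hn ha i j hj.symm

lemma ek_out {n p : ℕ} (k : ℤ) : ek n p k ∉ (extS n p)ᶜ := fun h => h ((ek_ext ..).2 ⟨k, rfl⟩)

lemma bd_joined {n p : ℕ} (hn : 1 ≤ n) {a : Perm (DD n p)} (ha : a ∈ DiscS n p) (k : ℤ) (m : ℕ) :
    ∃ l, Walk a (poly n p) (extS n p)ᶜ l (a (ek n p (k + m))) (a (ek n p k)) := by
  induction m with
  | zero => exact ⟨0, by simpa using .refl 0 _ (inner_a hn ha _ (ek_out k))⟩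
  | succ m ih =>
    obtain ⟨⟨h1, -⟩, h2⟩ := mem_DiscS.1 ha
    obtain ⟨l, w⟩ := ih
    obtain ⟨l', w'⟩ := round inner_f (fun u => (h1 u).1) (inner_a hn ha) (fun u v hu hv e => by
      obtain ⟨i, rfl⟩ := not_not.1 hu
      obtain ⟨j, rfl⟩ := not_not.1 hv
      rw [h2 i j e]) (ek_out (n := n) (p := p) (k + m))
    rw [ek_succ, add_assoc] at w'
    exact ⟨_, w'.trans w⟩

/-- root i, target i', far dart c + p -/
def cpD (i i' c : ℤ) (x : ℕ × ℕ) : CP (DD x.2 x.1) :=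
  ⟨poly x.2 x.1, (extS x.2 x.1)ᶜ, ek x.2 x.1 i, ek x.2 x.1 i', ek x.2 x.1 (c + x.1)⟩

lemma cover_start {N ρ : ℕ} {i i' c : ℤ} (h0 : i ≠ i') (h1 : |i - i'| ≤ N) (h2 : |i - c| ≤ N) :
    ∀ᶠ x in FH, ∃ y R, Bs (cpD i i' c x) (decide (i < i')) ρ x 0 (N + 2) N [y] R
      (St.one (KD x.2 x.1))
      fun g => Av g (poly x.2 x.1) (extS x.2 x.1)ᶜ
        (Bl g (poly x.2 x.1) (extS x.2 x.1)ᶜ ρ (g (ek x.2 x.1 i))) (g (ek x.2 x.1 (c + x.1)))
        (g (ek x.2 x.1 i')) := by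
  filter_upwards [evH_ge (N + 1)]
  rintro ⟨p, n⟩ ⟨hp, hn⟩
  dsimp only at *
  obtain ⟨w, m, vs, H⟩ := KD_spec n p
  have hl := H i
  rw [List.range_succ_eq_map, List.map_cons, List.map_map] at hl
  have g : ∀ (k : ℕ) (l : ℤ), k < 2 * p + 1 → l = i + k + 1 ∨ l + (2 * p + 2) = i + k + 1 →
      ((List.range (2 * p + 1)).map ((fun k : ℕ => ek n p (i + k)) ∘ Nat.succ))[k]? =
        some (ek n p l) := fun k l hk e => by
    rw [List.getElem?_map, List.getElem?_range hk]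
    refine congrArg some ((ek_eq_iff ..).2 ?_)
    rcases e with e | e
    exacts [⟨0, by push_cast; omega⟩, ⟨1, by push_cast; omega⟩]
  rw [abs_le] at h1 h2
  refine ⟨_, _, one_wf w, hl, ⟨m.ge.trans (by simp [St.one]), by simp; omega, by simp⟩,
    fun u hu => ⟨?_, rfl⟩, ⟨(c + p - i - 1).toNat, g _ _ (by omega) (by omega), by omega,
      by simp; omega⟩, fun _ => ?_, fun a ha u hu hu' => ?_, fun _ _ => id⟩
  · exact fun ⟨j, hj⟩ => (mem_sdiff.1 hu).2 (mem_image.2 ⟨j, mem_univ _, hj⟩)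
  · by_cases e : i < i'
    · exact ⟨(i' - i - 1).toNat, g _ _ (by omega) (by omega), by simp [e]; omega⟩
    · exact ⟨(i' + 2 * p + 1 - i).toNat, g _ _ (by omega) (by omega), by simp [e]; omega⟩
  · obtain rfl : u = ek n p i := by
      rcases hu' with e | e
      · exact (e (by simpa [St.one, KD, extS] using hu)).elim
      · simpa using e
    exact .refl _ _ (inner_a (by omega) (vs ▸ one_ok.1 ha) _ (ek_out i))

open Classical in
theorem cover_fin : ∃ C : ℕ, ∀ N s lam : ℕ, 1 ≤ N → N ≤ s ^ 2 → ∀ i i' : ℤ, |i - i'| ≤ N →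
    ∀ ε : ℝ, 0 < ε → ∀ᶠ p : ℕ in atTop, ∀ᶠ n : ℕ in atTop,
      (((DiscS n p).filter fun a => ¬Walk a (poly n p) (extS n p)ᶜ (C * s * lam)
        (a (ek n p i)) (a (ek n p i'))).card : ℝ) ≤ (2 * (3 / 4) ^ lam + ε) * (DiscS n p).card := by
  obtain ⟨C, hC⟩ := cover_bound
  refine ⟨8 * (C + 1), fun N s lam hN hs i i' h ε hε => ?_⟩
  obtain ⟨M, n, hF⟩ := hC N s hN hs
  have s1 : 1 ≤ s := Nat.pos_of_ne_zero (by rintro rfl; omega)
  obtain ⟨ρ, hρ⟩ : ∃ ρ, ρ = 4 * (C + 1) * s * lam := ⟨_, rfl⟩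
  have r1 : 0 + 4 * (C * s + 1) * lam ≤ ρ := by
    rw [hρ, zero_add]; exact Nat.mul_le_mul_right _ (by nlinarith)
  rw [show 8 * (C + 1) * s * lam = ρ + ρ by rw [hρ]; ring]
  have key : Bd (D := fun x => DD x.2 x.1) FH (fun x S E => S = St.one (KD x.2 x.1) ∧ E = fun a =>
      ¬Walk a (poly x.2 x.1) (extS x.2 x.1)ᶜ (ρ + ρ) (a (ek x.2 x.1 i)) (a (ek x.2 x.1 i')))
      ((3 / 4) ^ lam + (3 / 4) ^ lam) := by
    by_cases e : i = i'
    · refine (Bd.zero ((evH_ge 1).mono ?_)).le (by positivity)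
      rintro x hx _ _ ⟨rfl, rfl⟩ a ha h
      exact h (e ▸ .refl _ _ (inner_a hx.2 ((KD_spec ..).2.2.1 ▸ one_ok.1 ha) _ (ek_out i)))
    refine (cover_out (P := cpD i i' i) (hF (decide (i < i'))) lam 0 (N + 2) r1).union
      (cover_out (P := cpD i' i i) (hF (decide (i' < i))) lam 0 (N + 2) r1) ?_
    filter_upwards [cover_start (ρ := ρ) (c := i) e h (by simp),
      cover_start (ρ := ρ) (c := i) (Ne.symm e) (abs_sub_comm i i' ▸ h) (abs_sub_comm i i' ▸ h),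
      evH_ge 1] with x a1 a2 hx
    rintro _ _ ⟨rfl, rfl⟩
    refine ⟨_, _, fun a ha h => ?_, a1, a2⟩
    have ha : a ∈ DiscS x.2 x.1 := (KD_spec ..).2.2.1 ▸ one_ok.1 ha
    obtain ⟨l, w⟩ := bd_joined hx.2 ha i x.1
    exact crossing inner_f (fun u => ((mem_DiscS.1 ha).1.1 u).1) w h
  refine (evH.1 (key ε hε)).mono fun p hp => hp.mono fun n hn => ?_
  have := hn _ _ ⟨rfl, rfl⟩
  rw [one_cnt, one_tot, (KD_spec ..).2.2.1] at this
  rw [two_mul ((3 / 4 : ℝ) ^ lam)]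
  convert this

end Pool.Agent.Lib.MP_abd955_pr
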