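import Pool.Agent.Lib.MP_abd955_pr.Seg

/-! Walks among inner darts, avoiding paths and the crossing argument. -/

namespace Pool.Agent.Lib.MP_abd955_pr

open Equiv Equiv.Perm Finset Step

section
variable {D : Type} {a f : Perm D} {I B : Set D} {n m : ℕ} {x y z : D}

lemma Walk.mono (h : Walk a f I n x y) : ∀ {m}, n ≤ m → Walk a f I m x y := by
  induction h with
  | refl n x hx => exact fun _ => .refl _ _ hx
  | sa _ hy ih =>
    intro m e
    obtain ⟨k, rfl⟩ : ∃ k, m = k + 1 := ⟨m - 1, by omega⟩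
    exact (ih (by omega)).sa hy
  | sf _ ih =>
    intro m e
    obtain ⟨k, rfl⟩ : ∃ k, m = k + 1 := ⟨m - 1, by omega⟩
    exact (ih (by omega)).sf
  | sg _ ih =>
    intro m e
    obtain ⟨k, rfl⟩ : ∃ k, m = k + 1 := ⟨m - 1, by omega⟩
    exact (ih (by omega)).sg

lemma Walk.trans (h : Walk a f I n x y) (h' : Walk a f I m y z) : Walk a f I (n + m) x z := by
  induction h' with
  | refl m y _ => exact h.mono (by omega)
  | sa _ hy ih => exact (ih h).sa hy
  | sf _ ih => exact (ih h).sf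
  | sg _ ih => exact (ih h).sg

lemma Walk.mem (hf : ∀ u, f u ∈ I ↔ u ∈ I) (h : Walk a f I n x y) : y ∈ I := by
  induction h with
  | refl n x hx => exact hx
  | sa _ hy _ => exact hy
  | sf _ ih => exact (hf _).2 ih
  | sg _ ih => exact (hf _).1 (by simpa using ih)

/-- one inner step -/
def Stp (a f : Perm D) (I : Set D) (u v : D) : Prop :=
  u ∈ I ∧ v ∈ I ∧ (v = a u ∨ v = f u ∨ u = f v)

lemma Walk.stp (h : Walk a f I n x y) (s : Stp a f I y z) : Walk a f I (n + 1) x z := by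
  obtain ⟨-, h2, rfl | rfl | rfl⟩ := s
  exacts [h.sa h2, h.sf, by simpa using h.sg]

lemma Stp.symm (ha : ∀ u, a (a u) = u) (s : Stp a f I x y) : Stp a f I y x := by
  obtain ⟨h1, h2, rfl | h | h⟩ := s
  exacts [⟨h2, h1, Or.inl (ha _).symm⟩, ⟨h2, h1, Or.inr (Or.inr h)⟩, ⟨h2, h1, Or.inr (Or.inl h)⟩]

lemma Walk.ind (hf : ∀ u, f u ∈ I ↔ u ∈ I) {P : ℕ → D → Prop} (h : Walk a f I n x y)
    (h0 : ∀ n, x ∈ I → P n x)
    (h1 : ∀ n u v, Walk a f I n x u → Stp a f I u v → P n u → P (n + 1) v) : P n y := by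
  induction h with
  | refl n x hx => exact h0 n hx
  | sa w hy ih => exact h1 _ _ _ w ⟨w.mem hf, hy, Or.inl rfl⟩ (ih h0 h1)
  | sf w ih => exact h1 _ _ _ w ⟨w.mem hf, w.sf.mem hf, Or.inr (Or.inl rfl)⟩ (ih h0 h1)
  | sg w ih => exact h1 _ _ _ w ⟨w.mem hf, w.sg.mem hf, Or.inr (Or.inr (by simp))⟩ (ih h0 h1)

lemma Walk.symm (hf : ∀ u, f u ∈ I ↔ u ∈ I) (ha : ∀ u, a (a u) = u) (h : Walk a f I n x y) :
    Walk a f I n y x :=
  h.ind hf (P := fun n y => Walk a f I n y x) (fun n hx => .refl n x hx) fun n u v _ s ih => by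
    have := ((Walk.refl 0 v s.2.1).stp (s.symm ha)).trans ih
    rwa [zero_add, add_comm] at this

/-- there is a path of inner steps to z outside B -/
inductive Av (a f : Perm D) (I B : Set D) (z : D) : D → Prop
  | base : z ∉ B → Av a f I B z z
  | step {u v} : Stp a f I u v → u ∉ B → Av a f I B z v → Av a f I B z u

lemma Av.not_mem (h : Av a f I B z x) : x ∉ B := by
  cases h with
  | base h => exact h
  | step _ h _ => exact h

lemma Av.back (hf : ∀ u, f u ∈ I ↔ u ∈ I) (h : Walk a f I n x y)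
    (hB : ∀ u, Walk a f I n x u → u ∉ B) (e : Av a f I B z y) : Av a f I B z x :=
  h.ind hf (P := fun k y => k ≤ n → Av a f I B z y → Av a f I B z x) (fun _ _ _ e => e)
    (fun k u v w s ih hk e => ih (by omega) (.step s (hB u (w.mono (by omega))) e)) le_rfl e

/-- the ball of radius n -/
def Bl (a f : Perm D) (I : Set D) (n : ℕ) (x : D) : Set D := {u | Walk a f I n x u}

lemma crossing (hf : ∀ u, f u ∈ I ↔ u ∈ I) (ha : ∀ u, a (a u) = u) (hz : Walk a f I m z x)
    (h : ¬Walk a f I (n + n) x y) :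
    Av a f I (Bl a f I n x) z y ∨ Av a f I (Bl a f I n y) z x := by
  by_contra hc
  obtain ⟨h1, h2⟩ := not_or.1 hc
  have d : ∀ u, Walk a f I n x u → Walk a f I n y u → False := fun u w w' =>
    h (w.trans (w'.symm hf ha))
  have k : ∀ u, (u ∉ Bl a f I n x → Av a f I (Bl a f I n x) z u) →
      (u ∉ Bl a f I n y → Av a f I (Bl a f I n y) z u) →
      Av a f I (Bl a f I n x) z u ∧ Av a f I (Bl a f I n y) z u := fun u e1 e2 =>
    ⟨e1 fun e => h2 (Av.back hf e d (e2 (d u e))),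
      e2 fun e => h1 (Av.back hf e (fun v w w' => d v w' w) (e1 fun e' => d u e' e))⟩
  exact (hz.ind hf (P := fun _ u => Av a f I (Bl a f I n x) z u ∧ Av a f I (Bl a f I n y) z u)
    (fun _ _ => k z .base .base) fun _ u v _ s ih =>
      k v (fun e => .step (s.symm ha) e ih.1) fun e => .step (s.symm ha) e ih.2).1.not_mem
    (.refl n x (hz.mem hf))

/-- walk round a boundary vertex -/
lemma round [DecidableEq D] [Fintype D] (hf : ∀ u, f u ∈ I ↔ u ∈ I) (ha : ∀ u, a (a u) = u)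
    (hI : ∀ u, u ∉ I → a u ∈ I) (hs : ∀ u v, u ∉ I → v ∉ I → (f * a).SameCycle u v → u = v)
    (hx : x ∉ I) : ∃ n, Walk a f I n (a (f x)) (a x) := by
  have hx' : f x ∉ I := fun e => hx ((hf x).1 e)
  have e0 : (f * a).SameCycle (f x) (a x) := by
    have := (sc_step (f * a) (a x)).symm
    rwa [mul_apply, ha] at this
  have := sc_ind (P := fun u => (f * a).SameCycle (f x) u ∧
    (u = f x ∨ ∃ n, Walk a f I n (a (f x)) u)) e0 ⟨SameCycle.refl _ _, Or.inl rfl⟩ ?_
  · exact this.2.resolve_left fun e => hx' (e ▸ hI x hx)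
  rintro u ⟨h1, h2⟩
  have h3 := h1.trans (sc_step (f * a) u)
  refine ⟨h3, ?_⟩
  rcases h2 with rfl | ⟨n, w⟩
  · exact Or.inr ⟨_, (Walk.refl 0 _ (hI _ hx')).sf⟩
  · by_cases e : a u ∈ I
    · exact Or.inr ⟨_, (w.sa e).sf⟩
    · exact Or.inl (hs _ _ hx' (fun e' => e ((hf _).1 e')) h3).symm

lemma cut_get {R : List D} {a b k : ℕ} (h1 : a ≤ k) (h2 : k + b < R.length) :
    (cut a b R)[k - a]? = R[k]? := by
  rw [cut, List.getElem?_take_of_lt (by omega), List.getElem?_drop, Nat.add_sub_cancel' h1]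

lemma cut_idx {R : List D} (h : R.Nodup) {a b k : ℕ} (hk : R[k]? = some x) (hx : x ∈ cut a b R) :
    a ≤ k ∧ k + b < R.length := by
  obtain ⟨j, hj⟩ := List.mem_iff_getElem?.1 hx
  have h1 := (List.getElem?_eq_some_iff.1 hj).1
  rw [cut_len] at h1
  have h2 := cut_get (R := R) (a := a) (b := b) (k := j + a) (by omega) (by omega)
  rw [Nat.add_sub_cancel, hj, ← hk] at h2
  have := (List.getElem?_inj (List.getElem?_eq_some_iff.1 hk).1 h).1 h2
  omega

end

end Pool.Agent.Lib.MP_abd955_pr
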