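import Pool.Agent.Lib.MP_abd955_pr.Mach0

namespace Pool.Agent.Lib.MP_abd955_pr

open Enum PowerSeries Finset Filter Topology Step

theorem Fc_mem (M r : ℕ) (side : Bool) (n : ℕ) (s : CS) :
    0 ≤ Fc M r side n s ∧ Fc M r side n s ≤ 1 := by
  induction n generalizing s with
  | zero => rw [Fc]; split_ifs <;> norm_num
  | succ n ih =>
    rw [Fc]
    split_ifs
    · norm_num
    · norm_num
    · have h1 := tsum_w_mem fun t => ih (s.next (fstT s.lab) t)
      have h2 := tsum_w_mem fun t => ih (s.next (lstT s.lab) t)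
      constructor <;> linarith [h1.1, h1.2, h2.1, h2.2]

/-! the mirror symmetry -/

def mir : Step → Step
  | .N => .N
  | .R1 a => .L1 a
  | .L2 a => .R2 a
  | .R2 a => .L2 a
  | .L1 a => .R1 a
  | .RR a b => .LL a b
  | .LR a b => .LR b a
  | .LL a b => .RR a b

lemma mir_mir (t : Step) : mir (mir t) = t := by cases t <;> rfl
lemma mir_sL (t : Step) : (mir t).sL = t.sR := by cases t <;> rfl
lemma mir_sR (t : Step) : (mir t).sR = t.sL := by cases t <;> rfl
lemma mir_nw (t : Step) : (mir t).nw = t.nw := by cases t <;> rfl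
lemma mir_w (t : Step) : w (mir t) = w t := by
  cases t <;> simp [mir, w, Step.fin, mul_comm]

def mirE : Step ≃ Step := ⟨mir, mir, mir_mir, mir_mir⟩

lemma tsum_mir (F : Step → ℝ) : ∑' t, w t * F (mir t) = ∑' t, w t * F t := by
  rw [← mirE.tsum_eq fun t => w t * F t]
  exact tsum_congr fun t => by rw [show mirE t = mir t from rfl, mir_w]

lemma relab_rev (lab : List Bool) (i : ℕ) (t : Step) (hi : i < lab.length) :
    relab lab.reverse (lab.length - 1 - i) (mir t) = (relab lab i t).reverse := by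
  simp only [relab, mir_sL, mir_sR, mir_nw, List.reverse_append, List.reverse_replicate,
    List.take_reverse, List.drop_reverse, List.append_assoc]
  rw [show lab.length - (lab.length - 1 - i + 1 + t.sL) = i - t.sL by omega]
  congr 2
  by_cases h : i + 1 + t.sR ≤ lab.length
  · rw [show lab.length - (lab.length - 1 - i - t.sR) = i + 1 + t.sR by omega]
  · rw [List.drop_eq_nil_of_le (by omega), List.drop_eq_nil_of_le (by omega)]

def CS.mir (s : CS) : CS := ⟨s.lab.reverse, s.be, s.al, s.j⟩

lemma CS.next_mir (s : CS) (i : ℕ) (t : Step) (hi : i < s.lab.length) :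
    s.mir.next (s.lab.length - 1 - i) (MP_abd955_pr.mir t) = (s.next i t).mir := by
  have h1 : oL (s.lab.length - 1 - i) (MP_abd955_pr.mir t) = oR s.lab i t := by
    simp only [oL, oR, mir_sL]
  have h2 : oR s.lab.reverse (s.lab.length - 1 - i) (MP_abd955_pr.mir t) = oL i t := by
    simp only [oL, oR, mir_sR, List.length_reverse]; omega
  unfold CS.next CS.mir
  simp only [relab_rev _ _ _ hi, h1, h2, List.mem_reverse, List.length_reverse]
  split_ifs <;> simp

lemma CS.next_mem (s : CS) (i : ℕ) (t : Step) : true ∈ (s.next i t).lab := by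
  unfold CS.next
  split_ifs with h
  · exact h
  · exact mem_repl (relab_length_pos _ _ _)

lemma fstT_get {lab : List Bool} (h : true ∈ lab) : lab[fstT lab]? = some true :=
  List.getElem?_idxOf h

lemma lstT_get {lab : List Bool} (h : true ∈ lab) : lab[lstT lab]? = some true := by
  have h1 := fstT_get (List.mem_reverse.2 h)
  have h2 := lt_of_get h1
  rw [List.length_reverse] at h2
  rw [List.getElem?_reverse h2] at h1
  exact h1

lemma CS.mir_own (s : CS) (side : Bool) : s.mir.own (!side) = s.own side := by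
  cases side <;> rfl

lemma Fc_mir (M r : ℕ) (n : ℕ) : ∀ (side : Bool) (s : CS), true ∈ s.lab →
    Fc M r (!side) n s.mir = Fc M r side n s := by
  induction n with
  | zero => intro side s _; rw [Fc, Fc, CS.mir_own]
  | succ n ih =>
    intro side s h
    have h1 := lt_of_get (fstT_get h)
    have h2 := lt_of_get (lstT_get h)
    have h3 := lt_of_get (fstT_get (List.mem_reverse.2 h))
    have e1 : fstT s.mir.lab = s.lab.length - 1 - lstT s.lab := by
      simp only [CS.mir, lstT, fstT, List.length_reverse] at *; omega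
    have e2 : lstT s.mir.lab = s.lab.length - 1 - fstT s.lab := by
      simp only [CS.mir, lstT, fstT, List.length_reverse, List.reverse_reverse]
    have e3 : s.mir.lab.length = s.lab.length := List.length_reverse
    have e4 : s.mir.j = s.j := rfl
    rw [Fc, Fc, CS.mir_own, CS.mir_own, e1, e2, e3, e4,
      ← tsum_mir fun t => Fc M r (!side) n (s.mir.next (s.lab.length - 1 - lstT s.lab) t),
      ← tsum_mir fun t => Fc M r (!side) n (s.mir.next (s.lab.length - 1 - fstT s.lab) t)]
    simp only [s.next_mir _ _ h1, s.next_mir _ _ h2, ih side _ (s.next_mem _ _)]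
    rw [add_comm]

/-! the harmonic function of the length -/

noncomputable def chi (V : ℕ) : ℝ := h ((V + 1) / 2)

lemma chi_zero : chi 0 = 0 := by simp [chi, h_zero]
lemma chi_nonneg (V : ℕ) : 0 ≤ chi V := h_nonneg _
lemma chi_mono {a b : ℕ} (hab : a ≤ b) : chi a ≤ chi b := h_mono (by omega)
lemma chi_pos {V : ℕ} (hV : 1 ≤ V) : 0 < chi V := h_pos' (by omega)

lemma sqrt_le_chi (V : ℕ) : √V ≤ 2 * chi V := by
  have h1 := le_two_h_sq ((V + 1) / 2)
  have h2 : ((V : ℕ) : ℝ) ≤ ((2 * ((V + 1) / 2) : ℕ) : ℝ) := by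
    exact_mod_cast (show V ≤ 2 * ((V + 1) / 2) by omega)
  rw [Nat.cast_mul, Nat.cast_ofNat] at h2
  rw [Real.sqrt_le_left (by have := chi_nonneg V; positivity), chi]
  linarith

lemma chi_le_sqrt (V : ℕ) : chi V ≤ 2 * √V := by
  refine (h_le_sqrt _).trans ?_
  have : (((V + 1) / 2 : ℕ) : ℝ) ≤ V := by exact_mod_cast (show (V + 1) / 2 ≤ V by omega)
  have := Real.sqrt_le_sqrt this
  linarith

lemma even_of_prod (ls : List ℕ) (h : (ls.map zl).prod ≠ 0) : Even ls.sum := by
  induction ls with
  | nil => simp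
  | cons a ls ih =>
    rw [List.map_cons, List.prod_cons] at h
    rw [List.sum_cons]
    refine Even.add ?_ (ih (right_ne_zero_of_mul h))
    by_contra hc
    exact left_ne_zero_of_mul h (zl_odd hc)

lemma hasSum_chi (V : ℕ) (hV : 1 ≤ V) : HasSum (fun t => w t * chi (nl V t)) (chi V) := by
  refine hs_congr' (hasSum_harm' (2 * ((V + 1) / 2)) (by omega)) (fun t => ?_)
    (by rw [hl_two_mul, chi])
  by_cases hw : w t = 0
  · simp [hw]
  obtain ⟨s, hs⟩ := (even_of_prod t.fin (right_ne_zero_of_mul hw)).two_dvd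
  have h1 := fin_sum_add t
  rw [show nl (2 * ((V + 1) / 2)) t = 2 * ((nl V t + 1) / 2) by unfold nl; omega, hl_two_mul, chi]

lemma gain_aux {D : Step → ℝ} (h0 : ∀ t, 0 ≤ D t) (hs : Summable fun t => w t * D t)
    (c : ℕ → Step) (hc : Function.Injective c) (hw : ∀ a, w (c a) = 3 / 8 * zl (a + 2))
    (X : ℕ) (hX : 1 ≤ X) (hD : ∀ a, X ≤ a → chi ((X + 1) / 2) ≤ D (c a)) :
    1 / (4608 * X) ≤ ∑' t, w t * D t := by
  obtain ⟨Q, hQ⟩ : ∃ Q, Q = (X + 1) / 2 := ⟨_, rfl⟩
  rw [← hQ] at hD
  have q1 : (1 : ℝ) ≤ Q := by exact_mod_cast (show 1 ≤ Q by omega)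
  have q2 : (Q : ℝ) ≤ X := by exact_mod_cast (show Q ≤ X by omega)
  refine le_trans ?_ (hs.sum_le_tsum ((Ico (Q + 1) (2 * (Q + 1))).image fun p => c (2 * p - 2))
    fun t _ => mul_nonneg (w_nonneg t) (h0 t))
  rw [sum_image]
  swap
  · intro a ha b hb hab
    have := hc hab
    simp only [coe_Ico, Set.mem_Ico] at ha hb
    omega
  have h1 : ∀ p ∈ Ico (Q + 1) (2 * (Q + 1)), 3 / 8 * z (2 * (Q + 1)) * chi Q ≤
      w (c (2 * p - 2)) * D (c (2 * p - 2)) := by
    intro p hp
    rw [mem_Ico] at hp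
    rw [hw, show 2 * p - 2 + 2 = 2 * p by omega, zl_two_mul]
    have a1 := z_anti (p := p) (r := 2 * (Q + 1)) (by omega) hp.2.le
    have a2 := z_nonneg p
    exact mul_le_mul (by linarith) (hD _ (by omega)) (chi_nonneg _) (by linarith)
  have h2 := card_nsmul_le_sum _ _ _ h1
  rw [Nat.card_Ico, show 2 * (Q + 1) - (Q + 1) = Q + 1 by omega, nsmul_eq_mul] at h2
  refine le_trans ?_ h2
  have a1 := z_lower (2 * (Q + 1))
  have a2 := sqrt_le_chi Q
  have a3 : √(Q : ℝ) ≤ 2 * h (2 * (Q + 1)) := (sqrt_le_h Q).trans (by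
    have := h_mono (show Q ≤ 2 * (Q + 1) by omega); linarith)
  have a4 := Real.mul_self_sqrt (show (0 : ℝ) ≤ Q by linarith)
  have a5 := z_nonneg (2 * (Q + 1))
  have a6 := Real.sqrt_nonneg (Q : ℝ)
  have a7 := chi_nonneg Q
  push_cast at a1 ⊢
  generalize z (2 * (Q + 1)) = y at *
  have b1 : √(Q : ℝ) ≤ 216 * (Q + 1) ^ 3 * y := by nlinarith
  have b2 : (Q : ℝ) ≤ 432 * (Q + 1) ^ 3 * (y * chi Q) := by
    nlinarith [mul_le_mul b1 a2 a6 (by positivity)]
  have b3 : 0 ≤ y * chi Q := mul_nonneg a5 a7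
  have b4 : ((Q : ℝ) + 1) ^ 2 ≤ 4 * Q * X := by nlinarith
  have b5 : (Q : ℝ) * 1 ≤ Q * (1728 * X * ((Q + 1) * (y * chi Q))) := by
    nlinarith [mul_le_mul_of_nonneg_right b4 (show 0 ≤ (Q + 1) * (y * chi Q) by positivity)]
  have b6 := le_of_mul_le_mul_left b5 (by linarith)
  rw [div_le_iff₀ (by linarith)]
  nlinarith

lemma gain (lab : List Bool) (i : ℕ) (hi : i < lab.length) :
    ∃ e, HasSum (fun t => w t * chi (relab lab i t).length) e ∧
      chi lab.length + 1 / (4608 * lab.length) ≤ e := by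
  have h1 : Summable fun t => w t * chi (relab lab i t).length :=
    summable_w_bdd (fun t => chi_nonneg _) fun t => chi_mono (relab_length_le lab i t hi)
  have h2 := hasSum_chi lab.length (by omega)
  have h3 : HasSum (fun t => w t * (chi (relab lab i t).length - chi (nl lab.length t)))
      (∑' t, w t * chi (relab lab i t).length - chi lab.length) :=
    hs_congr' (h1.hasSum.sub h2) (fun t => by ring) rfl
  have h4 : ∀ t, 0 ≤ chi (relab lab i t).length - chi (nl lab.length t) := fun t => by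
    have := relab_length lab i t hi
    exact sub_nonneg.2 (chi_mono (by unfold nl; omega))
  refine ⟨_, h1.hasSum, ?_⟩
  have key : 1 / (4608 * lab.length : ℝ) ≤
      ∑' t, w t * (chi (relab lab i t).length - chi (nl lab.length t)) := by
    rcases le_or_gt lab.length (2 * i + 1) with h | h
    · refine gain_aux h4 h3.summable .R1 (fun a b hab => by simpa using hab) w_R1 _ (by omega)
        fun a ha => ?_
      have := relab_length lab i (.R1 a) hi
      simp only [sL, sR, nw, oL, oR] at this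
      rw [show nl lab.length (.R1 a) = 0 by simp only [nl, sL, sR, nw]; omega, chi_zero, sub_zero]
      exact chi_mono (by omega)
    · refine gain_aux h4 h3.summable .L1 (fun a b hab => by simpa using hab) w_L1 _ (by omega)
        fun a ha => ?_
      have := relab_length lab i (.L1 a) hi
      simp only [sL, sR, nw, oL, oR] at this
      rw [show nl lab.length (.L1 a) = 0 by simp only [nl, sL, sR, nw]; omega, chi_zero, sub_zero]
      exact chi_mono (by omega)
  rw [h3.tsum_eq] at key
  linarith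

namespace CS

def u (s : CS) : ℕ := s.lab.count true

def Inv (M : ℕ) (s : CS) (x : ℕ) : Prop :=
  true ∈ s.lab ∧ s.u ≤ x ∧ s.lab.length + 2 * s.u ≤ 3 * x ∧ s.lab.length ≤ M + 1

def T (M r : ℕ) (s : CS) : ℕ := if r ≤ s.j then 0 else (r - 1 - s.j) * (M + 1) + s.u

noncomputable def pa (M r : ℕ) (s : CS) (x : ℕ) : ℝ :=
  (27648 * (chi (M + 1) - chi s.lab.length) + s.j + 1 - s.u / x) / r

noncomputable def pb (M : ℕ) (s : CS) : ℝ :=
  if s.al = 0 ∨ s.be = 0 then 0 else chi (s.lab.length + s.al + s.be) / chi M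

def nx (s : CS) (x i : ℕ) (t : Step) : ℕ :=
  if true ∈ relab s.lab i t then x else (relab s.lab i t).length

lemma next_length (s : CS) (i : ℕ) (t : Step) :
    (s.next i t).lab.length = (relab s.lab i t).length := by
  unfold next; split_ifs <;> simp

lemma next_al (s : CS) (i : ℕ) (t : Step) : (s.next i t).al = s.al - oL i t := by
  unfold next; split_ifs <;> rfl

lemma next_be (s : CS) (i : ℕ) (t : Step) : (s.next i t).be = s.be - oR s.lab i t := by
  unfold next; split_ifs <;> rfl

lemma next_cases (s : CS) (x i : ℕ) (t : Step) :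
    ((s.next i t).j = s.j ∧ (s.next i t).u = (relab s.lab i t).count true ∧ s.nx x i t = x) ∨
    ((s.next i t).j = s.j + 1 ∧ (s.next i t).u = (relab s.lab i t).length ∧
      s.nx x i t = (relab s.lab i t).length ∧ (relab s.lab i t).count true = 0) := by
  unfold next nx u
  split_ifs with h
  · exact Or.inl ⟨rfl, rfl, rfl⟩
  · exact Or.inr ⟨rfl, by simp, rfl, count_zero h⟩

lemma next_inv {M : ℕ} {s : CS} {x i : ℕ} (h : s.Inv M x) (hi : s.lab[i]? = some true)
    (hM : s.lab.length < M) (t : Step) : (s.next i t).Inv M (s.nx x i t) := by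
  obtain ⟨-, a2, a3, -⟩ := h
  have h1 := relab_length_le s.lab i t (lt_of_get hi)
  have h2 := (relab_count t hi).1
  have h3 : s.u = s.lab.count true := rfl
  refine ⟨s.next_mem i t, ?_⟩
  rw [next_length]
  rcases s.next_cases x i t with ⟨-, b, c⟩ | ⟨-, b, c, -⟩ <;> rw [b, c] <;> omega

lemma next_T {M r : ℕ} {s : CS} {i : ℕ} (hi : s.lab[i]? = some true)
    (hM : s.lab.length < M) (hj : s.j < r) (t : Step) : (s.next i t).T M r + 1 ≤ s.T M r := by
  have h1 := relab_length_le s.lab i t (lt_of_get hi)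
  have h2 := (relab_count t hi).1
  have h3 : s.u = s.lab.count true := rfl
  unfold T
  rw [if_neg (show ¬ r ≤ s.j by omega)]
  rcases s.next_cases 0 i t with ⟨a, b, -⟩ | ⟨a, b, -⟩ <;> rw [a, b]
  · rw [if_neg (show ¬ r ≤ s.j by omega)]; omega
  · split_ifs
    · omega
    · have e : (r - 1 - s.j) * (M + 1) = (r - 1 - (s.j + 1)) * (M + 1) + (M + 1) := by
        rw [show r - 1 - s.j = r - 1 - (s.j + 1) + 1 by omega]; ring
      omega

lemma pb_nonneg (M : ℕ) (s : CS) : 0 ≤ s.pb M := by
  unfold pb; split_ifs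
  · exact le_rfl
  · exact div_nonneg (chi_nonneg _) (chi_nonneg _)

lemma pa_ge {M r : ℕ} {s : CS} {x : ℕ} (h : s.Inv M x) : (s.j : ℝ) / r ≤ s.pa M r x := by
  obtain ⟨-, a2, -, a4⟩ := h
  have h1 := chi_mono a4
  have h2 : (s.u : ℝ) / x ≤ 1 := div_le_one_of_le₀ (by exact_mod_cast a2) (Nat.cast_nonneg _)
  unfold pa
  gcongr; linarith

lemma pa_nonneg {M r : ℕ} {s : CS} {x : ℕ} (h : s.Inv M x) : 0 ≤ s.pa M r x :=
  le_trans (by positivity) (pa_ge h)

lemma one_le_pa {M r : ℕ} {s : CS} {x : ℕ} (h : s.Inv M x) (hr : 1 ≤ r) (hj : r ≤ s.j) :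
    1 ≤ s.pa M r x := by
  refine le_trans ?_ (pa_ge h)
  rw [one_le_div (by exact_mod_cast hr)]; exact_mod_cast hj

lemma step_le {M r : ℕ} {s : CS} {x i : ℕ} (h : s.Inv M x) (hi : s.lab[i]? = some true)
    (hM : 1 ≤ M) (hr : 1 ≤ r) (ha : s.al ≠ 0) (hb : s.be ≠ 0) {F : Step → ℝ} (h0 : ∀ t, 0 ≤ F t)
    (hF : ∀ t, F t ≤ 1 + (s.next i t).pa M r (s.nx x i t) + (s.next i t).pb M) :
    ∑' t, w t * F t ≤ 1 + s.pa M r x + s.pb M := by
  have hi' := lt_of_get hi
  obtain ⟨e, he, hle⟩ := gain s.lab i hi'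
  obtain ⟨a1, a2, a3, a4⟩ := h
  have u1 : 1 ≤ s.u := count_pos a1
  have x0 : (0 : ℝ) < x := by exact_mod_cast (show 0 < x by omega)
  have r0 : (0 : ℝ) < r := by exact_mod_cast hr
  have X0 : (0 : ℝ) < s.lab.length := by exact_mod_cast (show 0 < s.lab.length by omega)
  have M0 := chi_pos hM
  have hV := hasSum_chi (s.lab.length + s.al + s.be) (by omega)
  have hG : HasSum (fun t => w t * (1 + (27648 * (chi (M + 1) - chi (relab s.lab i t).length) + s.j
      + 1 - s.u / x + (1 + (t.sL + t.sR : ℕ)) / x) / r +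
      chi (nl (s.lab.length + s.al + s.be) t) / chi M))
      (1 + (27648 * (chi (M + 1) - e) + s.j + 1 - s.u / x + 2 / x) / r +
        chi (s.lab.length + s.al + s.be) / chi M) :=
    hs_congr' ((((hasSum_w.mul_right
      (1 + (27648 * chi (M + 1) + s.j + 1 - s.u / x + 1 / x) / r : ℝ)).sub
      (he.mul_right (27648 / r : ℝ))).add (hasSum_LR.mul_right (1 / x / r : ℝ))).add
      (hV.mul_right (1 / chi M))) (fun t => by ring) (by ring)
  refine (tsum_w_le h0 (fun t _ => (hF t).trans ?_) hG).trans ?_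
  · refine add_le_add (add_le_add le_rfl ?_) ?_
    · unfold pa
      rw [next_length]
      refine div_le_div_of_nonneg_right ?_ r0.le
      have c1 := (relab_count t hi).2
      have c2 : ((s.u : ℕ) : ℝ) ≤ ((relab s.lab i t).count true + 1 + (t.sL + t.sR) : ℕ) := by
        exact_mod_cast c1
      rw [Nat.cast_add _ (t.sL + t.sR), Nat.cast_add, Nat.cast_one] at c2
      have c3 := div_le_div_of_nonneg_right c2 x0.le
      rcases s.next_cases x i t with ⟨a, b, c⟩ | ⟨a, b, c, d⟩
      · rw [a, b, c]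
        rw [add_assoc, add_div] at c3
        linarith
      · have c4 : (((relab s.lab i t).length : ℕ) : ℝ) ≠ 0 := by
          have := relab_length_pos s.lab i t
          exact_mod_cast (show (relab s.lab i t).length ≠ 0 by omega)
        rw [a, b, c, div_self c4]
        rw [d, Nat.cast_zero, zero_add] at c3
        push_cast at c3 ⊢
        linarith
    · unfold pb
      split_ifs with hk
      · exact div_nonneg (chi_nonneg _) M0.le
      · rw [next_al, next_be] at hk
        have := relab_length s.lab i t hi'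
        rw [next_length, next_al, next_be]
        refine le_of_eq ?_
        congr 2
        unfold nl; omega
  · have c1 : (s.lab.length : ℝ) ≤ 3 * x := by exact_mod_cast (show s.lab.length ≤ 3 * x by omega)
    have c2 : 2 / (x : ℝ) ≤ 27648 * (1 / (4608 * s.lab.length)) := by
      rw [mul_one_div, div_le_div_iff₀ x0 (by positivity)]; linarith
    unfold pa pb
    rw [if_neg (by tauto)]
    gcongr 1 + ?_ / r + _
    linarith

lemma Fc_add_le {M r : ℕ} (hM : 1 ≤ M) (hr : 1 ≤ r) (n : ℕ) : ∀ (s : CS) (x : ℕ), s.Inv M x →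
    s.T M r ≤ n → Fc M r true n s + Fc M r false n s ≤ 1 + s.pa M r x + s.pb M := by
  induction n with
  | zero =>
    intro s x h hT
    have h1 : 1 ≤ s.u := count_pos h.1
    have h2 : r ≤ s.j := by
      unfold T at hT
      split_ifs at hT <;> omega
    linarith [(Fc_mem M r true 0 s).2, (Fc_mem M r false 0 s).2, one_le_pa h hr h2, s.pb_nonneg M]
  | succ n ih =>
    intro s x h hT
    have m1 := (Fc_mem M r true (n + 1) s).2
    have m2 := (Fc_mem M r false (n + 1) s).2
    have m3 := pa_nonneg (r := r) h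
    have m4 := s.pb_nonneg M
    by_cases ha : s.al = 0
    · have : Fc M r false (n + 1) s = 0 := by rw [Fc, if_pos (by simpa [own] using ha)]
      linarith
    by_cases hb : s.be = 0
    · have : Fc M r true (n + 1) s = 0 := by rw [Fc, if_pos (by simpa [own] using hb)]
      linarith
    by_cases hj : r ≤ s.j
    · linarith [one_le_pa h hr hj]
    by_cases hl : M ≤ s.lab.length
    · have : 1 ≤ s.pb M := by
        unfold pb
        rw [if_neg (by tauto), one_le_div (chi_pos hM)]
        exact chi_mono (by omega)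
      linarith
    have key : ∀ i, s.lab[i]? = some true →
        ∑' t, w t * Fc M r true n (s.next i t) + ∑' t, w t * Fc M r false n (s.next i t) ≤
          1 + s.pa M r x + s.pb M := by
      intro i hi
      rw [← (summable_w_bdd (fun t => (Fc_mem M r true n _).1) fun t => (Fc_mem M r true n _).2).tsum_add
        (summable_w_bdd (fun t => (Fc_mem M r false n _).1) fun t => (Fc_mem M r false n _).2)]
      simp only [← mul_add]
      refine step_le h hi hM hr ha hb
        (fun t => add_nonneg (Fc_mem M r true n _).1 (Fc_mem M r false n _).1) fun t => ?_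
      have := next_T (M := M) (r := r) hi (by omega) (by omega) t
      exact ih _ _ (next_inv h hi (by omega) t) (by omega)
    have k1 := key _ (fstT_get h.1)
    have k2 := key _ (lstT_get h.1)
    rw [Fc, Fc, if_neg (by simpa [own] using hb), if_neg (by simp [own, ha, hj, hl]),
      if_neg (by simpa [own] using ha), if_neg (by simp [own, hb, hj, hl])]
    linarith

end CS

theorem cover_bound : ∃ C : ℕ, ∀ N s : ℕ, 1 ≤ N → N ≤ s ^ 2 → ∃ M n : ℕ, ∀ side,
    Fc M (C * s) side n ⟨[true], N, N, 0⟩ ≤ 3 / 4 := by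
  refine ⟨14155776, fun N s hN hs => ?_⟩
  have s1 : 1 ≤ s := by
    rcases Nat.eq_zero_or_pos s with rfl | h
    · simp at hs; omega
    · exact h
  obtain ⟨s0, h0⟩ : ∃ s0 : CS, s0 = ⟨[true], N, N, 0⟩ := ⟨_, rfl⟩
  refine ⟨1024 * N, s0.T (1024 * N) (14155776 * s), ?_⟩
  rw [← h0]
  have hI : s0.Inv (1024 * N) 1 := by simp [h0, CS.Inv, CS.u]
  have h1 := CS.Fc_add_le (M := 1024 * N) (r := 14155776 * s) (by omega) (by omega) _ s0 1 hI le_rfl
  have h2 := Fc_mir (1024 * N) (14155776 * s) (s0.T (1024 * N) (14155776 * s)) true s0 hI.1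
  rw [show s0.mir = s0 by rw [h0]; rfl, Bool.not_true] at h2
  have N1 : (1 : ℝ) ≤ N := by exact_mod_cast hN
  have N2 : (N : ℝ) ≤ (s : ℝ) ^ 2 := by exact_mod_cast hs
  have s2 : (1 : ℝ) ≤ s := by exact_mod_cast s1
  have h3 : s0.pa (1024 * N) (14155776 * s) 1 ≤ 1 / 4 := by
    have a1 := chi_le_sqrt (1024 * N + 1)
    have a2 : √((1024 * N + 1 : ℕ) : ℝ) ≤ 64 * s := by
      rw [Real.sqrt_le_left (by positivity)]; push_cast; nlinarith
    have a3 := chi_nonneg 1
    simp only [h0, CS.pa, CS.u, List.length_singleton, List.count_cons_self, List.count_nil]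
    rw [div_le_iff₀ (by positivity)]
    push_cast
    linarith
  have h4 : s0.pb (1024 * N) ≤ 1 / 4 := by
    have a1 := chi_le_sqrt (1 + N + N)
    have a2 := sqrt_le_chi (1024 * N)
    have a3 : √((1 + N + N : ℕ) : ℝ) ≤ 2 * √N := by
      rw [Real.sqrt_le_left (by positivity), mul_pow, Real.sq_sqrt (by positivity)]
      push_cast; linarith
    have a4 : 32 * √(N : ℝ) ≤ √((1024 * N : ℕ) : ℝ) := by
      refine Real.le_sqrt_of_sq_le ?_
      rw [mul_pow, Real.sq_sqrt (by positivity)]; push_cast; linarith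
    simp only [h0, CS.pb, List.length_singleton]
    rw [if_neg (by omega), div_le_iff₀ (chi_pos (by omega))]
    linarith
  intro side
  cases side <;> linarith

end Pool.Agent.Lib.MP_abd955_pr
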