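import Pool.Agent.Lib.MP_abd955_pr.CoverA
import Pool.Agent.Lib.MP_abd955_pr.MachC

/-! The covering machine. -/

namespace Pool.Agent.Lib.MP_abd955_pr

open Equiv Equiv.Perm Finset Step Filter

/-- faces, inner darts, root, target, far dart -/
structure CP (D : Type) where
  f : Perm D
  I : Set D
  e : D
  T : D
  z : D

section
variable {D : Type} [DecidableEq D] [Fintype D]

structure Bs (P : CP D) (side : Bool) (ρ : ℕ) (i : ℕ × ℕ) (d j o : ℕ) (seg R : List D)
    (S : St D) (E : Perm D → Prop) : Prop where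
  wf : S.WF
  hl : Holes (S.K true) [seg ++ R]
  sz : SzH j i (S.K true).m (seg ++ R).length
  inn : ∀ u ∈ (S.K true).U \ (S.K true).X, u ∈ P.I ∧ (S.K true).f u = P.f u
  far : ∃ k, R[k]? = some P.z ∧ i.1 ≤ k + j ∧ i.1 + k ≤ R.length + j
  tar : P.T ∈ (S.K true).U →
    ∃ k, R[k]? = some P.T ∧ if side then k < o else R.length ≤ k + o
  wk : ∀ g, S.Ok g → ∀ u ∈ (S.K true).X, u ∈ P.I ∨ u ∈ seg → Walk g P.f P.I d (g P.e) (g u)
  ev : ∀ g, S.Ok g → E g → Av g P.f P.I (Bl g P.f P.I ρ (g P.e)) (g P.z) (g P.T)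

def InC (P : CP D) (side : Bool) (ρ : ℕ) (i : ℕ × ℕ) (d j o : ℕ) (lab : List Bool)
    (S : St D) (E : Perm D → Prop) : Prop :=
  ∃ seg R, ∃ p : D → Bool, Bs P side ρ i (d + 4) j o seg R S E ∧ seg.map p = lab ∧
    (∀ u ∈ (S.K true).U \ (S.K true).X, p u = false) ∧
    ∀ g, S.Ok g → ∀ u ∈ seg, p u = true → Walk g P.f P.I d (g P.e) (g u)

namespace Bs
variable {P : CP D} {side : Bool} {ρ d d' j o N : ℕ} {i : ℕ × ℕ} {seg R : List D} {S : St D}
  {E : Perm D → Prop} (h : Bs P side ρ i d j o seg R S E)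
include h

lemma memX {u : D} : u ∈ (S.K true).X ↔ u ∈ seg ∨ u ∈ R := h.hl.mem1.trans List.mem_append

lemma mono (e : d ≤ d') : Bs P side ρ i d' j o seg R S E :=
  { h with wk := fun g hg u hu hu' => (h.wk g hg u hu hu').mono e }

lemma zero (ho : o = 0) (hd : d ≤ ρ) (hj : j < i.2) (g : Perm D) (hg : S.Ok g) : ¬E g := fun hE => by
  have w := h.wf.wf true
  have h1 : ∀ u, Av g P.f P.I (Bl g P.f P.I ρ (g P.e)) (g P.z) u →
      u ∈ (S.K true).U \ (S.K true).X := fun u hu => by
    induction hu with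
    | base _ =>
      obtain ⟨k, hk, -⟩ := h.far
      exact (hg.pre h.wf true).inner w h.hl (by have := h.sz.1; omega)
        (h.memX.2 (Or.inr (List.mem_of_getElem? hk)))
    | @step u v s _ hv ih =>
      obtain ⟨a1, -, rfl | rfl | rfl⟩ := s
      · exact mem_sdiff.2 ⟨(hg.mem_iff h.wf true u).2 (mem_sdiff.1 ih).1,
          fun e => hv.not_mem ((h.wk g hg u e (Or.inl a1)).mono hd)⟩
      · have b1 := w.fI (w.fI (w.fI ih))
        have b2 := (w.four _ (mem_sdiff.1 ih).1 (mem_sdiff.1 ih).2).1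
        rw [(h.inn _ b1).2] at b2
        rwa [P.f.injective b2] at b1
      · rw [← (h.inn v ih).2]; exact w.fI ih
  obtain ⟨k, hk, e⟩ := h.tar ((hg.mem_iff h.wf true _).2 (mem_sdiff.1 (h1 _ (h.ev g hg hE))).1)
  have := (List.getElem?_eq_some_iff.1 hk).1
  split_ifs at e <;> omega

lemma reset : InC P side ρ i d j o (List.replicate seg.length true) S E :=
  ⟨seg, R, fun u => decide (u ∈ seg), h.mono (by omega),
    List.eq_replicate_iff.2 ⟨by simp, by simp⟩,
    fun u hu => decide_eq_false fun e => (mem_sdiff.1 hu).2 (h.memX.2 (Or.inl e)),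
    fun g hg u hu _ => h.wk g hg u (h.memX.2 (Or.inl hu)) (Or.inr hu)⟩

lemma restart (hs : seg ≠ []) (ho : o ≤ N) : ∃ y R', Bs P side ρ i d j N [y] R' S E := by
  obtain ⟨k, a1, a2, a3⟩ := h.far
  have a4 := (List.getElem?_eq_some_iff.1 a1).1
  cases side
  · obtain ⟨y, l, rfl⟩ := List.exists_cons_of_ne_nil hs
    have k1 : ∀ k, (l ++ R)[k + l.length]? = R[k]? := fun k => by
      rw [List.getElem?_append_right (by omega), Nat.add_sub_cancel]
    refine ⟨y, l ++ R, h.wf, h.hl, h.sz, h.inn, ⟨k + l.length, by rw [k1, a1], by omega,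
      by simp; omega⟩, fun e => ?_,
      fun g hg u hu hu' => h.wk g hg u hu (hu'.imp_right (by simp +contextual)), h.ev⟩
    obtain ⟨k', b1, b2⟩ := h.tar e
    exact ⟨k' + l.length, by rw [k1, b1], by simp at b2 ⊢; omega⟩
  · obtain ⟨l, y, rfl⟩ : ∃ l y, seg = l ++ [y] :=
      ⟨_, _, (List.dropLast_append_getLast hs).symm⟩
    refine ⟨y, R ++ l, h.wf, ?_, ?_, h.inn, ⟨k, by rw [List.getElem?_append_left a4, a1], a2,
      by simp; omega⟩, fun e => ?_,
      fun g hg u hu hu' => h.wk g hg u hu (hu'.imp_right (by simp +contextual)), h.ev⟩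
    · have := h.hl
      rw [List.append_assoc] at this
      simpa only [List.append_assoc] using this.comm
    · convert h.sz using 1; simp; omega
    · obtain ⟨k', b1, b2⟩ := h.tar e
      exact ⟨k', by rw [List.getElem?_append_left (List.getElem?_eq_some_iff.1 b1).1, b1],
        by simp at b2 ⊢; omega⟩

end Bs

lemma Bs.kid {P : CP D} {side : Bool} {ρ d j o : ℕ} {i : ℕ × ℕ} {seg R : List D} {S : St D}
    {E : Perm D → Prop} (h : Bs P side ρ i (d + 4) j o seg R S E) {pos v : ℕ} {x s : D} {t : Step}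
    {W : Finset D} (hi : pos < seg.length)
    (k : Kid S true x (seg.drop (pos + 1) ++ R ++ seg.take pos) t v s W)
    (hx : ∀ g, S.Ok g → Walk g P.f P.I d (g P.e) (g x))
    (G : j + (v + t.sL + t.sR + 2) + 1 ≤ i.1 ∧ j + (v + t.sL + t.sR + 2) + 1 ≤ i.2) :
    Bs P side ρ i (d + 4) (j + (v + t.sL + t.sR + 2))
      (o - if side then t.sR - (seg.length - 1 - pos) else t.sL - pos) (segN (S.K true) s seg pos t)
      (cut (t.sR - (seg.length - 1 - pos)) (t.sL - pos) R)
      (S.ch true x s (seg.drop (pos + 1) ++ R ++ seg.take pos) t W) E := by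
  obtain ⟨k0, a1, a2, a3⟩ := h.far
  have hl := k.seg hi (by omega)
  have sz := k.szH (j := j) (i := i) (by convert h.sz using 1; simp; omega) hl
  have nd := List.nodup_append.1 (h.hl.cyc _ List.mem_cons_self).1
  have w := h.wf.wf true
  refine ⟨k.wf', hl, sz, fun u hu => ?_, ⟨k0 - (t.sR - (seg.length - 1 - pos)), ?_, by omega,
    by rw [cut_len]; omega⟩, fun e => ?_, fun g hg u hu hu' => ?_, fun g hg => h.ev g (k.up hg).1⟩
  · obtain ⟨b1, b2⟩ := k.inner hu
    exact ⟨(h.inn u b1).1, b2.trans (h.inn u b1).2⟩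
  · rw [cut_get (by omega) (by omega), a1]
  · obtain ⟨k1, b1, b2⟩ := h.tar (k.subU e)
    have b3 := List.mem_of_getElem? b1
    have b4 := h.memX.2 (Or.inr b3)
    rcases List.mem_append.1 (hl.mem1.1 (k.X_of b4 e)) with b5 | b5
    · rcases segN_mem b5 with b6 | b6
      exacts [(nd.2.2 _ b6 _ b3 rfl).elim, ((mem_sdiff.1 (k.new_inner b6)).2 b4).elim]
    obtain ⟨b6, b7⟩ := cut_idx nd.2.1 b1 b5
    refine ⟨_, by rw [cut_get b6 b7, b1], ?_⟩
    rw [cut_len]
    split_ifs at b2 ⊢ <;> omega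
  obtain ⟨g1, g2, -⟩ := k.up hg
  have new : u ∈ newL (S.K true) s t → Walk g P.f P.I (d + 4) (g P.e) (g u) := fun e => by
    have b0 := hx g g1
    rw [g2] at b0
    have b1 := b0.sf
    rw [← (h.inn _ k.hs).2] at b1
    have b2 := b1.sf
    rw [← (h.inn _ (w.fI k.hs)).2] at b2
    have b3 := b2.sf
    rw [← (h.inn _ (w.fI (w.fI k.hs))).2] at b3
    refine Walk.sa ?_ (h.inn _ (k.inner ((hg.pre k.wf' true).inner (k.wf'.wf true) hl
      (by have := sz.1; omega) hu)).1).1
    rcases newL_mem e with rfl | rfl | rfl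
    exacts [b1.mono (by omega), b2.mono (by omega), b3]
  rcases k.X_sub hu with b | ⟨-, b⟩
  · rcases hu' with c | c
    · exact h.wk g g1 u b (Or.inl c)
    · exact (segN_mem c).elim (fun c => h.wk g g1 u b (Or.inr c)) new
  · exact new b

end

variable {D : ℕ × ℕ → Type} [∀ i, DecidableEq (D i)] [∀ i, Fintype (D i)] {P : ∀ i, CP (D i)}
  {side : Bool} {ρ N M r : ℕ}

lemma cover_step {d j : ℕ} {s : CS} {pos : ℕ} (hp : s.lab[pos]? = some true) {c : Step → ℝ}
    (c0 : ∀ t, 0 ≤ c t) (c1 : ∀ t, c t ≤ 1)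
    (h : ∀ t j, Bd FH (fun i => InC (P i) side ρ i (d + 4 * (s.next pos t).j) j
      ((s.next pos t).own side) (s.next pos t).lab) (c t)) :
    Bd FH (fun i => InC (P i) side ρ i (d + 4 * s.j) j (s.own side) s.lab) (∑' t, w t * c t) := by
  rw [← tsum_wt hasSum_wv2.summable (fun _ => wv_nonneg _ _) hasSum_wv c0 c1]
  refine Bd.step (mdH j) true (fun y => c0 _) (fun y => c1 _)
    (fun y => h y.1 (j + (y.2 + y.1.sL + y.1.sR + 2)))
    (fun y => evH_ge (j + (y.2 + y.1.sL + y.1.sR + 2) + 1)) (Eventually.of_forall ?_)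
  rintro i S E ⟨seg, R, p, b, hlab, hp0, hw⟩
  rw [← hlab, List.getElem?_map, Option.map_eq_some_iff] at hp
  obtain ⟨x, hx, px⟩ := hp
  have hi := (List.getElem?_eq_some_iff.1 hx).1
  refine ⟨b.wf, x, _, b.hl.at hx, by convert b.sz using 1; simp; omega, ?_⟩
  rintro ⟨t, v⟩ G s' W k
  have kb := b.kid hi k (fun g hg => hw g hg x (List.mem_of_getElem? hx) px) G
  have e1 := segN_map (K := S.K true) (s := s') (t := t) seg pos fun y hy => hp0 y (k.new_inner hy)
  have e2 : (s.next pos t).own side =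
      s.own side - if side then t.sR - (seg.length - 1 - pos) else t.sL - pos := by
    cases side <;> simp [CS.own, CS.next_al, CS.next_be, oL, oR, ← hlab]
  rw [hlab] at e1
  dsimp only
  rw [e2]
  unfold CS.next
  split_ifs with hc
  all_goals dsimp only
  all_goals first
    | refine ⟨_, _, p, by simpa [*] using kb, e1, fun u hu => hp0 u (k.inner hu).1,
        fun g hg u hu pu => hw g (k.up hg).1 u ((segN_mem hu).resolve_right fun e => ?_) pu⟩
      simp [hp0 u (k.new_inner e)] at pu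
    | have := kb.reset
      rw [← e1, List.length_map, mul_add, ← add_assoc]
      simpa [*] using this

lemma cover_in {d : ℕ} {c : ℝ} (c0 : 0 ≤ c) (c1 : c ≤ 1) (hρ : d + 4 * r + 4 ≤ ρ)
    (hR : ∀ j, Bd FH (fun i S E => ∃ y R, Bs (P i) side ρ i (d + 4 * r + 4) j N [y] R S E) c)
    (n : ℕ) : ∀ (s : CS) (j : ℕ), true ∈ s.lab → s.j ≤ r → s.own side ≤ N →
      Bd FH (fun i => InC (P i) side ρ i (d + 4 * s.j) j (s.own side) s.lab)
        (Fc M r side n s * c) := by
  have z : ∀ (s : CS) (j : ℕ), s.j ≤ r → s.own side = 0 →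
      Bd FH (fun i => InC (P i) side ρ i (d + 4 * s.j) j (s.own side) s.lab) (0 * c) := by
    intro s j h1 h2
    rw [zero_mul]
    refine Bd.zero ((evH_ge (j + 1)).mono ?_)
    rintro i hi S E ⟨seg, R, p, b, -⟩
    exact b.zero h2 (by omega) hi.2
  have o : ∀ (s : CS) (j : ℕ), true ∈ s.lab → s.j ≤ r → s.own side ≤ N →
      Bd FH (fun i => InC (P i) side ρ i (d + 4 * s.j) j (s.own side) s.lab) (1 * c) := by
    intro s j h0 h1 h2
    rw [one_mul]
    refine (hR j).of_imp (Eventually.of_forall ?_)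
    rintro i S E ⟨seg, R, p, b, e, -⟩
    exact (b.mono (by omega)).restart (by rintro rfl; simp [← e] at h0) h2
  induction n with
  | zero =>
    intro s j h0 h1 h2
    rw [Fc]
    split_ifs with e
    exacts [z s j h1 e, o s j h0 h1 h2]
  | succ n ih =>
    intro s j h0 h1 h2
    rw [Fc]
    split_ifs with e e'
    exacts [z s j h1 e, o s j h0 h1 h2, by
      have k : ∀ pos, s.lab[pos]? = some true →
          Bd FH (fun i => InC (P i) side ρ i (d + 4 * s.j) j (s.own side) s.lab)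
            ((∑' t, w t * Fc M r side n (s.next pos t)) * c) := fun pos hp => by
        rw [← tsum_mul_right]
        simp only [mul_assoc]
        refine cover_step hp (fun t => mul_nonneg (Fc_mem ..).1 c0)
          (fun t => mul_le_one₀ (Fc_mem ..).2 c0 c1) fun t j => ih _ j (s.next_mem pos t) ?_ ?_
        · unfold CS.next; split_ifs <;> dsimp only <;> omega
        · cases side <;> simp only [CS.own, CS.next_al, CS.next_be] at h2 ⊢ <;> simp at h2 ⊢ <;> omega
      exact ((k _ (fstT_get h0)).avg (k _ (lstT_get h0))).le (le_of_eq (by ring))]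

lemma cover_out {n : ℕ} (hF : Fc M r side n ⟨[true], N, N, 0⟩ ≤ 3 / 4) (q : ℕ) : ∀ d j,
    d + 4 * (r + 1) * q ≤ ρ →
      Bd FH (fun i S E => ∃ y R, Bs (P i) side ρ i d j N [y] R S E) ((3 / 4) ^ q) := by
  induction q with
  | zero => exact fun d j _ => Bd.one
  | succ q ih =>
    intro d j h
    have e : CS.own ⟨[true], N, N, 0⟩ side = N := by cases side <;> rfl
    have := cover_in (P := P) (M := M) (c := (3 / 4) ^ q) (by positivity)
      (pow_le_one₀ (by norm_num) (by norm_num)) (by nlinarith)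
      (fun j => ih (d + 4 * r + 4) j (by nlinarith)) n ⟨[true], N, N, 0⟩ j (by simp) (by simp) e.le
    refine (this.of_imp (Eventually.of_forall ?_)).le
      (by rw [pow_succ']; exact mul_le_mul_of_nonneg_right hF (by positivity))
    rintro i S E ⟨y, R, b⟩
    rw [e]
    exact b.reset

end Pool.Agent.Lib.MP_abd955_pr
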