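import Pool.Agent.Lib.MP_abd955_pr.EnumE

namespace Pool.Agent.Lib.MP_abd955_pr

open Enum PowerSeries Finset

/-- generating series indexed by the boundary length -/
noncomputable def Zl (l : ℕ) : ℝ⟦X⟧ := if Even l then ZZ (l / 2) else 0
noncomputable def zl (l : ℕ) : ℝ := if Even l then z (l / 2) else 0
noncomputable def hl (l : ℕ) : ℝ := if Even l then h (l / 2) else 0
noncomputable def Zm (ls : List ℕ) : ℝ⟦X⟧ := (ls.map Zl).prod

/-- raw peeling outcomes: where the two new corners are pinched -/
abbrev Raw := Option ℕ × Option ℕ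

def raws (l : ℕ) : Finset Raw :=
  {(none, none)} ∪ (range l).image (fun i => (some i, none)) ∪
    (range (l + 1)).image (fun i => (none, some i)) ∪
    ((range l ×ˢ range l).filter fun x => x.2 ≤ x.1).image fun x => (some x.1, some x.2)

/-- lengths of the holes after a raw step in a hole of length l -/
def rl (l : ℕ) : Raw → List ℕ
  | (none, none) => [l + 2]
  | (some i, none) => [i + 2, l - i]
  | (none, some i) => [i + 1, l + 1 - i]
  | (some i, some k) => [k + 1, i - k + 1, l - i]

inductive Step
  | N
  | R1 (a : ℕ)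
  | L2 (a : ℕ)
  | R2 (a : ℕ)
  | L1 (a : ℕ)
  | RR (a b : ℕ)
  | LR (a b : ℕ)
  | LL (a b : ℕ)
  deriving DecidableEq

namespace Step

/-- old boundary darts swallowed after the peeled dart -/
def sR : Step → ℕ
  | N => 0 | R1 a => a | L2 _ => 0 | R2 a => a | L1 _ => 0
  | RR a b => a + b | LR a _ => a | LL _ _ => 0

/-- old boundary darts swallowed before the peeled dart -/
def sL : Step → ℕ
  | N => 0 | R1 _ => 0 | L2 a => a | R2 _ => 0 | L1 a => a
  | RR _ _ => 0 | LR _ b => b | LL a b => a + b

/-- number of new darts in the main hole -/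
def nw : Step → ℕ
  | N => 3 | R1 _ => 1 | L2 _ => 2 | R2 _ => 2 | L1 _ => 1
  | RR _ _ => 1 | LR _ _ => 1 | LL _ _ => 1

/-- lengths of the finite holes -/
def fin : Step → List ℕ
  | N => [] | R1 a => [a + 2] | L2 a => [a + 1] | R2 a => [a + 1] | L1 a => [a + 2]
  | RR a b => [a + 1, b + 1] | LR a b => [a + 1, b + 1] | LL a b => [a + 1, b + 1]

/-- new length of the main hole -/
def nl (l : ℕ) (t : Step) : ℕ := l + t.nw - (1 + t.sL + t.sR)

noncomputable def w (t : Step) : ℝ := 3 / 8 * (t.fin.map zl).prod

noncomputable def wv (t : Step) (v : ℕ) : ℝ :=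
  3 / 8 * (2 / 9) ^ (t.fin.sum / 2) * coeff v (Zm t.fin) * (1 / 12) ^ v

end Step

open Step

/-- remove R entries at the front and L entries at the back -/
def cut {α : Type} (R L : ℕ) (l : List α) : List α := (l.drop R).take (l.length - R - L)

/-- labels after peeling position i (true = old, false = new) -/
def relab (lab : List Bool) (i : ℕ) (t : Step) : List Bool :=
  lab.take (i - t.sL) ++ List.replicate t.nw false ++ lab.drop (i + 1 + t.sR)

/-- overshoot on the left and on the right -/
def oL (i : ℕ) (t : Step) : ℕ := t.sL - i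
def oR (lab : List Bool) (i : ℕ) (t : Step) : ℕ := t.sR - (lab.length - 1 - i)

-- COVER machine
structure CS where
  lab : List Bool
  al : ℕ
  be : ℕ
  j : ℕ

def CS.next (s : CS) (i : ℕ) (t : Step) : CS :=
  if true ∈ relab s.lab i t then ⟨relab s.lab i t, s.al - oL i t, s.be - oR s.lab i t, s.j⟩
  else ⟨List.replicate (relab s.lab i t).length true, s.al - oL i t, s.be - oR s.lab i t, s.j + 1⟩

def fstT (lab : List Bool) : ℕ := lab.idxOf true
def lstT (lab : List Bool) : ℕ := lab.length - 1 - lab.reverse.idxOf true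

/-- allowance on the wanted side (true = right) -/
def CS.own (s : CS) (side : Bool) : ℕ := if side then s.be else s.al

noncomputable def Fc (M r : ℕ) (side : Bool) : ℕ → CS → ℝ
  | 0, s => if s.own side = 0 then 0 else 1
  | n + 1, s =>
    if s.own side = 0 then 0
    else if s.own (!side) = 0 ∨ M ≤ s.lab.length ∨ r ≤ s.j then 1
    else (∑' t, w t * Fc M r side n (s.next (fstT s.lab) t)) / 2 +
      (∑' t, w t * Fc M r side n (s.next (lstT s.lab) t)) / 2

-- EXTENT machine
structure ES where
  lab : Bool → List Bool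
  J : ℕ
  j : ℕ

/-- the copy in which one peels -/
def ES.cp (s : ES) : Bool := decide (true ∈ s.lab true)

/-- position of the median old dart -/
def med (lab : List Bool) : ℕ := (lab.idxsOf true).getD (lab.count true / 2) 0

def pad (a b : ℕ) (l : List Bool) : List Bool :=
  List.replicate a false ++ l ++ List.replicate b false

def ES.lab1 (two : Bool) (s : ES) (t : Step) (b : Bool) : List Bool :=
  let l := s.lab s.cp
  let i := med l
  if b = s.cp then pad (oR l i t) (oL i t) (relab l i t)
  else if two then pad (oL i t + oR l i t) (oL i t + oR l i t) (s.lab b) else s.lab b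

def ES.next (two : Bool) (s : ES) (t : Step) : ES :=
  let J := s.J + (oL (med (s.lab s.cp)) t + oR (s.lab s.cp) (med (s.lab s.cp)) t)
  if true ∈ s.lab1 two t true ∨ true ∈ s.lab1 two t false then ⟨s.lab1 two t, J, s.j⟩
  else ⟨fun b => List.replicate (s.lab1 two t b).length true, J, s.j + 1⟩

noncomputable def Fe (two : Bool) (R J0 M : ℕ) (η : ℝ) : ℕ → ES → ℝ
  | 0, s => if R ≤ s.j ∧ s.J < J0 then 0 else 1
  | n + 1, s =>
    if R ≤ s.j ∧ s.J < J0 then 0
    else if J0 ≤ s.J ∨ M ≤ (s.lab true).length + (s.lab false).length then 1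
    else min 1 (η + ∑' t, w t * Fe two R J0 M η n (s.next two t))

-- SPHERE machine
def slab (lab : List Bool) (t : Step) : List Bool :=
  List.replicate t.nw false ++ cut t.sR t.sL (lab.rotate (fstT lab)).tail

def snext (s : List Bool × ℕ) (t : Step) : List Bool × ℕ :=
  if true ∈ slab s.1 t then (slab s.1 t, s.2)
  else (List.replicate (slab s.1 t).length true, s.2 + 1)

noncomputable def Fs (R M : ℕ) (η : ℝ) : ℕ → List Bool × ℕ → ℝ
  | 0, s => if R ≤ s.2 then 0 else 1
  | n + 1, s =>
    if R ≤ s.2 then 0
    else if M ≤ s.1.length then 1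
    else min 1 (η + ∑' t, w t * hl (nl s.1.length t) / hl s.1.length * Fs R M η n (snext s t))

end Pool.Agent.Lib.MP_abd955_pr
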