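import Pool.Agent.Lib.MP_abd955_pr.Prim
import Pool.Agent.Lib.MP_abd955_pr.StepDefs

/-! Boundary cycles as lists, decomposition into components, the raw peeling step. -/

namespace Pool.Agent.Lib.MP_abd955_pr

open Equiv Equiv.Perm Finset

set_option linter.unusedSectionVars false

variable {D : Type} [DecidableEq D] [Fintype D]

def Cyc (f : Perm D) (l : List D) : Prop := l.Nodup ∧ l ≠ [] ∧ l.map f = l.rotate 1

lemma cyc_cons {f : Perm D} {u : D} {t : List D} :
    Cyc f (u :: t) ↔ (u :: t).Nodup ∧ (u :: t).map f = t ++ [u] := by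
  simp [Cyc, List.rotate_cons_succ]

lemma Cyc.rotate {f : Perm D} {l : List D} (h : Cyc f l) (n : ℕ) : Cyc f (l.rotate n) :=
  ⟨List.nodup_rotate.2 h.1, by simpa using h.2.1, by
    rw [List.map_rotate, h.2.2, List.rotate_rotate, List.rotate_rotate, add_comm]⟩

lemma Cyc.comm {f : Perm D} {A B : List D} (h : Cyc f (A ++ B)) : Cyc f (B ++ A) := by
  have := h.rotate A.length
  rwa [List.rotate_append_length_eq] at this

lemma Cyc.mem {f : Perm D} {l : List D} (h : Cyc f l) {x : D} (hx : x ∈ l) : f x ∈ l := by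
  rw [← List.mem_rotate (n := 1), ← h.2.2]; exact List.mem_map_of_mem hx

lemma Cyc.mem_of_sc {f : Perm D} {l : List D} (h : Cyc f l) {x y : D} (hx : x ∈ l)
    (e : f.SameCycle x y) : y ∈ l := sc_ind (P := (· ∈ l)) e hx fun _ hz => h.mem hz

lemma chain_sc {f : Perm D} {e : D} : ∀ (t : List D) (u : D), (u :: t).map f = t ++ [e] →
    ∀ y ∈ t, f.SameCycle u y
  | [], _, _, _, hy => by simp at hy
  | v :: t, u, h, y, hy => by
    simp only [List.map_cons, List.cons_append, List.cons.injEq] at h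
    have h1 : f.SameCycle u v := h.1 ▸ sc_step f u
    rcases List.mem_cons.1 hy with rfl | hy
    · exact h1
    · exact h1.trans (chain_sc t v (by simpa using h.2) y hy)

lemma Cyc.sc {f : Perm D} {l : List D} (h : Cyc f l) {x y : D} (hx : x ∈ l) (hy : y ∈ l) :
    f.SameCycle x y := by
  obtain ⟨u, t, rfl⟩ := List.exists_cons_of_ne_nil h.2.1
  have h1 : ∀ z ∈ u :: t, f.SameCycle u z := fun z hz => by
    rcases List.mem_cons.1 hz with rfl | hz
    exacts [SameCycle.refl _ _, chain_sc t u (cyc_cons.1 h).2 z hz]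
  exact (h1 x hx).symm.trans (h1 y hy)

lemma Cyc.congr {f g : Perm D} {l : List D} (h : Cyc f l) (e : ∀ x ∈ l, g x = f x) : Cyc g l :=
  ⟨h.1, h.2.1, by rw [← h.2.2]; exact List.map_congr_left e⟩

lemma Cyc.off {f : Perm D} {l : List D} (h : Cyc f l) {u v z : D} (hu : u ∈ l) (hv : v ∈ l)
    (hz : z ∉ l) : (swap u v * f) z = f z := by
  have : f z ∉ l := fun e => hz (h.mem_of_sc e (sc_step f z).symm)
  exact swap_apply_of_ne_of_ne (fun e => this (e ▸ hu)) fun e => this (e ▸ hv)

lemma map_swap_of {u y : D} {B : List D} (h1 : u ∉ B) (h2 : y ∉ B) : B.map (swap u y) = B := by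
  conv_rhs => rw [← List.map_id B]
  exact List.map_congr_left fun z hz =>
    swap_apply_of_ne_of_ne (fun e => h1 (e ▸ hz)) fun e => h2 (e ▸ hz)

lemma Cyc.split {f : Perm D} {u y : D} {B C : List D} (h : Cyc f (u :: (B ++ y :: C))) :
    Cyc (swap u y * f) (u :: B) ∧ Cyc (swap u y * f) (y :: C) := by
  obtain ⟨h1, h2⟩ := cyc_cons.1 h
  have h3 : (u :: B).map f ++ (y :: C).map f = (B ++ [y]) ++ (C ++ [u]) := by
    rw [← List.map_append]; simpa using h2
  obtain ⟨e1, e2⟩ := List.append_inj h3 (by simp)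
  simp only [List.nodup_cons, List.mem_append, List.mem_cons, not_or, List.nodup_append] at h1
  obtain ⟨⟨a1, a2, a3⟩, a4, ⟨a5, a6⟩, a7⟩ := h1
  have a8 : y ∉ B := fun e => a7 y e y (Or.inl rfl) rfl
  constructor
  · refine cyc_cons.2 ⟨List.nodup_cons.2 ⟨a1, a4⟩, ?_⟩
    rw [Perm.coe_mul, ← List.map_map, e1, List.map_append, map_swap_of a1 a8]; simp
  · refine cyc_cons.2 ⟨List.nodup_cons.2 ⟨a5, a6⟩, ?_⟩
    rw [Perm.coe_mul, ← List.map_map, e2, List.map_append, map_swap_of a3 a5]; simp

lemma Cyc.join {f : Perm D} {u y : D} {B C : List D} (h1 : Cyc f (u :: B)) (h2 : Cyc f (y :: C))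
    (hd : (u :: B).Disjoint (y :: C)) : Cyc (swap u y * f) (u :: (B ++ y :: C)) := by
  obtain ⟨a1, e1⟩ := cyc_cons.1 h1
  obtain ⟨a2, e2⟩ := cyc_cons.1 h2
  refine cyc_cons.2 ⟨List.Nodup.append a1 a2 hd, ?_⟩
  have b1 : y ∉ B := fun e => hd (List.mem_cons_of_mem _ e) List.mem_cons_self
  have b2 : u ∉ C := fun e => hd List.mem_cons_self (List.mem_cons_of_mem _ e)
  rw [Perm.coe_mul, ← List.map_map, ← List.cons_append, List.map_append, e1, e2]
  simp [map_swap_of (List.nodup_cons.1 a1).1 b1, map_swap_of b2 (List.nodup_cons.1 a2).1]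

lemma chain_uniq {f : Perm D} {e : D} : ∀ (t t' : List D) (u : D), (u :: t).map f = t ++ [e] →
    (u :: t').map f = t' ++ [e] → e ∉ t → e ∉ t' → t = t'
  | [], [], _, _, _, _, _ => rfl
  | [], v :: t', u, h, h', _, n => by
    simp only [List.map_cons, List.cons_append, List.cons.injEq, List.nil_append] at h h'
    exact absurd (by rw [← h.1, h'.1]; exact List.mem_cons_self) n
  | v :: t, [], u, h, h', n, _ => by
    simp only [List.map_cons, List.cons_append, List.cons.injEq, List.nil_append] at h h'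
    exact absurd (by rw [← h'.1, h.1]; exact List.mem_cons_self) n
  | v :: t, v' :: t', u, h, h', n, n' => by
    simp only [List.map_cons, List.cons_append, List.cons.injEq] at h h'
    obtain rfl : v = v' := h.1.symm.trans h'.1
    rw [chain_uniq t t' v (by simpa using h.2) (by simpa using h'.2)
      (fun e => n (List.mem_cons_of_mem _ e)) fun e => n' (List.mem_cons_of_mem _ e)]

lemma Cyc.uniq {f : Perm D} {u : D} {t t' : List D} (h : Cyc f (u :: t)) (h' : Cyc f (u :: t')) :
    t = t' :=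
  chain_uniq t t' u (cyc_cons.1 h).2 (cyc_cons.1 h').2 (List.nodup_cons.1 h.1).1
    (List.nodup_cons.1 h'.1).1

lemma Cyc.length_eq {f : Perm D} {l l' : List D} (h : Cyc f l) (h' : Cyc f l') {x : D}
    (hx : x ∈ l) (hx' : x ∈ l') : l.length = l'.length :=
  ((List.perm_ext_iff_of_nodup h.1 h'.1).2 fun _ =>
    ⟨fun hy => h'.mem_of_sc hx' (h.sc hx hy), fun hy => h.mem_of_sc hx (h'.sc hx' hy)⟩).length_eq

lemma Cyc.next {f : Perm D} {A B : List D} {x y : D} (h : Cyc f (A ++ x :: y :: B)) : f x = y := by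
  have := (cyc_cons.1 h.comm).2
  exact (List.cons.inj this).1

lemma Cyc.last {f : Perm D} {A : List D} {x y : D} (h : Cyc f (x :: (A ++ [y]))) : f y = x :=
  (Cyc.comm (A := x :: A) (B := [y]) h).next (A := [])

/-- the list of all boundary cycles -/
structure Holes (K : Cfg D) (ls : List (List D)) : Prop where
  cyc : ∀ l ∈ ls, Cyc K.f l
  nd : ls.flatten.Nodup
  mem : ∀ x, x ∈ K.X ↔ x ∈ ls.flatten

lemma Holes.perm {K : Cfg D} {ls ls' : List (List D)} (h : Holes K ls) (p : ls.Perm ls') :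
    Holes K ls' :=
  ⟨fun l hl => h.cyc l (p.mem_iff.2 hl), p.flatten.nodup_iff.1 h.nd,
    fun x => (h.mem x).trans p.flatten.mem_iff⟩

lemma Holes.comm {K : Cfg D} {A B : List D} {ls : List (List D)} (h : Holes K ((A ++ B) :: ls)) :
    Holes K ((B ++ A) :: ls) := by
  have p : ((A ++ B) :: ls).flatten.Perm ((B ++ A) :: ls).flatten :=
    List.perm_append_comm.append_right _
  refine ⟨fun l hl => ?_, p.nodup_iff.1 h.nd, fun x => (h.mem x).trans p.mem_iff⟩
  rcases List.mem_cons.1 hl with rfl | hl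
  exacts [(h.cyc _ List.mem_cons_self).comm, h.cyc l (List.mem_cons_of_mem _ hl)]

lemma Holes.disj {K : Cfg D} {l l' : List D} {ls : List (List D)} (h : Holes K (l :: ls))
    (hl : l' ∈ ls) {x : D} (hx : x ∈ l') : x ∉ l := fun e =>
  (List.nodup_append.1 h.nd).2.2 x e x (List.mem_flatten.2 ⟨l', hl, hx⟩) rfl

lemma Holes.sub {K : Cfg D} {l : List D} {ls : List (List D)} (h : Holes K ls) (hl : l ∈ ls)
    {x : D} (hx : x ∈ l) : x ∈ K.X := (h.mem x).2 (List.mem_flatten.2 ⟨l, hl, hx⟩)

lemma Holes.card {K : Cfg D} {ls : List (List D)} (h : Holes K ls) :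
    K.X.card = (ls.map List.length).sum := by
  rw [← List.length_flatten, ← List.toFinset_card_of_nodup h.nd]
  congr 1
  ext x; simp only [List.mem_toFinset]; exact h.mem x

lemma Holes.split {K : Cfg D} {u y : D} {B C : List D} {ls : List (List D)}
    (h : Holes K ((u :: (B ++ y :: C)) :: ls)) :
    Holes (K.sw u y) ((u :: B) :: (y :: C) :: ls) := by
  have c := h.cyc _ List.mem_cons_self
  refine ⟨fun l hl => ?_, by simpa using h.nd, fun x => (h.mem x).trans (by simp)⟩
  simp only [List.mem_cons] at hl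
  rcases hl with rfl | rfl | hl
  exacts [c.split.1, c.split.2, (h.cyc l (List.mem_cons_of_mem _ hl)).congr fun x hx =>
    c.off (by simp) (by simp) (h.disj hl hx)]

lemma Holes.peel {K : Cfg D} {x s : D} {rest : List D} {ls : List (List D)} (ok : PeelOk K x s)
    (h : Holes K ((x :: rest) :: ls)) :
    Holes (K.peel x s)
      ((K.f (K.f s) :: ([K.f (K.f (K.f s))] ++ (rest ++ [K.f s]))) :: ls) := by
  have c := h.cyc _ List.mem_cons_self
  have nd := h.nd
  have i1 := mt (h.mem _).2 ok.n1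
  have i2 := mt (h.mem _).2 ok.n2
  have i3 := mt (h.mem _).2 ok.n3
  have i0 := mt (h.mem _).2 ok.hs'
  have d1 := ok.d1
  have d2 := ok.d2
  have hsq : Cyc K.f [K.f s, K.f (K.f s), K.f (K.f (K.f s)), s] := by
    refine cyc_cons.2 ⟨?_, by simp [ok.e4]⟩
    simp [d1, d2, ok.d3, d1.symm, d2.symm]
  simp only [List.flatten_cons, List.cons_append, List.mem_cons, List.mem_append, not_or] at i0 i1 i2 i3
  obtain ⟨y, r, rfl⟩ : ∃ y r, rest = y :: r := by
    cases rest with
    | nil => exact absurd (by simpa using (cyc_cons.1 c).2) ok.fx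
    | cons y r => exact ⟨y, r, rfl⟩
  have hy : K.f x = y := c.next (A := [])
  have j := c.join hsq (by
    intro z h1 h2
    simp only [List.mem_cons, List.not_mem_nil, or_false] at h1 h2 i0 i1 i2 i3
    rcases h2 with rfl | rfl | rfl | rfl <;> tauto)
  have j2 : Cyc (swap x (K.f s) * K.f)
      (s :: ([x] ++ y :: (r ++ [K.f s, K.f (K.f s), K.f (K.f (K.f s))]))) := by
    have := Cyc.comm (A := x :: y :: (r ++ [K.f s, K.f (K.f s), K.f (K.f (K.f s))])) (B := [s])
      (f := swap x (K.f s) * K.f) (by simpa using j)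
    simpa using this
  have j3 := j2.split.2
  refine ⟨fun l hl => ?_, ?_, fun z => ?_⟩
  · rcases List.mem_cons.1 hl with rfl | hl
    · have := Cyc.comm (A := y :: (r ++ [K.f s])) (B := [K.f (K.f s), K.f (K.f (K.f s))])
        (f := swap s y * (swap x (K.f s) * K.f)) (by simpa using j3)
      simpa [Cfg.peel, hy] using this
    · have c' := h.cyc l (List.mem_cons_of_mem _ hl)
      refine c'.congr fun z hz => ok.g_of ?_ ?_ ?_ ?_
      · exact fun e => h.disj hl hz (e ▸ List.mem_cons_self)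
      · exact fun e => ok.hs' (e ▸ h.sub (List.mem_cons_of_mem _ hl) hz)
      · exact fun e => h.disj hl (c'.mem hz) (e ▸ List.mem_cons_self)
      · exact fun e => ok.hs' (e ▸ h.sub (List.mem_cons_of_mem _ hl) (c'.mem hz))
  · have p : (((K.f (K.f s) :: ([K.f (K.f (K.f s))] ++ (y :: r ++ [K.f s]))) :: ls).flatten).Perm
        (K.f (K.f s) :: K.f (K.f (K.f s)) :: K.f s :: (y :: r ++ ls.flatten)) := by
      simp only [List.flatten_cons, List.cons_append, List.nil_append, List.append_assoc]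
      exact ((List.perm_middle (l₁ := y :: r)).cons _).cons _
    rw [p.nodup_iff]
    have nd' := (List.nodup_cons.1 nd).2
    simp only [List.nodup_cons, List.mem_cons, List.mem_append, not_or] at i1 i2 i3 ⊢
    refine ⟨⟨by simp [d1.symm], by simp [d1], by tauto⟩, ⟨by simp [d2], by tauto⟩, by tauto, ?_⟩
    simpa using nd'
  · rw [ok.memX, h.mem]
    have := (List.nodup_cons.1 nd).1
    simp only [List.flatten_cons, List.cons_append, List.mem_cons, List.mem_append,
      List.nil_append, List.not_mem_nil, or_false] at this ⊢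
    by_cases e : z = x
    · subst e
      simp only [List.mem_cons, not_or] at i1 i2 i3
      simp only [List.append_eq, List.mem_append, List.mem_cons] at this
      tauto
    · tauto

end Pool.Agent.Lib.MP_abd955_pr
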