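import Mathlib

/-! Raney numbers and the series B with B = 1 + X B^s. -/

namespace Pool.Agent.Lib.MP_abd955_pr.Enum

open PowerSeries Finset

/-- coefficient of x^n in B^k, where B = 1 + x B^s -/
noncomputable def ra (s k n : ℕ) : ℝ :=
  if n = 0 then 1 else (k : ℝ) / n * (Nat.choose (s * n + k - 1) (n - 1) : ℕ)

lemma ra_zero (s k : ℕ) : ra s k 0 = 1 := by simp [ra]

lemma ra_zero_left (s n : ℕ) : ra s 0 (n + 1) = 0 := by simp [ra]

lemma ra_nonneg (s k n : ℕ) : 0 ≤ ra s k n := by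
  unfold ra; split_ifs <;> positivity

lemma ra_succ (s k n : ℕ) :
    ra s k (n + 1) = (k : ℝ) / (n + 1) * (Nat.choose (s * (n + 1) + k - 1) n : ℕ) := by
  simp [ra]

lemma ra_rec (s k n : ℕ) (hs : 1 ≤ s) :
    ra s (k + 1) (n + 1) = ra s k (n + 1) + ra s (k + s) n := by
  rcases n with _ | n
  · simp [ra]
  · rw [ra_succ, ra_succ, ra_succ]
    obtain ⟨N, hN⟩ : ∃ N, N = s * (n + 1 + 1) + k - 1 := ⟨_, rfl⟩
    have h0 : s * (n + 1 + 1) = s * n + 2 * s := by ring
    have h00 : s * (n + 1) = s * n + s := by ring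
    have hsn : n ≤ s * n := Nat.le_mul_of_pos_left n hs
    have h1 : s * (n + 1 + 1) + (k + 1) - 1 = N + 1 := by omega
    have h2 : s * (n + 1) + (k + s) - 1 = N := by omega
    rw [h1, h2, ← hN, Nat.choose_succ_succ']
    have h3 := Nat.choose_succ_right_eq N n
    have h4 : ((N - n : ℕ) : ℝ) = s * n + 2 * s + k - 1 - n := by
      have : N - n + 1 + n = s * n + 2 * s + k := by omega
      have h5 : ((N - n + 1 + n : ℕ) : ℝ) = ((s * n + 2 * s + k : ℕ) : ℝ) := by rw [this]
      push_cast at h5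
      linarith
    have h6 : ((N.choose (n + 1) : ℕ) : ℝ) * (n + 1) = (N.choose n : ℕ) * (s * n + 2 * s + k - 1 - n) := by
      rw [← h4]; exact_mod_cast h3
    push_cast
    field_simp
    linear_combination h6

/-- the series with coefficients ra s k -/
noncomputable def P (s k : ℕ) : ℝ⟦X⟧ := PowerSeries.mk (ra s k)

lemma coeff_P (s k n : ℕ) : coeff n (P s k) = ra s k n := by simp [P]

lemma P_zero (s : ℕ) : P s 0 = 1 := by
  ext n
  rcases n with _ | n
  · simp [P, ra_zero]
  · simp [P, ra_zero_left, coeff_one]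

lemma P_succ (s k : ℕ) (hs : 1 ≤ s) : P s (k + 1) = P s k + X * P s (k + s) := by
  ext n
  rcases n with _ | n
  · simp [P, ra_zero]
  · rw [map_add, coeff_succ_X_mul, coeff_P, coeff_P, coeff_P, ra_rec s k n hs]

lemma P_add_coeff (s : ℕ) (hs : 1 ≤ s) (n : ℕ) :
    ∀ k l, coeff n (P s (k + l)) = coeff n (P s k * P s l) := by
  induction n with
  | zero => intro k l; simp [P, ra_zero]
  | succ n ih =>
    intro k l
    induction k with
    | zero => simp [P_zero]
    | succ k ihk =>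
      have e : k + 1 + l = k + l + 1 := by ring
      have e2 : k + l + s = k + s + l := by ring
      rw [e, P_succ s _ hs, P_succ s k hs, add_mul, map_add, map_add, ihk, mul_assoc,
        coeff_succ_X_mul, coeff_succ_X_mul, e2, ih]

lemma P_add (s k l : ℕ) (hs : 1 ≤ s) : P s (k + l) = P s k * P s l := by
  ext n; exact P_add_coeff s hs n k l

lemma P_pow (s k : ℕ) (hs : 1 ≤ s) : P s 1 ^ k = P s k := by
  induction k with
  | zero => simp [P_zero]
  | succ k ih => rw [pow_succ, ih, P_add s k 1 hs]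

lemma P_eq (s : ℕ) (hs : 1 ≤ s) : P s 1 = 1 + X * P s 1 ^ s := by
  have := P_succ s 0 hs
  rw [P_zero, zero_add, zero_add] at this
  rw [P_pow s s hs]; exact this

lemma ra_conv (s k l n : ℕ) (hs : 1 ≤ s) :
    ra s (k + l) n = ∑ p ∈ antidiagonal n, ra s k p.1 * ra s l p.2 := by
  rw [← coeff_P, P_add s k l hs, coeff_mul]
  simp [coeff_P]

/-- factorial form -/
lemma ra_fact (s k n : ℕ) (hk : 1 ≤ k) :
    ra (s + 1) k n =
      k * ((s + 1) * n + k - 1).factorial / (n.factorial * (s * n + k).factorial) := by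
  rcases n with _ | n
  · obtain ⟨j, rfl⟩ : ∃ j, k = j + 1 := ⟨k - 1, by omega⟩
    simp [ra_zero, Nat.factorial_succ]
    field_simp
  · rw [ra_succ]
    obtain ⟨N, hN⟩ : ∃ N, N = (s + 1) * (n + 1) + k - 1 := ⟨_, rfl⟩
    have h0 : (s + 1) * (n + 1) = s * (n + 1) + n + 1 := by ring
    have h1 : N = n + (s * (n + 1) + k) := by omega
    rw [← hN, h1, Nat.cast_add_choose ℝ, Nat.factorial_succ n]
    push_cast
    field_simp

end Pool.Agent.Lib.MP_abd955_pr.Enum
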