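import Pool.Agent.Lib.MP_abd955_pr.EnumA

/-! Solution of the Tutte recursion for quadrangulations with a simple boundary. -/

namespace Pool.Agent.Lib.MP_abd955_pr.Enum

open PowerSeries Finset

/-- R = 1 + 3 g R^2 -/
noncomputable def RR : ℝ⟦X⟧ := rescale 3 (P 2 1)

lemma RR_eq : RR = 1 + 3 * X * RR ^ 2 := by
  have h := congrArg (rescale (3 : ℝ)) (P_eq 2 (by norm_num))
  rw [map_add, map_one, map_mul, map_pow, rescale_X] at h
  rw [RR]
  have h3 : (C (3 : ℝ) : ℝ⟦X⟧) = 3 := map_ofNat _ 3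
  rw [h3] at h
  exact h

lemma coeff_RR_pow (k n : ℕ) : coeff n (RR ^ k) = 3 ^ n * ra 2 k n := by
  rw [RR, ← map_pow, P_pow 2 k (by norm_num), coeff_rescale, coeff_P]

/-- generating function in g of quadrangulations with simple boundary of length 2p -/
noncomputable def ZZ : ℕ → ℝ⟦X⟧
  | 0 => 0
  | j + 1 => C (ra 3 1 j) * X ^ j * RR ^ (3 * j + 1) - C (ra 3 2 j) * X ^ (j + 1) * RR ^ (3 * j + 3)

noncomputable def TT : ℝ⟦X⟧⟦X⟧ := rescale (X * RR ^ 3) (PowerSeries.map C (P 3 1))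

lemma TT_eq : TT = 1 + X * C (X * RR ^ 3) * TT ^ 3 := by
  have h := congrArg (fun u => rescale (X * RR ^ 3 : ℝ⟦X⟧) (PowerSeries.map (C : ℝ →+* ℝ⟦X⟧) u))
    (P_eq 3 (by norm_num))
  simp only [map_add, map_one, map_mul, map_pow, PowerSeries.map_X, rescale_X] at h
  rw [TT]
  simp only [map_mul, map_pow]
  linear_combination h

lemma coeff_TT_pow (k j : ℕ) : coeff j (TT ^ k) = (X * RR ^ 3) ^ j * C (ra 3 k j) := by
  rw [TT, ← map_pow, ← map_pow, P_pow 3 k (by norm_num), coeff_rescale, coeff_map, coeff_P]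

noncomputable def FF : ℝ⟦X⟧⟦X⟧ := PowerSeries.mk ZZ

lemma FF_eq : FF = X * C RR * TT - X * C (X * RR ^ 3) * TT ^ 2 := by
  ext1 p
  rcases p with _ | j
  · simp [FF, ZZ, mul_assoc]
  · have h1 := coeff_TT_pow 1 j
    rw [pow_one] at h1
    rw [map_sub, mul_assoc, mul_assoc, coeff_succ_X_mul, coeff_succ_X_mul, coeff_C_mul, coeff_C_mul,
      h1, coeff_TT_pow, FF, coeff_mk, ZZ]
    ring

lemma ZZ_one : ZZ 1 = RR - X * RR ^ 3 := by
  simp [ZZ, ra_zero]

lemma cubic_aux {A : Type*} [CommRing A] (g y R T : A) (h1 : R = 1 + 3 * g * R ^ 2)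
    (h2 : T = 1 + y * (g * R ^ 3) * T ^ 3) :
    y * (y * R * T - y * (g * R ^ 3) * T ^ 2) = y ^ 2 +
      g * ((y * R * T - y * (g * R ^ 3) * T ^ 2) - (R - g * R ^ 3) * y
        + 2 * (y * R * T - y * (g * R ^ 3) * T ^ 2) ^ 2
        + (y * R * T - y * (g * R ^ 3) * T ^ 2) ^ 3) := by
  grind

lemma FF_cubic : X * FF = X ^ 2 + C X * (FF - C (ZZ 1) * X + 2 * FF ^ 2 + FF ^ 3) := by
  have h1 : (C RR : ℝ⟦X⟧⟦X⟧) = 1 + 3 * C X * C RR ^ 2 := by
    have := congrArg (C : ℝ⟦X⟧ →+* ℝ⟦X⟧⟦X⟧) RR_eq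
    simpa only [map_add, map_one, map_mul, map_pow, map_ofNat] using this
  have h2 := TT_eq
  rw [map_mul, map_pow] at h2
  have h3 := cubic_aux (C X) X (C RR) TT h1 h2
  rw [FF_eq, ZZ_one]
  simp only [map_mul, map_pow, map_sub]
  exact h3

/-- number of quadrangulations with n inner faces and a simple boundary of length 2p -/
noncomputable def q (n p : ℕ) : ℝ := coeff n (ZZ p)

/-- two piece convolution -/
noncomputable def q2 (n p : ℕ) : ℝ :=
  ∑ k ∈ antidiagonal p, ∑ a ∈ antidiagonal n, q a.1 k.1 * q a.2 k.2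

/-- three piece convolution -/
noncomputable def q3 (n p : ℕ) : ℝ :=
  ∑ k ∈ antidiagonal p, ∑ a ∈ antidiagonal n, q a.1 k.1 * q2 a.2 k.2

lemma q2_eq (n p : ℕ) : q2 n p = coeff n (coeff p (FF ^ 2)) := by
  simp [q2, q, pow_two, coeff_mul, FF, map_sum]

lemma q3_eq (n p : ℕ) : q3 n p = coeff n (coeff p (FF ^ 3)) := by
  rw [pow_succ' FF 2, coeff_mul, map_sum]
  simp only [coeff_mul]
  simp only [q3, q2_eq, q, FF, coeff_mk]

lemma q_zero_right (n : ℕ) : q n 0 = 0 := by simp [q, ZZ]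

lemma ZZ_rec (p : ℕ) (hp : 1 ≤ p) :
    ZZ p = (if p = 1 then 1 else 0) +
      X * (ZZ (p + 1) + 2 * coeff (p + 1) (FF ^ 2) + coeff (p + 1) (FF ^ 3)) := by
  have h := congrArg (coeff (p + 1)) FF_cubic
  have h2 : (2 : ℝ⟦X⟧⟦X⟧) = C 2 := (map_ofNat _ 2).symm
  rw [coeff_succ_X_mul, map_add, coeff_C_mul, map_add, map_add, map_sub, coeff_C_mul, h2,
    coeff_C_mul, coeff_X, coeff_X_pow, if_neg (show ¬ (p + 1 = 1) by omega)] at h
  simp only [FF, coeff_mk] at h ⊢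
  rw [h]
  by_cases h1 : p = 1
  · simp [h1]
  · rw [if_neg h1, if_neg (by omega)]; ring

lemma q_zero_left (p : ℕ) : q 0 p = if p = 1 then 1 else 0 := by
  rcases Nat.eq_zero_or_pos p with rfl | hp
  · simp [q_zero_right]
  · rw [q, ZZ_rec p hp]
    split_ifs <;> simp

/-- Tutte recursion -/
theorem q_rec (n p : ℕ) (hp : 1 ≤ p) :
    q (n + 1) p = q n (p + 1) + 2 * q2 n (p + 1) + q3 n (p + 1) := by
  have h2 : (2 : ℝ⟦X⟧) = C 2 := (map_ofNat _ 2).symm
  rw [q, ZZ_rec p hp, map_add, coeff_succ_X_mul, map_add, map_add, h2, coeff_C_mul, q2_eq, q3_eq, q]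
  split_ifs <;> simp [coeff_one]

/-- any solution of the recursion is q -/
theorem q_unique (u : ℕ → ℕ → ℝ) (h0 : ∀ n, u n 0 = 0)
    (h1 : ∀ p, u 0 p = if p = 1 then 1 else 0)
    (h2 : ∀ n p, 1 ≤ p → u (n + 1) p = u n (p + 1)
      + 2 * ∑ k ∈ antidiagonal (p + 1), ∑ a ∈ antidiagonal n, u a.1 k.1 * u a.2 k.2
      + ∑ k ∈ antidiagonal (p + 1), ∑ a ∈ antidiagonal n, u a.1 k.1 *
          ∑ l ∈ antidiagonal k.2, ∑ b ∈ antidiagonal a.2, u b.1 l.1 * u b.2 l.2) :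
    ∀ n p, u n p = q n p := by
  intro n
  induction n using Nat.strong_induction_on with
  | _ n ih =>
    intro p
    rcases n with _ | n
    · rw [h1, q_zero_left]
    rcases Nat.eq_zero_or_pos p with rfl | hp
    · rw [h0, q_zero_right]
    have e2 : ∀ m ≤ n, ∀ r, ∑ k ∈ antidiagonal r, ∑ a ∈ antidiagonal m, u a.1 k.1 * u a.2 k.2
        = q2 m r := by
      intro m hm r
      refine sum_congr rfl fun k _ => sum_congr rfl fun a ha => ?_
      have := mem_antidiagonal.1 ha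
      rw [ih a.1 (by omega), ih a.2 (by omega)]
    rw [h2 n p hp, q_rec n p hp, ih n (by omega), e2 n le_rfl, q3]
    congr 1
    refine sum_congr rfl fun k _ => sum_congr rfl fun a ha => ?_
    have := mem_antidiagonal.1 ha
    rw [ih a.1 (by omega), e2 a.2 (by omega)]

lemma q_lt (n j : ℕ) (h : n < j) : q n (j + 1) = 0 := by
  rw [q, ZZ, map_sub, mul_assoc, mul_assoc, coeff_C_mul, coeff_C_mul, coeff_X_pow_mul',
    coeff_X_pow_mul', if_neg (by omega), if_neg (by omega)]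
  simp

/-- closed form -/
theorem q_closed (j m : ℕ) : q (j + m) (j + 1) =
    3 ^ m * (3 * j + 2).factorial * (3 * j + 2 * m).factorial /
      (j.factorial * (2 * j + 1).factorial * m.factorial * (3 * j + m + 2).factorial) := by
  rw [q, ZZ, map_sub, mul_assoc, mul_assoc, coeff_C_mul, coeff_C_mul, coeff_X_pow_mul',
    coeff_X_pow_mul', if_pos (by omega), coeff_RR_pow, show j + m - j = m by omega]
  have a1 := ra_fact 2 1 j le_rfl
  have a2 := ra_fact 2 2 j (by norm_num)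
  have a3 := ra_fact 1 (3 * j + 1) m (by omega)
  rw [show (2 + 1) * j + 1 - 1 = 3 * j by omega] at a1
  rw [show (2 + 1) * j + 2 - 1 = 3 * j + 1 by omega] at a2
  rw [show (1 + 1) * m + (3 * j + 1) - 1 = 3 * j + 2 * m by omega,
    show 1 * m + (3 * j + 1) = 3 * j + m + 1 by omega] at a3
  rw [show (2 : ℕ) + 1 = 3 by rfl] at a1 a2
  rw [show (1 : ℕ) + 1 = 2 by rfl] at a3
  rw [a1, a3]
  rcases m with _ | m
  · rw [if_neg (by omega)]
    simp only [Nat.factorial_succ, mul_zero, add_zero, Nat.factorial_zero]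
    push_cast
    field_simp
    ring
  · have a4 := ra_fact 1 (3 * j + 3) m (by omega)
    rw [show (1 + 1) * m + (3 * j + 3) - 1 = 3 * j + 2 * (m + 1) by omega,
      show 1 * m + (3 * j + 3) = 3 * j + (m + 1) + 2 by omega, show (1 : ℕ) + 1 = 2 by rfl] at a4
    rw [if_pos (by omega), coeff_RR_pow, show j + (m + 1) - (j + 1) = m by omega, a2, a4]
    rw [Nat.factorial_succ (3 * j + (m + 1) + 1), Nat.factorial_succ (3 * j + 1),
      Nat.factorial_succ (3 * j), Nat.factorial_succ (2 * j + 1), Nat.factorial_succ m]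
    push_cast
    field_simp
    ring

lemma q_pos (n j : ℕ) (h : j ≤ n) : 0 < q n (j + 1) := by
  obtain ⟨m, rfl⟩ := Nat.exists_eq_add_of_le h
  rw [q_closed]; positivity

lemma q_nonneg (n p : ℕ) : 0 ≤ q n p := by
  rcases p with _ | j
  · rw [q_zero_right]
  · rcases lt_or_ge n j with h | h
    · rw [q_lt n j h]
    · exact (q_pos n j h).le

end Pool.Agent.Lib.MP_abd955_pr.Enum
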