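import Pool.Agent.Lib.MP_abd955_pr.EnumB

/-! Critical sums: Boltzmann weights z and the harmonic function h. -/

namespace Pool.Agent.Lib.MP_abd955_pr.Enum

open PowerSeries Finset Filter Topology

lemma sum_range_conv_le (a b : ℕ → ℝ) (ha : ∀ n, 0 ≤ a n) (hb : ∀ n, 0 ≤ b n) (N : ℕ) :
    ∑ n ∈ range N, ∑ p ∈ antidiagonal n, a p.1 * b p.2 ≤
      (∑ n ∈ range N, a n) * ∑ n ∈ range N, b n := by
  rw [sum_mul_sum, ← sum_product', ← sum_biUnion]
  · refine sum_le_sum_of_subset_of_nonneg ?_ fun p _ _ => mul_nonneg (ha _) (hb _)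
    intro p hp
    simp only [mem_biUnion, mem_range, HasAntidiagonal.mem_antidiagonal, mem_product] at *
    obtain ⟨n, h1, h2⟩ := hp
    omega
  · intro n _ m _ hnm
    rw [Function.onFun, disjoint_left]
    intro p h1 h2
    rw [HasAntidiagonal.mem_antidiagonal] at h1 h2
    omega

lemma hs_congr {f g : ℕ → ℝ} {a b : ℝ} (h : HasSum f a) (hf : ∀ n, g n = f n) (ha : b = a) :
    HasSum g b := by
  rw [ha, funext hf]; exact h

lemma ra_mul_conv (s k l n : ℕ) (hs : 1 ≤ s) (x : ℝ) :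
    ra s (k + l) n * x ^ n =
      ∑ p ∈ antidiagonal n, (ra s k p.1 * x ^ p.1) * (ra s l p.2 * x ^ p.2) := by
  rw [ra_conv s k l n hs, sum_mul]
  refine sum_congr rfl fun p hp => ?_
  rw [← mem_antidiagonal.1 hp, pow_add]; ring

lemma partial_pow_le (s : ℕ) (hs : 1 ≤ s) (x : ℝ) (hx : 0 ≤ x) (N k : ℕ) (hN : 1 ≤ N) :
    ∑ n ∈ range N, ra s k n * x ^ n ≤ (∑ n ∈ range N, ra s 1 n * x ^ n) ^ k := by
  induction k with
  | zero =>
    obtain ⟨M, rfl⟩ := Nat.exists_eq_add_of_le' hN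
    simp [sum_range_succ', ra_zero_left, ra_zero]
  | succ k ih =>
    simp only [ra_mul_conv s k 1 _ hs x]
    refine (sum_range_conv_le (fun n => ra s k n * x ^ n) (fun n => ra s 1 n * x ^ n)
      (fun n => mul_nonneg (ra_nonneg _ _ _) (pow_nonneg hx _))
      (fun n => mul_nonneg (ra_nonneg _ _ _) (pow_nonneg hx _)) N).trans ?_
    rw [pow_succ]
    exact mul_le_mul_of_nonneg_right ih
      (sum_nonneg fun n _ => mul_nonneg (ra_nonneg _ _ _) (pow_nonneg hx _))

lemma ra_one_succ (s n : ℕ) (hs : 1 ≤ s) : ra s 1 (n + 1) = ra s s n := by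
  have := ra_rec s 0 n hs
  simpa [ra_zero_left] using this

lemma partial_le (s : ℕ) (hs : 1 ≤ s) (x M : ℝ) (hx : 0 ≤ x) (hM : 1 + x * M ^ s ≤ M)
    (hM0 : 0 ≤ M) (N : ℕ) : ∑ n ∈ range N, ra s 1 n * x ^ n ≤ M := by
  have h1 : 1 ≤ M := le_trans (le_add_of_nonneg_right (by positivity)) hM
  induction N with
  | zero => simpa using hM0
  | succ N ih =>
    rcases Nat.eq_zero_or_pos N with rfl | hN
    · simpa [ra_zero] using h1
    rw [sum_range_succ']
    simp only [ra_one_succ s _ hs, ra_zero, pow_succ, ← mul_assoc, ← sum_mul]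
    have h2 := partial_pow_le s hs x hx N s hN
    have h3 : (∑ n ∈ range N, ra s 1 n * x ^ n) ^ s ≤ M ^ s :=
      pow_le_pow_left₀ (sum_nonneg fun n _ => mul_nonneg (ra_nonneg _ _ _) (pow_nonneg hx _)) ih s
    nlinarith [mul_le_mul_of_nonneg_right (h2.trans h3) hx]

lemma hasSum_conv {a b : ℕ → ℝ} {A B : ℝ} (ha : ∀ n, 0 ≤ a n) (hb : ∀ n, 0 ≤ b n)
    (hA : HasSum a A) (hB : HasSum b B) :
    HasSum (fun n => ∑ p ∈ antidiagonal n, a p.1 * b p.2) (A * B) := by
  have h1 : Summable fun x : ℕ × ℕ => a x.1 * b x.2 :=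
    Summable.mul_of_nonneg hA.summable hB.summable ha hb
  rw [← hA.tsum_eq, ← hB.tsum_eq,
    hA.summable.tsum_mul_tsum_eq_tsum_sum_antidiagonal hB.summable h1]
  exact (summable_sum_mul_antidiagonal_of_summable_mul h1).hasSum

lemma hasSum_ra_pow (s : ℕ) (hs : 1 ≤ s) (x S : ℝ) (hx : 0 ≤ x)
    (h : HasSum (fun n => ra s 1 n * x ^ n) S) (k : ℕ) :
    HasSum (fun n => ra s k n * x ^ n) (S ^ k) := by
  induction k with
  | zero =>
    have : (fun n => ra s 0 n * x ^ n) = fun n => if n = 0 then 1 else 0 := by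
      funext n; rcases n with _ | n <;> simp [ra_zero, ra_zero_left]
    rw [this, pow_zero]; exact hasSum_ite_eq 0 1
  | succ k ih =>
    simp only [ra_mul_conv s k 1 _ hs x]
    rw [pow_succ]
    exact hasSum_conv (a := fun n => ra s k n * x ^ n) (b := fun n => ra s 1 n * x ^ n)
      (fun n => mul_nonneg (ra_nonneg _ _ _) (pow_nonneg hx _))
      (fun n => mul_nonneg (ra_nonneg _ _ _) (pow_nonneg hx _)) ih h

lemma exists_hasSum (s : ℕ) (hs : 1 ≤ s) (x M : ℝ) (hx : 0 ≤ x) (hM : 1 + x * M ^ s ≤ M)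
    (hM0 : 0 ≤ M) : ∃ S, 0 ≤ S ∧ S = 1 + x * S ^ s ∧ HasSum (fun n => ra s 1 n * x ^ n) S := by
  have hn : ∀ n, 0 ≤ ra s 1 n * x ^ n := fun n => mul_nonneg (ra_nonneg _ _ _) (pow_nonneg hx _)
  have h1 := (summable_of_sum_range_le hn (partial_le s hs x M hx hM hM0)).hasSum
  refine ⟨_, tsum_nonneg hn, ?_, h1⟩
  have h2 := (hasSum_ra_pow s hs x _ hx h1 s).mul_left x
  have h3 := (hasSum_nat_add_iff' 1).2 h1
  have e : (fun n => ra s 1 (n + 1) * x ^ (n + 1)) = fun n => x * (ra s s n * x ^ n) := by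
    funext n; rw [ra_one_succ s n hs]; ring
  rw [e] at h3
  have := h2.unique h3
  simp only [range_one, sum_singleton, ra_zero, pow_zero, mul_one] at this
  linarith

lemma hasSum_ra2 (k : ℕ) : HasSum (fun n => ra 2 k n * (1 / 4) ^ n) (2 ^ k) := by
  obtain ⟨S, _, h1, h2⟩ := exists_hasSum 2 (by norm_num) (1 / 4) 2 (by norm_num) (by norm_num)
    (by norm_num)
  have : S = 2 := by nlinarith [sq_nonneg (S - 2)]
  subst this
  exact hasSum_ra_pow 2 (by norm_num) _ _ (by norm_num) h2 k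

lemma hasSum_ra3 (k : ℕ) : HasSum (fun n => ra 3 k n * (4 / 27) ^ n) ((3 / 2) ^ k) := by
  obtain ⟨S, h0, h1, h2⟩ := exists_hasSum 3 (by norm_num) (4 / 27) (3 / 2) (by norm_num)
    (by norm_num) (by norm_num)
  have : S = 3 / 2 := by
    have h3 : (2 * S - 3) ^ 2 * (S + 3) = 0 := by linear_combination (-27) * h1
    rcases mul_eq_zero.1 h3 with h | h
    · have := pow_eq_zero_iff (two_ne_zero) |>.1 h
      linarith
    · linarith
  subst this
  exact hasSum_ra_pow 3 (by norm_num) _ _ (by norm_num) h2 k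

/-- critical Boltzmann weight of the perimeter 2p, times (2/9)^p -/
noncomputable def z : ℕ → ℝ
  | 0 => 0
  | j + 1 => (4 / 27) ^ (j + 1) * (3 * ra 3 1 j - ra 3 2 j)

lemma z_zero : z 0 = 0 := rfl

lemma z_closed (j : ℕ) : z (j + 1) =
    2 * (4 / 27) ^ (j + 1) * (3 * j).factorial / ((j + 1).factorial * (2 * j + 1).factorial) := by
  have a1 := ra_fact 2 1 j le_rfl
  have a2 := ra_fact 2 2 j (by norm_num)
  rw [show (2 + 1) * j + 1 - 1 = 3 * j by omega] at a1
  rw [show (2 + 1) * j + 2 - 1 = 3 * j + 1 by omega] at a2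
  rw [show (2 : ℕ) + 1 = 3 by rfl] at a1 a2
  rw [z, a1, a2, Nat.factorial_succ (3 * j), Nat.factorial_succ (2 * j + 1), Nat.factorial_succ j]
  push_cast
  field_simp
  ring

lemma z_pos (j : ℕ) : 0 < z (j + 1) := by rw [z_closed]; positivity

lemma z_nonneg (p : ℕ) : 0 ≤ z p := by
  rcases p with _ | j
  · exact le_rfl
  · exact (z_pos j).le

lemma z_one : z 1 = 8 / 27 := by norm_num [z, ra_zero]

lemma hasSum_shift {a : ℕ → ℝ} {A x : ℝ} (j : ℕ) (h : HasSum (fun n => a n * x ^ n) A) :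
    HasSum (fun n => (if j ≤ n then a (n - j) else 0) * x ^ n) (x ^ j * A) := by
  rw [← hasSum_nat_add_iff' j]
  have : ∑ i ∈ range j, (if j ≤ i then a (i - j) else 0) * x ^ i = 0 :=
    sum_eq_zero fun i hi => by rw [if_neg (by have := mem_range.1 hi; omega), zero_mul]
  rw [this, sub_zero]
  refine hs_congr (h.mul_left (x ^ j)) (fun n => ?_) rfl
  rw [if_pos (by omega), show n + j - j = n by omega, pow_add]; ring

/-- the Boltzmann partition function -/
theorem hasSum_q (p : ℕ) : HasSum (fun n => q n p * (1 / 12) ^ n) ((9 / 2) ^ p * z p) := by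
  rcases p with _ | j
  · simp [q_zero_right, z_zero]
  have h : ∀ k, HasSum (fun n => (3 ^ n * ra 2 k n) * (1 / 12 : ℝ) ^ n) (2 ^ k) := by
    intro k
    refine hs_congr (hasSum_ra2 k) (fun n => ?_) rfl
    rw [show (1 / 4 : ℝ) = 3 * (1 / 12) by norm_num, mul_pow]; ring
  have h1 := (hasSum_shift j (h (3 * j + 1))).mul_left (ra 3 1 j)
  have h2 := (hasSum_shift (j + 1) (h (3 * j + 3))).mul_left (ra 3 2 j)
  refine hs_congr (h1.sub h2) (fun n => ?_) ?_
  · rw [q, ZZ, map_sub, mul_assoc, mul_assoc, coeff_C_mul, coeff_C_mul, coeff_X_pow_mul',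
      coeff_X_pow_mul', coeff_RR_pow, coeff_RR_pow]
    ring
  · rw [z, ← mul_assoc, ← mul_pow]
    have e : (2 : ℝ) ^ (3 * j) * (1 / 12) ^ j = (9 / 2 * (4 / 27)) ^ j := by
      rw [pow_mul, ← mul_pow]; norm_num
    rw [pow_succ (9 / 2 * (4 / 27) : ℝ), ← e]
    ring

theorem hasSum_z : HasSum z (1 / 3) := by
  rw [← hasSum_nat_add_iff' 1]
  have h := (((hasSum_ra3 1).mul_left 3).sub (hasSum_ra3 2)).mul_left (4 / 27)
  refine hs_congr h (fun j => ?_) ?_
  · rw [z]; ring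
  · norm_num [z_zero]

lemma z_mul_succ (j : ℕ) : (j + 1) * z (j + 2) = (4 / 27) ^ (j + 2) * ra 3 4 j := by
  have a4 := ra_fact 2 4 j (by norm_num)
  rw [show (2 + 1) * j + 4 - 1 = 3 * (j + 1) by omega, show (2 : ℕ) + 1 = 3 by rfl,
    show 2 * j + 4 = 2 * (j + 1) + 1 + 1 by omega] at a4
  rw [z_closed, a4, Nat.factorial_succ (2 * (j + 1) + 1), Nat.factorial_succ (j + 1),
    Nat.factorial_succ j]
  push_cast
  field_simp
  ring

theorem hasSum_mul_z : HasSum (fun p : ℕ => p * z p) (4 / 9) := by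
  have h1 : HasSum (fun p : ℕ => (p - 1) * z p) (1 / 9) := by
    rw [← hasSum_nat_add_iff' 2]
    refine hs_congr ((hasSum_ra3 4).mul_left ((4 / 27) ^ 2)) (fun j => ?_) ?_
    · have := z_mul_succ j
      push_cast
      linear_combination this
    · norm_num [sum_range_succ, z_zero]
  refine hs_congr (h1.add hasSum_z) (fun p => ?_) ?_
  · ring
  · norm_num

end Pool.Agent.Lib.MP_abd955_pr.Enum
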