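import Pool.Agent.Lib.MP_abd955_pr.EnumC

/-! The harmonic function h, convolution identities and ratio limits. -/

namespace Pool.Agent.Lib.MP_abd955_pr.Enum

open PowerSeries Finset Filter Topology

/-- harmonic function of the peeling walk -/
noncomputable def h (p : ℕ) : ℝ := 2 * p * (4 / 27) ^ p * (Nat.choose (3 * p) p : ℕ)

lemma h_zero : h 0 = 0 := by simp [h]

lemma h_closed (j : ℕ) : h (j + 1) =
    (4 / 27) ^ (j + 1) * (3 * j + 3).factorial / ((j + 1).factorial * (2 * j + 1).factorial) := by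
  rw [h, show 3 * (j + 1) = (j + 1) + (2 * j + 1 + 1) by ring, Nat.cast_add_choose ℝ,
    show j + 1 + (2 * j + 1 + 1) = 3 * j + 3 by ring, Nat.factorial_succ (2 * j + 1)]
  push_cast
  field_simp
  ring

lemma h_one : h 1 = 8 / 9 := by norm_num [h]

lemma h_pos (j : ℕ) : 0 < h (j + 1) := by rw [h_closed]; positivity

lemma h_pos' {p : ℕ} (hp : 1 ≤ p) : 0 < h p := by
  obtain ⟨j, rfl⟩ := Nat.exists_eq_add_of_le' hp
  exact h_pos j

lemma h_nonneg (p : ℕ) : 0 ≤ h p := by unfold h; positivity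

lemma h_succ (j : ℕ) : h (j + 2) * (9 * (j + 1) * (2 * j + 3)) =
    h (j + 1) * (2 * (3 * j + 4) * (3 * j + 5)) := by
  rw [h_closed (j + 1), h_closed j, show 3 * (j + 1) + 3 = 3 * j + 3 + 1 + 1 + 1 by ring,
    show 2 * (j + 1) + 1 = 2 * j + 1 + 1 + 1 by ring]
  simp only [Nat.factorial_succ (3 * j + 3 + 1 + 1), Nat.factorial_succ (3 * j + 3 + 1),
    Nat.factorial_succ (3 * j + 3), Nat.factorial_succ (2 * j + 1 + 1),
    Nat.factorial_succ (2 * j + 1), Nat.factorial_succ (j + 1)]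
  push_cast
  field_simp
  ring

lemma z_eq_h (j : ℕ) : z (j + 1) * ((3 * j + 1) * (3 * j + 2) * (3 * j + 3)) = 2 * h (j + 1) := by
  rw [z_closed, h_closed]
  simp only [Nat.factorial_succ (3 * j + 2), Nat.factorial_succ (3 * j + 1),
    Nat.factorial_succ (3 * j)]
  push_cast
  field_simp
  ring

/-! power series identities -/

lemma ra_choose (n : ℕ) : ((Nat.choose (3 * n) n : ℕ) : ℝ) = (2 * n + 1) * ra 3 1 n := by
  have a1 := ra_fact 2 1 n le_rfl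
  rw [show (2 + 1) * n + 1 - 1 = 3 * n by omega, show (2 : ℕ) + 1 = 3 by rfl] at a1
  rw [a1, show 3 * n = n + 2 * n by ring, Nat.cast_add_choose ℝ, Nat.factorial_succ (2 * n)]
  push_cast
  field_simp

noncomputable def T0 : ℝ⟦X⟧ := P 3 1
noncomputable def B0 : ℝ⟦X⟧ := PowerSeries.mk fun n => ((Nat.choose (3 * n) n : ℕ) : ℝ)

lemma T0_eq : T0 = 1 + X * T0 ^ 3 := P_eq 3 (by norm_num)

lemma two_eq : (2 : ℝ⟦X⟧) = C 2 := (map_ofNat _ 2).symm
lemma three_eq : (3 : ℝ⟦X⟧) = C 3 := (map_ofNat _ 3).symm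
lemma four_eq : (4 : ℝ⟦X⟧) = C 4 := (map_ofNat _ 4).symm

lemma B0_eq : B0 = T0 + 2 * X * d⁄dX ℝ T0 := by
  ext n
  rw [B0, coeff_mk, map_add, mul_assoc, two_eq, coeff_C_mul, ra_choose, T0, coeff_P]
  rcases n with _ | n
  · simp
  · rw [coeff_succ_X_mul, coeff_derivative, coeff_P]; push_cast; ring

lemma dT0 : d⁄dX ℝ T0 * (3 - 2 * T0) = T0 ^ 4 := by
  have h1 := congrArg (d⁄dX ℝ) T0_eq
  rw [map_add, Derivation.map_one_eq_zero, Derivation.leibniz, Derivation.leibniz_pow,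
    derivative_X] at h1
  simp only [smul_eq_mul, nsmul_eq_mul, Nat.cast_ofNat, show 3 - 1 = 2 by rfl] at h1
  have h2 := T0_eq
  linear_combination T0 * h1 - 3 * d⁄dX ℝ T0 * h2

lemma B0_mul : B0 * (3 - 2 * T0) = T0 := by
  rw [B0_eq]
  linear_combination 2 * X * dT0 - 2 * T0 * T0_eq

lemma dB0 : d⁄dX ℝ B0 * (3 - 2 * T0) ^ 3 = 3 * T0 ^ 4 := by
  have h1 := congrArg (d⁄dX ℝ) B0_mul
  rw [Derivation.leibniz, map_sub, three_eq, two_eq, derivative_C, Derivation.leibniz,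
    derivative_C, ← three_eq, ← two_eq] at h1
  simp only [smul_eq_mul] at h1
  linear_combination (3 - 2 * T0) ^ 2 * h1 + (2 * B0 + 1) * (3 - 2 * T0) * dT0
    + 2 * T0 ^ 4 * B0_mul

noncomputable def Z0 : ℝ⟦X⟧ := X * (3 * T0 - T0 ^ 2)
noncomputable def H0 : ℝ⟦X⟧ := 2 * X * d⁄dX ℝ B0

lemma T0_ne : T0 ≠ 0 := by
  intro h0
  have := T0_eq
  rw [h0] at this
  simp at this

lemma harm0 : 3 * H0 * ((1 + Z0) * (1 + 3 * Z0)) = 54 * X * H0 + 18 * X := by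
  have hT : T0 ^ 4 ≠ 0 := pow_ne_zero _ T0_ne
  apply mul_right_cancel₀ hT
  have e : (3 * ((1 + Z0) * (1 + 3 * Z0)) - 54 * X) * T0 ^ 4 = 3 * (3 - 2 * T0) ^ 3 := by
    have := T0_eq
    rw [Z0]
    grind
  have := dB0
  rw [H0]
  linear_combination (2 * X * d⁄dX ℝ B0) * e + 6 * X * this

lemma boltz0 : 54 * X * Z0 = 81 * X ^ 2 + 3 * (Z0 - 2 * X + 2 * Z0 ^ 2 + Z0 ^ 3) := by
  have := T0_eq
  rw [Z0]
  grind

noncomputable def Zs : ℝ⟦X⟧ := PowerSeries.mk z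
noncomputable def Hs : ℝ⟦X⟧ := PowerSeries.mk h

lemma Zs_eq : Zs = rescale (4 / 27) Z0 := by
  ext n
  rw [Zs, coeff_mk, coeff_rescale, Z0]
  rcases n with _ | n
  · simp [z_zero]
  · rw [coeff_succ_X_mul, map_sub, three_eq, coeff_C_mul, T0, P_pow 3 2 (by norm_num), coeff_P,
      coeff_P, z]

lemma Hs_eq : Hs = rescale (4 / 27) H0 := by
  ext n
  rw [Hs, coeff_mk, coeff_rescale, H0, mul_assoc, two_eq, coeff_C_mul]
  rcases n with _ | n
  · simp [h_zero]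
  · rw [coeff_succ_X_mul, coeff_derivative, B0, coeff_mk, h]; push_cast; ring

lemma c427 : (27 : ℝ⟦X⟧) * C (4 / 27 : ℝ) = 4 := by
  rw [show (27 : ℝ⟦X⟧) = C 27 from (map_ofNat _ 27).symm, ← map_mul, four_eq]; norm_num

lemma harm1 : 24 * X * Hs + 8 * X = 9 * (Hs + 4 * (Zs * Hs) + 3 * (Zs * (Zs * Hs))) := by
  have h1 := congrArg (rescale (4 / 27 : ℝ)) harm0
  simp only [map_mul, map_add, map_one, map_ofNat, rescale_X, ← Zs_eq, ← Hs_eq] at h1
  linear_combination (-3) * h1 - (6 * X * Hs + 2 * X) * c427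

lemma boltz1 : 72 * X * Zs + 8 * X = 16 * X ^ 2 + 27 * (Zs + 2 * (Zs * Zs) + Zs * (Zs * Zs)) := by
  have h1 := congrArg (rescale (4 / 27 : ℝ)) boltz0
  simp only [map_mul, map_add, map_sub, map_pow, map_ofNat, rescale_X, ← Zs_eq] at h1
  linear_combination 9 * h1 - (18 * X * Zs + 2 * X - (27 * C (4 / 27 : ℝ) + 4) * X ^ 2) * c427

/-- convolution of sequences -/
noncomputable def cv (a b : ℕ → ℝ) (p : ℕ) : ℝ := ∑ k ∈ antidiagonal p, a k.1 * b k.2

lemma mk_cv (a b : ℕ → ℝ) : PowerSeries.mk (cv a b) = PowerSeries.mk a * PowerSeries.mk b := by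
  ext n; simp [cv, coeff_mul]

lemma coeff_ofNat_mul (k : ℕ) [k.AtLeastTwo] (n : ℕ) (u : ℝ⟦X⟧) :
    coeff n ((ofNat(k) : ℝ⟦X⟧) * u) = ofNat(k) * coeff n u := by
  rw [show (ofNat(k) : ℝ⟦X⟧) = C (ofNat(k)) from (map_ofNat _ k).symm, coeff_C_mul]

/-- h is harmonic for the peeling walk -/
theorem h_harm (p : ℕ) (hp : 1 ≤ p) :
    h p = 3 / 8 * (h (p + 1) + 4 * cv z h (p + 1) + 3 * cv z (cv z h) (p + 1)) := by
  have h1 := congrArg (coeff (p + 1)) harm1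
  rw [Zs, Hs, ← mk_cv, ← mk_cv] at h1
  simp only [map_add, mul_assoc, coeff_ofNat_mul, coeff_succ_X_mul, coeff_mk, coeff_X] at h1
  rw [if_neg (by omega)] at h1
  linarith

/-- total mass of the Boltzmann peeling step -/
theorem z_harm (p : ℕ) (hp : 1 ≤ p) :
    z p = (if p = 1 then 2 / 9 else 0) +
      3 / 8 * (z (p + 1) + 2 * cv z z (p + 1) + cv z (cv z z) (p + 1)) := by
  have h1 := congrArg (coeff (p + 1)) boltz1
  rw [Zs, ← mk_cv, ← mk_cv] at h1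
  simp only [map_add, mul_assoc, coeff_ofNat_mul, coeff_succ_X_mul, coeff_mk, coeff_X,
    coeff_X_pow] at h1
  rw [if_neg (by omega)] at h1
  by_cases h2 : p = 1
  · rw [if_pos (by omega)] at h1; rw [if_pos h2]; linarith
  · rw [if_neg (by omega)] at h1; rw [if_neg h2]; linarith

lemma cv_nonneg {a b : ℕ → ℝ} (ha : ∀ n, 0 ≤ a n) (hb : ∀ n, 0 ≤ b n) (p : ℕ) : 0 ≤ cv a b p :=
  sum_nonneg fun _ _ => mul_nonneg (ha _) (hb _)

lemma hasSum_zz : HasSum (cv z z) (1 / 9) :=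
  hs_congr (hasSum_conv z_nonneg z_nonneg hasSum_z hasSum_z) (fun _ => rfl) (by norm_num)

lemma hasSum_mul_cv {a b : ℕ → ℝ} {A B A1 B1 : ℝ} (ha : ∀ n, 0 ≤ a n) (hb : ∀ n, 0 ≤ b n)
    (hA : HasSum a A) (hB : HasSum b B) (hA1 : HasSum (fun n : ℕ => n * a n) A1)
    (hB1 : HasSum (fun n : ℕ => n * b n) B1) :
    HasSum (fun n : ℕ => n * cv a b n) (A1 * B + A * B1) := by
  have h1 := hasSum_conv (a := fun n : ℕ => n * a n) (b := b)
    (fun n => mul_nonneg n.cast_nonneg (ha n)) hb hA1 hB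
  have h2 := hasSum_conv (a := a) (b := fun n : ℕ => n * b n) ha
    (fun n => mul_nonneg n.cast_nonneg (hb n)) hA hB1
  refine hs_congr (h1.add h2) (fun n => ?_) rfl
  rw [cv, mul_sum, ← sum_add_distrib]
  refine sum_congr rfl fun k hk => ?_
  rw [← HasAntidiagonal.mem_antidiagonal.1 hk]; push_cast; ring

lemma hasSum_mul_zz : HasSum (fun n : ℕ => n * cv z z n) (8 / 27) :=
  hs_congr (hasSum_mul_cv z_nonneg z_nonneg hasSum_z hasSum_z hasSum_mul_z hasSum_mul_z)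
    (fun _ => rfl) (by norm_num)

end Pool.Agent.Lib.MP_abd955_pr.Enum
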