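import Pool.Agent.Lib.MP_abd955_pr.EnumD

/-! Bounds on h and z, ratio limits. -/

namespace Pool.Agent.Lib.MP_abd955_pr.Enum

open Finset Filter Topology

lemma h_ratio_lower (p : ℕ) (hp : 1 ≤ p) : h p * (2 * p + 2) ≤ h (p + 1) * (2 * p + 1) := by
  obtain ⟨j, rfl⟩ := Nat.exists_eq_add_of_le' hp
  have h1 := h_succ j
  have h2 := h_pos j
  have hj : (0 : ℝ) ≤ j := j.cast_nonneg
  have h3 : (0 : ℝ) < 9 * (j + 1) := by positivity
  push_cast
  refine le_of_mul_le_mul_right ?_ h3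
  nlinarith

lemma h_ratio_upper (p : ℕ) (hp : 1 ≤ p) : h (p + 1) * (2 * p) ≤ h p * (2 * p + 1) := by
  obtain ⟨j, rfl⟩ := Nat.exists_eq_add_of_le' hp
  have h1 := h_succ j
  have h2 := h_pos j
  have hj : (0 : ℝ) ≤ j := j.cast_nonneg
  have h3 : (0 : ℝ) < 9 * (2 * j + 3) := by positivity
  push_cast
  refine le_of_mul_le_mul_right ?_ h3
  nlinarith [mul_nonneg h2.le hj]

lemma h_le_succ (p : ℕ) : h p ≤ h (p + 1) := by
  rcases Nat.eq_zero_or_pos p with rfl | hp
  · rw [h_zero]; exact h_nonneg _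
  have h1 := h_ratio_lower p hp
  have h2 := h_nonneg p
  have h3 : (0 : ℝ) < 2 * p + 1 := by positivity
  refine le_of_mul_le_mul_right ?_ h3
  nlinarith

lemma h_mono : Monotone h := monotone_nat_of_le_succ h_le_succ

/-- h p / p is decreasing, quantitatively -/
lemma h_div_succ (p : ℕ) (hp : 1 ≤ p) :
    h p / (4 * p ^ 2) ≤ h p / p - h (p + 1) / (p + 1) := by
  have h1 := h_ratio_upper p hp
  have h2 := h_nonneg p
  have h3 : (1 : ℝ) ≤ p := by exact_mod_cast hp
  have h4 : h (p + 1) / (p + 1) ≤ h p * (2 * p + 1) / (2 * p * (p + 1)) := by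
    rw [div_le_div_iff₀ (by positivity) (by positivity)]
    nlinarith
  have h5 : h p / (4 * p ^ 2) ≤ h p / (2 * p * (p + 1)) :=
    div_le_div_of_nonneg_left h2 (by positivity) (by nlinarith)
  have h6 : h p / p - h p * (2 * p + 1) / (2 * p * (p + 1)) = h p / (2 * p * (p + 1)) := by
    field_simp; ring
  linarith

lemma h_mul_le (p r : ℕ) (hp : 1 ≤ p) (hpr : p ≤ r) : h r * p ≤ h p * r := by
  induction r, hpr using Nat.le_induction with
  | base => exact le_rfl
  | succ r hr ih =>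
    have hr1 : 1 ≤ r := hp.trans hr
    have h1 := h_div_succ r hr1
    have h2 : (0 : ℝ) < r := by exact_mod_cast hr1
    have h3 : 0 ≤ h r / (4 * r ^ 2) := div_nonneg (h_nonneg r) (by positivity)
    have h4 : h (r + 1) / (r + 1) ≤ h r / r := by linarith
    rw [div_le_div_iff₀ (by positivity) h2] at h4
    have h5 : (0 : ℝ) ≤ p := p.cast_nonneg
    push_cast
    refine le_of_mul_le_mul_right ?_ h2
    nlinarith [mul_le_mul_of_nonneg_right h4 h5,
      mul_le_mul_of_nonneg_right ih (show (0 : ℝ) ≤ r + 1 by positivity)]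

lemma h_sq_lower (p : ℕ) (hp : 1 ≤ p) : 64 * (2 * p + 1) ≤ 243 * h p ^ 2 := by
  induction p, hp using Nat.le_induction with
  | base => norm_num [h_one]
  | succ p hp ih =>
    have h1 := h_ratio_lower p hp
    have h2 := h_nonneg p
    have h3 : (1 : ℝ) ≤ p := by exact_mod_cast hp
    have h4 : (h p * (2 * p + 2)) ^ 2 ≤ (h (p + 1) * (2 * p + 1)) ^ 2 :=
      pow_le_pow_left₀ (by positivity) h1 2
    have h5 : (0 : ℝ) < (2 * p + 1) ^ 2 := by positivity
    push_cast
    refine le_of_mul_le_mul_right ?_ h5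
    nlinarith [mul_le_mul_of_nonneg_right ih (show (0 : ℝ) ≤ (2 * p + 2) ^ 2 by positivity)]

lemma h_sq_upper (p : ℕ) (hp : 1 ≤ p) : 243 * h p ^ 2 ≤ 64 * (4 * p - 1) := by
  induction p, hp using Nat.le_induction with
  | base => norm_num [h_one]
  | succ p hp ih =>
    have h1 := h_ratio_upper p hp
    have h2 := h_nonneg (p + 1)
    have h3 : (1 : ℝ) ≤ p := by exact_mod_cast hp
    have h4 : (h (p + 1) * (2 * p)) ^ 2 ≤ (h p * (2 * p + 1)) ^ 2 :=
      pow_le_pow_left₀ (by positivity) h1 2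
    have h5 : (0 : ℝ) < (2 * p) ^ 2 := by positivity
    push_cast
    refine le_of_mul_le_mul_right ?_ h5
    nlinarith [mul_le_mul_of_nonneg_right ih (show (0 : ℝ) ≤ (2 * p + 1) ^ 2 by positivity)]

lemma le_two_h_sq (p : ℕ) : (p : ℝ) ≤ 2 * h p ^ 2 := by
  rcases Nat.eq_zero_or_pos p with rfl | hp
  · simp [h_zero]
  have := h_sq_lower p hp
  have h3 : (0 : ℝ) ≤ p := p.cast_nonneg
  linarith

lemma h_sq_le (p : ℕ) : h p ^ 2 ≤ 2 * p := by
  rcases Nat.eq_zero_or_pos p with rfl | hp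
  · simp [h_zero]
  have := h_sq_upper p hp
  have h3 : (0 : ℝ) ≤ p := p.cast_nonneg
  linarith

lemma h_le_sqrt (p : ℕ) : h p ≤ 2 * √p := by
  have h1 := h_sq_le p
  have h3 : (0 : ℝ) ≤ p := p.cast_nonneg
  refine abs_le_of_sq_le_sq' ?_ (by positivity) |>.2
  rw [mul_pow, Real.sq_sqrt h3]; linarith

lemma sqrt_le_h (p : ℕ) : √p ≤ 2 * h p := by
  have h1 := le_two_h_sq p
  have h2 := h_nonneg p
  rw [Real.sqrt_le_left (by positivity)]
  nlinarith

lemma z_upper (p : ℕ) : 3 * p ^ 3 * z p ≤ h p := by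
  rcases p with _ | j
  · simp [h_zero]
  have h1 := z_eq_h j
  have h2 := (z_pos j).le
  have hj : (0 : ℝ) ≤ j := j.cast_nonneg
  have h3 : 6 * ((j : ℝ) + 1) ^ 3 ≤ (3 * j + 1) * (3 * j + 2) * (3 * j + 3) := by
    nlinarith [mul_nonneg hj hj, mul_nonneg hj (mul_nonneg hj hj)]
  push_cast
  nlinarith [mul_le_mul_of_nonneg_left h3 h2]

lemma z_lower (p : ℕ) : 2 * h p ≤ 27 * p ^ 3 * z p := by
  rcases p with _ | j
  · simp [h_zero]
  have h1 := z_eq_h j
  have h2 := (z_pos j).le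
  have hj : (0 : ℝ) ≤ j := j.cast_nonneg
  have h3 : (3 * j + 1) * (3 * j + 2) * (3 * j + 3) ≤ 27 * ((j : ℝ) + 1) ^ 3 := by
    nlinarith [mul_nonneg hj hj, mul_nonneg hj (mul_nonneg hj hj)]
  push_cast
  nlinarith [mul_le_mul_of_nonneg_left h3 h2]

lemma z_succ_le (p : ℕ) (hp : 1 ≤ p) : z (p + 1) ≤ z p := by
  obtain ⟨j, rfl⟩ := Nat.exists_eq_add_of_le' hp
  have h1 := z_eq_h j
  have h2 := z_eq_h (j + 1)
  have h3 := h_ratio_upper (j + 1) hp
  have h4 := z_pos j
  have h5 := z_pos (j + 1)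
  have hj : (0 : ℝ) ≤ j := j.cast_nonneg
  push_cast at h2 h3
  by_contra hc
  push Not at hc
  have h6 : z (j + 1 + 1) * ((3 * (j + 1) + 1) * (3 * (j + 1) + 2) * (3 * (j + 1) + 3)) * (2 * (j + 1))
      ≤ z (j + 1) * ((3 * j + 1) * (3 * j + 2) * (3 * j + 3)) * (2 * (j + 1) + 1) := by
    rw [h1, h2]; linarith
  have h7 : ((3 * j + 1) * (3 * j + 2) * (3 * j + 3)) * (2 * (j + 1) + 1) ≤
      ((3 * (j + 1) + 1) * (3 * (j + 1) + 2) * (3 * (j + 1) + 3)) * (2 * ((j : ℝ) + 1)) := by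
    nlinarith [mul_nonneg hj hj, mul_nonneg hj (mul_nonneg hj hj)]
  have h8 : (0 : ℝ) < ((3 * (j + 1) + 1) * (3 * (j + 1) + 2) * (3 * (j + 1) + 3)) * (2 * (j + 1)) := by
    positivity
  nlinarith [mul_le_mul_of_nonneg_left h7 h4.le, mul_lt_mul_of_pos_right hc h8]

lemma z_anti {p r : ℕ} (hp : 1 ≤ p) (hpr : p ≤ r) : z r ≤ z p := by
  induction r, hpr using Nat.le_induction with
  | base => exact le_rfl
  | succ r hr ih => exact (z_succ_le r (hp.trans hr)).trans ih

/-- tail of the first moment -/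
lemma sum_mul_z_tail (K N : ℕ) (hK : 1 ≤ K) :
    ∑ k ∈ Ico K N, (k : ℝ) * z k ≤ 4 / 3 * (h K / K) := by
  rcases le_or_gt N K with hN | hN
  · rw [Ico_eq_empty_of_le hN, sum_empty]
    exact mul_nonneg (by norm_num) (div_nonneg (h_nonneg _) K.cast_nonneg)
  have key : ∀ N, K ≤ N → ∑ k ∈ Ico K N, (k : ℝ) * z k ≤ 4 / 3 * (h K / K - h N / N) := by
    intro N hN
    induction N, hN using Nat.le_induction with
    | base => simp
    | succ N hN ih =>
      rw [sum_Ico_succ_top hN]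
      have h1 := h_div_succ N (hK.trans hN)
      have h2 := z_upper N
      have h3 : (0 : ℝ) < N := by exact_mod_cast hK.trans hN
      have h4 : (N : ℝ) * z N ≤ 4 / 3 * (h N / (4 * N ^ 2)) := by
        rw [← mul_div_assoc, le_div_iff₀ (by positivity)]; nlinarith
      push_cast
      linarith
  have h1 := key N hN.le
  have h2 : 0 ≤ h N / N := div_nonneg (h_nonneg _) N.cast_nonneg
  linarith

lemma sum_z_tail (K N : ℕ) (hK : 1 ≤ K) :
    ∑ k ∈ Ico K N, z k ≤ 4 / 3 * (h K / K ^ 2) := by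
  have h1 := sum_mul_z_tail K N hK
  have h3 : (0 : ℝ) < K := by exact_mod_cast hK
  have h2 : K * ∑ k ∈ Ico K N, z k ≤ ∑ k ∈ Ico K N, (k : ℝ) * z k := by
    rw [mul_sum]
    refine sum_le_sum fun k hk => mul_le_mul_of_nonneg_right ?_ (z_nonneg k)
    exact_mod_cast (mem_Ico.1 hk).1
  have e : 4 / 3 * (h K / K ^ 2) = 4 / 3 * (h K / K) / K := by field_simp
  rw [e, le_div_iff₀ h3]
  linarith

/-- truncated second moment -/
lemma sum_sq_z (N : ℕ) : ∑ k ∈ range N, (k : ℝ) ^ 2 * z k ≤ h N := by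
  induction N with
  | zero => simp [h_zero]
  | succ N ih =>
    rw [sum_range_succ]
    rcases Nat.eq_zero_or_pos N with rfl | hN
    · simp [h_nonneg]
    have h1 := h_ratio_lower N hN
    have h2 := z_upper N
    have h3 : (1 : ℝ) ≤ N := by exact_mod_cast hN
    have h4 := h_le_succ N
    have h5 : (N : ℝ) ^ 2 * z N ≤ h (N + 1) - h N := by
      refine le_of_mul_le_mul_right ?_ (show (0 : ℝ) < 3 * N by positivity)
      nlinarith
    linarith

/-! limits -/

lemma tendsto_h_succ : Tendsto (fun p => h (p + 1) / h p) atTop (𝓝 1) := by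
  have h1 : Tendsto (fun p : ℕ => ((1 : ℝ) + 2 * p) / (0 + 2 * p)) atTop (𝓝 (2 / 2)) :=
    tendsto_add_mul_div_add_mul_atTop_nhds 1 0 2 two_ne_zero
  rw [div_self two_ne_zero] at h1
  refine tendsto_of_tendsto_of_tendsto_of_le_of_le' tendsto_const_nhds h1 ?_ ?_
  · filter_upwards [eventually_ge_atTop 1] with p hp
    rw [one_le_div (h_pos' hp)]; exact h_le_succ p
  · filter_upwards [eventually_ge_atTop 1] with p hp
    have h3 : (0 : ℝ) < p := by exact_mod_cast hp
    rw [div_le_div_iff₀ (h_pos' hp) (by positivity)]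
    have := h_ratio_upper p hp
    linarith

lemma tendsto_h_add (a : ℕ) : Tendsto (fun p => h (p + a) / h p) atTop (𝓝 1) := by
  induction a with
  | zero =>
    refine tendsto_const_nhds.congr' ?_
    filter_upwards [eventually_ge_atTop 1] with p hp
    rw [add_zero, div_self (h_pos' hp).ne']
  | succ a ih =>
    have h1 := (tendsto_h_succ.comp (tendsto_add_atTop_nat a)).mul ih
    rw [one_mul] at h1
    refine h1.congr' ?_
    filter_upwards [eventually_ge_atTop 1] with p hp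
    have := (h_pos' (show 1 ≤ p + a by omega)).ne'
    simp only [Function.comp, ← add_assoc]
    field_simp

lemma tendsto_h_sub (a b : ℕ) : Tendsto (fun p => h (p + a - b) / h p) atTop (𝓝 1) := by
  rw [← tendsto_add_atTop_iff_nat b]
  have h1 := (tendsto_h_add a).div (tendsto_h_add b) one_ne_zero
  rw [div_one] at h1
  refine h1.congr' ?_
  filter_upwards [eventually_ge_atTop 1] with p hp
  have := (h_pos' hp).ne'
  have := (h_pos' (show 1 ≤ p + b by omega)).ne'
  simp only [Pi.div_apply, show p + b + a - b = p + a by omega]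
  field_simp

lemma tendsto_q_n (j : ℕ) : Tendsto (fun n => q n (j + 1) / q (n + 1) (j + 1)) atTop (𝓝 (1 / 12)) := by
  rw [← tendsto_add_atTop_iff_nat j]
  have h1 : Tendsto (fun m : ℕ => ((1 : ℝ) + 1 * m) / ((3 * j + 1) + 2 * m)) atTop (𝓝 (1 / 2)) :=
    tendsto_add_mul_div_add_mul_atTop_nhds _ _ _ two_ne_zero
  have h2 : Tendsto (fun m : ℕ => ((3 * j + 3 : ℝ) + 1 * m) / ((3 * j + 2) + 2 * m)) atTop
      (𝓝 (1 / 2)) := tendsto_add_mul_div_add_mul_atTop_nhds _ _ _ two_ne_zero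
  have h3 := (h1.mul h2).const_mul (1 / 3)
  rw [show (1 / 3 : ℝ) * (1 / 2 * (1 / 2)) = 1 / 12 by norm_num] at h3
  refine h3.congr fun m => ?_
  rw [show m + j + 1 = j + (m + 1) by ring, add_comm m j, q_closed, q_closed,
    show 3 * j + 2 * (m + 1) = 3 * j + 2 * m + 1 + 1 by ring,
    show 3 * j + (m + 1) + 2 = 3 * j + m + 2 + 1 by ring]
  simp only [Nat.factorial_succ (3 * j + 2 * m + 1), Nat.factorial_succ (3 * j + 2 * m),
    Nat.factorial_succ (3 * j + m + 2), Nat.factorial_succ m]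
  push_cast
  field_simp
  ring

lemma tendsto_q_p (j : ℕ) :
    Tendsto (fun n => q n (j + 2) / q n (j + 1)) atTop (𝓝 (9 / 2 * h (j + 2) / h (j + 1))) := by
  rw [← tendsto_add_atTop_iff_nat (j + 1)]
  have h1 : Tendsto (fun m : ℕ => ((1 : ℝ) + 1 * m) / ((3 * j + 4) + 1 * m)) atTop (𝓝 (1 / 1)) :=
    tendsto_add_mul_div_add_mul_atTop_nhds _ _ _ one_ne_zero
  have h2 : Tendsto (fun m : ℕ => ((3 * j + 3 : ℝ) + 2 * m) / ((3 * j + 5) + 1 * m)) atTop
      (𝓝 (2 / 1)) := tendsto_add_mul_div_add_mul_atTop_nhds _ _ _ one_ne_zero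
  have h3 := (h1.mul h2).const_mul ((3 * j + 4) * (3 * j + 5) / ((2 * j + 2) * (2 * j + 3)) : ℝ)
  have e : ((3 * j + 4) * (3 * j + 5) / ((2 * j + 2) * (2 * j + 3)) : ℝ) * (1 / 1 * (2 / 1)) =
      9 / 2 * h (j + 2) / h (j + 1) := by
    have h4 := h_succ j
    have h5 := (h_pos j).ne'
    field_simp
    linear_combination (-1) * h4
  rw [e] at h3
  refine h3.congr fun m => ?_
  rw [show m + (j + 1) = j + 1 + m by ring, q_closed (j + 1) m,
    show j + 1 + m = j + (m + 1) by ring, q_closed,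
    show 3 * (j + 1) + 2 * m = 3 * j + 2 * (m + 1) + 1 by ring,
    show 3 * (j + 1) + m + 2 = 3 * j + (m + 1) + 2 + 1 + 1 by ring,
    show 3 * (j + 1) + 2 = 3 * j + 2 + 1 + 1 + 1 by ring,
    show 2 * (j + 1) + 1 = 2 * j + 1 + 1 + 1 by ring]
  simp only [Nat.factorial_succ (3 * j + 2 * (m + 1)), Nat.factorial_succ (3 * j + (m + 1) + 2 + 1),
    Nat.factorial_succ (3 * j + (m + 1) + 2), Nat.factorial_succ m, Nat.factorial_succ j,
    Nat.factorial_succ (3 * j + 2 + 1 + 1), Nat.factorial_succ (3 * j + 2 + 1),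
    Nat.factorial_succ (3 * j + 2), Nat.factorial_succ (2 * j + 1 + 1),
    Nat.factorial_succ (2 * j + 1)]
  push_cast
  field_simp
  ring

lemma tendsto_q_one (p : ℕ) :
    Tendsto (fun n => q n p / q n 1) atTop (𝓝 ((9 / 2) ^ p * h p / 4)) := by
  rcases p with _ | j
  · simp [q_zero_right, h_zero]
  induction j with
  | zero =>
    rw [show ((9 / 2) ^ (0 + 1) * h (0 + 1) / 4 : ℝ) = 1 by norm_num [h_one]]
    exact tendsto_const_nhds.congr fun n => (div_self (q_pos n 0 n.zero_le).ne').symm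
  | succ j ih =>
    have h1 := (tendsto_q_p j).mul ih
    have h5 := (h_pos j).ne'
    rw [show 9 / 2 * h (j + 2) / h (j + 1) * ((9 / 2) ^ (j + 1) * h (j + 1) / 4) =
      (9 / 2) ^ (j + 1 + 1) * h (j + 1 + 1) / 4 by field_simp; ring] at h1
    refine h1.congr' ?_
    filter_upwards [eventually_ge_atTop j] with n hn
    have := (q_pos n j hn).ne'
    field_simp

lemma tendsto_q_add (m : ℕ) : Tendsto (fun n => q n 1 / q (n + m) 1) atTop (𝓝 ((1 / 12) ^ m)) := by
  induction m with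
  | zero =>
    rw [pow_zero]
    exact tendsto_const_nhds.congr fun n => (div_self (q_pos n 0 n.zero_le).ne').symm
  | succ m ih =>
    have h1 := ih.mul ((tendsto_q_n 0).comp (tendsto_add_atTop_nat m))
    rw [← pow_succ] at h1
    refine h1.congr fun n => ?_
    have := (q_pos (n + m) 0 (Nat.zero_le _)).ne'
    simp only [Function.comp, zero_add, ← add_assoc] at *
    field_simp

/-- the ratio limit theorem -/
theorem tendsto_q_ratio (m p r : ℕ) (hp : 1 ≤ p) :
    Tendsto (fun n => q n r / q (n + m) p) atTop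
      (𝓝 ((1 / 12) ^ m * ((9 / 2) ^ r * h r) / ((9 / 2) ^ p * h p))) := by
  have h5 := (h_pos' hp).ne'
  have h1 := ((tendsto_q_one r).mul (tendsto_q_add m)).div
    ((tendsto_q_one p).comp (tendsto_add_atTop_nat m)) (by positivity)
  rw [show (9 / 2) ^ r * h r / 4 * (1 / 12) ^ m / ((9 / 2) ^ p * h p / 4) =
    (1 / 12) ^ m * ((9 / 2) ^ r * h r) / ((9 / 2) ^ p * h p) by field_simp] at h1
  refine h1.congr fun n => ?_
  have := (q_pos (n + m) 0 (Nat.zero_le _)).ne'
  have := (q_pos n 0 (Nat.zero_le _)).ne'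
  simp only [Function.comp, zero_add, Pi.div_apply] at *
  field_simp

theorem tendsto_q_ratio_sub (m p r : ℕ) (hp : 1 ≤ p) :
    Tendsto (fun n => q (n - m) r / q n p) atTop
      (𝓝 ((1 / 12) ^ m * ((9 / 2) ^ r * h r) / ((9 / 2) ^ p * h p))) := by
  rw [← tendsto_add_atTop_iff_nat m]
  simpa only [Nat.add_sub_cancel] using tendsto_q_ratio m p r hp

end Pool.Agent.Lib.MP_abd955_pr.Enum
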