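import Pool.Agent.Lib.MP_abd955_pr.FinDefs

namespace Pool.Agent.Lib.MP_abd955_pr

open Equiv Finset MeasureTheory ProbabilityTheory Filter Topology

theorem clopen_local {C : Set Om} (hC : IsClopen C) :
    ∃ R : ℕ, ∀ ω ω' : Om, (∀ w : Wd, w.norm ≤ R → ω w = ω' w) → ω ∈ C → ω' ∈ C := by
  by_contra hne
  push Not at hne
  let K : ℕ → Set (Om × Om) := fun R =>
    {x | (∀ w : Wd, w.norm ≤ R → x.1 w = x.2 w) ∧ x.1 ∈ C ∧ x.2 ∉ C}
  have hcl : ∀ R, IsClosed (K R) := by
    intro R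
    have h1 : IsClosed {x : Om × Om | ∀ w : Wd, w.norm ≤ R → x.1 w = x.2 w} := by
      have : {x : Om × Om | ∀ w : Wd, w.norm ≤ R → x.1 w = x.2 w} =
          ⋂ w : Wd, ⋂ _ : w.norm ≤ R, {x : Om × Om | x.1 w = x.2 w} := by
        ext x; simp
      rw [this]
      exact isClosed_iInter fun w => isClosed_iInter fun _ =>
        isClosed_eq ((continuous_apply w).comp continuous_fst)
          ((continuous_apply w).comp continuous_snd)
    exact h1.inter ((hC.isClosed.preimage continuous_fst).inter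
      (hC.compl.isClosed.preimage continuous_snd))
  have hnon := IsCompact.nonempty_iInter_of_sequence_nonempty_isCompact_isClosed K
    (fun R x hx => ⟨fun w hw => hx.1 w (hw.trans (Nat.le_succ R)), hx.2⟩)
    (fun R => by
      obtain ⟨ω, ω', h1, h2, h3⟩ := hne R
      exact ⟨(ω, ω'), h1, h2, h3⟩)
    (hcl 0).isCompact hcl
  obtain ⟨x, hx⟩ := hnon
  rw [Set.mem_iInter] at hx
  have : x.1 = x.2 := funext fun w => (hx w.norm).1 w le_rfl
  exact (hx 0).2.2 (this ▸ (hx 0).2.1)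

theorem lim_of_cauchy (μ : ℕ → Measure Om) (hμ : ∀ᶠ n in atTop, IsProbabilityMeasure (μ n))
    (hc : ∀ C, IsClopen C → CauchySeq fun n => (μ n).real C) : ∃ ν, Lim μ ν := by
  classical
  let ν : ℕ → ProbabilityMeasure Om := fun n =>
    if h : IsProbabilityMeasure (μ n) then ⟨μ n, h⟩
    else ⟨Measure.dirac fun _ => true, inferInstance⟩
  have hν : ∀ᶠ n in atTop, (ν n : Measure Om) = μ n := by
    filter_upwards [hμ] with n hn
    simp only [ν, dif_pos hn]
    rfl
  obtain ⟨L, -, hL⟩ := isCompact_univ.ultrafilter_le_nhds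
    (Ultrafilter.map ν (Ultrafilter.of (atTop : Filter ℕ))) (by simp)
  have hL' : Tendsto ν (↑(Ultrafilter.of (atTop : Filter ℕ)) : Filter ℕ) (𝓝 L) := hL
  refine ⟨L, L.2, fun C hC => ?_⟩
  obtain ⟨l, hl⟩ := cauchySeq_tendsto_of_complete (hc C hC)
  have h1 := ProbabilityMeasure.tendsto_measure_of_isClopen_of_tendsto hL' hC
  have h2 : Tendsto (fun n => ((ν n C : NNReal) : ℝ))
      (↑(Ultrafilter.of (atTop : Filter ℕ)) : Filter ℕ)
      (𝓝 ((L C : NNReal) : ℝ)) := (NNReal.continuous_coe.tendsto _).comp h1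
  have h3 : Tendsto (fun n => ((ν n C : NNReal) : ℝ)) atTop (𝓝 l) := by
    refine hl.congr' ?_
    filter_upwards [hν] with n hn
    rw [← hn]
    rfl
  have h4 : l = ((L C : NNReal) : ℝ) :=
    tendsto_nhds_unique (h3.mono_left (Ultrafilter.of_le _)) h2
  rw [h4] at h3
  have h5 : Tendsto (fun n => ν n C) atTop (𝓝 (L C)) := NNReal.tendsto_coe.1 h3
  have h6 := (ENNReal.continuous_coe.tendsto _).comp h5
  simp only [ProbabilityMeasure.ennreal_coeFn_eq_coeFn_toMeasure] at h6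
  refine h6.congr' ?_
  filter_upwards [hν] with n hn
  simp only [Function.comp, ProbabilityMeasure.ennreal_coeFn_eq_coeFn_toMeasure, hn]

theorem Lim.real {μ : ℕ → Measure Om} {ν : Measure Om} (h : Lim μ ν) {C : Set Om}
    (hC : IsClopen C) : Tendsto (fun n => (μ n).real C) atTop (𝓝 (ν.real C)) := by
  have := h.1
  exact (ENNReal.tendsto_toReal (measure_ne_top ν C)).comp (h.2 C hC)

open Classical in
/-- the property given by a set of codes -/
def PC (C : Set Om) (D : Type) (b f : Perm D) (r : D) : Prop :=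
  (fun w => decide (act b f w r = r)) ∈ C

theorem localP_PC {C : Set Om} (hC : IsClopen C) : ∃ R, LocalP R (PC C) := by
  obtain ⟨R, hR⟩ := clopen_local hC
  refine ⟨R, fun D D' b f r b' f' r' h hP => hR _ _ (fun w hw => ?_) hP⟩
  exact decide_eq_decide.2 (h w hw)

open Classical in
theorem exists_lim_of
    (pD : ∀ n p, (DiscS n p).Nonempty → IsProbabilityMeasure (uniformOn (disc n p)))
    (pS : ∀ n, (SphS n).Nonempty → IsProbabilityMeasure (uniformOn (sphere n)))
    (uD : ∀ n p C, (DiscS n p).Nonempty → (uniformOn (disc n p)).real C =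
      (((DiscS n p).filter fun a => PC C _ a (poly n p) (.inr 0)).card : ℝ) / (DiscS n p).card)
    (uS : ∀ n C, (SphS n).Nonempty → (uniformOn (sphere n)).real C =
      (((SphS n).filter fun x => PC C _ x.1 (sq n) x.2).card : ℝ) / (SphS n).card)
    (hD : ∀ p, ∀ᶠ n in atTop, (DiscS n p).Nonempty) (hS : ∀ᶠ n in atTop, (SphS n).Nonempty)
    (h1 : ∀ R P, LocalP R P → CauchySeq fun n =>
      (((SphS n).filter fun x => P _ x.1 (sq n) x.2).card : ℝ) / (SphS n).card)
    (h2 : ∀ R P, LocalP R P → ∀ p, CauchySeq fun n =>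
      (((DiscS n p).filter fun a => P _ a (poly n p) (.inr 0)).card : ℝ) / (DiscS n p).card)
    (h3 : ∀ R P, LocalP R P → ∀ ε : ℝ, 0 < ε → ∃ p0, ∀ p ≥ p0, ∀ p' ≥ p0,
      ∀ᶠ n in atTop,
      (((DiscS n p).filter fun a => P _ a (poly n p) (.inr 0)).card : ℝ) / (DiscS n p).card ≤
      (((DiscS n p').filter fun a => P _ a (poly n p') (.inr 0)).card : ℝ) / (DiscS n p').card
        + ε) :
    ∃ (Q H : Measure Om) (Hp : ℕ → Measure Om), Lim (fun n => uniformOn (sphere n)) Q ∧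
      (∀ p, Lim (fun n => uniformOn (disc n p)) (Hp p)) ∧ Lim Hp H := by
  have cau : ∀ (u v : ℕ → ℝ), CauchySeq u → (∀ᶠ n in atTop, v n = u n) → CauchySeq v := by
    intro u v hu huv
    obtain ⟨l, hl⟩ := cauchySeq_tendsto_of_complete hu
    exact (hl.congr' (huv.mono fun n hn => hn.symm)).cauchySeq
  obtain ⟨Q, hQ⟩ := lim_of_cauchy (fun n => uniformOn (sphere n)) (hS.mono pS) fun C hC => by
    obtain ⟨R, hR⟩ := localP_PC hC
    exact cau _ _ (h1 R _ hR) (hS.mono fun n hn => uS n C hn)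
  have hp : ∀ p, ∃ ν, Lim (fun n => uniformOn (disc n p)) ν := fun p =>
    lim_of_cauchy _ ((hD p).mono fun n => pD n p) fun C hC => by
      obtain ⟨R, hR⟩ := localP_PC hC
      exact cau _ _ (h2 R _ hR p) ((hD p).mono fun n hn => uD n p C hn)
  choose Hp hHp using hp
  obtain ⟨H, hH⟩ := lim_of_cauchy Hp (Eventually.of_forall fun p => (hHp p).1) fun C hC => by
    obtain ⟨R, hR⟩ := localP_PC hC
    have key : ∀ ε : ℝ, 0 < ε → ∃ p0, ∀ p ≥ p0, ∀ p' ≥ p0,
        (Hp p).real C ≤ (Hp p').real C + ε := by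
      intro ε hε
      obtain ⟨p0, hp0⟩ := h3 R _ hR ε hε
      refine ⟨p0, fun p hp p' hp' => ?_⟩
      refine le_of_tendsto_of_tendsto ((hHp p).real hC) (((hHp p').real hC).add_const ε) ?_
      filter_upwards [hp0 p hp p' hp', hD p, hD p'] with n hn hn1 hn2
      rw [uD n p C hn1, uD n p' C hn2]
      exact hn
    rw [Metric.cauchySeq_iff]
    intro ε hε
    obtain ⟨p0, hp0⟩ := key (ε / 2) (half_pos hε)
    refine ⟨p0, fun p hp p' hp' => ?_⟩
    have a1 := hp0 p hp p' hp'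
    have a2 := hp0 p' hp' p hp
    rw [Real.dist_eq, abs_lt]
    constructor <;> linarith
  exact ⟨Q, H, Hp, hQ, hHp, hH⟩

end Pool.Agent.Lib.MP_abd955_pr
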