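import Pool.Agent.Lib.MP_abd955_pr.ExistA
import Pool.Agent.Lib.MP_abd955_pr.MeasA

namespace Pool.Agent.Lib.MP_abd955_pr

open Equiv Finset MeasureTheory ProbabilityTheory Filter Topology

theorem PC_iff (C : Set Om) {D : Type} {b : Perm D} (f : Perm D) (hb : ∀ d, b (b d) = d)
    (r : D) : PC C D b f r ↔ code b f r ∈ C := by
  classical
  have : (fun w => @decide (act b f w r = r) (Classical.propDecidable _)) = code b f r := by
    funext w
    rw [Bool.eq_iff_iff, code_iff f hb, decide_eq_true_eq]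
  unfold PC
  rw [this]

open Classical in
theorem exists_lim
    (hD : ∀ p, ∀ᶠ n in atTop, (DiscS n p).Nonempty) (hS : ∀ᶠ n in atTop, (SphS n).Nonempty)
    (h1 : ∀ R P, LocalP R P → CauchySeq fun n =>
      (((SphS n).filter fun x => P _ x.1 (sq n) x.2).card : ℝ) / (SphS n).card)
    (h2 : ∀ R P, LocalP R P → ∀ p, CauchySeq fun n =>
      (((DiscS n p).filter fun a => P _ a (poly n p) (.inr 0)).card : ℝ) / (DiscS n p).card)
    (h3 : ∀ R P, LocalP R P → ∀ ε : ℝ, 0 < ε → ∃ p0, ∀ p ≥ p0, ∀ p' ≥ p0,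
      ∀ᶠ n in atTop,
      (((DiscS n p).filter fun a => P _ a (poly n p) (.inr 0)).card : ℝ) / (DiscS n p).card ≤
      (((DiscS n p').filter fun a => P _ a (poly n p') (.inr 0)).card : ℝ) / (DiscS n p').card
        + ε) :
    ∃ (Q H : Measure Om) (Hp : ℕ → Measure Om), Lim (fun n => uniformOn (sphere n)) Q ∧
      (∀ p, Lim (fun n => uniformOn (disc n p)) (Hp p)) ∧ Lim Hp H := by
  refine exists_lim_of (fun n p h => ?_) (fun n h => ?_) (fun n p C _ => ?_) (fun n C _ => ?_)
    hD hS h1 h2 h3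
  · rw [disc_eq]
    exact isProbabilityMeasure_uniformOn ((finite_toSet _).image _) (h.to_set.image _)
  · rw [sphere_eq]
    exact isProbabilityMeasure_uniformOn ((finite_toSet _).image _) (h.to_set.image _)
  · rw [Measure.real, uniformOn_disc, ENNReal.toReal_div, ENNReal.toReal_natCast,
      ENNReal.toReal_natCast]
    congr 3
    refine filter_congr fun a ha => ?_
    exact (PC_iff C _ (fun d => ((mem_DiscS.1 ha).1.1 d).1) _).symm
  · rw [Measure.real, uniformOn_sphere, ENNReal.toReal_div, ENNReal.toReal_natCast,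
      ENNReal.toReal_natCast]
    congr 3
    refine filter_congr fun a ha => ?_
    exact (PC_iff C _ (fun d => ((mem_SphS.1 ha).1 d).1) _).symm

end Pool.Agent.Lib.MP_abd955_pr
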