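import Pool.Agent.Lib.MP_abd955_pr.Mach0

namespace Pool.Agent.Lib.MP_abd955_pr

open Enum PowerSeries Finset Filter Topology Step

lemma idxs_spec (lab : List Bool) : ∀ (s k : ℕ), k < lab.count true →
    ∃ i, (lab.idxsOf true s).getD k 0 = s + i ∧ lab[i]? = some true ∧ k ≤ i ∧
      lab.count true + i ≤ lab.length + k := by
  induction lab with
  | nil => intro s k h; simp at h
  | cons x xs ih =>
    intro s k h
    cases x with
    | false =>
      have h1 : (false :: xs).count true = xs.count true := by simp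
      rw [h1] at h
      obtain ⟨i, a1, a2, a3, a4⟩ := ih (s + 1) k h
      refine ⟨i + 1, ?_, by simpa using a2, by omega, by rw [h1, List.length_cons]; omega⟩
      rw [List.idxsOf_cons, if_neg (by simp), a1]; omega
    | true =>
      have h1 : (true :: xs).count true = xs.count true + 1 := by simp
      rw [List.idxsOf_cons, if_pos (by simp)]
      rcases k with _ | k
      · refine ⟨0, by simp, by simp, le_rfl, ?_⟩
        simpa using List.count_le_length
      · obtain ⟨i, a1, a2, a3, a4⟩ := ih (s + 1) k (by omega)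
        refine ⟨i + 1, ?_, by simpa using a2, by omega, by rw [h1, List.length_cons]; omega⟩
        rw [List.getD_cons_succ, a1]; omega

lemma med_spec' (lab : List Bool) (h : true ∈ lab) : lab[med lab]? = some true ∧
    lab.count true / 2 ≤ med lab ∧ lab.count true + med lab ≤ lab.length + lab.count true / 2 := by
  have := count_pos h
  obtain ⟨i, a1, a2, a3, a4⟩ := idxs_spec lab 0 (lab.count true / 2) (by omega)
  have e : med lab = i := by rw [med, a1, zero_add]
  rw [e]; exact ⟨a2, a3, a4⟩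

theorem med_spec (lab : List Bool) (h : true ∈ lab) : lab[med lab]? = some true :=
  (med_spec' lab h).1

theorem Fe_mem (two : Bool) (R J0 M : ℕ) (η : ℝ) (hη : 0 ≤ η) (n : ℕ) (s : ES) :
    0 ≤ Fe two R J0 M η n s ∧ Fe two R J0 M η n s ≤ 1 := by
  induction n generalizing s with
  | zero => rw [Fe]; split_ifs <;> norm_num
  | succ n ih =>
    rw [Fe]
    split_ifs
    · norm_num
    · norm_num
    · exact ⟨le_min zero_le_one (add_nonneg hη (tsum_w_mem fun t => ih _).1), min_le_left _ _⟩

lemma bool_sum {α : Type} [AddCommMonoid α] (f : Bool → α) (c : Bool) :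
    f true + f false = f c + f (!c) := by
  cases c
  · exact add_comm _ _
  · rfl

lemma pad_length (a b : ℕ) (l : List Bool) : (pad a b l).length = a + l.length + b := by
  simp [pad, add_assoc]

lemma pad_count (a b : ℕ) (l : List Bool) : (pad a b l).count true = l.count true := by
  simp [pad, List.count_replicate]

namespace ES

def Inv (s : ES) : Prop := true ∈ s.lab true ∨ true ∈ s.lab false
def len (s : ES) : ℕ := (s.lab true).length + (s.lab false).length
def u (s : ES) (b : Bool) : ℕ := (s.lab b).count true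
def ov (s : ES) (t : Step) : ℕ :=
  oL (med (s.lab s.cp)) t + oR (s.lab s.cp) (med (s.lab s.cp)) t
def T (R M : ℕ) (s : ES) : ℕ :=
  if R ≤ s.j then 0 else (R - 1 - s.j) * M + min (s.u true + s.u false) M
noncomputable def Psi (R M : ℕ) (s : ES) : ℝ :=
  1536 * (√(min (s.u true) M : ℕ) + √(min (s.u false) M : ℕ) + 2 * (R - s.j : ℕ) * √M)
noncomputable def Phi (R J0 M : ℕ) (η : ℝ) (s : ES) : ℝ :=
  (s.len + s.Psi R M) / M + (s.J + s.Psi R M) / J0 + η * s.T R M

lemma mem_cp {s : ES} (h : s.Inv) : true ∈ s.lab s.cp := by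
  unfold cp
  by_cases h1 : true ∈ s.lab true
  · simp [h1]
  · simpa [h1] using h.resolve_left h1

lemma lab1_cp (two : Bool) (s : ES) (t : Step) : s.lab1 two t s.cp =
    pad (oR (s.lab s.cp) (med (s.lab s.cp)) t) (oL (med (s.lab s.cp)) t)
      (relab (s.lab s.cp) (med (s.lab s.cp)) t) := by simp [lab1]

lemma lab1_not (two : Bool) (s : ES) (t : Step) : s.lab1 two t (!s.cp) =
    if two then pad (s.ov t) (s.ov t) (s.lab (!s.cp)) else s.lab (!s.cp) := by simp [lab1, ov]

lemma lab1_len {s : ES} (h : s.Inv) (two : Bool) (t : Step) :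
    (s.lab1 two t true).length + (s.lab1 two t false).length + 1 + (t.sL + t.sR) ≤
      s.len + t.nw + 4 * s.ov t := by
  have h1 := relab_length _ _ t (lt_of_get (med_spec _ (mem_cp h)))
  rw [bool_sum (fun b => (s.lab1 two t b).length) s.cp, len,
    bool_sum (fun b => (s.lab b).length) s.cp, lab1_cp, lab1_not, pad_length]
  unfold ov
  split_ifs
  · rw [pad_length]; omega
  · omega

lemma lab1_pos (s : ES) (two : Bool) (t : Step) : 1 ≤ (s.lab1 two t s.cp).length := by
  have := relab_length_pos (s.lab s.cp) (med (s.lab s.cp)) t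
  rw [lab1_cp, pad_length]; omega

lemma lab1_cnt {s : ES} (h : s.Inv) (two : Bool) (t : Step) :
    (s.lab1 two t s.cp).count true + 1 ≤ s.u s.cp := by
  rw [lab1_cp, pad_count]
  exact (relab_count t (med_spec _ (mem_cp h))).1

lemma lab1_cnt' (s : ES) (two : Bool) (t : Step) :
    (s.lab1 two t (!s.cp)).count true = s.u (!s.cp) := by
  rw [lab1_not]
  split_ifs
  · rw [pad_count]; rfl
  · rfl

lemma ov_le {s : ES} (h : s.Inv) (t : Step) :
    s.ov t ≤ 2 * (t.sL + t.sR - (s.u s.cp - 1) / 2) := by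
  obtain ⟨-, a2, a3⟩ := med_spec' _ (mem_cp h)
  unfold ov oL oR u
  omega

lemma next_inv (s : ES) (two : Bool) (t : Step) : (s.next two t).Inv := by
  unfold next Inv
  dsimp only
  split_ifs with h
  · exact h
  · have := mem_repl (s.lab1_pos two t)
    cases hc : s.cp <;> rw [hc] at this
    · exact Or.inr this
    · exact Or.inl this

lemma next_J (s : ES) (two : Bool) (t : Step) : (s.next two t).J = s.J + s.ov t := by
  unfold next ov
  dsimp only
  split_ifs <;> rfl

lemma next_len (s : ES) (two : Bool) (t : Step) :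
    (s.next two t).len = (s.lab1 two t true).length + (s.lab1 two t false).length := by
  unfold next len
  dsimp only
  split_ifs <;> simp

lemma u_le (s : ES) : s.u true + s.u false ≤ s.len :=
  add_le_add List.count_le_length List.count_le_length

lemma next_cases (s : ES) (two : Bool) (t : Step) :
    ((s.next two t).j = s.j ∧ ∀ b, (s.next two t).u b = (s.lab1 two t b).count true) ∨
      (s.next two t).j = s.j + 1 := by
  unfold next u
  dsimp only
  split_ifs
  · exact Or.inl ⟨rfl, fun _ => rfl⟩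
  · exact Or.inr rfl

lemma next_T {s : ES} (h : s.Inv) (two : Bool) (t : Step) {R M : ℕ} (hj : s.j < R)
    (hM : s.len < M) : (s.next two t).T R M + 1 ≤ s.T R M := by
  have h1 := count_pos (mem_cp h)
  have h2 := s.u_le
  have h3 := bool_sum s.u s.cp
  have h4 : s.u s.cp = (s.lab s.cp).count true := rfl
  unfold T
  rw [if_neg (show ¬ R ≤ s.j by omega)]
  rcases s.next_cases two t with ⟨a, b⟩ | a
  · rw [a, if_neg (show ¬ R ≤ s.j by omega), bool_sum (s.next two t).u s.cp, b, b, lab1_cnt']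
    have := lab1_cnt h two t
    omega
  · rw [a]
    split_ifs with h5
    · omega
    · have e : (R - 1 - s.j) * M = (R - 1 - (s.j + 1)) * M + M := by
        rw [show R - 1 - s.j = R - 1 - (s.j + 1) + 1 by omega]; ring
      omega

lemma next_Psi {s : ES} (h : s.Inv) (two : Bool) (t : Step) {R M : ℕ} (hj : s.j < R)
    (hM : s.len < M) : (s.next two t).Psi R M ≤ s.Psi R M - 768 / √(s.u s.cp) := by
  have h1 : 1 ≤ s.u s.cp := count_pos (mem_cp h)
  have h2 := s.u_le
  have h3 := bool_sum s.u s.cp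
  have e : 768 / √(s.u s.cp : ℝ) = 1536 * (1 / (2 * √(s.u s.cp : ℝ))) := by field_simp; norm_num
  unfold Psi
  rw [bool_sum (fun b => √((min (s.u b) M : ℕ) : ℝ)) s.cp,
    bool_sum (fun b => √((min ((s.next two t).u b) M : ℕ) : ℝ)) s.cp, e,
    min_eq_left (show s.u s.cp ≤ M by omega)]
  rcases s.next_cases two t with ⟨a, b⟩ | a
  · rw [a, b, b, lab1_cnt']
    have h4 := lab1_cnt h two t
    have h5 : ((min ((s.lab1 two t s.cp).count true) M + 1 : ℕ) : ℝ) ≤ (s.u s.cp : ℕ) := by
      exact_mod_cast (show min ((s.lab1 two t s.cp).count true) M + 1 ≤ s.u s.cp by omega)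
    have h6 := sqrt_step _ h1 (x := ((min ((s.lab1 two t s.cp).count true) M : ℕ) : ℝ))
      (by rw [Nat.cast_add] at h5; push_cast at h5 ⊢; linarith)
    linarith
  · rw [a]
    have h4 : ∀ k, √((min k M : ℕ) : ℝ) ≤ √M := fun k =>
      Real.sqrt_le_sqrt (by exact_mod_cast min_le_right k M)
    have h5 := sqrt_step _ h1 (x := 0) (by
      have : (1 : ℝ) ≤ (s.u s.cp : ℕ) := by exact_mod_cast h1
      linarith)
    have h6 : ((R - s.j : ℕ) : ℝ) = (R - (s.j + 1) : ℕ) + 1 := by
      exact_mod_cast (show R - s.j = R - (s.j + 1) + 1 by omega)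
    rw [Real.sqrt_zero] at h5
    rw [h6]
    have := h4 ((s.next two t).u s.cp)
    have := h4 ((s.next two t).u (!s.cp))
    have := Real.sqrt_nonneg ((min (s.u (!s.cp)) M : ℕ) : ℝ)
    linarith

lemma Psi_nonneg (R M : ℕ) (s : ES) : 0 ≤ s.Psi R M := by unfold Psi; positivity

lemma Phi_nonneg (R J0 M : ℕ) {η : ℝ} (hη : 0 ≤ η) (s : ES) : 0 ≤ s.Phi R J0 M η := by
  have := s.Psi_nonneg R M
  unfold Phi; positivity

lemma one_le_Phi {R J0 M : ℕ} {η : ℝ} (hη : 0 ≤ η) (hJ : 1 ≤ J0) (hM : 1 ≤ M) (s : ES)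
    (h : J0 ≤ s.J ∨ M ≤ s.len) : 1 ≤ s.Phi R J0 M η := by
  have h0 := s.Psi_nonneg R M
  have h1 : (0 : ℝ) < J0 := by exact_mod_cast hJ
  have h2 : (0 : ℝ) < M := by exact_mod_cast hM
  have h3 : 0 ≤ (s.len + s.Psi R M) / M := by positivity
  have h4 : 0 ≤ (s.J + s.Psi R M) / J0 := by positivity
  have h5 : 0 ≤ η * s.T R M := by positivity
  unfold Phi
  rcases h with h | h
  · have : (J0 : ℝ) ≤ s.J := by exact_mod_cast h
    have : 1 ≤ (s.J + s.Psi R M) / J0 := by rw [one_le_div h1]; linarith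
    linarith
  · have : (M : ℝ) ≤ s.len := by exact_mod_cast h
    have : 1 ≤ (s.len + s.Psi R M) / M := by rw [one_le_div h2]; linarith
    linarith

lemma Fe_le (two : Bool) {R J0 M : ℕ} {η : ℝ} (hη : 0 ≤ η) (hJ : 1 ≤ J0) (hM : 1 ≤ M) (n : ℕ) :
    ∀ s : ES, s.Inv → s.T R M ≤ n → Fe two R J0 M η n s ≤ s.Phi R J0 M η := by
  induction n with
  | zero =>
    intro s h hT
    rw [Fe]
    split_ifs with h1
    · exact s.Phi_nonneg R J0 M hη
    · refine one_le_Phi hη hJ hM s (Or.inl ?_)
      have h2 : 1 ≤ s.u s.cp := count_pos (mem_cp h)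
      have h3 := bool_sum s.u s.cp
      unfold T at hT
      split_ifs at hT <;> omega
  | succ n ih =>
    intro s h hT
    rw [Fe]
    split_ifs with h1 h2
    · exact s.Phi_nonneg R J0 M hη
    · exact one_le_Phi hη hJ hM s h2
    have hj : s.j < R := by omega
    have hl : s.len < M := by unfold len; omega
    have h3 : (0 : ℝ) < J0 := by exact_mod_cast hJ
    have h4 : (0 : ℝ) < M := by exact_mod_cast hM
    have h5 : 1 ≤ s.u s.cp := count_pos (mem_cp h)
    obtain ⟨e, he, hle⟩ := E_over ((s.u s.cp - 1) / 2)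
    obtain ⟨d, hd⟩ : ∃ d, d = 768 / √(s.u s.cp : ℝ) := ⟨_, rfl⟩
    have hed : 8 * e ≤ d := by
      have a1 : (0 : ℝ) < √(s.u s.cp : ℝ) := Real.sqrt_pos.2 (by exact_mod_cast h5)
      have a2 : √(s.u s.cp : ℝ) ≤ 2 * √((((s.u s.cp - 1) / 2 : ℕ) : ℝ) + 1) := by
        rw [Real.sqrt_le_left (by positivity), mul_pow, Real.sq_sqrt (by positivity)]
        have : ((s.u s.cp : ℕ) : ℝ) ≤ ((4 * ((s.u s.cp - 1) / 2 + 1) : ℕ) : ℝ) := by
          exact_mod_cast (show s.u s.cp ≤ 4 * ((s.u s.cp - 1) / 2 + 1) by omega)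
        rw [Nat.cast_mul, Nat.cast_add] at this
        push_cast at this ⊢
        linarith
      have a3 : 48 / √((((s.u s.cp - 1) / 2 : ℕ) : ℝ) + 1) ≤ 96 / √(s.u s.cp : ℝ) := by
        rw [div_le_div_iff₀ (by positivity) a1]; linarith
      have a4 : d = 8 * (96 / √(s.u s.cp : ℝ)) := by rw [hd]; ring
      linarith
    have he0 : 0 ≤ e := he.nonneg fun t => mul_nonneg (w_nonneg t) (Nat.cast_nonneg _)
    have hG : HasSum (fun t => w t * ((s.len + xi t + 8 * ((t.sL + t.sR - (s.u s.cp - 1) / 2 : ℕ) : ℝ)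
        + s.Psi R M - d) / M + (s.J + 2 * ((t.sL + t.sR - (s.u s.cp - 1) / 2 : ℕ) : ℝ)
        + s.Psi R M - d) / J0 + η * (s.T R M - 1)))
        ((s.len + 8 * e + s.Psi R M - d) / M + (s.J + 2 * e + s.Psi R M - d) / J0
          + η * (s.T R M - 1)) :=
      hs_congr' (((hasSum_w.mul_right ((s.len + s.Psi R M - d) / M + (s.J + s.Psi R M - d) / J0
        + η * (s.T R M - 1))).add (hasSum_xi.mul_right (1 / M : ℝ))).add
        (he.mul_right (8 / M + 2 / J0 : ℝ))) (fun t => by ring) (by ring)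
    have key := tsum_w_le (F := fun t => Fe two R J0 M η n (s.next two t))
      (fun t => (Fe_mem two R J0 M η hη n _).1) (fun t _ => ?_) hG
    · refine (min_le_right _ _).trans ?_
      have b1 : (s.len + 8 * e + s.Psi R M - d) / M ≤ (s.len + s.Psi R M) / M := by
        gcongr; linarith
      have b2 : (s.J + 2 * e + s.Psi R M - d) / J0 ≤ (s.J + s.Psi R M) / J0 := by
        gcongr; linarith
      unfold Phi
      linarith
    · have c1 := next_T h two t hj hl
      refine (ih _ (s.next_inv two t) (by omega)).trans ?_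
      have c2 := next_Psi h two t hj hl
      have c3 : ((s.ov t : ℕ) : ℝ) ≤ 2 * ((t.sL + t.sR - (s.u s.cp - 1) / 2 : ℕ) : ℝ) := by
        exact_mod_cast ov_le h t
      have c4 : (((s.next two t).len + 1 + (t.sL + t.sR) : ℕ) : ℝ) ≤
          ((s.len + t.nw + 4 * s.ov t : ℕ) : ℝ) := by
        rw [next_len]; exact_mod_cast lab1_len h two t
      have c5 : (((s.next two t).T R M : ℕ) : ℝ) ≤ s.T R M - 1 := by
        have : (((s.next two t).T R M + 1 : ℕ) : ℝ) ≤ (s.T R M : ℕ) := by exact_mod_cast c1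
        push_cast at this; linarith
      rw [Nat.cast_add _ (t.sL + t.sR)] at c4
      simp only [Nat.cast_add (s.next two t).len, Nat.cast_add (s.len + t.nw),
        Nat.cast_add s.len, Nat.cast_mul, Nat.cast_one, Nat.cast_ofNat] at c4
      unfold Phi
      rw [← hd] at c2
      rw [next_J, Nat.cast_add s.J]
      refine add_le_add (add_le_add ?_ ?_) (mul_le_mul_of_nonneg_left c5 hη)
      · gcongr; unfold xi; linarith
      · gcongr; linarith

end ES

theorem extent_bound : ∃ C : ℝ, 0 ≤ C ∧ ∀ (two : Bool) (R J0 M a b : ℕ) (η : ℝ), 0 ≤ η → 1 ≤ J0 →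
    1 ≤ M → 1 ≤ a → ∃ n, Fe two R J0 M η n
      ⟨fun c => List.replicate (if c then a else b) true, 0, 0⟩ ≤
      (a + b + C * (R + 1) * √M) / M + C * (R + 1) * √M / J0 + η * (R + 1) * (M + 1) := by
  refine ⟨3072, by norm_num, fun two R J0 M a b η hη hJ hM ha => ?_⟩
  obtain ⟨s, hs⟩ : ∃ s : ES, s = ⟨fun c => List.replicate (if c then a else b) true, 0, 0⟩ := ⟨_, rfl⟩
  rw [← hs]
  refine ⟨_, (ES.Fe_le two hη hJ hM _ s (Or.inl (by rw [hs]; exact mem_repl ha)) le_rfl).trans ?_⟩
  have h1 : s.len = a + b := by simp [hs, ES.len]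
  have h2 : s.J = 0 := by rw [hs]
  have h3 : s.j = 0 := by rw [hs]
  have h4 : ∀ k, √((min k M : ℕ) : ℝ) ≤ √M := fun k =>
    Real.sqrt_le_sqrt (by exact_mod_cast min_le_right k M)
  have h5 : s.Psi R M ≤ 3072 * (R + 1) * √M := by
    have := h4 (s.u true)
    have := h4 (s.u false)
    unfold ES.Psi
    rw [h3, Nat.sub_zero]; linarith
  have h6 : s.T R M ≤ (R + 1) * (M + 1) := by
    unfold ES.T
    split_ifs
    · omega
    · have := Nat.mul_le_mul_right M (show R - 1 - s.j ≤ R by omega)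
      have := min_le_right (s.u true + s.u false) M
      nlinarith
  have h7 : ((s.T R M : ℕ) : ℝ) ≤ (R + 1) * (M + 1) := by exact_mod_cast h6
  unfold ES.Phi
  rw [h1, h2, mul_assoc η]
  push_cast
  rw [zero_add]
  gcongr

end Pool.Agent.Lib.MP_abd955_pr
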