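import Pool.Agent.Lib.MP_abd955_pr.Mach0

namespace Pool.Agent.Lib.MP_abd955_pr

open Enum PowerSeries Finset Filter Topology Step

lemma exp_le_aux {x y : ℝ} (h1 : x ≤ 2) (h2 : |x| ≤ y) :
    Real.exp x ≤ 1 + x + 6 * min y (y ^ 2) := by
  have h0 := abs_nonneg x
  have h3 : x ^ 2 ≤ y ^ 2 := by rw [← sq_abs x]; exact pow_le_pow_left₀ h0 h2 2
  by_cases h4 : |x| ≤ 1
  · have h5 := (abs_le.1 (Real.abs_exp_sub_one_sub_id_le h4)).2
    have h6 : x ^ 2 ≤ min y (y ^ 2) := le_min (by rw [← sq_abs x]; nlinarith) h3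
    nlinarith [sq_nonneg x]
  push Not at h4
  have h6 : |x| ≤ min y (y ^ 2) := le_min h2 (by rw [← sq_abs x] at h3; nlinarith)
  rcases le_total x 0 with h | h
  · have := Real.exp_le_one_iff.2 h
    rw [abs_of_nonpos h] at *
    linarith
  · rw [abs_of_nonneg h] at *
    have h7 : Real.exp x ≤ Real.exp 1 * Real.exp 1 := by
      rw [← Real.exp_add]; exact Real.exp_le_exp.2 (by linarith)
    have h8 := Real.exp_one_lt_d9
    have h9 := Real.exp_pos 1
    nlinarith

lemma xi_le (t : Step) : xi t ≤ 2 := by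
  have h1 : (t.nw : ℝ) ≤ 3 := by exact_mod_cast nw_le t
  have h2 : (0 : ℝ) ≤ (t.sL + t.sR : ℕ) := Nat.cast_nonneg _
  unfold xi; linarith

lemma abs_xi_le (t : Step) : |xi t| ≤ (t.sL + t.sR : ℕ) + 2 := by
  have h1 : (1 : ℝ) ≤ t.nw := by exact_mod_cast one_le_nw t
  have h2 : (0 : ℝ) ≤ (t.sL + t.sR : ℕ) := Nat.cast_nonneg _
  have h3 := xi_le t
  rw [abs_le]; constructor
  · unfold xi; linarith
  · linarith

/-- exponential moment of the increment -/
lemma E_exp (lam : ℝ) (h0 : 0 ≤ lam) (h1 : lam ≤ 1) :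
    ∃ e, HasSum (fun t => w t * Real.exp (lam * xi t)) e ∧ e ≤ Real.exp (1212 * lam * √lam) := by
  rcases h0.eq_or_lt with rfl | hp
  · exact ⟨1, by simpa using hasSum_w, by simp⟩
  obtain ⟨m, hm⟩ : ∃ m, m = √lam := ⟨_, rfl⟩
  have m0 : 0 < m := hm ▸ Real.sqrt_pos.2 hp
  have m1 : m ≤ 1 := hm ▸ Real.sqrt_le_one.2 h1
  have m2 : lam = m ^ 2 := by rw [hm, Real.sq_sqrt h0]
  obtain ⟨K, hK1, -, hK3, hK4, -⟩ := exists_thr (x := 1 / m) (by rw [one_le_div m0]; exact m1)
  obtain ⟨f, hf⟩ : ∃ f : ℕ → ℝ, f = fun s : ℕ =>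
    min (lam * ((s : ℝ) + 2)) ((lam * ((s : ℝ) + 2)) ^ 2) := ⟨_, rfl⟩
  have f0 : ∀ s, 0 ≤ f s := fun s => by rw [hf]; exact le_min (by positivity) (by positivity)
  have fm : Monotone f := by
    intro a c hac
    have : (a : ℝ) ≤ c := by exact_mod_cast hac
    rw [hf]
    exact min_le_min (by gcongr) (by gcongr)
  have hB := sum_z_split (f := fun p => f (4 * p)) hK1 (a := 36 * lam ^ 2) (b := 6 * lam) (c := 0)
    (by positivity) (by positivity) le_rfl
    (fun p hp _ => by
      have : (1 : ℝ) ≤ p := by exact_mod_cast hp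
      rw [hf]
      refine (min_le_right _ _).trans ?_
      have h3 : (((4 * p : ℕ) : ℝ) + 2) ^ 2 ≤ 36 * (p : ℝ) ^ 2 := by push_cast; nlinarith
      nlinarith [mul_le_mul_of_nonneg_left h3 (show 0 ≤ lam ^ 2 by positivity)])
    (fun p hp => by
      have : (1 : ℝ) ≤ p := by exact_mod_cast hK1.trans hp
      rw [hf]
      refine (min_le_left _ _).trans ?_
      push_cast
      nlinarith)
  obtain ⟨hs, hle⟩ := E_mono f0 fm hB
  have hG : HasSum (fun t => w t * (1 + lam * xi t + 6 * f (t.sL + t.sR)))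
      (1 + 6 * ∑' t, w t * f (t.sL + t.sR)) :=
    hs_congr' ((hasSum_w.add (hasSum_xi.mul_left lam)).add (hs.hasSum.mul_left 6))
      (fun t => by ring) (by ring)
  have hb : ∀ t, Real.exp (lam * xi t) ≤ 1 + lam * xi t + 6 * f (t.sL + t.sR) := by
    intro t
    rw [hf]
    refine exp_le_aux (by nlinarith [xi_le t]) ?_
    rw [abs_mul, abs_of_nonneg h0]
    exact mul_le_mul_of_nonneg_left (abs_xi_le t) h0
  have hsum : Summable fun t => w t * Real.exp (lam * xi t) :=
    summable_w_bdd (c := Real.exp 2) (fun t => (Real.exp_pos _).le)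
      (fun t => Real.exp_le_exp.2 (by nlinarith [xi_le t]))
  refine ⟨_, hsum.hasSum, (tsum_w_le (fun t => (Real.exp_pos _).le) (fun t _ => hb t) hG).trans ?_⟩
  refine le_trans ?_ (Real.add_one_le_exp _)
  have e1 : f 0 ≤ 4 * m ^ 4 := by
    rw [hf]; refine (min_le_right _ _).trans (le_of_eq ?_); rw [m2]; push_cast; ring
  have e2 : m ^ 4 ≤ m ^ 3 := pow_le_pow_of_le_one m0.le m1 (by norm_num)
  have e3 : lam ^ 2 * h K ≤ 2 * m ^ 3 := by
    have := mul_le_mul_of_nonneg_left hK3 (show 0 ≤ lam ^ 2 by positivity)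
    rwa [show lam ^ 2 * (2 * (1 / m)) = 2 * m ^ 3 by rw [m2]; field_simp] at this
  have e4 : lam * (h K / K) ≤ 2 * m ^ 3 := by
    have := mul_le_mul_of_nonneg_left hK4 h0
    rwa [show lam * (2 / (1 / m)) = 2 * m ^ 3 by rw [m2]; field_simp] at this
  have e5 : 1212 * lam * √lam = 1212 * m ^ 3 := by rw [← hm, m2]; ring
  rw [e5]
  linarith

theorem Fs_mem (R M : ℕ) (η : ℝ) (hη : 0 ≤ η) (n : ℕ) (s : List Bool × ℕ) :
    0 ≤ Fs R M η n s ∧ Fs R M η n s ≤ 1 := by
  induction n generalizing s with
  | zero => rw [Fs]; split_ifs <;> norm_num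
  | succ n ih =>
    rw [Fs]
    split_ifs
    · norm_num
    · norm_num
    · refine ⟨le_min zero_le_one (add_nonneg hη (tsum_nonneg fun t => ?_)), min_le_left _ _⟩
      exact mul_nonneg (div_nonneg (mul_nonneg (w_nonneg t) (hl_nonneg _)) (hl_nonneg _)) (ih _).1

lemma cut_length {α : Type} (R L : ℕ) (l : List α) : (cut R L l).length = l.length - R - L := by
  simp [cut]

lemma cut_sublist {α : Type} (R L : ℕ) (l : List α) : (cut R L l).Sublist l :=
  (List.take_sublist _ _).trans (List.drop_sublist _ _)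

lemma fstT_spec {lab : List Bool} (h : true ∈ lab) : lab[fstT lab]? = some true :=
  List.getElem?_idxOf h

lemma slab_length (lab : List Bool) (t : Step) (h : t.sL + t.sR < lab.length) :
    (slab lab t).length = nl lab.length t := by
  simp only [slab, List.length_append, List.length_replicate, cut_length, List.length_tail,
    List.length_rotate, nl]
  omega

lemma slab_count {lab : List Bool} (h : true ∈ lab) (t : Step) :
    (slab lab t).count true + 1 ≤ lab.count true := by
  have h1 := fstT_spec h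
  have h2 := lt_of_get h1
  have h3 := count_split h1
  have h4 := (cut_sublist t.sR t.sL (lab.rotate (fstT lab)).tail).count_le true
  rw [List.rotate_eq_drop_append_take h2.le, List.drop_eq_getElem_cons h2, List.cons_append,
    List.tail_cons, List.count_append] at h4
  rw [slab, List.rotate_eq_drop_append_take h2.le, List.drop_eq_getElem_cons h2, List.cons_append,
    List.tail_cons, List.count_append, List.count_replicate]
  simp only [show (false == true) = false by rfl, Bool.false_eq_true, if_false]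
  omega

def sInv (M : ℕ) (s : List Bool × ℕ) : Prop :=
  Even s.1.length ∧ 2 ≤ s.1.length ∧ s.1.length ≤ M + 1 ∧ true ∈ s.1

def sT (R M : ℕ) (s : List Bool × ℕ) : ℕ :=
  if R ≤ s.2 then 0 else (R - 1 - s.2) * (M + 1) + s.1.count true

noncomputable def sPhi (R M : ℕ) (η lam : ℝ) (s : List Bool × ℕ) : ℝ :=
  h (M + 1) * Real.exp (lam * (s.1.length - M) + 1212 * lam * √lam * sT R M s) / hl s.1.length +
    η * sT R M s

lemma snext_length (s : List Bool × ℕ) (t : Step) : (snext s t).1.length = (slab s.1 t).length := by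
  unfold snext; split_ifs <;> simp

lemma snext_mem (s : List Bool × ℕ) (t : Step) : true ∈ (snext s t).1 := by
  unfold snext
  split_ifs with h
  · exact h
  · refine mem_repl ?_
    have := one_le_nw t
    simp only [slab, List.length_append, List.length_replicate]; omega

lemma snext_T {R M : ℕ} {s : List Bool × ℕ} (t : Step) (h : true ∈ s.1) (hj : s.2 < R)
    (hM : (slab s.1 t).length ≤ M + 1) : sT R M (snext s t) + 1 ≤ sT R M s := by
  have h1 := count_pos h
  have h2 := slab_count h t
  unfold sT snext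
  rw [if_neg (show ¬ R ≤ s.2 by omega)]
  by_cases h3 : true ∈ slab s.1 t
  · simp only [if_pos h3]
    rw [if_neg (show ¬ R ≤ s.2 by omega)]; omega
  · simp only [if_neg h3]
    split_ifs with h5
    · omega
    · have e : (R - 1 - s.2) * (M + 1) = (R - 1 - (s.2 + 1)) * (M + 1) + (M + 1) := by
        rw [show R - 1 - s.2 = R - 1 - (s.2 + 1) + 1 by omega]; ring
      rw [List.count_replicate_self]
      omega

lemma sPhi_nonneg (R M : ℕ) {η : ℝ} (hη : 0 ≤ η) (lam : ℝ) (s : List Bool × ℕ) :
    0 ≤ sPhi R M η lam s := by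
  have := h_nonneg (M + 1)
  have := hl_nonneg s.1.length
  unfold sPhi; positivity

lemma Fs_le {R M : ℕ} {η lam : ℝ} (hη : 0 ≤ η) (h0 : 0 ≤ lam) (h1 : lam ≤ 1) (n : ℕ) :
    ∀ s, sInv M s → sT R M s ≤ n → Fs R M η n s ≤ sPhi R M η lam s := by
  obtain ⟨e, he, hle⟩ := E_exp lam h0 h1
  obtain ⟨c, hc⟩ : ∃ c, c = 1212 * lam * √lam := ⟨_, rfl⟩
  have c0 : 0 ≤ c := by rw [hc]; positivity
  have hA := h_nonneg (M + 1)
  induction n with
  | zero =>
    intro s hs hT
    rw [Fs]
    split_ifs with h2
    · exact sPhi_nonneg R M hη lam s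
    · have := count_pos hs.2.2.2
      rw [sT, if_neg h2] at hT; omega
  | succ n ih =>
    intro s hs hT
    obtain ⟨a1, a2, a3, a4⟩ := hs
    have hX := hl_pos a1 a2
    rw [Fs]
    split_ifs with h2 h3
    · exact sPhi_nonneg R M hη lam s
    · have b1 : hl s.1.length ≤ h (M + 1) := (hl_le _).trans (h_mono (by omega))
      have b2 : (M : ℝ) ≤ s.1.length := by exact_mod_cast h3
      have b3 : 1 ≤ Real.exp (lam * (s.1.length - M) + 1212 * lam * √lam * sT R M s) :=
        Real.one_le_exp (add_nonneg (mul_nonneg h0 (by linarith)) (by positivity))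
      have b4 : 1 ≤ h (M + 1) * Real.exp (lam * (s.1.length - M) + 1212 * lam * √lam * sT R M s) /
          hl s.1.length := by rw [one_le_div hX]; nlinarith
      have b5 : 0 ≤ η * sT R M s := by positivity
      unfold sPhi; linarith
    have hT1 : (1 : ℝ) ≤ sT R M s := by
      have := count_pos a4
      exact_mod_cast (show 1 ≤ sT R M s by rw [sT, if_neg h2]; omega)
    obtain ⟨B, hB⟩ : ∃ B, B = h (M + 1) * Real.exp (lam * (s.1.length - M) + c * (sT R M s - 1)) /
      hl s.1.length := ⟨_, rfl⟩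
    have B0 : 0 ≤ B := by rw [hB]; positivity
    have hG : HasSum (fun t => w t * (B * Real.exp (lam * xi t) +
        hl (nl s.1.length t) / hl s.1.length * (η * (sT R M s - 1))))
        (B * e + η * (sT R M s - 1)) :=
      hs_congr' ((he.mul_left B).add ((hasSum_harm _ a1 a2).mul_right
        (η * (sT R M s - 1) / hl s.1.length))) (fun t => by ring) (by field_simp)
    have key := tsum_w_le
      (F := fun t => hl (nl s.1.length t) / hl s.1.length * Fs R M η n (snext s t))
      (fun t => mul_nonneg (div_nonneg (hl_nonneg _) hX.le) (Fs_mem R M η hη n _).1)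
      (fun t _ => ?_) hG
    · refine (min_le_right _ _).trans ?_
      have e1 : ∀ t, w t * hl (nl s.1.length t) / hl s.1.length * Fs R M η n (snext s t) =
          w t * (hl (nl s.1.length t) / hl s.1.length * Fs R M η n (snext s t)) := fun t => by ring
      simp only [e1]
      have e2 : B * e ≤ B * Real.exp c := mul_le_mul_of_nonneg_left (hc ▸ hle) B0
      have e3 : B * Real.exp c = h (M + 1) * Real.exp (lam * (s.1.length - M) + c * sT R M s) /
          hl s.1.length := by
        rw [hB, div_mul_eq_mul_div, mul_assoc, ← Real.exp_add]; congr 3; ring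
      unfold sPhi
      rw [← hc]
      linarith
    · by_cases hz : hl (nl s.1.length t) = 0
      · rw [hz]; simp only [zero_div, zero_mul, add_zero]; positivity
      have d1 : t.sL + t.sR < s.1.length := by
        by_contra hc; exact hz (hl_nl_zero _ (by omega) t (by omega))
      have d2 : Even (nl s.1.length t) := by by_contra hc; exact hz (hl_odd hc)
      have d3 : 2 ≤ nl s.1.length t := by
        by_contra hc
        rw [Nat.even_iff] at d2
        exact hz (by rw [show nl s.1.length t = 0 by omega, hl_zero])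
      have d4 := nl_le s.1.length t
      have d5 := slab_length s.1 t d1
      have d6 := snext_T (R := R) (M := M) t a4 (by omega) (by omega)
      have d7 : (snext s t).1.length = nl s.1.length t := by rw [snext_length, d5]
      have d8 := ih (snext s t) ⟨by rw [d7]; exact d2, by omega, by omega, snext_mem s t⟩ (by omega)
      have d9 : ((sT R M (snext s t) : ℕ) : ℝ) ≤ sT R M s - 1 := by
        have : ((sT R M (snext s t) + 1 : ℕ) : ℝ) ≤ (sT R M s : ℕ) := by exact_mod_cast d6
        push_cast at this; linarith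
      have d10 : ((nl s.1.length t : ℕ) : ℝ) = s.1.length + xi t := by
        have := one_le_nw t
        have h4 : nl s.1.length t + 1 + (t.sL + t.sR) = s.1.length + t.nw := by unfold nl; omega
        have h5 : ((nl s.1.length t + 1 + (t.sL + t.sR) : ℕ) : ℝ) = (s.1.length + t.nw : ℕ) := by
          rw [h4]
        rw [Nat.cast_add _ (t.sL + t.sR), Nat.cast_add, Nat.cast_add s.1.length] at h5
        unfold xi; push_cast at h5 ⊢; linarith
      have hY := hl_pos d2 d3
      refine (mul_le_mul_of_nonneg_left d8 (div_nonneg hY.le hX.le)).trans ?_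
      unfold sPhi
      rw [d7, d10, ← hc, mul_add]
      refine add_le_add ?_ (mul_le_mul_of_nonneg_left (mul_le_mul_of_nonneg_left d9 hη)
        (div_nonneg hY.le hX.le))
      rw [div_mul_div_comm, mul_comm (hl s.1.length), mul_div_mul_left _ _ hY.ne', hB,
        div_mul_eq_mul_div, mul_assoc, ← Real.exp_add]
      refine div_le_div_of_nonneg_right (mul_le_mul_of_nonneg_left (Real.exp_le_exp.2 ?_) hA) hX.le
      nlinarith [mul_le_mul_of_nonneg_left d9 c0]

theorem sphere_bound : ∃ C : ℝ, 0 ≤ C ∧ ∀ (R M : ℕ) (η lam : ℝ), 0 ≤ η → 0 ≤ lam → lam ≤ 1 →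
    1 ≤ M → ∃ n, Fs R M η n ([true, true], 0) ≤
      C * √M * Real.exp (-lam * M + C * lam * √lam * (R + 1) * (M + 1)) +
        η * (R + 1) * (M + 1) := by
  refine ⟨1212, by norm_num, fun R M η lam hη h0 h1 hM => ?_⟩
  refine ⟨_, (Fs_le hη h0 h1 _ _ ⟨by simp, by simp, by simpa using hM, by simp⟩ le_rfl).trans ?_⟩
  have h6 : sT R M ([true, true], 0) ≤ (R + 1) * (M + 1) := by
    unfold sT
    split_ifs
    · omega
    · have := Nat.mul_le_mul_right (M + 1) (show R - 1 - 0 ≤ R by omega)
      simp only [List.count_cons_self, List.count_nil]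
      nlinarith
  have h7 : ((sT R M ([true, true], 0) : ℕ) : ℝ) ≤ (R + 1) * (M + 1) := by exact_mod_cast h6
  have h8 : hl 2 = 8 / 9 := by rw [show (2 : ℕ) = 2 * 1 by rfl, hl_two_mul, h_one]
  have h9 : h (M + 1) ≤ 4 * √M := by
    have a1 : (1 : ℝ) ≤ M := by exact_mod_cast hM
    have a2 : √((M + 1 : ℕ) : ℝ) ≤ 2 * √M := by
      rw [Real.sqrt_le_left (by positivity), mul_pow, Real.sq_sqrt (by positivity)]
      push_cast; linarith
    linarith [h_le_sqrt (M + 1)]
  unfold sPhi
  simp only [List.length_cons, List.length_nil, zero_add, Nat.reduceAdd, h8]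
  rw [mul_assoc η]
  refine add_le_add ?_ (mul_le_mul_of_nonneg_left h7 hη)
  have a3 : Real.exp (lam * (((2 : ℕ) : ℝ) - M) + 1212 * lam * √lam * sT R M ([true, true], 0)) ≤
      Real.exp 1 * Real.exp 1 *
        Real.exp (-lam * M + 1212 * lam * √lam * (R + 1) * (M + 1)) := by
    rw [← Real.exp_add, ← Real.exp_add]
    refine Real.exp_le_exp.2 ?_
    have := mul_le_mul_of_nonneg_left h7 (show 0 ≤ 1212 * lam * √lam by positivity)
    push_cast
    nlinarith
  have a4 : Real.exp 1 * Real.exp 1 ≤ 9 := by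
    have := Real.exp_one_lt_d9
    have := Real.exp_pos 1
    nlinarith
  have a5 := Real.exp_pos (-lam * M + 1212 * lam * √lam * (R + 1) * (M + 1))
  have a6 := (a3.trans (mul_le_mul_of_nonneg_right a4 a5.le))
  have a7 := mul_le_mul h9 a6 (Real.exp_pos _).le (by positivity)
  rw [div_le_iff₀ (by norm_num)]
  refine a7.trans ?_
  have a8 := mul_nonneg (Real.sqrt_nonneg (M : ℝ)) a5.le
  generalize Real.exp (-lam * M + 1212 * lam * √lam * (R + 1) * (M + 1)) = y at *
  nlinarith

end Pool.Agent.Lib.MP_abd955_pr
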