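import Pool.Agent.Lib.MP_abd955_pr.Geo
import Pool.Agent.Lib.MP_abd955_pr.MachE
import Pool.Agent.Lib.MP_abd955_pr.MachS

/-! The explorations by layers that follow the extent machine and the sphere machine. -/

namespace Pool.Agent.Lib.MP_abd955_pr

open Equiv Equiv.Perm Finset Step Filter

set_option linter.unusedSectionVars false

section
variable {D : Type} [DecidableEq D] [Fintype D]

structure Mir (G : Gl D) (two : Bool) (R0 : Bool → List D) : Prop where
  ok : G.Ok
  mir : ∀ b, (R0 b).map G.τ = (R0 (if two then !b else b)).reverse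

/-- exterior darts that are still inactive -/
def RS (R0 : Bool → List D) (J : ℕ) : Set D := {u | ∃ b, u ∈ cut J J (R0 b)}

lemma Mir.closed {G : Gl D} {two R0} (m : Mir G two R0) {J : ℕ} {u : D} (h : u ∈ RS R0 J) :
    G.τ u ∈ RS R0 J := by
  obtain ⟨b, h⟩ := h
  have := List.mem_map_of_mem (f := G.τ) h
  rw [cut_map, m.mir, ← cut_reverse, List.mem_reverse] at this
  exact ⟨_, this⟩

lemma RS_mono {R0 : Bool → List D} {J J' : ℕ} (e : J ≤ J') : RS R0 J' ⊆ RS R0 J :=
  fun _ h => h.imp fun _ h => cut_mono h e e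

structure EI (G : Gl D) (R0 : Bool → List D) (two : Bool) (s : ES) (S : St D)
    (seg : Bool → List D) (Old : Finset D) : Prop where
  geo : Geo G S Old (RS R0 s.J) s.j
  lab : ∀ b, (seg b).map (fun u => decide (u ∈ Old)) = s.lab b
  hol : ∀ b, b = true ∨ two = true → Holes (S.K b) [seg b ++ cut s.J s.J (R0 b)]
  off : ∀ b, ¬(b = true ∨ two = true) → seg b = [] ∧ R0 b = [] ∧ (S.K b).U = ∅

/-- the hole without the peeled dart -/
def erest (s : ES) (seg R0 : Bool → List D) : List D :=
  (seg s.cp).drop (med (s.lab s.cp) + 1) ++ cut s.J s.J (R0 s.cp) ++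
    (seg s.cp).take (med (s.lab s.cp))

/-- the segments after a step with new darts nw -/
def seg1 (two : Bool) (s : ES) (t : Step) (nw : List D) (seg R0 : Bool → List D) (b : Bool) :
    List D :=
  let i := med (s.lab s.cp)
  if b = s.cp then padL (oR (s.lab b) i t) (oL i t)
    ((seg b).take (i - t.sL) ++ nw ++ (seg b).drop (i + 1 + t.sR))
    (cut (oR (s.lab b) i t) (oL i t) (cut s.J s.J (R0 b)))
  else if two then padL (s.ov t) (s.ov t) (seg b) (cut s.J s.J (R0 b)) else seg b

namespace EI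
variable {G : Gl D} {R0 : Bool → List D} {two : Bool} {s : ES} {S : St D} {seg : Bool → List D}
  {Old : Finset D} (h : EI G R0 two s S seg Old)
include h

lemma len (b : Bool) : (seg b).length = (s.lab b).length := by rw [← h.lab, List.length_map]

lemma lt (iv : s.Inv) : med (s.lab s.cp) < (seg s.cp).length := by
  rw [h.len]; exact lt_of_get (med_spec _ (ES.mem_cp iv))

lemma act (iv : s.Inv) : s.cp = true ∨ two = true := by
  by_contra c
  have := h.lt iv
  rw [(h.off _ c).1] at this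
  simp at this

lemma start (iv : s.Inv) : ∃ x, (seg s.cp)[med (s.lab s.cp)]? = some x ∧
    Holes (S.K s.cp) [x :: erest s seg R0] :=
  ⟨_, List.getElem?_eq_getElem (h.lt iv),
    (h.hol _ (h.act iv)).at (List.getElem?_eq_getElem (h.lt iv))⟩

lemma un_R (hm : ∀ b, b = true ∨ two = true → 0 < (S.K b).m) {g : Perm D} (hg : S.Ok g) {u : D}
    (hu : u ∈ RS R0 s.J) : S.Un (g u) := by
  obtain ⟨b, hu⟩ := hu
  by_cases c : b = true ∨ two = true
  · exact un_of_X h.geo.wf (h.hol b c) (hm b c) hg (List.mem_append_right _ hu)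
  · rw [(h.off b c).2.1] at hu; simp [cut] at hu

lemma layer (m : G.Ok) (hm : ∀ b, b = true ∨ two = true → 0 < (S.K b).m)
    (n : ∀ b, true ∉ s.lab b) : Geo G S (seg true ++ seg false).toFinset (RS R0 s.J) (s.j + 1) := by
  have k : ∀ b, ∀ u ∈ (S.K b).X, u ∈ seg b ∨ u ∈ RS R0 s.J := fun b u hu => by
    by_cases c : b = true ∨ two = true
    · exact (List.mem_append.1 ((h.hol b c).mem1.1 hu)).imp_right fun e => ⟨b, e⟩
    · have := (h.geo.wf.wf b).sub hu
      rw [(h.off b c).2.2] at this; simp at this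
  refine h.geo.layer m (fun g hg u hu => h.un_R hm hg hu) (fun u hu b e => ?_) fun u => ?_
  · rcases k b u e with e | e
    · exact n b (h.lab b ▸ List.mem_map.2 ⟨u, e, by simpa using hu⟩)
    · exact (h.geo.old u hu).2 e
  rw [List.mem_toFinset, List.mem_append, or_comm, ← Bool.exists_bool (p := fun b => u ∈ seg b)]
  refine ⟨fun ⟨b, e⟩ => ?_, fun ⟨⟨b, e⟩, e'⟩ => ⟨b, (k b u e).resolve_right e'⟩⟩
  have c : b = true ∨ two = true := by
    by_contra c; rw [(h.off b c).1] at e; simp at e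
  have x1 := (h.hol b c).mem1.2 (List.mem_append_left _ e)
  refine ⟨⟨b, x1⟩, fun ⟨b', e'⟩ => ?_⟩
  by_cases d : b' = b
  · subst d
    exact (List.nodup_append.1 ((h.hol b' c).cyc _ List.mem_cons_self).1).2.2 u e u e' rfl
  have c' : b' = true ∨ two = true := by
    by_contra c; rw [(h.off b' c).2.1] at e'; simp [cut] at e'
  refine h.geo.wf.dis b u ((h.geo.wf.wf b).sub x1) ?_
  rw [show (!b) = b' by cases b <;> cases b' <;> simp_all]
  exact (h.geo.wf.wf b').sub ((h.hol b' c').mem1.2 (List.mem_append_right _ e'))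

theorem step (iv : s.Inv) (m : Mir G two R0) {x sd : D} {t : Step} {v : ℕ} {W : Finset D}
    (k : Kid S s.cp x (erest s seg R0) t v sd W)
    (hJ : ∀ b, b = true ∨ two = true → 2 * (s.J + s.ov t) ≤ (R0 b).length)
    (hm : ∀ b, b = true ∨ two = true → 0 < ((S.ch s.cp x sd (erest s seg R0) t W).K b).m) :
    ∃ Old', EI G R0 two (s.next two t) (S.ch s.cp x sd (erest s seg R0) t W)
      (seg1 two s t (newL (S.K s.cp) sd t) seg R0) Old' := by
  have nR : ∀ b, ∀ y ∈ cut s.J s.J (R0 b), decide (y ∈ Old) = false := fun b y hy =>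
    decide_eq_false fun e => (h.geo.old y e).2 ⟨b, hy⟩
  have e0 : t.sR - ((seg s.cp).length - 1 - med (s.lab s.cp)) =
      oR (s.lab s.cp) (med (s.lab s.cp)) t := by rw [oR, h.len]
  have l1 := hJ _ (h.act iv)
  have l2 : oL (med (s.lab s.cp)) t + oR (s.lab s.cp) (med (s.lab s.cp)) t ≤
      (cut (oR (s.lab s.cp) (med (s.lab s.cp)) t) (oL (med (s.lab s.cp)) t)
        (cut s.J s.J (R0 s.cp))).length := by
    rw [cut_len, cut_len]; unfold ES.ov at l1; omega
  have h1 : EI G R0 two ⟨s.lab1 two t, s.J + s.ov t, s.j⟩ (S.ch s.cp x sd (erest s seg R0) t W)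
      (seg1 two s t (newL (S.K s.cp) sd t) seg R0) Old := by
    refine ⟨h.geo.step k (RS_mono (Nat.le_add_right _ _)) fun u hu => m.closed hu, fun b => ?_,
      fun b c => ?_, fun b c => ?_⟩
    · by_cases e : b = s.cp
      · subst e
        rw [seg1, if_pos rfl, padL_map l2 fun y hy => nR _ y (cut_sub hy)]
        refine Eq.trans ?_ (s.lab1_cp two t).symm
        rw [← h.lab s.cp, ← segN_map (K := S.K s.cp) (s := sd) _ _ fun y hy => decide_eq_false
          fun e => (h.geo.old y e).1 ⟨_, k.new_inner hy⟩]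
        rfl
      · simp only [seg1, ES.lab1, if_neg e]
        split_ifs with c
        · rw [padL_map _ (nR b), h.lab]; rfl
          have := hJ b (Or.inr c)
          rw [cut_len]; omega
        · exact h.lab b
    · by_cases e : b = s.cp
      · subst e
        have h2 := Kid.seg (h.lt iv) k (by
          rw [e0, cut_len]; unfold ES.ov oL at l1; omega)
        rw [e0] at h2
        have h3 := h2.pad l2
        have e3 : cut (oL (med (s.lab s.cp)) t) (oR (s.lab s.cp) (med (s.lab s.cp)) t)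
            (cut (oR (s.lab s.cp) (med (s.lab s.cp)) t) (t.sL - med (s.lab s.cp))
              (cut s.J s.J (R0 s.cp))) = cut (s.J + s.ov t) (s.J + s.ov t) (R0 s.cp) := by
          rw [cut_cut, cut_cut]; congr 2; exact add_comm _ _
        rw [e3] at h3
        rw [seg1, if_pos rfl]
        exact h3
      · have c' : two = true := by
          rcases c with rfl | c
          · rcases h.act iv with c | c
            exacts [absurd c.symm e, c]
          · exact c
        have h3 := (h.hol b c).pad (a := s.ov t) (c := s.ov t) (by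
          have := hJ b c
          rw [cut_len]; omega)
        rw [cut_cut] at h3
        rw [St.ch_ne e, seg1, if_neg e, if_pos c']
        exact h3
    · have e : b ≠ s.cp := fun e => c (e ▸ h.act iv)
      rw [St.ch_ne e, seg1, if_neg e, if_neg fun e => c (Or.inr e)]
      exact h.off b c
  unfold ES.next
  dsimp only
  split_ifs with c
  · exact ⟨Old, h1⟩
  · refine ⟨_, h1.layer m.ok hm fun b e => c (by cases b; exacts [Or.inr e, Or.inl e]), fun b => ?_,
      h1.hol, h1.off⟩
    exact List.eq_replicate_iff.2 ⟨by rw [List.length_map, h1.len], List.forall_mem_map.2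
      fun y hy => decide_eq_true (by cases b <;> simp [hy])⟩

end EI

/-- far exterior darts or unexplored features are close to the roots -/
def EBad (F : Fam) (G : Gl D) (T : Set D) (R : ℕ) (S : St D) (g : Perm D) : Prop :=
  (∃ e ∈ T, G.Nr g R (g e)) ∨ ∃ b y, UF F S b g y ∧ G.Nr g R y

lemma EBad.step {F G T R} {S : St D} {g b x sd rest t W} (h : EBad F G T R S g)
    (e : ∀ z, UF F S b g z → UF F (S.ch b x sd rest t W) b g z) :
    EBad F G T R (S.ch b x sd rest t W) g := h.imp_right fun ⟨b', y, h1, h2⟩ => ⟨b', y, by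
  by_cases c : b' = b
  · subst c; exact e y h1
  · exact (Kid.uf_ne c).2 h1, h2⟩

structure SI (G : Gl D) (s : List Bool × ℕ) (S : St D) (l : List D) (Old : Finset D) : Prop where
  geo : Geo G S Old ∅ s.2
  lab : l.map (fun u => decide (u ∈ Old)) = s.1
  hol : Holes (S.K true) [l]
  off : (S.K false).U = ∅

/-- the hole without the peeled dart -/
def srest (s : List Bool × ℕ) (l : List D) : List D := (l.rotate (fstT s.1)).tail

namespace SI
variable {G : Gl D} {s : List Bool × ℕ} {S : St D} {l : List D} {Old : Finset D}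
  (h : SI G s S l Old)
include h

lemma len : l.length = s.1.length := by rw [← h.lab, List.length_map]

lemma start : ∃ x, l.rotate (fstT s.1) = x :: srest s l ∧ Holes (S.K true) [x :: srest s l] ∧
    (srest s l).length + 1 = s.1.length := by
  have c := (h.hol.cyc l List.mem_cons_self).rotate (fstT s.1)
  obtain ⟨x, r, e⟩ := List.exists_cons_of_ne_nil c.2.1
  have e' : srest s l = r := by rw [srest, e, List.tail_cons]
  refine ⟨x, by rw [e, e'], ?_, by rw [← h.len, ← l.length_rotate (fstT s.1), e, e']; rfl⟩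
  rw [e', ← e]
  exact ⟨fun l' hl => by rw [List.mem_singleton.1 hl]; exact c, by simpa using c.1,
    fun x => by simp [h.hol.mem1]⟩

theorem step (o : G.Ok) {x sd : D} {t : Step} {v : ℕ} {W : Finset D}
    (k : Kid S true x (srest s l) t v sd W) :
    ∃ Old', SI G (snext s t) (S.ch true x sd (srest s l) t W)
      (mainL (S.K true) sd (srest s l) t) Old' := by
  have h1 : SI G (slab s.1 t, s.2) (S.ch true x sd (srest s l) t W)
      (mainL (S.K true) sd (srest s l) t) Old := by
    refine ⟨h.geo.step k le_rfl (by simp), ?_, k.holes, by rw [St.ch_ne (by simp)]; exact h.off⟩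
    rw [mainL, List.map_append, cut_map, srest, List.map_tail, List.map_rotate, h.lab, slab]
    congr 1
    rw [← newL_length (S.K true) sd t]
    exact List.eq_replicate_iff.2 ⟨by simp, List.forall_mem_map.2 fun y hy =>
      decide_eq_false fun e => (h.geo.old y e).1 ⟨_, k.new_inner hy⟩⟩
  unfold snext
  split_ifs with c
  · exact ⟨Old, h1⟩
  have e : ∀ u, (∃ b, u ∈ ((S.ch true x sd (srest s l) t W).K b).X) ↔
      u ∈ mainL (S.K true) sd (srest s l) t := fun u => by
    rw [← h1.hol.mem1]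
    refine ⟨fun ⟨b, e⟩ => ?_, fun e => ⟨_, e⟩⟩
    cases b
    · have := (k.wf'.wf false).sub e
      rw [h1.off] at this; simp at this
    · exact e
  refine ⟨(mainL (S.K true) sd (srest s l) t).toFinset, h1.geo.layer o (by simp)
    (fun u hu b d => c ?_) fun u => by simp [e], ?_, h1.hol, h1.off⟩
  · have := h1.lab
    dsimp only at this
    exact this ▸ List.mem_map.2 ⟨u, (e u).1 ⟨b, d⟩, by simpa using hu⟩
  · exact List.eq_replicate_iff.2 ⟨by rw [List.length_map, h1.len], List.forall_mem_map.2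
      fun y hy => decide_eq_true (by simp [hy])⟩

lemma empty (c : ¬(Even s.1.length ∧ 2 ≤ s.1.length)) (g : Perm D) : ¬S.Ok g := fun hg => by
  have c1 := h.hol.cyc l List.mem_cons_self
  have c2 := even_hole (h.geo.wf.wf true) (hg.pre h.geo.wf true) c1 fun x hx => h.hol.mem1.2 hx
  have := List.length_pos_iff.2 c1.2.1
  rw [h.len] at c2 this
  exact c ⟨c2, by obtain ⟨r, e⟩ := c2; omega⟩

end SI
end

section
variable {D : ℕ × ℕ → Type} [∀ i, DecidableEq (D i)] [∀ i, Fintype (D i)]

def EIv (F : Fam) (G : ∀ i, Gl (D i)) (R0 : ∀ i, Bool → List (D i)) (two : Bool) (J0 R : ℕ)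
    (s : ES) (j : ℕ) : Iv D := fun i S E =>
  (∃ seg Old, EI (G i) (R0 i) two s S seg Old) ∧
    (∀ b, b = true ∨ two = true → SzH j i (S.K b).m (S.K b).X.card) ∧
    ∀ g, S.Ok g → E g → EBad F (G i) (RS (R0 i) J0) R S g

lemma Kid.szH2 {i : ℕ × ℕ} {S : St (D i)} {b x rest t v sd W} (k : Kid S b x rest t v sd W) {j : ℕ}
    {b' : Bool} (h : SzH j i (S.K b').m (S.K b').X.card) :
    SzH (j + (v + t.sL + t.sR + 2)) i ((S.ch b x sd rest t W).K b').m
      ((S.ch b x sd rest t W).K b').X.card := by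
  by_cases e : b' = b
  · subst e
    rw [← k.holes.len]
    exact k.szH (by rwa [← k.hl.len] at h) k.holes
  · rw [St.ch_ne e]; exact h.mono (Nat.le_add_right _ _)

theorem ext_bd {F : Fam} {κ : ℝ} (hF : RuleF F κ) (hκ : 0 ≤ κ) {G : ∀ i, Gl (D i)}
    {R0 : ∀ i, Bool → List (D i)} {two : Bool} (hG : ∀ᶠ i in FH, Mir (G i) two (R0 i))
    (hR : ∀ L, ∀ᶠ i in FH, ∀ b, b = true ∨ two = true → L ≤ (R0 i b).length) (R J0 M n : ℕ) :
    ∀ s j, s.Inv → Bd FH (EIv F G R0 two J0 R s j) (Fe two (R + 1) (J0 + 1) M κ n s) := by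
  have z : ∀ (s : ES) j, R + 1 ≤ s.j ∧ s.J < J0 + 1 → Bd FH (EIv F G R0 two J0 R s j) 0 :=
    fun s j c => Bd.zero ((evH_ge (j + 1)).mono fun i hi S E ⟨⟨seg, Old, h⟩, sz, b⟩ g hg e => by
      rcases b g hg e with ⟨u, hu, n⟩ | ⟨b, y, hy, n⟩
      · exact (h.geo.far g hg _ (h.un_R (fun b c => by have := (sz b c).1; omega) hg
          (RS_mono (Nat.le_of_lt_succ c.2) hu))).1 R c.1 n
      · exact (h.geo.far g hg _ hy.un).1 R c.1 n)
  induction n with
  | zero =>
    intro s j _
    rw [Fe]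
    split_ifs with c
    exacts [z s j c, Bd.one]
  | succ n ih =>
    intro s j iv
    rw [Fe]
    split_ifs with c
    · exact z s j c
    · exact Bd.one
    refine Bd.min Bd.one ?_
    rw [← tsum_wt (wt := fun y => wv y.1 y.2) hasSum_wv2.summable (fun y => wv_nonneg _ _) hasSum_wv
      (fun t => (Fe_mem _ _ _ _ _ hκ _ _).1) fun t => (Fe_mem _ _ _ _ _ hκ _ _).2]
    refine hF (mdH j) (fun y => by linarith [wv_nonneg y.1 y.2]) s.cp
      (fun y => (Fe_mem _ _ _ _ _ hκ _ _).1) (fun y => (Fe_mem _ _ _ _ _ hκ _ _).2)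
      (fun y => ih (s.next two y.1) (j + (y.2 + y.1.sL + y.1.sR + 2)) (s.next_inv _ _))
      (fun y => (hR (2 * (s.J + s.ov y.1))).and (evH_ge (j + (y.2 + y.1.sL + y.1.sR + 2) + 1)))
      (hG.mono fun i m S E ⟨⟨seg, Old, h⟩, sz, b⟩ => ?_)
    obtain ⟨x, -, hl⟩ := h.start iv
    refine ⟨h.geo.wf, x, _, hl, by have := sz _ (h.act iv); rwa [← hl.len] at this,
      fun y hy sd W k => ?_⟩
    have sz' := fun b c => k.szH2 (sz b c)
    obtain ⟨Old', h'⟩ := h.step iv m k hy.1 fun b c => by have := (sz' b c).1; have := hy.2.2; omega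
    exact ⟨⟨_, _, h'⟩, sz', fun g hg e => (b g (k.up hg).1 e.1).step e.2⟩

end

section
variable {D : ℕ → Type} [∀ i, DecidableEq (D i)] [∀ i, Fintype (D i)]

def SIv (F : Fam) (G : ∀ i, Gl (D i)) (R : ℕ) (s : List Bool × ℕ) (j : ℕ) : Iv D := fun i S E =>
  (∃ l Old, SI (G i) s S l Old) ∧ i ≤ (S.K true).m + j ∧
    ∀ g, S.Ok g → E g → EBad F (G i) ∅ R S g

theorem sph_bd {F : Fam} {κ : ℝ} (hF : RuleF F κ) (hκ : 0 ≤ κ) {G : ∀ i, Gl (D i)}
    (hG : ∀ᶠ i in atTop, (G i).Ok) (R M n : ℕ) :
    ∀ s j, Bd atTop (SIv F G R s j) (Fs (R + 1) M κ n s) := by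
  have z : ∀ (s : List Bool × ℕ) j, R + 1 ≤ s.2 → Bd atTop (SIv F G R s j) 0 :=
    fun s j c => Bd.zero (Eventually.of_forall fun i S E ⟨⟨l, Old, h⟩, _, b⟩ g hg e => by
      rcases b g hg e with ⟨u, hu, -⟩ | ⟨b, y, hy, n⟩
      · exact hu
      · exact (h.geo.far g hg _ hy.un).1 R c n)
  induction n with
  | zero =>
    intro s j
    rw [Fs]
    split_ifs with c
    exacts [z s j c, Bd.one]
  | succ n ih =>
    intro s j
    by_cases ev : Even s.1.length ∧ 2 ≤ s.1.length
    swap
    · exact (Bd.zero (Eventually.of_forall fun i S E ⟨⟨l, Old, h⟩, _⟩ g hg _ =>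
        h.empty ev g hg)).le (Fs_mem _ _ _ hκ _ _).1
    rw [Fs]
    split_ifs with c
    · exact z s j c
    · exact Bd.one
    refine Bd.min Bd.one ?_
    have md := mdS j _ ev.1 ev.2
    rw [← tsum_wt md.sum.summable md.nn (hasSum_wS _)
      (fun t => (Fs_mem _ _ _ hκ _ _).1) fun t => (Fs_mem _ _ _ hκ _ _).2]
    refine hF md (fun y => ?_) true
      (fun y => (Fs_mem _ _ _ hκ _ _).1) (fun y => (Fs_mem _ _ _ hκ _ _).2)
      (fun y => ih (snext s y.1) (j + (y.2 + 1))) (G := fun _ _ => True)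
      (fun y => Eventually.of_forall fun _ => trivial)
      (hG.mono fun i m S E ⟨⟨l, Old, h⟩, sz, b⟩ => ?_)
    · rw [div_le_iff₀ (hl_pos ev.1 ev.2)]
      nlinarith [mul_le_mul_of_nonneg_left (hl_nl_le _ ev.1 ev.2 y.1) (wv_nonneg y.1 y.2)]
    obtain ⟨x, -, hl, e⟩ := h.start
    refine ⟨h.geo.wf, x, _, hl, ⟨sz, e⟩, fun y _ sd W k => ?_⟩
    obtain ⟨Old', h'⟩ := h.step m k
    exact ⟨⟨_, _, h'⟩, by have := k.m_eq; omega, fun g hg e => (b g (k.up hg).1 e.1).step e.2⟩

end

end Pool.Agent.Lib.MP_abd955_pr
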