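import Pool.Agent.Lib.MP_abd955_pr.FeatDefs
import Pool.Agent.Lib.MP_abd955_pr.TransB

/-! The initial state with two discs. -/

namespace Pool.Agent.Lib.MP_abd955_pr

open Equiv Equiv.Perm Finset

variable {n p : ℕ}

lemma K2_U {b : Bool} {u : Bool × DD n p} : u ∈ (K2 n p b).U ↔ u.1 = b := by simp [K2]

lemma K2_U_eq (b : Bool) : (K2 n p b).U = (KD n p).U.image (Prod.mk b) := by
  ext ⟨c, u⟩; simp [K2, KD, eq_comm]

lemma K2_X_eq (b : Bool) : (K2 n p b).X = (KD n p).X.image (Prod.mk b) := by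
  simp [K2, KD, image_image, Function.comp_def]

lemma K2_X {b c : Bool} {u : DD n p} : (c, u) ∈ (K2 n p b).X ↔ c = b ∧ u ∈ (KD n p).X := by
  simp only [K2_X_eq, mem_image, Prod.mk.injEq]
  exact ⟨fun ⟨_, h, e, e'⟩ => ⟨e.symm, e' ▸ h⟩, fun ⟨e, h⟩ => ⟨u, h, e.symm, rfl⟩⟩

lemma K2_wf (b : Bool) : WF (K2 n p b) := by
  have w := (KD_spec n p).1
  refine ⟨?_, fun ⟨c, u⟩ h => K2_U.2 (K2_U.1 h :), fun ⟨c, u⟩ h => ?_, fun ⟨c, u⟩ h h' => ?_⟩
  · rw [K2_U_eq, K2_X_eq]; exact image_subset_image w.sub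
  · exact K2_X.2 ⟨(K2_X.1 h).1, w.fX _ (K2_X.1 h).2⟩
  · have := w.four u (mem_univ _) fun e => h' (K2_X.2 ⟨K2_U.1 h, e⟩)
    exact ⟨Prod.ext rfl this.1, fun e => this.2 (congrArg Prod.snd e)⟩

theorem two_wf : (St.two n p).WF :=
  ⟨K2_wf, fun b u h h' => by have := K2_U.1 h; have := K2_U.1 h'; cases b <;> simp_all,
    by simp [St.two]⟩

theorem two_m (b : Bool) : (K2 n p b).m = n := by
  have i : Function.Injective (Prod.mk b : DD n p → _) := Prod.mk_right_injective b
  rw [Cfg.m, K2_U_eq, K2_X_eq, card_image_of_injective _ i, card_image_of_injective _ i]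
  exact (KD_spec n p).2.1

theorem two_holes (b : Bool) (s : ℤ) :
    Holes (K2 n p b) [(List.range (2 * p + 2)).map fun i : ℕ => (b, ek n p (s + i))] := by
  have h := (KD_spec n p).2.2.2 s
  have c := h.cyc _ List.mem_cons_self
  have e : ((List.range (2 * p + 2)).map fun i : ℕ => (b, ek n p (s + i))) =
      ((List.range (2 * p + 2)).map fun i : ℕ => ek n p (s + i)).map (Prod.mk b) := by
    rw [List.map_map]; rfl
  have nd := c.1.map (Prod.mk_right_injective b)
  rw [e]
  refine ⟨fun l hl => ?_, by simpa using nd, fun ⟨c, u⟩ => ?_⟩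
  · rw [List.mem_singleton.1 hl]
    refine ⟨nd, by simp, ?_⟩
    rw [← List.map_rotate, ← c.2.2, List.map_map, List.map_map, List.map_map, List.map_map]
    rfl
  · rw [K2_X, h.mem, List.flatten_singleton, List.flatten_singleton]
    exact ⟨fun ⟨e, h⟩ => List.mem_map.2 ⟨u, h, by rw [e]⟩, fun h => by
      obtain ⟨_, h, e⟩ := List.mem_map.1 h
      cases e; exact ⟨rfl, h⟩⟩

/-- a gluing of the disc acting on one copy -/
def lift2 (b : Bool) (a : Perm (DD n p)) : Perm (Bool × DD n p) :=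
  Equiv.prodCongrRight fun c => if c = b then a else 1

lemma lift2_bij (b : Bool) : Set.BijOn (lift2 b) (DiscS n p : Set (Perm (DD n p)))
    (VS (K2 n p b) : Set (Perm (Bool × DD n p))) := by
  obtain ⟨T, h, e⟩ := transfer (K' := K2 n p b) (KD_spec n p).1 (Prod.mk b)
    (Prod.mk_right_injective b).injOn (K2_U_eq b) (K2_X_eq b) fun _ _ => rfl
  rw [← (KD_spec n p).2.2.1]
  refine h.congr fun a ha => Equiv.ext fun ⟨c, u⟩ => ?_
  by_cases hc : c = b
  · subst hc; rw [e a ha u (mem_univ _)]; simp [lift2]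
  · rw [(mem_VS.1 (h.mapsTo ha)).2 _ fun h => hc (K2_U.1 h)]; simp [lift2, hc]

lemma lift2_mul (a : Bool → Perm (DD n p)) :
    lift2 true (a true) * lift2 false (a false) = Equiv.prodCongrRight a :=
  Equiv.ext fun ⟨c, u⟩ => by cases c <;> simp [lift2]

theorem two_sum (Φ : Perm (Bool × DD n p) → ℝ) : (St.two n p).sum Φ =
    ∑ a ∈ Fintype.piFinset fun _ : Bool => DiscS n p, Φ (Equiv.prodCongrRight a) := by
  have e : ∀ b (Ψ : Perm (Bool × DD n p) → ℝ),
      ∑ a ∈ DiscS n p, Ψ (lift2 b a) = ∑ a ∈ VS (K2 n p b), Ψ a := fun b Ψ =>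
    sum_nbij _ (lift2_bij b).mapsTo (lift2_bij b).injOn (lift2_bij b).surjOn fun _ _ => rfl
  simp only [St.sum, St.two, sum_singleton, one_mul]
  simp only [← e]
  rw [← sum_product']
  refine (sum_nbij' (fun a => (a true, a false)) (fun x c => if c then x.1 else x.2)
    (fun a h => ?_) (fun x h => ?_) (fun a _ => ?_) (fun x _ => rfl) fun a _ => ?_).symm
  · exact mem_product.2 ⟨Fintype.mem_piFinset.1 h _, Fintype.mem_piFinset.1 h _⟩
  · exact Fintype.mem_piFinset.2 fun c => by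
      cases c; exacts [(mem_product.1 h).2, (mem_product.1 h).1]
  · ext1 c; cases c <;> rfl
  · rw [lift2_mul]

theorem two_ok {g : Perm (Bool × DD n p)} : (St.two n p).Ok g ↔
    ∃ a ∈ Fintype.piFinset fun _ : Bool => DiscS n p, g = Equiv.prodCongrRight a := by
  constructor
  · rintro ⟨c, hc, a, ha, a', ha', rfl⟩
    obtain ⟨x, hx, rfl⟩ := (lift2_bij true).surjOn ha
    obtain ⟨y, hy, rfl⟩ := (lift2_bij false).surjOn ha'
    refine ⟨fun c => if c then x else y, Fintype.mem_piFinset.2 fun c => ?_, ?_⟩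
    · cases c; exacts [hy, hx]
    · rw [mem_singleton.1 hc, one_mul, ← lift2_mul]; rfl
  · rintro ⟨a, ha, rfl⟩
    exact ⟨1, mem_singleton_self _, _, (lift2_bij true).mapsTo (Fintype.mem_piFinset.1 ha true), _,
      (lift2_bij false).mapsTo (Fintype.mem_piFinset.1 ha false), by rw [one_mul, lift2_mul]⟩

open Classical in
lemma two_cnt (E : Perm (Bool × DD n p) → Prop) : (St.two n p).cnt E =
    ((Fintype.piFinset fun _ : Bool => DiscS n p).filter fun a =>
      E (Equiv.prodCongrRight a)).card := by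
  rw [St.cnt, two_sum, card_filter]; push_cast; rfl

lemma two_tot : (St.two n p).tot = (Fintype.piFinset fun _ : Bool => DiscS n p).card := by
  simp only [St.tot, two_sum, sum_const, nsmul_eq_mul, mul_one]

end Pool.Agent.Lib.MP_abd955_pr
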