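import Pool.Agent.Lib.MP_abd955_pr.Ext
import Pool.Agent.Lib.MP_abd955_pr.Two
import Pool.Agent.Lib.MP_abd955_pr.AsmA

/-! Initial states of the explorations by layers. -/

namespace Pool.Agent.Lib.MP_abd955_pr

open Equiv Equiv.Perm Finset Step Filter

set_option linter.unusedSectionVars false

/-- L consecutive values from s on -/
def zls {α : Type} (φ : ℤ → α) (s : ℤ) (L : ℕ) : List α := (List.range L).map fun i : ℕ => φ (s + i)

lemma zls_len {α : Type} (φ : ℤ → α) (s : ℤ) (L : ℕ) : (zls φ s L).length = L := by simp [zls]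

lemma zls_add {α : Type} (φ : ℤ → α) (s : ℤ) (A B : ℕ) :
    zls φ s (A + B) = zls φ s A ++ zls φ (s + A) B := by
  simp [zls, List.range_add, add_assoc, Function.comp_def]

lemma mem_zls {α : Type} {φ : ℤ → α} {s : ℤ} {L : ℕ} {u : α} :
    u ∈ zls φ s L ↔ ∃ k, s ≤ k ∧ k < s + L ∧ u = φ k := by
  simp only [zls, List.mem_map, List.mem_range]
  constructor
  · rintro ⟨i, h, rfl⟩; exact ⟨_, by omega, by omega, rfl⟩
  · rintro ⟨k, h1, h2, rfl⟩
    exact ⟨(k - s).toNat, by omega, by congr 1; omega⟩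

lemma cut_zls {α : Type} (φ : ℤ → α) (s : ℤ) (L a b : ℕ) :
    cut a b (zls φ s L) = zls φ (s + a) (L - a - b) :=
  List.ext_getElem (by rw [cut_len, zls_len, zls_len]) fun i _ _ => by
    simp [cut, zls, add_assoc]

lemma zls_rev {α β : Type} {φ : ℤ → α} {ψ : ℤ → β} {τ : α → β} {s s' : ℤ} {L : ℕ}
    (h : ∀ i : ℤ, τ (φ (s + i)) = ψ (s' + L - 1 - i)) :
    (zls φ s L).map τ = (zls ψ s' L).reverse :=
  List.ext_getElem (by simp [zls]) fun i h1 _ => by
    have : i < L := by simpa [zls] using h1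
    simp only [zls, List.getElem_map, List.getElem_range, List.getElem_reverse, List.length_map,
      List.length_range, h]
    congr 1; omega

section
variable {D : Type} [DecidableEq D] [Fintype D]

lemma EI.init {G : Gl D} {two : Bool} {R0 seg : Bool → List D} (m : Mir G two R0) {S : St D}
    (wf : S.WF) (fe : ∀ b, ∀ y ∈ (S.K b).U \ (S.K b).X, (S.K b).f y = G.f y ∧ y ∉ G.X)
    (val : ∀ g, S.Ok g → G.val g)
    (hol : ∀ b, b = true ∨ two = true → Holes (S.K b) [seg b ++ R0 b])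
    (off : ∀ b, ¬(b = true ∨ two = true) → seg b = [] ∧ R0 b = [] ∧ (S.K b).U = ∅)
    (rX : ∀ b, ∀ u ∈ R0 b, u ∈ G.X) (rt : ∀ e ∈ G.rt, ∃ b, e ∈ seg b) :
    EI G R0 two ⟨fun c => List.replicate (seg c).length true, 0, 0⟩ S seg
      (seg true ++ seg false).toFinset := by
  have c0 : ∀ l : List D, cut 0 0 l = l := fun l => by simp [cut]
  have mem : ∀ u, u ∈ (seg true ++ seg false).toFinset ↔ ∃ b, u ∈ seg b := fun u => by
    simp [or_comm]
  refine ⟨⟨wf, fe, val, fun u hu => ?_, fun u hu => ⟨?_, m.closed hu⟩, fun g hg y _ =>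
    ⟨by simp, ?_⟩⟩, fun b => List.eq_replicate_iff.2 ⟨by simp, List.forall_mem_map.2
      fun y hy => decide_eq_true ((mem y).2 ⟨b, hy⟩)⟩, fun b c => by rw [c0]; exact hol b c, off⟩
  · obtain ⟨b, e⟩ := (mem u).1 hu
    have c : b = true ∨ two = true := by
      by_contra c; rw [(off b c).1] at e; simp at e
    have x1 := (hol b c).mem1.2 (List.mem_append_left _ e)
    refine ⟨wf.not_un x1, fun ⟨b', e'⟩ => ?_⟩
    rw [c0] at e'
    by_cases d : b' = b
    · subst d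
      exact (List.nodup_append.1 ((hol b' c).cyc _ List.mem_cons_self).1).2.2 u e u e' rfl
    have c' : b' = true ∨ two = true := by
      by_contra c; rw [(off b' c).2.1] at e'; simp at e'
    refine wf.dis b u ((wf.wf b).sub x1) ?_
    rw [show (!b) = b' by cases b <;> cases b' <;> simp_all]
    exact (wf.wf b').sub ((hol b' c').mem1.2 (List.mem_append_right _ e'))
  · obtain ⟨b, e⟩ := hu
    exact rX b u (cut_sub e)
  · rintro ⟨e, he, n⟩
    rw [← near_zero.1 n, m.ok.inv g (val g hg)]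
    exact (mem e).2 (rt e he)

lemma SI.init {G : Gl D} (o : G.Ok) {S : St D} {l : List D} (wf : S.WF)
    (fe : ∀ b, ∀ y ∈ (S.K b).U \ (S.K b).X, (S.K b).f y = G.f y ∧ y ∉ G.X)
    (val : ∀ g, S.Ok g → G.val g) (hol : Holes (S.K true) [l]) (off : (S.K false).U = ∅)
    (rt : ∀ e ∈ G.rt, e ∈ l) : SI G (List.replicate l.length true, 0) S l l.toFinset := by
  refine ⟨⟨wf, fe, val, fun u hu => ⟨wf.not_un (hol.mem1.2 (List.mem_toFinset.1 hu)), by simp⟩,
    by simp, fun g hg y _ => ⟨by simp, ?_⟩⟩, List.eq_replicate_iff.2 ⟨by simp,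
      List.forall_mem_map.2 fun y hy => decide_eq_true (List.mem_toFinset.2 hy)⟩, hol, off⟩
  rintro ⟨e, he, n⟩
  rw [← near_zero.1 n, o.inv g (val g hg)]
  exact List.mem_toFinset.2 (rt e he)

/-- a feature far from the boundary is a feature of the unzipped map -/
lemma feat_inner {G : Gl D} (o : G.Ok) {a : Perm D} (ha : G.val a) {F : Fam} {V : ℕ}
    (hF : FamOk F V) {I : Set D} (h1 : ∀ u ∈ I, u ∉ G.X) (h2 : ∀ u, G.f u ∈ I ↔ u ∈ I)
    (h3 : ∀ u ∈ I, a u ∉ G.X → a u ∈ I) {y : D} (hy : y ∈ I) (h : Feat F (G.z a) G.f y)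
    (n : ∀ e ∈ G.X, ¬Near (G.z a) G.f (4 * V + 4) y (a e)) : IFeat F I G.f a y := by
  have k0 : ∀ u ∈ I, Near (G.z a) G.f (4 * V + 4) y u → a u ∈ I ∧ G.z a u = a u := fun u hu e => by
    rcases (o.z_inner ha (h1 u hu)).2 with c | c
    · exact ⟨h3 u hu c.1, c.2⟩
    · exact absurd (by rwa [o.inv a ha]) (n _ c.1)
  have k : ∀ m ≤ 4 * V + 4, ∀ u, Near (G.z a) G.f m y u → u ∈ I := fun m => by
    induction m with
    | zero => exact fun _ u e => near_zero.1 e ▸ hy
    | succ m ih =>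
      intro hm u e
      rcases near_succ.1 e with e | ⟨u', e, e'⟩
      · exact ih (by omega) u e
      have i := ih (by omega) u' e
      have j := k0 u' i (e.mono (by omega))
      rcases e' with rfl | rfl | rfl | rfl
      · exact j.2 ▸ j.1
      · rw [show (G.z a)⁻¹ u' = G.z a u' by rw [Perm.inv_eq_iff_eq, (o.zp a ha u').2]]
        exact j.2 ▸ j.1
      · exact (h2 _).2 i
      · exact (h2 _).1 (by simpa using i)
  obtain ⟨⟨v, e, he, ι, em, i0, i1, -⟩, h4⟩ := h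
  have y0 := k0 y hy (Near.refl _ _ _ _)
  have hv : v ≤ V := by
    by_contra c; rw [hF.big v (by omega)] at he; simp at he
  have k1 : ∀ u, Near (G.z a) G.f (4 * V + 4) y (ι u) := fun u => by
    obtain ⟨c, e1⟩ := emb_near (hF.val v he) em u
    have : Near (G.z a) G.f 2 y (ι (.inr c)) := by
      cases c
      · rw [i0]; exact (near_f _ _ _).mono (by omega)
      · rw [i1]; exact (near_b _ _ _).sg
    exact (this.trans e1).mono (by omega)
  rw [y0.2] at i1 h4
  exact ⟨hy, y0.1, ⟨v, e, he, ι, ⟨em.inj, fun u => by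
    rw [← em.mb, (k0 _ (k _ le_rfl _ (k1 u)) (k1 u)).2], em.mf⟩, i0, i1,
      fun u => k _ le_rfl _ (k1 _)⟩, h4⟩

end

variable {n p : ℕ}

/-- global data of the folded disc -/
noncomputable def glF (n p : ℕ) (rt : Set (DD n p)) : Gl (DD n p) :=
  ⟨poly n p, extS n p, mirF n p, foldP, fun a => a ∈ DiscS n p, rt⟩

lemma glF_ok (hn : 1 ≤ n) {rt : Set (DD n p)} (h : rt ⊆ extS n p) : (glF n p rt).Ok :=
  ⟨fun _ => poly_inner, by rintro _ ⟨i, rfl⟩; exact ⟨⟨_, rfl⟩, by simp [glF, mirF]⟩, h,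
    fun _ ha => disc_inv ha, by
      rintro a ha _ ⟨i, rfl⟩ ⟨j, e⟩; exact disc_nondeg hn ha i j e.symm,
    fun _ ha => foldP_apply hn ha⟩

lemma KD_X {u : DD n p} : u ∈ (KD n p).X ↔ u ∈ extS n p := by simp [KD, extS]

lemma KD_in {u : DD n p} : u ∈ (KD n p).U \ (KD n p).X ↔ u ∉ extS n p := by
  rw [Finset.mem_sdiff, KD_X]; simp [KD]

lemma one_fe {rt : Set (DD n p)} (b : Bool) : ∀ y ∈ ((St.one (KD n p)).K b).U \
    ((St.one (KD n p)).K b).X, ((St.one (KD n p)).K b).f y = (glF n p rt).f y ∧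
      y ∉ (glF n p rt).X := by
  cases b
  · simp [St.one, emp]
  · exact fun y hy => ⟨rfl, KD_in.1 hy⟩

lemma one_val {g : Perm (DD n p)} : (St.one (KD n p)).Ok g ↔ g ∈ DiscS n p := by
  rw [one_ok, (KD_spec n p).2.2.1]

lemma ek_rep (s : ℤ) {u : DD n p} (h : u ∈ extS n p) :
    ∃ k, s ≤ k ∧ k < s + (2 * p + 2 : ℕ) ∧ u = ek n p k :=
  mem_zls.1 (((KD_spec n p).2.2.2 s).mem1.1 (KD_X.2 h))

/-- the exterior darts outside the symmetric segment of length 2A -/
def R0F (n p A : ℕ) (b : Bool) : List (DD n p) :=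
  if b then zls (ek n p) A (2 * p + 2 - 2 * A) else []

def segF (n p A : ℕ) (b : Bool) : List (DD n p) := if b then zls (ek n p) (-A) (2 * A) else []

lemma mirF_ok (hn : 1 ≤ n) {A : ℕ} (hA : A ≤ p) {rt : Set (DD n p)} (h : rt ⊆ extS n p) :
    Mir (glF n p rt) false (R0F n p A) :=
  ⟨glF_ok hn h, fun b => by
    cases b
    · rfl
    · exact zls_rev fun i => (mirF_ek n p _).trans ((ek_eq_iff n p _ _).2 ⟨-1, by
        rw [Nat.cast_sub (by omega)]; push_cast; ring⟩)⟩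

lemma initF (hn : 1 ≤ n) {A : ℕ} (hA : A ≤ p) {rt : Set (DD n p)}
    (h : ∀ e ∈ rt, e ∈ segF n p A true) :
    EI (glF n p rt) (R0F n p A) false ⟨fun c => List.replicate (if c then 2 * A else 0) true, 0, 0⟩
      (St.one (KD n p)) (segF n p A) (segF n p A true ++ segF n p A false).toFinset := by
  have h0 : rt ⊆ extS n p := fun e he => by
    obtain ⟨k, -, -, rfl⟩ := mem_zls.1 (h e he); exact ek_mem k
  have := EI.init (seg := segF n p A) (mirF_ok hn hA h0) (one_wf (KD_spec n p).1) one_fe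
    (fun g hg => one_val.1 hg) (fun b c => by
      obtain rfl : b = true := by simpa using c
      have := (KD_spec n p).2.2.2 (-A)
      change Holes _ [zls (ek n p) (-A) (2 * p + 2)] at this
      rw [show 2 * p + 2 = 2 * A + (2 * p + 2 - 2 * A) by omega, zls_add,
        show -(A : ℤ) + (2 * A : ℕ) = A by push_cast; ring] at this
      exact this)
    (fun b c => by
      obtain rfl : b = false := by simpa using c
      exact ⟨rfl, rfl, rfl⟩)
    (fun b u hu => by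
      cases b
      · simp [R0F] at hu
      · obtain ⟨k, -, -, rfl⟩ := mem_zls.1 hu; exact ek_mem k)
    fun e he => ⟨true, h e he⟩
  convert this using 3 with c
  cases c <;> simp [segF, zls_len]

lemma not_RS {A J : ℕ} (h : A + J ≤ p) {u : DD n p} (hu : u ∈ extS n p)
    (h' : u ∉ RS (R0F n p A) J) : ∃ k : ℤ, -(A + J : ℕ) ≤ k ∧ k < (A + J : ℕ) ∧ u = ek n p k := by
  obtain ⟨k, h1, h2, rfl⟩ := ek_rep (-(A + J : ℕ)) hu
  refine ⟨k, h1, ?_, rfl⟩
  by_contra c
  exact h' ⟨true, by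
    rw [R0F, if_pos rfl, cut_zls]
    exact mem_zls.2 ⟨k, by omega, by omega, rfl⟩⟩

lemma KD_card : (KD n p).X.card = 2 * p + 2 := by
  rw [← ((KD_spec n p).2.2.2 0).len]; simp

open Classical in
theorem ext_fold_gen {F : Fam} {κ : ℝ} (hF : RuleF F κ) (hκ : 0 ≤ κ) {A : ℕ} (hA : 1 ≤ A)
    (rt : ∀ n p, Set (DD n p)) (h : ∀ n p, ∀ e ∈ rt n p, e ∈ segF n p A true) (R J0 M m : ℕ)
    {ε : ℝ} (hε : 0 < ε) : ∀ᶠ p : ℕ in atTop, ∀ᶠ n : ℕ in atTop,
      (((DiscS n p).filter fun a => EBad F (glF n p (rt n p)) (RS (R0F n p A) J0) R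
        (St.one (KD n p)) a).card : ℝ) ≤ (Fe false (R + 1) (J0 + 1) M κ m
          ⟨fun c => List.replicate (if c then 2 * A else 0) true, 0, 0⟩ + ε) * (DiscS n p).card := by
  have := ext_bd (D := fun i => DD i.2 i.1) hF hκ (G := fun i => glF i.2 i.1 (rt i.2 i.1))
    (R0 := fun i => R0F i.2 i.1 A) (two := false)
    ((evH_ge A).mono fun i hi => mirF_ok (by omega) hi.1 fun e he => by
      obtain ⟨k, -, -, rfl⟩ := mem_zls.1 (h _ _ e he); exact ek_mem k)
    (fun L => (evH_ge (L + A)).mono fun i hi b c => by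
      obtain rfl : b = true := by simpa using c
      rw [R0F, if_pos rfl, zls_len]; omega) R J0 M m
    ⟨fun c => List.replicate (if c then 2 * A else 0) true, 0, 0⟩ 2
    (Or.inl (mem_repl (by simp; omega))) ε hε
  filter_upwards [evH.1 (this.and (evH_ge A))] with p hp
  filter_upwards [hp] with n ⟨h1, h2⟩
  have := h1 (St.one (KD n p)) (EBad F (glF n p (rt n p)) (RS (R0F n p A) J0) R (St.one (KD n p)))
    ⟨⟨_, _, initF (by omega) h2.1 (h n p)⟩, fun b c => by
      obtain rfl : b = true := by simpa using c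
      change SzH 2 (p, n) (KD n p).m (KD n p).X.card
      rw [KD_card, (KD_spec n p).2.1]
      exact ⟨by simp, by simp only; omega, le_rfl⟩, fun _ _ e => e⟩
  rwa [one_cnt, one_tot, (KD_spec n p).2.2.1] at this

lemma near_inner (hn : 1 ≤ n) {a : Perm (DD n p)} (ha : a ∈ DiscS n p) {R : ℕ} {k : ℤ} {y : DD n p}
    (h : Near (foldP a) (poly n p) R (a (ek n p k)) y) : y ∉ extS n p :=
  (glF_ok hn le_rfl).inner ha ⟨_, ek_mem k, h⟩

lemma noBF_of (hn : 1 ≤ n) {a : Perm (DD n p)} (ha : a ∈ DiscS n p) {F : Fam} {V R : ℕ}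
    (hF : FamOk F V) (h : ¬NoBF F V R a) : ∃ b y, UF F (St.one (KD n p)) b a y ∧
      (glF n p {ek n p (-1)}).Nr a R y := by
  simp only [NoBF, not_forall, not_exists] at h
  obtain ⟨y, h1, h2, h3⟩ := h
  refine ⟨true, y, ?_, _, rfl, h2⟩
  have := feat_inner (glF_ok hn le_rfl) ha hF (I := (extS n p)ᶜ) (fun _ h => h)
    (fun _ => not_congr poly_inner) (fun _ _ h => h) (near_inner hn ha h2) h1
    (by rintro _ ⟨i, rfl⟩; exact h3 i)
  rwa [show (extS n p)ᶜ = ↑((KD n p).U \ (KD n p).X) from Set.ext fun u => KD_in.symm] at this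

lemma initS (hn : 1 ≤ n) {rt : Set (DD n p)} (h : rt ⊆ extS n p) (s : ℤ) :
    SI (glF n p rt) (List.replicate (2 * p + 2) true, 0) (St.one (KD n p))
      (zls (ek n p) s (2 * p + 2)) (zls (ek n p) s (2 * p + 2)).toFinset := by
  have := SI.init (glF_ok hn h) (l := zls (ek n p) s (2 * p + 2)) (one_wf (KD_spec n p).1) one_fe
    (fun g hg => one_val.1 hg) ((KD_spec n p).2.2.2 s) rfl fun e he => mem_zls.2 (ek_rep s (h he))
  rwa [zls_len] at this

/-- global data of the glued discs -/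
noncomputable def glG (n p : ℕ) (rt : Set (Bool × DD n p)) : Gl (Bool × DD n p) :=
  ⟨gpoly n p, {x | x.2 ∈ extS n p}, mirG n p, zp {x | x.2 ∈ extS n p} (mirG n p),
    fun g => ∃ a ∈ Fintype.piFinset fun _ : Bool => DiscS n p, g = Equiv.prodCongrRight a, rt⟩

lemma glG_ok (hn : 1 ≤ n) {rt : Set (Bool × DD n p)} (h : rt ⊆ {x | x.2 ∈ extS n p}) :
    (glG n p rt).Ok :=
  ⟨fun _ => poly_inner, by rintro ⟨b, _⟩ ⟨i, rfl⟩; exact ⟨⟨_, rfl⟩, by simp [glG, mirG]⟩, h, by
      rintro _ ⟨a, ha, rfl⟩ ⟨b, u⟩; simp [disc_inv (Fintype.mem_piFinset.1 ha b)], by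
      rintro _ ⟨a, ha, rfl⟩ ⟨b, _⟩ ⟨i, rfl⟩ ⟨j, e⟩
      exact disc_nondeg hn (Fintype.mem_piFinset.1 ha b) i j e.symm, by
      rintro _ ⟨a, ha, rfl⟩; exact glueP_apply hn (Fintype.mem_piFinset.1 ha)⟩

def sG (s : ℤ) (d : ℕ) (b : Bool) : ℤ := if b then s else 1 - s - d

def R0G (n p : ℕ) (s : ℤ) (d : ℕ) (b : Bool) : List (Bool × DD n p) :=
  zls (fun k => (b, ek n p k)) (sG s d b + d) (2 * p + 2 - d)

def segG (n p : ℕ) (s : ℤ) (d : ℕ) (b : Bool) : List (Bool × DD n p) :=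
  zls (fun k => (b, ek n p k)) (sG s d b) d

lemma K2_in {b : Bool} {u : Bool × DD n p} :
    u ∈ (K2 n p b).U \ (K2 n p b).X ↔ u.1 = b ∧ u.2 ∉ extS n p := by
  obtain ⟨c, u⟩ := u
  rw [Finset.mem_sdiff, K2_X, K2_U, KD_X]; tauto

lemma mirG_ok (hn : 1 ≤ n) {s : ℤ} {d : ℕ} (hd : d ≤ p) {rt : Set (Bool × DD n p)}
    (h : rt ⊆ {x | x.2 ∈ extS n p}) : Mir (glG n p rt) true (R0G n p s d) :=
  ⟨glG_ok hn h, fun b => zls_rev fun i => (mirG_ek n p _ _).trans (Prod.ext rfl
    ((ek_eq_iff n p _ _).2 ⟨-1, by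
      rw [Nat.cast_sub (by omega)]; cases b <;> simp [sG] <;> ring⟩))⟩

lemma initG (hn : 1 ≤ n) {s : ℤ} {d : ℕ} (hd : d ≤ p) :
    EI (glG n p {e | e ∈ segG n p s d true}) (R0G n p s d) true
      ⟨fun c => List.replicate (if c then d else d) true, 0, 0⟩
      (St.two n p) (segG n p s d) (segG n p s d true ++ segG n p s d false).toFinset := by
  have := EI.init (seg := segG n p s d) (mirG_ok (s := s) (rt := {e | e ∈ segG n p s d true}) hn hd
      fun e he => by obtain ⟨k, -, -, rfl⟩ := mem_zls.1 he; exact ek_mem k) two_wf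
    (fun b y hy => ⟨rfl, (K2_in.1 hy).2⟩) (fun g hg => two_ok.1 hg) (fun b _ => by
      have := two_holes (n := n) (p := p) b (sG s d b)
      change Holes _ [zls (fun k => (b, ek n p k)) _ (2 * p + 2)] at this
      rw [show 2 * p + 2 = d + (2 * p + 2 - d) by omega, zls_add] at this
      exact this) (by simp)
    (fun b u hu => by obtain ⟨k, -, -, rfl⟩ := mem_zls.1 hu; exact ek_mem k)
    fun e he => ⟨true, he⟩
  convert this using 3 with c
  cases c <;> simp [segG, zls_len]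

lemma not_RSG {s : ℤ} {d J : ℕ} {b : Bool} {u : DD n p} (hu : u ∈ extS n p)
    (h' : (b, u) ∉ RS (R0G n p s d) J) :
    ∃ k : ℤ, s - J ≤ k ∧ k < s + d + J ∧ u = ek n p (if b then k else -k) := by
  obtain ⟨k, h1, h2, rfl⟩ := ek_rep (sG s d b - J) hu
  have : k < sG s d b + d + J := by
    by_contra c
    exact h' ⟨b, by
      rw [R0G, cut_zls]
      exact mem_zls.2 ⟨k, by omega, by omega, rfl⟩⟩
  cases b
  · exact ⟨-k, by simp [sG] at this; omega, by simp [sG] at h1; omega, by simp⟩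
  · exact ⟨k, h1, this, rfl⟩

end Pool.Agent.Lib.MP_abd955_pr
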