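import Pool.Agent.Lib.MP_abd955_pr.ZipA
import Pool.Agent.Lib.MP_abd955_pr.TransB
import Pool.Agent.Lib.MP_abd955_pr.Count

/-! Generic tools for the second moment: zipping many segments, counting with volume windows. -/

namespace Pool.Agent.Lib.MP_abd955_pr

open Equiv Equiv.Perm Finset

set_option linter.unusedSectionVars false

variable {D D' : Type} [DecidableEq D] [Fintype D] [DecidableEq D'] [Fintype D']

namespace Z2

/-- same holes up to order and rotation -/
def Rot (ls ls' : List (List D)) : Prop :=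
  ls.flatten.Perm ls'.flatten ∧ ∀ f : Perm D, (∀ l ∈ ls, Cyc f l) → ∀ l ∈ ls', Cyc f l

lemma Rot.holes {K : Cfg D} {ls ls' : List (List D)} (r : Rot ls ls') (h : Holes K ls) :
    Holes K ls' :=
  ⟨r.2 _ h.cyc, r.1.nodup_iff.1 h.nd, fun x => (h.mem x).trans r.1.mem_iff⟩

lemma Rot.perm {ls ls' : List (List D)} (p : ls.Perm ls') : Rot ls ls' :=
  ⟨p.flatten, fun _ h l hl => h l (p.mem_iff.2 hl)⟩

lemma Rot.refl (ls : List (List D)) : Rot ls ls := Rot.perm (List.Perm.refl _)

lemma Rot.trans {a b c : List (List D)} (h : Rot a b) (h' : Rot b c) : Rot a c :=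
  ⟨h.1.trans h'.1, fun f e => h'.2 f (h.2 f e)⟩

lemma Rot.app {a b c d : List (List D)} (h : Rot a b) (h' : Rot c d) : Rot (a ++ c) (b ++ d) :=
  ⟨by simpa using h.1.append h'.1, fun f e l hl => by
    rcases List.mem_append.1 hl with hl | hl
    exacts [h.2 f (fun l hl => e l (List.mem_append_left _ hl)) l hl,
      h'.2 f (fun l hl => e l (List.mem_append_right _ hl)) l hl]⟩

lemma Rot.one (X Y : List D) {l l' : List D} (e : l = X ++ Y) (e' : l' = Y ++ X) : Rot [l] [l'] := by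
  subst e e'
  exact ⟨by simpa using List.perm_append_comm, fun f h l hl => by
    rw [List.mem_singleton.1 hl]; exact (h _ List.mem_cons_self).comm⟩

lemma Rot.cons {l l' : List D} {c d : List (List D)} (h : Rot [l] [l']) (h' : Rot c d) :
    Rot (l :: c) (l' :: d) := h.app h'

/-- the holes ls become ls' when the darts of S are zipped in pairs -/
def Zs (t : Perm D) (S : Set D) (ls ls' : List (List D)) : Prop :=
  ∀ (m : List (List D)) (K : Cfg D), WF K → Holes K (ls ++ m) → ∃ K' : Cfg D, WF K' ∧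
    Holes K' (ls' ++ m) ∧ (∀ u, u ∈ K'.U ↔ u ∈ K.U ∧ u ∉ S) ∧ (∀ u ∈ K'.X, u ∈ K.X) ∧
    (∀ u ∈ S, u ∈ K.X ∧ t u ∈ S) ∧ (∀ u ∈ K.U, u ∉ K.X → K'.f u = K.f u) ∧
    ∀ a, Pre K K.X a → (∀ x ∈ S, a x ∉ S) →
      ∃ b, Pre K' K'.X b ∧ ∀ u ∈ K'.U, b u = zipf S t a u

variable {t : Perm D} {S S' : Set D}

lemma Zs.rot {a b c d : List (List D)} (h : Zs t S b c) (r : Rot a b) (r' : Rot c d) :
    Zs t S a d := fun m K w hl => by
  obtain ⟨K', h1, h2, h3⟩ := h m K w ((r.app (Rot.refl m)).holes hl)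
  exact ⟨K', h1, (r'.app (Rot.refl m)).holes h2, h3⟩

lemma Zs.app {a b : List (List D)} (h : Zs t S a b) (c : List (List D)) :
    Zs t S (a ++ c) (b ++ c) := fun m K w hl => by
  simpa only [List.append_assoc] using h (c ++ m) K w (by simpa only [List.append_assoc] using hl)

lemma Zs.pre {a b : List (List D)} (h : Zs t S a b) (c : List (List D)) :
    Zs t S (c ++ a) (c ++ b) :=
  (h.app c).rot (Rot.perm List.perm_append_comm) (Rot.perm List.perm_append_comm)

lemma Zs.refl (a : List (List D)) : Zs t ∅ a a := fun m K w hl =>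
  ⟨K, w, hl, by simp, fun _ h => h, by simp, fun _ _ _ => rfl, fun a p _ =>
    ⟨a, p, fun u _ => by simp [zipf]⟩⟩

lemma Zs.set {a b : List (List D)} (h : Zs t S a b) (e : ∀ x, x ∈ S' ↔ x ∈ S) : Zs t S' a b :=
  (Set.ext e : S' = S) ▸ h

lemma Zs.trans {a b c : List (List D)} (h : Zs t S a b) (h' : Zs t S' b c) :
    Zs t (S ∪ S') a c := fun m K w hl => by
  obtain ⟨K1, w1, l1, u1, x1, s1, f1, p1⟩ := h m K w hl
  obtain ⟨K2, w2, l2, u2, x2, s2, f2, p2⟩ := h' m K1 w1 l1
  have hS : ∀ u ∈ S', u ∈ K1.U := fun u hu => w1.sub (s2 u hu).1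
  refine ⟨K2, w2, l2, fun u => by simp [u2, u1, and_assoc], fun u hu => x1 u (x2 u hu),
    fun u hu => ?_, fun u hu hx => ?_, fun a p ha => ?_⟩
  · rcases hu with hu | hu
    exacts [⟨(s1 u hu).1, Or.inl (s1 u hu).2⟩, ⟨x1 u (s2 u hu).1, Or.inr (s2 u hu).2⟩]
  · rw [f2 u ((u1 u).2 ⟨hu, fun e => hx (s1 u e).1⟩) fun e => hx (x1 u e), f1 u hu hx]
  · obtain ⟨b, q1, e1⟩ := p1 a p fun x hx e => ha x (Or.inl hx) (Or.inl e)
    have e3 : ∀ x ∈ S', b x = a x := fun x hx => by
      have n : a x ∉ S := fun e => ha x (Or.inr hx) (Or.inl e)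
      rw [e1 x (hS x hx), zipf, if_neg ((u1 x).1 (hS x hx)).2, if_neg n]
    obtain ⟨c, q2, e2⟩ := p2 b q1 fun x hx e => ha x (Or.inr hx) (Or.inr (e3 x hx ▸ e))
    refine ⟨c, q2, fun u hu => ?_⟩
    obtain ⟨n1, n2⟩ := (u2 u).1 hu
    have n3 := ((u1 u).1 n1).2
    have n4 : u ∉ S ∪ S' := fun e => e.elim n3 n2
    have e4 := e1 u n1
    rw [zipf, if_neg n3] at e4
    rw [e2 u hu, zipf, zipf, if_neg n2, if_neg n4]
    by_cases c1 : a u ∈ S
    · rw [if_pos c1] at e4
      have : b u ∉ S' := fun e => ha _ (Or.inl (s1 _ c1).2) (Or.inr (e4 ▸ e))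
      rw [if_neg this, if_pos (show a u ∈ S ∪ S' from Or.inl c1), e4]
    · rw [if_neg c1] at e4
      rw [e4]
      by_cases c2 : a u ∈ S'
      · rw [if_pos c2, if_pos (show a u ∈ S ∪ S' from Or.inr c2), e3 _ (s2 _ c2).2]
      · rw [if_neg c2, if_neg fun e : a u ∈ S ∪ S' => e.elim c1 c2]

lemma Zs.glue (ht : ∀ u, t (t u) = u) {P A B : List D} (hP : P ≠ []) (hA : A ≠ []) (hB : B ≠ []) :
    Zs t {x | x ∈ P ++ P.map t} [P ++ A, (P.map t).reverse ++ B] [B ++ A] := fun m K w hl => by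
  obtain ⟨K', h1, h2, h3, h4, h5⟩ := glue_seg w t ht hP hA hB hl
  refine ⟨K', h1, h2, fun u => by simp [h3], fun u hu => ?_, fun u hu => ⟨?_, ?_⟩, h4,
    fun a p _ => (h5 a p).2⟩
  · rw [hl.mem]
    have := (h2.mem u).1 hu
    simp only [List.flatten_cons, List.mem_append, List.cons_append, List.nil_append] at this ⊢
    tauto
  · rw [hl.mem]
    simp only [List.flatten_cons, List.mem_append, List.cons_append, List.nil_append,
      List.mem_reverse, Set.mem_ofPred_eq] at hu ⊢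
    tauto
  · simp only [List.mem_append, List.mem_map, Set.mem_ofPred_eq] at hu ⊢
    rcases hu with hu | ⟨y, hy, rfl⟩
    exacts [Or.inr ⟨u, hu, rfl⟩, Or.inl (by rwa [ht])]

/-- a boundary dart glued to a boundary dart closes its hole -/
lemma closed {K : Cfg D} (w : WF K) {a : Perm D} (p : Pre K K.X a) {l : List D} (c : Cyc K.f l)
    {x : D} (hx : x ∈ K.X) (hl : x ∈ l) (ha : a x ∈ K.X) : ∀ z ∈ l, z = x ∨ z = a x := by
  have key : ∀ x ∈ K.X, a x ∈ K.X → K.f (a x) = x := fun x hx ha =>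
    (p.simp x hx _ (w.fX _ ha) (sc_step (K.f * a) x)).symm
  have i := (p.inv x (w.sub hx)).2.1
  have h2 := key (a x) ha (by rwa [i])
  rw [i] at h2
  intro z hz
  refine sc_ind (P := fun z => z = x ∨ z = a x) (c.sc hl hz) (Or.inl rfl) ?_
  rintro z (rfl | rfl)
  exacts [Or.inr h2, Or.inl (key x hx ha)]

lemma no_pair {K : Cfg D} (w : WF K) {ls : List (List D)} (hl : Holes K ls) {a : Perm D}
    (p : Pre K K.X a) (hS : ∀ x ∈ S, x ∈ K.X) (h : ∀ l ∈ ls, ∃ z ∈ l, z ∉ S) :
    ∀ x ∈ S, a x ∉ S := fun x hx ha => by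
  obtain ⟨l, h1, h2⟩ := List.mem_flatten.1 ((hl.mem x).1 (hS x hx))
  obtain ⟨z, h3, h4⟩ := h l h1
  rcases closed w p (hl.cyc l h1) (hS x hx) h2 (hS _ ha) z h3 with rfl | rfl
  exacts [h4 hx, h4 ha]

/-- the gluing determines the face permutation -/
lemma face_uniq {K K' : Cfg D} (w : WF K) (w' : WF K') (hX : K'.X = K.X) {a : Perm D}
    (p : Pre K K.X a) (p' : Pre K' K'.X a) (hf : ∀ u ∈ K.U, u ∉ K.X → K'.f u = K.f u) {y : D}
    (hy : y ∈ K.X) : K'.f y = K.f y := by
  have i := p.inv y (w.sub hy)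
  have hx := w.fX y hy
  have s : (K.f * a).SameCycle (K.f y) (a y) := by
    have := (sc_step (K.f * a) (a y)).symm
    rwa [Perm.mul_apply, i.2.1] at this
  have key := sc_ind (P := fun z => z ∈ K.U ∧ (K.f * a).SameCycle (K.f y) z ∧
    (K'.f * a).SameCycle (K.f y) z) s ⟨w.sub hx, SameCycle.refl _ _, SameCycle.refl _ _⟩ (by
      rintro z ⟨h1, h2, h3⟩
      have h4 := h2.trans (sc_step (K.f * a) z)
      refine ⟨w.fU _ (p.aU z h1), h4, ?_⟩
      by_cases e : a z ∈ K.X
      · have := p.simp _ hx _ (w.fX _ e) h4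
        rw [Perm.mul_apply, ← this]
      · have := h3.trans (sc_step (K'.f * a) z)
        rwa [Perm.mul_apply, hf _ (p.aU z h1) e] at this)
  have h5 := key.2.2.trans (sc_step (K'.f * a) (a y))
  rw [Perm.mul_apply, i.2.1] at h5
  exact (p'.simp _ (hX ▸ hx) _ (w'.fX _ (hX ▸ hy)) h5).symm

lemma ex_cyc : ∀ ls : List (List D), ls.flatten.Nodup → (∀ l ∈ ls, l ≠ []) →
    ∃ g : Perm D, (∀ l ∈ ls, Cyc g l) ∧ ∀ x, x ∉ ls.flatten → g x = x
  | [], _, _ => ⟨1, by simp, by simp⟩
  | l :: ls, h, h' => by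
    obtain ⟨h1, h2, h3⟩ := List.nodup_append.1 h
    obtain ⟨g, g1, g2⟩ := ex_cyc ls h2 fun l hl => h' l (List.mem_cons_of_mem _ hl)
    refine ⟨l.formPerm * g, fun l' hl => ?_, fun x hx => ?_⟩
    · rcases List.mem_cons.1 hl with rfl | hl
      · refine ⟨h1, h' _ List.mem_cons_self, ?_⟩
        rw [List.map_congr_left (g := l'.formPerm) fun x hx => by
          rw [Perm.mul_apply, g2 x fun e => h3 x hx x e rfl]]
        refine List.ext_getElem (by simp) fun i i1 i2 => ?_
        rw [List.getElem_map, List.formPerm_apply_getElem _ h1, List.getElem_rotate]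
      · exact (g1 l' hl).congr fun x hx => List.formPerm_apply_of_notMem fun e =>
          h3 _ e _ (List.mem_flatten.2 ⟨l', hl, (g1 l' hl).mem hx⟩) rfl
    · simp only [List.flatten_cons, List.mem_append, not_or] at hx
      rw [Perm.mul_apply, g2 x hx.2, List.formPerm_apply_of_notMem hx.1]

lemma cyc_map {f : Perm D} {g : Perm D'} {φ : D → D'} {l : List D} (h : Cyc f l)
    (h' : Cyc g (l.map φ)) {x : D} (hx : x ∈ l) : g (φ x) = φ (f x) := by
  have := h'.2.2
  rw [← List.map_rotate, ← h.2.2, List.map_map, List.map_map] at this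
  exact List.map_inj_left.1 this x hx

/-- pulling a gluing back along an embedding -/
lemma pull {K : Cfg D} {K' : Cfg D'} (w : WF K) (hK : K.U = univ) {φ : D → D'}
    (hi : Function.Injective φ) (hU : ∀ u, u ∈ K'.U ↔ ∃ x, φ x = u) {ls : List (List D)}
    (hl : Holes K ls) (hl' : Holes K' (ls.map (List.map φ)))
    (hf : ∀ u, u ∉ K.X → K'.f (φ u) = φ (K.f u)) {b : Perm D'} (p : Pre K' K'.X b) :
    ∃ a ∈ VS K, ∀ u, φ (a u) = b (φ u) := by
  choose g hg using fun u => (hU _).1 (p.aU (φ u) ((hU _).2 ⟨u, rfl⟩))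
  have hv : Function.Involutive g := fun u => hi (by
    rw [hg, hg, (p.inv _ ((hU _).2 ⟨u, rfl⟩)).2.1])
  refine ⟨hv.toPerm g, mem_VS.2 ⟨(pre_map w φ hi.injOn ?_ ?_ (fun u _ => ?_) (by simp [hK])
    fun u _ => (hg u).symm).2 p, by simp [hK]⟩, hg⟩
  · ext u; simp [hU, hK]
  · ext u
    rw [hl'.mem, ← List.map_flatten]
    simp only [List.mem_map, mem_image, hl.mem]
  · by_cases e : u ∈ K.X
    · obtain ⟨l, h1, h2⟩ := List.mem_flatten.1 ((hl.mem u).1 e)
      exact cyc_map (hl.cyc l h1) (hl'.cyc _ (List.mem_map_of_mem h1)) h2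
    · exact hf u e

lemma vol0 {K : Cfg D} (w : WF K) {l : List D} (hl : Holes K [l]) {a : Perm D} (p : Pre K K.X a)
    {x : D} (hx : x ∈ l) (ha : a x ∈ K.X) : K.m = 0 := by
  have h0 := hl.sub List.mem_cons_self hx
  have c := closed w p (hl.cyc _ List.mem_cons_self) h0 hx ha
  have h1 : ∀ z ∈ K.X, a z ∈ K.X := fun z hz => by
    rcases c z (by simpa using (hl.mem z).1 hz) with rfl | rfl
    · exact ha
    · rwa [(p.inv x (w.sub h0)).2.1]
  have h2 : K.U ⊆ K.X := fun u hu => by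
    obtain ⟨y, hy, e⟩ := p.con u hu
    exact conn_mem h1 w.fX hy ((conn a K.f).symm e)
  have := card_le_card h2
  unfold Cfg.m; omega

/-- volume generating polynomial of a hole in a window -/
noncomputable def zq (lo V l : ℕ) : Polynomial ℝ :=
  ∑ v ∈ Icc lo V, Polynomial.monomial v (PowerSeries.coeff v (Zl l))

lemma coeff_zq (lo V l v : ℕ) :
    (zq lo V l).coeff v = if v ∈ Icc lo V then PowerSeries.coeff v (Zl l) else 0 := by
  simp only [zq, Polynomial.finsetSum_coeff, Polynomial.coeff_monomial, sum_ite_eq']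

abbrev FH (D : Type) := ℕ × ℕ × List D

noncomputable def zP (fl : List (FH D)) : Polynomial ℝ :=
  (fl.map fun h => zq h.1 h.2.1 h.2.2.length).prod

def ND (fl : List (FH D)) (X : Finset D) (a : Perm D) : Prop :=
  ∀ h ∈ fl, 1 ≤ h.1 → ∀ x ∈ h.2.2, a x ∉ X

lemma GG_choose {m v : ℕ} (h : v ≤ m) : (m.choose v : ℝ) * GG v * GG (m - v) = GG m := by
  have h1 : ((m.choose v * v.factorial * (m - v).factorial : ℕ) : ℝ) = m.factorial := by
    rw [Nat.choose_mul_factorial_mul_factorial h]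
  have h2 : (4 : ℝ) ^ m = 4 ^ v * 4 ^ (m - v) := by rw [← pow_add, Nat.add_sub_cancel' h]
  push_cast at h1
  simp only [GG]
  rw [← h1, h2]; ring

open Classical in
lemma count_nd : ∀ (fl : List (FH D)) {K : Cfg D}, WF K → Holes K (fl.map (·.2.2)) →
    GG K.m * (zP fl).coeff K.m ≤ ((VS K).filter (ND fl K.X)).card
  | [], K, w, hl => by
    rw [filter_true_of_mem fun a _ => by simp [ND], card_VS w hl]
    simp [zP, Zm_nil, Polynomial.coeff_one, PowerSeries.coeff_one]
  | (lo, V, l) :: fl, K, w, hl => by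
    have c := hl.cyc l List.mem_cons_self
    have hS : [l].flatten.toFinset ⊆ K.X := fun x hx =>
      hl.sub List.mem_cons_self (by simpa using hx)
    rw [card_filter, Nat.cast_sum, sum_dec w hS (fun z hz => by simpa using c.mem (by simpa using hz)),
      zP, List.map_cons, List.prod_cons, Polynomial.coeff_mul,
      Nat.sum_antidiagonal_eq_sum_range_succ fun i j => (zq lo V l.length).coeff i *
        (fl.map fun h => zq h.1 h.2.1 h.2.2.length).prod.coeff j, mul_sum]
    refine sum_le_sum fun v hv => ?_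
    have hv' : v ≤ K.m := by simpa [Nat.lt_succ_iff] using hv
    rw [coeff_zq]
    split_ifs with e
    swap
    · rw [zero_mul, mul_zero]
      exact sum_nonneg fun _ _ => sum_nonneg fun _ _ => sum_nonneg fun _ _ => Nat.cast_nonneg _
    rw [← GG_choose hv', ← card_Inv w hS (fun z hz => by simpa using c.mem (by simpa using hz)) v,
      mul_assoc, mul_assoc, ← nsmul_eq_mul]
    refine card_nsmul_le_sum _ _ _ fun W hW => ?_
    obtain ⟨w1, w2, x1, x2, m1, m2⟩ := Inv_spec w hW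
    obtain ⟨l1, l2⟩ := Holes.res (l1 := [l]) w hl hW
    have ih := count_nd fl w2 l2
    have c1 := card_VS w1 l1
    rw [show (K.res (K.U \ W)).m = K.m - v by omega] at ih
    rw [m1] at c1
    simp only [List.map_cons, List.map_nil, Zm_cons, Zm_nil, mul_one] at c1
    calc _ = ((VS (K.res W)).card : ℝ) * (GG (K.m - v) * (zP fl).coeff (K.m - v)) := by
          rw [c1, zP]; ring
      _ ≤ _ := by
        rw [← nsmul_eq_mul]
        refine card_nsmul_le_sum _ _ _ fun a1 h1 => ih.trans ?_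
        rw [card_filter, Nat.cast_sum]
        refine sum_le_sum fun a2 h2 => Nat.cast_le.2 ?_
        split_ifs with n1 n2
        any_goals omega
        refine absurd (fun h hh hlo x hx => ?_) n2
        obtain ⟨p1, i1⟩ := mem_VS.1 h1
        obtain ⟨p2, i2⟩ := mem_VS.1 h2
        rcases List.mem_cons.1 hh with rfl | hh
        · have hW1 : x ∈ W := w1.sub (l1.sub List.mem_cons_self hx)
          rw [Perm.mul_apply, i2 x (by simp [Cfg.res, hW1])]
          intro e'
          have := vol0 w1 l1 p1 hx (mem_inter.2 ⟨e', p1.aU x hW1⟩)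
          have := (mem_Icc.1 e).1
          simp only at hlo
          omega
        · have hW2 := p2.aU x (w2.sub (l2.sub (List.mem_map_of_mem hh) hx))
          rw [Perm.mul_apply, i1 _ (mem_sdiff.1 hW2).2]
          exact fun e' => n1 h hh hlo x hx (mem_inter.2 ⟨e', hW2⟩)

end Z2

end Pool.Agent.Lib.MP_abd955_pr
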