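import Pool.Agent.Lib.MP_abd955_pr.StepDefs

namespace Pool.Agent.Lib.MP_abd955_pr

open PowerSeries Finset

/-- Boltzmann weight of a disc of boundary length l, volumes between lo and V -/
noncomputable def zt (lo V l : ℕ) : ℝ :=
  ∑ v ∈ Icc lo V, (2 / 9 : ℝ) ^ (l / 2) * coeff v (Zl l) * (1 / 12) ^ v

/-- bubble of a backward chain: side, length on the first path, length on the second path -/
abbrev Bub := Bool × ℕ × ℕ

/-- big face: side, length on the first path, length on the second path, chain that follows -/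
abbrev Item := Bool × ℕ × ℕ × List Bub

def toP (c : Bub) : ℕ := if c.1 then c.2.1 else c.2.2
def toQ (c : Bub) : ℕ := if c.1 then c.2.2 else c.2.1
def lo (b : Bool) : ℕ := if b then 0 else 1
def ownL (it : Item) : ℕ := if it.1 then (it.2.2.2.map toQ).sum else (it.2.2.2.map toP).sum
def othL (it : Item) : ℕ := if it.1 then (it.2.2.2.map toP).sum else (it.2.2.2.map toQ).sum

noncomputable def wB (V : ℕ) (c : Bub) : ℝ := zt (lo c.1) V (c.2.1 + c.2.2)

noncomputable def wI (V : ℕ) : ℕ → List Item → ℝ
  | _, [] => 1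
  | s, it :: r => zt (lo it.1) V (it.2.1 + it.2.2.1 + s + ownL it) *
      (it.2.2.2.map (wB V)).prod * wI V (othL it) r

def Chs (B : ℕ) : ℕ → Finset (List Bub)
  | 0 => {[]}
  | n + 1 => insert [] (((univ ×ˢ Icc 1 B ×ˢ Icc 1 B) ×ˢ Chs B n).image fun x => x.1 :: x.2)

def nxtS (it : Item) : Option Bool := if it.2.2.2 = [] then none else some (!it.1)

open Classical in
noncomputable def Its (P B N : ℕ) : ℕ → Option Bool → Finset (List Item)
  | 0, o => if o = none then {[]} else ∅
  | n + 1, o =>
    ((univ ×ˢ Icc 1 P ×ˢ Icc 1 P ×ˢ Chs B N).filter fun it : Item =>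
      o = none ∨ o = some it.1).biUnion fun it => (Its P B N n (nxtS it)).image (it :: ·)

end Pool.Agent.Lib.MP_abd955_pr
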