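import Pool.Agent.Lib.MP_abd955_pr.Feat1A
import Pool.Agent.Lib.MP_abd955_pr.WDefs

/-! Labelled item lists: holes, zipping one of the two paths. -/

namespace Pool.Agent.Lib.MP_abd955_pr

open Equiv Equiv.Perm

set_option linter.unusedSectionVars false

namespace Z2

variable {D E : Type} [DecidableEq D] [Fintype D]

abbrev LB (E : Type) := Bool × List E × List E

structure LI (E : Type) where
  σ : Bool
  x : List E
  y : List E
  ch : List (LB E)

def As : List (LB E) → List E
  | [] => []
  | c :: ch => c.2.1 ++ As ch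

def Bs : List (LB E) → List E
  | [] => []
  | c :: ch => Bs ch ++ c.2.2

def path (w : Bool) : List (LI E) → List E
  | [] => []
  | i :: r => (if i.σ = w then i.y ++ Bs i.ch else i.x ++ As i.ch) ++ path w r

def oP : List (LI E) → List E
  | [] => []
  | i :: r => i.y ++ oP r

def oQ : List (LI E) → List E
  | [] => []
  | i :: r => i.x ++ oQ r

def Ne2 (ch : List (LB E)) : Prop := ∀ c ∈ ch, c.2.1 ≠ [] ∧ c.2.2 ≠ []

def Ok : Option Bool → List (LI E) → Prop
  | o, [] => o = none
  | o, i :: r => (o = none ∨ o = some i.σ) ∧ i.x ≠ [] ∧ i.y ≠ [] ∧ Ne2 i.ch ∧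
      ∃ o', Ok o' r ∧ (i.ch ≠ [] → o' = some !i.σ)

variable (p q : E → D)

def rq (l : List E) : List D := (l.map q).reverse

@[simp] lemma rq_nil : rq q [] = [] := rfl
@[simp] lemma rq_append (a b : List E) : rq q (a ++ b) = rq q b ++ rq q a := by simp [rq]
@[simp] lemma rq_eq_nil {a : List E} : rq q a = [] ↔ a = [] := by simp [rq]
@[simp] lemma mem_rq {a : List E} {z : D} : z ∈ rq q a ↔ ∃ e ∈ a, q e = z := by simp [rq]
@[simp] lemma length_rq (a : List E) : (rq q a).length = a.length := by simp [rq]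
@[simp] lemma count_rq (a : List E) (z : D) : (rq q a).count z = (a.map q).count z := by simp [rq]

def own : List (LB E) → List D
  | [] => []
  | c :: ch => (if c.1 then c.2.1.map p else rq q c.2.2) ++ own ch

def oth : List (LB E) → List D
  | [] => []
  | c :: ch => oth ch ++ if c.1 then c.2.2.map p else rq q c.2.1

def bub (c : LB E) : List D := if c.1 then rq q (c.2.1 ++ c.2.2) else (c.2.1 ++ c.2.2).map p

def fs : List D → List (LI E) → List (List D)
  | _, [] => []
  | s, i :: r => (i.x.map p ++ own p q i.ch ++ rq q i.y ++ s) ::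
      (i.ch.map (bub p q) ++ fs (oth p q i.ch) r)

def dS (L : List E) : Set D := {z | ∃ e ∈ L, p e = z ∨ q e = z}

variable {p q} {t : Perm D} (ht : ∀ u, t (t u) = u) (tp : ∀ e, t (p e) = q e)
include ht tp

lemma gP {a : List E} (X1 X2 Y1 Y2 : List D) (ha : a ≠ []) (hX : X2 ++ X1 ≠ []) (hY : Y2 ++ Y1 ≠ []) :
    Zs t (dS p q a) [X1 ++ a.map p ++ X2, Y1 ++ rq q a ++ Y2] [X1 ++ (Y2 ++ Y1) ++ X2] := by
  have e : (a.map p).map t = a.map q := by simp [tp]
  have := Zs.glue ht (P := a.map p) (by simpa using ha) hX hY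
  rw [e] at this
  refine (this.rot ((Rot.one X1 (a.map p ++ X2) (by simp) (by simp)).cons
    (Rot.one Y1 (rq q a ++ Y2) (by simp) (by simp [rq])))
    (Rot.one (Y2 ++ Y1 ++ X2) X1 (by simp) (by simp))).set fun z => ?_
  simp [dS, and_or_left, exists_or]

lemma gQ {a : List E} (X1 X2 Y1 Y2 : List D) (ha : a ≠ []) (hX : X2 ++ X1 ≠ []) (hY : Y2 ++ Y1 ≠ []) :
    Zs t (dS p q a) [Y1 ++ rq q a ++ Y2, X1 ++ a.map p ++ X2] [Y1 ++ (X2 ++ X1) ++ Y2] :=
  (gP ht tp X1 X2 Y1 Y2 ha hX hY).rot (Rot.perm (List.Perm.swap _ _ _))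
    (Rot.one (X1 ++ Y2) (Y1 ++ X2) (by simp) rfl |>.trans
      (Rot.one (Y1 ++ X2 ++ X1 ++ Y2) [] (by simp) (by simp)))

omit ht tp in
lemma Zs.mid {S : Set D} {a b c d : List D} (h : Zs t S [a, c] [d]) : Zs t S [a, b, c] [d, b] :=
  (h.app [b]).rot (Rot.perm ((List.Perm.swap _ _ _).cons _)) (Rot.refl _)

lemma one_bub (w : Bool) (c : LB E) (X1 X2 Y1 Y2 : List D) (h1 : c.2.1 ≠ []) (h2 : c.2.2 ≠ [])
    (hX : X1 ≠ []) (hY : Y1 ≠ []) :
    Zs t (dS p q (if w then c.2.1 else c.2.2))
      [X1 ++ (if c.1 then c.2.1.map p else rq q c.2.2) ++ X2,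
        Y1 ++ (if c.1 then c.2.2.map p else rq q c.2.1) ++ Y2, bub p q c]
      [X1 ++ (if w then rq q c.2.2 else c.2.1.map p) ++ X2,
        Y1 ++ (if w then c.2.2.map p else rq q c.2.1) ++ Y2] := by
  obtain ⟨κ, a, b⟩ := c
  cases w <;> cases κ <;> simp only [bub, if_true, if_false, Bool.false_eq_true]
  · simpa using (gQ ht tp (a.map p) [] X1 X2 h2 (by simpa using h1) (by simp [hX])).mid
  · simpa using (gP ht tp Y1 Y2 [] (rq q a) h2 (by simp [hY]) (by simpa using h1)).pre [_]
  · simpa using (gQ ht tp [] (b.map p) Y1 Y2 h1 (by simpa using h2) (by simp [hY])).pre [_]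
  · simpa using (gP ht tp X1 X2 (rq q b) [] h1 (by simp [hX]) (by simpa using h2)).mid

lemma chain (w : Bool) : ∀ (ch : List (LB E)) (X1 X2 Y1 Y2 : List D), Ne2 ch → X1 ≠ [] → Y1 ≠ [] →
    Zs t (dS p q (if w then As ch else Bs ch))
      ((X1 ++ own p q ch ++ X2) :: (Y1 ++ oth p q ch ++ Y2) :: ch.map (bub p q))
      [X1 ++ (if w then rq q (Bs ch) else (As ch).map p) ++ X2,
        Y1 ++ (if w then (Bs ch).map p else rq q (As ch)) ++ Y2]
  | [], X1, X2, Y1, Y2, _, _, _ => by
    simpa [As, Bs, own, oth, dS] using Zs.refl _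
  | c :: ch, X1, X2, Y1, Y2, h, hX, hY => by
    obtain ⟨h1, h2⟩ := h c List.mem_cons_self
    have s1 := (one_bub ht tp w c X1 (own p q ch ++ X2) (Y1 ++ oth p q ch) Y2 h1 h2 hX
      (by simp [hY])).app (ch.map (bub p q))
    have s2 := chain w ch (X1 ++ if w then rq q c.2.2 else c.2.1.map p) X2 Y1
      ((if w then c.2.2.map p else rq q c.2.1) ++ Y2) (fun c hc => h c (List.mem_cons_of_mem _ hc))
      (by simp [hX]) hY
    simp only [List.append_assoc, List.cons_append, List.nil_append] at s1 s2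
    have := (s1.trans s2).set (S' := dS p q (if w then As (c :: ch) else Bs (c :: ch))) fun z => by
      cases w <;> simp [dS, As, Bs, or_and_right, exists_or, or_comm]
    cases w <;> simpa [own, oth, As, Bs] using this

lemma chain2 (w : Bool) {ch : List (LB E)} (X1 X2 : List D) {r : List (LI E)} {o : Option Bool}
    (h : Ne2 ch) (hX : X1 ≠ []) (hr : Ok o r) (ho : ch ≠ [] → o ≠ none) :
    Zs t (dS p q (if w then As ch else Bs ch))
      ((X1 ++ own p q ch ++ X2) :: (ch.map (bub p q) ++ fs p q (oth p q ch) r))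
      ((X1 ++ (if w then rq q (Bs ch) else (As ch).map p) ++ X2) ::
        fs p q (if w then (Bs ch).map p else rq q (As ch)) r) := by
  rcases r with _ | ⟨i, r⟩
  · obtain rfl : ch = [] := by_contra fun e => ho e hr
    simpa [As, Bs, own, oth, dS, fs] using Zs.refl _
  · have := (chain ht tp w ch X1 X2 (i.x.map p ++ own p q i.ch ++ rq q i.y) [] h hX
      (by simp [hr.2.1])).app (i.ch.map (bub p q) ++ fs p q (oth p q i.ch) r)
    simp only [List.append_nil] at this
    exact this.rot (Rot.perm (List.perm_middle.cons _)) (Rot.refl _)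

lemma zipAll (w : Bool) : ∀ (r : List (LI E)) (o : Option Bool) (A B sP sQ : List D), Ok o r →
    A ≠ [] → B ≠ [] → (o ≠ some w → sQ = []) → (o ≠ some (!w) → sP = []) →
    Zs t (dS p q (path (!w) r))
      ((A ++ (oP r).map p) :: (rq q (oQ r) ++ B) :: fs p q (sP ++ sQ) r)
      [A ++ sP ++ (path w r).map p, rq q (path w r) ++ sQ ++ B]
  | [], o, A, B, sP, sQ, h, _, _, h1, h2 => by
    obtain rfl : o = none := h
    simpa [path, oP, oQ, fs, dS, h1, h2] using Zs.refl _
  | i :: r, o, A, B, sP, sQ, ⟨k1, k2, k3, k4, o', k5, k6⟩, hA, hB, h1, h2 => by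
    have c2 := fun w => (chain2 ht tp w (i.x.map p) (rq q i.y ++ (sP ++ sQ)) k4 (by simpa using k2) k5
      fun e => by simp [k6 e]).pre [A ++ (oP (i :: r)).map p, rq q (oQ (i :: r)) ++ B]
    by_cases e : i.σ = w
    · obtain rfl : sP = [] := h2 (by rcases k1 with rfl | rfl <;> simp [e])
      have s1 := c2 true
      have s2 := ((gQ ht tp [] (rq q (Bs i.ch) ++ (rq q i.y ++ sQ)) (rq q (oQ r)) B k2
        (by simp [k3]) (by simp [hB])).app (fs p q ((Bs i.ch).map p) r)).pre
          [A ++ (oP (i :: r)).map p]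
      have s3 := zipAll w r o' (A ++ i.y.map p) (rq q (Bs i.ch) ++ (rq q i.y ++ sQ) ++ B)
        ((Bs i.ch).map p) [] k5 (by simp [hA]) (by simp [hB]) (fun _ => rfl) fun n => by
          rw [show i.ch = [] from by_contra fun c => n (e ▸ k6 c)]; rfl
      simp only [oP, oQ, rq_append, List.map_append, if_true, List.append_assoc, List.cons_append,
        List.nil_append, List.append_nil] at s1 s2 s3
      have := ((s1.trans s2).trans s3).set (S' := dS p q (path (!w) (i :: r))) fun z => by
        simp [dS, path, e, or_and_right, exists_or, or_comm, or_assoc]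
      simpa [oP, oQ, fs, path, e] using this
    · have e' : i.σ = !w := by revert e; cases i.σ <;> cases w <;> simp
      obtain rfl : sQ = [] := h1 (by rcases k1 with rfl | rfl <;> simp [e])
      have s1 := c2 false
      have s2 := (gP ht tp A ((oP r).map p) (i.x.map p ++ (As i.ch).map p) sP k3
        (by simp [hA]) (by simp [k2])).mid (b := rq q (oQ (i :: r)) ++ B) |>.app
          (fs p q (rq q (As i.ch)) r)
      have s3 := zipAll w r o' (A ++ (sP ++ (i.x.map p ++ (As i.ch).map p))) (rq q i.x ++ B)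
        [] (rq q (As i.ch)) k5 (by simp [hA]) (by simp [hB]) (fun n => by
          rw [show i.ch = [] from by_contra fun c => n (by simpa [e'] using k6 c)]; rfl) fun _ => rfl
      simp only [oP, oQ, rq_append, List.map_append, if_false, List.append_assoc, List.cons_append,
        List.nil_append, List.append_nil, Bool.false_eq_true] at s1 s2 s3
      have := ((s1.trans s2).trans s3).set (S' := dS p q (path (!w) (i :: r))) fun z => by
        simp [dS, path, e', or_and_right, exists_or, or_comm, or_assoc]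
      simpa [oP, oQ, fs, path, e] using this

omit ht tp

lemma Ok.oth {i : LI E} {o : Option Bool} (h : i.ch ≠ [] → o = some !i.σ) (e : o = none) :
    oth p q i.ch = [] := by
  rw [show i.ch = [] from by_contra fun c => by simp [h c] at e]; rfl

lemma cnt_ch (z : D) : ∀ ch : List (LB E),
    (own p q ch).count z + (oth p q ch).count z + (ch.map (bub p q)).flatten.count z =
      ((As ch).map p).count z + ((Bs ch).map p).count z + ((As ch).map q).count z +
        ((Bs ch).map q).count z
  | [] => by simp [own, oth, As, Bs]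
  | (κ, a, b) :: ch => by
    have := cnt_ch z ch
    cases κ <;> simp only [own, oth, As, Bs, bub, List.map_cons, List.flatten_cons, List.map_append,
      List.count_append, count_rq, if_true, if_false, Bool.false_eq_true] <;> omega

lemma cnt_fs (z : D) : ∀ (r : List (LI E)) (o : Option Bool) (s : List D), Ok o r →
    (o = none → s = []) →
    (fs p q s r).flatten.count z + ((oP r).map p).count z + ((oQ r).map q).count z =
      s.count z + ((path true r).map p).count z + ((path false r).map p).count z +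
        ((path true r).map q).count z + ((path false r).map q).count z
  | [], o, s, h, hs => by simp [fs, oP, oQ, path, hs h]
  | ⟨σ, x, y, ch⟩ :: r, o, s, ⟨_, _, _, _, o', k5, k6⟩, _ => by
    have h1 := cnt_fs z r o' _ k5 (Ok.oth (p := p) (q := q) k6)
    have h2 := cnt_ch (p := p) (q := q) z ch
    cases σ <;> simp only [fs, oP, oQ, path, List.flatten_cons, List.flatten_append, List.map_append,
      List.count_append, count_rq, if_true, if_false, Bool.false_eq_true, Bool.true_eq_false]
      at h1 ⊢ <;> omega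

lemma mem_As {ch : List (LB E)} {e : E} : e ∈ As ch ↔ ∃ c ∈ ch, e ∈ c.2.1 := by
  induction ch with
  | nil => simp [As]
  | cons c ch ih => simp only [As, List.mem_append, ih, List.mem_cons, exists_eq_or_imp]

lemma mem_Bs {ch : List (LB E)} {e : E} : e ∈ Bs ch ↔ ∃ c ∈ ch, e ∈ c.2.2 := by
  induction ch with
  | nil => simp [Bs]
  | cons c ch ih => simp only [Bs, List.mem_append, ih, List.mem_cons, exists_eq_or_imp, or_comm]

/-- every inner hole meets both paths -/
lemma meets (w : Bool) : ∀ (r : List (LI E)) (o : Option Bool) (s : List D), Ok o r →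
    ∀ l ∈ fs p q s r, ∃ e ∈ path w r, p e ∈ l ∨ q e ∈ l
  | [], _, _, _, l, hl => by simp [fs] at hl
  | i :: r, o, s, ⟨_, k2, k3, k4, o', k5, _⟩, l, hl => by
    simp only [fs, List.mem_cons, List.mem_append, List.mem_map] at hl
    rcases hl with rfl | ⟨c, hc, rfl⟩ | hl
    · obtain ⟨x, hx⟩ := List.exists_mem_of_ne_nil _ k2
      obtain ⟨y, hy⟩ := List.exists_mem_of_ne_nil _ k3
      by_cases e : i.σ = w
      · exact ⟨y, by simp [path, e, hy], Or.inr (List.mem_append_left _
          (List.mem_append_right _ ((mem_rq q).2 ⟨y, hy, rfl⟩)))⟩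
      · exact ⟨x, by simp [path, e, hx], Or.inl (List.mem_append_left _
          (List.mem_append_left _ (List.mem_append_left _ (List.mem_map_of_mem hx))))⟩
    · obtain ⟨x, hx⟩ := List.exists_mem_of_ne_nil _ (k4 c hc).1
      obtain ⟨y, hy⟩ := List.exists_mem_of_ne_nil _ (k4 c hc).2
      have key : ∀ e ∈ c.2.1 ++ c.2.2, p e ∈ bub p q c ∨ q e ∈ bub p q c := fun e he => by
        unfold bub; split_ifs
        exacts [Or.inr ((mem_rq q).2 ⟨e, he, rfl⟩), Or.inl (List.mem_map_of_mem he)]
      by_cases e : i.σ = w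
      · exact ⟨y, by simp [path, e, mem_Bs.2 ⟨c, hc, hy⟩], key y (by simp [hy])⟩
      · exact ⟨x, by simp [path, e, mem_As.2 ⟨c, hc, hx⟩], key x (by simp [hx])⟩
    · obtain ⟨e, h1, h2⟩ := meets w r o' _ k5 l hl
      exact ⟨e, by simp [path, h1], h2⟩

def all (r : List (LI E)) : List E := path true r ++ path false r

lemma all_cons (i : LI E) (r : List (LI E)) :
    (all (i :: r)).Perm ((i.x ++ As i.ch) ++ ((i.y ++ Bs i.ch) ++ all r)) := by
  classical
  obtain ⟨σ, x, y, ch⟩ := i
  refine List.perm_iff_count.2 fun z => ?_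
  cases σ <;> simp only [all, path, List.count_append, if_true, if_false, Bool.false_eq_true,
    Bool.true_eq_false] <;> omega

lemma out_sub {e : E} : ∀ r : List (LI E), e ∈ oP r ∨ e ∈ oQ r → e ∈ all r
  | [], h => by simp [oP, oQ] at h
  | i :: r, h => by
    have := out_sub (e := e) r
    rw [(all_cons i r).mem_iff]
    simp only [oP, oQ, List.mem_append] at h ⊢
    tauto

lemma split_eq {α : Type} (P : α → Prop) {A B A' B' : List α} (h1 : ∀ z ∈ A, P z) (h2 : ∀ z ∈ B, ¬P z)
    (h3 : ∀ z ∈ A', P z) (h4 : ∀ z ∈ B', ¬P z) (e : A ++ B = A' ++ B') : A = A' ∧ B = B' := by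
  rcases List.append_eq_append_iff.1 e with ⟨d, rfl, rfl⟩ | ⟨d, rfl, rfl⟩ <;>
    rcases d with _ | ⟨z, d⟩
  · simp
  · exact absurd (h3 z (by simp)) (h2 z (by simp))
  · simp
  · exact absurd (h1 z (by simp)) (h4 z (by simp))

lemma mem_own {ch : List (LB E)} {z : D} (h : z ∈ own p q ch) :
    (∃ e ∈ As ch, p e = z) ∨ ∃ e ∈ Bs ch, q e = z := by
  induction ch with
  | nil => simp [own] at h
  | cons c ch ih =>
    simp only [own, As, Bs, List.mem_append, or_and_right, exists_or] at h ⊢
    rcases h with h | h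
    · split_ifs at h
      exacts [Or.inl (Or.inl (List.mem_map.1 h)), Or.inr (Or.inr ((mem_rq q).1 h))]
    · exact (ih h).imp Or.inr Or.inl

variable (hp : Function.Injective p) (hq : Function.Injective q) (hpq : ∀ e e', p e ≠ q e')
include hp hq hpq

lemma dec_ch {f : Perm D} (P : E → Prop) : ∀ (ch ch' : List (LB E)) (R R' : List E), Ne2 ch → Ne2 ch' →
    own p q ch = own p q ch' → As ch ++ R = As ch' ++ R' → (As ch).Nodup → (As ch').Nodup →
    (∀ e ∈ As ch, P e) → (∀ e ∈ Bs ch, ¬P e) → (∀ e ∈ As ch', P e) → (∀ e ∈ Bs ch', ¬P e) →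
    (∀ c ∈ ch, Cyc f (bub p q c)) → (∀ c ∈ ch', Cyc f (bub p q c)) → ch = ch'
  | [], [], _, _, _, _, _, _, _, _, _, _, _, _, _, _ => rfl
  | [], (κ, a, b) :: ch, _, _, _, h, e, _, _, _, _, _, _, _, _, _ => by
    have := h _ List.mem_cons_self
    cases κ <;> simp_all [own]
  | (κ, a, b) :: ch, [], _, _, h, _, e, _, _, _, _, _, _, _, _, _ => by
    have := h _ List.mem_cons_self
    cases κ <;> simp_all [own]
  | (κ, a, b) :: ch, (κ', a', b') :: ch', R, R', h, h', e1, e2, n, n', a1, a2, a3, a4, c, c' => by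
    obtain ⟨e, a, rfl⟩ := List.exists_cons_of_ne_nil (h _ List.mem_cons_self).1
    obtain ⟨e', a', rfl⟩ := List.exists_cons_of_ne_nil (h' _ List.mem_cons_self).1
    obtain rfl : e = e' := (List.cons.inj e2).1
    have key : ∀ {a a' b b' : List E} {ch ch' : List (LB E)}, (As ((false, e :: a', b') :: ch')).Nodup →
        own p q ((true, e :: a, b) :: ch) ≠ own p q ((false, e :: a', b') :: ch') := by
      intro a a' b b' ch ch' n h
      have h1 : p e ∈ own p q ((false, e :: a', b') :: ch') := h ▸ by simp [own]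
      simp only [own, List.mem_append, Bool.false_eq_true, if_false, mem_rq] at h1
      rcases h1 with ⟨_, -, h1⟩ | h1
      · exact hpq _ _ h1.symm
      · rcases mem_own h1 with ⟨d, h2, h3⟩ | ⟨_, -, h3⟩
        · exact (List.nodup_cons.1 n).1 (List.mem_append_right _ (hp h3 ▸ h2))
        · exact hpq _ _ h3.symm
    obtain rfl : κ = κ' := by
      cases κ <;> cases κ'
      exacts [rfl, absurd e1.symm (key n), absurd e1 (key n'), rfl]
    have c1 := c _ List.mem_cons_self
    have c2 := c' _ List.mem_cons_self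
    have e3 : a ++ b = a' ++ b' := by
      cases κ
      · exact List.map_injective_iff.2 hp (c1.uniq c2)
      · have k : ∀ {l : List E}, Cyc f (rq q (e :: l)) → Cyc f (q e :: rq q l) := fun h =>
          Cyc.comm (B := [q e]) (by simpa [rq] using h)
        exact List.map_injective_iff.2 hq (List.reverse_injective ((k c1).uniq (k c2)))
    simp only [As, Bs, List.mem_append, List.mem_cons, or_imp, forall_and] at a1 a2 a3 a4
    obtain ⟨rfl, rfl⟩ := split_eq P a1.1.2 a2.2 a3.1.2 a4.2 e3
    simp only [As, List.append_assoc, List.append_cancel_left_eq] at e2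
    rw [dec_ch P ch ch' R R' (fun c hc => h c (List.mem_cons_of_mem _ hc))
      (fun c hc => h' c (List.mem_cons_of_mem _ hc)) (List.append_cancel_left e1) e2
      (List.nodup_append.1 n).2.1 (List.nodup_append.1 n').2.1 a1.2 a2.1 a3.2 a4.1
      (fun b hb => c b (List.mem_cons_of_mem _ hb))
      fun c hc => c' c (List.mem_cons_of_mem _ hc)]

lemma own_out {i : LI E} {r : List (LI E)} (n : (all (i :: r)).Nodup) {z : D} (hz : z ∈ own p q i.ch) :
    z ∉ (oQ (i :: r)).map p ∧ z ∉ (oP (i :: r)).map q := by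
  replace n := (all_cons _ _).nodup_iff.1 n
  simp only [List.nodup_append, List.mem_append, or_imp, forall_and] at n
  simp only [List.mem_map, not_exists, not_and, oP, oQ, List.mem_append]
  rcases mem_own hz with ⟨d, h1, rfl⟩ | ⟨d, h1, rfl⟩
  · refine ⟨fun e he h => ?_, fun e _ h => hpq _ _ h.symm⟩
    obtain rfl := hp h
    rcases he with he | he
    exacts [n.1.2.2 e he e h1 rfl, n.2.2.2.2 e h1 e (out_sub r (Or.inr he)) rfl]
  · refine ⟨fun e _ h => hpq _ _ h, fun e he h => ?_⟩
    obtain rfl := hq h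
    rcases he with he | he
    exacts [n.2.1.1.2.2 e he e h1 rfl, n.2.1.2.2.2 e h1 e (out_sub r (Or.inl he)) rfl]

lemma dec1 {f : Perm D} {i i' : LI E} {r r' : List (LI E)} {o o' : Option Bool} {s : List D}
    (h : Ok o (i :: r)) (h' : Ok o' (i' :: r')) (e1 : ∀ w, path w (i :: r) = path w (i' :: r'))
    (e2 : oP (i :: r) = oP (i' :: r')) (e3 : oQ (i :: r) = oQ (i' :: r')) (n0 : (all (i :: r)).Nodup)
    (c : ∀ l ∈ fs p q s (i :: r), Cyc f l) (c' : ∀ l ∈ fs p q s (i' :: r'), Cyc f l) : i = i' := by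
  have n1 : (all (i' :: r')).Nodup := by simpa only [all, e1] using n0
  have k1 := fun z => own_out hp hq hpq n0 (z := z)
  have k1' := fun z => own_out hp hq hpq n1 (z := z)
  rw [← e2, ← e3] at k1'
  have n := List.nodup_append.1 ((all_cons _ _).nodup_iff.1 n0)
  have n' := List.nodup_append.1 ((all_cons _ _).nodup_iff.1 n1)
  have s1 : i.x ⊆ oQ (i :: r) := List.subset_append_left _ _
  have s2 : i.y ⊆ oP (i :: r) := List.subset_append_left _ _
  have s3 : i'.x ⊆ oQ (i :: r) := by rw [e3]; exact List.subset_append_left _ _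
  have s4 : i'.y ⊆ oP (i :: r) := by rw [e2]; exact List.subset_append_left _ _
  have c0 := c _ List.mem_cons_self
  have c0' := c' _ List.mem_cons_self
  have cb : ∀ b ∈ i.ch, Cyc f (bub p q b) := fun b hb =>
    c _ (List.mem_cons_of_mem _ (List.mem_append_left _ (List.mem_map_of_mem hb)))
  have cb' : ∀ b ∈ i'.ch, Cyc f (bub p q b) := fun b hb =>
    c' _ (List.mem_cons_of_mem _ (List.mem_append_left _ (List.mem_map_of_mem hb)))
  have hP : ∀ e ∈ path i.σ (i :: r), e ∉ path (!i.σ) (i :: r) := fun e h1 h2 => by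
    have nd := (List.nodup_append.1 n0).2.2
    revert h1 h2
    cases i.σ
    exacts [fun h1 h2 => nd e h2 e h1 rfl, fun h1 h2 => nd e h1 e h2 rfl]
  have p1 := e1 (!i.σ)
  have p2 := e1 i.σ
  generalize oQ (i :: r) = LQ at k1 k1' s1 s3
  generalize oP (i :: r) = LP at k1 k1' s2 s4
  obtain ⟨σ, x, y, ch⟩ := i
  obtain ⟨σ', x', y', ch'⟩ := i'
  obtain ⟨u, x, rfl⟩ := List.exists_cons_of_ne_nil h.2.1
  obtain ⟨v, y, rfl⟩ := List.exists_cons_of_ne_nil h.2.2.1
  obtain ⟨u', x', rfl⟩ := List.exists_cons_of_ne_nil h'.2.1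
  obtain ⟨v', y', rfl⟩ := List.exists_cons_of_ne_nil h'.2.2.1
  obtain rfl : u = u' := (List.cons.inj e3).1
  obtain rfl : σ = σ' := by
    by_contra e
    simp only [path, if_true, if_neg (Ne.symm e), List.cons_append, List.cons.injEq] at p2
    exact n.2.2 u (by simp) v (by simp) p2.1.symm
  have c2 : (u :: x).map p ++ (own p q ch ++ rq q (v :: y)) =
      (u :: x').map p ++ (own p q ch' ++ rq q (v' :: y')) := by
    simpa using List.append_cancel_right (c0.uniq c0')
  have k2 : ∀ (y : List E), ∀ z ∈ rq q y, z ∉ LQ.map p := fun y z hz h => by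
    obtain ⟨e, -, rfl⟩ := (mem_rq q).1 hz
    obtain ⟨e', -, h⟩ := List.mem_map.1 h
    exact hpq _ _ h
  obtain ⟨d1, d2⟩ := split_eq (fun z => z ∈ LQ.map p) (fun z hz => List.map_subset p s1 hz)
    (fun z hz => (List.mem_append.1 hz).elim (fun h => (k1 z h).1) (k2 _ z))
    (fun z hz => List.map_subset p s3 hz)
    (fun z hz => (List.mem_append.1 hz).elim (fun h => (k1' z h).1) (k2 _ z)) c2
  obtain ⟨d3, d4⟩ := split_eq (fun z => z ∉ LP.map q) (fun z hz => (k1 z hz).2)
    (fun z hz h => h (List.map_subset q s2 (List.mem_reverse.1 hz))) (fun z hz => (k1' z hz).2)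
    (fun z hz h => h (List.map_subset q s4 (List.mem_reverse.1 hz))) d2
  have d5 : u :: x = u :: x' := List.map_injective_iff.2 hp d1
  have d6 : v :: y = v' :: y' := List.map_injective_iff.2 hq (List.reverse_injective d4)
  have d7 := dec_ch hp hq hpq (f := f) (fun e => e ∈ path (!σ) (⟨σ, u :: x, v :: y, ch⟩ :: r)) ch ch'
    (path (!σ) r) (path (!σ) r') h.2.2.2.1 h'.2.2.2.1 d3 (by simpa [path, d5] using p1)
    (List.nodup_append.1 n.1).2.1 (List.nodup_append.1 n'.1).2.1
    (fun e he => by simp [path, he]) (fun e he => hP e (by simp [path, he]))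
    (fun e he => by rw [p1]; simp [path, he]) (fun e he => hP e (by rw [p2]; simp [path, he])) cb cb'
  rw [d5, d6, d7]

lemma dec {f : Perm D} : ∀ (r r' : List (LI E)) (o o' : Option Bool) (s : List D), Ok o r → Ok o' r' →
    (∀ w, path w r = path w r') → oP r = oP r' → oQ r = oQ r' → (all r).Nodup →
    (∀ l ∈ fs p q s r, Cyc f l) → (∀ l ∈ fs p q s r', Cyc f l) → r = r'
  | [], [], _, _, _, _, _, _, _, _, _, _, _ => rfl
  | [], i :: r, _, _, _, _, h, _, e, _, _, _, _ => by simp [oP, h.2.2.1] at e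
  | i :: r, [], _, _, _, h, _, _, e, _, _, _, _ => by simp [oP, h.2.2.1] at e
  | i :: r, i' :: r', _, _, s, h, h', e1, e2, e3, n, c, c' => by
    obtain rfl := dec1 hp hq hpq h h' e1 e2 e3 n c c'
    obtain ⟨-, -, -, -, o, k, -⟩ := h
    obtain ⟨-, -, -, -, o', k', -⟩ := h'
    rw [dec r r' o o' (oth p q i.ch) k k' (fun w => List.append_cancel_left (e1 w))
      (List.append_cancel_left e2) (List.append_cancel_left e3)
      (List.nodup_append.1 (List.nodup_append.1 ((all_cons _ _).nodup_iff.1 n)).2.1).2.1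
      (fun l hl => c l (by simp [fs, hl])) fun l hl => c' l (by simp [fs, hl])]

end Z2

end Pool.Agent.Lib.MP_abd955_pr
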