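import Pool.Agent.Lib.MP_abd955_pr.Feat1B

/-! From a gluing of all pieces to a two-gon with two paths, injectively. -/

namespace Pool.Agent.Lib.MP_abd955_pr

open Equiv Equiv.Perm Finset

set_option linter.unusedSectionVars false

namespace Z2

section abstr
variable {D D' : Type} {S T : Set D} {t a a' : Perm D}

open Classical in
noncomputable def zz (S : Set D) (t : Perm D) (b : D → D) (u : D) : D :=
  if b u ∈ S then b (t (b u)) else b u

lemma zipf_of {u : D} (h : u ∉ S) (h' : a u ∉ S) : zipf S t a u = a u := by simp [zipf, h, h']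
lemma zipf_in {u : D} (h : u ∉ S) (h' : a u ∈ S) : zipf S t a u = a (t (a u)) := by simp [zipf, h, h']

lemma zz_comm (tS : ∀ x ∈ S, t x ∈ S) (tT : ∀ x ∈ T, t x ∈ T) (d : ∀ x ∈ S, x ∉ T)
    (hS : ∀ x ∈ S, a x ∉ S) (hT : ∀ x ∈ T, a x ∉ T) (vS : ∀ x ∈ S, zipf T t a x ∉ S)
    (vT : ∀ x ∈ T, zipf S t a x ∉ T) {u : D} (h1 : u ∉ S) (h2 : u ∉ T) :
    zz S t (zipf T t a) u = zz T t (zipf S t a) u := by
  have key : ∀ {S T : Set D}, (∀ x ∈ S, t x ∈ S) → (∀ x ∈ T, t x ∈ T) → (∀ x ∈ S, x ∉ T) →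
      (∀ x ∈ S, a x ∉ S) → (∀ x ∈ S, zipf T t a x ∉ S) → u ∉ S → u ∉ T → a u ∈ S →
      zz S t (zipf T t a) u = zz T t (zipf S t a) u := by
    intro S T tS tT d hS vS h1 h2 h3
    have n1 := d _ (tS _ h3)
    rw [zz, zz, zipf_of h2 (d _ h3), if_pos h3, zipf_in h1 h3]
    split_ifs with h4
    · have := vS _ (tS _ h3)
      rw [zipf_in n1 h4] at this ⊢
      rw [zipf_of (fun e => d _ e (tT _ h4)) this]
    · exact zipf_of n1 h4
  by_cases c1 : a u ∈ S
  · exact key tS tT d hS vS h1 h2 c1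
  by_cases c2 : a u ∈ T
  · exact (key tT tS (fun x h e => d x e h) hT vT h2 h1 c2).symm
  · rw [zz, zz, zipf_of h2 c2, zipf_of h1 c1, if_neg c1, if_neg c2]

lemma zipf_map {S' : Set D'} {t' b : Perm D'} {φ : D' → D} {c : D → D} (hS : ∀ x, φ x ∈ S ↔ x ∈ S')
    (ht : ∀ x, φ (t' x) = t (φ x)) (hb : ∀ x, φ (b x) = c (φ x)) {u : D'} (hu : u ∉ S') :
    φ (zipf S' t' b u) = zz S t c (φ u) := by
  rw [zz, ← hb, hS]
  split_ifs with h
  · rw [zipf_in hu h, hb, ht]
  · rw [zipf_of hu h]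

/-- the two zipped gluings determine the gluing -/
lemma inj_a {P : Set D} (ht : ∀ x, t (t x) = x) (tS : ∀ x ∈ S, t x ∈ S) (d : ∀ x ∈ S, x ∉ T)
    (hP : ∀ x ∈ P, x ∈ S) (hP' : ∀ x ∈ S, x ∈ P ∨ t x ∈ P) (i : ∀ x, a (a x) = x)
    (i' : ∀ x, a' (a' x) = x) (hS : ∀ x ∈ S, a x ∉ S) (hS' : ∀ x ∈ S, a' x ∉ S)
    (hT : ∀ x ∈ T, a x ∉ T) (n : ∀ x ∈ P, a x ∉ T) (n' : ∀ x ∈ P, a' x ∉ T)
    (e1 : ∀ u, u ∉ T → zipf T t a u = zipf T t a' u)
    (e2 : ∀ u, u ∉ S → zipf S t a u = zipf S t a' u) : a = a' := by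
  have s1 : ∀ x ∈ P, a x = a' x := fun x hx => by
    have := e1 x (d x (hP x hx))
    rwa [zipf_of (d x (hP x hx)) (n x hx), zipf_of (d x (hP x hx)) (n' x hx)] at this
  have key : ∀ {a : Perm D}, (∀ x ∈ P, a x ∉ T) → ∀ u, u ∉ S → a u ∉ P →
      (a u ∈ T ↔ zipf S t a u ∈ T) := fun {a} n u hu h => by
    by_cases c : a u ∈ S
    · rw [zipf_in hu c]
      exact iff_of_false (d _ c) (n _ ((hP' _ c).resolve_left h))
    · rw [zipf_of hu c]
  have s2 : ∀ u, u ∉ T → a u = a' u := fun u h2 => by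
    by_cases h1 : u ∈ S
    · rcases hP' u h1 with h | h
      · exact s1 u h
      · have n1 := hS _ (tS u h1)
        have := e2 _ n1
        rw [zipf_in n1 (by rw [i]; exact tS u h1), i, ht, s1 _ h,
          zipf_in (hS' _ (tS u h1)) (by rw [i']; exact tS u h1), i', ht] at this
        exact this
    by_cases c : a u ∈ P
    · rw [← i' (a u), ← s1 _ c, i]
    by_cases c' : a' u ∈ P
    · rw [← i (a' u), s1 _ c', i']
    have k := key n u h1 c
    have k' := key n' u h1 c'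
    rw [e2 u h1, ← k'] at k
    by_cases c2 : a u ∈ T
    · have := e2 u h1
      rwa [zipf_of h1 fun e => d _ e c2, zipf_of h1 fun e => d _ e (k.1 c2)] at this
    · have := e1 u h2
      rwa [zipf_of h2 c2, zipf_of h2 (mt k.2 c2)] at this
  ext u
  by_cases h : u ∈ T
  · rw [← i' (a u), ← s2 _ (hT u h), i]
  · exact s2 u h

end abstr

abbrev DT (v : ℕ) (E : Type) := Fin v × Fin 4 ⊕ (Bool ⊕ E × Bool)

variable {v : ℕ} {E E' : Type} [DecidableEq E] [Fintype E] [DecidableEq E'] [Fintype E']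

abbrev pp (v : ℕ) (e : E) : DT v E := .inr (.inr (e, true))
abbrev qq (v : ℕ) (e : E) : DT v E := .inr (.inr (e, false))
abbrev bb (v : ℕ) (c : Bool) : DT v E := .inr (.inl c)

def tt (v : ℕ) (E : Type) : Perm (DT v E) :=
  Equiv.sumCongr (Equiv.refl _)
    (Equiv.sumCongr (Equiv.refl _) (Equiv.prodCongr (Equiv.refl _) Equiv.boolNot))

def em (v : ℕ) (j : E' → E) : DT v E' → DT v E := Sum.map id (Sum.map id (Prod.map j id))

def SS (v : ℕ) (L : List E) : Set (DT v E) := dS (pp v) (qq v) L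

lemma tt_tt (u : DT v E) : tt v E (tt v E u) = u := by
  rcases u with u | u | ⟨e, c⟩ <;> simp [tt]

lemma tt_pp (e : E) : tt v E (pp v e) = qq v e := rfl

lemma mem_SS {L : List E} {u : DT v E} : u ∈ SS v L ↔ ∃ e ∈ L, ∃ c, u = .inr (.inr (e, c)) := by
  simp [SS, dS, eq_comm, or_comm]

lemma tt_SS {L : List E} : ∀ u ∈ SS v L, tt v E u ∈ SS v L := fun u hu => by
  obtain ⟨e, he, c, rfl⟩ := mem_SS.1 hu
  exact mem_SS.2 ⟨e, he, !c, rfl⟩

lemma em_inj {j : E' → E} (h : Function.Injective j) : Function.Injective (em v j) :=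
  Function.injective_id.sumMap (Function.injective_id.sumMap (h.prodMap Function.injective_id))

lemma em_tt (j : E' → E) (x : DT v E') : em v j (tt v E' x) = tt v E (em v j x) := by
  rcases x with u | u | ⟨e, c⟩ <;> rfl

def HL (v : ℕ) (r : List (LI E)) : List (List (DT v E)) :=
  (bb v true :: (oP r).map (pp v)) :: (bb v false :: rq (qq v) (oQ r)) :: fs (pp v) (qq v) [] r

lemma perm_fs {D : Type} [DecidableEq D] [Fintype D] (p q : E → D) (b c : D) {r : List (LI E)}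
    (h : Ok none r) : ((b :: (oP r).map p) :: (c :: rq q (oQ r)) :: fs p q [] r).flatten.Perm
    (b :: c :: ((all r).map p ++ (all r).map q)) := by
  refine List.perm_iff_count.2 fun z => ?_
  have := cnt_fs (p := p) (q := q) z r none [] h fun _ => rfl
  simp only [all, List.flatten_cons, List.cons_append, List.count_cons, List.count_append,
    count_rq, List.map_append, List.count_nil] at this ⊢
  omega

lemma HL_perm {r : List (LI E)} (h : Ok none r) : (HL v r).flatten.Perm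
    (bb v true :: bb v false :: ((all r).map (pp v) ++ (all r).map (qq v))) := perm_fs _ _ _ _ h

structure Lab (r : List (LI E)) : Prop where
  ok : Ok none r
  nd : (all r).Nodup
  cov : ∀ e, e ∈ all r

structure Re (v : ℕ) (r : List (LI E)) (K : Cfg (DT v E)) : Prop where
  U : K.U = univ
  X : K.X = univ.image Sum.inr
  f : ∀ u, K.f (.inl u) = .inl (sq v u)
  hl : Holes K (HL v r)

lemma Re.wf {r : List (LI E)} {K : Cfg (DT v E)} (h : Re v r K) : WF K := (wf_sum h.U h.X h.f).1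

lemma Lab.disj {r : List (LI E)} (h : Lab r) (w : Bool) {e : E} (h1 : e ∈ path w r) :
    e ∉ path (!w) r := fun h2 => by
  have nd := (List.nodup_append.1 h.nd).2.2
  cases w
  exacts [nd e h2 e h1 rfl, nd e h1 e h2 rfl]

lemma Lab.ex {r : List (LI E)} (h : Lab r) (v : ℕ) : ∃ K, Re v r K := by
  have pm := HL_perm (v := v) h.ok
  have nd : (HL v r).flatten.Nodup := by
    rw [pm.nodup_iff]
    have i : ∀ c, Function.Injective fun e : E => (.inr (.inr (e, c)) : DT v E) :=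
      fun c i j e => by simpa using e
    simp [List.nodup_append, h.nd.map (i _)]
  have mem : ∀ x, x ∈ univ.image (Sum.inr : _ → DT v E) ↔ x ∈ (HL v r).flatten := fun x => by
    rw [pm.mem_iff]
    rcases x with u | ⟨_ | _⟩ | ⟨e, _ | _⟩ <;> simp [h.cov]
  obtain ⟨g, g1, g2⟩ := ex_cyc (HL v r) nd fun l hl => by
    simp only [HL, List.mem_cons] at hl
    rcases hl with rfl | rfl | hl
    · simp
    · simp
    · obtain ⟨e, -, he⟩ := meets true r none [] h.ok l hl
      exact he.elim List.ne_nil_of_mem List.ne_nil_of_mem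
  refine ⟨⟨univ, univ.image Sum.inr, Equiv.sumCongr (sq v) (Equiv.refl _) * g⟩, rfl, rfl,
    fun u => ?_, fun l hl => (g1 l hl).congr fun x hx => ?_, nd, mem⟩
  · rw [Perm.mul_apply, g2 _ fun e => by simpa using (mem _).2 e]; rfl
  · obtain ⟨b, -, e⟩ := mem_image.1 ((mem _).2 (List.mem_flatten.2 ⟨l, hl, (g1 l hl).mem hx⟩))
    rw [Perm.mul_apply, ← e]; rfl

variable {r : List (LI E)} {K : Cfg (DT v E)}

lemma Re.SX (h : Re v r K) (L : List E) : ∀ x ∈ SS v L, x ∈ K.X := fun x hx => by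
  obtain ⟨e, -, c, rfl⟩ := mem_SS.1 hx
  simp [h.X]

lemma Re.np (h : Re v r K) (l : Lab r) {a : Perm (DT v E)} (p : Pre K K.X a) (w : Bool) :
    ∀ x ∈ SS v (path w r), a x ∉ SS v (path w r) := by
  refine no_pair h.wf h.hl p (h.SX _) fun c hc => ?_
  simp only [HL, List.mem_cons] at hc
  rcases hc with rfl | rfl | hc
  · exact ⟨_, List.mem_cons_self, by simp [mem_SS]⟩
  · exact ⟨_, List.mem_cons_self, by simp [mem_SS]⟩
  · obtain ⟨e, h1, h2⟩ := meets (!w) r none [] l.ok c hc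
    have := l.disj _ h1
    rcases h2 with h2 | h2 <;> exact ⟨_, h2, by simpa [mem_SS] using this⟩

lemma Re.cut (h : Re v r K) (l : Lab r) {a : Perm (DT v E)} (p : Pre K K.X a) (w : Bool) {k : ℕ}
    {j : Fin k → E} (hj : Function.Injective j) (e : path w r = (List.finRange k).map j) :
    ∃ b ∈ VS (K1 v k), ∀ u, em v j (b u) = zipf (SS v (path (!w) r)) (tt v E) a (em v j u) := by
  have z := (zipAll tt_tt tt_pp w r none [bb v true] [bb v false] [] [] l.ok (by simp) (by simp)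
    (by simp) (by simp)).rot (a := HL v r)
      (d := [bb v true :: (path w r).map (pp v), bb v false :: rq (qq v) (path w r)])
      ((Rot.refl _).cons ((Rot.one [bb v false] _ rfl rfl).cons (Rot.refl _)))
      ((Rot.refl _).cons (Rot.one (rq (qq v) (path w r)) [bb v false] (by simp) rfl))
  obtain ⟨K', -, h2, h3, -, -, h4, h5⟩ := z [] K h.wf (by simpa using h.hl)
  obtain ⟨b, q1, q2⟩ := h5 a p (h.np l p _)
  obtain ⟨w1, l1, -, f1⟩ := K1_spec v k
  have hU : ∀ u, u ∈ K'.U ↔ ∃ x, em v j x = u := fun u => by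
    rw [h3, h.U]
    change _ ∧ u ∉ SS v _ ↔ _
    rcases u with u | c | ⟨d, c⟩
    · exact iff_of_true (by simp [mem_SS]) ⟨.inl u, rfl⟩
    · exact iff_of_true (by simp [mem_SS]) ⟨.inr (.inl c), rfl⟩
    · have h6 : d ∉ path (!w) r ↔ d ∈ path w r := ⟨fun n => by
        have := l.cov d
        cases w <;> simp_all [all], l.disj w⟩
      simp [mem_SS, h6, e, em]
  obtain ⟨c, c1, c2⟩ := pull w1 rfl (em_inj hj) hU l1
    (by simpa [hP, hQ, em, rq, e, Function.comp_def] using h2) (fun u hu => by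
      rcases u with u | u
      · rw [f1]; exact (h4 (.inl u) (by simp [h.U]) (by simp [h.X])).trans (h.f u)
      · simp [K1] at hu) q1
  exact ⟨c, c1, fun u => (c2 u).trans (q2 _ ((hU _).2 ⟨u, rfl⟩))⟩

lemma S1_eq (v k : ℕ) : {x : E1 v k | ∃ i, x = .inr (.inr i)} = SS v (List.finRange k) := by
  ext x; simp [mem_SS]

lemma K1_np {k : ℕ} {a : Perm (E1 v k)} (ha : a ∈ VS (K1 v k)) :
    ∀ x ∈ SS v (List.finRange k), a x ∉ SS v (List.finRange k) := by
  obtain ⟨w1, l1, -, -⟩ := K1_spec v k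
  refine no_pair w1 l1 (mem_VS.1 ha).1 (fun x hx => ?_) fun c hc => ?_
  · obtain ⟨e, -, c, rfl⟩ := mem_SS.1 hx
    simp [K1]
  · simp only [List.mem_cons, List.not_mem_nil, or_false] at hc
    rcases hc with rfl | rfl <;> exact ⟨_, List.mem_cons_self, by simp [mem_SS]⟩

lemma j01_inj {k : ℕ} : Function.Injective (j01 : E0 v → E1 v k) :=
  Function.injective_id.sumMap Sum.inl_injective

lemma j01_out {k : ℕ} (u : E0 v) : j01 u ∉ SS v (List.finRange k) := by
  rcases u with u | u <;> simp [mem_SS, j01]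

lemma ex_e {k : ℕ} (hk : 1 ≤ k) {a : Perm (E1 v k)} (ha : a ∈ VS (K1 v k)) :
    ∃ e ∈ VS (K0 v), Rz a e := by
  obtain ⟨w1, l1, -, f1⟩ := K1_spec v k
  obtain ⟨w0, l0, -⟩ := K0_spec v
  have z := (gP tt_tt tt_pp (q := qq v) (a := List.finRange k) [bb v true] [] [bb v false] []
    (by simp; omega) (by simp) (by simp)).rot (a := [hP v k, hQ v k]) (d := [[bb v false, bb v true]])
      (by simpa [hP, hQ, rq] using Rot.refl _) (Rot.one [bb v true] [bb v false] rfl rfl)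
  obtain ⟨K', -, h2, h3, -, -, h4, h5⟩ := z [] _ w1 l1
  obtain ⟨b, q1, q2⟩ := h5 a (mem_VS.1 ha).1 (K1_np ha)
  have hU : ∀ u, u ∈ K'.U ↔ ∃ x, j01 x = u := fun u => by
    rw [h3]
    change _ ∧ u ∉ SS v _ ↔ _
    rcases u with u | c | ⟨d, c⟩
    · exact iff_of_true (by simp [mem_SS, K1]) ⟨.inl u, rfl⟩
    · exact iff_of_true (by simp [mem_SS, K1]) ⟨.inr c, rfl⟩
    · simp [mem_SS, j01]
  obtain ⟨c, c1, c2⟩ := pull w0 rfl j01_inj hU l0 h2 (fun u hu => by
      rcases u with u | u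
      · exact (h4 (.inl u) (by simp [K1]) (by simp [K1])).trans (f1 u)
      · cases u <;> simp [K0] at hu) q1
  exact ⟨c, c1, fun u => by rw [S1_eq]; exact (c2 u).trans (q2 _ ((hU _).2 ⟨u, rfl⟩))⟩

end Z2

end Pool.Agent.Lib.MP_abd955_pr
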