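import Pool.Agent.Lib.MP_abd955_pr.Feat1C

/-! The injection and the weight bookkeeping. -/

namespace Pool.Agent.Lib.MP_abd955_pr

open Equiv Equiv.Perm Finset

set_option linter.unusedSectionVars false

namespace Z2

section
variable {D E : Type} [DecidableEq D] [Fintype D] (p q : E → D) (V : ℕ)

def fh : List D → List (LI E) → List (FH D)
  | _, [] => []
  | s, i :: r => (lo i.σ, V, i.x.map p ++ own p q i.ch ++ rq q i.y ++ s) ::
      (i.ch.map (fun c => (lo c.1, V, bub p q c)) ++ fh (oth p q i.ch) r)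

lemma fh_fs : ∀ (r : List (LI E)) (s : List D), (fh p q V s r).map (·.2.2) = fs p q s r
  | [], _ => rfl
  | i :: r, s => by simp [fh, fs, fh_fs r]

variable {p q V}

lemma short (hp : Function.Injective p) (hpq : ∀ e e', p e ≠ q e') {e : E} :
    ∀ (r : List (LI E)) (o : Option Bool) (s : List D), Ok o r → ∀ h ∈ fh p q V s r, h.1 = 0 →
      h.2.2.length ≤ 2 → p e ∈ h.2.2 → e ∈ path false r
  | [], _, _, _, h, hh, _, _, _ => by simp [fh] at hh
  | ⟨σ, x, y, ch⟩ :: r, o, s, ⟨_, k2, k3, _, o', k5, _⟩, h, hh, h0, h2, he => by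
    simp only [fh, List.mem_cons, List.mem_append, List.mem_map] at hh
    rcases hh with rfl | ⟨⟨κ, a, b⟩, -, rfl⟩ | hh
    · obtain rfl : σ = true := by cases σ <;> simp_all [lo]
      have := List.length_pos_iff.2 k2
      have := List.length_pos_iff.2 k3
      simp only [List.length_append, List.length_map, length_rq] at *
      rw [List.length_eq_zero_iff.1 (show s.length = 0 by omega),
        List.length_eq_zero_iff.1 (show (own p q ch).length = 0 by omega)] at he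
      simp only [List.append_nil, List.mem_append, List.mem_map, mem_rq] at he
      rcases he with ⟨d, h3, h4⟩ | ⟨d, -, h4⟩
      · simp [path, ← hp h4, h3]
      · exact absurd h4.symm (hpq _ _)
    · obtain rfl : κ = true := by cases κ <;> simp_all [lo]
      obtain ⟨d, -, h4⟩ := (mem_rq q).1 he
      exact absurd h4.symm (hpq _ _)
    · exact List.mem_append_right _ (short hp hpq r o' _ k5 h hh h0 h2 he)

def ln (c : LB E) : Bub := (c.1, c.2.1.length, c.2.2.length)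
def sw (c : Bub) : Bub := (c.1, c.2.2, c.2.1)

def sh (i : LI E) : Item :=
  if i.σ then (true, i.y.length, i.x.length, ((i.ch.map ln).map sw).reverse)
  else (false, i.x.length, i.y.length, i.ch.map ln)

lemma len_own : ∀ ch : List (LB E), (own p q ch).length = ((ch.map ln).map toP).sum
  | [] => rfl
  | (κ, a, b) :: ch => by cases κ <;> simp [own, len_own ch, ln, toP]

lemma len_oth : ∀ ch : List (LB E), (oth p q ch).length = ((ch.map ln).map toQ).sum
  | [] => rfl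
  | (κ, a, b) :: ch => by cases κ <;> simp [oth, len_oth ch, ln, toQ, add_comm]

lemma toQ_sw : toQ ∘ sw = toP := by funext ⟨κ, a, b⟩; cases κ <;> rfl
lemma toP_sw : toP ∘ sw = toQ := by funext ⟨κ, a, b⟩; cases κ <;> rfl

def wG {R : Type} [CommMonoid R] (g : ℕ → ℕ → R) : ℕ → List Item → R
  | _, [] => 1
  | s, it :: r => g (lo it.1) (it.2.1 + it.2.2.1 + s + ownL it) *
      (it.2.2.2.map fun c => g (lo c.1) (c.2.1 + c.2.2)).prod * wG g (othL it) r

lemma wI_eq (V : ℕ) : ∀ (τ : List Item) (s : ℕ), wI V s τ = wG (fun a l => zt a V l) s τ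
  | [], _ => rfl
  | it :: τ, s => by rw [wI, wG, wI_eq V τ]; rfl

lemma prod_fh {R : Type} [CommMonoid R] (g : ℕ → ℕ → ℕ → R) : ∀ (r : List (LI E)) (s : List D),
    ((fh p q V s r).map fun h => g h.1 h.2.1 h.2.2.length).prod =
      wG (fun a l => g a V l) s.length (r.map sh)
  | [], _ => rfl
  | ⟨σ, x, y, ch⟩ :: r, s => by
    have h1 : ∀ c : LB E, (bub p q c).length = c.2.1.length + c.2.2.length := fun c => by
      unfold bub; split_ifs <;> simp [add_comm]
    simp only [fh, List.map_cons, List.map_append, List.prod_cons, List.prod_append, prod_fh g r,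
      wG, List.length_append, List.length_map, length_rq, len_own, len_oth, List.map_map, mul_assoc]
    cases σ
    · simp only [sh, ownL, othL, Bool.false_eq_true, if_false, List.map_map, Function.comp_def, h1, ln]
      congr 2; omega
    · simp only [sh, ownL, othL, if_true, List.map_reverse, List.sum_reverse, List.prod_reverse,
        List.map_map, ← Function.comp_assoc, toQ_sw, toP_sw]
      simp only [Function.comp_def, h1, ln, sw, add_comm]
      congr 2; omega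

lemma len_fh : ∀ (r : List (LI E)) (s : List D), ((fh p q V s r).map (·.2.1)).sum =
    ((r.map sh).map fun it => 1 + it.2.2.2.length).sum * V
  | [], _ => by simp [fh]
  | ⟨σ, x, y, ch⟩ :: r, s => by
    have := len_fh r (oth p q ch)
    cases σ <;> simp [fh, sh, add_mul, Function.comp_def, add_assoc] at this ⊢ <;> exact this

end

def lP (τ : List Item) : ℕ := (τ.map fun it => if it.1 then it.2.1 else it.2.2.1).sum
def lQ (τ : List Item) : ℕ := (τ.map fun it => if it.1 then it.2.2.1 else it.2.1).sum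
def l1 (τ : List Item) : ℕ := (τ.map fun it => it.2.1 + (it.2.2.2.map (·.2.1)).sum).sum
def l2 (τ : List Item) : ℕ := (τ.map fun it => it.2.2.1 + (it.2.2.2.map (·.2.2)).sum).sum
def nh (τ : List Item) : ℕ := (τ.map fun it => 1 + it.2.2.2.length).sum

def OkI : Option Bool → List Item → Prop
  | o, [] => o = none
  | o, it :: τ => (o = none ∨ o = some it.1) ∧ 1 ≤ it.2.1 ∧ 1 ≤ it.2.2.1 ∧
      (∀ c ∈ it.2.2.2, 1 ≤ c.2.1 ∧ 1 ≤ c.2.2) ∧ OkI (nxtS it) τ

variable {v : ℕ} {E : Type}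

lemma len_oP : ∀ r : List (LI E), (oP r).length = lP (r.map sh) ∧ (oQ r).length = lQ (r.map sh)
  | [] => ⟨rfl, rfl⟩
  | ⟨σ, x, y, ch⟩ :: r => by
    have := len_oP r
    cases σ <;> simp_all [oP, oQ, lP, lQ, sh]

lemma cutL {L : List E} {n m : ℕ} (h : L.length = n + m) :
    ∃ A B, L = A ++ B ∧ A.length = n ∧ B.length = m :=
  ⟨L.take n, L.drop n, by simp, by simp [h], by simp [h]⟩

lemma real_ch : ∀ (ch : List Bub) (LA LB' : List E), LA.length = (ch.map (·.2.1)).sum →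
    LB'.length = (ch.map (·.2.2)).sum → ∃ c : List (LB E), c.map ln = ch ∧ As c = LA ∧ Bs c = LB'
  | [], _, _, h1, h2 => ⟨[], rfl, (List.length_eq_zero_iff.1 h1).symm,
      (List.length_eq_zero_iff.1 h2).symm⟩
  | (κ, i, j) :: ch, _, _, h1, h2 => by
    obtain ⟨a, A, rfl, rfl, h3⟩ := cutL h1
    obtain ⟨B, b, rfl, h4, rfl⟩ := cutL (h2.trans (add_comm _ _))
    obtain ⟨c, rfl, rfl, rfl⟩ := real_ch ch A B h3 h4
    exact ⟨(κ, a, b) :: c, rfl, rfl, rfl⟩

lemma ne2_of {c : List (LB E)} (h : ∀ b ∈ c.map ln, 1 ≤ b.2.1 ∧ 1 ≤ b.2.2) : Ne2 c := fun _ hb =>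
  (h _ (List.mem_map_of_mem hb)).imp List.length_pos_iff.1 List.length_pos_iff.1

lemma real : ∀ (τ : List Item) (o : Option Bool) (L1 L2 : List E), OkI o τ → L1.length = l1 τ →
    L2.length = l2 τ → ∃ r : List (LI E), r.map sh = τ ∧ Ok o r ∧ path true r = L1 ∧ path false r = L2
  | [], _, _, _, h, h1, h2 => ⟨[], rfl, h, (List.length_eq_zero_iff.1 h1).symm,
      (List.length_eq_zero_iff.1 h2).symm⟩
  | (σ, i, j, ch) :: τ, o, _, _, ⟨k1, k2, k3, k4, k5⟩, h1, h2 => by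
    obtain ⟨g, L1, rfl, g1, h3⟩ := cutL h1
    obtain ⟨h, L2, rfl, g2, h4⟩ := cutL h2
    obtain ⟨g, G, rfl, rfl, g3⟩ := cutL g1
    obtain ⟨h, H, rfl, rfl, g4⟩ := cutL g2
    obtain ⟨r, rfl, r1, rfl, rfl⟩ := real τ _ L1 L2 k5 h3 h4
    have k6 := List.length_pos_iff.1 k2
    have k7 := List.length_pos_iff.1 k3
    cases σ
    · obtain ⟨c, rfl, rfl, rfl⟩ := real_ch ch G H g3 g4
      exact ⟨⟨false, g, h, c⟩ :: r, rfl, ⟨k1, k6, k7, ne2_of k4, _, r1, fun e => by simp [nxtS, e]⟩,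
        rfl, rfl⟩
    · obtain ⟨c, e, rfl, rfl⟩ := real_ch (ch.map sw).reverse H G
        (by simpa [List.map_reverse, List.sum_reverse, Function.comp_def, sw] using g4)
        (by simpa [List.map_reverse, List.sum_reverse, Function.comp_def, sw] using g3)
      refine ⟨⟨true, h, g, c⟩ :: r, ?_, ⟨k1, k7, k6, ne2_of fun b hb => ?_, _, r1, fun n => ?_⟩, rfl, rfl⟩
      · simp only [List.map_cons, sh, if_true, e]
        simp [List.map_reverse, Function.comp_def, sw]
      · rw [e] at hb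
        obtain ⟨b', hb', rfl⟩ := List.mem_map.1 (List.mem_reverse.1 hb)
        exact (k4 b' hb').symm
      · have : ch ≠ [] := fun h => n (by simpa [h] using e)
        simp [nxtS, this]

variable [DecidableEq E] [Fintype E]

def FL (v V V' : ℕ) (r : List (LI E)) : List (FH (DT v E)) :=
  (0, V', bb v true :: (oP r).map (pp v)) :: (0, V', bb v false :: rq (qq v) (oQ r)) ::
    fh (pp v) (qq v) V [] r

lemma FL_HL (V V' : ℕ) (r : List (LI E)) : (FL v V V' r).map (·.2.2) = HL v r := by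
  simp [FL, HL, fh_fs]

lemma pp_inj : Function.Injective (pp v : E → _) := fun i j e => by simpa using e
lemma qq_inj : Function.Injective (qq v : E → _) := fun i j e => by simpa using e
lemma pp_qq (e e' : E) : pp v e ≠ qq v e' := by simp

lemma Re.nd {r : List (LI E)} {K : Cfg (DT v E)} (h : Re v r K) (l : Lab r) {a : Perm (DT v E)}
    (p : Pre K K.X a) {V V' : ℕ} (n : ND (FL v V V' r) K.X a) :
    ∀ x ∈ (path true r).map (pp v), a x ∉ SS v (path false r) := fun x hx ha => by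
  obtain ⟨e, he, rfl⟩ := List.mem_map.1 hx
  have hX : pp v e ∈ K.X := by simp [h.X]
  obtain ⟨c, h1, h2⟩ := List.mem_flatten.1 ((h.hl.mem _).1 hX)
  have cy := h.hl.cyc c h1
  have cl := closed h.wf p cy hX h2 (h.SX _ _ ha)
  have nb : ∀ b, bb v b ∉ c := fun b hb => by
    rcases cl _ hb with e' | e'
    · simp at e'
    · simp [← e', mem_SS] at ha
  rw [← FL_HL V V'] at h1
  obtain ⟨c', h3, rfl⟩ := List.mem_map.1 h1
  by_cases h0 : 1 ≤ c'.1
  · exact n c' h3 h0 _ h2 (h.SX _ _ ha)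
  simp only [FL, List.mem_cons] at h3
  rcases h3 with rfl | rfl | h3
  · exact nb _ List.mem_cons_self
  · exact nb _ List.mem_cons_self
  · exact l.disj true he (short pp_inj pp_qq r none [] l.ok c' h3 (by omega)
      (List.subperm_of_subset (l₂ := [pp v e, a (pp v e)]) cy.1 fun z hz => by
        simpa using cl z hz).length_le h2)

lemma Re.uniq {r r' : List (LI E)} {K K' : Cfg (DT v E)} (h : Re v r K) (h' : Re v r' K') (l : Lab r)
    (l' : Lab r') (e : ∀ w, path w r = path w r') {a : Perm (DT v E)} (p : Pre K K.X a)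
    (p' : Pre K' K'.X a) : r = r' := by
  have hi : ∀ u ∈ K.U, u ∉ K.X → K'.f u = K.f u := fun u _ hu => by
    rcases u with u | u
    · rw [h.f, h'.f]
    · simp [h.X] at hu
  have hf : K'.f = K.f := Equiv.ext fun u => by
    by_cases c : u ∈ K.X
    · exact face_uniq h.wf h'.wf (h'.X.trans h.X.symm) p p' hi c
    · exact hi u (by simp [h.U]) c
  have c := h.hl.cyc
  have c' := h'.hl.cyc
  rw [hf] at c'
  simp only [HL, List.forall_mem_cons] at c c'
  exact dec pp_inj qq_inj pp_qq r r' _ _ [] l.ok l'.ok e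
    (List.map_injective_iff.2 pp_inj (c.1.uniq c'.1))
    (List.map_injective_iff.2 qq_inj (List.reverse_injective (c.2.1.uniq c'.2.1))) l.nd c.2.2 c'.2.2

open Classical in
noncomputable def NN (v k k' : ℕ) : ℝ := ∑ e ∈ VS (K0 v),
  (((VS (K1 v k)).filter fun a => Rz a e).card * ((VS (K1 v k')).filter fun a => Rz a e).card : ℝ)

lemma em_SS {k : ℕ} {j : Fin k → E} (_hj : Function.Injective j) (x : E1 v k) :
    em v j x ∈ SS v ((List.finRange k).map j) ↔ x ∈ SS v (List.finRange k) := by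
  rcases x with u | u | ⟨e, c⟩ <;> simp [mem_SS, em]

lemma em_surj {k k' : ℕ} {u : DT v (Fin k ⊕ Fin k')} :
    (u ∉ SS v ((List.finRange k').map Sum.inr) → ∃ x, em v Sum.inl x = u) ∧
    (u ∉ SS v ((List.finRange k).map Sum.inl) → ∃ x, em v Sum.inr x = u) := by
  rcases u with u | u | ⟨e | e, c⟩
  · exact ⟨fun _ => ⟨.inl u, rfl⟩, fun _ => ⟨.inl u, rfl⟩⟩
  · exact ⟨fun _ => ⟨.inr (.inl u), rfl⟩, fun _ => ⟨.inr (.inl u), rfl⟩⟩
  · exact ⟨fun _ => ⟨.inr (.inr (e, c)), rfl⟩, fun h => by simp [mem_SS] at h⟩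
  · exact ⟨fun h => by simp [mem_SS] at h, fun _ => ⟨.inr (.inr (e, c)), rfl⟩⟩

theorem claimA {ι : Type} (T : Finset ι) {k k' : ℕ} (hk : 1 ≤ k) (r : ι → List (LI (Fin k ⊕ Fin k')))
    (hi : Set.InjOn r T) (hl : ∀ τ ∈ T, Lab (r τ))
    (h1 : ∀ τ ∈ T, path true (r τ) = (List.finRange k).map Sum.inl)
    (h2 : ∀ τ ∈ T, path false (r τ) = (List.finRange k').map Sum.inr) (v V V' : ℕ) :
    ∑ τ ∈ T, GG v * (zP (FL v V V' (r τ))).coeff v ≤ NN v k k' := by
  classical
  have : Nonempty (Cfg (DT v (Fin k ⊕ Fin k'))) := ⟨⟨∅, ∅, 1⟩⟩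
  choose! K hK using fun τ hτ => (hl τ hτ).ex v
  set S1 := SS v ((List.finRange k).map (Sum.inl : _ → Fin k ⊕ Fin k')) with hS1
  set S2 := SS v ((List.finRange k').map (Sum.inr : _ → Fin k ⊕ Fin k')) with hS2
  have d : ∀ x ∈ S1, x ∉ S2 := fun x a b => by
    obtain ⟨e, a', c, rfl⟩ := mem_SS.1 a
    obtain ⟨i, -, rfl⟩ := List.mem_map.1 a'
    simp [hS2, mem_SS] at b
  have n1 : ∀ τ ∈ T, ∀ a, Pre (K τ) (K τ).X a → (∀ x ∈ S1, a x ∉ S1) ∧ ∀ x ∈ S2, a x ∉ S2 :=
    fun τ hτ a p => ⟨by rw [hS1, ← h1 τ hτ]; exact (hK τ hτ).np (hl τ hτ) p _,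
      by rw [hS2, ← h2 τ hτ]; exact (hK τ hτ).np (hl τ hτ) p _⟩
  refine (sum_le_sum fun τ hτ => ?_).trans
    (?_ : ∑ τ ∈ T, (((VS (K τ)).filter (ND (FL v V V' (r τ)) (K τ).X)).card : ℝ) ≤ _)
  · have := count_nd (FL v V V' (r τ)) (hK τ hτ).wf (by rw [FL_HL]; exact (hK τ hτ).hl)
    rwa [(wf_sum (hK τ hτ).U (hK τ hτ).X (hK τ hτ).f).2] at this
  simp only [NN, ← Nat.cast_mul, ← Nat.cast_sum, ← card_product, ← card_sigma, Nat.cast_le]
  refine card_le_card_of_forall_subsingleton (fun x y =>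
    (∀ u, em v Sum.inl (y.2.1 u) = zipf S2 (tt v _) x.2 (em v Sum.inl u)) ∧
    ∀ u, em v Sum.inr (y.2.2 u) = zipf S1 (tt v _) x.2 (em v Sum.inr u)) ?_ ?_
  · rintro ⟨τ, a⟩ hx
    obtain ⟨hτ, ha⟩ := mem_sigma.1 hx
    have p := (mem_VS.1 (mem_filter.1 ha).1).1
    obtain ⟨b, b1, b2⟩ := (hK τ hτ).cut (hl τ hτ) p true Sum.inl_injective (h1 τ hτ)
    obtain ⟨c, c1, c2⟩ := (hK τ hτ).cut (hl τ hτ) p false Sum.inr_injective (h2 τ hτ)
    rw [Bool.not_true, h2 τ hτ] at b2
    rw [Bool.not_false, h1 τ hτ] at c2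
    obtain ⟨e, e1, e2⟩ := ex_e hk b1
    refine ⟨⟨e, b, c⟩, mem_sigma.2 ⟨e1, mem_product.2 ⟨mem_filter.2 ⟨b1, e2⟩,
      mem_filter.2 ⟨c1, fun u => em_inj (j := (Sum.inr : _ → Fin k ⊕ Fin k')) Sum.inr_injective ?_⟩⟩⟩,
      b2, c2⟩
    have q : ∀ u : E0 v, em v (Sum.inr : _ → Fin k ⊕ Fin k') (j01 u) = em v Sum.inl (j01 u) :=
      fun u => by rcases u with u | u <;> rfl
    rw [q, e2 u, S1_eq, S1_eq, zipf_map (t' := t1 v k) (em_SS Sum.inl_injective) (em_tt _) b2
      (j01_out u), zipf_map (t' := t1 v k') (em_SS Sum.inr_injective) (em_tt _) c2 (j01_out u), q]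
    refine zz_comm tt_SS tt_SS d (n1 τ hτ a p).1 (n1 τ hτ a p).2 (fun x hx => ?_) (fun x hx => ?_)
      (mt (em_SS Sum.inl_injective _).1 (j01_out u))
      (by rw [← q]; exact mt (em_SS Sum.inr_injective _).1 (j01_out u))
    · obtain ⟨x, rfl⟩ := em_surj.1 (d x hx)
      rw [← b2, em_SS Sum.inl_injective]
      exact K1_np b1 x ((em_SS Sum.inl_injective x).1 hx)
    · obtain ⟨x, rfl⟩ := em_surj.2 fun e => d x e hx
      rw [← c2, em_SS Sum.inr_injective]
      exact K1_np c1 x ((em_SS Sum.inr_injective x).1 hx)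
  · rintro ⟨e, b, c⟩ - ⟨τ, a⟩ ⟨hx, x1, x2⟩ ⟨τ', a'⟩ ⟨hy, y1, y2⟩
    obtain ⟨hτ, ha⟩ := mem_sigma.1 hx
    obtain ⟨hτ', ha'⟩ := mem_sigma.1 hy
    have p := (mem_VS.1 (mem_filter.1 ha).1).1
    have p' := (mem_VS.1 (mem_filter.1 ha').1).1
    have m := (hK τ hτ).nd (hl τ hτ) p (mem_filter.1 ha).2
    have m' := (hK τ' hτ').nd (hl τ' hτ') p' (mem_filter.1 ha').2
    rw [h1 _ ‹_›, h2 _ ‹_›] at m m'
    obtain rfl : a = a' := inj_a (S := S1) (T := S2)
      (P := {x | x ∈ ((List.finRange k).map Sum.inl).map (pp v)}) tt_tt tt_SS d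
      (fun x hx => by
        obtain ⟨e, he, rfl⟩ := List.mem_map.1 hx
        exact mem_SS.2 ⟨e, he, _, rfl⟩)
      (fun x hx => by
        obtain ⟨e, he, _ | _, rfl⟩ := mem_SS.1 hx
        exacts [Or.inr (List.mem_map.2 ⟨e, he, rfl⟩), Or.inl (List.mem_map.2 ⟨e, he, rfl⟩)])
      (fun x => (p.inv x (by simp [(hK τ hτ).U])).2.1)
      (fun x => (p'.inv x (by simp [(hK τ' hτ').U])).2.1) (n1 τ hτ a p).1 (n1 τ' hτ' a' p').1
      (n1 τ hτ a p).2 m m'
      (fun u hu => by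
        obtain ⟨x, rfl⟩ := em_surj.1 hu
        exact (x1 x).symm.trans (y1 x))
      fun u hu => by
        obtain ⟨x, rfl⟩ := em_surj.2 hu
        exact (x2 x).symm.trans (y2 x)
    obtain rfl : τ = τ' := hi hτ hτ' ((hK τ hτ).uniq (hK τ' hτ') (hl τ hτ) (hl τ' hτ') (fun w => by
      cases w
      exacts [(h2 τ hτ).trans (h2 τ' hτ').symm, (h1 τ hτ).trans (h1 τ' hτ').symm]) p p')
    rfl

end Z2

end Pool.Agent.Lib.MP_abd955_pr
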