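import Pool.Agent.Lib.MP_abd955_pr.FeatDefs
import Pool.Agent.Lib.MP_abd955_pr.Trans

/-! Features and the face removed by a peeling step. -/

namespace Pool.Agent.Lib.MP_abd955_pr.FB

open Equiv Equiv.Perm Finset

set_option linter.unusedSectionVars false

variable {D : Type} [DecidableEq D] [Fintype D]

/-- z is in the square of s -/
def Fc (f : Perm D) (s z : D) : Prop := z = s ∨ z = f s ∨ z = f (f s) ∨ z = f (f (f s))

lemma Fc.all {f : Perm D} {s z z' : D} (h4 : f (f (f (f s))) = s) {P : D → Prop}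
    (hP : ∀ z, P z → P (f z)) (h : Fc f s z) (hz : P z) (h' : Fc f s z') : P z' := by
  have : P s := by
    rcases h with rfl | rfl | rfl | rfl
    exacts [hz, h4 ▸ hP _ (hP _ (hP _ hz)), h4 ▸ hP _ (hP _ hz), h4 ▸ hP _ hz]
  rcases h' with rfl | rfl | rfl | rfl
  exacts [this, hP _ this, hP _ (hP _ this), hP _ (hP _ (hP _ this))]

lemma Fc.iff {f : Perm D} {s : D} (h4 : f (f (f (f s))) = s) (z : D) :
    Fc f s z ↔ Fc f s (f z) := by
  constructor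
  · rintro (rfl | rfl | rfl | rfl) <;> simp [Fc, h4]
  · rintro (e | e | e | e)
    · exact Or.inr (Or.inr (Or.inr (f.injective (e.trans h4.symm))))
    · exact Or.inl (f.injective e)
    · exact Or.inr (Or.inl (f.injective e))
    · exact Or.inr (Or.inr (Or.inl (f.injective e)))

lemma Fc.cmp {f : Perm D} {s y z : D} (h4 : f (f (f (f s))) = s) (h5 : f (f (f (f y))) = y)
    (h : Fc f s y) (h' : Fc f s z) : Fc f y z :=
  h.all h4 (fun z => (Fc.iff h5 z).1) (Or.inl rfl) h'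

lemma not_Fc {f : Perm D} {y z : D} : (∀ i < 4, z ≠ (f ^ i) y) ↔ ¬Fc f y z := by
  constructor
  · rintro h (e | e | e | e)
    exacts [h 0 (by norm_num) e, h 1 (by norm_num) e, h 2 (by norm_num) e, h 3 (by norm_num) e]
  · intro h i hi e
    refine h ?_
    interval_cases i
    exacts [Or.inl e, Or.inr (Or.inl e), Or.inr (Or.inr (Or.inl e)), Or.inr (Or.inr (Or.inr e))]

lemma Fc.congr {f f' : Perm D} {I : Set D} (hI : ∀ u ∈ I, f u ∈ I) (e : ∀ u ∈ I, f' u = f u)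
    {s : D} (hs : s ∈ I) (z : D) : Fc f' s z ↔ Fc f s z := by
  rw [Fc, e s hs, e _ (hI _ hs), e _ (hI _ (hI _ hs)), Fc]

/-- inner darts -/
abbrev Inn (K : Cfg D) : Set D := ↑(K.U \ K.X)

/-- inner darts outside the square of s -/
def In1 (K : Cfg D) (s : D) : Set D := {z | z ∈ Inn K ∧ ¬Fc K.f s z}

lemma inn_iff {K : Cfg D} (h : WF K) (u : D) : u ∈ Inn K ↔ K.f u ∈ Inn K :=
  mem_iff_of_maps (fun _ hz => h.fI hz) u

lemma inn4 {K : Cfg D} (h : WF K) {s : D} (hs : s ∈ Inn K) : K.f (K.f (K.f (K.f s))) = s :=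
  (h.four s (mem_sdiff.1 hs).1 (mem_sdiff.1 hs).2).1

lemma in1_iff {K : Cfg D} (h : WF K) {s : D} (hs : s ∈ Inn K) (u : D) :
    u ∈ In1 K s ↔ K.f u ∈ In1 K s :=
  and_congr (inn_iff h u) (not_congr (Fc.iff (inn4 h hs) u))

lemma inn_raw {K : Cfg D} {x s : D} (ok : PeelOk K x s) (rest : List D) (ρ : Raw) :
    Inn (K.raw x s rest ρ) = In1 K s := by
  ext z
  have := ok.hx
  by_cases e : z = x <;>
    simp [In1, Inn, Fc, raw_U, raw_X, ok.memU, ok.memX, e, this, not_or]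
  tauto

section
variable {F : Fam} {a a' f f' : Perm D} {I I' : Set D} {t0 t1 s z y : D}

lemma has_avoid (h : Has F a f I t0 t1) (h4 : f (f (f (f s))) = s) (hz : Fc f s z)
    (hc : z = t0 ∨ z = t1 ∨ (a z ∉ I ∧ a z ≠ t0 ∧ a z ≠ t1)) :
    Has F a f {u | u ∈ I ∧ ¬Fc f s u} t0 t1 := by
  obtain ⟨v, e, he, ι, hι, r0, r1, hI⟩ := h
  refine ⟨v, e, he, ι, hι, r0, r1, fun u => ⟨hI u, fun c => ?_⟩⟩
  obtain ⟨u', rfl⟩ : ∃ u', z = ι (.inl u') :=
    c.all h4 (P := fun z => ∃ u', z = ι (.inl u'))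
      (by rintro _ ⟨u, rfl⟩; exact ⟨_, hι.mf u⟩) ⟨u, rfl⟩ hz
  rcases hc with c | c | ⟨c1, c2, c3⟩
  · simpa using hι.inj (c.trans r0.symm)
  · simpa using hι.inj (c.trans r1.symm)
  · rw [hι.mb] at c1 c2 c3
    rcases hw : e (.inl u') with w | _ | _ <;> rw [hw] at c1 c2 c3
    exacts [c1 (hI w), c2 r0, c3 r1]

lemma has_partner (h : Has F a f I t0 t1) (h0 : t0 ∈ I) (h1 : t1 ∈ I) : a t0 ∈ I ∧ a t1 ∈ I := by
  obtain ⟨v, e, -, ι, hι, rfl, rfl, hI⟩ := h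
  have : ∀ u, ι u ∈ I := by rintro (u | _ | _); exacts [hI u, h0, h1]
  rw [hι.mb, hι.mb]
  exact ⟨this _, this _⟩

lemma has_congr (h : Has F a f I t0 t1) (e : ∀ u ∈ I, a' u = a u ∧ f' u = f u ∧ u ∈ I')
    (e0 : a' t0 = a t0) (e1 : a' t1 = a t1) : Has F a' f' I' t0 t1 := by
  obtain ⟨v, d, he, ι, hι, rfl, rfl, hI⟩ := h
  refine ⟨v, d, he, ι, ⟨hι.inj, ?_, fun u => (e _ (hI u)).2.1.trans (hι.mf u)⟩, rfl, rfl,
    fun u => (e _ (hI u)).2.2⟩
  rintro (u | _ | _)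
  exacts [(e _ (hI u)).1.trans (hι.mb _), e0.trans (hι.mb _), e1.trans (hι.mb _)]

/-- a feature lies on one side of an invariant predicate -/
lemma feat_res (hF : ∀ v, F v ⊆ VS (K0 v)) (h : IFeat F I f a y) (hI : ∀ u, u ∈ I ↔ f u ∈ I)
    {P : D → Prop} (ha : ∀ u, P u ↔ P (a u)) (hf : ∀ u ∈ I, P u ↔ P (f u)) (hy : P y) :
    IFeat F {u | u ∈ I ∧ P u} f a y := by
  obtain ⟨h1, h2, ⟨v, e, he, ι, hι, r0, r1, h3⟩, h4⟩ := h
  have p0 : P (ι (.inr false)) := r0 ▸ (hf y h1).1 hy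
  have p1 : P (ι (.inr true)) := by
    rw [r1, hf _ ((hI _).2 (by simpa using h2))]
    simpa using (ha y).1 hy
  have p : ∀ c, P (ι (.inr c)) := by rintro (_ | _); exacts [p0, p1]
  refine ⟨⟨h1, hy⟩, ⟨h2, (ha y).1 hy⟩, ⟨v, e, he, ι, hι, r0, r1, fun u => ⟨h3 u, ?_⟩⟩, h4⟩
  obtain ⟨w, hw, c⟩ := (mem_VS.1 (hF v he)).1.con (.inl u) (mem_univ _)
  refine (conn_pred (fun z => P (ι z)) (fun z => by rw [← hι.mb]; exact ha _) ?_ c).2 ?_
  · rintro (z | z)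
    · exact (hf _ (h3 z)).trans (by rw [hι.mf]; rfl)
    · exact iff_of_true (p _) (p _)
  · simp only [K0, mem_insert, mem_singleton] at hw
    rcases hw with rfl | rfl <;> exact p _

lemma feat_congr (h : IFeat F I f a y) (hI : ∀ u, u ∈ I ↔ f u ∈ I)
    (e : ∀ u ∈ I, a' u = a u ∧ f' u = f u ∧ u ∈ I') : IFeat F I' f' a' y := by
  obtain ⟨h1, h2, h3, h4⟩ := h
  have i1 : f⁻¹ (a y) ∈ I := (hI _).2 (by simpa using h2)
  have e1 : f'⁻¹ (a y) = f⁻¹ (a y) := by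
    rw [Perm.inv_eq_iff_eq, (e _ i1).2.1]; simp
  refine ⟨(e y h1).2.2, ?_, ?_, ?_⟩ <;> rw [(e y h1).1]
  · exact (e _ h2).2.2
  · rw [(e y h1).2.1, e1]
    exact has_congr h3 e (e _ ((hI y).1 h1)).1 (e _ i1).1
  · rw [not_Fc, Fc.congr (fun u => (hI u).1) (fun u hu => (e u hu).2.1) h1, ← not_Fc]
    exact h4

end

/-- after removing the square glued to y, a two-gon of the family appears in the hole -/
def T1 (F : Fam) (K : Cfg D) (y τ : D) (c : Bool) (a : Perm D) : Prop :=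
  a y ∉ K.X ∧ Has F a K.f (In1 K (a y)) (if c then τ else K.f (a y))
    (if c then K.f (K.f (K.f (a y))) else τ)

/-- the square of s meets a feature -/
def Tch (F : Fam) (K : Cfg D) (s : D) (a : Perm D) : Prop :=
  ∃ y, IFeat F (Inn K) K.f a y ∧ ¬IFeat F (In1 K s) K.f a y

lemma tch_cases {F : Fam} {K K' : Cfg D} (h : WF K) {s : D} (hs : s ∈ Inn K) {g a : Perm D}
    (hg : ∀ u ∈ Inn K, g (g u) = u) (gs : g s ∉ Inn K) (hI : Inn K' = In1 K s)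
    (hf : ∀ u ∈ In1 K s, K'.f u = K.f u) (ha : ∀ u ∈ Inn K, u ≠ s → a u = g u)
    (t : Tch F K s g) :
    T1 F K' (K.f s) (K.f (K.f s)) true a ∨ T1 F K' (K.f (K.f s)) (K.f (K.f (K.f s))) true a ∨
    T1 F K' (K.f (K.f s)) (K.f s) false a ∨
    T1 F K' (K.f (K.f (K.f s))) (K.f (K.f s)) false a := by
  obtain ⟨y, ⟨h1, h2, h3, h4⟩, hn⟩ := t
  have s4 := inn4 h hs
  have y4 := inn4 h h1
  have g4 := inn4 h h2
  have i0 := (inn_iff h y).1 h1
  have i1 : K.f⁻¹ (g y) ∈ Inn K := (inn_iff h _).2 (by simpa using h2)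
  have e1 : K.f⁻¹ (g y) = K.f (K.f (K.f (g y))) := by rw [Perm.inv_eq_iff_eq, g4]
  obtain ⟨p0, p1⟩ := has_partner h3 i0 i1
  have n0 : y ≠ s := fun e => gs (e ▸ h2)
  have n1 : g y ≠ s := fun e => gs (by rw [← e, hg y h1]; exact h1)
  have n2 : K.f y ≠ s := fun e => gs (e ▸ p0)
  have n3 : K.f⁻¹ (g y) ≠ s := fun e => gs (e ▸ p1)
  have h5 : Has F g K.f (In1 K s) (K.f y) (K.f⁻¹ (g y)) :=
    has_avoid h3 s4 (Or.inl rfl) (Or.inr (Or.inr ⟨gs, fun e => gs (e ▸ i0), fun e => gs (e ▸ i1)⟩))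
  have h6 := not_Fc.1 h4
  have cl := fun u => (in1_iff h hs u).1
  have key : ∀ z ∈ In1 K s, Fc K.f z (K.f y) ∨ Fc K.f z (K.f⁻¹ (g y)) →
      Has F a K'.f (In1 K' z) (K.f y) (K.f⁻¹ (g y)) := fun z hz c => by
    refine has_congr (I := {u | u ∈ In1 K s ∧ ¬Fc K.f z u}) ?_
      (fun u hu => ⟨ha u hu.1.1 fun e => hu.1.2 (Or.inl e), hf u hu.1, hI ▸ hu.1,
        by rw [Fc.congr cl hf hz]; exact hu.2⟩) (ha _ i0 n2) (ha _ i1 n3)
    rcases c with c | c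
    exacts [has_avoid h5 (inn4 h hz.1) c (Or.inl rfl),
      has_avoid h5 (inn4 h hz.1) c (Or.inr (Or.inl rfl))]
  have nx : ∀ z ∈ In1 K s, z ∉ K'.X := fun z hz => (mem_sdiff.1 (hI ▸ hz : z ∈ Inn K')).2
  by_cases c1 : Fc K.f s y
  · have m : g y ∈ In1 K s := ⟨h2, fun c => h6 (c1.cmp s4 y4 c)⟩
    have t : T1 F K' y (K.f y) true a := by
      rw [T1, ha y h1 n0, if_pos rfl, if_pos rfl, hf _ m, hf _ (cl _ m), hf _ (cl _ (cl _ m)), ← e1]
      exact ⟨nx _ m, key _ m (Or.inr (e1 ▸ Or.inr (Or.inr (Or.inr rfl))))⟩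
    rcases c1 with e | e | e | e
    · exact absurd e n0
    · exact Or.inl (e ▸ t)
    · exact Or.inr (Or.inl (e ▸ t))
    · exact absurd (by rw [e, s4]) n2
  have m : y ∈ In1 K s := ⟨h1, c1⟩
  have c2 : Fc K.f s (g y) := by
    by_contra c
    exact hn ⟨m, ⟨h2, c⟩, h5, h4⟩
  have t : T1 F K' (g y) (K.f⁻¹ (g y)) false a := by
    rw [T1, ha _ h2 n1, hg y h1, if_neg Bool.false_ne_true, if_neg Bool.false_ne_true, hf _ m]
    exact ⟨nx _ m, key _ m (Or.inl (Or.inr (Or.inl rfl)))⟩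
  rcases c2 with e | e | e | e
  · exact absurd e n1
  · exact absurd (by simp [e]) n3
  · exact Or.inr (Or.inr (Or.inl (by simpa [e] using t)))
  · exact Or.inr (Or.inr (Or.inr (by simpa [e] using t)))

end Pool.Agent.Lib.MP_abd955_pr.FB
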