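import Pool.Agent.Lib.MP_abd955_pr.FeatBA

/-! Counting gluings with features. -/

namespace Pool.Agent.Lib.MP_abd955_pr.FB

open Equiv Equiv.Perm Finset PowerSeries

set_option linter.unusedSectionVars false

variable {D : Type} [DecidableEq D] [Fintype D]

open Classical in
/-- number of gluings with a property -/
noncomputable def cn (K : Cfg D) (P : Perm D → Prop) : ℝ := ∑ a ∈ VS K, if P a then 1 else 0

lemma cn_or {K : Cfg D} {P Q R : Perm D → Prop} (h : ∀ a ∈ VS K, P a → Q a ∨ R a) :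
    cn K P ≤ cn K Q + cn K R := by
  rw [cn, cn, cn, ← sum_add_distrib]
  refine sum_le_sum fun a ha => ?_
  have := h a ha
  split_ifs <;> first | tauto | norm_num

lemma cn_mono {K : Cfg D} {P Q : Perm D → Prop} (h : ∀ a ∈ VS K, P a → Q a) : cn K P ≤ cn K Q :=
  sum_le_sum fun a ha => by
    have := h a ha
    split_ifs <;> first | tauto | norm_num

lemma cn_le (K : Cfg D) (P : Perm D → Prop) : cn K P ≤ (VS K).card := by
  rw [cn, card_eq_sum_ones, Nat.cast_sum]
  exact sum_le_sum fun a _ => by split_ifs <;> norm_num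

lemma cn_zero {K : Cfg D} {P : Perm D → Prop} (h : ∀ a ∈ VS K, ¬P a) : cn K P = 0 :=
  sum_eq_zero fun a ha => if_neg (h a ha)

noncomputable def Ph (F : Fam) : ℝ⟦X⟧ := PowerSeries.mk (phi F)

noncomputable def th (P : ℝ⟦X⟧) : ℝ⟦X⟧ := PowerSeries.mk fun n => n * coeff n P

def NN (P : ℝ⟦X⟧) : Prop := ∀ n, 0 ≤ coeff n P

lemma phi_nn (F : Fam) (v : ℕ) : 0 ≤ phi F v := div_nonneg (Nat.cast_nonneg _) (GG_pos v).le

lemma NN.mul {P Q : ℝ⟦X⟧} (h : NN P) (h' : NN Q) : NN (P * Q) := fun n => by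
  rw [coeff_mul]; exact sum_nonneg fun _ _ => mul_nonneg (h _) (h' _)

lemma nn_Ph (F : Fam) : NN (Ph F) := fun n => by simpa [Ph] using phi_nn F n

lemma nn_Zm (ls : List ℕ) : NN (Zm ls) := coeff_Zm_nonneg ls

lemma NN.th {P : ℝ⟦X⟧} (h : NN P) : NN (th P) := fun n => by
  simpa [FB.th] using mul_nonneg (Nat.cast_nonneg n) (h n)

lemma th_add (P Q : ℝ⟦X⟧) : th (P + Q) = th P + th Q := by ext n; simp [th, mul_add]

lemma th_X {ι : Type} (A : Finset ι) (P : ι → ℝ⟦X⟧) :
    th (X * ∑ i ∈ A, P i) = X * ∑ i ∈ A, (P i + th (P i)) := by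
  ext n
  rcases n with _ | n
  · simp [th]
  · simp only [th, coeff_mk, coeff_succ_X_mul, map_sum, map_add, mul_sum]
    exact sum_congr rfl fun _ _ => by push_cast; ring

lemma Zm_rec (l : ℕ) (ls : List ℕ) : Zm ((l + 1) :: ls) =
    (if l = 1 then Zm ls else 0) + X * ∑ ρ ∈ raws (l + 1), Zm (rl (l + 1) ρ ++ ls) := by
  rw [Zm_cons, Zl_rec _ (by omega), add_mul, mul_assoc, sum_mul]
  simp [Zm_append]

lemma cn_has {F : Fam} {V : ℕ} (hF : FamOk F V) {K : Cfg D} (h : WF K) {ls : List (List D)}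
    (hl : Holes K ls) {t0 t1 : D} (h0 : t0 ∈ K.X) (h1 : t1 ∈ K.X) :
    cn K (fun a => Has F a K.f (Inn K) t0 t1) ≤
      GG K.m * coeff K.m (Ph F * Zm (ls.map List.length)) := by
  have := card_has hF h hl h0 h1
  rw [card_filter] at this
  simpa [cn, coeff_mul, Ph] using this

lemma peel_le {K : Cfg D} (h : WF K) {x : D} {rest : List D} {ls : List (List D)}
    (hl : Holes K ((x :: rest) :: ls)) (hr : rest ≠ []) {P : Perm D → Prop}
    {H : List ℕ → ℝ⟦X⟧} {k : ℝ}
    (e : ∀ s ρ, PeelOk K x s → ρ ∈ raws (rest.length + 1) → ∀ ls', WF (K.raw x s rest ρ) →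
      Holes (K.raw x s rest ρ) ls' → cn (K.raw x s rest ρ) (fun a => P (swap x s * a)) ≤
        k * (GG (K.raw x s rest ρ).m * coeff (K.raw x s rest ρ).m (H (ls'.map List.length)))) :
    cn K (fun a => a x ∉ K.X ∧ P a) ≤ k * (GG K.m * coeff K.m
      (X * ∑ ρ ∈ raws (rest.length + 1), H (rl (rest.length + 1) ρ ++ ls.map List.length))) := by
  classical
  have h1 := sum_peel h hl hr fun a => if P a then 1 else 0
  rw [sum_filter] at h1
  rw [cn, sum_congr rfl fun a _ => show _ = if a x ∉ K.X then (if P a then (1 : ℝ) else 0) else 0 by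
    by_cases c : a x ∉ K.X <;> by_cases c' : P a <;> simp [c, c'], h1]
  refine (sum_le_sum fun s hs => sum_le_sum fun ρ hρ => show _ ≤ k * (GG (K.m - 1) *
      coeff (K.m - 1) (H (rl (rest.length + 1) ρ ++ ls.map List.length))) by
    have ok := hl.ok h hr hs
    obtain ⟨w, hh, -⟩ := raw_spec ok hl hρ
    have hm := raw_m ok rest ρ
    have := e s ρ ok hρ _ w hh
    rwa [List.map_append, rawH_length hρ, show (K.raw x s rest ρ).m = K.m - 1 by omega] at this).trans
    (le_of_eq ?_)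
  rw [sum_const, h.card_inner, nsmul_eq_mul]
  rcases K.m with _ | m
  · simp
  · rw [coeff_succ_X_mul, map_sum, GG_succ, ← mul_sum, ← mul_sum]
    push_cast; ring

lemma close_cn {K : Cfg D} (h : WF K) {x y : D} {ls : List (List D)}
    (hl : Holes K ([x, y] :: ls)) (P : Perm D → Prop) : cn K (fun a => a x ∈ K.X ∧ P a) =
      cn (K.res (K.U \ {x, y})) fun a => P (swap x y * a) := by
  classical
  have h3 := sum_close h hl fun a => if P a then 1 else 0
  rw [sum_filter] at h3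
  rw [cn, sum_congr rfl fun a _ => show _ = if a x ∈ K.X then (if P a then (1 : ℝ) else 0) else 0 by
    by_cases c : a x ∈ K.X <;> simp [c], h3, cn]

lemma front {K : Cfg D} {ls : List (List D)} (hl : Holes K ls) {y : D} (hy : y ∈ K.X) :
    ∃ rest ls', Holes K ((y :: rest) :: ls') ∧
      Zm (ls.map List.length) = Zm ((rest.length + 1) :: ls'.map List.length) := by
  obtain ⟨l, m, hx⟩ := List.mem_flatten.1 ((hl.mem y).1 hy)
  obtain ⟨A, B, rfl⟩ := List.append_of_mem hx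
  have pm := List.perm_cons_erase m
  refine ⟨B ++ A, _, (hl.perm pm).comm, ?_⟩
  rw [Zm, ((pm.map _).map _).prod_eq, ← Zm, List.map_cons]
  congr 2
  simp; omega

lemma raw_facts {K : Cfg D} {x s : D} {rest : List D} {ls : List (List D)} (ok : PeelOk K x s)
    (hl : Holes K ((x :: rest) :: ls)) {ρ : Raw} (hρ : ρ ∈ raws (rest.length + 1)) {a : Perm D}
    (ha : a ∈ VS (K.raw x s rest ρ)) :
    (swap x s * a) x = s ∧ (swap x s * a) s = x ∧
      (∀ u ∈ K.U, u ≠ x → u ≠ s → a u = (swap x s * a) u) ∧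
      (∀ u ∈ In1 K s, (K.raw x s rest ρ).f u = K.f u) ∧ Pre K K.X (swap x s * a) := by
  obtain ⟨e1, e2, e3, -⟩ := swap_facts (U := K.U) (raw_U _ _ _ _ _) ha
  obtain ⟨w, -, hf⟩ := raw_spec ok hl hρ
  refine ⟨e1, e2, fun u a b c => (e3 u (by rw [raw_U, ok.memU]; exact ⟨c, b, a⟩)).symm,
    fun u hu => ?_, raw_to ok hl hρ e1 e2 ((mem_VS.1 ha).1.congr w w.sub e3)⟩
  rw [← inn_raw ok rest ρ, Inn, raw_U, raw_X] at hu
  exact hf u (mem_sdiff.1 hu).1 (mem_sdiff.1 hu).2

section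
variable {F : Fam} {V : ℕ} (hF : FamOk F V)
include hF

lemma cn_T1 {K : Cfg D} (h : WF K) {ls : List (List D)} (hl : Holes K ls) {y τ : D}
    (hy : y ∈ K.X) (hτ : τ ∈ K.X) (hne : τ ≠ y) (c : Bool) :
    cn K (T1 F K y τ c) ≤ GG K.m * coeff K.m (Ph F * Zm (ls.map List.length)) := by
  obtain ⟨rest, ls', H, e⟩ := front hl hy
  by_cases hr : rest = []
  · rw [cn, VS_odd h H (by simp [hr]), sum_empty]
    exact mul_nonneg (GG_pos _).le (((nn_Ph F).mul (nn_Zm _)) _)
  refine (peel_le h H hr (k := 1) (H := fun L => Ph F * Zm L) fun s ρ ok hρ ls' w hh => ?_).trans ?_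
  · rw [one_mul]
    refine (cn_mono fun a ha p => ?_).trans (cn_has hF w hh (t0 := if c then τ else K.f s)
      (t1 := if c then K.f (K.f (K.f s)) else τ) ?_ ?_)
    · obtain ⟨e1, -, e3, e4, -⟩ := raw_facts ok H hρ ha
      have k : ∀ u ∈ (K.raw y s rest ρ).U, a u = (swap y s * a) u := fun u hu => by
        rw [raw_U, ok.memU] at hu
        exact e3 u hu.2.2 hu.2.1 hu.1
      rw [e1] at p
      refine has_congr p (fun u hu => ?_) (k _ (w.sub ?_)) (k _ (w.sub ?_))
      · have := inn_raw ok rest ρ ▸ hu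
        exact ⟨k u (mem_sdiff.1 this).1, e4 u hu, this⟩
      all_goals cases c <;> simp [raw_X, ok.memX, hne, hτ]
    all_goals cases c <;> simp [raw_X, ok.memX, hne, hτ]
  · rw [one_mul, e, Zm_rec, mul_add, map_add, ← mul_sum, mul_left_comm]
    refine mul_le_mul_of_nonneg_left (le_add_of_nonneg_left ((nn_Ph F).mul ?_ _)) (GG_pos _).le
    split_ifs
    exacts [nn_Zm _, fun n => by simp]

lemma cn_tch_raw {K : Cfg D} {x s : D} {rest : List D} {ls : List (List D)} (ok : PeelOk K x s)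
    (hl : Holes K ((x :: rest) :: ls)) {ρ : Raw} (hρ : ρ ∈ raws (rest.length + 1))
    {ls' : List (List D)} (w : WF (K.raw x s rest ρ)) (hh : Holes (K.raw x s rest ρ) ls') :
    cn (K.raw x s rest ρ) (fun a => Tch F K s (swap x s * a)) ≤ 4 * (GG (K.raw x s rest ρ).m *
      coeff (K.raw x s rest ρ).m (Ph F * Zm (ls'.map List.length))) := by
  have m1 : K.f s ∈ (K.raw x s rest ρ).X := by simp [raw_X, ok.memX]
  have m2 : K.f (K.f s) ∈ (K.raw x s rest ρ).X := by simp [raw_X, ok.memX]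
  have m3 : K.f (K.f (K.f s)) ∈ (K.raw x s rest ρ).X := by simp [raw_X, ok.memX]
  have d1 : K.f (K.f s) ≠ K.f s := K.f.injective.ne ok.d1
  have d2 : K.f (K.f (K.f s)) ≠ K.f (K.f s) := K.f.injective.ne d1
  have b1 := cn_T1 hF w hh m1 m2 d1 true
  have b2 := cn_T1 hF w hh m2 m3 d2 true
  have b3 := cn_T1 hF w hh m2 m1 d1.symm false
  have b4 := cn_T1 hF w hh m3 m2 d2.symm false
  refine ((cn_or fun a ha t => ?_).trans (add_le_add b1 ((cn_or fun _ _ => id).trans
    (add_le_add b2 ((cn_or fun _ _ => id).trans (add_le_add b3 b4)))))).trans (le_of_eq (by ring))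
  obtain ⟨-, e2, e3, e4, p⟩ := raw_facts ok hl hρ ha
  exact tch_cases ok.wf (mem_sdiff.2 ⟨ok.hs, ok.hs'⟩)
    (fun u hu => (p.inv u (mem_sdiff.1 hu).1).2.1)
    (fun e => (mem_sdiff.1 e).2 (by rw [e2]; exact ok.hx)) (inn_raw ok rest ρ) e4
    (fun u hu => e3 u (mem_sdiff.1 hu).1 fun e => (mem_sdiff.1 hu).2 (e ▸ ok.hx)) t

lemma cn_tch {K : Cfg D} (h : WF K) {x : D} {rest : List D} (hl : Holes K [x :: rest])
    (hr : rest ≠ []) : cn K (fun a => a x ∉ K.X ∧ Tch F K (a x) a) ≤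
      4 * (GG K.m * coeff K.m (Ph F * Zl (rest.length + 1))) := by
  refine (peel_le h hl hr (k := 4) (H := fun L => Ph F * Zm L) fun s ρ ok hρ ls' w hh =>
    (cn_mono fun a ha p => ?_).trans (cn_tch_raw hF ok hl hρ w hh)).trans ?_
  · rwa [(raw_facts ok hl hρ ha).1] at p
  · have e := Zm_rec rest.length []
    rw [Zm_cons, Zm_nil, mul_one] at e
    rw [e, mul_add, map_add, ← mul_sum, mul_left_comm X, List.map_nil]
    refine mul_le_mul_of_nonneg_left (mul_le_mul_of_nonneg_left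
      (le_add_of_nonneg_left ((nn_Ph F).mul ?_ _)) (GG_pos _).le) (by norm_num)
    split_ifs
    exacts [Zm_nil ▸ nn_Zm _, fun n => by simp]

theorem cn_feat (n : ℕ) : ∀ {K : Cfg D}, WF K → ∀ {ls : List (List D)}, Holes K ls →
    K.U.card = n → cn K (fun a => ∃ y, IFeat F (Inn K) K.f a y) ≤
      4 * (GG K.m * coeff K.m (Ph F * th (Zm (ls.map List.length)))) := by
  induction n using Nat.strong_induction_on with
  | _ n ih =>
  intro K h ls hl hn
  have nn : ∀ L, 0 ≤ 4 * (GG K.m * coeff K.m (Ph F * th (Zm L))) := fun L =>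
    mul_nonneg (by norm_num) (mul_nonneg (GG_pos _).le ((nn_Ph F).mul (nn_Zm _).th _))
  rcases ls with _ | ⟨l, ls⟩
  · rw [cn_zero]
    · exact nn _
    rintro a ha ⟨y, hy, -⟩
    obtain ⟨x, hx, -⟩ := (mem_VS.1 ha).1.con y (mem_sdiff.1 hy).1
    simpa using (hl.mem x).1 hx
  obtain ⟨x, rest, rfl⟩ := List.exists_cons_of_ne_nil (hl.cyc _ List.mem_cons_self).2.1
  by_cases hr : rest = []
  · rw [cn, VS_odd h hl (by simp [hr]), sum_empty]
    exact nn _
  have h1 := peel_le h hl hr (P := fun a => ∃ y, IFeat F (Inn K) K.f a y) (k := 4)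
    (H := fun L => Ph F * (Zm L + th (Zm L))) fun s ρ ok hρ ls' w hh => by
      have hs : s ∈ Inn K := mem_sdiff.2 ⟨ok.hs, ok.hs'⟩
      rw [mul_add, map_add, mul_add, mul_add]
      refine (cn_or fun a ha ⟨y, hy⟩ => ?_).trans (add_le_add (cn_tch_raw hF ok hl hρ w hh)
        (ih _ (by have := ok.cardU; rw [raw_U]; omega) w hh rfl))
      by_cases c : IFeat F (In1 K s) K.f (swap x s * a) y
      · obtain ⟨-, -, e3, e4, -⟩ := raw_facts ok hl hρ ha
        refine Or.inr ⟨y, feat_congr c (in1_iff h hs) fun u hu => ⟨e3 u (mem_sdiff.1 hu.1).1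
          (fun e => (mem_sdiff.1 hu.1).2 (e ▸ ok.hx)) fun e => hu.2 (Or.inl e), e4 u hu, ?_⟩⟩
        rwa [inn_raw ok]
      · exact Or.inl ⟨y, hy, c⟩
  have h2 : cn K (fun a => a x ∈ K.X ∧ ∃ y, IFeat F (Inn K) K.f a y) ≤ 4 * (GG K.m * coeff K.m
      (Ph F * th (if rest.length = 1 then Zm (ls.map List.length) else 0))) := by
    split_ifs with e
    · obtain ⟨y, rfl⟩ := List.length_eq_one_iff.1 e
      have hI := close_spec h hl
      obtain ⟨-, w, -, -, -, hm⟩ := Inv_spec h hI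
      have hx := hl.sub List.mem_cons_self (x := x) (by simp)
      have hy := hl.sub List.mem_cons_self (x := y) (by simp)
      rw [close_cn h hl, ← hm, add_zero]
      have := ih _ (by
        rw [← hn]
        exact card_lt_card ⟨sdiff_subset, fun e => by simpa [Cfg.res] using e (h.sub hx)⟩)
        w (Holes.res (l1 := [[x, y]]) h hl hI).2 rfl
      refine le_trans (cn_mono ?_) this
      rintro a ha ⟨z, hz⟩
      refine ⟨z, feat_congr hz (inn_iff h) fun u hu => ?_⟩
      obtain ⟨u1, u2⟩ := mem_sdiff.1 hu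
      have m : u ∈ K.U \ {x, y} := by
        simp only [mem_sdiff, mem_insert, mem_singleton, not_or]
        exact ⟨u1, fun e => u2 (e ▸ hx), fun e => u2 (e ▸ hy)⟩
      exact ⟨((swap_facts (U := K.U) (x := x) (s := y) (by ext; simp [Cfg.res]; tauto) ha).2.2.1
        u m).symm, rfl, mem_sdiff.2 ⟨m, fun e => u2 (mem_inter.1 e).1⟩⟩
    · rw [cn_zero fun a ha p => e (by rw [close_eq h hl (mem_VS.1 ha).1 p.1]; rfl)]
      simp [show th 0 = 0 by ext; simp [th]]
  refine ((cn_or fun a _ p => by tauto).trans (add_le_add h2 h1)).trans (le_of_eq ?_)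
  rw [List.map_cons, List.length_cons, Zm_rec, th_add, th_X, mul_add, map_add, ← mul_sum,
    mul_left_comm X]
  ring

end

end Pool.Agent.Lib.MP_abd955_pr.FB
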