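import Pool.Agent.Lib.MP_abd955_pr.Seg

/-! Features among the unexplored darts. -/

namespace Pool.Agent.Lib.MP_abd955_pr

open Equiv Equiv.Perm Finset Step Filter

/-- a feature at y all of whose darts are in I -/
def IFeat {D : Type} (F : Fam) (I : Set D) (f a : Perm D) (y : D) : Prop :=
  y ∈ I ∧ a y ∈ I ∧ Has F a f I (f y) (f⁻¹ (a y)) ∧ ∀ i < 4, a y ≠ (f ^ i) y

/-- a feature at y in the unexplored part of copy b -/
def UF {D : Type} [DecidableEq D] (F : Fam) (S : St D) (b : Bool) (g : Perm D) (y : D) : Prop :=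
  IFeat F (↑((S.K b).U \ (S.K b).X)) (S.K b).f g y

/-- the peeling rule in which, at cost κ, no unexplored feature is met -/
def RuleF (F : Fam) (κ : ℝ) : Prop :=
  ∀ {ι : Type} {𝓕 : Filter ι} {D : ι → Type} [∀ i, DecidableEq (D i)] [∀ i, Fintype (D i)]
    {Sz : ι → ℕ → ℕ → Prop} {wt : Step × ℕ → ℝ}, Md 𝓕 Sz wt → (∀ y, wt y ≤ 2 * wv y.1 y.2) →
    ∀ (b : Bool) {I : Iv D} {J : Step × ℕ → Iv D} {c : Step × ℕ → ℝ}, (∀ y, 0 ≤ c y) →
    (∀ y, c y ≤ 1) → (∀ y, Bd 𝓕 (J y) (c y)) → ∀ {G : Step × ℕ → ι → Prop},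
    (∀ y, ∀ᶠ i in 𝓕, G y i) →
    (∀ᶠ i in 𝓕, ∀ S E, I i S E → S.WF ∧ ∃ x rest, Holes (S.K b) [x :: rest] ∧
      Sz i (S.K b).m (rest.length + 1) ∧ ∀ y : Step × ℕ, G y i → ∀ s W,
        Kid S b x rest y.1 y.2 s W → J y i (S.ch b x s rest y.1 W) fun g => E g ∧
          ∀ z, UF F S b g z → UF F (S.ch b x s rest y.1 W) b g z) →
    Bd 𝓕 I (κ + ∑' y, wt y * c y)

/-- initial state with two discs -/
def K2 (n p : ℕ) (b : Bool) : Cfg (Bool × DD n p) :=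
  ⟨univ.filter fun u => u.1 = b, univ.image fun i => (b, .inr i), gpoly n p⟩

def St.two (n p : ℕ) : St (Bool × DD n p) := ⟨{1}, K2 n p⟩

end Pool.Agent.Lib.MP_abd955_pr
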