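import Pool.Agent.Lib.MP_abd955_pr.WNumB

namespace Pool.Agent.Lib.MP_abd955_pr

open PowerSeries Finset Filter Topology WN

lemma WN.zlim_pos (P : ℕ) (σ : Bool) {s : ℕ} (hs : 1 ≤ s) :
    ∑ i ∈ Icc 1 P, ∑ j ∈ Icc 1 P, zlim σ (i + j + s)
      = ∑ i ∈ Icc 1 P, ∑ j ∈ Icc 1 P, zl (i + j + s) := by
  refine sum_congr rfl fun i hi => sum_congr rfl fun j hj => ?_
  have := (mem_Icc.mp hi).1
  have := (mem_Icc.mp hj).1
  rw [zlim, if_neg (by omega), sub_zero]

lemma WN.zlim_false {P : ℕ} (hP : 1 ≤ P) :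
    ∑ i ∈ Icc 1 P, ∑ j ∈ Icc 1 P, zlim false (i + j + 0)
      = ∑ i ∈ Icc 1 P, ∑ j ∈ Icc 1 P, zl (i + j + 0) - 2 / 9 := by
  simp only [zlim, sum_sub_distrib, true_and]
  congr 1
  have h1 : 1 ∈ Icc 1 P := mem_Icc.mpr ⟨le_rfl, hP⟩
  rw [sum_eq_single_of_mem 1 h1, sum_eq_single_of_mem 1 h1, if_pos rfl]
  · intro j _ hj
    rw [if_neg (by omega)]
  · intro i hi hi1
    have := (mem_Icc.mp hi).1
    refine sum_eq_zero fun j hj => ?_
    have := (mem_Icc.mp hj).1
    rw [if_neg (by omega)]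

theorem W_bound : ∃ (P B N V : ℕ) (lam c : ℝ), 1 ≤ P ∧ 1 < lam ∧ 0 < c ∧
    ∀ n, c * lam ^ n ≤ ∑ τ ∈ Its P B N n none, wI V 0 τ := by
  have p1 : ∀ᶠ P in atTop, ∀ s ∈ Icc 1 600,
      177 / 1000 * (13 / 20 : ℝ) ^ s + 108 / 1000 * (97 / 100) ^ s <
        ∑ i ∈ Icc 1 P, ∑ j ∈ Icc 1 P, zl (i + j + s) :=
    (eventually_all_finset _).mpr fun s hs => ev_P s (E_lt s (mem_Icc.mp hs).1 (mem_Icc.mp hs).2)
  have p2 := ev_P 0 (x := 5552 / 10000) (by rw [Ar]; norm_num)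
  obtain ⟨P, hP, hP1, hP2⟩ := ((eventually_ge_atTop 1).and (p1.and p2)).exists
  have v1 : ∀ᶠ V in atTop, ∀ σ : Bool, ∀ s ∈ Icc 1 600,
      177 / 1000 * (13 / 20 : ℝ) ^ s + 108 / 1000 * (97 / 100) ^ s < AA P V σ s :=
    eventually_all.mpr fun σ => (eventually_all_finset _).mpr fun s hs =>
      (AA_lim P σ s).eventually (lt_mem_nhds (by
        rw [zlim_pos P σ (mem_Icc.mp hs).1]; exact hP1 s hs))
  have v2 : ∀ᶠ V in atTop, (888 / 1000 : ℝ) < AA P V true 0 + AA P V false 0 :=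
    ((AA_lim P true 0).add (AA_lim P false 0)).eventually (lt_mem_nhds (by
      rw [zlim_false hP]
      simp only [zlim, Bool.true_eq_false, false_and, if_false, sub_zero]
      linarith))
  obtain ⟨V, w1, w2, w11, w12, w21, w22⟩ :=
    (v1.and (v2.and ((ev_u u11).and ((ev_u u12).and ((ev_u u21).and (ev_u u22)))))).exists
  push_cast at w11 w12 w21 w22
  have H : Hyp P 30 10 V (13 / 20) (97 / 100) (177 / 1000) (108 / 1000) (228 / 1000) (490 / 1000)
      (1742 / 1000) :=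
    { pt1 := by norm_num
      pt2 := by norm_num
      pa1 := by norm_num
      pa2 := by norm_num
      hA := fun σ s h1 h2 => (w1 σ s (mem_Icc.mpr ⟨h1, h2⟩)).le
      h11 := le_trans (by norm_num [geo]) (geo_le' V 30 10 (by norm_num) w11)
      h12 := le_trans (by norm_num [geo]) (geo_le' V 30 10 (by norm_num) w12)
      h21 := le_trans (by norm_num [geo]) (geo_le' V 30 10 (by norm_num) w21)
      h22 := le_trans (by norm_num [geo]) (geo_le' V 30 10 (by norm_num) w22) }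
  have main := main_ind (b1 := 1965 / 10000) (b2 := 145 / 1000) (lam := 1004 / 1000) (c := 1 / 2)
    H (by norm_num) (by norm_num) w2.le (by norm_num) (by norm_num) (by norm_num) (by norm_num)
    (by norm_num) (by norm_num) (by norm_num) (by norm_num)
  refine ⟨P, 30, 10, V, 1004 / 1000, 1 / 4, hP, by norm_num, by norm_num, fun n => ?_⟩
  cases n with
  | zero => norm_num [Its, wI]
  | succ n =>
    refine le_trans ?_ (main n).1
    have : (0 : ℝ) ≤ (1004 / 1000) ^ n := by positivity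
    rw [pow_succ]
    linarith

end Pool.Agent.Lib.MP_abd955_pr
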