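import Pool.Agent.Lib.MP_abd955_pr.Feat1D
import Pool.Agent.Lib.MP_abd955_pr.WNum

/-! The second moment bound. -/

namespace Pool.Agent.Lib.MP_abd955_pr

open Equiv Equiv.Perm Finset

namespace Z2

lemma zt_eq (a V l : ℕ) : zt a V l = √(2 / 9) ^ l * (zq a V l).eval (1 / 12) := by
  simp only [zt, zq, Polynomial.eval_finsetSum, Polynomial.eval_monomial, mul_sum]
  refine sum_congr rfl fun v _ => ?_
  rcases Nat.even_or_odd' l with ⟨m, rfl | rfl⟩
  · rw [pow_mul, Real.sq_sqrt (by norm_num), Nat.mul_div_cancel_left _ two_pos, mul_assoc]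
  · rw [Zl_odd (by simp)]; simp

lemma prod_zt {D : Type} : ∀ fl : List (FH D), (fl.map fun h => zt h.1 h.2.1 h.2.2.length).prod =
    √(2 / 9) ^ (fl.map (·.2.2)).flatten.length * (zP fl).eval (1 / 12) ∧
      (zP fl).natDegree ≤ (fl.map (·.2.1)).sum
  | [] => by simp [zP]
  | h :: fl => by
    obtain ⟨h1, h2⟩ := prod_zt fl
    have h3 : (zq h.1 h.2.1 h.2.2.length).natDegree ≤ h.2.1 :=
      Polynomial.natDegree_le_iff_coeff_eq_zero.2 fun N hN => by
        rw [coeff_zq, if_neg (by simp; omega)]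
    simp only [zP, List.map_cons, List.prod_cons, List.flatten_cons, List.length_append,
      List.sum_cons, Polynomial.eval_mul] at h1 h2 ⊢
    exact ⟨by rw [h1, zt_eq]; ring, Polynomial.natDegree_mul_le.trans (add_le_add h3 h2)⟩

noncomputable def QT (V V' : ℕ) (τ : List Item) : Polynomial ℝ :=
  zq 0 V' (lP τ + 1) * (zq 0 V' (lQ τ + 1) * wG (fun a l => zq a V l) 0 τ)

noncomputable def WT (V V' : ℕ) (τ : List Item) : ℝ :=
  zt 0 V' (lP τ + 1) * (zt 0 V' (lQ τ + 1) * wI V 0 τ)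

variable {E : Type} [DecidableEq E] [Fintype E]

lemma zP_FL (v V V' : ℕ) (r : List (LI E)) : zP (FL v V V' r) = QT V V' (r.map sh) := by
  simp [zP, FL, QT, prod_fh zq, len_oP]

lemma WT_eq (V V' : ℕ) {r : List (LI E)} (h : Ok none r) {M : ℕ}
    (hM : nh (r.map sh) * V + 2 * V' ≤ M) : WT V V' (r.map sh) = (2 / 9) ^ ((all r).length + 1) *
      ∑ v ∈ range (M + 1), (QT V V' (r.map sh)).coeff v * (1 / 12) ^ v := by
  obtain ⟨h1, h2⟩ := prod_zt (FL 0 V V' r)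
  rw [FL_HL, (HL_perm h).length_eq, zP_FL] at h1
  rw [zP_FL] at h2
  simp only [FL, List.map_cons, List.sum_cons, len_fh] at h2
  rw [← Polynomial.eval_eq_sum_range' (by unfold nh at hM; omega), ← Real.sq_sqrt
    (show (0 : ℝ) ≤ 2 / 9 by norm_num), ← pow_mul]
  convert h1 using 3
  · simp [WT, FL, prod_fh zt, len_oP, wI_eq]
  · simp; omega

noncomputable def RH (M M' : ℕ) : ℝ := ∑ k ∈ Icc 1 M, ∑ k' ∈ Icc 1 M, ∑ v ∈ range (M' + 1),
  (2 / 9 : ℝ) ^ (k + k') * (1 / 12) ^ v / GG v * NN v k k'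

lemma l_pos {τ : List Item} {o : Option Bool} (h : OkI o τ) (h0 : τ ≠ []) : 1 ≤ l1 τ ∧ 1 ≤ l2 τ := by
  obtain ⟨it, τ, rfl⟩ := List.exists_cons_of_ne_nil h0
  obtain ⟨-, h1, h2, -⟩ := h
  simp only [l1, l2, List.map_cons, List.sum_cons]
  omega

theorem main_ineq (T : Finset (List Item)) (V V' M M' : ℕ)
    (hT : ∀ τ ∈ T, OkI none τ ∧ τ ≠ [] ∧ l1 τ ≤ M ∧ l2 τ ≤ M ∧ nh τ * V + 2 * V' ≤ M') :
    ∑ τ ∈ T, WT V V' τ ≤ 2 / 9 * RH M M' := by
  classical
  rw [← sum_fiberwise_of_maps_to (g := fun τ => (l1 τ, l2 τ)) (t := Icc 1 M ×ˢ Icc 1 M)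
    (fun τ hτ => by
      obtain ⟨h1, h2, h3, h4, -⟩ := hT τ hτ
      simp [l_pos h1 h2, h3, h4]), sum_product, RH, mul_sum]
  refine sum_le_sum fun k hk => ?_
  rw [mul_sum]
  refine sum_le_sum fun k' _ => ?_
  set T' := T.filter fun τ => (l1 τ, l2 τ) = (k, k')
  have ex : ∀ τ ∈ T', ∃ r : List (LI (Fin k ⊕ Fin k')), r.map sh = τ ∧ Ok none r ∧
      path true r = (List.finRange k).map Sum.inl ∧ path false r = (List.finRange k').map Sum.inr :=
    fun τ hτ => by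
      obtain ⟨h1, h2⟩ := mem_filter.1 hτ
      obtain ⟨h3, h4⟩ := Prod.mk.inj h2
      exact real τ none _ _ (hT τ h1).1 (by simp [h3]) (by simp [h4])
  choose! r r1 r2 r3 r4 using ex
  have hA := fun v => claimA T' (mem_Icc.1 hk).1 r
    (fun a ha b hb e => by rw [← r1 a ha, e, r1 b hb])
    (fun τ hτ => ⟨r2 τ hτ, by
      simp [all, r3 τ hτ, r4 τ hτ, List.nodup_append, (List.nodup_finRange _).map Sum.inl_injective,
        (List.nodup_finRange _).map Sum.inr_injective], fun e => by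
      rcases e with e | e <;> simp [all, r3 τ hτ, r4 τ hτ]⟩) r3 r4 v V V'
  rw [sum_congr rfl fun τ hτ => show WT V V' τ = ∑ v ∈ range (M' + 1),
      (2 / 9) ^ (k + k' + 1) * ((QT V V' τ).coeff v * (1 / 12) ^ v) by
    have := WT_eq V V' (r2 τ hτ) (M := M') (by rw [r1 τ hτ]; exact (hT τ (mem_filter.1 hτ).1).2.2.2.2)
    rw [r1 τ hτ] at this
    rw [this, ← mul_sum]
    simp [all, r3 τ hτ, r4 τ hτ], sum_comm, mul_sum]
  refine sum_le_sum fun v _ => ?_
  have h1 := hA v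
  rw [sum_congr rfl fun τ hτ => by rw [zP_FL, r1 τ hτ], ← mul_sum] at h1
  have h2 := GG_pos v
  rw [← mul_sum, ← sum_mul]
  calc _ = 2 / 9 * ((2 / 9 : ℝ) ^ (k + k') * (1 / 12) ^ v / GG v *
        (GG v * ∑ τ ∈ T', (QT V V' τ).coeff v)) := by field_simp; ring
    _ ≤ _ := by gcongr

lemma Chs_facts (B : ℕ) : ∀ n, ∀ ch ∈ Chs B n, (∀ c ∈ ch, 1 ≤ c.2.1 ∧ 1 ≤ c.2.2) ∧ ch.length ≤ n ∧
    (ch.map (·.2.1)).sum ≤ n * B ∧ (ch.map (·.2.2)).sum ≤ n * B
  | 0, ch, h => by obtain rfl := mem_singleton.1 h; simp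
  | n + 1, ch, h => by
    rcases mem_insert.1 h with rfl | h
    · simp
    · obtain ⟨⟨c, ch⟩, h', rfl⟩ := mem_image.1 h
      simp only [mem_product, mem_Icc] at h'
      obtain ⟨h1, h2, h3, h4⟩ := Chs_facts B n ch h'.2
      simp only [List.forall_mem_cons, List.length_cons, List.map_cons, List.sum_cons, add_mul]
      refine ⟨⟨by omega, h1⟩, by omega, by omega, by omega⟩

lemma Its_facts (P B N : ℕ) : ∀ n o, ∀ τ ∈ Its P B N n o, OkI o τ ∧ τ.length = n ∧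
    l1 τ ≤ n * (P + N * B) ∧ l2 τ ≤ n * (P + N * B) ∧ nh τ ≤ n * (1 + N) ∧ lP τ ≤ n * P ∧ lQ τ ≤ n * P
  | 0, o, τ, h => by
    simp only [Its] at h
    split_ifs at h with e
    · obtain rfl := mem_singleton.1 h
      simp [OkI, e, l1, l2, nh, lP, lQ]
    · simp at h
  | n + 1, o, τ, h => by
    simp only [Its, mem_biUnion, mem_filter, mem_product, mem_Icc, mem_image] at h
    obtain ⟨it, ⟨⟨-, a1, a2, a3⟩, a4⟩, τ, h, rfl⟩ := h
    obtain ⟨b1, b2, b3, b4, b5, b6, b7⟩ := Its_facts P B N n _ τ h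
    obtain ⟨c1, c2, c3, c4⟩ := Chs_facts B N _ a3
    refine ⟨⟨a4, a1.1, a2.1, c1, b1⟩, by simp [b2], ?_⟩
    simp only [l1, l2, nh, lP, lQ, List.map_cons, List.sum_cons, add_one_mul] at *
    split_ifs <;> omega

lemma zt_even {a V l : ℕ} (h : zt a V l ≠ 0) : l % 2 = 0 := by
  by_contra e
  exact h (by simp [zt, Zl_odd (mt Nat.even_iff.1 e)])

lemma ch_even (V : ℕ) : ∀ ch : List Bub, (ch.map (wB V)).prod ≠ 0 →
    ((ch.map toP).sum + (ch.map toQ).sum) % 2 = 0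
  | [], _ => rfl
  | (κ, i, j) :: ch, h => by
    simp only [List.map_cons, List.prod_cons, mul_ne_zero_iff, List.sum_cons] at h ⊢
    have h1 := ch_even V ch h.2
    have h2 := zt_even h.1
    cases κ <;> simp only [toP, toQ, if_true, if_false, Bool.false_eq_true] at h2 ⊢ <;> omega

lemma par (V : ℕ) : ∀ (τ : List Item) (o : Option Bool) (s : ℕ), OkI o τ → (o = none → s = 0) →
    wI V s τ ≠ 0 → (lP τ + lQ τ + s) % 2 = 0
  | [], _, _, h, h0, _ => by simp [lP, lQ, h0 h]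
  | (σ, i, j, ch) :: τ, o, s, ⟨_, _, _, _, k⟩, _, h => by
    simp only [wI, mul_ne_zero_iff] at h
    have h1 := par V τ _ _ k (fun e => by
      obtain rfl : ch = [] := by_contra fun c => by simp [nxtS, c] at e
      cases σ <;> rfl) h.2
    have h2 := ch_even V ch h.1.2
    have h3 := zt_even h.1.1
    cases σ <;> simp only [lP, lQ, ownL, othL, List.map_cons, List.sum_cons, if_true, if_false,
      Bool.false_eq_true] at h1 h3 ⊢ <;> omega

lemma wI_nonneg (V : ℕ) : ∀ (τ : List Item) (s : ℕ), 0 ≤ wI V s τ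
  | [], _ => zero_le_one
  | _ :: τ, _ => mul_nonneg (mul_nonneg (WN.zt_nonneg _ _ _) (WN.wC_nonneg _ _)) (wI_nonneg V τ _)

def fx (τ : List Item) : List Item := if lP τ % 2 = 0 then (true, 1, 1, []) :: τ else τ

lemma fx_w (V : ℕ) (τ : List Item) : 2 / 9 * wI V 0 τ ≤ wI V 0 (fx τ) := by
  have h0 := wI_nonneg V τ 0
  unfold fx
  split_ifs
  · have : 2 / 9 ≤ zt 0 V 2 := by
      refine le_trans (le_of_eq ?_) (single_le_sum (a := 0) (fun v _ => ?_) (by simp))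
      · simp [coeff_zero_Zl]
      · have := coeff_Zl_nonneg 2 v
        positivity
    simpa [wI, ownL, othL, lo] using mul_le_mul_of_nonneg_right this h0
  · linarith

end Z2

open Z2 in
theorem second_moment : ∃ (C : ℕ) (lam c : ℝ), 1 < lam ∧ 0 < c ∧ ∀ n : ℕ, 1 ≤ n →
    c * lam ^ n / (n : ℝ) ^ 6 ≤ ∑ k ∈ Icc 1 (C * n), ∑ k' ∈ Icc 1 (C * n),
      ∑ v ∈ range (C * n ^ 2 + 1), (2 / 9 : ℝ) ^ (k + k') * (1 / 12) ^ v / GG v *
        ∑ e ∈ VS (K0 v), (open Classical in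
          (((VS (K1 v k)).filter fun a => Rz a e).card *
            ((VS (K1 v k')).filter fun a => Rz a e).card : ℝ)) := by
  classical
  obtain ⟨P, B, N, V, lam, c, -, hl, hc, hW⟩ := W_bound
  obtain ⟨C0, h0⟩ := vol_half
  obtain ⟨c0, c0p, h1⟩ := zl_lower
  refine ⟨P + N * B + 1 + (2 + N) * V + 2 * (C0 * (P + 2) ^ 2), lam, (c0 / (P + 2) ^ 3 / 2) ^ 2 * c,
    hl, by positivity, fun n hn => ?_⟩
  set V' := C0 * ((P + 2) * n) ^ 2 with hV'
  have low : ∀ l, l % 2 = 1 → l ≤ n * P + 1 → c0 / (P + 2) ^ 3 / 2 / n ^ 3 ≤ zt 0 V' (l + 1) := by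
    intro l l1 l2
    have l3 : l + 1 ≤ (P + 2) * n := by nlinarith
    have l4 : ((l + 1 : ℕ) : ℝ) ≤ (P + 2) * n := by exact_mod_cast l3
    calc _ = c0 / ((P + 2) * n) ^ 3 / 2 := by field_simp
      _ ≤ c0 / ((l + 1 : ℕ) : ℝ) ^ 3 / 2 := by gcongr
      _ ≤ zl (l + 1) / 2 := by gcongr; exact h1 _ (Nat.even_iff.2 (by omega)) (by omega)
      _ ≤ _ := (h0 _).trans (sum_le_sum_of_subset_of_nonneg (fun v hv => ?_) fun v _ _ => ?_)
    · have := Nat.mul_le_mul_left C0 (Nat.pow_le_pow_left l3 2)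
      simp only [mem_range, mem_Icc] at hv ⊢
      omega
    · have := coeff_Zl_nonneg (l + 1) v
      positivity
  set T := (Its P B N n none).filter fun τ => wI V 0 τ ≠ 0
  have hF := fun τ (hτ : τ ∈ T) => Its_facts P B N n none τ (mem_filter.1 hτ).1
  have key := main_ineq (T.image fx) V V'
    ((P + N * B + 1 + (2 + N) * V + 2 * (C0 * (P + 2) ^ 2)) * n)
    ((P + N * B + 1 + (2 + N) * V + 2 * (C0 * (P + 2) ^ 2)) * n ^ 2) fun τ hτ => by
      obtain ⟨τ, h, rfl⟩ := mem_image.1 hτ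
      obtain ⟨b1, b2, b3, b4, b5, -⟩ := hF τ h
      have e : OkI none (fx τ) ∧ fx τ ≠ [] ∧ l1 (fx τ) ≤ l1 τ + 1 ∧ l2 (fx τ) ≤ l2 τ + 1 ∧
          nh (fx τ) ≤ nh τ + 1 := by
        unfold fx
        split_ifs
        · exact ⟨⟨Or.inl rfl, le_rfl, le_rfl, by simp, b1⟩, by simp, by simp [l1, add_comm],
            by simp [l2, add_comm], by simp [nh, add_comm]⟩
        · exact ⟨b1, List.length_pos_iff.1 (by omega), by omega, by omega, by omega⟩
      have n2 : n ≤ n ^ 2 := Nat.le_self_pow two_ne_zero n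
      have n3 : nh (fx τ) * V ≤ (2 + N) * V * n ^ 2 := by
        calc _ ≤ (2 + N) * n ^ 2 * V := Nat.mul_le_mul_right _ (by nlinarith [e.2.2.2.2])
          _ = _ := by ring
      refine ⟨e.1, e.2.1, by nlinarith [e.2.2.1, Nat.zero_le (((2 + N) * V + 2 * (C0 * (P + 2) ^ 2)) * n)],
        by nlinarith [e.2.2.2.1, Nat.zero_le (((2 + N) * V + 2 * (C0 * (P + 2) ^ 2)) * n)], ?_⟩
      rw [hV']
      nlinarith [Nat.zero_le ((P + N * B + 1) * n ^ 2)]
  rw [sum_image fun a ha b hb e => by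
    have := (hF a ha).2.1
    have := (hF b hb).2.1
    have e' := congrArg List.length e
    unfold fx at e e'
    split_ifs at e e'
    exacts [(List.cons.inj e).2, by simp at e'; omega, by simp at e'; omega, e]] at key
  have h2 : ∑ τ ∈ T, (c0 / (P + 2) ^ 3 / 2 / n ^ 3) ^ 2 * (2 / 9 * wI V 0 τ) ≤ ∑ τ ∈ T, WT V V' (fx τ) :=
    sum_le_sum fun τ hτ => by
      obtain ⟨b1, -, -, -, -, b6, b7⟩ := hF τ hτ
      have p := par V τ none 0 b1 (fun _ => rfl) (mem_filter.1 hτ).2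
      have e : lP (fx τ) % 2 = 1 ∧ lQ (fx τ) % 2 = 1 ∧ lP (fx τ) ≤ n * P + 1 ∧ lQ (fx τ) ≤ n * P + 1 := by
        unfold fx
        split_ifs
        · simp only [lP, lQ, List.map_cons, List.sum_cons, if_true] at *
          omega
        · omega
      have := wI_nonneg V τ 0
      rw [WT, pow_two, mul_assoc]
      exact mul_le_mul (low _ e.1 e.2.2.1) (mul_le_mul (low _ e.2.1 e.2.2.2) (fx_w V τ)
        (by positivity) (WN.zt_nonneg _ _ _)) (by positivity) (WN.zt_nonneg _ _ _)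
  rw [← mul_sum, ← mul_sum, sum_filter_ne_zero] at h2
  have h3 := hW n
  have h4 : (c0 / (P + 2) ^ 3 / 2) ^ 2 * c * lam ^ n / (n : ℝ) ^ 6 =
      (c0 / (P + 2) ^ 3 / 2 / n ^ 3) ^ 2 * (c * lam ^ n) := by field_simp
  have h5 := mul_le_mul_of_nonneg_left h3 (sq_nonneg (c0 / (P + 2) ^ 3 / 2 / n ^ 3))
  change _ ≤ RH _ _
  linarith

end Pool.Agent.Lib.MP_abd955_pr
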