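import Pool.Agent.Lib.MP_abd955_pr.Cnt

/-! Components, the genus inequality, configurations. -/

namespace Pool.Agent.Lib.MP_abd955_pr

open Equiv Equiv.Perm Finset

set_option linter.unusedSectionVars false

variable {D : Type} [DecidableEq D] [Fintype D]

/-- connected components -/
def conn (a f : Perm D) : Setoid D := Relation.EqvGen.setoid fun x y => y = a x ∨ y = f x

lemma conn_a (a f : Perm D) (x : D) : conn a f x (a x) := Relation.EqvGen.rel _ _ (Or.inl rfl)
lemma conn_f (a f : Perm D) (x : D) : conn a f x (f x) := Relation.EqvGen.rel _ _ (Or.inr rfl)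

lemma conn_le {a f : Perm D} {E : Type} (r : Setoid E) (φ : D → E) (ha : ∀ z, r (φ z) (φ (a z)))
    (hf : ∀ z, r (φ z) (φ (f z))) {x y : D} (e : conn a f x y) : r (φ x) (φ y) := by
  induction e with
  | rel x y h => rcases h with rfl | rfl; exacts [ha x, hf x]
  | refl x => exact r.refl _
  | symm x y _ ih => exact r.symm ih
  | trans x y z _ _ i1 i2 => exact r.trans i1 i2

lemma conn_pred {a f : Perm D} (P : D → Prop) (ha : ∀ z, P z ↔ P (a z)) (hf : ∀ z, P z ↔ P (f z))
    {x y : D} (e : conn a f x y) : P x ↔ P y :=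
  conn_le (⟨fun p q : Prop => p ↔ q, ⟨fun _ => Iff.rfl, Iff.symm, Iff.trans⟩⟩ : Setoid Prop) P ha hf e

lemma mem_iff_of_maps {π : Perm D} {U : Finset D} (h : ∀ z ∈ U, π z ∈ U) (z : D) :
    z ∈ U ↔ π z ∈ U := ⟨h z, fun hz => sc_mem h hz (sc_step π z).symm⟩

lemma conn_mem {a f : Perm D} {U : Finset D} (ha : ∀ z ∈ U, a z ∈ U) (hf : ∀ z ∈ U, f z ∈ U)
    {x y : D} (hx : x ∈ U) (e : conn a f x y) : y ∈ U :=
  (conn_pred (· ∈ U) (mem_iff_of_maps ha) (mem_iff_of_maps hf) e).1 hx

lemma conn_of_on {a f : Perm D} {E : Type} (r : Setoid E) (φ : D → E) {U : Finset D}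
    (hUa : ∀ z ∈ U, a z ∈ U) (hUf : ∀ z ∈ U, f z ∈ U) (ha : ∀ z ∈ U, r (φ z) (φ (a z)))
    (hf : ∀ z ∈ U, r (φ z) (φ (f z))) {x y : D} (hx : x ∈ U) (e : conn a f x y) :
    r (φ x) (φ y) := by
  refine ((conn_pred (fun z => z ∈ U ∧ r (φ x) (φ z)) (fun z => ?_) (fun z => ?_) e).1
    ⟨hx, r.refl _⟩).2
  · rw [← mem_iff_of_maps hUa]
    exact and_congr_right fun hz => ⟨fun h => r.trans h (ha z hz), fun h => r.trans h (r.symm (ha z hz))⟩
  · rw [← mem_iff_of_maps hUf]
    exact and_congr_right fun hz => ⟨fun h => r.trans h (hf z hz), fun h => r.trans h (r.symm (hf z hz))⟩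

lemma conn_congr {a f a' f' : Perm D} {U : Finset D} (hUa : ∀ z ∈ U, a z ∈ U)
    (hUf : ∀ z ∈ U, f z ∈ U) (ha : ∀ z ∈ U, a' z = a z) (hf : ∀ z ∈ U, f' z = f z) {x y : D}
    (hx : x ∈ U) : conn a' f' x y ↔ conn a f x y :=
  ⟨conn_of_on (conn a f) id (fun z hz => ha z hz ▸ hUa z hz) (fun z hz => hf z hz ▸ hUf z hz)
      (fun z hz => by rw [ha z hz]; exact conn_a a f z)
      (fun z hz => by rw [hf z hz]; exact conn_f a f z) hx,
    conn_of_on (conn a' f') id hUa hUf (fun z hz => by rw [← ha z hz]; exact conn_a a' f' z)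
      (fun z hz => by rw [← hf z hz]; exact conn_f a' f' z) hx⟩

lemma conn_of_scf {a f : Perm D} {x y : D} (e : f.SameCycle x y) : conn a f x y :=
  sc_le _ (conn_f a f) e

lemma conn_of_sc {a f : Perm D} {x y : D} (e : (f * a).SameCycle x y) : conn a f x y :=
  sc_le _ (fun z => (conn a f).trans (conn_a a f z) (conn_f a f _)) e

/-- merging two classes -/
def joinS (r : Setoid D) (u v : D) : Setoid D where
  r x y := r x y ∨ (r x u ∧ r v y) ∨ (r x v ∧ r u y)
  iseqv := ⟨fun x => Or.inl (r.refl x), by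
    rintro x y (e | ⟨e, e'⟩ | ⟨e, e'⟩)
    · exact Or.inl (r.symm e)
    · exact Or.inr (Or.inr ⟨r.symm e', r.symm e⟩)
    · exact Or.inr (Or.inl ⟨r.symm e', r.symm e⟩), by
    rintro x y z (e | ⟨e, e'⟩ | ⟨e, e'⟩) (d | ⟨d, d'⟩ | ⟨d, d'⟩)
    · exact Or.inl (r.trans e d)
    · exact Or.inr (Or.inl ⟨r.trans e d, d'⟩)
    · exact Or.inr (Or.inr ⟨r.trans e d, d'⟩)
    · exact Or.inr (Or.inl ⟨e, r.trans e' d⟩)
    · exact Or.inr (Or.inl ⟨e, d'⟩)
    · exact Or.inl (r.trans e d')
    · exact Or.inr (Or.inr ⟨e, r.trans e' d⟩)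
    · exact Or.inl (r.trans e d')
    · exact Or.inr (Or.inr ⟨e, d'⟩)⟩

theorem genus (f : Perm D) (U : Finset D) (hf : ∀ z ∈ U, f z ∈ U) (n : ℕ) :
    ∀ a : Perm D, (∀ z ∈ U, a z ∈ U ∧ a (a z) = z) → (U.filter fun z => a z ≠ z).card = n →
      2 * cnt (sc (f * a)) U + 2 * cnt (sc f) U ≤ n + 4 * cnt (conn a f) U := by
  induction n using Nat.strong_induction_on with
  | _ n ih =>
  intro a ha hn
  by_cases h0 : ∃ x ∈ U, a x ≠ x
  · obtain ⟨x, hx, hne⟩ := h0
    set y := a x with hy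
    have hyU : y ∈ U := (ha x hx).1
    have hay : a y = x := (ha x hx).2
    set a' := a * swap x y with ha'
    have a1 : a' x = x := by simp [ha', hay]
    have a2 : a' y = y := by simp [ha', hy]
    have a3 : ∀ z, z ≠ x → z ≠ y → a' z = a z := fun z h1 h2 => by
      simp [ha', swap_apply_of_ne_of_ne h1 h2]
    have hinv : ∀ z ∈ U, a' z ∈ U ∧ a' (a' z) = z := by
      intro z hz
      by_cases h1 : z = x
      · rw [h1, a1, a1]; exact ⟨hx, rfl⟩
      by_cases h2 : z = y
      · rw [h2, a2, a2]; exact ⟨hyU, rfl⟩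
      rw [a3 z h1 h2, a3 _ (fun e => h2 (a.injective (e.trans hay.symm)))
        (fun e => h1 (a.injective e))]
      exact ha z hz
    have hcard : (U.filter fun z => a' z ≠ z).card + 2 = n := by
      have : U.filter (fun z => a z ≠ z) = insert x (insert y (U.filter fun z => a' z ≠ z)) := by
        ext z
        simp only [mem_filter, mem_insert]
        by_cases h1 : z = x
        · simp [h1, hx, ← hy, hne]
        by_cases h2 : z = y
        · simp [h2, hyU, hay, hne.symm]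
        simp [h1, h2, a3 z h1 h2]
      rw [← hn, this, card_insert_of_notMem, card_insert_of_notMem]
      · simp [a2]
      · simp [a1, hne.symm]
    have h1 := ih _ (by omega) a' hinv rfl
    have hσ : f * a = swap (f x) (f y) * (f * a') := by
      have : swap (f x) (f y) * f = f * swap x y := by
        rw [swap_apply_apply, inv_mul_cancel_right]
      have h2 : a * swap x y = swap x y * a := by
        rw [mul_swap_eq_swap_mul, ← hy, hay, swap_comm]
      rw [← mul_assoc, this, mul_assoc, ha', h2, ← mul_assoc (swap x y), swap_mul_self, one_mul]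
    have hj : IsJoin (conn a' f) (conn a f) x y := by
      have hle : ∀ {p q}, conn a' f p q → conn a f p q := by
        intro p q e
        refine conn_le (conn a f) id (fun z => ?_) (conn_f a f) e
        by_cases h1 : z = x
        · rw [h1, a1]
        by_cases h2 : z = y
        · rw [h2, a2]
        rw [a3 z h1 h2]; exact conn_a a f z
      intro p q
      constructor
      · intro e
        refine conn_le (joinS (conn a' f) x y) id (fun z => ?_)
          (fun z => Or.inl (conn_f a' f z)) e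
        by_cases h1 : z = x
        · rw [h1]; exact Or.inr (Or.inl ⟨(conn a' f).refl _, (conn a' f).refl _⟩)
        by_cases h2 : z = y
        · rw [h2, hay]; exact Or.inr (Or.inr ⟨(conn a' f).refl _, (conn a' f).refl _⟩)
        rw [← a3 z h1 h2]; exact Or.inl (conn_a a' f z)
      · have e0 : conn a f x y := conn_a a f x
        rintro (e | ⟨e, e'⟩ | ⟨e, e'⟩)
        · exact hle e
        · exact (conn a f).trans ((conn a f).trans (hle e) e0) (hle e')
        · exact (conn a f).trans ((conn a f).trans (hle e) ((conn a f).symm e0)) (hle e')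
    have hfxy : f x ≠ f y := fun e => hne (f.injective e).symm
    by_cases hc : conn a' f x y
    · have h2 : cnt (conn a' f) U ≤ cnt (conn a f) U := by
        refine cnt_anti fun p _ q _ e => ?_
        rcases (hj p q).1 e with e | ⟨e, e'⟩ | ⟨e, e'⟩
        · exact e
        · exact (conn a' f).trans ((conn a' f).trans e hc) e'
        · exact (conn a' f).trans ((conn a' f).trans e ((conn a' f).symm hc)) e'
      rw [hσ]
      by_cases h3 : (f * a').SameCycle (f x) (f y)
      · have := cnt_swap_split (hf x hx) (hf y hyU) hfxy h3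
        omega
      · have := cnt_swap_join (hf x hx) (hf y hyU) h3
        omega
    · have h2 := cnt_join hx hyU hc hj
      have h3 : ¬(f * a').SameCycle (f x) (f y) := fun e => hc ((conn a' f).trans
        ((conn a' f).trans (conn_f a' f x) (conn_of_sc e)) ((conn a' f).symm (conn_f a' f y)))
      have := cnt_swap_join (hf x hx) (hf y hyU) h3
      rw [hσ]
      omega
  · push Not at h0
    have h1 : cnt (sc (f * a)) U = cnt (sc f) U :=
      cnt_congr fun x hx y _ => sc_congr hf (fun z hz => by simp [h0 z hz]) hx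
    have h2 : cnt (sc f) U ≤ cnt (conn a f) U :=
      cnt_anti fun x hx y _ e => conn_of_on (sc f) id (fun z hz => (ha z hz).1) hf
        (fun z hz => by rw [h0 z hz]) (fun z _ => sc_step f z) hx e
    omega

lemma cnt_four (f : Perm D) (n : ℕ) : ∀ W : Finset D, W.card = n → (∀ z ∈ W, f z ∈ W) →
    (∀ z ∈ W, f (f (f (f z))) = z ∧ f (f z) ≠ z) → 4 * cnt (sc f) W = W.card := by
  induction n using Nat.strong_induction_on with
  | _ n ih =>
  intro W hn hW h4
  rcases W.eq_empty_or_nonempty with rfl | ⟨x, hx⟩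
  · simp [cnt_empty]
  obtain ⟨e4, e2⟩ := h4 x hx
  have e1 : f x ≠ x := fun e => e2 (by rw [e, e])
  have e3 : f (f (f x)) ≠ x := fun e => e1 (by rw [e] at e4; exact e4)
  set O : Finset D := {x, f x, f (f x), f (f (f x))} with hO
  have hOc : O.card = 4 := by
    rw [hO, card_insert_of_notMem, card_insert_of_notMem, card_pair]
    · exact fun e => e1 (f.injective (f.injective e)).symm
    · simp [e1.symm, e2.symm]
    · simp [e1.symm, e2.symm, e3.symm]
  have hOf : ∀ z ∈ O, f z ∈ O := by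
    intro z hz
    simp only [hO, mem_insert, mem_singleton] at hz ⊢
    rcases hz with rfl | rfl | rfl | rfl <;> simp [e4]
  have hOW : O ⊆ W := by
    intro z hz
    simp only [hO, mem_insert, mem_singleton] at hz
    rcases hz with rfl | rfl | rfl | rfl
    exacts [hx, hW _ hx, hW _ (hW _ hx), hW _ (hW _ (hW _ hx))]
  have h1 := ih (W \ O).card (by rw [card_sdiff_of_subset hOW]; have := card_le_card hOW; omega)
    (W \ O) rfl (fun z hz => mem_sdiff.2 ⟨hW z (mem_sdiff.1 hz).1, fun h =>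
      (mem_sdiff.1 hz).2 ((mem_iff_of_maps hOf z).2 h)⟩) fun z hz => h4 z (mem_sdiff.1 hz).1
  have h2 : cnt (sc f) W = cnt (sc f) (insert x (W \ O)) := by
    refine cnt_eq_of (insert_subset hx sdiff_subset) fun z hz => ?_
    by_cases h : z ∈ O
    · refine ⟨x, mem_insert_self _ _, ?_⟩
      simp only [hO, mem_insert, mem_singleton] at h
      have s1 := sc_step f x
      have s2 := s1.trans (sc_step f _)
      have s3 := s2.trans (sc_step f _)
      rcases h with rfl | rfl | rfl | rfl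
      exacts [(sc f).refl _, s1.symm, s2.symm, s3.symm]
    · exact ⟨z, mem_insert_of_mem (mem_sdiff.2 ⟨hz, h⟩), (sc f).refl _⟩
  rw [cnt_insert (U := W \ O) fun z hz e =>
    (mem_sdiff.1 hz).2 (sc_mem hOf (by simp [hO]) (SameCycle.symm e))] at h2
  rw [card_sdiff_of_subset hOW] at h1
  have := card_le_card hOW
  omega

/-- active darts U, boundary darts X, face permutation f -/
structure Cfg (D : Type) where
  U : Finset D
  X : Finset D
  f : Perm D

structure WF (K : Cfg D) : Prop where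
  sub : K.X ⊆ K.U
  fU : ∀ x ∈ K.U, K.f x ∈ K.U
  fX : ∀ x ∈ K.X, K.f x ∈ K.X
  four : ∀ x ∈ K.U, x ∉ K.X → K.f (K.f (K.f (K.f x))) = x ∧ K.f (K.f x) ≠ x

structure Pre (K : Cfg D) (Y : Finset D) (a : Perm D) : Prop where
  inv : ∀ x ∈ K.U, a x ∈ K.U ∧ a (a x) = x ∧ a x ≠ x
  simp : ∀ x ∈ Y, ∀ y ∈ Y, (K.f * a).SameCycle x y → x = y
  con : ∀ u ∈ K.U, ∃ x ∈ K.X, conn a K.f u x
  eul : 2 * cnt (sc (K.f * a)) K.U = 2 * cnt (sc K.f) K.U + K.X.card

lemma WF.fI {K : Cfg D} (h : WF K) {x : D} (hx : x ∈ K.U \ K.X) : K.f x ∈ K.U \ K.X :=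
  mem_sdiff.2 ⟨h.fU x (mem_sdiff.1 hx).1, fun e => (mem_sdiff.1 hx).2 ((mem_iff_of_maps h.fX x).2 e)⟩

lemma WF.faces {K : Cfg D} (h : WF K) :
    4 * cnt (sc K.f) K.U + K.X.card = K.U.card + 4 * cnt (sc K.f) K.X := by
  have h1 := cnt_four K.f _ (K.U \ K.X) rfl (fun z hz => h.fI hz)
    fun z hz => h.four z (mem_sdiff.1 hz).1 (mem_sdiff.1 hz).2
  have h2 : cnt (sc K.f) (K.X ∪ K.U \ K.X) = cnt (sc K.f) K.X + cnt (sc K.f) (K.U \ K.X) :=
    cnt_union fun x hx y hy e => (mem_sdiff.1 hy).2 (sc_mem h.fX hx e)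
  rw [union_sdiff_of_subset h.sub] at h2
  rw [card_sdiff_of_subset h.sub] at h1
  have := card_le_card h.sub
  omega

lemma genus' {K : Cfg D} (h : WF K) {a : Perm D}
    (hi : ∀ x ∈ K.U, a x ∈ K.U ∧ a (a x) = x ∧ a x ≠ x)
    (hc : ∀ u ∈ K.U, ∃ x ∈ K.X, conn a K.f u x) :
    2 * cnt (sc (K.f * a)) K.U + 4 * cnt (sc K.f) K.X ≤
      2 * cnt (sc K.f) K.U + K.X.card + 4 * cnt (conn a K.f) K.X := by
  have h1 := genus K.f K.U h.fU _ a (fun z hz => ⟨(hi z hz).1, (hi z hz).2.1⟩) rfl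
  rw [filter_true_of_mem fun z hz => (hi z hz).2.2, cnt_eq_of h.sub hc] at h1
  have := h.faces
  omega

lemma eul_le {K : Cfg D} (h : WF K) {a : Perm D}
    (hi : ∀ x ∈ K.U, a x ∈ K.U ∧ a (a x) = x ∧ a x ≠ x)
    (hc : ∀ u ∈ K.U, ∃ x ∈ K.X, conn a K.f u x) :
    2 * cnt (sc (K.f * a)) K.U ≤ 2 * cnt (sc K.f) K.U + K.X.card := by
  have h1 := genus' h hi hc
  have h2 : cnt (conn a K.f) K.X ≤ cnt (sc K.f) K.X := cnt_anti fun _ _ _ _ e => conn_of_scf e
  omega

/-- different holes lie in different components -/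
lemma Pre.hole {K : Cfg D} (h : WF K) {Y : Finset D} {a : Perm D} (hp : Pre K Y a) {x y : D}
    (hx : x ∈ K.X) (hy : y ∈ K.X) (e : conn a K.f x y) : K.f.SameCycle x y := by
  have h1 := genus' h hp.inv hp.con
  have h2 := hp.eul
  exact rel_of_cnt_le (r := sc K.f) (r' := conn a K.f) (fun _ _ _ _ e => conn_of_scf e)
    (by omega) hx hy e

lemma Pre.aU {K : Cfg D} {Y : Finset D} {a : Perm D} (hp : Pre K Y a) :
    ∀ x ∈ K.U, a x ∈ K.U := fun x hx => (hp.inv x hx).1

lemma Pre.congr {K : Cfg D} (h : WF K) {Y : Finset D} (hY : Y ⊆ K.U) {a a' : Perm D}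
    (hp : Pre K Y a) (e : ∀ x ∈ K.U, a' x = a x) : Pre K Y a' := by
  have hσ : ∀ z ∈ K.U, (K.f * a) z ∈ K.U := fun z hz => h.fU _ (hp.aU z hz)
  have hσ' : ∀ z ∈ K.U, (K.f * a') z = (K.f * a) z := fun z hz => by simp [e z hz]
  refine ⟨fun x hx => ?_, fun x hx y hy s => hp.simp x hx y hy ((sc_congr hσ hσ' (hY hx)).1 s),
    fun u hu => ?_, ?_⟩
  · rw [e x hx, e _ (hp.aU x hx)]; exact hp.inv x hx
  · obtain ⟨x, hx, c⟩ := hp.con u hu
    exact ⟨x, hx, (conn_congr hp.aU h.fU e (fun _ _ => rfl) hu).2 c⟩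
  · rw [← hp.eul, cnt_congr (r := sc (K.f * a')) (r' := sc (K.f * a))
      fun x hx y _ => sc_congr hσ hσ' hx]

end Pool.Agent.Lib.MP_abd955_pr
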