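import Pool.Agent.Lib.MP_abd955_pr.CoreDefs

/-! Balls of words, locality of the test property. -/

namespace Pool.Agent.Lib.MP_abd955_pr

open Equiv Equiv.Perm Finset

lemma act_trueL {D : Type} (b f : Perm D) : act b f (FreeGroup.of true) = b := by simp [act]
lemma act_falseL {D : Type} (b f : Perm D) : act b f (FreeGroup.of false) = f := by simp [act]

theorem Near.refl {D : Type} (b f : Perm D) (n : ℕ) (x : D) : Near b f n x x :=
  ⟨1, by simp, by simp⟩

theorem Near.mono {D : Type} {b f : Perm D} {n m : ℕ} {x y : D} (h : Near b f n x y) (e : n ≤ m) :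
    Near b f m x y := by
  obtain ⟨w, h1, h2⟩ := h
  exact ⟨w, h1.trans e, h2⟩

theorem Near.symm {D : Type} {b f : Perm D} {n : ℕ} {x y : D} (h : Near b f n x y) :
    Near b f n y x := by
  obtain ⟨w, h1, rfl⟩ := h
  exact ⟨w⁻¹, by rwa [FreeGroup.norm_inv_eq], by simp⟩

theorem Near.trans {D : Type} {b f : Perm D} {n m : ℕ} {x y z : D} (h : Near b f n x y)
    (h' : Near b f m y z) : Near b f (n + m) x z := by
  obtain ⟨w, h1, rfl⟩ := h
  obtain ⟨w', h2, rfl⟩ := h'
  refine ⟨w' * w, (FreeGroup.norm_mul_le _ _).trans (by omega), by simp⟩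

theorem near_zero {D : Type} {b f : Perm D} {x y : D} : Near b f 0 x y ↔ x = y := by
  constructor
  · rintro ⟨w, h1, rfl⟩
    rw [Nat.le_zero, FreeGroup.norm_eq_zero] at h1
    simp [h1]
  · rintro rfl
    exact Near.refl _ _ _ _

lemma near_b {D : Type} (b f : Perm D) (y : D) : Near b f 1 y (b y) :=
  ⟨FreeGroup.of true, by simp, by rw [act_trueL]⟩

lemma near_f {D : Type} (b f : Perm D) (y : D) : Near b f 1 y (f y) :=
  ⟨FreeGroup.of false, by simp, by rw [act_falseL]⟩

lemma near_bi {D : Type} (b f : Perm D) (y : D) : Near b f 1 y (b⁻¹ y) := by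
  have := (near_b b f (b⁻¹ y)).symm
  simpa using this

lemma near_fi {D : Type} (b f : Perm D) (y : D) : Near b f 1 y (f⁻¹ y) := by
  have := (near_f b f (f⁻¹ y)).symm
  simpa using this

theorem near_succ {D : Type} {b f : Perm D} {n : ℕ} {x z : D} : Near b f (n + 1) x z ↔
    Near b f n x z ∨ ∃ y, Near b f n x y ∧ (z = b y ∨ z = b⁻¹ y ∨ z = f y ∨ z = f⁻¹ y) := by
  constructor
  · rintro ⟨w, h1, rfl⟩
    have h2 : FreeGroup.mk w.toWord = w := FreeGroup.mk_toWord
    have h3 : w.norm = w.toWord.length := rfl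
    cases hw : w.toWord with
    | nil =>
      left
      exact ⟨w, by rw [h3, hw]; simp, rfl⟩
    | cons s L =>
      right
      rw [hw] at h2 h3
      have h4 : w = FreeGroup.mk [s] * FreeGroup.mk L := by rw [← h2, FreeGroup.mul_mk]; rfl
      refine ⟨act b f (FreeGroup.mk L) x, ⟨FreeGroup.mk L, ?_, rfl⟩, ?_⟩
      · have := FreeGroup.norm_mk_le (L₁ := L)
        simp only [List.length_cons] at h3
        omega
      · rw [h4, map_mul, mul_apply]
        obtain ⟨s1, s2⟩ := s
        have e1 : FreeGroup.mk [(s1, true)] = FreeGroup.of s1 := rfl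
        have e2 : FreeGroup.mk [(s1, false)] = (FreeGroup.of s1)⁻¹ := rfl
        cases s2
        · rw [e2, map_inv]
          cases s1
          · rw [act_falseL]; simp
          · rw [act_trueL]; simp
        · rw [e1]
          cases s1
          · rw [act_falseL]; simp
          · rw [act_trueL]; simp
  · rintro (h | ⟨y, h, rfl | rfl | rfl | rfl⟩)
    · exact h.mono (by omega)
    · exact h.trans (near_b b f y)
    · exact h.trans (near_bi b f y)
    · exact h.trans (near_f b f y)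
    · exact h.trans (near_fi b f y)

/-- features have small diameter -/
theorem emb_near {D : Type} {v : ℕ} {e : Perm (E0 v)} (he : e ∈ VS (K0 v)) {b f : Perm D}
    {ι : E0 v → D} (h : Emb e b f ι) (u) : ∃ c, Near b f (4 * v + 2) (ι (.inr c)) (ι u) := by
  classical
  have hp : Pre (K0 v) (K0 v).X e := by
    have := he
    unfold VS at this
    exact (mem_filter.1 this).2.1
  set S : ℕ → Finset (E0 v) := fun n => univ.filter fun u => ∃ c, Near b f n (ι (.inr c)) (ι u)
    with hS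
  have mS : ∀ n u, u ∈ S n ↔ ∃ c, Near b f n (ι (.inr c)) (ι u) := fun n u => by simp [hS]
  have h0 : ∀ n c, Sum.inr c ∈ S n := fun n c => (mS _ _).2 ⟨c, Near.refl _ _ _ _⟩
  have h1 : ∀ n, S n ⊆ S (n + 1) := fun n u hu => by
    obtain ⟨c, hc⟩ := (mS _ _).1 hu
    exact (mS _ _).2 ⟨c, hc.mono (by omega)⟩
  have h2 : ∀ n, ∀ u ∈ S n, e u ∈ S (n + 1) := fun n u hu => by
    obtain ⟨c, hc⟩ := (mS _ _).1 hu
    refine (mS _ _).2 ⟨c, ?_⟩
    rw [← h.mb]
    exact hc.trans (near_b b f _)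
  have h3 : ∀ n, ∀ u ∈ S n, (K0 v).f u ∈ S (n + 1) := fun n u hu => by
    obtain ⟨c, hc⟩ := (mS _ _).1 hu
    rcases u with u | c'
    · refine (mS _ _).2 ⟨c, ?_⟩
      have : (K0 v).f (.inl u) = .inl (sq v u) := rfl
      rw [this, ← h.mf]
      exact hc.trans (near_f b f _)
    · exact h0 _ _
  have h4 : ∀ n, S (n + 1) ⊆ S n → S n = univ := fun n hn => by
    refine eq_univ_of_forall fun u => ?_
    obtain ⟨x, hx, c⟩ := hp.con u (mem_univ _)
    refine conn_mem (fun z hz => hn (h2 n z hz)) (fun z hz => hn (h3 n z hz)) ?_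
      ((conn e (K0 v).f).symm c)
    simp only [K0, mem_insert, mem_singleton] at hx
    rcases hx with rfl | rfl <;> exact h0 _ _
  have h5 : ∀ n, S n = univ ∨ n ≤ (S n).card := fun n => by
    induction n with
    | zero => right; omega
    | succ n ih =>
      by_cases hn : S (n + 1) ⊆ S n
      · left
        exact eq_univ_of_forall fun u => h1 n (by rw [h4 n hn]; exact mem_univ _)
      · rcases ih with ih | ih
        · exact absurd (by rw [ih]; exact subset_univ _) hn
        · right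
          have := card_lt_card (LE.le.ssubset_of_not_superset (h1 n) hn)
          omega
  have h6 : S (4 * v + 2) = univ := by
    rcases h5 (4 * v + 2) with h6 | h6
    · exact h6
    · refine eq_univ_of_card _ (le_antisymm (card_le_univ _) ?_)
      simp only [Fintype.card_sum, Fintype.card_prod, Fintype.card_fin, Fintype.card_bool]
      omega
  exact (mS _ _).1 (by rw [h6]; exact mem_univ _)

section
variable {D D' : Type} {b f : Perm D} {x : D} {b' f' : Perm D'} {x' : D'}

/-- reached by the same word -/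
def Rl (b f : Perm D) (x : D) (b' f' : Perm D') (x' : D') (n : ℕ) (y : D) (y' : D') : Prop :=
  ∃ w : Wd, w.norm ≤ n ∧ act b f w x = y ∧ act b' f' w x' = y'

/-- the same closed words up to length n -/
def Same (b f : Perm D) (x : D) (b' f' : Perm D') (x' : D') (n : ℕ) : Prop :=
  ∀ w : Wd, w.norm ≤ n → (act b f w x = x ↔ act b' f' w x' = x')

lemma Same.symm {n : ℕ} (h : Same b f x b' f' x' n) : Same b' f' x' b f x n :=
  fun w hw => (h w hw).symm

lemma Rl.symm {n : ℕ} {y : D} {y' : D'} (h : Rl b f x b' f' x' n y y') :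
    Rl b' f' x' b f x n y' y := by
  obtain ⟨w, h1, h2, h3⟩ := h
  exact ⟨w, h1, h3, h2⟩

lemma Rl.mono {n m : ℕ} {y : D} {y' : D'} (h : Rl b f x b' f' x' n y y') (e : n ≤ m) :
    Rl b f x b' f' x' m y y' := by
  obtain ⟨w, h1, h2⟩ := h
  exact ⟨w, h1.trans e, h2⟩

lemma Rl.near {n : ℕ} {y : D} {y' : D'} (h : Rl b f x b' f' x' n y y') : Near b' f' n x' y' := by
  obtain ⟨w, h1, -, h3⟩ := h
  exact ⟨w, h1, h3⟩

lemma Rl.act {n : ℕ} {y : D} {y' : D'} (h : Rl b f x b' f' x' n y y') (w : Wd) :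
    Rl b f x b' f' x' (n + w.norm) (act b f w y) (act b' f' w y') := by
  obtain ⟨w1, h1, rfl, rfl⟩ := h
  exact ⟨w * w1, (FreeGroup.norm_mul_le _ _).trans (by omega), by simp, by simp⟩

lemma Rl.sb {n : ℕ} {y : D} {y' : D'} (h : Rl b f x b' f' x' n y y') :
    Rl b f x b' f' x' (n + 1) (b y) (b' y') := by
  simpa [act_trueL] using h.act (FreeGroup.of true)

lemma Rl.sf {n : ℕ} {y : D} {y' : D'} (h : Rl b f x b' f' x' n y y') :
    Rl b f x b' f' x' (n + 1) (f y) (f' y') := by
  simpa [act_falseL] using h.act (FreeGroup.of false)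

lemma Rl.sg {n : ℕ} {y : D} {y' : D'} (h : Rl b f x b' f' x' n y y') :
    Rl b f x b' f' x' (n + 1) (f⁻¹ y) (f'⁻¹ y') := by
  have := h.act (FreeGroup.of false)⁻¹
  rwa [FreeGroup.norm_inv_eq, FreeGroup.norm_of, map_inv, map_inv, act_falseL, act_falseL] at this

lemma Rl.sp {n : ℕ} {y : D} {y' : D'} (h : Rl b f x b' f' x' n y y') (i : ℕ) :
    Rl b f x b' f' x' (n + i) ((f ^ i) y) ((f' ^ i) y') := by
  induction i with
  | zero => simpa using h
  | succ i ih => rw [pow_succ', pow_succ', mul_apply, mul_apply]; exact ih.sf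

lemma Rl.step {n k : ℕ} {y z : D} {y' : D'} (h : Rl b f x b' f' x' n y y') (hz : Near b f k y z) :
    ∃ z', Rl b f x b' f' x' (n + k) z z' ∧ Near b' f' k y' z' := by
  obtain ⟨w, h1, rfl⟩ := hz
  exact ⟨_, (h.act w).mono (by omega), w, h1, rfl⟩

lemma Near.rl (b' f' : Perm D') (x' : D') {n : ℕ} {y : D} (h : Near b f n x y) :
    ∃ y', Rl b f x b' f' x' n y y' := by
  obtain ⟨w, h1, rfl⟩ := h
  exact ⟨_, w, h1, rfl, rfl⟩

lemma Same.uniq {N n m : ℕ} (s : Same b f x b' f' x' N) {y : D} {y' z' : D'}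
    (h : Rl b f x b' f' x' n y y') (h' : Rl b f x b' f' x' m y z') (e : n + m ≤ N) : y' = z' := by
  obtain ⟨w, h1, h2, rfl⟩ := h
  obtain ⟨w', h3, h4, rfl⟩ := h'
  have h5 := (s (w'⁻¹ * w) ((FreeGroup.norm_mul_le _ _).trans
    (by rw [FreeGroup.norm_inv_eq]; omega))).1 (by
      rw [map_mul, mul_apply, h2, ← h4, map_inv]; simp)
  rw [map_mul, mul_apply, map_inv, inv_eq_iff_eq] at h5
  exact h5

lemma Same.an {N n lo hi : ℕ} (s : Same b f x b' f' x' N) {y : D} {y' : D'}
    (h : Rl b f x b' f' x' n y y') (a : An b f x lo hi y) (e : n + lo + hi ≤ N) :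
    An b' f' x' lo hi y' := by
  constructor
  · obtain ⟨z', hz⟩ := a.1.rl b' f' x'
    rw [s.uniq h hz (by omega)]
    exact hz.near
  · intro hn
    obtain ⟨z, hz⟩ := hn.rl b f x
    apply a.2
    rw [s.symm.uniq h.symm hz (by omega)]
    exact hz.near

lemma Same.feat {F : Fam} {V : ℕ} (hF : FamOk F V) {N n : ℕ} (s : Same b f x b' f' x' N) {y : D}
    {y' : D'} (h : Rl b f x b' f' x' n y y') (a : Feat F b f y) (e : 2 * n + 8 * V + 12 ≤ N) :
    Feat F b' f' y' := by
  obtain ⟨⟨v, e0, he, ι, em, i0, i1, -⟩, a2⟩ := a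
  have hv : v ≤ V := by
    by_contra hv
    rw [hF.big v (by omega)] at he
    exact absurd he (notMem_empty _)
  have r0 : Rl b f x b' f' x' (n + 2) (ι (.inr false)) (f' y') := by
    rw [i0]; exact h.sf.mono (by omega)
  have r1 : Rl b f x b' f' x' (n + 2) (ι (.inr true)) (f'⁻¹ (b' y')) := by
    rw [i1]; exact h.sb.sg
  have ex : ∀ u, ∃ z', Rl b f x b' f' x' (n + 4 * V + 4) (ι u) z' := fun u => by
    obtain ⟨c, hc⟩ := emb_near (hF.val v he) em u
    cases c
    · obtain ⟨z', hz, -⟩ := r0.step hc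
      exact ⟨z', hz.mono (by omega)⟩
    · obtain ⟨z', hz, -⟩ := r1.step hc
      exact ⟨z', hz.mono (by omega)⟩
  choose ι' hι using ex
  refine ⟨⟨v, e0, he, ι', ⟨fun u u' huu => ?_, fun u => ?_, fun u => ?_⟩, ?_, ?_,
    fun _ => Set.mem_univ _⟩, fun i hi hb => ?_⟩
  · apply em.inj
    have := (hι u').symm
    rw [← huu] at this
    exact s.symm.uniq (hι u).symm this (by omega)
  · have := (hι u).sb
    rw [em.mb] at this
    exact s.uniq this (hι _) (by omega)
  · have := (hι (.inl u)).sf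
    rw [em.mf] at this
    exact s.uniq this (hι _) (by omega)
  · exact s.uniq (hι _) r0 (by omega)
  · exact s.uniq (hι _) r1 (by omega)
  · have t1 := h.sb.symm
    have t2 := (h.sp i).symm
    rw [← hb] at t2
    exact a2 i hi (s.symm.uniq t1 t2 (by omega))

end

theorem PP_local {F : Fam} {V : ℕ} (hF : FamOk F V) (r R r' R' ρ : ℕ) :
    ∃ Rb, LocalP Rb (PP F r R r' R' ρ) := by
  refine ⟨3 * (r + R + r' + R' + ρ) + 8 * V + 12, ?_⟩
  intro D D' b f x b' f' x' s0 ⟨⟨y, fy, ay⟩, h2⟩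
  have s : Same b f x b' f' x' (3 * (r + R + r' + R' + ρ) + 8 * V + 12) := s0
  constructor
  · obtain ⟨y', hy⟩ := ay.1.rl b' f' x'
    exact ⟨y', s.feat hF hy fy (by omega), s.an hy ay (by omega)⟩
  · intro y1' y2' f1 a1 f2 a2
    obtain ⟨y1, r1⟩ := a1.1.rl b f x
    obtain ⟨y2, r2⟩ := a2.1.rl b f x
    have ch := h2 y1 y2 (s.symm.feat hF r1 f1 (by omega)) (s.symm.an r1 a1 (by omega))
      (s.symm.feat hF r2 f2 (by omega)) (s.symm.an r2 a2 (by omega))
    have key : ∀ v, Relation.ReflTransGen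
        (fun u v => Feat F b f v ∧ An b f x r' R' v ∧ Near b f ρ u v) y1 v →
        ∃ v', Rl b f x b' f' x' (R + R') v v' ∧ Relation.ReflTransGen
          (fun u v => Feat F b' f' v ∧ An b' f' x' r' R' v ∧ Near b' f' ρ u v) y1' v' := by
      intro v hv
      induction hv with
      | refl => exact ⟨y1', r1.symm.mono (by omega), Relation.ReflTransGen.refl⟩
      | tail _ st ih =>
        obtain ⟨u', ru, cu⟩ := ih
        obtain ⟨g1, g2, g3⟩ := st
        obtain ⟨v', rv⟩ := g2.1.rl b' f' x'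
        obtain ⟨v'', rv', nv⟩ := ru.step g3
        have : v'' = v' := s.uniq rv' rv (by omega)
        subst this
        exact ⟨v'', rv.mono (by omega),
          cu.tail ⟨s.feat hF rv g1 (by omega), s.an rv g2 (by omega), nv⟩⟩
    obtain ⟨v', rv, cv⟩ := key y2 ch
    rw [s.uniq r2.symm rv (by omega)]
    exact cv

end Pool.Agent.Lib.MP_abd955_pr
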