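import Pool.Agent.Lib.MP_abd955_pr.FeatDefs
import Pool.Agent.Lib.MP_abd955_pr.Loc

/-! Distances in the zipped map along an exploration by layers. -/

namespace Pool.Agent.Lib.MP_abd955_pr

open Equiv Equiv.Perm Finset Step

set_option linter.unusedSectionVars false

variable {D : Type} [DecidableEq D] [Fintype D]

/-- global data: faces, exterior darts, mirror, zipped involution, valid gluings, root darts -/
structure Gl (D : Type) where
  f : Perm D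
  X : Set D
  τ : Perm D
  z : Perm D → Perm D
  val : Perm D → Prop
  rt : Set D

structure Gl.Ok (G : Gl D) : Prop where
  fX : ∀ u, G.f u ∈ G.X ↔ u ∈ G.X
  τX : ∀ u ∈ G.X, G.τ u ∈ G.X ∧ G.τ (G.τ u) = u
  rX : G.rt ⊆ G.X
  inv : ∀ a, G.val a → ∀ u, a (a u) = u
  nd : ∀ a, G.val a → ∀ u ∈ G.X, a u ∉ G.X
  zp : ∀ a, G.val a → ∀ u, G.z a u = zipf G.X G.τ a u ∧ G.z a (G.z a u) = u

/-- y is at distance at most n from the partner of a root dart -/
def Gl.Nr (G : Gl D) (a : Perm D) (n : ℕ) (y : D) : Prop := ∃ e ∈ G.rt, Near (G.z a) G.f n (a e) y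

lemma Gl.Nr.mono {G : Gl D} {a : Perm D} {n m : ℕ} {y : D} (h : G.Nr a n y) (e : n ≤ m) :
    G.Nr a m y := h.imp fun _ h => ⟨h.1, h.2.mono e⟩

lemma Gl.Ok.succ {G : Gl D} (h : G.Ok) {a : Perm D} (ha : G.val a) {n : ℕ} {y : D}
    (e : G.Nr a (n + 1) y) :
    G.Nr a n y ∨ ∃ u, G.Nr a n u ∧ (y = G.z a u ∨ y = G.f u ∨ u = G.f y) := by
  obtain ⟨e, he, e1⟩ := e
  rcases near_succ.1 e1 with e2 | ⟨u, e2, e3⟩
  · exact Or.inl ⟨e, he, e2⟩
  refine Or.inr ⟨u, ⟨e, he, e2⟩, ?_⟩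
  rcases e3 with rfl | rfl | rfl | rfl
  · exact Or.inl rfl
  · exact Or.inl (by rw [Perm.inv_eq_iff_eq, (h.zp a ha u).2])
  · exact Or.inr (Or.inl rfl)
  · exact Or.inr (Or.inr (by simp))

lemma Gl.Ok.z_inner {G : Gl D} (h : G.Ok) {a : Perm D} (ha : G.val a) {u : D} (hu : u ∉ G.X) :
    G.z a u ∉ G.X ∧ (a u ∉ G.X ∧ G.z a u = a u ∨ a u ∈ G.X ∧ G.z a u = a (G.τ (a u))) := by
  rw [(h.zp a ha u).1, zipf, if_neg hu]
  split_ifs with e
  exacts [⟨h.nd a ha _ (h.τX _ e).1, Or.inr ⟨e, rfl⟩⟩, ⟨e, Or.inl ⟨e, rfl⟩⟩]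

lemma Gl.Ok.inner {G : Gl D} (h : G.Ok) {a : Perm D} (ha : G.val a) :
    ∀ {n : ℕ} {y : D}, G.Nr a n y → y ∉ G.X
  | 0, _, ⟨e, he, e1⟩ => near_zero.1 e1 ▸ h.nd a ha e (h.rX he)
  | n + 1, y, e => by
    rcases h.succ ha e with e1 | ⟨u, e1, rfl | rfl | rfl⟩
    exacts [h.inner ha e1, (h.z_inner ha (h.inner ha e1)).1, mt (h.fX u).1 (h.inner ha e1),
      mt (h.fX y).2 (h.inner ha e1)]

/-- unexplored darts -/
def St.Un (S : St D) (y : D) : Prop := ∃ b, y ∈ (S.K b).U \ (S.K b).X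

lemma St.WF.not_un {S : St D} (h : S.WF) {b : Bool} {u : D} (hu : u ∈ (S.K b).X) : ¬S.Un u := by
  rintro ⟨b', e⟩
  by_cases c : b' = b
  · subst c; exact (mem_sdiff.1 e).2 hu
  · refine h.dis b u ((h.wf b).sub hu) ?_
    rw [show (!b) = b' by cases b <;> cases b' <;> simp_all]
    exact (mem_sdiff.1 e).1

lemma Kid.un {S : St D} {b x rest t v s W} (k : Kid S b x rest t v s W) {y : D}
    (h : (S.ch b x s rest t W).Un y) : S.Un y := h.imp fun _ h => (k.inner h).1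

structure Geo (G : Gl D) (S : St D) (Old : Finset D) (R : Set D) (j : ℕ) : Prop where
  wf : S.WF
  fe : ∀ b, ∀ y ∈ (S.K b).U \ (S.K b).X, (S.K b).f y = G.f y ∧ y ∉ G.X
  val : ∀ g, S.Ok g → G.val g
  old : ∀ u ∈ Old, ¬S.Un u ∧ u ∉ R
  rX : ∀ u ∈ R, u ∈ G.X ∧ G.τ u ∈ R
  far : ∀ g, S.Ok g → ∀ y, S.Un y → (∀ n < j, ¬G.Nr g n y) ∧ (G.Nr g j y → g y ∈ Old)

namespace Geo
variable {G : Gl D} {S : St D} {Old : Finset D} {R : Set D} {j : ℕ} (h : Geo G S Old R j)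
include h

lemma step {b x rest t v s W} (k : Kid S b x rest t v s W) {R' : Set D} (h1 : R' ⊆ R)
    (h2 : ∀ u ∈ R', G.τ u ∈ R') : Geo G (S.ch b x s rest t W) Old R' j :=
  ⟨k.wf', fun b' y hy => by rw [(k.inner hy).2]; exact h.fe b' y (k.inner hy).1,
    fun g hg => h.val g (k.up hg).1, fun u hu => ⟨mt k.un (h.old u hu).1, fun e => (h.old u hu).2 (h1 e)⟩,
    fun u hu => ⟨(h.rX u (h1 hu)).1, h2 u hu⟩, fun g hg y hy => h.far g (k.up hg).1 y (k.un hy)⟩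

lemma un_f {y : D} : S.Un (G.f y) ↔ S.Un y := by
  constructor
  · rintro ⟨b, e⟩
    have h1 : (S.K b).f⁻¹ (G.f y) ∈ (S.K b).U \ (S.K b).X :=
      (mem_iff_of_maps (fun z hz => (h.wf.wf b).fI hz) _).2 (by simpa using e)
    have h2 := (h.fe b _ h1).1
    rw [show (S.K b).f ((S.K b).f⁻¹ (G.f y)) = G.f y by simp] at h2
    exact ⟨b, G.f.injective h2 ▸ h1⟩
  · rintro ⟨b, e⟩
    exact ⟨b, (h.fe b y e).1 ▸ (h.wf.wf b).fI e⟩

lemma layer (o : G.Ok) (hR : ∀ g, S.Ok g → ∀ u ∈ R, S.Un (g u))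
    (h0 : ∀ u ∈ Old, ∀ b, u ∉ (S.K b).X) {Old' : Finset D}
    (h1 : ∀ u, u ∈ Old' ↔ (∃ b, u ∈ (S.K b).X) ∧ u ∉ R) : Geo G S Old' R (j + 1) := by
  refine ⟨h.wf, h.fe, h.val, fun u hu => ?_, h.rX, fun g hg => ?_⟩
  · obtain ⟨⟨b, e⟩, e'⟩ := (h1 u).1 hu
    exact ⟨h.wf.not_un e, e'⟩
  have v := h.val g hg
  have k0 : ∀ y, S.Un y → ¬S.Un (g y) → ∃ b, g y ∈ (S.K b).X := by
    rintro y ⟨b, e⟩ n
    by_contra c
    exact n ⟨b, mem_sdiff.2 ⟨(hg.pre h.wf b).aU y (mem_sdiff.1 e).1, fun e => c ⟨b, e⟩⟩⟩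
  have k1 : ∀ y, S.Un y → ¬G.Nr g j y := fun y hy e => by
    have := (h.far g hg y hy).2 e
    obtain ⟨b, c⟩ := k0 y hy (h.old _ this).1
    exact h0 _ this b c
  refine fun y hy => ⟨fun n hn e => k1 y hy (e.mono (by omega)), fun e => ?_⟩
  rcases o.succ v e with e | ⟨u, e, e'⟩
  · exact absurd e (k1 y hy)
  have n : ¬S.Un u := fun c => k1 u c e
  have i := o.inner v e
  rcases e' with rfl | rfl | rfl
  · rcases (o.z_inner v i).2 with ⟨a1, a2⟩ | ⟨a1, a2⟩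
    · rw [a2] at hy ⊢
      have := k0 _ hy
      rw [o.inv g v] at this ⊢
      exact (h1 u).2 ⟨this n, fun c => i (h.rX u c).1⟩
    · rw [a2] at hy ⊢
      have := k0 _ hy
      rw [o.inv g v] at this ⊢
      refine (h1 _).2 ⟨this fun ⟨b, c⟩ => (h.fe b _ c).2 (o.τX _ a1).1, fun c => n ?_⟩
      have := hR g hg _ (h.rX _ c).2
      rwa [(o.τX _ a1).2, o.inv g v] at this
  · exact absurd (h.un_f.1 hy) n
  · exact absurd (h.un_f.2 hy) n

end Geo

lemma un_of_X {S : St D} (h : S.WF) {b : Bool} {l : List D} (hl : Holes (S.K b) [l])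
    (hm : 0 < (S.K b).m) {g : Perm D} (hg : S.Ok g) {u : D} (hu : u ∈ l) : S.Un (g u) :=
  ⟨b, (hg.pre h b).inner (h.wf b) hl hm (hl.mem1.2 hu)⟩

/-- extend a segment by darts taken at the two ends of the rest of the hole -/
def padL (a c : ℕ) (seg l : List D) : List D := l.drop (l.length - a) ++ seg ++ l.take c

lemma Holes.pad {K : Cfg D} {seg l : List D} (h : Holes K [seg ++ l]) {a c : ℕ}
    (e : c + a ≤ l.length) : Holes K [padL a c seg l ++ cut c a l] := by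
  rw [cut_split c a l e, ← List.append_assoc] at h
  simpa only [padL, List.append_assoc] using h.comm

lemma padL_map {seg l : List D} {a c : ℕ} (e : c + a ≤ l.length) {p : D → Bool}
    (h : ∀ y ∈ l, p y = false) : (padL a c seg l).map p = pad a c (seg.map p) := by
  simp only [padL, pad, List.map_append]
  congr 1
  · congr 1
    exact List.eq_replicate_iff.2 ⟨by simp; omega,
      List.forall_mem_map.2 fun y hy => h y (List.mem_of_mem_drop hy)⟩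
  · exact List.eq_replicate_iff.2 ⟨by simp; omega,
      List.forall_mem_map.2 fun y hy => h y (List.mem_of_mem_take hy)⟩

lemma cut_mono {α : Type} {a b a' b' : ℕ} {l : List α} {x : α} (h : x ∈ cut a' b' l) (e : a ≤ a')
    (e' : b ≤ b') : x ∈ cut a b l := by
  obtain ⟨c, rfl⟩ := Nat.exists_eq_add_of_le e
  obtain ⟨d, rfl⟩ := Nat.exists_eq_add_of_le e'
  rw [← cut_cut] at h
  exact cut_sub h

lemma Kid.uf_ne {S : St D} {b b' x rest t s W} (e : b' ≠ b) {F : Fam} {g : Perm D} {y : D} :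
    UF F (S.ch b x s rest t W) b' g y ↔ UF F S b' g y := by rw [UF, UF, St.ch_ne e]

lemma UF.un {F : Fam} {S : St D} {b : Bool} {g : Perm D} {y : D} (h : UF F S b g y) : S.Un y :=
  ⟨b, h.1⟩

lemma ruleF_empty : RuleF (fun _ => ∅) 0 := by
  intro ι 𝓕 D _ _ Sz wt md _ b I J c c0 c1 hJ G hG e
  rw [zero_add]
  refine Bd.step md b c0 c1 hJ hG (e.mono fun i h S E hI => ?_)
  obtain ⟨w, x, rest, hl, sz, k⟩ := h S E hI
  refine ⟨w, x, rest, hl, sz, fun y hy s W kd => ?_⟩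
  have := k y hy s W kd
  rwa [show (fun g => E g ∧ ∀ z, UF (fun _ => ∅) S b g z →
    UF (fun _ => ∅) (S.ch b x s rest y.1 W) b g z) = E from
      funext fun g => by simp [UF, IFeat, Has]] at this

end Pool.Agent.Lib.MP_abd955_pr
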