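import Pool.Agent.Lib.MP_abd955_pr.Count

/-! Steps with a designated main hole. -/

namespace Pool.Agent.Lib.MP_abd955_pr

open Equiv Equiv.Perm Finset PowerSeries Step

set_option linter.unusedSectionVars false

variable {D : Type} [DecidableEq D] [Fintype D]

def Step.raw (n : ℕ) : Step → Raw
  | .N => (none, none)
  | .R1 a => (some a, none)
  | .L2 a => (some (n - a), none)
  | .R2 a => (none, some a)
  | .L1 a => (none, some (n - a))
  | .RR a b => (some (a + b), some a)
  | .LR a b => (some (n - b), some a)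
  | .LL a b => (some (n - b), some (n - b - a))

/-- index of the main hole -/
def Step.mi : Step → ℕ
  | .N => 0 | .R1 _ => 1 | .L2 _ => 0 | .R2 _ => 1 | .L1 _ => 0
  | .RR _ _ => 2 | .LR _ _ => 1 | .LL _ _ => 0

def newL (K : Cfg D) (s : D) : Step → List D
  | .N => [K.f s, K.f (K.f s), K.f (K.f (K.f s))]
  | .R1 _ => [K.f s]
  | .L2 _ => [K.f (K.f s), K.f (K.f (K.f s))]
  | .R2 _ => [K.f s, K.f (K.f s)]
  | .L1 _ => [K.f (K.f (K.f s))]
  | .RR _ _ => [K.f s]
  | .LR _ _ => [K.f (K.f s)]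
  | .LL _ _ => [K.f (K.f (K.f s))]

def mainL (K : Cfg D) (s : D) (rest : List D) (t : Step) : List D :=
  newL K s t ++ cut t.sR t.sL rest

def finL (K : Cfg D) (s : D) (rest : List D) (t : Step) : List (List D) :=
  (rawH K s rest (t.raw rest.length)).eraseIdx t.mi

lemma newL_length (K : Cfg D) (s : D) (t : Step) : (newL K s t).length = t.nw := by
  cases t <;> rfl

lemma newL_mem {K : Cfg D} {s y : D} {t : Step} (h : y ∈ newL K s t) :
    y = K.f s ∨ y = K.f (K.f s) ∨ y = K.f (K.f (K.f s)) := by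
  cases t <;> simp [newL] at h <;> tauto

lemma newL_ne (K : Cfg D) (s : D) (t : Step) : newL K s t ≠ [] := by
  cases t <;> simp [newL]

lemma mainL_length (K : Cfg D) (s : D) {rest : List D} {t : Step}
    (h : t.sL + t.sR ≤ rest.length) : (mainL K s rest t).length = nl (rest.length + 1) t := by
  simp [mainL, newL_length, cut, nl]; omega

lemma raw_mem {n : ℕ} {t : Step} (h : t.sL + t.sR ≤ n) : t.raw n ∈ raws (n + 1) := by
  cases t <;> simp [Step.raw, raws, sL, sR] at h ⊢ <;> omega

lemma raw_inj {n : ℕ} {t t' : Step} (h : t.sL + t.sR ≤ n) (h' : t'.sL + t'.sR ≤ n)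
    (e : t.raw n = t'.raw n) (e' : t.mi = t'.mi) : t = t' := by
  cases t <;> cases t' <;> simp [Step.raw, Step.mi, sL, sR] at h h' e e' ⊢ <;> omega

lemma finL_length (K : Cfg D) (s : D) {rest : List D} {t : Step}
    (h : t.sL + t.sR ≤ rest.length) : (finL K s rest t).map List.length = t.fin := by
  cases t <;> simp [finL, rawH, Step.raw, Step.mi, c2, c3, keep, extra, Step.fin, sL, sR] at h ⊢ <;>
    omega

lemma main_rot (K : Cfg D) (s : D) {rest : List D} {t : Step} (h : t.sL + t.sR ≤ rest.length) :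
    ∃ A B, (rawH K s rest (t.raw rest.length))[t.mi]? = some (A ++ B) ∧
      B ++ A = mainL K s rest t := by
  cases t with
  | N => exact ⟨K.f (K.f (K.f s)) :: rest, [K.f s, K.f (K.f s)], by
      simp [rawH, Step.raw, Step.mi, c2, c3, keep], by simp [mainL, newL, cut, sL, sR]⟩
  | R1 a => exact ⟨rest.drop a, [K.f s], by
      simp [sL, sR] at h
      simp [rawH, Step.raw, Step.mi, c2, c3, keep, extra, List.drop_append_of_le_length h], by
      simp [mainL, newL, cut, sL, sR, List.take_of_length_le]⟩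
  | L2 a => exact ⟨K.f (K.f (K.f s)) :: rest.take (rest.length - a), [K.f (K.f s)], by
      simp [rawH, Step.raw, Step.mi, c2, c3, keep, List.take_append_of_le_length], by
      simp [mainL, newL, cut, sL, sR]⟩
  | R2 a => exact ⟨rest.drop a, [K.f s, K.f (K.f s)], by
      simp [sL, sR] at h
      simp [rawH, Step.raw, Step.mi, c2, c3, keep, extra, List.drop_append_of_le_length h], by
      simp [mainL, newL, cut, sL, sR, List.take_of_length_le]⟩
  | L1 a => exact ⟨K.f (K.f (K.f s)) :: rest.take (rest.length - a), [], by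
      simp [rawH, Step.raw, Step.mi, c2, c3, keep, List.take_append_of_le_length], by
      simp [mainL, newL, cut, sL, sR]⟩
  | RR a b => exact ⟨rest.drop (a + b), [K.f s], by
      simp [sL, sR] at h
      simp [rawH, Step.raw, Step.mi, c2, c3, keep, extra, List.drop_append_of_le_length h], by
      simp [mainL, newL, cut, sL, sR, List.take_of_length_le]⟩
  | LR a b => exact ⟨(rest.take (rest.length - b)).drop a, [K.f (K.f s)], by
      simp [sL, sR] at h
      simp only [rawH, Step.raw, Step.mi, c2, c3, keep, extra]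
      rw [List.take_append_of_le_length (l₁ := rest) (by omega),
        List.drop_append_of_le_length (by simp; omega)]
      simp, by
      simp [mainL, newL, cut, sL, sR, List.drop_take, Nat.sub_right_comm]⟩
  | LL a b => exact ⟨K.f (K.f (K.f s)) :: rest.take (rest.length - (a + b)), [], by
      simp [sL, sR] at h
      simp only [rawH, Step.raw, Step.mi, c2, c3, keep, extra]
      rw [List.take_append_of_le_length (l₁ := rest) (by omega),
        List.take_append_of_le_length (by simp), List.take_take]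
      simp [Nat.sub_sub, add_comm]
      omega, by
      simp [mainL, newL, cut, sL, sR]⟩

lemma perm_eraseIdx {α : Type} {l : List α} {i : ℕ} {x : α} (h : l[i]? = some x) :
    l.Perm (x :: l.eraseIdx i) := by
  obtain ⟨hi, rfl⟩ := List.getElem?_eq_some_iff.1 h
  exact (List.getElem_cons_eraseIdx_perm hi).symm

/-- configuration after the step, before the finite holes are cut off -/
abbrev Cfg.aft (K : Cfg D) (x s : D) (rest : List D) (t : Step) : Cfg D :=
  K.raw x s rest (t.raw rest.length)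

/-- possible supports of the finite holes -/
noncomputable abbrev Sup (K : Cfg D) (x s : D) (rest : List D) (t : Step) (v : ℕ) :
    Finset (Finset D) := Inv (K.aft x s rest t) (finL K s rest t).flatten.toFinset v

/-- the main part -/
abbrev Cfg.main (K : Cfg D) (x s : D) (rest : List D) (t : Step) (W : Finset D) : Cfg D :=
  (K.aft x s rest t).res ((K.aft x s rest t).U \ W)

section
variable {K : Cfg D} {x s : D} {rest : List D} {t : Step} (ok : PeelOk K x s)
  (hl : Holes K [x :: rest]) (ht : t.sL + t.sR ≤ rest.length)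
include ok hl ht

lemma aft_spec : WF (K.aft x s rest t) ∧
    Holes (K.aft x s rest t) (finL K s rest t ++ [mainL K s rest t]) ∧
    ∀ z ∈ (K.peel x s).U, z ∉ (K.peel x s).X → (K.aft x s rest t).f z = K.f z := by
  obtain ⟨h1, h2, h3⟩ := raw_spec ok hl (raw_mem ht)
  obtain ⟨A, B, e1, e2⟩ := main_rot K s ht
  rw [List.append_nil] at h2
  have h4 := (h2.perm (perm_eraseIdx e1)).comm
  rw [e2] at h4
  exact ⟨h1, h4.perm (List.perm_append_singleton _ _).symm, h3⟩

lemma child_spec {v : ℕ} {W : Finset D} (hW : W ∈ Sup K x s rest t v) :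
    WF ((K.aft x s rest t).res W) ∧ WF (K.main x s rest t W) ∧
    Holes ((K.aft x s rest t).res W) (finL K s rest t) ∧
    Holes (K.main x s rest t W) [mainL K s rest t] ∧ ((K.aft x s rest t).res W).m = v ∧
    (K.main x s rest t W).m + v + 1 = K.m := by
  obtain ⟨h1, h2, -⟩ := aft_spec ok hl ht
  obtain ⟨a1, a2, -, -, a5, a6⟩ := Inv_spec h1 hW
  obtain ⟨b1, b2⟩ := Holes.res h1 h2 hW
  exact ⟨a1, a2, b1, b2, a5, by rw [a6]; exact raw_m ok _ _⟩

lemma fin_closed : (finL K s rest t).flatten.toFinset ⊆ (K.aft x s rest t).X ∧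
    ∀ z ∈ (finL K s rest t).flatten.toFinset,
      (K.aft x s rest t).f z ∈ (finL K s rest t).flatten.toFinset := by
  obtain ⟨-, h2, -⟩ := aft_spec ok hl ht
  constructor
  · intro z hz
    obtain ⟨l, h, hz⟩ := List.mem_flatten.1 (List.mem_toFinset.1 hz)
    exact h2.sub (List.mem_append_left _ h) hz
  · intro z hz
    obtain ⟨l, h, hz⟩ := List.mem_flatten.1 (List.mem_toFinset.1 hz)
    exact List.mem_toFinset.2 (List.mem_flatten.2
      ⟨l, h, (h2.cyc l (List.mem_append_left _ h)).mem hz⟩)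

end

noncomputable def stepSum (K : Cfg D) (x : D) (rest : List D) (t : Step) (v : ℕ)
    (Φ : Perm D → ℝ) : ℝ :=
  ∑ s ∈ K.U \ K.X, ∑ W ∈ Sup K x s rest t v, ∑ a1 ∈ VS ((K.aft x s rest t).res W),
    ∑ a2 ∈ VS (K.main x s rest t W), Φ (swap x s * (a1 * a2))

lemma GG_choose {m v : ℕ} (h : v ≤ m) : (m.choose v : ℝ) * GG v * GG (m - v) = GG m := by
  obtain ⟨k, rfl⟩ := Nat.exists_eq_add_of_le h
  have := Nat.add_choose_mul_factorial_mul_factorial k v
  rw [add_comm k v] at this
  simp only [GG, Nat.add_sub_cancel_left, pow_add, ← this]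
  push_cast; ring

section
variable {K : Cfg D} (h : WF K) {x : D} {rest : List D} (hl : Holes K [x :: rest])
  (hr : rest ≠ [])
include h hl hr

lemma stepSum_one {t : Step} (ht : t.sL + t.sR ≤ rest.length) {v : ℕ} (hv : v < K.m) :
    stepSum K x rest t v (fun _ => 1) =
      GG K.m * (coeff v (Zm t.fin) * coeff (K.m - 1 - v) (Zl (nl (rest.length + 1) t))) := by
  rw [stepSum, sum_congr rfl fun s hs => show _ = GG (K.m - 1) *
      (coeff v (Zm t.fin) * coeff (K.m - 1 - v) (Zl (nl (rest.length + 1) t))) by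
    have ok := hl.ok h hr hs
    rw [sum_congr rfl fun W hW => show _ = GG v * GG (K.m - 1 - v) *
        (coeff v (Zm t.fin) * coeff (K.m - 1 - v) (Zl (nl (rest.length + 1) t))) by
      obtain ⟨a1, a2, a3, a4, a5, a6⟩ := child_spec ok hl ht hW
      simp only [sum_const, nsmul_eq_mul, mul_one]
      rw [card_VS a1 a3, card_VS a2 a4, a5, finL_length K s ht,
        show (K.main x s rest t W).m = K.m - 1 - v by omega]
      simp only [List.map_cons, List.map_nil, Zm_cons, Zm_nil, mul_one, mainL_length K s ht]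
      ring]
    have hm := raw_m ok rest (t.raw rest.length)
    rw [sum_const, card_Inv (aft_spec ok hl ht).1 (fin_closed ok hl ht).1 (fin_closed ok hl ht).2,
      nsmul_eq_mul, show (K.aft x s rest t).m = K.m - 1 from Nat.eq_sub_of_add_eq hm,
      ← GG_choose (m := K.m - 1) (v := v) (by omega)]
    ring]
  rw [sum_const, h.card_inner, nsmul_eq_mul]
  obtain ⟨m, hm⟩ : ∃ m, K.m = m + 1 := ⟨K.m - 1, by omega⟩
  rw [hm, GG_succ]; push_cast; ring

/-- the gluing has a step of type t with finite volume v -/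
def IsCh (K : Cfg D) (x : D) (rest : List D) (t : Step) (v : ℕ) (a : Perm D) : Prop :=
  ∃ s ∈ K.U \ K.X, ∃ W ∈ Sup K x s rest t v, ∃ a1 ∈ VS ((K.aft x s rest t).res W),
    ∃ a2 ∈ VS (K.main x s rest t W), a = swap x s * (a1 * a2)

omit h hl hr in
lemma swap_x {s : D} {ρ : Raw} {a : Perm D} (ha : a ∈ VS (K.raw x s rest ρ)) :
    (swap x s * a) x = s := (swap_facts (raw_U _ _ _ _ _) ha).1

open Classical in
lemma stepSum_eq {t : Step} (ht : t.sL + t.sR ≤ rest.length) (v : ℕ) (Φ : Perm D → ℝ) :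
    stepSum K x rest t v Φ =
      ∑ a ∈ (VS K).filter (fun a => a x ∉ K.X), if IsCh K x rest t v a then Φ a else 0 := by
  rw [sum_peel h hl hr, stepSum]
  refine sum_congr rfl fun s hs => ?_
  have ok := hl.ok h hr hs
  have w := (aft_spec ok hl ht).1
  have key : ∀ {ρ a}, a ∈ VS (K.raw x s rest ρ) → IsCh K x rest t v (swap x s * a) →
      ∃ W ∈ Sup K x s rest t v, ∃ a1 ∈ VS ((K.aft x s rest t).res W),
        ∃ a2 ∈ VS (K.main x s rest t W), a = a1 * a2 := by
    rintro ρ a ha ⟨s', hs', W, hW, a1, h1, a2, h2, e⟩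
    have w' := (aft_spec (hl.ok h hr hs') hl ht).1
    obtain rfl : s = s' := by rw [← swap_x ha, e, swap_x (mul_mem_VS w' hW h1 h2)]
    exact ⟨W, hW, a1, h1, a2, h2, mul_left_cancel e⟩
  rw [sum_eq_single_of_mem _ (raw_mem ht) fun ρ hρ hne => sum_eq_zero fun a ha => if_neg fun c => by
    obtain ⟨W, hW, a1, h1, a2, h2, rfl⟩ := key ha c
    exact hne (raw_uniq ok hl hρ (raw_mem ht) (mem_VS.1 ha).1
      (mem_VS.1 (mul_mem_VS w hW h1 h2)).1)]
  rw [sum_dec w (fin_closed ok hl ht).1 (fin_closed ok hl ht).2, sum_eq_single v]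
  · exact sum_congr rfl fun W hW => sum_congr rfl fun a1 h1 => sum_congr rfl fun a2 h2 =>
      (if_pos ⟨s, hs, W, hW, a1, h1, a2, h2, rfl⟩).symm
  · refine fun v' _ hne => sum_eq_zero fun W hW => sum_eq_zero fun a1 h1 => sum_eq_zero
      fun a2 h2 => if_neg fun c => hne ?_
    obtain ⟨W', hW', b1, g1, b2, g2, e⟩ := key (mul_mem_VS w hW h1 h2) c
    obtain ⟨rfl, -, -⟩ := Inv_uniq w hW hW' h1 h2 g1 g2 e
    rw [← (Inv_spec w hW).2.2.2.2.1, (Inv_spec w hW').2.2.2.2.1]
  · intro hv
    refine sum_eq_zero fun W hW => absurd (mem_range.2 ?_) hv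
    have := (Inv_spec w hW).2.2.2.2.2
    omega

lemma isCh_uniq {t t' : Step} (ht : t.sL + t.sR ≤ rest.length) (ht' : t'.sL + t'.sR ≤ rest.length)
    {v v' : ℕ} (hv : v + v' + 1 < K.m) {a : Perm D} (c : IsCh K x rest t v a)
    (c' : IsCh K x rest t' v' a) : (t, v) = (t', v') := by
  obtain ⟨s, hs, W, hW, a1, h1, a2, h2, e⟩ := c
  obtain ⟨s', hs', W', hW', b1, g1, b2, g2, e'⟩ := c'
  have ok := hl.ok h hr hs
  have w := (aft_spec ok hl ht).1
  have m1 := mul_mem_VS w hW h1 h2
  have m2 := mul_mem_VS (aft_spec (hl.ok h hr hs') hl ht').1 hW' g1 g2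
  obtain rfl : s = s' := by rw [← swap_x m1, ← e, e', swap_x m2]
  have e2 : a1 * a2 = b1 * b2 := mul_left_cancel (e.symm.trans e')
  have eρ := raw_uniq ok hl (raw_mem ht) (raw_mem ht') (mem_VS.1 m1).1 (e2 ▸ (mem_VS.1 m2).1)
  by_cases hm : t.mi = t'.mi
  · obtain rfl := raw_inj ht ht' eρ hm
    obtain ⟨rfl, -, -⟩ := Inv_uniq w hW hW' h1 h2 g1 g2 e2
    rw [← (Inv_spec w hW).2.2.2.2.1, (Inv_spec w hW').2.2.2.2.1]
  exfalso
  obtain ⟨c1, c2, c3, c4, c5, c6⟩ := child_spec ok hl ht hW
  obtain ⟨d1, d2, d3, d4, d5, d6⟩ := child_spec ok hl ht' hW'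
  obtain ⟨A, B, r1, r2⟩ := main_rot K s ht'
  have hmem : A ++ B ∈ finL K s rest t := by
    rw [finL, eρ, List.mem_eraseIdx_iff_getElem?]
    exact ⟨_, Ne.symm hm, r1⟩
  have hK : K.aft x s rest t' = K.aft x s rest t := by rw [Cfg.aft, ← eρ]
  have hsub : (K.main x s rest t' W').U ⊆ W := by
    intro u hu
    have p2 := (mem_VS.1 g2).1
    obtain ⟨y, hy, c⟩ := p2.con u hu
    have hy' : y ∈ W := by
      have : y ∈ A ++ B := by
        have := (d4.mem y).1 hy
        rw [← r2] at this
        simpa [or_comm] using this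
      exact c1.sub (c3.sub hmem this)
    have hb : ∀ z ∈ (K.main x s rest t' W').U, (a1 * a2) z = b2 z := fun z hz => by
      rw [e2, mul_apply, (mem_VS.1 g1).2 _ (mem_sdiff.1 (p2.aU z hz)).2]
    have c' := (conn_congr p2.aU d2.fU hb (fun _ _ => rfl) hu).2 c
    refine conn_mem (U := W) (fun z hz => ?_) (fun z hz => ?_) hy' ((conn _ _).symm c')
    · rw [mul_apply, (mem_VS.1 h2).2 z (fun e => (mem_sdiff.1 e).2 hz)]
      exact (mem_VS.1 h1).1.aU z hz
    · have := c1.fU z hz
      simpa [Cfg.res, hK] using this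
  have k1 := c1.card_inner
  have k2 := d2.card_inner
  have : (K.main x s rest t' W').U \ (K.main x s rest t' W').X ⊆
      ((K.aft x s rest t).res W).U \ ((K.aft x s rest t).res W).X := by
    intro u hu
    obtain ⟨u1, u2⟩ := mem_sdiff.1 hu
    refine mem_sdiff.2 ⟨hsub u1, fun e => u2 (mem_inter.2 ⟨?_, u1⟩)⟩
    rw [hK]; exact (mem_inter.1 e).1
  have := card_le_card this
  omega

theorem stepSum_le (A : Finset (Step × ℕ)) (hA : ∀ y ∈ A, y.1.sL + y.1.sR ≤ rest.length)
    (hv : ∀ y ∈ A, 2 * y.2 + 1 < K.m) (Φ : Perm D → ℝ) (hΦ : ∀ a, 0 ≤ Φ a) :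
    ∑ y ∈ A, stepSum K x rest y.1 y.2 Φ ≤ ∑ a ∈ VS K, Φ a := by
  classical
  rw [sum_congr rfl fun y hy => stepSum_eq h hl hr (hA y hy) y.2 Φ, sum_comm]
  refine le_trans (sum_le_sum fun a _ => ?_)
    (sum_le_sum_of_subset_of_nonneg (filter_subset (fun a : Perm D => a x ∉ K.X) _) fun a _ _ => hΦ a)
  by_cases e : ∃ y ∈ A, IsCh K x rest y.1 y.2 a
  · obtain ⟨y, hy, c⟩ := e
    rw [sum_eq_single_of_mem y hy fun z hz hne => if_neg fun c' => hne
      (isCh_uniq h hl hr (hA z hz) (hA y hy) (by have := hv y hy; have := hv z hz; omega) c' c),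
      if_pos c]
  · push Not at e
    rw [sum_eq_zero fun y hy => if_neg (e y hy)]
    exact hΦ a

end

end Pool.Agent.Lib.MP_abd955_pr
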