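import Pool.Agent.Lib.MP_abd955_pr.StepA

namespace Pool.Agent.Lib.MP_abd955_pr

open Enum PowerSeries Finset Filter Topology Step

lemma tsum_w_le {F G : Step → ℝ} {s : ℝ} (h0 : ∀ t, 0 ≤ F t) (h1 : ∀ t, w t ≠ 0 → F t ≤ G t)
    (h2 : HasSum (fun t => w t * G t) s) : ∑' t, w t * F t ≤ s := by
  have h3 : ∀ t, w t * F t ≤ w t * G t := fun t => by
    by_cases hw : w t = 0
    · simp [hw]
    · exact mul_le_mul_of_nonneg_left (h1 t hw) (w_nonneg t)
  exact hasSum_le h3 (Summable.of_nonneg_of_le (fun t => mul_nonneg (w_nonneg t) (h0 t)) h3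
    h2.summable).hasSum h2

lemma summable_w_bdd {F : Step → ℝ} {c : ℝ} (h0 : ∀ t, 0 ≤ F t) (h1 : ∀ t, F t ≤ c) :
    Summable fun t => w t * F t :=
  Summable.of_nonneg_of_le (fun t => mul_nonneg (w_nonneg t) (h0 t))
    (fun t => mul_le_mul_of_nonneg_left (h1 t) (w_nonneg t)) (hasSum_w.mul_right c).summable

lemma tsum_w_mem {F : Step → ℝ} (h : ∀ t, 0 ≤ F t ∧ F t ≤ 1) :
    0 ≤ ∑' t, w t * F t ∧ ∑' t, w t * F t ≤ 1 :=
  ⟨tsum_nonneg fun t => mul_nonneg (w_nonneg t) (h t).1,
    tsum_w_le (G := fun _ => 1) (fun t => (h t).1) (fun t _ => (h t).2) (by simpa using hasSum_w)⟩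

lemma h_div_le (K : ℕ) (hK : 1 ≤ K) : h K / K ≤ 2 / √K := by
  have h1 : (0 : ℝ) < K := by exact_mod_cast hK
  have h2 := Real.sqrt_pos.2 h1
  have h3 := Real.mul_self_sqrt h1.le
  rw [div_le_div_iff₀ h1 h2]
  nlinarith [mul_le_mul_of_nonneg_right (h_le_sqrt K) h2.le]

/-- mean overshoot beyond k -/
lemma E_over (k : ℕ) : ∃ e : ℝ, HasSum (fun t => w t * ((t.sL + t.sR - k : ℕ) : ℝ)) e ∧
    e ≤ 48 / √(k + 1) := by
  have hB := sum_z_split (f := fun p => ((4 * p - k : ℕ) : ℝ)) (K := k / 4 + 1) (by omega)
    (a := 0) (b := 4) (c := 0) le_rfl (by norm_num) le_rfl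
    (fun p _ hp => by rw [show 4 * p - k = 0 by omega]; simp)
    (fun p _ => by
      have : ((4 * p - k : ℕ) : ℝ) ≤ ((4 * p : ℕ) : ℝ) := by exact_mod_cast Nat.sub_le _ _
      push_cast at this; linarith)
  obtain ⟨hs, hle⟩ := E_mono (f := fun s => ((s - k : ℕ) : ℝ)) (fun n => Nat.cast_nonneg _)
    (fun a b hab => Nat.cast_le.2 (Nat.sub_le_sub_right hab k)) hB
  refine ⟨_, hs.hasSum, hle.trans ?_⟩
  have h1 := h_div_le (k / 4 + 1) (by omega)
  have h2 : √((k : ℝ) + 1) ≤ 2 * √((k / 4 + 1 : ℕ) : ℝ) := by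
    rw [Real.sqrt_le_left (by positivity), mul_pow, Real.sq_sqrt (Nat.cast_nonneg _)]
    have : k + 1 ≤ 4 * (k / 4 + 1) := by omega
    have h3 : ((k + 1 : ℕ) : ℝ) ≤ ((4 * (k / 4 + 1) : ℕ) : ℝ) := by exact_mod_cast this
    rw [Nat.cast_mul] at h3
    push_cast at h3 ⊢
    linarith
  have h3 : 0 < √((k : ℝ) + 1) := Real.sqrt_pos.2 (by positivity)
  have h4 : 2 / √((k / 4 + 1 : ℕ) : ℝ) ≤ 4 / √((k : ℝ) + 1) := by
    rw [div_le_div_iff₀ (by linarith) h3]; linarith
  have e : 48 / √((k : ℝ) + 1) = 12 * (4 / √((k : ℝ) + 1)) := by ring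
  simp only [Nat.zero_sub, Nat.cast_zero]
  linarith

lemma relab_length (lab : List Bool) (i : ℕ) (t : Step) (hi : i < lab.length) :
    (relab lab i t).length + 1 + (t.sL + t.sR) = lab.length + t.nw + (oL i t + oR lab i t) := by
  simp only [relab, oL, oR, List.length_append, List.length_take, List.length_replicate,
    List.length_drop]
  omega

lemma relab_length_le (lab : List Bool) (i : ℕ) (t : Step) (hi : i < lab.length) :
    (relab lab i t).length ≤ lab.length + 2 := by
  have := nw_le t
  simp only [relab, List.length_append, List.length_take, List.length_replicate, List.length_drop]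
  omega

lemma relab_length_pos (lab : List Bool) (i : ℕ) (t : Step) : 1 ≤ (relab lab i t).length := by
  have := one_le_nw t
  simp only [relab, List.length_append, List.length_replicate]
  omega

lemma lt_of_get {lab : List Bool} {i : ℕ} (h : lab[i]? = some true) : i < lab.length := by
  by_contra hc
  rw [List.getElem?_eq_none (by omega)] at h
  simp at h

lemma count_split {lab : List Bool} {i : ℕ} (h : lab[i]? = some true) :
    lab.count true = (lab.take i).count true + 1 + (lab.drop (i + 1)).count true := by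
  have hi := lt_of_get h
  have h1 : lab[i] = true := by
    rw [List.getElem?_eq_getElem hi] at h; simpa using h
  conv_lhs => rw [← List.take_append_drop i lab, List.drop_eq_getElem_cons hi, h1]
  rw [List.count_append, List.count_cons_self]; omega

lemma count_take_sub (l : List Bool) (a b : ℕ) :
    (l.take (a - b)).count true ≤ (l.take a).count true ∧
      (l.take a).count true ≤ (l.take (a - b)).count true + b := by
  have e : l.take a = l.take (a - b) ++ (l.take a).drop (a - b) := by
    conv_lhs => rw [← List.take_append_drop (a - b) (l.take a)]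
    rw [List.take_take, min_eq_left (Nat.sub_le a b)]
  have h1 : ((l.take a).drop (a - b)).count true ≤ b := by
    refine List.count_le_length.trans ?_
    simp only [List.length_drop, List.length_take]; omega
  have h2 := congrArg (List.count true) e
  rw [List.count_append] at h2
  omega

lemma count_drop_add (l : List Bool) (a b : ℕ) :
    (l.drop (a + b)).count true ≤ (l.drop a).count true ∧
      (l.drop a).count true ≤ (l.drop (a + b)).count true + b := by
  have e : l.drop a = (l.drop a).take b ++ l.drop (a + b) := by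
    conv_lhs => rw [← List.take_append_drop b (l.drop a)]
    rw [List.drop_drop]
  have h1 : ((l.drop a).take b).count true ≤ b := by
    refine List.count_le_length.trans ?_
    simp only [List.length_take]; omega
  have h2 := congrArg (List.count true) e
  rw [List.count_append] at h2
  omega

lemma relab_count {lab : List Bool} {i : ℕ} (t : Step) (h : lab[i]? = some true) :
    (relab lab i t).count true + 1 ≤ lab.count true ∧
      lab.count true ≤ (relab lab i t).count true + 1 + (t.sL + t.sR) := by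
  have h1 := count_split h
  have h2 := count_take_sub lab i t.sL
  have h3 := count_drop_add lab (i + 1) t.sR
  simp only [relab, List.count_append, List.count_replicate]
  simp only [show (false == true) = false by rfl, Bool.false_eq_true, if_false]
  omega

lemma count_pos {lab : List Bool} (h : true ∈ lab) : 1 ≤ lab.count true :=
  List.count_pos_iff.2 h

lemma count_zero {lab : List Bool} (h : ¬ true ∈ lab) : lab.count true = 0 :=
  List.count_eq_zero.2 h

lemma mem_repl {n : ℕ} (h : 1 ≤ n) : true ∈ List.replicate n true := by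
  simp; omega

lemma sqrt_step (u : ℕ) (hu : 1 ≤ u) {x : ℝ} (hx : x ≤ u - 1) : √x ≤ √u - 1 / (2 * √u) := by
  have h1 : (1 : ℝ) ≤ u := by exact_mod_cast hu
  have h2 : 1 ≤ √(u : ℝ) := Real.one_le_sqrt.2 h1
  have h3 := Real.mul_self_sqrt (show (0 : ℝ) ≤ u by linarith)
  have h4 : 1 / (2 * √(u : ℝ)) ≤ 1 / 2 := by
    rw [div_le_div_iff₀ (by positivity) (by norm_num)]; linarith
  rw [Real.sqrt_le_left (by linarith)]
  have h5 : √(u : ℝ) * (1 / (2 * √(u : ℝ))) = 1 / 2 := by field_simp
  nlinarith [sq_nonneg (1 / (2 * √(u : ℝ)))]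

end Pool.Agent.Lib.MP_abd955_pr
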