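import Pool.Agent.Lib.MP_abd955_pr.MachS

namespace Pool.Agent.Lib.MP_abd955_pr

open Enum PowerSeries Finset Filter Topology Step

theorem sphere_small (R L : ℕ) (hE : Even L) (h2 : 2 ≤ L) (eps : ℝ) (he : 0 < eps) :
    ∃ M n, Fs R M 0 n (List.replicate L true, 0) ≤ eps := by
  obtain ⟨m, hm⟩ : ∃ m : ℝ, m = 1 / (4848 * (R + 1)) := ⟨_, rfl⟩
  have hR : (0 : ℝ) ≤ R := Nat.cast_nonneg _
  have m0 : 0 < m := by rw [hm]; positivity
  have m1 : m ≤ 1 := by rw [hm, div_le_one (by positivity)]; linarith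
  have m2 : 1212 * m * (R + 1) = 1 / 4 := by rw [hm]; field_simp; norm_num
  have hX := hl_pos hE h2
  obtain ⟨c, hc⟩ : ∃ c : ℝ, c = 3 / 4 * m ^ 2 := ⟨_, rfl⟩
  have c0 : 0 < c := by rw [hc]; positivity
  have t1 : Tendsto (fun M : ℕ => c * ((M + 1 : ℕ) : ℝ)) atTop atTop :=
    (tendsto_natCast_atTop_atTop.comp (tendsto_add_atTop_nat 1)).const_mul_atTop c0
  have t2 := ((Real.tendsto_pow_mul_exp_neg_atTop_nhds_zero 1).comp t1).const_mul
    (2 / c * Real.exp (m ^ 2 * (L + 1)) / hl L)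
  rw [mul_zero] at t2
  obtain ⟨M, hM1, hM2⟩ := ((t2.eventually (gt_mem_nhds he)).and (eventually_ge_atTop L)).exists
  have l1 : m ^ 2 ≤ 1 := pow_le_one₀ m0.le m1
  refine ⟨M, _, (Fs_le (R := R) (M := M) le_rfl (sq_nonneg m) l1 _ _
    ⟨by simpa using hE, by simpa using h2, by simp; omega, mem_repl (by omega)⟩ le_rfl).trans ?_⟩
  have h6 : sT R M (List.replicate L true, 0) ≤ (R + 1) * (M + 1) := by
    unfold sT
    split_ifs
    · omega
    · have := Nat.mul_le_mul_right (M + 1) (show R - 1 - 0 ≤ R by omega)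
      simp only [List.count_replicate_self]
      nlinarith
  have h7 : ((sT R M (List.replicate L true, 0) : ℕ) : ℝ) ≤ (R + 1) * ((M + 1 : ℕ) : ℝ) := by
    exact_mod_cast h6
  refine le_trans ?_ hM1.le
  unfold sPhi
  simp only [List.length_replicate, zero_mul, add_zero, Function.comp, pow_one,
    Real.sqrt_sq m0.le]
  obtain ⟨x, hx⟩ : ∃ x : ℝ, x = ((M + 1 : ℕ) : ℝ) := ⟨_, rfl⟩
  have hx' : (M : ℝ) = x - 1 := by rw [hx]; push_cast; ring
  have x1 : 1 ≤ x := by rw [hx]; exact_mod_cast Nat.succ_le_succ (Nat.zero_le M)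
  have h9 : h (M + 1) ≤ 2 * x := by
    have a1 : √x ≤ x := by rw [Real.sqrt_le_left (by linarith)]; nlinarith
    have := h_le_sqrt (M + 1)
    rw [← hx] at this
    linarith
  rw [← hx] at h7 ⊢
  rw [hx']
  have a3 : Real.exp (m ^ 2 * (L - (x - 1)) + 1212 * m ^ 2 * m * sT R M (List.replicate L true, 0))
      ≤ Real.exp (m ^ 2 * (L + 1)) * Real.exp (-(c * x)) := by
    rw [← Real.exp_add]
    refine Real.exp_le_exp.2 ?_
    have b1 := mul_le_mul_of_nonneg_left h7 (show 0 ≤ 1212 * m ^ 2 * m by positivity)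
    have b2 : 1212 * m ^ 2 * m * ((R + 1) * x) = m ^ 2 * x / 4 := by
      rw [show 1212 * m ^ 2 * m * ((R + 1) * x) = (1212 * m * (R + 1)) * (m ^ 2 * x) by ring, m2]
      ring
    rw [hc]
    nlinarith
  rw [show 2 / c * Real.exp (m ^ 2 * (L + 1)) / hl L * (c * x * Real.exp (-(c * x))) =
    2 * x * (Real.exp (m ^ 2 * (L + 1)) * Real.exp (-(c * x))) / hl L by field_simp]
  exact div_le_div_of_nonneg_right (mul_le_mul h9 a3 (Real.exp_pos _).le (by linarith)) hX.le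

end Pool.Agent.Lib.MP_abd955_pr
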