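import Pool.Agent.Lib.MP_abd955_pr.MeasA

namespace Pool.Agent.Lib.MP_abd955_pr

open Equiv Finset

/-- codes that are subgroups and have an infinite root face -/
def Sub : Set Om := {ω | ω 1 = true ∧ (∀ u v, ω u = true → ω v = true → ω (u * v) = true) ∧
  (∀ u, ω u = true → ω u⁻¹ = true) ∧ ∀ k : ℤ, k ≠ 0 → ω (.of false ^ k) = false}

theorem sub_closure {ω : Om} (h : ω ∈ Sub) (w : Wd) :
    w ∈ Subgroup.closure {w | ω w = true} ↔ ω w = true := by
  let K : Subgroup Wd :=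
    { carrier := {w | ω w = true}
      mul_mem' := fun hu hv => h.2.1 _ _ hu hv
      one_mem' := h.1
      inv_mem' := fun hu => h.2.2.1 _ hu }
  have := Subgroup.closure_eq K
  change w ∈ Subgroup.closure (K : Set Wd) ↔ w ∈ K
  rw [this]

theorem sub_mk_eq {ω : Om} (h : ω ∈ Sub) (u v : Wd) :
    ((u : Dart ω) = (v : Dart ω)) ↔ ω (u⁻¹ * v) = true := by
  rw [QuotientGroup.eq, sub_closure h]

theorem mv_zpow_mk (ω : Om) (x : Bool) (k : ℤ) (u : Wd) :
    (mv ω x ^ k) (u : Dart ω) = ((.of x ^ k * u : Wd) : Dart ω) := by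
  have : mv ω x ^ k = MulAction.toPermHom Wd (Dart ω) (.of x ^ k) := by
    rw [map_zpow]; rfl
  rw [this]
  rfl

theorem mv_mk (ω : Om) (x : Bool) (u : Wd) :
    mv ω x (u : Dart ω) = ((.of x * u : Wd) : Dart ω) := rfl

theorem mv_inv_mk (ω : Om) (x : Bool) (u : Wd) :
    (mv ω x)⁻¹ (u : Dart ω) = (((.of x)⁻¹ * u : Wd) : Dart ω) := by
  simpa using mv_zpow_mk ω x (-1) u

/-- the word of the k-th boundary dart -/
def bw (k : ℤ) : Wd := .of true * .of false ^ k

theorem bd_bw (ω : Om) (k : ℤ) : bd ω k = (bw k : Dart ω) := by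
  rw [bd, mv_zpow_mk, mv_mk, mul_one, bw]

theorem norm_of_zpow (x : Bool) (k : ℤ) : (FreeGroup.of x ^ k).norm = k.natAbs := by
  cases k with
  | ofNat k => simp
  | negSucc k => rw [zpow_negSucc, FreeGroup.norm_inv_eq, FreeGroup.norm_of_pow]; rfl

theorem norm_bw (k : ℤ) : (bw k).norm ≤ k.natAbs + 1 := by
  have := FreeGroup.norm_mul_le (.of true : Wd) (.of false ^ k)
  rw [norm_of_zpow, FreeGroup.norm_of] at this
  unfold bw
  omega

theorem norm_of_mul (x : Bool) (u : Wd) : (FreeGroup.of x * u).norm ≤ u.norm + 1 := by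
  have := FreeGroup.norm_mul_le (.of x : Wd) u
  rw [FreeGroup.norm_of] at this
  omega

theorem norm_inv_of_mul (x : Bool) (u : Wd) : ((FreeGroup.of x)⁻¹ * u).norm ≤ u.norm + 1 := by
  have := FreeGroup.norm_mul_le (.of x : Wd)⁻¹ u
  rw [FreeGroup.norm_inv_eq, FreeGroup.norm_of] at this
  omega

theorem face_inj {ω : Om} (h : ω ∈ Sub) {k l : ℤ}
    (e : ((.of false ^ k : Wd) : Dart ω) = ((.of false ^ l : Wd) : Dart ω)) : k = l := by
  rw [sub_mk_eq h, ← zpow_neg, ← zpow_add] at e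
  by_contra hne
  rw [h.2.2.2 _ (by omega)] at e
  exact Bool.false_ne_true e

theorem bd_inj {ω : Om} (h : ω ∈ Sub) {k l : ℤ} (e : bd ω k = bd ω l) : k = l := by
  unfold bd at e
  rw [(mv ω true).apply_eq_iff_eq, mv_zpow_mk, mv_zpow_mk, mul_one, mul_one] at e
  exact face_inj h e

theorem bd_unique {ω : Om} (h : ω ∈ Sub) (k : ℤ) : ∃! l, bd ω k = bd ω l :=
  ⟨k, rfl, fun _ e => (bd_inj h e).symm⟩

theorem bd_choose {ω : Om} (h : ω ∈ Sub) (k : ℤ) (e : ∃! l, bd ω k = bd ω l) : e.choose = k :=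
  (bd_inj h e.choose_spec.1).symm

/-- the dart reached from the root by a word -/
def pt {n p : ℕ} (a : Perm (DD n p)) (u : Wd) : DD n p := act a (poly n p) u (.inr 0)

theorem pt_mul {n p : ℕ} (a : Perm (DD n p)) (u v : Wd) :
    pt a (u * v) = act a (poly n p) u (pt a v) := act_mul _ _ _ _ _

theorem pt_bw {n p : ℕ} (a : Perm (DD n p)) (k : ℤ) :
    pt a (bw k) = a ((poly n p ^ k) (.inr 0)) := by
  simp [pt, bw]

/-- the code agrees with the finite map on short words -/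
structure Agr (R : ℕ) (ω : Om) {n p : ℕ} (a : Perm (DD n p)) : Prop where
  sub : ω ∈ Sub
  inv : ∀ d, a (a d) = d
  eq : ∀ w : Wd, w.norm ≤ R → (ω w = true ↔ act a (poly n p) w (.inr 0) = .inr 0)

theorem Agr.mk_eq {R : ℕ} {ω : Om} {n p : ℕ} {a : Perm (DD n p)} (h : Agr R ω a) {u v : Wd}
    (huv : u.norm + v.norm ≤ R) : ((u : Dart ω) = (v : Dart ω)) ↔ pt a u = pt a v := by
  have := FreeGroup.norm_mul_le u⁻¹ v
  rw [FreeGroup.norm_inv_eq] at this
  rw [sub_mk_eq h.sub, h.eq _ (by omega), pt, pt, act_eq_iff]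

theorem Agr.bdry {R : ℕ} {ω : Om} {n p : ℕ} {a : Perm (DD n p)} (h : Agr R ω a) {u : Wd} {k : ℤ}
    (hk : u.norm + k.natAbs + 1 ≤ R) (e : a (pt a u) = (poly n p ^ k) (.inr 0)) :
    (u : Dart ω) = bd ω k := by
  have := norm_bw k
  rw [bd_bw, h.mk_eq (by omega), pt_bw, ← e, h.inv]

theorem poly_four (n p : ℕ) (y : Fin n × Fin 4) : (poly n p ^ (4 : ℤ)) (.inl y) = .inl y := by
  obtain ⟨i, j⟩ := y
  have : (poly n p ^ (4 : ℤ)) = poly n p * poly n p * poly n p * poly n p := by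
    rw [show (4 : ℤ) = ((4 : ℕ) : ℤ) from rfl, zpow_natCast]
    simp [pow_succ]
  rw [this]
  simp only [Perm.mul_apply, poly, sq, Equiv.sumCongr_apply, Sum.map_inl, Equiv.prodCongr_apply,
    Prod.map_apply, Equiv.coe_refl, id_eq]
  congr 2
  revert j
  decide

theorem Agr.inner {R : ℕ} {ω : Om} {n p : ℕ} {a : Perm (DD n p)} (h : Agr R ω a) {u : Wd}
    (hu : 2 * u.norm + 6 ≤ R) (e : a (pt a u) ∉ extS n p) (k : ℤ) : (u : Dart ω) ≠ bd ω k := by
  intro hk
  have h1 := norm_inv_of_mul true u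
  have h2 := FreeGroup.norm_mul_le (.of false ^ (4 : ℤ) : Wd) ((.of true)⁻¹ * u)
  rw [norm_of_zpow] at h2
  have h3 : pt a ((.of true)⁻¹ * u) = a (pt a u) := by
    rw [pt_mul, map_inv, act_true, inv_of_invol h.inv]
  have h4 : pt a (.of false ^ (4 : ℤ) * ((.of true)⁻¹ * u)) = pt a ((.of true)⁻¹ * u) := by
    rw [pt_mul, map_zpow, act_false, h3]
    rcases hx : a (pt a u) with y | i
    · exact poly_four n p y
    · exact absurd ⟨i, hx.symm⟩ e
  rw [← h.mk_eq (by simp at h2 ⊢; omega), ← mv_zpow_mk, ← mv_inv_mk, hk, bd, Perm.inv_def,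
    Equiv.symm_apply_apply, mv_zpow_mk, mv_zpow_mk, mul_one, ← zpow_add] at h4
  have := face_inj h.sub h4
  omega

theorem zp_invol {D : Type} (S : Set D) (t a : Perm D) (d : D) : zp S t a (zp S t a d) = d := by
  unfold zp
  split_ifs with h
  · exact h d
  · rfl

theorem zp_apply {D : Type} {S : Set D} {t a : Perm D} (ht : ∀ u, t (t u) = u)
    (hS : ∀ u ∈ S, t u ∈ S) (ha : ∀ u, a (a u) = u) (hn : ∀ u ∈ S, a u ∉ S) (d : D) :
    zp S t a d = zipf S t a d := by
  have : Function.Involutive (zipf S t a) := by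
    intro u
    by_cases h1 : u ∈ S
    · simp [zipf, h1, hS _ h1, ht]
    · by_cases h2 : a u ∈ S
      · simp [zipf, h1, h2, hn _ (hS _ h2), ha, hS _ h2, ht]
      · simp [zipf, h1, h2, ha]
  simp [zp, this]

theorem act_cons {D : Type} {b : Perm D} (f : Perm D) (hb : ∀ d, b (b d) = d) (x : Bool × Bool)
    (l : List (Bool × Bool)) (r : D) : act b f (FreeGroup.mk (x :: l)) r =
      if x.1 then b (act b f (FreeGroup.mk l) r) else
        if x.2 then f (act b f (FreeGroup.mk l) r) else f⁻¹ (act b f (FreeGroup.mk l) r) := by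
  rw [← foldr_eq_act f hb, ← foldr_eq_act f hb, List.foldr_cons]

theorem poly_notMem {n p : ℕ} {x : DD n p} (h : x ∉ extS n p) : poly n p x ∉ extS n p := by
  rcases x with y | i
  · simp [poly, extS]
  · exact absurd ⟨i, rfl⟩ h

theorem poly_inv_notMem {n p : ℕ} {x : DD n p} (h : x ∉ extS n p) :
    (poly n p)⁻¹ x ∉ extS n p := by
  rintro ⟨i, hi⟩
  apply h
  rw [eq_comm, Perm.inv_eq_iff_eq, poly_inr] at hi
  exact ⟨_, hi.symm⟩

theorem abs_le_natAbs {k : ℤ} {J : ℕ} (h : |k| ≤ J) : k.natAbs ≤ J := by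
  rw [abs_le] at h
  omega

open Classical in
/-- the edge map of the folded map -/
noncomputable def fstep (ω : Om) (d : Dart ω) : Dart ω :=
  if h : ∃! k, d = bd ω k then bd ω (-1 - h.choose) else mv ω true d

theorem fold_eq (ω : Om) : fold ω = code (fstep ω) (mv ω false) (bd ω (-1)) := rfl

theorem mirF_zpow (n p : ℕ) (k : ℤ) :
    mirF n p ((poly n p ^ k) (.inr 0)) = (poly n p ^ (-1 - k)) (.inr 0) := by
  rw [poly_zpow, poly_zpow, ← zi_rev]
  rfl

theorem foldP_apply0 {n p : ℕ} {a : Perm (DD n p)} (ha : ∀ u, a (a u) = u)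
    (hn : ∀ i j, a (.inr i) ≠ .inr j) (d : DD n p) :
    foldP a d = zipf (extS n p) (mirF n p) a d := by
  refine zp_apply ?_ ?_ ha ?_ d
  · rintro (y | i) <;> simp [mirF]
  · rintro _ ⟨i, rfl⟩
    exact ⟨i.rev, rfl⟩
  · rintro _ ⟨i, rfl⟩ ⟨j, hj⟩
    exact hn i j hj.symm

theorem a_zpow_notMem {n p : ℕ} {a : Perm (DD n p)} (hn : ∀ i j, a (.inr i) ≠ .inr j) (k : ℤ) :
    a ((poly n p ^ k) (.inr 0)) ∉ extS n p := by
  rw [poly_zpow]
  rintro ⟨j, hj⟩
  exact hn _ j hj.symm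

theorem fold_walk {J R : ℕ} {ω : Om} {n p : ℕ} {a : Perm (DD n p)}
    (h : Agr (2 * R + 2 * J + 10) ω a) (hg : GoodF J R a) (l : List (Bool × Bool))
    (hl : l.length ≤ R) : ∃ u : Wd, u.norm ≤ J + 2 + l.length ∧
      l.foldr (fun x d => if x.1 then fstep ω d else if x.2 then mv ω false d
        else (mv ω false)⁻¹ d) (bd ω (-1)) = (u : Dart ω) ∧
      act (foldP a) (poly n p) (FreeGroup.mk l) (a ((poly n p)⁻¹ (.inr 0))) = pt a u ∧
      pt a u ∉ extS n p := by
  induction l with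
  | nil =>
    refine ⟨bw (-1), (norm_bw _).trans (by simp), bd_bw _ _, ?_, ?_⟩
    · simp [← FreeGroup.one_eq_mk, pt_bw]
    · rw [pt_bw]; exact a_zpow_notMem hg.1 _
  | cons x l ih =>
    rw [List.length_cons] at hl ⊢
    obtain ⟨u, h1, h2, h3, h4⟩ := ih (by omega)
    rw [List.foldr_cons, h2, act_cons (b := foldP a) _ (zp_invol _ _ _), h3]
    obtain ⟨s, t⟩ := x
    cases s
    · cases t
      · refine ⟨(FreeGroup.of false)⁻¹ * u, (norm_inv_of_mul _ _).trans (by omega),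
          mv_inv_mk ω false u, ?_, ?_⟩
        · simp [pt_mul]
        · rw [pt_mul, map_inv, act_false]; exact poly_inv_notMem h4
      · refine ⟨FreeGroup.of false * u, (norm_of_mul _ _).trans (by omega),
          mv_mk ω false u, ?_, ?_⟩
        · simp [pt_mul]
        · rw [pt_mul, act_false]; exact poly_notMem h4
    · simp only [if_true]
      rw [foldP_apply0 h.inv hg.1, zipf, if_neg h4]
      by_cases h5 : a (pt a u) ∈ extS n p
      · obtain ⟨i, hi⟩ := h5
        obtain ⟨k, hk, hk'⟩ := hg.2 (FreeGroup.mk l) (FreeGroup.norm_mk_le.trans (by omega)) i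
          (by rw [h3, hi])
        have hk := abs_le_natAbs hk
        have e : a (pt a u) = (poly n p ^ k) (.inr 0) := by rw [hk', hi]
        refine ⟨bw (-1 - k), (norm_bw _).trans (by omega), ?_, ?_, ?_⟩
        · rw [h.bdry (by omega) e, fstep, dif_pos (bd_unique h.sub k), bd_choose h.sub, bd_bw]
        · rw [if_pos ⟨i, hi⟩, e, mirF_zpow, pt_bw]
        · rw [pt_bw]; exact a_zpow_notMem hg.1 _
      · refine ⟨.of true * u, (norm_of_mul _ _).trans (by omega), ?_, ?_, ?_⟩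
        · rw [fstep, dif_neg fun ⟨k, hk, _⟩ => h.inner (by omega) h5 k hk, mv_mk]
        · rw [if_neg h5, pt_mul, act_true]
        · rwa [pt_mul, act_true]

theorem fold_local {J R : ℕ} {ω : Om} {n p : ℕ} {a : Perm (DD n p)}
    (h : Agr (2 * R + 2 * J + 10) ω a) (hg : GoodF J R a) (w : Wd) (hw : w.norm ≤ R) :
    fold ω w = true ↔ act (foldP a) (poly n p) w (a ((poly n p)⁻¹ (.inr 0))) =
      a ((poly n p)⁻¹ (.inr 0)) := by
  obtain ⟨u, h1, h2, h3, -⟩ := fold_walk h hg w.toWord hw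
  rw [FreeGroup.mk_toWord] at h3
  have h4 : w.toWord.length ≤ R := hw
  have h5 := norm_bw (-1)
  simp only [fold_eq, code, decide_eq_true_eq]
  rw [h2, h3, bd_bw, h.mk_eq (by simp at h5; omega), pt_bw, zpow_neg_one]

open Classical in
/-- the edge map of the glued map -/
noncomputable def gstep (ω : Bool → Om) (d : Σ b, Dart (ω b)) : Σ b, Dart (ω b) :=
  if h : ∃! k, d.2 = bd (ω d.1) k then ⟨!d.1, bd _ (-h.choose)⟩ else ⟨d.1, mv _ true d.2⟩

theorem glue_eq (ω : Bool → Om) : glue ω = code (D := Σ b, Dart (ω b)) (gstep ω)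
    (Equiv.sigmaCongrRight fun b => mv (ω b) false) ⟨true, bd _ 0⟩ := rfl

theorem mirG_zpow (n p : ℕ) (b : Bool) (k : ℤ) :
    mirG n p (b, (poly n p ^ k) (.inr 0)) = (!b, (poly n p ^ (-k)) (.inr 0)) := by
  rw [poly_zpow, poly_zpow, zi_neg]
  rfl

theorem glueP_apply0 {n p : ℕ} {a : Bool → Perm (DD n p)} (ha : ∀ b u, a b (a b u) = u)
    (hn : ∀ b i j, a b (.inr i) ≠ .inr j) (d : Bool × DD n p) :
    glueP a d = zipf {x | x.2 ∈ extS n p} (mirG n p) (Equiv.prodCongrRight a) d := by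
  refine zp_apply ?_ ?_ ?_ ?_ d
  · rintro ⟨b, y | i⟩ <;> simp [mirG]
  · rintro ⟨b, _⟩ ⟨i, rfl⟩
    exact ⟨-i, rfl⟩
  · rintro ⟨b, u⟩
    simp [ha]
  · rintro ⟨b, _⟩ ⟨i, rfl⟩ ⟨j, hj⟩
    exact hn b i j hj.symm

theorem glue_walk {J R : ℕ} {ω : Bool → Om} {n p : ℕ} {a : Bool → Perm (DD n p)}
    (h : ∀ b, Agr (2 * R + 2 * J + 10) (ω b) (a b)) (hg : GoodG J R a) (l : List (Bool × Bool))
    (hl : l.length ≤ R) : ∃ (b : Bool) (u : Wd), u.norm ≤ J + 2 + l.length ∧
      l.foldr (fun x (d : Σ b, Dart (ω b)) => if x.1 then gstep ω d else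
        if x.2 then (Equiv.sigmaCongrRight fun b => mv (ω b) false) d
        else (Equiv.sigmaCongrRight fun b => mv (ω b) false : Perm _)⁻¹ d) ⟨true, bd _ 0⟩ =
          ⟨b, (u : Dart (ω b))⟩ ∧
      act (glueP a) (gpoly n p) (FreeGroup.mk l) (true, a true (.inr 0)) = (b, pt (a b) u) ∧
      pt (a b) u ∉ extS n p := by
  induction l with
  | nil =>
    refine ⟨true, bw 0, (norm_bw _).trans (by simp), by rw [← bd_bw]; rfl, ?_, ?_⟩
    · simp [← FreeGroup.one_eq_mk, pt_bw]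
    · rw [pt_bw]; exact a_zpow_notMem (hg.1 _) _
  | cons x l ih =>
    rw [List.length_cons] at hl ⊢
    obtain ⟨b, u, h1, h2, h3, h4⟩ := ih (by omega)
    rw [List.foldr_cons, h2, act_cons (b := glueP a) _ (zp_invol _ _ _), h3]
    obtain ⟨s, t⟩ := x
    cases s
    · cases t
      · refine ⟨b, (.of false)⁻¹ * u, (norm_inv_of_mul _ _).trans (by omega), ?_, ?_, ?_⟩
        · rw [← mv_inv_mk]; rfl
        · rw [pt_mul, map_inv, act_false]; rfl
        · rw [pt_mul, map_inv, act_false]; exact poly_inv_notMem h4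
      · refine ⟨b, .of false * u, (norm_of_mul _ _).trans (by omega), ?_, ?_, ?_⟩
        · rw [← mv_mk]; rfl
        · rw [pt_mul, act_false]; rfl
        · rw [pt_mul, act_false]; exact poly_notMem h4
    · simp only [if_true]
      rw [glueP_apply0 (fun b => (h b).inv) hg.1, zipf, if_neg (by exact h4)]
      have e0 : Equiv.prodCongrRight a (b, pt (a b) u) = (b, a b (pt (a b) u)) := rfl
      by_cases h5 : a b (pt (a b) u) ∈ extS n p
      · obtain ⟨i, hi⟩ := h5
        obtain ⟨k, hk, hk'⟩ := hg.2 (FreeGroup.mk l) (FreeGroup.norm_mk_le.trans (by omega)) b i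
          (by rw [h3, e0, hi])
        have hk := abs_le_natAbs hk
        have e : a b (pt (a b) u) = (poly n p ^ k) (.inr 0) := by rw [hk', hi]
        refine ⟨!b, bw (-k), (norm_bw _).trans (by omega), ?_, ?_, ?_⟩
        · rw [(h b).bdry (by omega) e, gstep, dif_pos (bd_unique (h b).sub k),
            bd_choose (h b).sub, ← bd_bw]
        · rw [if_pos (by exact ⟨i, hi⟩), e0, e, mirG_zpow, pt_bw]; rfl
        · rw [pt_bw]; exact a_zpow_notMem (hg.1 _) _
      · refine ⟨b, .of true * u, (norm_of_mul _ _).trans (by omega), ?_, ?_, ?_⟩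
        · rw [gstep, dif_neg fun ⟨k, hk, _⟩ => (h b).inner (by omega) h5 k hk, mv_mk]
        · rw [if_neg (by exact h5), pt_mul, act_true, e0]
        · rwa [pt_mul, act_true]

theorem glue_local {J R : ℕ} {ω : Bool → Om} {n p : ℕ} {a : Bool → Perm (DD n p)}
    (h : ∀ b, Agr (2 * R + 2 * J + 10) (ω b) (a b)) (hg : GoodG J R a) (w : Wd)
    (hw : w.norm ≤ R) : glue ω w = true ↔
      act (glueP a) (gpoly n p) w (true, a true (.inr 0)) = (true, a true (.inr 0)) := by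
  obtain ⟨b, u, h1, h2, h3, -⟩ := glue_walk h hg w.toWord hw
  rw [FreeGroup.mk_toWord] at h3
  have h4 : w.toWord.length ≤ R := hw
  have h5 := norm_bw 0
  simp only [glue_eq, code, decide_eq_true_eq]
  rw [h2, h3]
  cases b
  · simp
  · rw [Sigma.mk.inj_iff, heq_eq_eq, bd_bw, (h true).mk_eq (by simp at h5; omega), pt_bw]
    simp

end Pool.Agent.Lib.MP_abd955_pr
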