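import Pool.Agent.Lib.MP_abd955_pr.Stmt

namespace Pool.Agent.Lib.MP_abd955_pr

open Equiv MeasureTheory

theorem mem_closure_iff_finset {G : Type} [Group G] (S : Set G) (g : G) :
    g ∈ Subgroup.closure S ↔
      ∃ T : Finset G, (∀ t ∈ T, t ∈ S) ∧ g ∈ Subgroup.closure (T : Set G) := by
  classical
  constructor
  · intro h
    induction h using Subgroup.closure_induction with
    | mem x hx => exact ⟨{x}, by simpa using hx, Subgroup.subset_closure (by simp)⟩
    | one => exact ⟨∅, by simp, one_mem _⟩
    | mul x y _ _ hx hy =>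
      obtain ⟨T, hT, hx⟩ := hx
      obtain ⟨U, hU, hy⟩ := hy
      refine ⟨T ∪ U, ?_, mul_mem (Subgroup.closure_mono (by simp) hx)
        (Subgroup.closure_mono (by simp) hy)⟩
      intro t ht
      rcases Finset.mem_union.1 ht with h | h
      · exact hT t h
      · exact hU t h
    | inv x _ hx =>
      obtain ⟨T, hT, hx⟩ := hx
      exact ⟨T, hT, inv_mem hx⟩
  · rintro ⟨T, hT, h⟩
    exact Subgroup.closure_mono (fun t ht => hT t ht) h

theorem meas_coord (w : Wd) : Measurable fun ω : Om => ω w = true :=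
  (measurable_of_countable fun b : Bool => b = true).comp (measurable_pi_apply w)

theorem meas_mem_closure (g : Wd) :
    Measurable fun ω : Om => g ∈ Subgroup.closure {w | ω w = true} := by
  have h : (fun ω : Om => g ∈ Subgroup.closure {w | ω w = true}) = fun ω : Om =>
      ∃ T : Finset Wd, (∀ t ∈ T, ω t = true) ∧ g ∈ Subgroup.closure (T : Set Wd) :=
    funext fun ω => propext (mem_closure_iff_finset _ g)
  rw [h]
  refine Measurable.exists fun T => Measurable.and ?_ measurable_const
  exact Measurable.forall fun t => Measurable.imp measurable_const (meas_coord t)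

theorem meas_dart_eq (u v : Wd) :
    Measurable fun ω : Om => ((u : Wd) : Dart ω) = ((v : Wd) : Dart ω) := by
  simp_rw [QuotientGroup.eq]
  exact meas_mem_closure _

theorem mv_coe (ω : Om) (x : Bool) (u : Wd) :
    mv ω x (u : Dart ω) = ((FreeGroup.of x * u : Wd) : Dart ω) := rfl

theorem mv_zpow_coe (ω : Om) (x : Bool) (k : ℤ) (u : Wd) :
    (mv ω x ^ k) (u : Dart ω) = ((FreeGroup.of x ^ k * u : Wd) : Dart ω) := by
  have : mv ω x ^ k = MulAction.toPermHom Wd (Dart ω) (FreeGroup.of x ^ k) := by
    rw [map_zpow]; rfl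
  rw [this]; rfl

theorem bd_eq (ω : Om) (k : ℤ) :
    bd ω k = ((FreeGroup.of true * FreeGroup.of false ^ k : Wd) : Dart ω) := by
  unfold bd
  rw [mv_zpow_coe, mv_coe, mul_one]

theorem measurable_code {Ω I : Type} [MeasurableSpace Ω] [Countable I] (D : Ω → Type)
    (π : ∀ ω, I → D ω) (hπ : ∀ ω, Function.Surjective (π ω))
    (he : ∀ i j, Measurable fun ω => π ω i = π ω j)
    (a : ∀ ω, D ω → D ω) (f : ∀ ω, Perm (D ω)) (r : I)
    (ha : ∀ i j, Measurable fun ω => a ω (π ω i) = π ω j)
    (hf : ∀ i j, Measurable fun ω => f ω (π ω i) = π ω j) :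
    Measurable fun ω => code (a ω) (f ω) (π ω r) := by
  have key : ∀ (l : List (Bool × Bool)) (j : I), Measurable fun ω =>
      l.foldr (fun x d => if x.1 then a ω d else if x.2 then f ω d else (f ω)⁻¹ d) (π ω r)
        = π ω j := by
    intro l
    induction l with
    | nil => intro j; exact he r j
    | cons x l ih =>
      intro j
      have h1 : (fun ω => (x :: l).foldr
          (fun x d => if x.1 then a ω d else if x.2 then f ω d else (f ω)⁻¹ d) (π ω r) = π ω j)
          = fun ω => ∃ i, l.foldr
            (fun x d => if x.1 then a ω d else if x.2 then f ω d else (f ω)⁻¹ d) (π ω r) = π ω i ∧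
            (if x.1 then a ω (π ω i) else if x.2 then f ω (π ω i) else (f ω)⁻¹ (π ω i))
              = π ω j := by
        funext ω
        rw [List.foldr_cons]
        apply propext
        constructor
        · intro h
          obtain ⟨i, hi⟩ := hπ ω (l.foldr
            (fun x d => if x.1 then a ω d else if x.2 then f ω d else (f ω)⁻¹ d) (π ω r))
          exact ⟨i, hi.symm, by rw [hi]; exact h⟩
        · rintro ⟨i, hi, h⟩
          rw [hi]; exact h
      rw [h1]
      refine Measurable.exists fun i => Measurable.and (ih i) ?_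
      obtain ⟨x1, x2⟩ := x
      cases x1
      · cases x2
        · have h2 : (fun ω => (f ω)⁻¹ (π ω i) = π ω j) = fun ω => f ω (π ω j) = π ω i := by
            funext ω
            exact propext (Perm.inv_eq_iff_eq.trans eq_comm)
          have h3 := hf j i
          rw [← h2] at h3
          simpa using h3
        · simpa using hf i j
      · simpa using ha i j
  refine measurable_pi_lambda _ fun w => measurable_to_bool ?_
  have := measurableSet_setOfPred.2 (key w.toWord r)
  convert this using 1
  ext ω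
  simp [code]

theorem dite_eu {α : Type} {P : ℤ → Prop} [Decidable (∃! k, P k)] (g : ℤ → α) (y z : α) :
    ((if h : ∃! k, P k then g h.choose else y) = z) ↔
      (∃ k, (P k ∧ ∀ j, P j → j = k) ∧ g k = z) ∨
        ((¬∃ k, P k ∧ ∀ j, P j → j = k) ∧ y = z) := by
  split_ifs with h
  · constructor
    · intro h1
      exact Or.inl ⟨h.choose, h.choose_spec, h1⟩
    · rintro (⟨k, hk, h1⟩ | ⟨h1, _⟩)
      · rw [hk.2 _ h.choose_spec.1]; exact h1
      · exact absurd h h1
  · constructor
    · intro h1
      exact Or.inr ⟨h, h1⟩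
    · rintro (⟨k, hk, _⟩ | ⟨_, h1⟩)
      · exact absurd ⟨k, hk⟩ h
      · exact h1

theorem measurable_fold : Measurable fold := by
  classical
  have h := measurable_code (I := Wd) Dart (fun ω u => (u : Dart ω))
    (fun ω => QuotientGroup.mk_surjective) meas_dart_eq
    (fun ω d => if h : ∃! k, d = bd ω k then bd ω (-1 - h.choose) else mv ω true d)
    (fun ω => mv ω false) (FreeGroup.of true * FreeGroup.of false ^ (-1 : ℤ)) ?_ ?_
  · convert h using 1
    funext ω
    unfold fold
    rw [bd_eq ω (-1)]
  · intro u v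
    have h1 : ∀ ω : Om, _ := fun ω => dite_eu (P := fun k => (u : Dart ω) = bd ω k)
      (fun k => bd ω (-1 - k)) (mv ω true (u : Dart ω)) (v : Dart ω)
    simp_rw [h1, bd_eq, mv_coe]
    have h2 : ∀ k : ℤ, Measurable fun ω : Om =>
        (u : Dart ω) = ((FreeGroup.of true * FreeGroup.of false ^ k : Wd) : Dart ω) ∧
        ∀ j : ℤ, (u : Dart ω) = ((FreeGroup.of true * FreeGroup.of false ^ j : Wd) : Dart ω)
          → j = k := fun k =>
      (meas_dart_eq _ _).and (Measurable.forall fun j =>
        (meas_dart_eq _ _).imp measurable_const)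
    exact (Measurable.exists fun k => (h2 k).and (meas_dart_eq _ _)).or
      ((Measurable.exists h2).not.and (meas_dart_eq _ _))
  · intro u v
    simp_rw [mv_coe]
    exact meas_dart_eq _ _

theorem meas_sig_eq (b c : Bool) (u v : Wd) :
    Measurable fun ω : Bool → Om =>
      (⟨b, (u : Dart (ω b))⟩ : Σ b, Dart (ω b)) = ⟨c, (v : Dart (ω c))⟩ := by
  by_cases h : b = c
  · subst h
    simp_rw [Sigma.mk.inj_iff, heq_eq_eq, true_and]
    exact (meas_dart_eq u v).comp (measurable_pi_apply b)
  · simp_rw [Sigma.mk.inj_iff, h, false_and]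
    exact measurable_const

theorem measurable_glue : Measurable glue := by
  classical
  have h := measurable_code (I := Bool × Wd) (fun ω : Bool → Om => Σ b, Dart (ω b))
    (fun ω u => ⟨u.1, (u.2 : Dart (ω u.1))⟩) ?_ (fun i j => meas_sig_eq _ _ _ _)
    (fun ω d => if h : ∃! k, d.2 = bd (ω d.1) k then ⟨!d.1, bd _ (-h.choose)⟩
      else ⟨d.1, mv _ true d.2⟩)
    (fun ω => Equiv.sigmaCongrRight fun b => mv (ω b) false)
    (true, FreeGroup.of true * FreeGroup.of false ^ (0 : ℤ)) ?_ ?_
  · convert h using 1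
    funext ω
    unfold glue
    rw [bd_eq (ω true) 0]
  · rintro ω ⟨b, d⟩
    obtain ⟨u, rfl⟩ := QuotientGroup.mk_surjective d
    exact ⟨(b, u), rfl⟩
  · rintro ⟨b, u⟩ ⟨c, v⟩
    have h1 : ∀ ω : Bool → Om, _ := fun ω =>
      dite_eu (α := Σ b, Dart (ω b)) (P := fun k => (u : Dart (ω b)) = bd (ω b) k)
      (fun k => ⟨!b, bd _ (-k)⟩) ⟨b, mv _ true (u : Dart (ω b))⟩ ⟨c, (v : Dart (ω c))⟩
    simp_rw [h1, bd_eq, mv_coe]
    have h0 : ∀ u v : Wd, Measurable fun ω : Bool → Om =>
        (u : Dart (ω b)) = (v : Dart (ω b)) := fun u v =>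
      (meas_dart_eq u v).comp (measurable_pi_apply b)
    have h2 : ∀ k : ℤ, Measurable fun ω : Bool → Om =>
        (u : Dart (ω b)) = ((FreeGroup.of true * FreeGroup.of false ^ k : Wd) : Dart (ω b)) ∧
        ∀ j : ℤ, (u : Dart (ω b)) =
          ((FreeGroup.of true * FreeGroup.of false ^ j : Wd) : Dart (ω b)) → j = k := fun k =>
      (h0 _ _).and (Measurable.forall fun j => (h0 _ _).imp measurable_const)
    exact (Measurable.exists fun k => (h2 k).and (meas_sig_eq _ _ _ _)).or
      ((Measurable.exists h2).not.and (meas_sig_eq _ _ _ _))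
  · rintro ⟨b, u⟩ ⟨c, v⟩
    exact meas_sig_eq b c (FreeGroup.of false * u) v

end Pool.Agent.Lib.MP_abd955_pr
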