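import Pool.Agent.Lib.MP_abd955_pr.MeasB
import Pool.Agent.Lib.MP_abd955_pr.MeasFG

namespace Pool.Agent.Lib.MP_abd955_pr

open Equiv Finset MeasureTheory ProbabilityTheory Filter Topology
open scoped ENNReal

theorem singular_of_small {Ω : Type} [MeasurableSpace Ω] (μ ν : Measure Ω)
    (h : ∀ ε : ℝ, 0 < ε → ∃ A, μ Aᶜ ≤ ENNReal.ofReal ε ∧ ν A ≤ ENNReal.ofReal ε ∧
      MeasurableSet A) : μ ⟂ₘ ν := by
  choose A h1 h2 h3 using fun k : ℕ => h ((1 / 2) ^ k) (by positivity)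
  have hs : ∑' k : ℕ, ENNReal.ofReal ((1 / 2) ^ k) ≠ ∞ := by
    rw [← ENNReal.ofReal_tsum_of_nonneg (fun _ => by positivity) summable_geometric_two]
    exact ENNReal.ofReal_ne_top
  have e1 : μ (limsup (fun k => (A k)ᶜ) atTop) = 0 :=
    measure_limsup_atTop_eq_zero (ne_top_of_le_ne_top hs (ENNReal.tsum_le_tsum h1))
  have e2 : ν (limsup A atTop) = 0 :=
    measure_limsup_atTop_eq_zero (ne_top_of_le_ne_top hs (ENNReal.tsum_le_tsum h2))
  refine ⟨limsup (fun k => (A k)ᶜ) atTop,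
    MeasurableSet.measurableSet_limsup fun k => (h3 k).compl, e1, measure_mono_null ?_ e2⟩
  intro x hx
  rw [Set.mem_compl_iff, mem_limsup_iff_frequently_mem, not_frequently] at hx
  rw [mem_limsup_iff_frequently_mem]
  exact (hx.mono fun k hk => by simpa using hk).frequently

theorem ratio_le {a b : ℕ} {ε : ℝ} (hε : 0 < ε) (h : (a : ℝ) ≤ ε * b) :
    (a : ℝ≥0∞) / b ≤ ENNReal.ofReal ε := by
  refine ENNReal.div_le_of_le_mul ?_
  rw [← ENNReal.ofReal_natCast a, ← ENNReal.ofReal_natCast b, ← ENNReal.ofReal_mul hε.le]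
  exact ENNReal.ofReal_le_ofReal h

theorem lim_le {μ : ℕ → Measure Om} {ν : Measure Om} (h : Lim μ ν) {C : Set Om}
    (hC : IsClopen C) {c : ℝ≥0∞} (hc : ∀ᶠ n in atTop, μ n C ≤ c) : ν C ≤ c :=
  le_of_tendsto (h.2 C hC) hc

theorem null_of_disc {H : Measure Om} {Hp : ℕ → Measure Om}
    (hp : ∀ p, Lim (fun n => uniformOn (disc n p)) (Hp p)) (hH : Lim Hp H) {C : Set Om}
    (hC : IsClopen C) (h : ∀ᶠ p : ℕ in atTop, ∀ n, ∀ a ∈ DiscS n p,
      code a (poly n p) (.inr 0) ∉ C) : H C = 0 := by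
  classical
  refine nonpos_iff_eq_zero.1 (lim_le hH hC (h.mono fun p h => lim_le (hp p) hC ?_))
  refine Eventually.of_forall fun n => ?_
  rw [uniformOn_disc, filter_eq_empty_iff.2 (h n)]
  simp

theorem invol_of_mem {n p : ℕ} {a : Perm (DD n p)} (ha : a ∈ DiscS n p) (d : DD n p) :
    a (a d) = d := ((mem_DiscS.1 ha).1.1 d).1

theorem isClopen_coord (w : Wd) (b : Bool) : IsClopen {ω : Om | ω w = b} :=
  (isClopen_discrete {b}).preimage (continuous_apply w)

theorem sub_null {H : Measure Om} {Hp : ℕ → Measure Om}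
    (hp : ∀ p, Lim (fun n => uniformOn (disc n p)) (Hp p)) (hH : Lim Hp H) : H Subᶜ = 0 := by
  have e : Subᶜ ⊆ ({ω | ω 1 = true}ᶜ ∪ ⋃ u : Wd, ⋃ v : Wd,
      ({ω : Om | ω u = true} ∩ {ω | ω v = true} ∩ {ω | ω (u * v) = true}ᶜ)) ∪
      ((⋃ u : Wd, {ω : Om | ω u = true} ∩ {ω | ω u⁻¹ = true}ᶜ) ∪
        ⋃ k : {k : ℤ // k ≠ 0}, {ω | ω (.of false ^ k.1) = true}) := by
    intro ω hω
    by_contra hn
    apply hω
    simp only [Set.mem_union, Set.mem_compl_iff, Set.mem_ofPred_eq, Set.mem_iUnion,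
      Set.mem_inter_iff, not_or, not_exists, not_and, not_not, Subtype.forall, and_imp] at hn
    obtain ⟨⟨h1, h2⟩, h3, h4⟩ := hn
    exact ⟨h1, h2, h3, fun k hk => by simpa using h4 k hk⟩
  refine measure_mono_null e (measure_union_null (measure_union_null ?_
    (measure_iUnion_null fun u => measure_iUnion_null fun v => ?_))
    (measure_union_null (measure_iUnion_null fun u => ?_) (measure_iUnion_null fun k => ?_)))
  · refine null_of_disc hp hH (isClopen_coord _ _).compl (Eventually.of_forall fun p n a ha => ?_)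
    simp [code_iff _ (invol_of_mem ha)]
  · refine null_of_disc hp hH (((isClopen_coord _ _).inter (isClopen_coord _ _)).inter
      (isClopen_coord _ _).compl) (Eventually.of_forall fun p n a ha => ?_)
    rintro ⟨⟨h1, h2⟩, h3⟩
    apply h3
    simp only [Set.mem_ofPred_eq, code_iff _ (invol_of_mem ha)] at h1 h2 ⊢
    rw [act_mul, h2, h1]
  · refine null_of_disc hp hH ((isClopen_coord _ _).inter (isClopen_coord _ _).compl)
      (Eventually.of_forall fun p n a ha => ?_)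
    rintro ⟨h1, h3⟩
    apply h3
    simp only [Set.mem_ofPred_eq, code_iff _ (invol_of_mem ha)] at h1 ⊢
    rw [map_inv, Perm.inv_eq_iff_eq, h1]
  · refine null_of_disc hp hH (isClopen_coord _ _)
      ((eventually_ge_atTop k.1.natAbs).mono fun p hk n a ha h => ?_)
    simp only [Set.mem_ofPred_eq, code_iff _ (invol_of_mem ha), map_zpow, act_false,
      poly_zpow, Sum.inr.injEq] at h
    have h1 := Int.natAbs_dvd_natAbs.2 (zi_eq_zero h)
    have h2 := Nat.le_of_dvd (Int.natAbs_pos.2 k.2) h1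
    rw [Int.natAbs_natCast] at h2
    omega

/-- the codes that look like a finite map with property P -/
def locA (R : ℕ) (P : ∀ D : Type, Perm D → Perm D → D → Prop) : Set Om :=
  {ω | ∃ (D : Type) (b f : Perm D) (r : D), P D b f r ∧
    ∀ w : Wd, w.norm ≤ R → (ω w = true ↔ act b f w r = r)}

theorem isClopen_locA (R : ℕ) (P : ∀ D : Type, Perm D → Perm D → D → Prop) :
    IsClopen (locA R P) :=
  isClopen_of_local R _ fun _ _ h ⟨D, b, f, r, h1, h2⟩ =>
    ⟨D, b, f, r, h1, fun w hw => by rw [← h w hw, h2 w hw]⟩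

theorem mem_locA {R : ℕ} {P : ∀ D : Type, Perm D → Perm D → D → Prop} (hP : LocalP R P)
    {ω : Om} {D : Type} {b f : Perm D} {r : D}
    (h : ∀ w : Wd, w.norm ≤ R → (ω w = true ↔ act b f w r = r)) : ω ∈ locA R P ↔ P D b f r :=
  ⟨fun ⟨_, _, _, _, h1, h2⟩ => hP _ _ _ _ _ _ _ _
    (fun w hw => by rw [← h w hw, h2 w hw]) h1, fun h1 => ⟨D, b, f, r, h1, h⟩⟩

theorem agr_of {R : ℕ} {ω : Om} {n p : ℕ} {a : Perm (DD n p)} (ha : a ∈ DiscS n p)
    (hω : ω ∈ Sub) (h : res R ω = res R (code a (poly n p) (.inr 0))) : Agr R ω a :=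
  ⟨hω, invol_of_mem ha, fun w hw => by
    rw [← code_iff _ (invol_of_mem ha)]
    exact Bool.eq_iff_iff.1 (congrFun h ⟨w, hw⟩)⟩

theorem fold_bound {R J : ℕ} {P : ∀ D : Type, Perm D → Perm D → D → Prop} (hP : LocalP R P)
    {H : Measure Om} {Hp : ℕ → Measure Om}
    (hp : ∀ p, Lim (fun n => uniformOn (disc n p)) (Hp p)) (hH : Lim Hp H) {ε : ℝ} (hε : 0 < ε)
    [∀ n p, DecidablePred fun a : Perm (DD n p) => ¬(GoodF J R a ∧
      P _ (foldP a) (poly n p) (a ((poly n p)⁻¹ (.inr 0))))]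
    (h : ∀ᶠ p : ℕ in atTop, ∀ᶠ n : ℕ in atTop,
      ((((DiscS n p).filter fun a => ¬(GoodF J R a ∧
        P _ (foldP a) (poly n p) (a ((poly n p)⁻¹ (.inr 0))))).card : ℝ)
          ≤ ε * (DiscS n p).card)) :
    H.map fold (locA R P)ᶜ ≤ ENNReal.ofReal ε := by
  classical
  rw [Measure.map_apply measurable_fold (isClopen_locA R P).compl.isOpen.measurableSet]
  let C : Set Om := res (2 * R + 2 * J + 10) ⁻¹'
    (res (2 * R + 2 * J + 10) '' (Sub ∩ fold ⁻¹' (locA R P)ᶜ))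
  have hC : IsClopen C := isClopen_res _ _
  have e : fold ⁻¹' (locA R P)ᶜ ⊆ C ∪ Subᶜ := by
    intro ω hω
    by_cases hs : ω ∈ Sub
    · exact Or.inl ⟨ω, ⟨hs, hω⟩, rfl⟩
    · exact Or.inr hs
  refine (measure_mono e).trans ((measure_union_le _ _).trans ?_)
  rw [sub_null hp hH, add_zero]
  refine lim_le hH hC (h.mono fun p h => lim_le (hp p) hC (h.mono fun n h => ?_))
  rw [uniformOn_disc]
  refine ratio_le hε (le_trans ?_ h)
  refine Nat.cast_le.2 (card_le_card fun a ha => ?_)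
  obtain ⟨ha, ω, ⟨h1, h2⟩, h3⟩ := mem_filter.1 ha
  refine mem_filter.2 ⟨ha, fun ⟨h4, h5⟩ => h2 ?_⟩
  exact (mem_locA hP (fold_local (agr_of ha h1 h3) h4)).2 h5

open Classical in
theorem pi_apply_res (R : ℕ) (T : Set (Bool → {w : Wd // w.norm ≤ R} → Bool))
    [Fintype (Bool → {w : Wd // w.norm ≤ R} → Bool)] (μ : Measure Om) [SigmaFinite μ] :
    (Measure.pi fun _ : Bool => μ) {ω | (fun b => res R (ω b)) ∈ T} =
      ∑ κ with κ ∈ T, ∏ b, μ (res R ⁻¹' {κ b}) := by
  have e : {ω : Bool → Om | (fun b => res R (ω b)) ∈ T} =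
      ⋃ κ ∈ ({κ | κ ∈ T} : Finset _), Set.univ.pi fun b => res R ⁻¹' {κ b} := by
    ext ω
    simp only [Set.mem_ofPred_eq, mem_filter, mem_univ, true_and, Set.mem_iUnion, Set.mem_pi,
      Set.mem_univ, Set.mem_preimage, Set.mem_singleton_iff, forall_const, exists_prop]
    exact ⟨fun h => ⟨_, h, fun _ => rfl⟩, fun ⟨κ, h1, h2⟩ => (funext h2 : _ = κ) ▸ h1⟩
  rw [e, measure_biUnion_finset]
  · exact sum_congr rfl fun κ _ => Measure.pi_pi _ _
  · intro κ _ κ' _ hne
    refine Set.disjoint_left.2 fun ω h1 h2 => hne (funext fun b => ?_)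
    exact (h1 b trivial : _ = κ b).symm.trans (h2 b trivial)
  · exact fun κ _ => MeasurableSet.univ_pi fun b => (isClopen_res R _).isOpen.measurableSet

theorem pi_lim_le {μ : ℕ → Measure Om} {ν : Measure Om} (h : Lim μ ν)
    [∀ n, IsFiniteMeasure (μ n)] (R : ℕ) (T : Set (Bool → {w : Wd // w.norm ≤ R} → Bool))
    {c : ℝ≥0∞} (hc : ∀ᶠ n in atTop,
      (Measure.pi fun _ : Bool => μ n) {ω | (fun b => res R (ω b)) ∈ T} ≤ c) :
    (Measure.pi fun _ : Bool => ν) {ω | (fun b => res R (ω b)) ∈ T} ≤ c := by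
  classical
  have := h.1
  have := Fintype.ofFinite (Bool → {w : Wd // w.norm ≤ R} → Bool)
  simp only [pi_apply_res] at hc ⊢
  refine le_of_tendsto (tendsto_finsetSum _ fun κ _ => ?_) hc
  exact ENNReal.tendsto_finsetProd_of_ne_top _ (fun b _ => h.2 _ (isClopen_res R _))
    fun b _ => measure_ne_top _ _

open Classical in
theorem pi_uniform (n p R : ℕ) (T : Set (Bool → {w : Wd // w.norm ≤ R} → Bool)) :
    (Measure.pi fun _ : Bool => uniformOn (disc n p)) {ω | (fun b => res R (ω b)) ∈ T} =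
      (#((Fintype.piFinset fun _ : Bool => DiscS n p).filter fun a : Bool → Perm (DD n p) =>
        (fun b => res R (code (a b) (poly n p) (.inr 0))) ∈ T) : ℝ≥0∞) /
          #(Fintype.piFinset fun _ : Bool => DiscS n p) := by
  have := Fintype.ofFinite (Bool → {w : Wd // w.norm ≤ R} → Bool)
  rw [pi_apply_res, card_eq_sum_card_fiberwise (t := ({κ | κ ∈ T} : Finset _))
    (f := fun a b => res R (code (a b) (poly n p) (.inr 0)))]
  · rw [Nat.cast_sum, div_eq_mul_inv, sum_mul]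
    refine sum_congr rfl fun κ hκ => ?_
    have hκ : κ ∈ T := (mem_filter.1 hκ).2
    have e : (((Fintype.piFinset fun _ : Bool => DiscS n p).filter
        fun a : Bool → Perm (DD n p) =>
          (fun b => res R (code (a b) (poly n p) (.inr 0))) ∈ T).filter
        fun a => (fun b => res R (code (a b) (poly n p) (.inr 0))) = κ) =
        Fintype.piFinset fun b => (DiscS n p).filter fun a : Perm (DD n p) =>
          code a (poly n p) (.inr 0) ∈ res R ⁻¹' {κ b} := by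
      ext a
      simp only [mem_filter, Fintype.mem_piFinset, Set.mem_preimage, Set.mem_singleton_iff]
      exact ⟨fun ⟨⟨h1, _⟩, h3⟩ b => ⟨h1 b, congrFun h3 b⟩, fun h =>
        ⟨⟨fun b => (h b).1, (funext fun b => (h b).2 : _ = κ) ▸ hκ⟩, funext fun b => (h b).2⟩⟩
    rw [e, Fintype.card_piFinset, Fintype.card_piFinset]
    simp only [uniformOn_disc, Fintype.prod_bool, Nat.cast_mul, div_eq_mul_inv]
    rw [ENNReal.mul_inv (Or.inr (ENNReal.natCast_ne_top _)) (Or.inl (ENNReal.natCast_ne_top _))]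
    ring
  · intro a ha
    exact mem_coe.2 (mem_filter.2 ⟨mem_univ _, (mem_filter.1 (mem_coe.1 ha)).2⟩)

theorem glue_bound {R J : ℕ} {P : ∀ D : Type, Perm D → Perm D → D → Prop} (hP : LocalP R P)
    {H : Measure Om} {Hp : ℕ → Measure Om}
    (hp : ∀ p, Lim (fun n => uniformOn (disc n p)) (Hp p)) (hH : Lim Hp H) {ε : ℝ} (hε : 0 < ε)
    [∀ n p, DecidablePred fun a : Bool → Perm (DD n p) => ¬(GoodG J R a ∧
      ¬P _ (glueP a) (gpoly n p) (true, a true (.inr 0)))]
    (h : ∀ᶠ p : ℕ in atTop, ∀ᶠ n : ℕ in atTop,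
      ((((Fintype.piFinset fun _ : Bool => DiscS n p).filter fun a => ¬(GoodG J R a ∧
        ¬P _ (glueP a) (gpoly n p) (true, a true (.inr 0)))).card : ℝ)
          ≤ ε * (Fintype.piFinset fun _ : Bool => DiscS n p).card)) :
    (Measure.pi fun _ : Bool => H).map glue (locA R P) ≤ ENNReal.ofReal ε := by
  classical
  have := hH.1
  have := fun p => (hp p).1
  rw [Measure.map_apply measurable_glue (isClopen_locA R P).isOpen.measurableSet]
  let T := (fun (ω : Bool → Om) b => res (2 * R + 2 * J + 10) (ω b)) ''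
    {ω | (∀ b, ω b ∈ Sub) ∧ glue ω ∈ locA R P}
  have e : glue ⁻¹' locA R P ⊆ {ω | (fun b => res (2 * R + 2 * J + 10) (ω b)) ∈ T} ∪
      ⋃ b, Function.eval b ⁻¹' Subᶜ := by
    intro ω hω
    by_cases hs : ∀ b, ω b ∈ Sub
    · exact Or.inl ⟨ω, ⟨hs, hω⟩, rfl⟩
    · obtain ⟨b, hb⟩ := not_forall.1 hs
      exact Or.inr (Set.mem_iUnion.2 ⟨b, hb⟩)
  refine (measure_mono e).trans ((measure_union_le _ _).trans ?_)
  rw [measure_iUnion_null fun b => Measure.pi_eval_preimage_null _ (sub_null hp hH), add_zero]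
  refine pi_lim_le hH _ T (h.mono fun p h => pi_lim_le (hp p) _ T (h.mono fun n h => ?_))
  rw [pi_uniform]
  refine ratio_le hε (le_trans ?_ h)
  refine Nat.cast_le.2 (card_le_card fun a ha => ?_)
  obtain ⟨ha, ω, ⟨h1, h2⟩, h3⟩ := mem_filter.1 ha
  refine mem_filter.2 ⟨ha, fun ⟨h4, h5⟩ => h5 ?_⟩
  exact (mem_locA hP (glue_local (fun b => agr_of (Fintype.mem_piFinset.1 ha b) (h1 b)
    (congrFun h3 b)) h4)).1 h2

open Classical in
theorem singular_of_finite
    (hfin : ∀ ε : ℝ, 0 < ε → ∃ (R J : ℕ) (P : ∀ D : Type, Perm D → Perm D → D → Prop),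
      LocalP R P ∧
      (∀ᶠ p : ℕ in atTop, ∀ᶠ n : ℕ in atTop,
        ((((DiscS n p).filter fun a => ¬(GoodF J R a ∧
          P _ (foldP a) (poly n p) (a ((poly n p)⁻¹ (.inr 0))))).card : ℝ)
            ≤ ε * (DiscS n p).card)) ∧
      (∀ᶠ n : ℕ in atTop,
        ((((SphS n).filter fun x => P _ x.1 (sq n) x.2).card : ℝ) ≤ ε * (SphS n).card)) ∧
      (∀ᶠ p : ℕ in atTop, ∀ᶠ n : ℕ in atTop,
        ((((Fintype.piFinset fun _ : Bool => DiscS n p).filter fun a => ¬(GoodG J R a ∧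
          ¬P _ (glueP a) (gpoly n p) (true, a true (.inr 0)))).card : ℝ)
            ≤ ε * (Fintype.piFinset fun _ : Bool => DiscS n p).card)))
    (Q H : Measure Om) (Hp : ℕ → Measure Om) (hQ : Lim (fun n => uniformOn (sphere n)) Q)
    (hp : ∀ p, Lim (fun n => uniformOn (disc n p)) (Hp p)) (hH : Lim Hp H) :
    H.map fold ⟂ₘ Q ∧ H.map fold ⟂ₘ (Measure.pi fun _ : Bool => H).map glue := by
  constructor <;> refine singular_of_small _ _ fun ε hε => ?_ <;>
    obtain ⟨R, J, P, hP, h1, h2, h3⟩ := hfin ε hε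
  · refine ⟨locA R P, fold_bound hP hp hH hε h1, lim_le hQ (isClopen_locA R P)
      (h2.mono fun n h => ?_), (isClopen_locA R P).isOpen.measurableSet⟩
    rw [uniformOn_sphere]
    refine ratio_le hε (le_trans ?_ h)
    refine Nat.cast_le.2 (card_le_card fun x hx => ?_)
    obtain ⟨hx, h4⟩ := mem_filter.1 hx
    refine mem_filter.2 ⟨hx, (mem_locA hP fun w _ => ?_).1 h4⟩
    exact code_iff _ (fun d => ((mem_SphS.1 hx).1 d).1) _ _
  · exact ⟨locA R P, fold_bound hP hp hH hε h1, glue_bound hP hp hH hε h3,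
      (isClopen_locA R P).isOpen.measurableSet⟩

end Pool.Agent.Lib.MP_abd955_pr
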