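import Pool.Agent.Lib.MP_abd955_pr.Genus

/-! Elementary surgeries. -/

namespace Pool.Agent.Lib.MP_abd955_pr

open Equiv Equiv.Perm Finset

set_option linter.unusedSectionVars false

variable {D : Type} [DecidableEq D] [Fintype D]

def Cfg.sw (K : Cfg D) (u v : D) : Cfg D := ⟨K.U, K.X, swap u v * K.f⟩

lemma swap_mem {S : Finset D} {u v z : D} (hu : u ∈ S) (hv : v ∈ S) (hz : z ∈ S) :
    swap u v z ∈ S := by
  rw [swap_apply_def]; split_ifs <;> assumption

lemma WF.sw_inner {K : Cfg D} (h : WF K) {u v : D} (hu : u ∈ K.X) (hv : v ∈ K.X) {z : D}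
    (hz : z ∉ K.X) : (K.sw u v).f z = K.f z := by
  have : K.f z ∉ K.X := fun e => hz ((mem_iff_of_maps h.fX z).2 e)
  exact swap_apply_of_ne_of_ne (fun e => this (e ▸ hu)) fun e => this (e ▸ hv)

lemma WF.sw {K : Cfg D} (h : WF K) {u v : D} (hu : u ∈ K.X) (hv : v ∈ K.X) : WF (K.sw u v) := by
  refine ⟨h.sub, fun x hx => swap_mem (h.sub hu) (h.sub hv) (h.fU x hx),
    fun x hx => swap_mem hu hv (h.fX x hx), fun x hx hx' => ?_⟩
  have n : ∀ z, z ∉ K.X → K.f z ∉ K.X := fun z hz e => hz ((mem_iff_of_maps h.fX z).2 e)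
  have h1 := n x hx'
  rw [h.sw_inner hu hv hx', h.sw_inner hu hv h1, h.sw_inner hu hv (n _ h1),
    h.sw_inner hu hv (n _ (n _ h1))]
  exact h.four x hx hx'

lemma con_change {K : Cfg D} (h : WF K) {a g : Perm D}
    (hg : ∀ z, z ∉ K.X → g z = K.f z) {u x : D} (hx : x ∈ K.X) (e : conn a K.f u x) :
    ∃ y ∈ K.X, conn a g u y := by
  refine (conn_pred (fun z => ∃ y ∈ K.X, conn a g z y) (fun z => ?_) (fun z => ?_) e).2
    ⟨x, hx, (conn a g).refl _⟩
  · exact exists_congr fun y => and_congr_right fun _ =>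
      ⟨(conn a g).trans ((conn a g).symm (conn_a a g z)), (conn a g).trans (conn_a a g z)⟩
  · by_cases hz : z ∈ K.X
    · exact iff_of_true ⟨z, hz, (conn a g).refl _⟩ ⟨_, h.fX z hz, (conn a g).refl _⟩
    · rw [← hg z hz]
      exact exists_congr fun y => and_congr_right fun _ =>
        ⟨(conn a g).trans ((conn a g).symm (conn_f a g z)), (conn a g).trans (conn_f a g z)⟩

lemma none_iff {K : Cfg D} {Y : Finset D} {s : D} {a : Perm D} (hs : s ∉ Y) :
    Pre K (insert s Y) a ↔ Pre K Y a ∧ ∀ y ∈ Y, ¬(K.f * a).SameCycle s y := by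
  constructor
  · intro h
    exact ⟨⟨h.inv, fun x hx y hy => h.simp x (mem_insert_of_mem hx) y (mem_insert_of_mem hy),
      h.con, h.eul⟩, fun y hy e =>
        hs (h.simp s (mem_insert_self _ _) y (mem_insert_of_mem hy) e ▸ hy)⟩
  · rintro ⟨h, hn⟩
    refine ⟨h.inv, fun x hx y hy e => ?_, h.con, h.eul⟩
    rcases mem_insert.1 hx with rfl | hx' <;> rcases mem_insert.1 hy with rfl | hy'
    exacts [rfl, absurd e (hn y hy'), absurd e.symm (hn x hx'), h.simp x hx' y hy' e]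

lemma split_iff {K : Cfg D} (h : WF K) {Y : Finset D} (hY : Y ⊆ K.X) {s y : D} {a : Perm D}
    (hs : s ∈ K.X) (hsY : s ∉ Y) (hy : y ∈ Y) (e : K.f.SameCycle s y) :
    Pre (K.sw s y) (insert s Y) a ↔ Pre K Y a ∧ (K.f * a).SameCycle s y := by
  have hne : s ≠ y := fun e => hsY (e ▸ hy)
  have hσ : (K.sw s y).f * a = swap s y * (K.f * a) := mul_assoc _ _ _
  have hF : cnt (sc (K.sw s y).f) K.U = cnt (sc K.f) K.U + 1 :=
    cnt_swap_split (h.sub hs) (h.sub (hY hy)) hne e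
  constructor
  · intro p
    have n : ¬(swap s y * (K.f * a)).SameCycle s y := fun e' =>
      hne (p.simp s (mem_insert_self _ _) y (mem_insert_of_mem hy) (hσ ▸ e'))
    have j := sc_join n
    have c := cnt_swap_join (h.sub hs) (h.sub (hY hy)) n
    rw [swap_mul_self_mul] at j c
    refine ⟨⟨p.inv, fun u hu v hv e' => ?_, fun u hu => ?_, ?_⟩,
      (j s y).2 (Or.inr (Or.inl ⟨SameCycle.refl _ _, SameCycle.refl _ _⟩))⟩
    · rcases (j u v).1 e' with e' | ⟨e', -⟩ | ⟨-, e'⟩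
      · exact p.simp u (mem_insert_of_mem hu) v (mem_insert_of_mem hv) (hσ ▸ e')
      · exact absurd (p.simp u (mem_insert_of_mem hu) s (mem_insert_self _ _) (hσ ▸ e') ▸ hu) hsY
      · exact absurd (p.simp s (mem_insert_self _ _) v (mem_insert_of_mem hv) (hσ ▸ e') ▸ hv) hsY
    · obtain ⟨x, hx, c⟩ := p.con u hu
      exact con_change (h.sw hs (hY hy)) (fun z hz => (h.sw_inner hs (hY hy) hz).symm) hx c
    · have := p.eul
      rw [hσ] at this
      change 2 * cnt _ K.U = 2 * cnt _ K.U + K.X.card at this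
      omega
  · rintro ⟨p, e'⟩
    have j := sc_join' hne e'
    have n := sc_split hne e'
    have c := cnt_swap_split (h.sub hs) (h.sub (hY hy)) hne e'
    have hle : ∀ {u v}, (swap s y * (K.f * a)).SameCycle u v → (K.f * a).SameCycle u v :=
      fun e => (j _ _).2 (Or.inl e)
    refine ⟨p.inv, fun u hu v hv e2 => ?_, fun u hu => ?_, ?_⟩
    · rw [hσ] at e2
      rcases mem_insert.1 hu with rfl | hu' <;> rcases mem_insert.1 hv with rfl | hv'
      · rfl
      · exact absurd (p.simp y hy v hv' (e'.symm.trans (hle e2)) ▸ e2) n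
      · exact absurd (p.simp y hy u hu' (e'.symm.trans (hle e2).symm) ▸ e2.symm) n
      · exact p.simp u hu' v hv' (hle e2)
    · obtain ⟨x, hx, c⟩ := p.con u hu
      exact con_change h (fun z hz => h.sw_inner hs (hY hy) hz) hx c
    · have := p.eul
      rw [hσ]
      change 2 * cnt _ K.U = 2 * cnt _ K.U + K.X.card
      omega

lemma cnt_two {g : Perm D} {U : Finset D} {x y : D} (hx : x ∈ U) (hxy : g x = y) (hyx : g y = x) :
    cnt (sc g) U = cnt (sc g) ((U.erase x).erase y) + 1 := by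
  have h1 : ∀ z, g.SameCycle x z → z = x ∨ z = y := fun z e =>
    sc_ind (P := fun z => z = x ∨ z = y) e (Or.inl rfl) (by rintro z (rfl | rfl) <;> simp [*])
  rw [← cnt_insert (v := x) fun z hz e => by
    simp only [mem_erase] at hz
    rcases h1 z (SameCycle.symm e) with h | h <;> simp [h] at hz]
  refine cnt_eq_of (insert_subset hx ((erase_subset _ _).trans (erase_subset _ _))) fun z hz => ?_
  by_cases e1 : z = x
  · exact ⟨x, mem_insert_self _ _, e1 ▸ (sc g).refl _⟩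
  by_cases e2 : z = y
  · exact ⟨x, mem_insert_self _ _, by rw [e2, ← hyx]; exact sc_step g y⟩
  · exact ⟨z, by simp [e1, e2, hz], (sc g).refl _⟩

/-- the face of s is merged with the hole of x -/
def Cfg.peel (K : Cfg D) (x s : D) : Cfg D :=
  ⟨(K.U.erase x).erase s, insert (K.f (K.f (K.f s))) (insert (K.f (K.f s))
    (insert (K.f s) (K.X.erase x))), swap s (K.f x) * (swap x (K.f s) * K.f)⟩

structure PeelOk (K : Cfg D) (x s : D) : Prop where
  wf : WF K
  hx : x ∈ K.X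
  hs : s ∈ K.U
  hs' : s ∉ K.X
  fx : K.f x ≠ x

namespace PeelOk

variable {K : Cfg D} {x s : D} (h : PeelOk K x s)
include h

lemma n1 : K.f s ∉ K.X := fun e => h.hs' ((mem_iff_of_maps h.wf.fX _).2 e)
lemma n2 : K.f (K.f s) ∉ K.X := fun e => h.n1 ((mem_iff_of_maps h.wf.fX _).2 e)
lemma n3 : K.f (K.f (K.f s)) ∉ K.X := fun e => h.n2 ((mem_iff_of_maps h.wf.fX _).2 e)
lemma e4 : K.f (K.f (K.f (K.f s))) = s := (h.wf.four s h.hs h.hs').1
lemma d2 : K.f (K.f s) ≠ s := (h.wf.four s h.hs h.hs').2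
lemma d1 : K.f s ≠ s := fun e => h.d2 (by rw [e, e])
lemma d3 : K.f (K.f (K.f s)) ≠ s := fun e => h.d1 (by have := h.e4; rwa [e] at this)
lemma fxX : K.f x ∈ K.X := h.wf.fX x h.hx
lemma xs : x ≠ s := fun e => h.hs' (e ▸ h.hx)

lemma g_x : (K.peel x s).f x = s := by
  have : K.f x ≠ K.f s := fun e => h.n1 (e ▸ h.fxX)
  simp [Cfg.peel, swap_apply_of_ne_of_ne h.fx this]

lemma g_s : (K.peel x s).f s = x := by
  simp [Cfg.peel, swap_apply_of_ne_of_ne h.xs h.fx.symm]

lemma g_of {z : D} (h1 : z ≠ x) (h2 : z ≠ s) (h3 : K.f z ≠ x) (h4 : K.f z ≠ s) :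
    (K.peel x s).f z = K.f z := by
  simp [Cfg.peel, swap_apply_of_ne_of_ne h3 (K.f.injective.ne h2),
    swap_apply_of_ne_of_ne h4 (K.f.injective.ne h1)]

lemma g_pre {z : D} (h3 : K.f z = x) : (K.peel x s).f z = K.f s := by
  have : K.f s ≠ K.f x := fun e => h.n1 (e ▸ h.fxX)
  simp [Cfg.peel, h3, swap_apply_of_ne_of_ne h.d1 this]

lemma g_3 : (K.peel x s).f (K.f (K.f (K.f s))) = K.f x := by
  simp [Cfg.peel, h.e4, swap_apply_of_ne_of_ne h.xs.symm h.d1.symm]

lemma memX {z : D} : z ∈ (K.peel x s).X ↔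
    z = K.f (K.f (K.f s)) ∨ z = K.f (K.f s) ∨ z = K.f s ∨ z ≠ x ∧ z ∈ K.X := by
  simp [Cfg.peel]

lemma memU {z : D} : z ∈ (K.peel x s).U ↔ z ≠ s ∧ z ≠ x ∧ z ∈ K.U := by
  simp [Cfg.peel]

lemma g_inner {z : D} (hz : z ∈ (K.peel x s).U) (hz' : z ∉ (K.peel x s).X) :
    (K.peel x s).f z = K.f z ∧ z ∉ K.X ∧ K.f z ∈ (K.peel x s).U ∧ K.f z ∉ (K.peel x s).X := by
  rw [h.memU] at hz
  rw [h.memX] at hz'
  push Not at hz'
  have n : z ∉ K.X := hz'.2.2.2 hz.2.1
  have n' : K.f z ∉ K.X := fun e => n ((mem_iff_of_maps h.wf.fX _).2 e)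
  have a1 : K.f z ≠ x := fun e => n' (e ▸ h.hx)
  have a2 : K.f z ≠ s := fun e => hz'.1 (K.f.injective (e.trans h.e4.symm))
  refine ⟨h.g_of hz.2.1 hz.1 a1 a2, n, h.memU.2 ⟨a2, a1, h.wf.fU z hz.2.2⟩, ?_⟩
  rw [h.memX]
  push Not
  exact ⟨K.f.injective.ne hz'.2.1, K.f.injective.ne hz'.2.2.1, K.f.injective.ne hz.1,
    fun _ => n'⟩

lemma gX {z : D} (hz : z ∈ (K.peel x s).X) : (K.peel x s).f z ∈ (K.peel x s).X := by
  have a1 : K.f s ≠ x := fun e => h.n1 (e ▸ h.hx)
  have a2 : K.f (K.f s) ≠ x := fun e => h.n2 (e ▸ h.hx)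
  have a3 : K.f (K.f (K.f s)) ≠ x := fun e => h.n3 (e ▸ h.hx)
  rcases h.memX.1 hz with rfl | rfl | rfl | ⟨h1, h2⟩
  · rw [h.g_3, h.memX]; exact Or.inr (Or.inr (Or.inr ⟨h.fx, h.fxX⟩))
  · rw [h.g_of a2 h.d2 a3 h.d3, h.memX]; exact Or.inl rfl
  · rw [h.g_of a1 h.d1 a2 h.d2, h.memX]; exact Or.inr (Or.inl rfl)
  · by_cases e : K.f z = x
    · rw [h.g_pre e, h.memX]; exact Or.inr (Or.inr (Or.inl rfl))
    · have := h.wf.fX z h2
      rw [h.g_of h1 (fun e => h.hs' (e ▸ h2)) e (fun e => h.hs' (e ▸ this)), h.memX]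
      exact Or.inr (Or.inr (Or.inr ⟨e, this⟩))

lemma subX : (K.peel x s).X ⊆ (K.peel x s).U := by
  intro z hz
  have u1 := h.wf.fU _ h.hs
  have u2 := h.wf.fU _ u1
  rw [h.memU]
  rcases h.memX.1 hz with rfl | rfl | rfl | ⟨h1, h2⟩
  · exact ⟨h.d3, fun e => h.n3 (e ▸ h.hx), h.wf.fU _ u2⟩
  · exact ⟨h.d2, fun e => h.n2 (e ▸ h.hx), u2⟩
  · exact ⟨h.d1, fun e => h.n1 (e ▸ h.hx), u1⟩
  · exact ⟨fun e => h.hs' (e ▸ h2), h1, h.wf.sub h2⟩

lemma wf' : WF (K.peel x s) := by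
  refine ⟨h.subX, fun z hz => ?_, fun z hz => h.gX hz, fun z hz hz' => ?_⟩
  · by_cases e : z ∈ (K.peel x s).X
    · exact h.subX (h.gX e)
    · rw [(h.g_inner hz e).1]; exact (h.g_inner hz e).2.2.1
  · obtain ⟨e1, n, u1, x1⟩ := h.g_inner hz hz'
    obtain ⟨e2, -, u2, x2⟩ := h.g_inner u1 x1
    obtain ⟨e3, -, u3, x3⟩ := h.g_inner u2 x2
    rw [e1, e2, e3, (h.g_inner u3 x3).1]
    exact h.wf.four z (h.memU.1 hz).2.2 n

lemma cardX : (K.peel x s).X.card = K.X.card + 2 := by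
  have := card_pos.2 ⟨x, h.hx⟩
  rw [Cfg.peel, card_insert_of_notMem, card_insert_of_notMem, card_insert_of_notMem,
    card_erase_of_mem h.hx]
  · omega
  · simp [h.n1]
  · simp [h.n2, h.d1]
  · simp [h.n3, h.d1, h.d2]

lemma cardU : (K.peel x s).U.card + 2 = K.U.card := by
  have h1 := card_erase_add_one (h.wf.sub h.hx)
  have h2 := card_erase_add_one (mem_erase.2 ⟨h.xs.symm, h.hs⟩)
  simp only [Cfg.peel]
  omega

lemma cntF : cnt (sc (K.peel x s).f) (K.peel x s).U + 1 = cnt (sc K.f) K.U := by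
  have u1 := h.wf.fU _ h.hs
  have hxU := h.wf.sub h.hx
  have c1 := cnt_swap_join hxU u1 (π := K.f) fun e => h.n1 (sc_mem h.wf.fX h.hx e)
  have a : K.f x ≠ K.f s := fun e => h.n1 (e ▸ h.fxX)
  have e1 : (swap x (K.f s) * K.f) s = x := by simp
  have e2 : (swap x (K.f s) * K.f) x = K.f x := by simp [swap_apply_of_ne_of_ne h.fx a]
  have c2 := cnt_swap_split h.hs (h.wf.sub h.fxX) (π := swap x (K.f s) * K.f)
    (fun e => h.hs' (e ▸ h.fxX)) (by
      have t1 := sc_step (swap x (K.f s) * K.f) s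
      have t2 := sc_step (swap x (K.f s) * K.f) x
      rw [e1] at t1; rw [e2] at t2
      exact t1.trans t2)
  have c3 := cnt_two hxU h.g_x h.g_s
  simp only [Cfg.peel] at c3 ⊢
  omega

theorem peel_iff {a : Perm D} (hxs : a x = s) (hsx : a s = x) :
    Pre (K.peel x s) (insert (K.f s) (K.X.erase x)) a ↔ Pre K K.X a := by
  have a0 : K.f x ≠ K.f s := fun e => h.n1 (e ▸ h.fxX)
  have a1 : K.f s ≠ x := fun e => h.n1 (e ▸ h.hx)
  have a2 : K.f x ≠ s := fun e => h.hs' (e ▸ h.fxX)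
  have u1 := h.wf.fU _ h.hs
  have σx : (K.f * a) x = K.f s := by simp [hxs]
  have σs : (swap x ((K.f * a) x) * (K.f * a)) s = K.f x := by
    simp [hsx, hxs, swap_apply_of_ne_of_ne h.fx a0]
  have hσ : (K.peel x s).f * a = swap s ((swap x ((K.f * a) x) * (K.f * a)) s) *
      (swap x ((K.f * a) x) * (K.f * a)) := by
    rw [σs, σx]; simp only [Cfg.peel, mul_assoc]
  have hsc : ∀ p q, p ≠ x → p ≠ s → q ≠ x → q ≠ s →
      (((K.peel x s).f * a).SameCycle p q ↔ (K.f * a).SameCycle p q) := by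
    intro p q b1 b2 b3 b4
    rw [hσ, sc_excise (by rw [σs]; exact a2) b2 b4, sc_excise (by rw [σx]; exact a1) b1 b3]
  have hV : cnt (sc ((K.peel x s).f * a)) (K.peel x s).U = cnt (sc (K.f * a)) K.U := by
    rw [hσ]
    refine (cnt_excise (by rw [σs]; exact a2) ?_).trans
      (cnt_excise (by rw [σx]; exact a1) (by rw [σx]; exact u1))
    rw [σs]; exact mem_erase.2 ⟨h.fx, h.wf.sub h.fxX⟩
  have hxs1 : (K.f * a).SameCycle x (K.f s) := σx ▸ sc_step _ x
  have hF := h.cntF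
  have hX := h.cardX
  have ne : ∀ z ∈ K.X, z ≠ s := fun z hz e => h.hs' (e ▸ hz)
  constructor
  · intro p
    refine ⟨fun z hz => ?_, fun u hu v hv e => ?_, fun u hu => ?_, by have := p.eul; omega⟩
    · by_cases e1 : z = x
      · rw [e1, hxs, hsx]; exact ⟨h.hs, rfl, h.xs.symm⟩
      by_cases e2 : z = s
      · rw [e2, hsx, hxs]; exact ⟨h.wf.sub h.hx, rfl, h.xs⟩
      have := p.inv z (h.memU.2 ⟨e2, e1, hz⟩)
      exact ⟨(h.memU.1 this.1).2.2, this.2⟩
    · have key : ∀ v ∈ K.X, v ≠ x → ¬(K.f * a).SameCycle x v := fun v hv b e =>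
        h.n1 (p.simp _ (mem_insert_self _ _) v (by simp [b, hv])
          ((hsc _ _ a1 h.d1 b (ne v hv)).2 (hxs1.symm.trans e)) ▸ hv)
      by_cases e1 : u = x <;> by_cases e2 : v = x
      · rw [e1, e2]
      · exact absurd (e1 ▸ e) (key v hv e2)
      · exact absurd (e2 ▸ e.symm) (key u hu e1)
      · exact p.simp u (by simp [e1, hu]) v (by simp [e2, hv])
          ((hsc _ _ e1 (ne u hu) e2 (ne v hv)).2 e)
    · have cs : conn a K.f s x := hsx ▸ conn_a a K.f s
      have c1 : conn a K.f (K.f s) x := (conn a K.f).trans ((conn a K.f).symm (conn_f a K.f s)) cs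
      have c2 := (conn a K.f).trans ((conn a K.f).symm (conn_f a K.f _)) c1
      have c3 := (conn a K.f).trans ((conn a K.f).symm (conn_f a K.f _)) c2
      have good : ∀ z ∈ (K.peel x s).X, ∃ y ∈ K.X, conn a K.f z y := by
        intro z hz
        rcases h.memX.1 hz with rfl | rfl | rfl | ⟨-, h2⟩
        exacts [⟨x, h.hx, c3⟩, ⟨x, h.hx, c2⟩, ⟨x, h.hx, c1⟩, ⟨z, h2, (conn a K.f).refl _⟩]
      by_cases e1 : u = x
      · exact ⟨x, h.hx, e1 ▸ (conn a K.f).refl _⟩
      by_cases e2 : u = s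
      · exact ⟨x, h.hx, e2 ▸ cs⟩
      have hu' := h.memU.2 ⟨e2, e1, hu⟩
      obtain ⟨y, hy, c⟩ := p.con u hu'
      refine (conn_of_on (⟨fun p q : Prop => p ↔ q, ⟨fun _ => Iff.rfl, Iff.symm, Iff.trans⟩⟩ :
        Setoid Prop) (fun z => ∃ y ∈ K.X, conn a K.f z y) p.aU h.wf'.fU (fun z _ => ?_)
        (fun z hz => ?_) hu' c).2 (good y hy)
      · exact exists_congr fun y => and_congr_right fun _ =>
          ⟨(conn a _).trans ((conn a _).symm (conn_a a _ z)), (conn a _).trans (conn_a a _ z)⟩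
      · by_cases e : z ∈ (K.peel x s).X
        · exact iff_of_true (good z e) (good _ (h.gX e))
        · rw [(h.g_inner hz e).1]
          exact exists_congr fun y => and_congr_right fun _ =>
            ⟨(conn a _).trans ((conn a _).symm (conn_f a _ z)), (conn a _).trans (conn_f a _ z)⟩
  · intro p
    have hinv : ∀ z ∈ (K.peel x s).U, a z ∈ (K.peel x s).U ∧ a (a z) = z ∧ a z ≠ z := by
      intro z hz
      obtain ⟨b1, b2, b3⟩ := h.memU.1 hz
      have := p.inv z b3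
      exact ⟨h.memU.2 ⟨fun e => b2 (a.injective (e.trans hxs.symm)),
        fun e => b1 (a.injective (e.trans hsx.symm)), this.1⟩, this.2⟩
    refine ⟨hinv, fun u hu v hv e => ?_, fun u hu => ?_, by have := p.eul; omega⟩
    · simp only [mem_insert, mem_erase] at hu hv
      rcases hu with rfl | ⟨b1, hu⟩ <;> rcases hv with rfl | ⟨b2, hv⟩
      · rfl
      · exact absurd (p.simp x h.hx v hv (hxs1.trans ((hsc _ _ a1 h.d1 b2 (ne v hv)).1 e))).symm b2
      · exact absurd (p.simp x h.hx u hu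
          (hxs1.trans ((hsc _ _ b1 (ne u hu) a1 h.d1).1 e).symm)).symm b1
      · exact p.simp u hu v hv ((hsc _ _ b1 (ne u hu) b2 (ne v hv)).1 e)
    · obtain ⟨b1, b2, b3⟩ := h.memU.1 hu
      obtain ⟨y, hy, c⟩ := p.con u b3
      set g := (K.peel x s).f
      have good : ∀ z, z ∈ K.X ∨ z = s ∨ z ∈ (K.peel x s).X →
          (z = x ∨ z = s) ∨ ∃ y ∈ (K.peel x s).X, conn a g z y := by
        intro z hz
        by_cases e : z = x
        · exact Or.inl (Or.inl e)
        rcases hz with hz | hz | hz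
        · exact Or.inr ⟨z, h.memX.2 (by simp [e, hz]), (conn a g).refl _⟩
        · exact Or.inl (Or.inr hz)
        · exact Or.inr ⟨z, hz, (conn a g).refl _⟩
      have := (conn_of_on (⟨fun p q : Prop => p ↔ q, ⟨fun _ => Iff.rfl, Iff.symm, Iff.trans⟩⟩ :
        Setoid Prop) (fun z => (z = x ∨ z = s) ∨ ∃ y ∈ (K.peel x s).X, conn a g z y) p.aU h.wf.fU
        (fun z _ => ?_) (fun z hz => ?_) b3 c).2 (good y (Or.inl hy))
      · tauto
      · refine or_congr ?_ (exists_congr fun y => and_congr_right fun _ =>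
          ⟨(conn a _).trans ((conn a _).symm (conn_a a _ z)), (conn a _).trans (conn_a a _ z)⟩)
        constructor
        · rintro (rfl | rfl); exacts [Or.inr hxs, Or.inl hsx]
        · rintro (e | e)
          exacts [Or.inr (a.injective (e.trans hsx.symm)), Or.inl (a.injective (e.trans hxs.symm))]
      · by_cases e0 : z ∈ K.X
        · exact iff_of_true (good z (Or.inl e0)) (good _ (Or.inl (h.wf.fX z e0)))
        by_cases e1 : z = s
        · exact iff_of_true (good z (Or.inr (Or.inl e1)))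
            (good _ (Or.inr (Or.inr (h.memX.2 (by simp [e1])))))
        by_cases e : z ∈ (K.peel x s).X
        · refine iff_of_true (good z (Or.inr (Or.inr e))) (good _ (Or.inr ?_))
          rcases h.memX.1 e with rfl | rfl | rfl | ⟨-, h2⟩
          · exact Or.inl h.e4
          · exact Or.inr (h.memX.2 (by simp))
          · exact Or.inr (h.memX.2 (by simp))
          · exact absurd h2 e0
        · have e2 : z ≠ x := fun e => e0 (e ▸ h.hx)
          obtain ⟨f1, -, f2, -⟩ := h.g_inner (h.memU.2 ⟨e1, e2, hz⟩) e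
          obtain ⟨f3, f4, -⟩ := h.memU.1 f2
          refine or_congr (by simp [e1, e2, f3, f4]) ?_
          rw [← f1]
          exact exists_congr fun y => and_congr_right fun _ =>
            ⟨(conn a _).trans ((conn a _).symm (conn_f a _ z)), (conn a _).trans (conn_f a _ z)⟩

end PeelOk

end Pool.Agent.Lib.MP_abd955_pr
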