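import Pool.Agent.Lib.MP_abd955_pr.CoreDefs

/-! The raw peeling step. -/

namespace Pool.Agent.Lib.MP_abd955_pr

open Equiv Equiv.Perm Finset

set_option linter.unusedSectionVars false

variable {D : Type} [DecidableEq D] [Fintype D]

def Cfg.opt (K : Cfg D) (s : D) (c : List D) : Option ℕ → Cfg D
  | none => K
  | some i => K.sw s (c.getD i s)

def keep (c : List D) : Option ℕ → List D
  | none => c
  | some i => c.take i

def extra (c : List D) : Option ℕ → List (List D)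
  | none => []
  | some i => [c.drop i]

def okO (n : ℕ) : Option ℕ → Prop
  | none => True
  | some i => i < n

lemma opt_U (K : Cfg D) (s c o) : (K.opt s c o).U = K.U := by cases o <;> rfl
lemma opt_X (K : Cfg D) (s c o) : (K.opt s c o).X = K.X := by cases o <;> rfl

lemma getD_split {c : List D} {i : ℕ} (hi : i < c.length) (s : D) :
    c.getD i s ∈ c ∧ c.getD i s :: c.drop (i + 1) = c.drop i := by
  rw [List.getD_eq_getElem _ _ hi]
  exact ⟨List.getElem_mem hi, (List.drop_eq_getElem_cons hi).symm⟩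

lemma Holes.opt {K : Cfg D} (h : WF K) {s : D} {B c : List D} {ls : List (List D)}
    (hl : Holes K ((s :: (B ++ c)) :: ls)) {o : Option ℕ} (ho : okO c.length o) :
    WF (K.opt s c o) ∧ Holes (K.opt s c o) ((s :: (B ++ keep c o)) :: (extra c o ++ ls)) ∧
      ∀ z, z ∉ K.X → (K.opt s c o).f z = K.f z := by
  cases o with
  | none => exact ⟨h, hl, fun _ _ => rfl⟩
  | some i =>
    obtain ⟨h1, h2⟩ := getD_split ho s
    have a1 := hl.sub List.mem_cons_self (x := s) List.mem_cons_self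
    have a2 := hl.sub List.mem_cons_self (x := c.getD i s)
      (List.mem_cons_of_mem _ (List.mem_append_right _ h1))
    refine ⟨h.sw a1 a2, ?_, fun z hz => h.sw_inner a1 a2 hz⟩
    have e : s :: (B ++ c) = s :: ((B ++ c.take i) ++ c.getD i s :: c.drop (i + 1)) := by
      rw [h2, List.append_assoc, List.take_append_drop]
    rw [e] at hl
    have := hl.split
    rwa [h2] at this

lemma opt_iff {K : Cfg D} (h : WF K) {s : D} {B c : List D} {ls : List (List D)}
    (hl : Holes K ((s :: (B ++ c)) :: ls)) {Y : Finset D} (hY : Y ⊆ K.X) (hs : s ∉ Y)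
    (hc : ∀ y ∈ c, y ∈ Y) {a : Perm D} {o : Option ℕ} (ho : okO c.length o) :
    Pre (K.opt s c o) (insert s Y) a ↔ Pre K Y a ∧
      match o with
      | none => ∀ y ∈ Y, ¬(K.f * a).SameCycle s y
      | some i => (K.f * a).SameCycle s (c.getD i s) := by
  cases o with
  | none => exact none_iff hs
  | some i =>
    obtain ⟨h1, -⟩ := getD_split ho s
    exact split_iff h hY (hl.sub List.mem_cons_self List.mem_cons_self) hs (hc _ h1)
      ((hl.cyc _ List.mem_cons_self).sc List.mem_cons_self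
        (List.mem_cons_of_mem _ (List.mem_append_right _ h1)))

lemma opt_ex {K : Cfg D} (h : WF K) {s : D} {B c : List D} {ls : List (List D)}
    (hl : Holes K ((s :: (B ++ c)) :: ls)) {Y : Finset D} (hY : Y ⊆ K.X) (hs : s ∉ Y)
    (hB : ∀ y ∈ B, y ∉ Y) (hc : ∀ y ∈ c, y ∈ Y) {a : Perm D} (p : Pre K Y a) :
    ∃ o, okO c.length o ∧ Pre (K.opt s c o) (insert s Y) a := by
  by_cases e : ∃ y ∈ Y, (K.f * a).SameCycle s y
  · obtain ⟨y, hy, e⟩ := e
    have h1 := (hl.cyc _ List.mem_cons_self).mem_of_sc List.mem_cons_self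
      (p.hole h (hl.sub List.mem_cons_self List.mem_cons_self) (hY hy) (conn_of_sc e))
    have h2 : y ∈ c := by
      simp only [List.mem_cons, List.mem_append] at h1
      rcases h1 with rfl | h1 | h1
      exacts [absurd hy hs, absurd hy (hB y h1), h1]
    obtain ⟨i, hi, rfl⟩ := List.getElem_of_mem h2
    exact ⟨some i, hi, (opt_iff h hl hY hs hc (o := some i) hi).2
      ⟨p, by show SameCycle _ _ (c.getD i s); rwa [List.getD_eq_getElem _ _ hi]⟩⟩
  · push Not at e
    exact ⟨none, trivial, (opt_iff h hl hY hs hc (o := none) trivial).2 ⟨p, e⟩⟩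

lemma opt_uniq {K : Cfg D} (h : WF K) {s : D} {B c : List D} {ls : List (List D)}
    (hl : Holes K ((s :: (B ++ c)) :: ls)) {Y : Finset D} (hY : Y ⊆ K.X) (hs : s ∉ Y)
    (hc : ∀ y ∈ c, y ∈ Y) {a : Perm D} {o o' : Option ℕ} (ho : okO c.length o)
    (ho' : okO c.length o') (p : Pre (K.opt s c o) (insert s Y) a)
    (p' : Pre (K.opt s c o') (insert s Y) a) : o = o' := by
  rw [opt_iff h hl hY hs hc ho] at p
  rw [opt_iff h hl hY hs hc ho'] at p'
  have nd : c.Nodup := (List.nodup_append.1 (List.nodup_cons.1 (hl.cyc _ List.mem_cons_self).1).2).2.1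
  cases o with
  | none =>
    cases o' with
    | none => rfl
    | some i => exact absurd p'.2 (p.2 _ (hc _ (getD_split ho' s).1))
  | some i =>
    cases o' with
    | none => exact absurd p.2 (p'.2 _ (hc _ (getD_split ho s).1))
    | some k =>
      have := p.1.simp _ (hc _ (getD_split ho s).1) _ (hc _ (getD_split ho' s).1)
        (p.2.symm.trans p'.2)
      rw [List.getD_eq_getElem _ _ ho, List.getD_eq_getElem _ _ ho'] at this
      rw [(List.Nodup.getElem_inj_iff nd).1 this]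

def c2 (K : Cfg D) (s : D) (rest : List D) : List D := rest ++ [K.f s]
def c3 (K : Cfg D) (s : D) (rest : List D) (o : Option ℕ) : List D :=
  keep (c2 K s rest) o ++ [K.f (K.f s)]

/-- the configuration after a raw step -/
def Cfg.raw (K : Cfg D) (x s : D) (rest : List D) (ρ : Raw) : Cfg D :=
  ((K.peel x s).opt (K.f (K.f s)) (c2 K s rest) ρ.1).opt (K.f (K.f (K.f s))) (c3 K s rest ρ.1) ρ.2

/-- the holes created by a raw step -/
def rawH (K : Cfg D) (s : D) (rest : List D) (ρ : Raw) : List (List D) :=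
  (K.f (K.f (K.f s)) :: keep (c3 K s rest ρ.1) ρ.2) ::
    (extra (c3 K s rest ρ.1) ρ.2 ++ extra (c2 K s rest) ρ.1)

lemma raw_U (K : Cfg D) (x s rest ρ) : (K.raw x s rest ρ).U = (K.peel x s).U := by
  simp [Cfg.raw, opt_U]
lemma raw_X (K : Cfg D) (x s rest ρ) : (K.raw x s rest ρ).X = (K.peel x s).X := by
  simp [Cfg.raw, opt_X]

lemma mem_raws {K : Cfg D} {s : D} {rest : List D} {ρ : Raw} : ρ ∈ raws (rest.length + 1) ↔
    okO (c2 K s rest).length ρ.1 ∧ okO (c3 K s rest ρ.1).length ρ.2 := by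
  obtain ⟨_ | i, _ | k⟩ := ρ <;> simp [raws, okO, c2, c3, keep] <;> omega

lemma rawH_length {K : Cfg D} {s : D} {rest : List D} {ρ : Raw} (h : ρ ∈ raws (rest.length + 1)) :
    (rawH K s rest ρ).map List.length = rl (rest.length + 1) ρ := by
  rw [mem_raws (K := K) (s := s)] at h
  obtain ⟨_ | i, _ | k⟩ := ρ <;> simp [okO, c2, c3, keep, rawH, rl, extra] at h ⊢ <;> omega

section
variable {K : Cfg D} {x s : D} {rest : List D} {ls : List (List D)} (ok : PeelOk K x s)
  (hl : Holes K ((x :: rest) :: ls))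
include ok hl

lemma stage2 {o : Option ℕ} (ho : okO (c2 K s rest).length o) :
    WF ((K.peel x s).opt (K.f (K.f s)) (c2 K s rest) o) ∧
    Holes ((K.peel x s).opt (K.f (K.f s)) (c2 K s rest) o)
      ((K.f (K.f (K.f s)) :: ([] ++ c3 K s rest o)) :: (extra (c2 K s rest) o ++ ls)) ∧
    ∀ z, z ∉ (K.peel x s).X →
      ((K.peel x s).opt (K.f (K.f s)) (c2 K s rest) o).f z = (K.peel x s).f z := by
  obtain ⟨h1, h2, h3⟩ := (hl.peel ok).opt ok.wf' ho
  exact ⟨h1, Holes.comm (A := [K.f (K.f s)]) h2, h3⟩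

lemma raw_spec {ρ : Raw} (h : ρ ∈ raws (rest.length + 1)) :
    WF (K.raw x s rest ρ) ∧ Holes (K.raw x s rest ρ) (rawH K s rest ρ ++ ls) ∧
      ∀ z ∈ (K.peel x s).U, z ∉ (K.peel x s).X → (K.raw x s rest ρ).f z = K.f z := by
  obtain ⟨o1, o2⟩ := (mem_raws (K := K) (s := s)).1 h
  obtain ⟨h1, h2, h3⟩ := stage2 ok hl o1
  obtain ⟨h4, h5, h6⟩ := h2.opt h1 o2
  refine ⟨h4, by simpa [rawH, Cfg.raw] using h5, fun z hz hz' => ?_⟩
  rw [Cfg.raw, h6 z (by rwa [opt_X]), h3 z hz', (ok.g_inner hz hz').1]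

lemma Y1_facts : insert (K.f s) (K.X.erase x) ⊆ (K.peel x s).X ∧
    K.f (K.f s) ∉ insert (K.f s) (K.X.erase x) ∧
    K.f (K.f (K.f s)) ∉ insert (K.f (K.f s)) (insert (K.f s) (K.X.erase x)) ∧
    ∀ y ∈ c2 K s rest, y ∈ insert (K.f s) (K.X.erase x) := by
  refine ⟨(subset_insert _ _).trans (subset_insert _ _), by simp [ok.n2, ok.d1],
    by simp [ok.n3, ok.d1, ok.d2], fun y hy => ?_⟩
  rcases List.mem_append.1 hy with hy | hy
  · refine mem_insert_of_mem (mem_erase.2 ⟨fun e => ?_, hl.sub List.mem_cons_self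
      (List.mem_cons_of_mem _ hy)⟩)
    exact (List.nodup_cons.1 (hl.cyc _ List.mem_cons_self).1).1 (e ▸ hy)
  · simp at hy; simp [hy]

omit ok hl in
lemma keep_sub {c : List D} {o : Option ℕ} {y : D} (h : y ∈ keep c o) : y ∈ c := by
  cases o with
  | none => exact h
  | some i => exact List.mem_of_mem_take h

lemma c3_sub (o : Option ℕ) :
    ∀ y ∈ c3 K s rest o, y ∈ insert (K.f (K.f s)) (insert (K.f s) (K.X.erase x)) := by
  intro y hy
  rcases List.mem_append.1 hy with hy | hy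
  · exact mem_insert_of_mem ((Y1_facts ok hl).2.2.2 y (keep_sub hy))
  · simp at hy; simp [hy]

lemma raw_stage {ρ : Raw} (h : ρ ∈ raws (rest.length + 1)) {a : Perm D}
    (p : Pre (K.raw x s rest ρ) (K.raw x s rest ρ).X a) :
    Pre ((K.peel x s).opt (K.f (K.f s)) (c2 K s rest) ρ.1)
      (insert (K.f (K.f s)) (insert (K.f s) (K.X.erase x))) a := by
  obtain ⟨o1, o2⟩ := (mem_raws (K := K) (s := s)).1 h
  obtain ⟨h1, h2, -⟩ := stage2 ok hl o1
  rw [raw_X] at p
  exact ((opt_iff h1 h2 (by rw [opt_X]; exact subset_insert _ _) (Y1_facts ok hl).2.2.1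
    (c3_sub ok hl _) o2).1 p).1

lemma raw_to {ρ : Raw} (h : ρ ∈ raws (rest.length + 1)) {a : Perm D} (hxs : a x = s)
    (hsx : a s = x) (p : Pre (K.raw x s rest ρ) (K.raw x s rest ρ).X a) : Pre K K.X a := by
  obtain ⟨y1, y2, -, y4⟩ := Y1_facts ok hl
  exact (ok.peel_iff hxs hsx).1 ((opt_iff ok.wf' (hl.peel ok) y1 y2 y4
    ((mem_raws (K := K) (s := s)).1 h).1).1 (raw_stage ok hl h p)).1

lemma raw_ex {a : Perm D} (hxs : a x = s) (hsx : a s = x) (p : Pre K K.X a) :
    ∃ ρ ∈ raws (rest.length + 1), Pre (K.raw x s rest ρ) (K.raw x s rest ρ).X a := by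
  obtain ⟨y1, y2, y3, y4⟩ := Y1_facts ok hl
  obtain ⟨o, o1, p1⟩ := opt_ex ok.wf' (hl.peel ok) y1 y2
    (fun y hy => by simp at hy; exact hy ▸ fun e => y3 (mem_insert_of_mem e)) y4
    ((ok.peel_iff hxs hsx).2 p)
  obtain ⟨h1, h2, -⟩ := stage2 ok hl o1
  obtain ⟨o', o2, p2⟩ := opt_ex h1 h2 (by rw [opt_X]; exact subset_insert _ _) y3 (by simp)
    (c3_sub ok hl _) p1
  exact ⟨(o, o'), (mem_raws (K := K) (s := s)).2 ⟨o1, o2⟩, by rw [raw_X]; exact p2⟩

lemma raw_uniq {ρ ρ' : Raw} (h : ρ ∈ raws (rest.length + 1)) (h' : ρ' ∈ raws (rest.length + 1))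
    {a : Perm D} (p : Pre (K.raw x s rest ρ) (K.raw x s rest ρ).X a)
    (p' : Pre (K.raw x s rest ρ') (K.raw x s rest ρ').X a) : ρ = ρ' := by
  obtain ⟨y1, y2, y3, y4⟩ := Y1_facts ok hl
  obtain ⟨o1, o2⟩ := (mem_raws (K := K) (s := s)).1 h
  obtain ⟨o3, o4⟩ := (mem_raws (K := K) (s := s)).1 h'
  have e := opt_uniq ok.wf' (hl.peel ok) y1 y2 y4 o1 o3 (raw_stage ok hl h p) (raw_stage ok hl h' p')
  obtain ⟨r1, r2⟩ := ρ
  obtain ⟨r3, r4⟩ := ρ'
  obtain rfl : r1 = r3 := e
  obtain ⟨h1, h2, -⟩ := stage2 ok hl o1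
  rw [raw_X] at p p'
  exact Prod.ext rfl
    (opt_uniq h1 h2 (by rw [opt_X]; exact subset_insert _ _) y3 (c3_sub ok hl _) o2 o4 p p')

end

end Pool.Agent.Lib.MP_abd955_pr
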