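import Pool.Agent.Lib.MP_abd955_pr.Calc

/-! Asymptotic bounds for events along an exploration. -/

namespace Pool.Agent.Lib.MP_abd955_pr

open Equiv Equiv.Perm Finset PowerSeries Step Filter Topology

set_option linter.unusedSectionVars false

variable {ι : Type} {𝓕 : Filter ι} {D : ι → Type} [∀ i, DecidableEq (D i)] [∀ i, Fintype (D i)]

/-- relations between a state and an event -/
abbrev Iv (D : ι → Type) := ∀ i, St (D i) → (Perm (D i) → Prop) → Prop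

/-- asymptotically the event has probability at most c in the state -/
def Bd (𝓕 : Filter ι) (I : Iv D) (c : ℝ) : Prop :=
  ∀ ε : ℝ, 0 < ε → ∀ᶠ i in 𝓕, ∀ S E, I i S E → S.cnt E ≤ (c + ε) * S.tot

/-- limiting step weights in a regime of sizes -/
structure Md (𝓕 : Filter ι) (Sz : ι → ℕ → ℕ → Prop) (wt : Step × ℕ → ℝ) : Prop where
  sum : HasSum wt 1
  nn : ∀ y, 0 ≤ wt y
  lim : ∀ y : Step × ℕ, ∀ ε : ℝ, 0 < ε → ∀ᶠ i in 𝓕, ∀ m l, Sz i m l →
    |(if y.1.sL + y.1.sR < l then coeff y.2 (Zm y.1.fin) * coeff (m - 1 - y.2) (Zl (nl l y.1))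
      else 0) - wt y * coeff m (Zl l)| ≤ ε * coeff m (Zl l)
  big : ∀ V, ∀ᶠ i in 𝓕, ∀ m l, Sz i m l → V < m ∧ 2 ≤ l
  rare : ∀ V, ∀ᶠ i in 𝓕, ∀ m l v, Sz i m l → v ≤ V →
    coeff (m - v) (Zl l) ≤ 2 * (1 / 12) ^ v * coeff m (Zl l)

lemma Md.split {Sz wt} (md : Md 𝓕 Sz wt) (A : Finset (Step × ℕ)) {ε : ℝ} (hε : 0 < ε) :
    ∀ᶠ i in 𝓕, ∀ (S : St (D i)) b x rest, S.WF → Holes (S.K b) [x :: rest] →
      Sz i (S.K b).m (rest.length + 1) → rest ≠ [] ∧
      (∀ y ∈ A, |S.chs b x rest y St.tot - wt y * S.tot| ≤ ε * S.tot) ∧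
      (∀ E, ∑ y ∈ A, S.chs b x rest y (·.cnt E) ≤ S.cnt E) ∧
      ∀ E, S.cnt E ≤ ∑ y ∈ A, S.chs b x rest y (·.cnt E) +
        (S.tot - ∑ y ∈ A, S.chs b x rest y St.tot) := by
  filter_upwards [(eventually_all_finset A).2 fun y _ => md.lim y ε hε,
    (eventually_all_finset A).2 fun y _ => md.big (2 * y.2 + 1), md.big 0] with i h1 h2 h3
  intro S b x rest w hl sz
  have hr : rest ≠ [] := List.ne_nil_of_length_pos (by have := (h3 _ _ sz).2; omega)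
  have hv := fun y hy => (h2 y hy _ _ sz).1
  have k : ∀ E, ∑ y ∈ A, S.chs b x rest y (·.cnt E) ≤ S.cnt E := fun E =>
    chs_le w hl hr A hv _ fun _ => by positivity
  refine ⟨hr, fun y hy => chs_tot w hl hr (by have := hv y hy; omega) (h1 y hy _ _ sz), k,
    fun E => ?_⟩
  have e : ∑ y ∈ A, S.chs b x rest y (·.cnt E) + ∑ y ∈ A, S.chs b x rest y (·.cnt fun g => ¬E g) =
      ∑ y ∈ A, S.chs b x rest y St.tot := by
    rw [← sum_add_distrib]
    refine sum_congr rfl fun y _ => ?_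
    simp only [St.chs]
    split_ifs
    · simp only [← sum_add_distrib, St.cnt_not]
    · simp
  have := k fun g => ¬E g
  have := S.cnt_not E
  linarith

lemma chs_mono {D : Type} [DecidableEq D] [Fintype D] {S : St D} (h : S.WF) {b x rest}
    (hl : Holes (S.K b) [x :: rest]) (hr : rest ≠ []) {y : Step × ℕ} {Φ Ψ : St D → ℝ} {c : ℝ}
    (e : ∀ s W, Kid S b x rest y.1 y.2 s W →
      Φ (S.ch b x s rest y.1 W) ≤ c * Ψ (S.ch b x s rest y.1 W)) :
    S.chs b x rest y Φ ≤ c * S.chs b x rest y Ψ := by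
  simp only [St.chs]
  split_ifs with ht
  · simp only [mul_sum]
    exact sum_le_sum fun s hs => sum_le_sum fun W hW => e s W ⟨h, hl, hr, ht, hs, hW⟩
  · simp

lemma exists_mass {κ : Type} {wt : κ → ℝ} (h : HasSum wt 1) {ε : ℝ} (hε : 0 < ε) :
    ∃ A : Finset κ, 1 - ε ≤ ∑ y ∈ A, wt y :=
  (h.eventually (eventually_ge_nhds (show 1 - ε < 1 by linarith))).exists

namespace Bd
variable {I I' I1 I2 : Iv D} {c c' c1 c2 : ℝ}

lemma mono (h : Bd 𝓕 I' c') (hc : c' ≤ c) (e : ∀ᶠ i in 𝓕, ∀ S E, I i S E →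
    ∃ E', (∀ g, S.Ok g → E g → E' g) ∧ I' i S E') : Bd 𝓕 I c := fun ε hε => by
  filter_upwards [h ε hε, e] with i h1 h2 S E hI
  obtain ⟨E', a, b⟩ := h2 S E hI
  exact (St.cnt_mono a).trans ((h1 S E' b).trans
    (mul_le_mul_of_nonneg_right (by linarith) S.tot_nonneg))

lemma of_imp (h : Bd 𝓕 I' c) (e : ∀ᶠ i in 𝓕, ∀ S E, I i S E → I' i S E) : Bd 𝓕 I c :=
  h.mono le_rfl (e.mono fun _ h S E hI => ⟨E, fun _ _ => id, h S E hI⟩)

lemma le (h : Bd 𝓕 I c') (hc : c' ≤ c) : Bd 𝓕 I c :=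
  h.mono hc (Eventually.of_forall fun _ _ E hI => ⟨E, fun _ _ => id, hI⟩)

lemma one : Bd 𝓕 I 1 := fun ε hε => Eventually.of_forall fun _ S E _ =>
  (S.cnt_le_tot E).trans (by have := S.tot_nonneg; nlinarith)

lemma zero (e : ∀ᶠ i in 𝓕, ∀ S E, I i S E → ∀ g, S.Ok g → ¬E g) : Bd 𝓕 I 0 := fun ε hε =>
  e.mono fun _ h S E hI => by
    rw [St.cnt_zero (h S E hI)]; have := S.tot_nonneg; positivity

lemma union (h1 : Bd 𝓕 I1 c1) (h2 : Bd 𝓕 I2 c2) (e : ∀ᶠ i in 𝓕, ∀ S E, I i S E →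
    ∃ E1 E2, (∀ g, S.Ok g → E g → E1 g ∨ E2 g) ∧ I1 i S E1 ∧ I2 i S E2) : Bd 𝓕 I (c1 + c2) :=
  fun ε hε => by
    filter_upwards [h1 _ (half_pos hε), h2 _ (half_pos hε), e] with i a1 a2 a3 S E hI
    obtain ⟨E1, E2, a, b1, b2⟩ := a3 S E hI
    have := St.cnt_union a
    have := a1 S E1 b1
    have := a2 S E2 b2
    linarith

lemma min (h1 : Bd 𝓕 I c1) (h2 : Bd 𝓕 I c2) : Bd 𝓕 I (min c1 c2) := by
  rcases le_total c1 c2 with e | e
  · rwa [min_eq_left e]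
  · rwa [min_eq_right e]

lemma avg (h1 : Bd 𝓕 I c1) (h2 : Bd 𝓕 I c2) : Bd 𝓕 I (c1 / 2 + c2 / 2) := by
  rcases le_total c1 c2 with e | e
  exacts [h1.le (by linarith), h2.le (by linarith)]

lemma or (h1 : Bd 𝓕 I1 c) (h2 : Bd 𝓕 I2 c) : Bd 𝓕 (fun i S E => I1 i S E ∨ I2 i S E) c :=
  fun ε hε => by
    filter_upwards [h1 ε hε, h2 ε hε] with i a1 a2 S E hI
    exact hI.elim (a1 S E) (a2 S E)

open Classical in
/-- the event needs the explored part to be in a set of proportion at most β -/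
lemma frac {β : ℝ} (h : Bd 𝓕 I' c) (hc : 0 ≤ c) (hβ : 0 ≤ β) (e : ∀ᶠ i in 𝓕, ∀ S E, I i S E →
    ∃ Q : Perm (D i) → Prop, ((S.A.filter Q).card : ℝ) ≤ β * S.A.card ∧ I' i (S.filt Q) E ∧
      ∀ g, (S.filt fun c => ¬Q c).Ok g → ¬E g) : Bd 𝓕 I (β * c) := fun ε hε => by
  filter_upwards [h (ε / (β + 1)) (by positivity), e] with i h1 h2 S E hI
  obtain ⟨Q, a1, a2, a3⟩ := h2 S E hI
  have e1 : (S.filt Q).cnt E + (S.filt fun c => ¬Q c).cnt E = S.cnt E := St.sum_filt ..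
  have e2 : (S.filt Q).tot ≤ β * S.tot := by
    rw [St.tot_eq, St.tot_eq, ← mul_assoc β]
    exact mul_le_mul_of_nonneg_right a1 (by positivity)
  rw [← e1, St.cnt_zero a3, add_zero]
  refine (h1 _ _ a2).trans ((mul_le_mul_of_nonneg_left e2 (by positivity)).trans ?_)
  rw [← mul_assoc]
  refine mul_le_mul_of_nonneg_right ?_ S.tot_nonneg
  have : ε / (β + 1) * β ≤ ε := by
    rw [div_mul_eq_mul_div, div_le_iff₀ (by positivity)]; nlinarith
  linarith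

/-- the peeling rule -/
theorem step {Sz wt} (md : Md 𝓕 Sz wt) (b : Bool) {J : Step × ℕ → Iv D} {c : Step × ℕ → ℝ}
    (c0 : ∀ y, 0 ≤ c y) (c1 : ∀ y, c y ≤ 1) (hJ : ∀ y, Bd 𝓕 (J y) (c y))
    {G : Step × ℕ → ι → Prop} (hG : ∀ y, ∀ᶠ i in 𝓕, G y i)
    (e : ∀ᶠ i in 𝓕, ∀ S E, I i S E → S.WF ∧ ∃ x rest, Holes (S.K b) [x :: rest] ∧
      Sz i (S.K b).m (rest.length + 1) ∧ ∀ y : Step × ℕ, G y i → ∀ s W,
        Kid S b x rest y.1 y.2 s W → J y i (S.ch b x s rest y.1 W) E) :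
    Bd 𝓕 I (∑' y, wt y * c y) := fun ε hε => by
  obtain ⟨A, hA⟩ := exists_mass md.sum (half_pos hε)
  have hA1 : ∑ y ∈ A, wt y ≤ 1 := sum_le_hasSum A (fun y _ => md.nn y) md.sum
  have hA2 : ∑ y ∈ A, wt y * c y ≤ ∑' y, wt y * c y :=
    (Summable.of_nonneg_of_le (fun y => mul_nonneg (md.nn y) (c0 y))
      (fun y => mul_le_of_le_one_right (md.nn y) (c1 y)) md.sum.summable).sum_le_tsum A
      fun y _ => mul_nonneg (md.nn y) (c0 y)
  obtain ⟨δ, d0, d1, d2⟩ : ∃ δ : ℝ, 0 < δ ∧ δ ≤ 1 ∧ δ * (3 * A.card + 1) ≤ ε / 2 :=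
    ⟨Min.min 1 (ε / 2 / (3 * A.card + 1)), by positivity, min_le_left _ _,
      (le_div_iff₀ (by positivity)).1 (min_le_right _ _)⟩
  filter_upwards [md.split (D := D) A d0, (eventually_all_finset A).2 fun y _ => hJ y δ d0,
    (eventually_all_finset A).2 fun y _ => hG y, e] with i h1 h2 h3 h4 S E hI
  obtain ⟨w, x, rest, hl, sz, k⟩ := h4 S E hI
  obtain ⟨hr, a1, -, a2⟩ := h1 S b x rest w hl sz
  have T := S.tot_nonneg
  have : ∑ y ∈ A, (S.chs b x rest y (·.cnt E) - S.chs b x rest y St.tot) ≤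
      ∑ y ∈ A, (wt y * c y + δ * wt y - wt y + 3 * δ) * S.tot := sum_le_sum fun y hy => by
    have b1 := chs_mono (Φ := (·.cnt E)) (Ψ := St.tot) w hl hr
      fun s W kd => h2 y hy _ E (k y (h3 y hy) s W kd)
    obtain ⟨b2, b3⟩ := abs_le.1 (a1 y hy)
    have b4 : (c y + δ) * S.chs b x rest y St.tot ≤ (c y + δ) * ((wt y + δ) * S.tot) :=
      mul_le_mul_of_nonneg_left (by linarith) (by linarith [c0 y])
    have b5 : (c y + δ) * (δ * S.tot) ≤ 2 * (δ * S.tot) :=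
      mul_le_mul_of_nonneg_right (by linarith [c1 y]) (by positivity)
    nlinarith
  rw [sum_sub_distrib, ← sum_mul] at this
  simp only [sum_add_distrib, sum_sub_distrib, ← mul_sum, sum_const, nsmul_eq_mul] at this
  have b6 : (1 + (∑ y ∈ A, wt y * c y + δ * ∑ y ∈ A, wt y - ∑ y ∈ A, wt y + A.card * (3 * δ))) *
      S.tot ≤ (∑' y, wt y * c y + ε) * S.tot :=
    mul_le_mul_of_nonneg_right (by nlinarith) T
  linarith [a2 E]

end Bd

lemma tsum_wt {wt : Step × ℕ → ℝ} {ω c : Step → ℝ} (hs : Summable wt) (nn : ∀ y, 0 ≤ wt y)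
    (h : ∀ t, HasSum (fun v => wt (t, v)) (ω t)) (c0 : ∀ t, 0 ≤ c t) (c1 : ∀ t, c t ≤ 1) :
    ∑' y, wt y * c y.1 = ∑' t, ω t * c t := by
  rw [(Summable.of_nonneg_of_le (fun y => mul_nonneg (nn y) (c0 _))
    (fun y => mul_le_of_le_one_right (nn y) (c1 _)) hs).tsum_prod]
  exact tsum_congr fun t => ((h t).mul_right (c t)).tsum_eq

/-- half-plane regime: first n then p go to infinity, the index is (p, n) -/
abbrev FH : Filter (ℕ × ℕ) := Filter.curry atTop atTop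

def SzH (j : ℕ) (i : ℕ × ℕ) (m l : ℕ) : Prop := i.2 ≤ m + j ∧ i.1 ≤ l + j ∧ l ≤ 2 * i.1 + j

lemma evH {P : ℕ × ℕ → Prop} : (∀ᶠ i in FH, P i) ↔
    ∀ᶠ p : ℕ in atTop, ∀ᶠ n : ℕ in atTop, P (p, n) := eventually_curry_iff

lemma evH' {P : ℕ → ℕ → Prop} (h : ∀ᶠ p : ℕ in atTop, ∀ᶠ n : ℕ in atTop, P p n) :
    ∀ᶠ i in FH, P i.1 i.2 := evH.2 h

lemma evH_ge (a : ℕ) : ∀ᶠ i in FH, a ≤ i.1 ∧ a ≤ i.2 :=
  evH.2 ((eventually_ge_atTop a).mono fun _ h => (eventually_ge_atTop a).mono fun _ h' => ⟨h, h'⟩)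

lemma mdH (j : ℕ) : Md FH (SzH j) fun y => wv y.1 y.2 where
  sum := hasSum_wv2
  nn y := wv_nonneg _ _
  lim y ε hε := by
    filter_upwards [evH' (limH y.1 y.2 j ε hε), evH_ge (y.1.sL + y.1.sR + j + 1)]
      with i h1 h2 m l h
    rw [if_pos (by have := h.2.1; omega)]
    exact h1 m l h.1 h.2.1 h.2.2
  big V := (evH_ge (V + j + 2)).mono fun i h m l e => by
    have := e.1; have := e.2.1; omega
  rare V := evH.2 (Eventually.of_forall fun p => (limA V j (2 * p + j)).mono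
    fun n h m l v e hv => h m l v e.1 e.2.2 hv)

/-- sphere regime: the hole has fixed length -/
def SzS (j l0 : ℕ) (n m l : ℕ) : Prop := n ≤ m + j ∧ l = l0

lemma hasSum_wS (l : ℕ) (t : Step) :
    HasSum (fun v => wv t v * hl (nl l t) / hl l) (w t * hl (nl l t) / hl l) :=
  ((hasSum_wv t).mul_right _).div_const _

lemma mdS (j l : ℕ) (h : Even l) (h2 : 2 ≤ l) :
    Md atTop (SzS j l) fun y => wv y.1 y.2 * hl (nl l y.1) / hl l where
  sum := by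
    have nn : ∀ y : Step × ℕ, 0 ≤ wv y.1 y.2 * hl (nl l y.1) / hl l := fun y =>
      div_nonneg (mul_nonneg (wv_nonneg _ _) (hl_nonneg _)) (hl_nonneg _)
    have h1 : HasSum (fun t => w t * hl (nl l t) / hl l) 1 := by
      have := (hasSum_harm l h h2).div_const (hl l)
      rwa [div_self (hl_pos h h2).ne'] at this
    have hs : Summable fun y : Step × ℕ => wv y.1 y.2 * hl (nl l y.1) / hl l :=
      (summable_prod_of_nonneg nn).2 ⟨fun t => (hasSum_wS l t).summable, by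
        simp only [(hasSum_wS l _).tsum_eq]; exact h1.summable⟩
    have := hs.hasSum
    rwa [hs.tsum_prod, tsum_congr fun t => (hasSum_wS l t).tsum_eq, h1.tsum_eq] at this
  nn y := div_nonneg (mul_nonneg (wv_nonneg _ _) (hl_nonneg _)) (hl_nonneg _)
  lim y ε hε := (limS y.1 y.2 j l h h2 ε hε).mono fun n e m l' s => by
    rw [s.2]; exact e m s.1
  big V := (eventually_ge_atTop (V + j + 1)).mono fun n e m l' s => by
    have := s.1; have := s.2; omega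
  rare V := (limA V j l).mono fun n e m l' v s hv => e m l' v s.1 s.2.le hv

end Pool.Agent.Lib.MP_abd955_pr
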