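import Pool.Agent.Lib.MP_abd955_pr.Rule

/-! Peeling inside a labelled segment of the hole. -/

namespace Pool.Agent.Lib.MP_abd955_pr

open Equiv Equiv.Perm Finset Step

set_option linter.unusedSectionVars false

variable {D : Type} [DecidableEq D] [Fintype D]

lemma cut_three {α : Type} (R L : ℕ) (F2 S F1 : List α)
    (h : (R - F2.length) + (L - F1.length) ≤ S.length) : cut R L (F2 ++ S ++ F1) =
      F2.drop R ++ cut (R - F2.length) (L - F1.length) S ++ F1.take (F1.length - L) := by
  simp only [cut, List.append_assoc, List.drop_append, List.take_append, List.length_append,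
    List.length_drop]
  rw [List.take_of_length_le (l := F2.drop R) (by simp; omega),
    show R - F2.length - S.length = 0 by omega, List.drop_zero]
  congr 2
  · by_cases e : L ≤ F1.length
    · rw [List.take_of_length_le (by simp; omega), List.take_of_length_le (by simp; omega)]
    · congr 1; omega
  · congr 1; omega

lemma cut_sub {α : Type} {R L : ℕ} {l : List α} {x : α} (h : x ∈ cut R L l) : x ∈ l :=
  List.mem_of_mem_drop (List.mem_of_mem_take h)

lemma cut_len {α : Type} (R L : ℕ) (l : List α) : (cut R L l).length = l.length - R - L := by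
  simp [cut]

lemma cut_cut {α : Type} (R L R' L' : ℕ) (l : List α) :
    cut R' L' (cut R L l) = cut (R + R') (L + L') l := by
  simp only [cut, List.drop_take, List.take_take, List.drop_drop, List.length_take,
    List.length_drop]
  congr 1; omega

lemma cut_split {α : Type} (R L : ℕ) (l : List α) (h : R + L ≤ l.length) :
    l = l.take R ++ cut R L l ++ l.drop (l.length - L) := by
  conv_lhs => rw [← List.take_append_drop R l, ← List.take_append_drop (l.length - R - L) (l.drop R)]
  rw [List.drop_drop, List.append_assoc, cut, show R + (l.length - R - L) = l.length - L by omega]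

lemma cut_map {α β : Type} (R L : ℕ) (l : List α) (φ : α → β) :
    (cut R L l).map φ = cut R L (l.map φ) := by simp [cut]

lemma cut_reverse {α : Type} (R L : ℕ) (l : List α) : (cut R L l).reverse = cut L R l.reverse := by
  by_cases h : R + L ≤ l.length
  · simp only [cut, List.reverse_take, List.reverse_drop, List.length_reverse, List.length_drop,
      List.drop_take]
    rw [show l.length - R - (l.length - R - L) = L by omega]
    congr 1; omega
  · rw [List.eq_nil_of_length_eq_zero (l := cut R L l) (by rw [cut_len]; omega),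
      List.eq_nil_of_length_eq_zero (l := cut L R l.reverse) (by rw [cut_len]; simp; omega)]
    rfl

lemma Holes.len {K : Cfg D} {l : List D} (h : Holes K [l]) : l.length = K.X.card := by
  rw [← List.toFinset_card_of_nodup (h.cyc l (by simp)).1]
  congr 1; ext x; simp [h.mem]

lemma Holes.mem1 {K : Cfg D} {l : List D} (h : Holes K [l]) {x : D} : x ∈ K.X ↔ x ∈ l := by
  simp [h.mem]

lemma Holes.at {K : Cfg D} {seg R : List D} (h : Holes K [seg ++ R]) {i : ℕ} {x : D}
    (hi : seg[i]? = some x) : Holes K [x :: (seg.drop (i + 1) ++ R ++ seg.take i)] := by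
  obtain ⟨h1, rfl⟩ := List.getElem?_eq_some_iff.1 hi
  rw [← List.take_append_drop i seg, List.append_assoc] at h
  have := h.comm
  rwa [List.drop_eq_getElem_cons h1] at this

/-- in a configuration with one hole and some squares the partners of the hole are inner -/
lemma Pre.inner {K : Cfg D} (h : WF K) {l : List D} (hl : Holes K [l]) (hm : 0 < K.m) {a : Perm D}
    (p : Pre K K.X a) {x : D} (hx : x ∈ K.X) : a x ∈ K.U \ K.X := by
  refine mem_sdiff.2 ⟨p.aU x (h.sub hx), fun e => ?_⟩
  obtain ⟨A, B, rfl⟩ := List.append_of_mem (hl.mem1.1 hx)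
  have h1 : Holes K [x :: (B ++ A)] := hl.comm
  have h2 := close_eq h h1 p e
  have h3 : ∀ z ∈ K.X, a z ∈ K.X := fun z hz => by
    have := h1.mem1.1 hz
    rw [h2] at this
    simp only [List.mem_cons, List.not_mem_nil, or_false] at this
    rcases this with rfl | rfl
    · exact e
    · rwa [(p.inv x (h.sub hx)).2.1]
  have h4 : K.U \ K.X = ∅ := sdiff_eq_empty_iff_subset.2 fun u hu => by
    obtain ⟨y, hy, c⟩ := p.con u hu
    exact conn_mem h3 h.fX hy ((conn _ _).symm c)
  have := h.card_inner
  rw [h4, card_empty] at this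
  omega

/-- the segment after peeling position i -/
def segN (K : Cfg D) (s : D) (seg : List D) (i : ℕ) (t : Step) : List D :=
  seg.take (i - t.sL) ++ newL K s t ++ seg.drop (i + 1 + t.sR)

lemma segN_map {K : Cfg D} {s : D} {t : Step} (seg : List D) (i : ℕ) {p : D → Bool}
    (h : ∀ y ∈ newL K s t, p y = false) :
    (segN K s seg i t).map p = relab (seg.map p) i t := by
  simp only [segN, relab, List.map_append, List.map_take, List.map_drop]
  congr 2
  rw [← newL_length K s t]
  exact List.eq_replicate_iff.2 ⟨by simp, by simpa using h⟩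

lemma segN_mem {K : Cfg D} {s y : D} {t : Step} {seg : List D} {i : ℕ} (h : y ∈ segN K s seg i t) :
    y ∈ seg ∨ y ∈ newL K s t := by
  simp only [segN, List.mem_append] at h
  rcases h with (h | h) | h
  exacts [Or.inl (List.mem_of_mem_take h), Or.inr h, Or.inl (List.mem_of_mem_drop h)]

namespace Kid
variable {S : St D} {b : Bool} {x s : D} {rest : List D} {t : Step} {v : ℕ} {W : Finset D}

lemma holes (k : Kid S b x rest t v s W) :
    Holes ((S.ch b x s rest t W).K b) [mainL (S.K b) s rest t] := by
  rw [St.ch_same]; exact k.spec.2.2.2.1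

lemma m_eq (k : Kid S b x rest t v s W) : ((S.ch b x s rest t W).K b).m + v + 1 = (S.K b).m := by
  rw [St.ch_same]; exact k.spec.2.2.2.2.2

lemma seg {seg R : List D} {i : ℕ} (hi : i < seg.length)
    (k : Kid S b x (seg.drop (i + 1) ++ R ++ seg.take i) t v s W)
    (h : t.sR - (seg.length - 1 - i) + (t.sL - i) ≤ R.length) :
    Holes ((S.ch b x s (seg.drop (i + 1) ++ R ++ seg.take i) t W).K b)
      [segN (S.K b) s seg i t ++ cut (t.sR - (seg.length - 1 - i)) (t.sL - i) R] := by
  have h1 := k.holes
  have e1 : (seg.drop (i + 1)).length = seg.length - 1 - i := by simp; omega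
  have e2 : (seg.take i).length = i := by simp; omega
  rw [mainL, cut_three _ _ _ _ _ (by rw [e1, e2]; exact h), e1, e2, List.drop_drop, List.take_take,
    min_eq_left (Nat.sub_le _ _), ← List.append_assoc] at h1
  simpa only [segN, List.append_assoc] using h1.comm

lemma new_inner (k : Kid S b x rest t v s W) {y : D} (hy : y ∈ newL (S.K b) s t) :
    y ∈ (S.K b).U \ (S.K b).X := by
  have w := k.wf.wf b
  rcases newL_mem hy with rfl | rfl | rfl
  exacts [w.fI k.hs, w.fI (w.fI k.hs), w.fI (w.fI (w.fI k.hs))]

/-- old hole darts that are still active are in the new hole -/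
lemma X_of (k : Kid S b x rest t v s W) {b' : Bool} {u : D} (hu : u ∈ (S.K b').X)
    (hu' : u ∈ ((S.ch b x s rest t W).K b').U) : u ∈ ((S.ch b x s rest t W).K b').X := by
  by_contra e
  exact (mem_sdiff.1 (k.inner (mem_sdiff.2 ⟨hu', e⟩)).1).2 hu

/-- darts of the new hole are old hole darts or new darts -/
lemma X_sub (k : Kid S b x rest t v s W) {b' : Bool} {u : D}
    (hu : u ∈ ((S.ch b x s rest t W).K b').X) :
    u ∈ (S.K b').X ∨ b' = b ∧ u ∈ newL (S.K b) s t := by
  by_cases e : b' = b
  · subst e
    rcases List.mem_append.1 (k.holes.mem1.1 hu) with h | h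
    exacts [Or.inr ⟨rfl, h⟩, Or.inl (k.hl.mem1.2 (List.mem_cons_of_mem _ (cut_sub h)))]
  · rw [St.ch_ne e] at hu; exact Or.inl hu

lemma len (k : Kid S b x rest t v s W) {l : List D} (hl : Holes ((S.ch b x s rest t W).K b) [l]) :
    l.length = nl (rest.length + 1) t := by
  rw [hl.len, ← k.holes.len, mainL_length _ _ k.fit]

lemma szH (k : Kid S b x rest t v s W) {j : ℕ} {i : ℕ × ℕ}
    (h : SzH j i (S.K b).m (rest.length + 1)) {l : List D}
    (hl : Holes ((S.ch b x s rest t W).K b) [l]) :
    SzH (j + (v + t.sL + t.sR + 2)) i ((S.ch b x s rest t W).K b).m l.length := by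
  have h1 := k.m_eq
  have h2 : 1 ≤ t.nw ∧ t.nw ≤ 3 := by cases t <;> simp [nw]
  have := k.fit
  rw [k.len hl]
  obtain ⟨a, b, c⟩ := h
  refine ⟨by omega, ?_, ?_⟩ <;> unfold nl <;> omega

end Kid

lemma SzH.mono {j j' : ℕ} {i : ℕ × ℕ} {m l : ℕ} (h : SzH j i m l) (e : j ≤ j') : SzH j' i m l :=
  ⟨by have := h.1; omega, by have := h.2.1; omega, by have := h.2.2; omega⟩

/-- the empty configuration -/
def emp (D : Type) : Cfg D := ⟨∅, ∅, 1⟩

lemma VS_emp : VS (emp D) = {1} := by
  ext a
  rw [mem_VS, mem_singleton]
  refine ⟨fun h => Equiv.ext fun u => h.2 u (by simp [emp]), ?_⟩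
  rintro rfl
  exact ⟨⟨by simp [emp], by simp [emp], by simp [emp], by simp [emp, cnt_empty]⟩, fun _ _ => rfl⟩

/-- initial state with one configuration -/
def St.one (K : Cfg D) : St D := ⟨{1}, fun b => if b then K else emp D⟩

lemma one_wf {K : Cfg D} (h : WF K) : (St.one K).WF :=
  ⟨fun b => by
    cases b
    exacts [⟨by simp [St.one, emp], by simp [St.one, emp], by simp [St.one, emp],
      by simp [St.one, emp]⟩, h],
    fun b => by cases b <;> simp [St.one, emp], by simp [St.one]⟩

lemma one_sum (K : Cfg D) (Φ : Perm D → ℝ) : (St.one K).sum Φ = ∑ a ∈ VS K, Φ a := by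
  simp [St.sum, St.one, VS_emp]

lemma one_ok {K : Cfg D} {g : Perm D} : (St.one K).Ok g ↔ g ∈ VS K := by
  simp [St.Ok, St.one, VS_emp]

open Classical in
lemma one_cnt (K : Cfg D) (E : Perm D → Prop) : (St.one K).cnt E = ((VS K).filter E).card := by
  rw [St.cnt, one_sum, card_filter]; push_cast; rfl

lemma one_tot (K : Cfg D) : (St.one K).tot = (VS K).card := by simp [St.tot, one_sum]

end Pool.Agent.Lib.MP_abd955_pr
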