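import Pool.Agent.Lib.MP_abd955_pr.StepDefs

namespace Pool.Agent.Lib.MP_abd955_pr

open Enum PowerSeries Finset Filter Topology Step

section spread
variable {A : Type} [CommRing A]

lemma mk_spr (u : ℕ → A) :
    PowerSeries.mk (fun l => if Even l then u (l / 2) else 0) =
      PowerSeries.expand 2 two_ne_zero (PowerSeries.mk u) := by
  ext n
  rw [coeff_mk, coeff_expand, coeff_mk]
  simp only [even_iff_two_dvd]

lemma anti_two (u v : ℕ → A) (h0 : u 0 = 0) (h1 : u 1 = 0) (h2 : v 0 = 0) (l : ℕ) :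
    ∑ k ∈ antidiagonal (l + 2), u k.1 * v k.2 = ∑ i ∈ range l, u (i + 2) * v (l - i) := by
  rw [Finset.Nat.sum_antidiagonal_eq_sum_range_succ (fun a b => u a * v b), sum_range_succ,
    sum_range_succ', sum_range_succ']
  simp only [h0, h1, h2, zero_add, zero_mul, add_zero, Nat.sub_self, mul_zero]
  refine sum_congr rfl fun i _ => ?_
  rw [show l + 2 - (i + 1 + 1) = l - i by omega]

lemma anti_one (u v : ℕ → A) (h0 : u 0 = 0) (h2 : v 0 = 0) (l : ℕ) :
    ∑ k ∈ antidiagonal (l + 2), u k.1 * v k.2 = ∑ i ∈ range (l + 1), u (i + 1) * v (l + 1 - i) := by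
  rw [Finset.Nat.sum_antidiagonal_eq_sum_range_succ (fun a b => u a * v b), sum_range_succ,
    sum_range_succ']
  simp only [h0, h2, zero_mul, add_zero, Nat.sub_self, mul_zero]
  refine sum_congr rfl fun i _ => ?_
  rw [show l + 2 - (i + 1) = l + 1 - i by omega]

end spread

lemma Zl_zero : Zl 0 = 0 := by simp [Zl, ZZ]
lemma Zl_one : Zl 1 = 0 := by simp [Zl]
lemma Zl_odd {l : ℕ} (h : ¬ Even l) : Zl l = 0 := by simp [Zl, h]
lemma Zl_two_mul (p : ℕ) : Zl (2 * p) = ZZ p := by simp [Zl]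
lemma zl_zero : zl 0 = 0 := by simp [zl, z_zero]
lemma zl_one : zl 1 = 0 := by simp [zl]
lemma zl_odd {l : ℕ} (h : ¬ Even l) : zl l = 0 := by simp [zl, h]
lemma zl_two_mul (p : ℕ) : zl (2 * p) = z p := by simp [zl]
lemma hl_zero : hl 0 = 0 := by simp [hl, h_zero]
lemma hl_one : hl 1 = 0 := by simp [hl]
lemma hl_odd {l : ℕ} (h : ¬ Even l) : hl l = 0 := by simp [hl, h]
lemma hl_two_mul (p : ℕ) : hl (2 * p) = h p := by simp [hl]

lemma coeff_Zl_two_mul (p n : ℕ) : coeff n (Zl (2 * p)) = q n p := by rw [Zl_two_mul, q]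

noncomputable def GGs : ℝ⟦X⟧⟦X⟧ := PowerSeries.mk Zl

lemma GG_eq : GGs = PowerSeries.expand 2 two_ne_zero FF := mk_spr ZZ

lemma GG_cubic :
    X ^ 2 * GGs = X ^ 4 + C X * (GGs - C (ZZ 1) * X ^ 2 + 2 * (GGs * GGs) + GGs * GGs * GGs) := by
  have h1 := congrArg (PowerSeries.expand 2 two_ne_zero) FF_cubic
  simp only [map_mul, map_add, map_sub, map_pow, map_ofNat, expand_X, expand_C, ← GG_eq] at h1
  linear_combination h1

lemma Zm_nil : Zm [] = 1 := by simp [Zm]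
lemma Zm_cons (a : ℕ) (ls : List ℕ) : Zm (a :: ls) = Zl a * Zm ls := by simp [Zm]

lemma sum_raws {M : Type} [AddCommMonoid M] (l : ℕ) (f : Raw → M) :
    ∑ ρ ∈ raws l, f ρ = f (none, none) + ∑ i ∈ range l, f (some i, none) +
      ∑ i ∈ range (l + 1), f (none, some i) +
      ∑ i ∈ range l, ∑ k ∈ range (i + 1), f (some i, some k) := by
  rw [raws, sum_union, sum_union, sum_union, sum_singleton, sum_image, sum_image, sum_image,
    sum_filter, sum_product]
  · congr 1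
    refine sum_congr rfl fun i hi => ?_
    rw [← sum_filter]
    refine sum_congr ?_ fun _ _ => rfl
    ext k
    have := mem_range.1 hi
    simp only [mem_filter, mem_range]
    omega
  · intro x _ y _ h
    simp only [Prod.mk.injEq, Option.some.injEq] at h
    exact Prod.ext h.1 h.2
  · intro x _ y _ h
    simpa using h
  · intro x _ y _ h
    simpa using h
  · simp
  · simp [disjoint_left]
  · simp only [disjoint_left, mem_union, mem_singleton, mem_image]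
    rintro x ((rfl | ⟨i, _, rfl⟩) | ⟨i, _, rfl⟩) ⟨y, _, h⟩ <;> simp at h

theorem Zl_rec (l : ℕ) (h1 : 1 ≤ l) :
    Zl l = (if l = 2 then 1 else 0) + X * ∑ ρ ∈ raws l, Zm (rl l ρ) := by
  have h := congrArg (coeff (l + 2)) GG_cubic
  have h2 : (2 : ℝ⟦X⟧⟦X⟧) = C 2 := (map_ofNat _ 2).symm
  have c2 : ∀ m, coeff m (GGs * GGs) = ∑ k ∈ antidiagonal m, Zl k.1 * Zl k.2 := by
    intro m; simp [coeff_mul, GGs]
  have c20 : coeff 0 (GGs * GGs) = 0 := by simp [c2, Zl_zero]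
  have c21 : coeff 1 (GGs * GGs) = 0 := by
    simp [c2, Finset.Nat.antidiagonal_succ, Zl_zero]
  rw [coeff_X_pow_mul, map_add, coeff_C_mul, map_add, map_add, map_sub, coeff_C_mul, h2,
    coeff_C_mul, coeff_X_pow, coeff_X_pow, if_neg (show ¬ (l + 2 = 2) by omega),
    coeff_mul (l + 2) (GGs * GGs) GGs] at h
  simp only [show ∀ m, coeff m GGs = Zl m from fun m => coeff_mk _ _] at h
  rw [anti_two (fun m => coeff m (GGs * GGs)) Zl c20 c21 Zl_zero] at h
  rw [h, sum_raws]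
  simp only [rl, Zm_cons, Zm_nil, mul_one]
  rw [← anti_two Zl Zl Zl_zero Zl_one Zl_zero, ← anti_one Zl Zl Zl_zero Zl_zero, ← c2]
  have e : ∑ i ∈ range l, ∑ k ∈ range (i + 1), Zl (k + 1) * (Zl (i - k + 1) * Zl (l - i)) =
      ∑ i ∈ range l, coeff (i + 2) (GGs * GGs) * Zl (l - i) := by
    refine sum_congr rfl fun i _ => ?_
    rw [c2, anti_one Zl Zl Zl_zero Zl_zero, sum_mul]
    refine sum_congr rfl fun k hk => ?_
    have := mem_range.1 hk
    rw [show i + 1 - k = i - k + 1 by omega, mul_assoc]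
  rw [e]
  by_cases h3 : l = 2
  · rw [if_pos h3, if_pos (by omega)]; ring
  · rw [if_neg h3, if_neg (by omega)]; ring

theorem coeff_Zl_nonneg (l n : ℕ) : 0 ≤ coeff n (Zl l) := by
  unfold Zl; split_ifs
  · exact q_nonneg n _
  · simp

theorem coeff_Zm_nonneg (ls : List ℕ) (n : ℕ) : 0 ≤ coeff n (Zm ls) := by
  induction ls generalizing n with
  | nil => rw [Zm_nil, coeff_one]; split_ifs <;> norm_num
  | cons a ls ih =>
    rw [Zm_cons, coeff_mul]
    exact sum_nonneg fun k _ => mul_nonneg (coeff_Zl_nonneg _ _) (ih _)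

theorem coeff_Zl_pos (l n : ℕ) (h : Even l) (h2 : 2 ≤ l) (hn : l ≤ 2 * n + 2) :
    0 < coeff n (Zl l) := by
  obtain ⟨p, rfl⟩ := h.two_dvd
  obtain ⟨j, rfl⟩ : ∃ j, p = j + 1 := ⟨p - 1, by omega⟩
  rw [coeff_Zl_two_mul]
  exact q_pos n j (by omega)

theorem coeff_zero_Zl (l : ℕ) : coeff 0 (Zl l) = if l = 2 then 1 else 0 := by
  rcases Nat.even_or_odd' l with ⟨p, rfl | rfl⟩
  · rw [coeff_Zl_two_mul, q_zero_left]
    by_cases h : p = 1
    · rw [if_pos h, if_pos (by omega)]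
    · rw [if_neg h, if_neg (by omega)]
  · rw [Zl_odd (by simp), if_neg (by omega)]; simp

theorem hasSum_Zl (l : ℕ) :
    HasSum (fun v => (2 / 9 : ℝ) ^ (l / 2) * coeff v (Zl l) * (1 / 12) ^ v) (zl l) := by
  rcases Nat.even_or_odd' l with ⟨p, rfl | rfl⟩
  · refine hs_congr ((hasSum_q p).mul_left ((2 / 9) ^ p)) (fun v => ?_) ?_
    · rw [coeff_Zl_two_mul, show 2 * p / 2 = p by omega]; ring
    · rw [zl_two_mul, ← mul_assoc, ← mul_pow]; norm_num
  · rw [Zl_odd (by simp), zl_odd (by simp)]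
    simp

theorem zl_nonneg (l : ℕ) : 0 ≤ zl l := by
  unfold zl; split_ifs
  · exact z_nonneg _
  · exact le_rfl

theorem hl_nonneg (l : ℕ) : 0 ≤ hl l := by
  unfold hl; split_ifs
  · exact h_nonneg _
  · exact le_rfl

lemma hl_pos {l : ℕ} (h : Even l) (h2 : 2 ≤ l) : 0 < hl l := by
  obtain ⟨p, rfl⟩ := h.two_dvd
  rw [hl_two_mul]; exact h_pos' (by omega)

lemma hl_le (l : ℕ) : hl l ≤ h (l / 2) := by
  unfold hl; split_ifs
  · exact le_rfl
  · exact h_nonneg _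

theorem w_nonneg (t : Step) : 0 ≤ w t := by
  refine mul_nonneg (by norm_num) (List.prod_nonneg fun x hx => ?_)
  obtain ⟨a, _, rfl⟩ := List.mem_map.1 hx
  exact zl_nonneg a

theorem wv_nonneg (t : Step) (v : ℕ) : 0 ≤ wv t v := by
  have := coeff_Zm_nonneg t.fin v
  unfold wv; positivity

/-- mean volume of a Boltzmann disc -/
lemma hasSum_vol_q (p : ℕ) : HasSum (fun n : ℕ => n * (q n p * (1 / 12) ^ n))
    ((9 * p ^ 2 - 7 * p) / 2 * ((9 / 2) ^ p * z p)) := by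
  rcases p with _ | j
  · simp [q_zero_right]
  obtain ⟨c, hc⟩ : ∃ c : ℝ, c = (3 * j + 2).factorial /
    ((3 * j + 3) * j.factorial * (2 * j + 1).factorial) := ⟨_, rfl⟩
  have h1 : HasSum (fun n : ℕ => (n - j) * (q n (j + 1) * (1 / 12) ^ n))
      (c * (1 / 12) ^ j * (1 / 4) * 2 ^ (3 * j + 3)) := by
    rw [← hasSum_nat_add_iff' (j + 1)]
    have e : ∑ i ∈ range (j + 1), ((i : ℝ) - j) * (q i (j + 1) * (1 / 12) ^ i) = 0 := by
      refine sum_eq_zero fun i hi => ?_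
      rcases (Nat.lt_succ_iff.1 (mem_range.1 hi)).lt_or_eq with h | h
      · rw [q_lt i j h]; simp
      · rw [h]; simp
    rw [e, sub_zero]
    refine hs_congr ((hasSum_ra2 (3 * j + 3)).mul_left (c * (1 / 12) ^ j * (1 / 4))) (fun m => ?_) rfl
    have a4 := ra_fact 1 (3 * j + 3) m (by omega)
    rw [show (1 + 1) * m + (3 * j + 3) - 1 = 3 * j + 2 * (m + 1) by omega,
      show 1 * m + (3 * j + 3) = 3 * j + (m + 1) + 2 by omega, show (1 : ℕ) + 1 = 2 by rfl] at a4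
    rw [show m + (j + 1) = j + (m + 1) by ring, q_closed, a4, hc, Nat.factorial_succ m,
      show (1 / 4 : ℝ) = 3 * (1 / 12) by norm_num, mul_pow, pow_add (1 / 12 : ℝ) j,
      pow_succ (1 / 12 : ℝ) m, pow_succ (3 : ℝ) m]
    generalize (1 / 12 : ℝ) ^ m = x
    generalize (1 / 12 : ℝ) ^ j = y
    push_cast
    field_simp
    ring
  refine hs_congr (h1.add ((hasSum_q (j + 1)).mul_left (j : ℝ))) (fun n => by ring) ?_
  have e : (2 : ℝ) ^ (3 * j) * (1 / 12) ^ j = (9 / 2) ^ j * (4 / 27) ^ j := by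
    rw [pow_mul, ← mul_pow, ← mul_pow]; norm_num
  have e2 : c * (1 / 12) ^ j * (1 / 4) * 2 ^ (3 * j + 3) = 2 * c * ((9 / 2) ^ j * (4 / 27) ^ j) := by
    rw [← e]; ring
  rw [e2, hc, z_closed, Nat.factorial_succ (3 * j + 1), Nat.factorial_succ (3 * j),
    Nat.factorial_succ j, pow_succ (9 / 2 : ℝ) j, pow_succ (4 / 27 : ℝ) j]
  generalize (9 / 2 : ℝ) ^ j = x
  generalize (4 / 27 : ℝ) ^ j = y
  push_cast
  field_simp
  ring

/-- mean volume as a function of the length -/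
noncomputable def mvol (l : ℕ) : ℝ := (9 * (l : ℝ) ^ 2 - 14 * l) / 8

lemma mv_le (l : ℕ) : mvol l ≤ 9 / 8 * (l : ℝ) ^ 2 := by
  have : (0 : ℝ) ≤ l := l.cast_nonneg
  unfold mvol; linarith

lemma hasSum_vol_Zl (l : ℕ) : HasSum
    (fun v : ℕ => v * ((2 / 9 : ℝ) ^ (l / 2) * coeff v (Zl l) * (1 / 12) ^ v)) (mvol l * zl l) := by
  rcases Nat.even_or_odd' l with ⟨p, rfl | rfl⟩
  · refine hs_congr ((hasSum_vol_q p).mul_left ((2 / 9) ^ p)) (fun v => ?_) ?_
    · rw [coeff_Zl_two_mul, show 2 * p / 2 = p by omega]; ring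
    · have : ((2 / 9 : ℝ)) ^ p * (9 / 2) ^ p = 1 := by rw [← mul_pow]; norm_num
      rw [zl_two_mul, mvol]; push_cast
      linear_combination (-(9 * (p : ℝ) ^ 2 - 7 * p) / 2 * z p) * this
  · rw [Zl_odd (by simp), zl_odd (by simp)]
    simp

/-- weight of a list of holes with total volume v -/
noncomputable def tm (ls : List ℕ) (v : ℕ) : ℝ :=
  (2 / 9) ^ (ls.sum / 2) * coeff v (Zm ls) * (1 / 12) ^ v

lemma tm_nonneg (ls : List ℕ) (v : ℕ) : 0 ≤ tm ls v := by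
  have := coeff_Zm_nonneg ls v
  unfold tm; positivity

lemma tm_cons (a : ℕ) (ls : List ℕ) (v : ℕ) : tm (a :: ls) v =
    cv (fun v => (2 / 9 : ℝ) ^ (a / 2) * coeff v (Zl a) * (1 / 12) ^ v) (tm ls) v := by
  rw [tm, Zm_cons, coeff_mul, cv, mul_sum, sum_mul]
  refine sum_congr rfl fun k hk => ?_
  by_cases ha : Even a
  · obtain ⟨p, rfl⟩ := ha.two_dvd
    rw [List.sum_cons, show (2 * p + ls.sum) / 2 = p + ls.sum / 2 by omega,
      show 2 * p / 2 = p by omega, ← HasAntidiagonal.mem_antidiagonal.1 hk, tm, pow_add, pow_add]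
    ring
  · simp [Zl_odd ha]

lemma hasSum_tm (ls : List ℕ) : HasSum (tm ls) (ls.map zl).prod ∧
    HasSum (fun v : ℕ => v * tm ls v) ((ls.map mvol).sum * (ls.map zl).prod) := by
  induction ls with
  | nil =>
    have e : tm [] = fun v => if v = 0 then 1 else 0 := by
      funext v; rw [tm, Zm_nil, coeff_one]; split_ifs with h <;> simp [h]
    rw [e]
    refine ⟨by simpa using hasSum_ite_eq 0 (1 : ℝ), ?_⟩
    refine hs_congr hasSum_zero (fun v => ?_) (by simp)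
    by_cases h : v = 0 <;> simp [h]
  | cons a ls ih =>
    have hn : ∀ v, 0 ≤ (2 / 9 : ℝ) ^ (a / 2) * coeff v (Zl a) * (1 / 12) ^ v := fun v => by
      have := coeff_Zl_nonneg a v
      positivity
    constructor
    · exact hs_congr (hasSum_conv hn (tm_nonneg ls) (hasSum_Zl a) ih.1) (fun v => tm_cons a ls v)
        (by simp)
    · refine hs_congr (hasSum_mul_cv hn (tm_nonneg ls) (hasSum_Zl a) ih.1 (hasSum_vol_Zl a) ih.2)
        (fun v => by rw [tm_cons]) ?_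
      simp only [List.map_cons, List.sum_cons, List.prod_cons]; ring

lemma wv_eq (t : Step) (v : ℕ) : wv t v = 3 / 8 * tm t.fin v := by unfold wv tm; ring

theorem hasSum_wv (t : Step) : HasSum (wv t) (w t) :=
  hs_congr ((hasSum_tm t.fin).1.mul_left (3 / 8)) (wv_eq t) rfl

lemma hasSum_vol_wv (t : Step) :
    HasSum (fun v : ℕ => (v : ℝ) * wv t v) ((t.fin.map mvol).sum * w t) :=
  hs_congr ((hasSum_tm t.fin).2.mul_left (3 / 8)) (fun v => by rw [wv_eq]; ring)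
    (by unfold w; ring)

theorem summable_vol (t : Step) : Summable fun v : ℕ => (v : ℝ) * wv t v :=
  (hasSum_vol_wv t).summable

lemma mv_fin_le (t : Step) : (t.fin.map mvol).sum ≤ 9 / 8 * ((t.sL + t.sR : ℕ) + 2 : ℝ) ^ 2 := by
  have key : ∀ a b : ℕ, mvol (a + 1) + mvol (b + 1) ≤ 9 / 8 * ((a : ℝ) + b + 2) ^ 2 := by
    intro a b
    have h1 := mv_le (a + 1)
    have h2 := mv_le (b + 1)
    have ha : (0 : ℝ) ≤ a := a.cast_nonneg
    have hb : (0 : ℝ) ≤ b := b.cast_nonneg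
    push_cast at h1 h2
    nlinarith [mul_nonneg ha hb]
  have k1 : ∀ a : ℕ, mvol (a + 1) ≤ 9 / 8 * ((a : ℝ) + 2) ^ 2 := by
    intro a
    have h1 := mv_le (a + 1)
    have ha : (0 : ℝ) ≤ a := a.cast_nonneg
    push_cast at h1
    nlinarith
  have k2 : ∀ a : ℕ, mvol (a + 2) ≤ 9 / 8 * ((a : ℝ) + 2) ^ 2 := by
    intro a
    have h1 := mv_le (a + 2)
    push_cast at h1
    exact h1
  cases t with
  | N => simp [Step.fin]
  | R1 a => simpa [Step.fin, sL, sR] using k2 a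
  | L2 a => simpa [Step.fin, sL, sR] using k1 a
  | R2 a => simpa [Step.fin, sL, sR] using k1 a
  | L1 a => simpa [Step.fin, sL, sR] using k2 a
  | RR a b => simpa [Step.fin, sL, sR] using key a b
  | LR a b => simpa [Step.fin, sL, sR, add_comm] using key a b
  | LL a b => simpa [Step.fin, sL, sR] using key a b

lemma tsum_vol_le (t : Step) :
    ∑' v : ℕ, (v : ℝ) * wv t v ≤ 9 / 8 * ((t.sL + t.sR : ℕ) + 2 : ℝ) ^ 2 * w t := by
  rw [(hasSum_vol_wv t).tsum_eq]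
  exact mul_le_mul_of_nonneg_right (mv_fin_le t) (w_nonneg t)

/-- half of the Boltzmann mass sits on volumes at most C l^2 -/
theorem vol_half : ∃ C : ℕ, ∀ l, zl l / 2 ≤
    ∑ v ∈ range (C * l ^ 2 + 1), (2 / 9 : ℝ) ^ (l / 2) * coeff v (Zl l) * (1 / 12) ^ v := by
  refine ⟨3, fun l => ?_⟩
  obtain ⟨a, ha⟩ : ∃ a : ℕ → ℝ, a = fun v => (2 / 9 : ℝ) ^ (l / 2) * coeff v (Zl l) * (1 / 12) ^ v :=
    ⟨_, rfl⟩
  have hn : ∀ v, 0 ≤ a v := fun v => by
    have := coeff_Zl_nonneg l v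
    rw [ha]; positivity
  have h1 : HasSum a (zl l) := ha ▸ hasSum_Zl l
  have h2 : HasSum (fun v : ℕ => v * a v) (mvol l * zl l) := by
    have := hasSum_vol_Zl l
    rw [ha]; exact this
  obtain ⟨K, hK⟩ : ∃ K, K = 3 * l ^ 2 + 1 := ⟨_, rfl⟩
  have hK' : (K : ℝ) = 3 * (l : ℝ) ^ 2 + 1 := by rw [hK]; push_cast; ring
  show zl l / 2 ≤ ∑ v ∈ range (3 * l ^ 2 + 1), (fun v => (2 / 9 : ℝ) ^ (l / 2) * coeff v (Zl l) * (1 / 12) ^ v) v
  rw [← ha, ← hK]
  have h3 := ((hasSum_nat_add_iff' K).2 h1).mul_left (K : ℝ)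
  have h4 := (hasSum_nat_add_iff' K).2 h2
  have h5 := hasSum_le (fun n => mul_le_mul_of_nonneg_right
    (show (K : ℝ) ≤ ((n + K : ℕ) : ℝ) by exact_mod_cast Nat.le_add_left K n) (hn (n + K))) h3 h4
  have h6 : 0 ≤ ∑ i ∈ range K, (i : ℝ) * a i := sum_nonneg fun i _ => mul_nonneg i.cast_nonneg (hn i)
  have h7 := mul_le_mul_of_nonneg_right (mv_le l) (zl_nonneg l)
  have h8 := zl_nonneg l
  have h9 : (0 : ℝ) < K := by rw [hK']; positivity
  refine le_of_mul_le_mul_left ?_ h9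
  rw [hK'] at *
  nlinarith [mul_nonneg h8 (sq_nonneg (l : ℝ))]

theorem zl_lower : ∃ c : ℝ, 0 < c ∧ ∀ l : ℕ, Even l → 2 ≤ l → c / (l : ℝ) ^ 3 ≤ zl l := by
  refine ⟨1 / 2, by norm_num, fun l hl h2 => ?_⟩
  obtain ⟨p, rfl⟩ := hl.two_dvd
  have h1 := z_lower p
  have h3 : h 1 ≤ h p := h_mono (by omega)
  have h4 : (0 : ℝ) < p := by exact_mod_cast (show 0 < p by omega)
  rw [h_one] at h3
  rw [zl_two_mul, div_le_iff₀ (by positivity)]
  push_cast
  nlinarith

end Pool.Agent.Lib.MP_abd955_pr
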