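import Mathlib

namespace Pool.Agent.Lib.MP_abd955_pr

open Equiv MeasureTheory Filter Topology

/-- words in the two moves: true = cross the edge, false = turn along the face -/
abbrev Wd := FreeGroup Bool

/-- codes of rooted maps -/
abbrev Om := Wd → Bool

open Classical in
/-- the set of words that bring the root dart back to itself -/
noncomputable def code {D : Type} (a : D → D) (f : Perm D) (r : D) : Om := fun w =>
  decide (w.toWord.foldr (fun x d => if x.1 then a d else if x.2 then f d else f⁻¹ d) r = r)

/-- a connected map with edge involution a, face permutation f and v vertices -/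
def IsMap {D : Type} (a f : Perm D) (v : ℕ) : Prop :=
  (∀ d, a (a d) = d ∧ a d ≠ d) ∧ MulAction.IsPretransitive (Subgroup.closure {a, f}) D ∧
    Nat.card (Quotient (Perm.SameCycle.setoid (f * a))) = v

/-- n squares -/
def sq (n : ℕ) : Perm (Fin n × Fin 4) := Equiv.prodCongr (Equiv.refl _) (finRotate 4)

/-- n squares and one external face of degree 2p+2 -/
def poly (n p : ℕ) : Perm (Fin n × Fin 4 ⊕ Fin (2 * p + 2)) :=
  Equiv.sumCongr (sq n) (finRotate _)

/-- rooted quadrangulations of the sphere with n faces -/
def sphere (n : ℕ) : Set Om := {ω | ∃ a r, IsMap a (sq n) (n + 2) ∧ ω = code a (sq n) r}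

/-- rooted quadrangulations with n inner faces and a simple boundary of length 2p+2 -/
def disc (n p : ℕ) : Set Om :=
  {ω | ∃ a, IsMap a (poly n p) (n + p + 2) ∧
    (∀ i j, (poly n p * a).SameCycle (.inr i) (.inr j) → i = j) ∧ ω = code a (poly n p) (.inr 0)}

/-- the darts of the map with code ω -/
abbrev Dart (ω : Om) := Wd ⧸ Subgroup.closure {w | ω w = true}

/-- action of a generator on the darts -/
def mv (ω : Om) (x : Bool) : Perm (Dart ω) := MulAction.toPerm (FreeGroup.of x)

/-- the inner dart of the k-th boundary edge -/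
def bd (ω : Om) (k : ℤ) : Dart ω := mv ω true ((mv ω false ^ k) (1 : Wd))

open Classical in
/-- fold the boundary about the origin -/
noncomputable def fold (ω : Om) : Om :=
  code (fun d => if h : ∃! k, d = bd ω k then bd ω (-1 - h.choose) else mv ω true d)
    (mv ω false) (bd ω (-1))

open Classical in
/-- glue two maps along their boundaries -/
noncomputable def glue (ω : Bool → Om) : Om :=
  code (D := Σ b, Dart (ω b))
    (fun d => if h : ∃! k, d.2 = bd (ω d.1) k then ⟨!d.1, bd _ (-h.choose)⟩
      else ⟨d.1, mv _ true d.2⟩)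
    (Equiv.sigmaCongrRight fun b => mv (ω b) false) ⟨true, bd _ 0⟩

/-- local (weak) convergence -/
def Lim (μ : ℕ → Measure Om) (ν : Measure Om) : Prop :=
  IsProbabilityMeasure ν ∧ ∀ C, IsClopen C → Tendsto (fun n => μ n C) atTop (𝓝 (ν C))

end Pool.Agent.Lib.MP_abd955_pr
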