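import Pool.Agent.Lib.MP_abd955_pr.Count

/-! Transport of gluings along isomorphisms of configurations. -/

namespace Pool.Agent.Lib.MP_abd955_pr

open Equiv Equiv.Perm Finset

set_option linter.unusedSectionVars false

variable {D D' : Type} [DecidableEq D] [Fintype D] [DecidableEq D'] [Fintype D']

section
variable {φ : D → D'} {U : Finset D} (hi : Set.InjOn φ U)
include hi

lemma sc_mapOn {π : Perm D} {π' : Perm D'} (hU : ∀ u ∈ U, π u ∈ U)
    (h : ∀ u ∈ U, π' (φ u) = φ (π u)) {x y : D} (hx : x ∈ U) (hy : y ∈ U) :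
    π.SameCycle x y ↔ π'.SameCycle (φ x) (φ y) := by
  constructor
  · intro e
    refine (sc_ind (P := fun z => z ∈ U ∧ π'.SameCycle (φ x) (φ z)) e
      ⟨hx, SameCycle.refl _ _⟩ fun z hz => ⟨hU z hz.1, ?_⟩).2
    rw [← h z hz.1]
    exact hz.2.trans (sc_step _ _)
  · intro e
    obtain ⟨w, hw, e1, e2⟩ := sc_ind (P := fun z => ∃ w ∈ U, φ w = z ∧ π.SameCycle x w) e
      ⟨x, hx, rfl, SameCycle.refl _ _⟩ (by
        rintro _ ⟨w, hw, rfl, e⟩
        exact ⟨π w, hU w hw, (h w hw).symm, e.trans (sc_step _ _)⟩)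
    exact hi hw hy e1 ▸ e2

lemma conn_map {a f : Perm D} {a' f' : Perm D'} (haU : ∀ u ∈ U, a u ∈ U) (hfU : ∀ u ∈ U, f u ∈ U)
    (ha : ∀ u ∈ U, a' (φ u) = φ (a u)) (hf : ∀ u ∈ U, f' (φ u) = φ (f u)) {x y : D} (hx : x ∈ U)
    (hy : y ∈ U) : conn a f x y ↔ conn a' f' (φ x) (φ y) := by
  refine ⟨conn_of_on (conn a' f') φ haU hfU (fun z hz => ha z hz ▸ conn_a _ _ _)
    (fun z hz => hf z hz ▸ conn_f _ _ _) hx, fun e => ?_⟩
  have : Nonempty D := ⟨x⟩
  have l := fun u (hu : u ∈ U) => hi.leftInvOn_invFunOn hu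
  have := conn_of_on (conn a f) (Function.invFunOn φ U) (U := U.image φ) (a := a') (f := f')
    (forall_mem_image.2 fun z hz => ha z hz ▸ mem_image_of_mem _ (haU z hz))
    (forall_mem_image.2 fun z hz => hf z hz ▸ mem_image_of_mem _ (hfU z hz))
    (forall_mem_image.2 fun z hz => by rw [ha z hz, l z hz, l _ (haU z hz)]; exact conn_a _ _ _)
    (forall_mem_image.2 fun z hz => by rw [hf z hz, l z hz, l _ (hfU z hz)]; exact conn_f _ _ _)
    (mem_image_of_mem _ hx) e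
  rwa [l x hx, l y hy] at this

end

theorem pre_map {K : Cfg D} {K' : Cfg D'} (h : WF K) (φ : D → D') (hi : Set.InjOn φ K.U)
    (hU : K'.U = K.U.image φ) (hX : K'.X = K.X.image φ) (hf : ∀ u ∈ K.U, K'.f (φ u) = φ (K.f u))
    {a : Perm D} {a' : Perm D'} (haU : ∀ u ∈ K.U, a u ∈ K.U)
    (ha : ∀ u ∈ K.U, a' (φ u) = φ (a u)) : Pre K K.X a ↔ Pre K' K'.X a' := by
  have s := fun x y hx hy => sc_mapOn hi (π := K.f * a) (π' := K'.f * a') (x := x) (y := y)
    (fun u hu => h.fU _ (haU u hu)) (fun u hu => by simp [ha u hu, hf _ (haU u hu)]) hx hy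
  have c := fun x y hx hy => conn_map hi (x := x) (y := y) haU h.fU ha hf hx hy
  have e1 := cnt_map (sc (K.f * a)) (sc (K'.f * a')) φ K.U fun x hx y hy => s x y hx hy
  have e2 := cnt_map (sc K.f) (sc K'.f) φ K.U fun x hx y hy => sc_mapOn hi h.fU hf hx hy
  have e3 : K'.X.card = K.X.card := hX ▸ card_image_of_injOn (hi.mono h.sub)
  rw [← hU] at e1 e2
  constructor
  · intro p
    refine ⟨?_, ?_, ?_, by rw [← e1, ← e2, e3, p.eul]⟩ <;> simp only [hU, hX, forall_mem_image]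
    · intro x hx
      obtain ⟨h1, h2, h3⟩ := p.inv x hx
      rw [ha x hx, ha _ h1, h2]
      exact ⟨mem_image_of_mem _ h1, rfl, fun e => h3 (hi h1 hx e)⟩
    · intro x hx y hy e
      rw [p.simp x hx y hy ((s x y (h.sub hx) (h.sub hy)).2 e)]
    · intro u hu
      obtain ⟨x, hx, e⟩ := p.con u hu
      exact ⟨φ x, mem_image_of_mem _ hx, (c u x hu (h.sub hx)).1 e⟩
  · intro p
    refine ⟨fun x hx => ?_, fun x hx y hy e => hi (h.sub hx) (h.sub hy) (p.simp _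
      (hX ▸ mem_image_of_mem _ hx) _ (hX ▸ mem_image_of_mem _ hy)
      ((s x y (h.sub hx) (h.sub hy)).1 e)), fun u hu => ?_, by rw [e1, e2, ← e3, p.eul]⟩
    · obtain ⟨-, h2, h3⟩ := p.inv _ (hU ▸ mem_image_of_mem φ hx)
      rw [ha x hx] at h2 h3
      rw [ha _ (haU x hx)] at h2
      exact ⟨haU x hx, hi (haU _ (haU x hx)) hx h2, fun e => h3 (congrArg φ e)⟩
    · obtain ⟨x, hx, e⟩ := p.con _ (hU ▸ mem_image_of_mem φ hu)
      obtain ⟨y, hy, rfl⟩ := mem_image.1 (hX ▸ hx)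
      exact ⟨y, hy, (c u y hu (h.sub hy)).2 e⟩

lemma push {U : Finset D} {U' : Finset D'} (e : U ≃ U') {a : Perm D} (h : ∀ u ∈ U, a u ∈ U) :
    ∃ a' : Perm D', (∀ u : U, a' (e u) = e ⟨a u, h u u.2⟩) ∧ ∀ x, x ∉ U' → a' x = x :=
  ⟨(a.subtypePerm fun x => (mem_iff_of_maps h x).symm).extendDomain e,
    fun u => extendDomain_apply_image _ e u, fun _ hx => extendDomain_apply_not_subtype _ e hx⟩

theorem transfer {K : Cfg D} {K' : Cfg D'} (h : WF K) (φ : D → D') (hi : Set.InjOn φ K.U)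
    (hU : K'.U = K.U.image φ) (hX : K'.X = K.X.image φ) (hf : ∀ u ∈ K.U, K'.f (φ u) = φ (K.f u)) :
    ∃ T : Perm D → Perm D', Set.BijOn T (VS K) (VS K') ∧
      ∀ a ∈ VS K, ∀ u ∈ K.U, T a (φ u) = φ (a u) := by
  let e : K.U ≃ K'.U := .ofBijective (fun u => ⟨φ u, hU ▸ mem_image_of_mem φ u.2⟩)
    ⟨fun u v e => Subtype.ext (hi u.2 v.2 (congrArg Subtype.val e)), fun ⟨x, hx⟩ => by
      obtain ⟨u, hu, rfl⟩ := mem_image.1 (hU ▸ hx)
      exact ⟨⟨u, hu⟩, rfl⟩⟩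
  have : ∀ a : Perm D, ∃ a' : Perm D', a ∈ VS K →
      (∀ u ∈ K.U, a' (φ u) = φ (a u)) ∧ ∀ x, x ∉ K'.U → a' x = x := fun a => by
    by_cases ha : a ∈ VS K
    · obtain ⟨a', h1, h2⟩ := push e (mem_VS.1 ha).1.aU
      exact ⟨a', fun _ => ⟨fun u hu => h1 ⟨u, hu⟩, h2⟩⟩
    · exact ⟨1, fun e => absurd e ha⟩
  choose T hT using this
  refine ⟨T, ⟨fun a ha => ?_, fun a ha b hb e => ?_, fun b hb => ?_⟩, fun a ha => (hT a ha).1⟩
  · have p := (mem_VS.1 ha).1
    exact mem_VS.2 ⟨(pre_map h φ hi hU hX hf p.aU (hT a ha).1).1 p, (hT a ha).2⟩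
  · ext u
    by_cases hu : u ∈ K.U
    · exact hi ((mem_VS.1 ha).1.aU u hu) ((mem_VS.1 hb).1.aU u hu)
        (by rw [← (hT a ha).1 u hu, e, (hT b hb).1 u hu])
    · rw [(mem_VS.1 ha).2 u hu, (mem_VS.1 hb).2 u hu]
  · obtain ⟨p, q⟩ := mem_VS.1 hb
    obtain ⟨a, h1, h2⟩ := push e.symm p.aU
    have h3 : ∀ u ∈ K.U, a u ∈ K.U ∧ b (φ u) = φ (a u) := fun u hu => by
      have := h1 (e ⟨u, hu⟩)
      rw [symm_apply_apply] at this
      exact ⟨this ▸ Subtype.prop _,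
        this ▸ (congrArg Subtype.val (e.apply_symm_apply ⟨b (e ⟨u, hu⟩), _⟩)).symm⟩
    have ha : a ∈ VS K := mem_VS.2 ⟨(pre_map h φ hi hU hX hf (fun u hu => (h3 u hu).1)
      fun u hu => (h3 u hu).2).2 p, h2⟩
    refine ⟨a, ha, Equiv.ext fun x => ?_⟩
    by_cases hx : x ∈ K'.U
    · obtain ⟨u, hu, rfl⟩ := mem_image.1 (hU ▸ hx)
      rw [(hT a ha).1 u hu, (h3 u hu).2]
    · rw [(hT a ha).2 x hx, q x hx]

lemma exists_map_eq [Nonempty D'] : ∀ (l : List D) (l' : List D'), l.Nodup →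
    l.length = l'.length → ∃ φ : D → D', l.map φ = l'
  | [], [], _, _ => ⟨fun _ => Classical.arbitrary _, rfl⟩
  | x :: l, y :: l', h, e => by
    obtain ⟨φ, rfl⟩ := exists_map_eq l l' (List.nodup_cons.1 h).2 (Nat.succ.inj e)
    refine ⟨Function.update φ x y, ?_⟩
    rw [List.map_cons, Function.update_self, List.map_congr_left fun z hz =>
      Function.update_of_ne (fun e : z = x => (List.nodup_cons.1 h).1 (e ▸ hz)) _ _]

lemma exists_squares (f : Perm D) (n : ℕ) : ∀ W : Finset D, W.card = n → (∀ z ∈ W, f z ∈ W) →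
    (∀ z ∈ W, f (f (f (f z))) = z ∧ f (f z) ≠ z) → ∃ L : List (List D),
      (∀ l ∈ L, Cyc f l ∧ l.length = 4) ∧ L.flatten.Nodup ∧ ∀ x, x ∈ W ↔ x ∈ L.flatten := by
  induction n using Nat.strong_induction_on with
  | _ n ih =>
  intro W hn hW h4
  rcases W.eq_empty_or_nonempty with rfl | ⟨x, hx⟩
  · exact ⟨[], by simp⟩
  obtain ⟨e4, e2⟩ := h4 x hx
  have e1 : f x ≠ x := fun e => e2 (by rw [e, e])
  have e3 : f (f (f x)) ≠ x := fun e => e1 (by rw [e] at e4; exact e4)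
  have c : Cyc f [x, f x, f (f x), f (f (f x))] :=
    cyc_cons.2 ⟨by simp [e1.symm, e2.symm, e3.symm], by simp [e4]⟩
  have cx : x ∈ [x, f x, f (f x), f (f (f x))] := List.mem_cons_self
  generalize hl : [x, f x, f (f x), f (f (f x))] = l at c cx
  obtain ⟨L, h1, h2, h3⟩ := ih _ (hn ▸ card_lt_card (filter_ssubset.2 ⟨x, hx, not_not.2 cx⟩))
    (W.filter (· ∉ l)) rfl (fun z hz => mem_filter.2 ⟨hW z (mem_filter.1 hz).1, fun e =>
      (mem_filter.1 hz).2 (c.mem_of_sc e (sc_step f z).symm)⟩) fun z hz => h4 z (mem_filter.1 hz).1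
  refine ⟨l :: L, List.forall_mem_cons.2 ⟨⟨c, hl ▸ rfl⟩, h1⟩, c.1.append h2 fun z h5 h6 =>
    (mem_filter.1 ((h3 z).2 h6)).2 h5, fun z => ?_⟩
  rw [List.flatten_cons, List.mem_append, ← h3, mem_filter]
  exact ⟨fun hz => (em _).imp_right fun e => ⟨hz, e⟩,
    fun hz => hz.elim (fun e => sc_mem hW hx (c.sc cx e)) And.left⟩

/-- the list of all faces -/
lemma Holes.full {K : Cfg D} (h : WF K) {ls : List (List D)} (hl : Holes K ls) :
    ∃ L, Holes ⟨K.U, K.U, K.f⟩ (ls ++ L) ∧ L.map List.length = List.replicate K.m 4 := by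
  obtain ⟨L, h1, h2, h3⟩ := exists_squares K.f _ (K.U \ K.X) rfl (fun z hz => h.fI hz)
    fun z hz => h.four z (mem_sdiff.1 hz).1 (mem_sdiff.1 hz).2
  have h4 : L.map List.length = List.replicate L.length 4 := by
    simpa [List.eq_replicate_iff] using fun l hl => (h1 l hl).2
  have h5 := Holes.card (K := ⟨K.U, K.U \ K.X, K.f⟩) ⟨fun l hl => (h1 l hl).1, h2, h3⟩
  rw [h4, List.sum_replicate, h.card_inner, smul_eq_mul] at h5
  refine ⟨L, ⟨List.forall_mem_append.2 ⟨hl.cyc, fun l hl => (h1 l hl).1⟩, ?_, fun x => ?_⟩,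
    by rw [h4, show L.length = K.m by omega]⟩ <;> rw [List.flatten_append]
  · exact hl.nd.append h2 fun z h5 h6 => (mem_sdiff.1 ((h3 z).2 h6)).2 ((hl.mem z).2 h5)
  · rw [List.mem_append, ← h3, ← hl.mem, ← mem_union, union_sdiff_of_subset h.sub]

theorem exists_shape_iso [Nonempty D'] {K : Cfg D} {K' : Cfg D'} (h : WF K) (h' : WF K')
    {ls : List (List D)} {ls' : List (List D')} (hl : Holes K ls) (hl' : Holes K' ls')
    (e : ls.map List.length = ls'.map List.length) (hm : K.m = K'.m) :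
    ∃ φ : D → D', Set.InjOn φ K.U ∧ K'.U = K.U.image φ ∧ K'.X = K.X.image φ ∧
      (∀ u ∈ K.U, K'.f (φ u) = φ (K.f u)) ∧ ls.map (List.map φ) = ls' := by
  obtain ⟨L, H, e1⟩ := hl.full h
  obtain ⟨L', H', e2⟩ := hl'.full h'
  have e3 : (ls ++ L).map List.length = (ls' ++ L').map List.length := by
    rw [List.map_append, List.map_append, e, e1, e2, hm]
  obtain ⟨φ, e4⟩ := exists_map_eq _ (ls' ++ L').flatten H.nd
    (by rw [List.length_flatten, List.length_flatten, e3])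
  have e5 : (ls ++ L).map (List.map φ) = ls' ++ L' := List.eq_iff_flatten_eq.2
    ⟨by rw [← List.map_flatten, e4], by rw [← e3, List.map_map]; simp [Function.comp_def]⟩
  have e6 : ls.map (List.map φ) = ls' := by
    rw [List.map_append] at e5
    exact (List.append_inj e5 (by simpa using congrArg List.length e)).1
  refine ⟨φ, fun x hx y hy => List.inj_on_of_nodup_map (e4 ▸ H'.nd) ((H.mem x).1 hx)
    ((H.mem y).1 hy), Finset.ext fun x => ?_, Finset.ext fun x => ?_, fun u hu => ?_, e6⟩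
  · refine (H'.mem x).trans ?_
    simp only [← e4, List.mem_map, mem_image, ← H.mem]
  · simp only [hl'.mem, ← e6, ← List.map_flatten, List.mem_map, mem_image, ← hl.mem]
  · obtain ⟨l, h1, h2⟩ := List.mem_flatten.1 ((H.mem u).1 hu)
    have c := (H'.cyc _ (e5 ▸ List.mem_map_of_mem h1)).2.2
    rw [← List.map_rotate, ← (H.cyc l h1).2.2, List.map_map, List.map_map, List.map_inj_left] at c
    exact c u h2

end Pool.Agent.Lib.MP_abd955_pr
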