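import Pool.Agent.Lib.MP_abd955_pr.Two

/-! Two mirror steps create a feature with a fixed probability. -/

namespace Pool.Agent.Lib.MP_abd955_pr

open Equiv Equiv.Perm Finset PowerSeries Step

set_option linter.unusedSectionVars false

variable {D D' : Type} [DecidableEq D] [Fintype D] [DecidableEq D'] [Fintype D']

lemma has_of_zip {F : Fam} {v k : ℕ} {al : Perm (E1 v k)} (h : al ∈ TS F v k) {ψ : E1 v k → D}
    (hi : Function.Injective ψ) {g tau f0 b : Perm D} {X0 : Set D} (hg : ∀ u, g (ψ u) = ψ (al u))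
    (hX : ∀ u, ψ u ∈ X0 ↔ ∃ i, u = .inr (.inr i))
    (ht : ∀ i, tau (ψ (.inr (.inr i))) = ψ (t1 v k (.inr (.inr i))))
    (hf : ∀ u, f0 (ψ (.inl u)) = ψ (.inl (sq v u))) (hb : ∀ u, b u = zipf X0 tau g u) :
    Has F b f0 Set.univ (ψ (.inr (.inl false))) (ψ (.inr (.inl true))) := by
  classical
  obtain ⟨e, he, r⟩ := (mem_filter.1 h).2
  refine ⟨v, e, he, ψ ∘ j01, ⟨hi.comp (Sum.map_injective.2 ⟨fun _ _ => id, Sum.inl_injective⟩),
    fun u => ?_, hf⟩, rfl, rfl, fun _ => trivial⟩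
  have t : ∀ z, ψ z ∈ X0 → tau (ψ z) = ψ (t1 v k z) := fun z hz => by
    obtain ⟨i, rfl⟩ := (hX z).1 hz; exact ht i
  simp only [Function.comp, hb, r u, zipf, hg, Set.mem_ofPred_eq, ← hX]
  split_ifs with h1 h2
  exacts [t _ h1, by rw [t _ h2, hg], rfl]

namespace Kid
variable {S : St D} {b : Bool} {x s : D} {rest : List D} {t : Step} {v : ℕ} {W : Finset D}
  (k : Kid S b x rest t v s W)
include k

lemma W_sub {u : D} (hu : u ∈ W) : u ∈ (S.K b).U := (k.aftU.1 (k.subW hu)).2.2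

lemma W_off {u : D} (hu : u ∈ W) (b' : Bool) : u ∉ ((S.ch b x s rest t W).K b').U := by
  by_cases e : b' = b
  · subst e; rw [St.ch_same, k.mainU]; exact fun h => h.2 hu
  · rw [St.ch_ne e, Bool.eq_not.2 e]
    exact k.wf.dis b u (k.W_sub hu)

lemma on_W {c a1 r : Perm D} (hc : c ∈ S.A) (h1 : a1 ∈ VS (((S.K b).aft x s rest t).res W)) {u : D}
    (hu : u ∈ W) (hr : r u = u) : (c * (swap x s * a1) * r) u = a1 u := by
  have := (k.new h1).2.2.1 u hu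
  rw [mul_apply, hr, mul_apply, this.1, k.wf.fix c hc b _ (k.W_sub this.2)]

lemma side {X0 : Set D} {f0 : Perm D}
    (inn : ∀ u ∈ (S.K b).U \ (S.K b).X, u ∉ X0 ∧ (S.K b).f u = f0 u) {K' : Cfg D'} (w' : WF K')
    {l' : List D'} {l : List D} (hl' : Holes K' [l'])
    (hl : Holes (((S.K b).aft x s rest t).res W) [l]) (e : l'.length = l.length) (hm : K'.m = v) :
    ∃ (φ : D' → D) (T : Perm D' → Perm D), Set.InjOn φ K'.U ∧ (∀ u ∈ K'.U, φ u ∈ W) ∧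
      l'.map φ = l ∧ (∀ u ∈ K'.U, u ∉ K'.X → φ u ∉ X0 ∧ f0 (φ u) = φ (K'.f u)) ∧
      Set.BijOn T (VS K') (VS (((S.K b).aft x s rest t).res W)) ∧
      ∀ a ∈ VS K', ∀ u ∈ K'.U, T a (φ u) = φ (a u) := by
  have : Nonempty D := ⟨x⟩
  obtain ⟨φ, i1, i2, i3, i4, i5⟩ := exists_shape_iso w' k.spec.1 hl' hl (by simp [e])
    (hm.trans k.spec.2.2.2.2.1.symm)
  obtain ⟨T, hb, hT⟩ := transfer w' φ i1 i2 i3 i4
  have m : ∀ u ∈ K'.U, φ u ∈ W := fun u hu =>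
    show φ u ∈ (((S.K b).aft x s rest t).res W).U from i2 ▸ mem_image_of_mem φ hu
  refine ⟨φ, T, i1, m, by simpa using i5, fun u hu hu' => ?_, hb, hT⟩
  have := k.aft_inner (k.subW (m u hu)) fun h => hu' (by
    have h2 : φ u ∈ (((S.K b).aft x s rest t).res W).X := mem_inter.2 ⟨h, m u hu⟩
    rw [i3] at h2
    obtain ⟨z, hz, e⟩ := mem_image.1 h2
    exact i1 (w'.sub hz) hu e ▸ hz)
  exact ⟨(inn _ this.1).1, by rw [← (inn _ this.1).2, ← this.2]; exact i4 u hu⟩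

end Kid

open Classical in
/-- number of pairs of gluings whose union belongs to the family -/
noncomputable def NW (F : Fam) (v k : ℕ) (W : Finset (E1 v k)) : ℝ :=
  ∑ a1 ∈ VS ((K1 v k).res W), ∑ a2 ∈ VS ((K1 v k).res ((K1 v k).U \ W)),
    if a1 * a2 ∈ TS F v k then 1 else 0

noncomputable abbrev IW (v k v1 : ℕ) := Inv (K1 v k) [hP v k].flatten.toFinset v1

/-- number of gluings of a hole of length k+1 with v squares -/
noncomputable def nV (k v : ℕ) : ℝ := GG v * coeff v (Zl (k + 1))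

lemma IW_spec {v1 v2 k : ℕ} {W : Finset (E1 (v1 + v2) k)} (h : W ∈ IW (v1 + v2) k v1) :
    WF ((K1 _ k).res W) ∧ WF ((K1 _ k).res ((K1 _ k).U \ W)) ∧ Holes ((K1 _ k).res W) [hP _ k] ∧
      Holes ((K1 _ k).res ((K1 _ k).U \ W)) [hQ _ k] ∧ ((K1 _ k).res W).m = v1 ∧
      ((K1 _ k).res ((K1 _ k).U \ W)).m = v2 := by
  obtain ⟨w, hl, m, -⟩ := K1_spec (v1 + v2) k
  obtain ⟨w1, w2, -, -, m1, m2⟩ := Inv_spec w h
  obtain ⟨H1, H2⟩ := Holes.res w (l1 := [hP _ k]) hl h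
  exact ⟨w1, w2, H1, H2, m1, by omega⟩

lemma card_nV {K : Cfg D} (w : WF K) {l : List D} (h : Holes K [l]) {k v : ℕ} (e : l.length = k + 1)
    (hm : K.m = v) : ((VS K).card : ℝ) = nV k v := by
  rw [card_VS w h, hm]; simp [Zm_cons, Zm_nil, e, nV]

open Classical in
theorem succ_count {F : Fam} {S : St D} {b1 b2 : Bool} {x s s' : D} {T R R' : List D}
    {k v1 v2 : ℕ} {W1 W2 : Finset D} {tau f0 : Perm D} {X0 : Set D} (hk : T.length = k)
    (k1 : Kid S b1 x (T ++ R) (.R2 k) v1 s W1)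
    (k2 : Kid (S.ch b1 x s (T ++ R) (.R2 k) W1) b2 (tau x) (R' ++ (T.map tau).reverse) (.L2 k)
      v2 s' W2)
    (inn : ∀ b, ∀ u ∈ (S.K b).U \ (S.K b).X, u ∉ X0 ∧ (S.K b).f u = f0 u)
    (tt : ∀ u, tau (tau u) = u) (hx : tau x ∈ X0) (hT : ∀ u ∈ T, u ∈ X0 ∧ tau u ∈ X0)
    {W0 : Finset (E1 (v1 + v2) k)} (h0 : W0 ∈ IW (v1 + v2) k v1) {S2 : St D}
    (e2 : S2 = (S.ch b1 x s (T ++ R) (.R2 k) W1).ch b2 (tau x) s' (R' ++ (T.map tau).reverse)
      (.L2 k) W2) {Q : Perm D → Prop}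
    (hQ' : ∀ c, Q c → ∃ a ∈ VS (S2.K true), ∃ a' ∈ VS (S2.K false), ∃ b : Perm D,
      (∀ u, b u = zipf X0 tau (c * (a * a')) u) ∧ ¬Feat F b f0 ((c * (a * a')) (tau x))) :
    ((S2.A.filter Q).card : ℝ) ≤ S.A.card * (nV k v1 * nV k v2 - NW F _ k W0) ∧
      (S2.A.card : ℝ) = S.A.card * (nV k v1 * nV k v2) := by
  set S1 := S.ch b1 x s (T ++ R) (.R2 k) W1 with e1
  have inn1 : ∀ u ∈ (S1.K b2).U \ (S1.K b2).X, u ∉ X0 ∧ (S1.K b2).f u = f0 u := fun u hu =>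
    ⟨(inn _ _ (k1.inner hu).1).1, (k1.inner hu).2.trans (inn _ _ (k1.inner hu).1).2⟩
  obtain ⟨w1, w2, H1, H2, m1, m2⟩ := IW_spec h0
  have i1 := (k1.wf.wf b1).fI k1.hs
  have i2 := (k1.wf.wf b1).fI i1
  have i3 := (k1.wf.wf b1).fI i2
  have L1 := k1.spec.2.2.1
  have L2 := k2.spec.2.2.1
  have q1 : finL (S.K b1) s (T ++ R) (.R2 k) = [f0 (f0 (f0 s)) :: T] := by
    rw [← (inn _ _ k1.hs).2, ← (inn _ _ i1).2, ← (inn _ _ i2).2]
    simp [finL, rawH, Step.raw, Step.mi, c2, c3, keep, extra, ← hk]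
  have q2 : finL (S1.K b2) s' (R' ++ (T.map tau).reverse) (.L2 k) =
      [(T.map tau).reverse ++ [f0 s']] := by
    rw [← (inn1 _ k2.hs).2]
    simp [finL, rawH, Step.raw, Step.mi, c2, c3, keep, extra, ← hk]
  rw [q1] at L1
  rw [q2] at L2
  obtain ⟨φ1, T1, a1, a2, a3, a4, a5, a6⟩ := k1.side (inn b1) w1 H1 L1 (by simp [hP, hk]) m1
  obtain ⟨φ2, T2, c1, c2, c3, c4, c5, c6⟩ := k2.side inn1 w2 H2 L2.comm (by simp [hQ, hk]) m2
  have n1 := card_nV w1 H1 (k := k) (by simp [hP]) m1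
  have n2 := card_nV w2 H2 (k := k) (by simp [hQ]) m2
  have sm : ∀ Ψ : Perm D → ℝ, ∑ c ∈ S2.A, Ψ c = ∑ c ∈ S.A, ∑ y ∈ VS ((K1 _ k).res W0),
      ∑ z ∈ VS ((K1 _ k).res ((K1 _ k).U \ W0)),
        Ψ (c * (swap x s * T1 y) * (swap (tau x) s' * T2 z)) := fun Ψ => by
    rw [e2, k2.sumA, k1.sumA]
    refine sum_congr rfl fun c _ => (sum_nbij T1 a5.mapsTo a5.injOn a5.surjOn fun y _ => ?_).symm
    exact sum_nbij T2 c5.mapsTo c5.injOn c5.surjOn fun z _ => rfl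
  refine ⟨?_, by rw [card_eq_sum_ones, Nat.cast_sum, sm]; simp [n1, n2]⟩
  rw [card_filter, Nat.cast_sum, sm, ← nsmul_eq_mul]
  refine sum_le_card_nsmul _ _ _ fun c hc => ?_
  rw [le_sub_iff_add_le, NW, ← sum_add_distrib, ← n1, ← n2, ← nsmul_eq_mul]
  refine sum_le_card_nsmul _ _ _ fun y hy => ?_
  rw [← sum_add_distrib]
  refine (sum_le_card_nsmul _ _ 1 fun z hz => ?_).trans (by simp)
  by_cases hq : Q (c * (swap x s * T1 y) * (swap (tau x) s' * T2 z))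
  swap
  · rw [if_neg hq]; split_ifs <;> simp
  rw [if_pos hq, if_neg fun hts => ?_]
  · simp
  obtain ⟨a, ha, a', ha', b, hb, hn⟩ := hQ' _ hq
  subst e2
  have y1 := a5.mapsTo hy
  have z1 := c5.mapsTo hz
  have mc := k1.memA.2 ⟨c, hc, _, y1, rfl⟩
  have ok := k2.up ⟨_, k2.memA.2 ⟨_, mc, _, z1, rfl⟩, a, ha, a', ha', rfl⟩
  have ok' := k1.up ok.1
  have fx : ∀ u, (∀ b', u ∉ ((S1.ch b2 (tau x) s' (R' ++ (T.map tau).reverse) (.L2 k) W2).K b').U) →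
      (a * a') u = u := fun u h => by
    rw [mul_apply, (mem_VS.1 ha').2 u (h _), (mem_VS.1 ha).2 u (h _)]
  have g2 := fun u hu => k2.on_W mc z1 (u := u) hu (fx u (k2.W_off hu))
  have g1 := fun u hu => k1.on_W (r := swap (tau x) s' * T2 z * (a * a')) hc y1 (u := u) hu (by
    rw [mul_apply, fx u fun b' h => k1.W_off hu b' (k2.subU h), k2.new_off z1 (k1.W_off hu b2)])
  simp only [← mul_assoc _ (swap (tau x) s' * T2 z)] at g1
  generalize c * (swap x s * T1 y) * (swap (tau x) s' * T2 z) * (a * a') = g at *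
  have nU : ∀ u, u ∉ W0 → u ∈ ((K1 (v1 + v2) k).res ((K1 _ k).U \ W0)).U := fun u hu =>
    mem_sdiff.2 ⟨mem_univ _, hu⟩
  have p1 : ∀ u ∈ hP (v1 + v2) k, u ∈ W0 := fun u hu => w1.sub (H1.mem1.2 hu)
  have p2 : ∀ u ∈ hQ (v1 + v2) k, u ∉ W0 := fun u hu => (mem_sdiff.1 (w2.sub (H2.mem1.2 hu))).2
  have p3 : ∀ i, .inr (.inr (i, true)) ∈ W0 := fun i => p1 _ (by simp [hP])
  have p4 : ∀ i, .inr (.inr (i, false)) ∉ W0 := fun i => p2 _ (by simp [hQ])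
  have p5 : .inr (.inl true) ∈ W0 := p1 _ (by simp [hP])
  have p6 : .inr (.inl false) ∉ W0 := p2 _ (by simp [hQ])
  simp only [hP, hQ, List.map_cons, List.cons.injEq, List.map_map, List.singleton_append,
    List.map_reverse, List.reverse_inj] at a3 c3
  have r1 : ∀ i, φ1 (.inr (.inr (i, true))) ∈ T := fun i =>
    a3.2 ▸ List.mem_map.2 ⟨i, List.mem_finRange i, rfl⟩
  have r2 : ∀ i, φ2 (.inr (.inr (i, false))) = tau (φ1 (.inr (.inr (i, true)))) := fun i => by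
    have := c3.2
    rw [← a3.2, List.map_map, List.map_inj_left] at this
    exact this i (List.mem_finRange i)
  have nX : ∀ u W, .inl u ∉ ((K1 (v1 + v2) k).res W).X := fun u W h => by
    simpa [K1] using (mem_inter.1 h).1
  have f1 := (K1_spec (v1 + v2) k).2.2.2
  have := has_of_zip hts (ψ := fun u => if u ∈ W0 then φ1 u else φ2 u) (g := g) (tau := tau)
    (f0 := f0) (X0 := X0) (fun u u' e => ?_) (fun u => ?_) (fun u => ?_) (fun i => ?_) (fun u => ?_) hb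
  · have bs : b s' = s := by
      rw [hb, zipf, if_neg (inn1 _ k2.hs).1, ok.2.2, if_pos hx, tt, ok'.2.1]
    have e4 : f0⁻¹ s = f0 (f0 (f0 s)) := by
      rw [Perm.inv_eq_iff_eq, ← (inn _ _ k1.hs).2, ← (inn _ _ i1).2, ← (inn _ _ i2).2,
        ← (inn _ _ i3).2, k1.ok.e4]
    simp only [if_pos p5, if_neg p6, a3.1, c3.1] at this
    refine hn ?_
    rw [ok.2.1, Feat, bs, e4]
    refine ⟨this, fun i _ e => ?_⟩
    have : ∀ i : ℕ, (f0 ^ i) s' ∈ (S1.K b2).U \ (S1.K b2).X := fun i => by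
      induction i with
      | zero => exact k2.hs
      | succ i ih => rw [pow_succ', mul_apply, ← (inn1 _ ih).2]; exact (k2.wf.wf b2).fI ih
    have h := (mem_sdiff.1 (e ▸ this i)).1
    have h' := (St.Ok.mem_iff k2.wf ok.1 b2 s).1 h
    by_cases eb : b2 = b1
    · rw [eb, e1, St.ch_same, k1.mainU] at h; exact h.1.1 rfl
    · rw [e1, St.ch_ne eb, Bool.eq_not.2 eb] at h
      exact k1.wf.dis b1 s k1.ok.hs h
  · have d : ∀ u u', u ∈ W0 → u' ∉ W0 → φ1 u ≠ φ2 u' := fun u u' h h' e =>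
      k1.W_off (a2 u h) b2 (e ▸ k2.W_sub (c2 u' (nU _ h')))
    by_cases h : u ∈ W0 <;> by_cases h' : u' ∈ W0 <;> simp only [h, h', if_true, if_false] at e
    exacts [a1 h h' e, absurd e (d _ _ h h'), absurd e.symm (d _ _ h' h), c1 (nU _ h) (nU _ h') e]
  · obtain ⟨o1, o2⟩ := mul_on hy hz
    by_cases h : u ∈ W0
    · rw [if_pos h, o1 u h, if_pos (show y u ∈ W0 from (mem_VS.1 hy).1.aU u h), g1 _ (a2 u h),
        a6 y hy u h]
    · rw [if_neg h, o2 u h, if_neg (mem_sdiff.1 ((mem_VS.1 hz).1.aU u (nU _ h))).2,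
        g2 _ (c2 u (nU _ h)), c6 z hz u (nU _ h)]
  · rcases u with u | ⟨_ | _⟩ | ⟨i, _ | _⟩
    · refine iff_of_false ?_ (by simp)
      split_ifs with h
      exacts [(a4 _ h (nX _ _)).1, (c4 _ (nU _ h) (nX _ _)).1]
    · rw [if_neg p6, c3.1, ← (inn1 _ k2.hs).2]
      exact iff_of_false (inn1 _ ((k2.wf.wf b2).fI k2.hs)).1 (by simp)
    · rw [if_pos p5, a3.1, ← (inn _ _ k1.hs).2, ← (inn _ _ i1).2, ← (inn _ _ i2).2]
      exact iff_of_false (inn _ _ i3).1 (by simp)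
    · rw [if_neg (p4 i), r2]; exact iff_of_true (hT _ (r1 i)).2 ⟨_, rfl⟩
    · rw [if_pos (p3 i)]; exact iff_of_true (hT _ (r1 i)).1 ⟨_, rfl⟩
  · rcases i with ⟨i, _ | _⟩
    · rw [if_neg (p4 i), r2, tt]; exact (if_pos (p3 i)).symm
    · rw [if_pos (p3 i), ← r2]; exact (if_neg (p4 i)).symm
  · by_cases h : .inl u ∈ W0
    · rw [if_pos h, (a4 _ h (nX _ _)).2, if_pos (show .inl (sq _ u) ∈ W0 from f1 u ▸ w1.fU _ h)]
      exact congrArg _ (f1 u)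
    · rw [if_neg h, (c4 _ (nU _ h) (nX _ _)).2, if_neg (mem_sdiff.1 (f1 u ▸ w2.fU _ (nU _ h))).2]
      exact congrArg _ (f1 u)

end Pool.Agent.Lib.MP_abd955_pr
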