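import Pool.Agent.Lib.MP_abd955_pr.TrialA

/-! The weight of a successful trial. -/

namespace Pool.Agent.Lib.MP_abd955_pr

open Equiv Equiv.Perm Finset PowerSeries Step

lemma nV_nonneg (k v : ℕ) : 0 ≤ nV k v := mul_nonneg (GG_pos v).le (coeff_Zl_nonneg _ _)

lemma NW_nonneg (F : Fam) (v k : ℕ) (W : Finset (E1 v k)) : 0 ≤ NW F v k W :=
  sum_nonneg fun _ _ => sum_nonneg fun _ _ => by positivity

lemma NW_le (F : Fam) {v1 v2 k : ℕ} {W : Finset (E1 (v1 + v2) k)} (h : W ∈ IW (v1 + v2) k v1) :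
    NW F _ k W ≤ nV k v1 * nV k v2 := by
  obtain ⟨w1, w2, H1, H2, m1, m2⟩ := IW_spec h
  rw [← card_nV w1 H1 (k := k) (by simp [hP]) m1, ← card_nV w2 H2 (k := k) (by simp [hQ]) m2,
    ← nsmul_eq_mul]
  refine sum_le_card_nsmul _ _ _ fun y _ => (sum_le_card_nsmul _ _ 1 fun z _ => ?_).trans (by simp)
  split_ifs <;> norm_num

lemma hP_closed (v k : ℕ) : [hP v k].flatten.toFinset ⊆ (K1 v k).X ∧
    ∀ z ∈ [hP v k].flatten.toFinset, (K1 v k).f z ∈ [hP v k].flatten.toFinset := by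
  have h := (K1_spec v k).2.1
  simp only [List.flatten_singleton, subset_iff, List.mem_toFinset]
  exact ⟨fun _ => h.sub List.mem_cons_self, fun _ => (h.cyc _ List.mem_cons_self).mem⟩

lemma IW_card (v k v1 : ℕ) : (IW v k v1).card = v.choose v1 := by
  rw [card_Inv (K1_spec v k).1 (hP_closed v k).1 (hP_closed v k).2, (K1_spec v k).2.2.1]

lemma sum_NW (F : Fam) (v k : ℕ) :
    ∑ v1 ∈ range (v + 1), ∑ W ∈ IW v k v1, NW F v k W = (TS F v k).card := by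
  classical
  have := sum_dec (K1_spec v k).1 (hP_closed v k).1 (hP_closed v k).2
    fun a => if a ∈ TS F v k then 1 else 0
  rw [(K1_spec v k).2.2.1, sum_ite_mem,
    inter_eq_right.2 (show TS F v k ⊆ _ from filter_subset _ _)] at this
  rw [card_eq_sum_ones, Nat.cast_sum, Nat.cast_one, this]
  rfl

noncomputable def SN (F : Fam) (v k v1 : ℕ) : ℝ := ∑ W ∈ IW v k v1, NW F v k W

/-- proportion of the contents of the two finite holes that give a feature -/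
noncomputable def gam (F : Fam) (k v1 v2 : ℕ) : ℝ :=
  SN F (v1 + v2) k v1 / (v1 + v2).choose v1 / (nV k v1 * nV k v2)

lemma ch_pos (v1 v2 : ℕ) : (0 : ℝ) < (v1 + v2).choose v1 :=
  Nat.cast_pos.2 (Nat.choose_pos (by omega))

lemma SN_nonneg (F : Fam) (v k v1 : ℕ) : 0 ≤ SN F v k v1 := sum_nonneg fun _ _ => NW_nonneg _ _ _ _

lemma SN_le (F : Fam) (k v1 v2 : ℕ) :
    SN F (v1 + v2) k v1 / (v1 + v2).choose v1 ≤ nV k v1 * nV k v2 := by
  rw [div_le_iff₀' (ch_pos _ _), ← IW_card _ k, ← nsmul_eq_mul]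
  exact sum_le_card_nsmul _ _ _ fun W h => NW_le F h

lemma gam_nonneg (F : Fam) (k v1 v2 : ℕ) : 0 ≤ gam F k v1 v2 :=
  div_nonneg (div_nonneg (SN_nonneg _ _ _ _) (Nat.cast_nonneg _))
    (mul_nonneg (nV_nonneg _ _) (nV_nonneg _ _))

lemma gam_le (F : Fam) (k v1 v2 : ℕ) : gam F k v1 v2 ≤ 1 :=
  div_le_one_of_le₀ (SN_le F k v1 v2) (mul_nonneg (nV_nonneg _ _) (nV_nonneg _ _))

lemma exists_W (F : Fam) (k v1 v2 : ℕ) : ∃ W ∈ IW (v1 + v2) k v1,
    gam F k v1 v2 * (nV k v1 * nV k v2) ≤ NW F _ k W := by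
  have := ch_pos v1 v2
  obtain ⟨W, h, e⟩ := exists_le_of_sum_le (s := IW (v1 + v2) k v1)
    (f := fun _ => SN F (v1 + v2) k v1 / (v1 + v2).choose v1) (g := NW F _ k)
    (card_pos.1 (by rw [IW_card]; exact_mod_cast this))
    (by rw [sum_const, IW_card, nsmul_eq_mul, mul_div_cancel₀ _ this.ne']; rfl)
  refine ⟨W, h, ?_⟩
  by_cases z : nV k v1 * nV k v2 = 0
  · rw [z, mul_zero]; exact NW_nonneg _ _ _ _
  · rwa [gam, div_mul_cancel₀ _ z]

lemma gam_wt (F : Fam) (k v1 v2 : ℕ) : wv (.R2 k) v1 * (wv (.L2 k) v2 * gam F k v1 v2) =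
    (2 / 9) ^ k * (SN F (v1 + v2) k v1 / GG (v1 + v2) * (1 / 12) ^ (v1 + v2)) / 32 := by
  have c := ch_pos v1 v2
  by_cases h : nV k v1 * nV k v2 = 0
  · have := SN_le F k v1 v2
    rw [h, div_le_iff₀ c, zero_mul] at this
    rw [gam, le_antisymm this (SN_nonneg _ _ _ _)]; simp
  have g := GG_choose (m := v1 + v2) (v := v1) (by omega)
  rw [Nat.add_sub_cancel_left] at g
  simp only [nV, mul_eq_zero, not_or] at h
  obtain ⟨r, hr⟩ : Even (k + 1) := by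
    by_contra e; exact h.1.2 (by simp [Zl_odd e])
  have e : (2 / 9 : ℝ) ^ r * (2 / 9) ^ r = (2 / 9) ^ k * (2 / 9) := by
    rw [← pow_add, ← hr, pow_succ]
  simp only [wv, Step.fin, List.sum_cons, List.sum_nil, add_zero, Zm_cons, Zm_nil, mul_one, gam, nV,
    show (k + 1) / 2 = r by omega, ← g, pow_add]
  obtain ⟨⟨h1, h2⟩, h3, h4⟩ := h
  field_simp
  linear_combination (288 * SN F (v1 + v2) k v1) * e

noncomputable def sig (F : Fam) (V k v1 : ℕ) : ℝ :=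
  ∑ v2 ∈ range (V + 1 - v1), wv (.L2 k) v2 * gam F k v1 v2

lemma del'_sig (F : Fam) (V K : ℕ) : del' F V K / 32 =
    ∑ z ∈ Icc 1 K ×ˢ range (V + 1), wv (.R2 z.1) z.2 * sig F V z.1 z.2 := by
  rw [del', sum_div, sum_product]
  refine sum_congr rfl fun k _ => ?_
  simp only [sig, mul_sum, gam_wt]
  rw [← sum_range_diag_flip (V + 1) fun v1 v2 => (2 / 9 : ℝ) ^ k *
    (SN F (v1 + v2) k v1 / GG (v1 + v2) * (1 / 12) ^ (v1 + v2)) / 32, sum_div]
  refine sum_congr rfl fun v _ => ?_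
  rw [← sum_NW, sum_div, sum_mul, mul_sum, sum_div]
  refine sum_congr rfl fun v1 h => ?_
  rw [Nat.add_sub_cancel' (Nat.le_of_lt_succ (mem_range.1 h)), SN]

lemma sum_wv_le {κ : Type} (B : Finset κ) {m : κ → Step × ℕ} (hm : Function.Injective m) {γ : κ → ℝ}
    (h : ∀ z, γ z ≤ 1) : ∑ z ∈ B, wv (m z).1 (m z).2 * γ z ≤ 1 :=
  (sum_le_sum fun z _ => mul_le_of_le_one_right (wv_nonneg _ _) (h z)).trans (by
    simpa using sum_le_hasSum (B.map ⟨m, hm⟩) (fun y _ => wv_nonneg _ _) hasSum_wv2)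

lemma tsum_aff {κ : Type} (B : Finset κ) {m : κ → Step × ℕ} (hm : Function.Injective m) (γ : κ → ℝ)
    {c : Step × ℕ → ℝ} {a e d : ℝ} (c0 : ∀ y, 0 ≤ c y)
    (h1 : ∀ y, c y ≤ a + e + d * (y.1.sL + y.1.sR : ℕ))
    (h2 : ∀ z ∈ B, c (m z) ≤ a * (1 - γ z) + e + d * ((m z).1.sL + (m z).1.sR : ℕ)) :
    ∑' y, wv y.1 y.2 * c y ≤ a * (1 - ∑ z ∈ B, wv (m z).1 (m z).2 * γ z) + e + d := by
  have s1 : HasSum (fun y : Step × ℕ => wv y.1 y.2 * (y.1.sL + y.1.sR : ℕ)) 1 :=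
    hasSum_prod_nonneg (g := fun t => w t * (t.sL + t.sR : ℕ))
      (fun y => mul_nonneg (wv_nonneg _ _) (Nat.cast_nonneg _))
      (fun t => (hasSum_wv t).mul_right ((t.sL + t.sR : ℕ) : ℝ)) hasSum_LR
  have s2 : HasSum (fun y : Step × ℕ => wv y.1 y.2 * (a + e + d * (y.1.sL + y.1.sR : ℕ)))
      (a + e + d) := hs_congr' ((hasSum_wv2.mul_right (a + e)).add (s1.mul_left d))
    (fun y => by ring) (by ring)
  have s3 := fun y : Step × ℕ => mul_le_mul_of_nonneg_left (h1 y) (wv_nonneg y.1 y.2)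
  have := sum_le_hasSum (B.map ⟨m, hm⟩) (fun y _ => sub_nonneg.2 (s3 y)) (s2.sub
    (Summable.of_nonneg_of_le (fun y => mul_nonneg (wv_nonneg _ _) (c0 y)) s3 s2.summable).hasSum)
  rw [sum_map] at this
  have s4 : a * ∑ z ∈ B, wv (m z).1 (m z).2 * γ z ≤ _ := le_trans (by
    rw [mul_sum]
    refine sum_le_sum fun z hz => ?_
    have := mul_le_mul_of_nonneg_left (h2 z hz) (wv_nonneg (m z).1 (m z).2)
    simp only [Function.Embedding.coeFn_mk]
    linarith) this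
  linarith

lemma sig_bd (F : Fam) (V k v1 : ℕ) : 0 ≤ sig F V k v1 ∧ sig F V k v1 ≤ 1 :=
  ⟨sum_nonneg fun _ _ => mul_nonneg (wv_nonneg _ _) (gam_nonneg _ _ _ _),
    sum_wv_le _ (m := fun v => (.L2 k, v)) (Prod.mk_right_injective _) fun _ => gam_le _ _ _ _⟩

lemma R2_inj : Function.Injective fun z : ℕ × ℕ => (Step.R2 z.1, z.2) := fun _ _ e =>
  Prod.ext (Step.R2.inj (congrArg Prod.fst e)) (congrArg Prod.snd e :)

lemma del'_le32 (F : Fam) (V K : ℕ) : del' F V K / 32 ≤ 1 := by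
  rw [del'_sig]
  exact sum_wv_le _ R2_inj fun _ => (sig_bd _ _ _ _).2

end Pool.Agent.Lib.MP_abd955_pr
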