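import Pool.Agent.Lib.MP_abd955_pr.TrialB

/-! The machine of repeated trials. -/

namespace Pool.Agent.Lib.MP_abd955_pr

open Equiv Equiv.Perm Finset PowerSeries Step Filter

set_option linter.unusedSectionVars false

section
variable {D : Type} [DecidableEq D] [Fintype D]

lemma cut_infix {α : Type} (R L : ℕ) (l : List α) : cut R L l <:+: l :=
  (List.take_prefix _ _).isInfix.trans (List.drop_suffix _ _).isInfix

lemma cut_le {α : Type} {R L R' L' : ℕ} (h : R ≤ R') (h' : L ≤ L') (l : List α) :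
    cut R' L' l <:+: cut R L l := by
  obtain ⟨a, rfl⟩ := Nat.exists_eq_add_of_le h
  obtain ⟨b, rfl⟩ := Nat.exists_eq_add_of_le h'
  rw [← cut_cut]; exact cut_infix _ _ _

lemma cut_app {α : Type} (R L : ℕ) (A l B : List α) : cut R L l <:+: cut R L (A ++ l ++ B) := by
  by_cases h : R + L ≤ l.length
  · rw [cut_three _ _ _ _ _ (by omega)]
    exact (cut_le (by omega) (by omega) l).trans (List.infix_append _ _ _)
  · rw [List.eq_nil_of_length_eq_zero (l := cut R L l) (by rw [cut_len]; omega)]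
    exact List.nil_infix

/-- l is a segment of the hole -/
def Sg (K : Cfg D) (l : List D) : Prop := ∃ R, Holes K [l ++ R]

lemma Sg.inf {K : Cfg D} {l l' : List D} (h : Sg K l) (e : l' <:+: l) : Sg K l' := by
  obtain ⟨R, h⟩ := h
  obtain ⟨A, B, rfl⟩ := e
  rw [List.append_assoc, List.append_assoc] at h
  exact ⟨B ++ R ++ A, by simpa using h.comm⟩

lemma Kid.sg {S : St D} {b b' : Bool} {x s : D} {rest l : List D} {t : Step} {v : ℕ} {W : Finset D}
    (k : Kid S b x rest t v s W) (h : Sg (S.K b') l) (hx : x ∉ l) :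
    Sg ((S.ch b x s rest t W).K b') (cut t.sR t.sL l) := by
  by_cases e : b' = b
  · subst e
    obtain ⟨R, h⟩ := h
    obtain ⟨A, B, rfl⟩ := List.append_of_mem
      ((List.mem_append.1 (h.mem1.1 (k.hl.mem1.2 List.mem_cons_self))).resolve_left hx)
    rw [← List.append_assoc] at h
    have e : rest = B ++ l ++ A := (k.hl.cyc _ List.mem_cons_self).uniq
      (by simpa using h.comm.cyc _ List.mem_cons_self)
    refine Sg.inf ⟨[], by simpa using k.holes⟩ ?_
    rw [e]
    exact (cut_app _ _ _ _ _).trans (List.suffix_append _ _).isInfix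
  · rw [St.ch_ne e]; exact h.inf (cut_infix _ _ _)

structure TD (D : Type) where
  f0 : Perm D
  tau : Perm D
  X0 : Set D
  P : List D

structure TI (F : Fam) (K g0 : ℕ) (b1 b2 : Bool) (d : TD D) (G j : ℕ) (i : ℕ × ℕ) (S : St D)
    (E : Perm D → Prop) : Prop where
  tt : ∀ u, d.tau (d.tau u) = u
  mem : ∀ x ∈ d.P, x ∈ d.X0 ∧ d.tau x ∈ d.X0 ∧ d.tau x ∉ d.P
  len : 2 * g0 + 2 * K + 1 ≤ d.P.length
  wf : S.WF
  inn : ∀ b, ∀ u ∈ (S.K b).U \ (S.K b).X, u ∉ d.X0 ∧ (S.K b).f u = d.f0 u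
  s1 : Sg (S.K b1) (cut G G d.P)
  s2 : Sg (S.K b2) ((cut G G d.P).map d.tau).reverse
  sz : ∀ b, b = b1 ∨ b = b2 → SzH j i (S.K b).m (S.K b).X.card
  ev : ∀ g, S.Ok g → E g → ∀ x ∈ d.P.take g0, ∃ b : Perm D,
    (∀ u, b u = zipf d.X0 d.tau g u) ∧ ¬Feat F b d.f0 (g (d.tau x))

namespace TI
variable {F : Fam} {K g0 G j : ℕ} {b1 b2 : Bool} {d : TD D} {i : ℕ × ℕ} {S : St D}
  {E : Perm D → Prop} (h : TI F K g0 b1 b2 d G j i S E)
include h

lemma filt (Q : Perm D → Prop) : TI F K g0 b1 b2 d G j i (S.filt Q) E :=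
  { h with wf := h.wf.filt Q, ev := fun g hg => h.ev g hg.of_filt }

lemma step {b : Bool} {x s : D} {rest : List D} {t : Step} {v : ℕ} {W : Finset D}
    (k : Kid S b x rest t v s W) {G' : ℕ} (hG : G ≤ G') (x1 : x ∉ cut G' G' d.P)
    (x2 : d.tau x ∉ cut G' G' d.P) : TI F K g0 b1 b2 d (G' + (t.sL + t.sR))
      (j + (v + t.sL + t.sR + 2)) i (S.ch b x s rest t W) E := by
  refine ⟨h.tt, h.mem, h.len, k.wf', fun b' u hu => ?_, ?_, ?_, fun b' hb => ?_,
    fun g hg => h.ev g (k.up hg).1⟩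
  · exact ⟨(h.inn _ _ (k.inner hu).1).1, (k.inner hu).2.trans (h.inn _ _ (k.inner hu).1).2⟩
  · refine (k.sg (h.s1.inf (cut_le hG hG _)) x1).inf ?_
    rw [cut_cut]; exact cut_le (by omega) (by omega) _
  · refine (k.sg (h.s2.inf ((cut_le hG hG _).map _).reverse) fun e => x2 ?_).inf ?_
    · obtain ⟨y, hy, rfl⟩ := List.mem_map.1 (List.mem_reverse.1 e)
      rwa [h.tt]
    · rw [← cut_reverse, ← cut_map, cut_cut]
      exact ((cut_le (by omega) (by omega) _).map _).reverse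
  · by_cases e : b' = b
    · subst e
      rw [← k.holes.len]
      exact k.szH (by have := h.sz _ hb; rwa [← k.hl.len] at this) k.holes
    · rw [St.ch_ne e]; exact (h.sz _ hb).mono (by omega)

end TI
end

variable {D : ℕ × ℕ → Type} [∀ i, DecidableEq (D i)] [∀ i, Fintype (D i)] {F : Fam} {K g0 : ℕ}
  {b1 b2 : Bool}

def TJ (F : Fam) (K g0 : ℕ) (b1 b2 : Bool) (G j : ℕ) : Iv D := fun i S E =>
  ∃ d, TI F K g0 b1 b2 d G j i S E

/-- the state between the two steps of a trial -/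
def TM (F : Fam) (K g0 : ℕ) (b1 b2 : Bool) (k v G j : ℕ) : Iv D := fun i S1 E =>
  ∃ d, TI F K g0 b1 b2 d G j i S1 E ∧ ∃ S x s, ∃ rest T R R' : List (D i), ∃ W,
    rest = T ++ R ∧ T.length = k ∧
    Kid S b1 x rest (.R2 k) v s W ∧ S1 = S.ch b1 x s rest (.R2 k) W ∧
    (∀ b, ∀ u ∈ (S.K b).U \ (S.K b).X, u ∉ d.X0 ∧ (S.K b).f u = d.f0 u) ∧
    Holes (S1.K b2) [d.tau x :: (R' ++ (T.map d.tau).reverse)] ∧ x ∈ d.P.take g0 ∧
    x ∉ cut G G d.P ∧ ∀ u ∈ T, u ∈ d.P

lemma trial_mid {a e : ℝ} (ha : 0 ≤ a) (he : 0 ≤ e)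
    (ih : ∀ G j, Bd FH (TJ (D := D) F K g0 b1 b2 G j) (a + (G + e) / g0)) (V k v G j : ℕ) :
    Bd FH (TM (D := D) F K g0 b1 b2 k v G j) (a * (1 - sig F V k v) + (G + 1 + e) / g0) := by
  classical
  let γ : Step × ℕ → ℝ := fun y => if y.1 = .L2 k then gam F k v y.2 else 0
  have γ1 : ∀ y, 0 ≤ γ y ∧ γ y ≤ 1 := fun y => by
    simp only [γ]; split_ifs
    exacts [⟨gam_nonneg _ _ _ _, gam_le _ _ _ _⟩, by norm_num]
  let u : Step × ℕ → ℝ := fun y => min 1 (a + ((G + (y.1.sL + y.1.sR) : ℕ) + e) / g0)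
  have u0 : ∀ y, 0 ≤ u y := fun y => le_min zero_le_one (by positivity)
  have key : ∀ y, (1 - γ y) * u y ≤ a * (1 - γ y) + (G + e) / g0 + 1 / g0 * (y.1.sL + y.1.sR : ℕ) :=
    fun y => by
      have h1 : u y ≤ _ := min_le_right _ _
      have h2 : (0 : ℝ) ≤ ((G + (y.1.sL + y.1.sR) : ℕ) + e) / g0 := by positivity
      have h3 : (((G + (y.1.sL + y.1.sR) : ℕ) : ℝ) + e) / g0 =
        (G + e) / g0 + 1 / g0 * (y.1.sL + y.1.sR : ℕ) := by push_cast; ring
      have := γ1 y
      rw [add_assoc, ← h3]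
      nlinarith
  refine (Bd.step (mdH j) b2 (c := fun y => (1 - γ y) * u y) (G := fun _ _ => True)
    (J := fun y i S E => ∃ Q : Perm (D i) → Prop, ((S.A.filter Q).card : ℝ) ≤ (1 - γ y) * S.A.card ∧
      TJ F K g0 b1 b2 (G + (y.1.sL + y.1.sR)) (j + (y.2 + y.1.sL + y.1.sR + 2)) i (S.filt Q) E ∧
      ∀ g, (S.filt fun c => ¬Q c).Ok g → ¬E g)
    (fun y => mul_nonneg (by linarith [γ1 y]) (u0 y))
    (fun y => mul_le_one₀ (by linarith [γ1 y]) (u0 y) (min_le_left _ _))
    (fun y => Bd.frac (Bd.one.min (ih _ _)) (u0 y) (by linarith [γ1 y])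
      (Eventually.of_forall fun _ _ _ => id))
    (fun _ => Eventually.of_forall fun _ => trivial) (Eventually.of_forall ?_)).le ?_
  · rintro i S1 E ⟨d, h, S, x, s, _, T, R, R', W, rfl, hk, k1, rfl, inn, hl, x1, x2, hT⟩
    have xP := h.mem x (List.mem_of_mem_take x1)
    refine ⟨h.wf, _, _, hl, by have := h.sz b2 (.inr rfl); rwa [← hl.len] at this,
      fun ⟨t, v2⟩ _ s' W2 k2 => ?_⟩
    have h2 := h.step k2 le_rfl (fun e => xP.2.2 (cut_sub e)) (by rwa [h.tt])
    generalize e2 : St.ch _ b2 (d.tau x) s' _ t W2 = S2 at h2 ⊢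
    refine ⟨fun c => ∃ a ∈ VS (S2.K true), ∃ a' ∈ VS (S2.K false), (c ∈ S2.A ∧ E (c * (a * a'))), ?_,
      ⟨d, h2.filt _⟩, fun g hg hE => ?_⟩
    · simp only [γ]
      split_ifs with e
      · subst e
        obtain ⟨W0, h0, e0⟩ := exists_W F k v v2
        obtain ⟨c1, c2⟩ := succ_count (F := F) hk k1 k2 inn h.tt xP.2.1
          (fun u hu => ⟨(h.mem u (hT u hu)).1, (h.mem u (hT u hu)).2.1⟩) h0 e2.symm
          (Q := fun c => ∃ a ∈ VS (S2.K true), ∃ a' ∈ VS (S2.K false), (c ∈ S2.A ∧ E (c * (a * a'))))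
          fun c ⟨a, ha, a', ha', hc, hE⟩ => ⟨a, ha, a', ha', h2.ev _ ⟨c, hc, a, ha, a', ha', rfl⟩ hE x x1⟩
        rw [c2]
        refine le_trans (by convert c1) ?_
        rw [mul_left_comm]
        exact mul_le_mul_of_nonneg_left (by linarith) (Nat.cast_nonneg _)
      · rw [sub_zero, one_mul, Nat.cast_le]; convert card_filter_le _ _
    · obtain ⟨c, hc, hq, a, ha, a', ha', rfl⟩ := St.ok_filt.1 hg
      exact hq ⟨a, ha, a', ha', hc, hE⟩
  · refine (tsum_aff (range (V + 1 - v)) (m := fun v => (.L2 k, v)) (Prod.mk_right_injective _)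
      (gam F k v) (a := a) (e := (G + e) / g0) (d := 1 / g0)
      (fun y => mul_nonneg (by linarith [γ1 y]) (u0 y))
      (fun y => (key y).trans ?_) fun z _ => by simpa [γ] using key (.L2 k, z)).trans (le_of_eq ?_)
    · have := γ1 y; nlinarith
    · rw [sig]; ring

theorem trial_gen (V : ℕ) (hg : 1 ≤ g0) (t : ℕ) : ∀ G j, Bd FH (TJ (D := D) F K g0 b1 b2 G j)
    ((1 - del' F V K / 32) ^ t + (G + 4 * t) / g0) := by
  have q0 := sub_nonneg.2 (del'_le32 F V K)
  have g1 : (0 : ℝ) < g0 := by exact_mod_cast hg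
  induction t with
  | zero => exact fun G j => Bd.one.le (by rw [pow_zero]; exact le_add_of_nonneg_right (by positivity))
  | succ t ih =>
  intro G j
  by_cases hG : g0 ≤ G
  · refine Bd.one.le (le_add_of_nonneg_of_le (by positivity) ((one_le_div g1).2 ?_))
    exact le_add_of_le_of_nonneg (by exact_mod_cast hG) (by positivity)
  set a := (1 - del' F V K / 32) ^ t
  have a0 : 0 ≤ a := by positivity
  let γ : Step × ℕ → ℝ := fun y =>
    if y.1 = .R2 y.1.sR ∧ y.1.sR ≤ K then sig F V y.1.sR y.2 else 0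
  have γ1 : ∀ y, 0 ≤ γ y ∧ γ y ≤ 1 := fun y => by
    simp only [γ]; split_ifs
    exacts [sig_bd _ _ _ _, by norm_num]
  let u : Step × ℕ → ℝ := fun y =>
    a * (1 - γ y) + (G + 2 + 4 * t) / g0 + 1 / g0 * (y.1.sL + y.1.sR : ℕ)
  have u0 : ∀ y, 0 ≤ min 1 (u y) := fun y => le_min zero_le_one (by
    have := sub_nonneg.2 (γ1 y).2; positivity)
  refine (Bd.step (mdH j) b1 (c := fun y => min 1 (u y)) (G := fun _ _ => True)
    (J := fun y i S E =>
      TJ F K g0 b1 b2 (G + 1 + (y.1.sL + y.1.sR)) (j + (y.2 + y.1.sL + y.1.sR + 2)) i S E ∧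
      (y.1 = .R2 y.1.sR ∧ y.1.sR ≤ K → TM F K g0 b1 b2 y.1.sR y.2 (G + 1 + (y.1.sL + y.1.sR))
        (j + (y.2 + y.1.sL + y.1.sR + 2)) i S E)) u0 (fun y => min_le_left _ _)
    (fun y => Bd.one.min ?_) (fun _ => Eventually.of_forall fun _ => trivial)
    (Eventually.of_forall ?_)).le ?_
  · simp only [u, γ]
    split_ifs with e
    · refine ((trial_mid a0 (by positivity) ih V _ _ _ _).of_imp
        (Eventually.of_forall fun _ _ _ h => h.2 e)).le (le_of_eq ?_)
      push_cast; ring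
    · refine ((ih _ _).of_imp (Eventually.of_forall fun _ _ _ h => h.1)).le ?_
      rw [sub_zero, mul_one, add_assoc a, one_div_mul_eq_div, ← add_div]
      exact add_le_add_right (div_le_div_of_nonneg_right (by push_cast; linarith) g1.le) _
  · rintro i S E ⟨d, h⟩
    have l1 := cut_len G G d.P
    have l2 := h.len
    obtain ⟨x, T, e⟩ := List.exists_cons_of_length_pos (l := cut G G d.P) (by omega)
    have mP : ∀ u ∈ x :: T, u ∈ d.P := fun u hu => cut_sub (e ▸ hu)
    have xP := h.mem x (mP x List.mem_cons_self)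
    obtain ⟨R, hl⟩ := h.s1
    rw [e, List.cons_append] at hl
    have x0 : x ∉ cut (G + 1) (G + 1) d.P := fun c => by
      rw [← cut_cut, e] at c
      exact (List.nodup_cons.1 (hl.cyc _ List.mem_cons_self).1).1
        (List.mem_append_left _ (List.mem_of_mem_take c))
    refine ⟨h.wf, _, _, hl, by have := h.sz b1 (.inl rfl); rwa [← hl.len] at this,
      fun ⟨t, v⟩ _ s W k => ?_⟩
    have h1 := h.step k (Nat.le_succ G) x0 fun e => xP.2.2 (cut_sub e)
    refine ⟨⟨d, h1⟩, fun c => ?_⟩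
    obtain ⟨r, rfl, hr⟩ : ∃ r, t = .R2 r ∧ r ≤ K := ⟨_, c⟩
    rw [e, List.length_cons] at l1
    have s2 := h.s2
    rw [e, ← List.take_append_drop r T] at s2
    obtain ⟨R', hl'⟩ := (k.sg s2 fun c => by
      obtain ⟨y, hy, e⟩ := List.mem_map.1 (List.mem_reverse.1 c)
      rw [List.take_append_drop] at hy
      exact (h.mem y (mP y hy)).2.2 (e ▸ mP x List.mem_cons_self)).inf
      (l' := ((T.take r).map d.tau).reverse ++ [d.tau x]) (by
        simp only [cut, sL, sR, List.map_cons, List.map_append, List.reverse_cons,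
          List.reverse_append, List.append_assoc]
        rw [Nat.sub_zero, ← List.length_drop, List.take_length,
          List.drop_append_of_le_length (by simp; omega)]
        exact (List.suffix_append _ _).isInfix)
    refine ⟨d, h1, S, x, s, _, T.take r, T.drop r ++ R, R', W, by simp [← List.append_assoc],
      by simp [sR]; omega, k, rfl, h.inn, ?_, ?_, fun c => x0 ((cut_le (by omega) (by omega) _).subset c),
      fun u hu => mP u (List.mem_cons_of_mem _ (List.mem_of_mem_take hu))⟩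
    · rw [List.append_assoc] at hl'; simpa using hl'.comm
    · refine List.mem_of_getElem? (i := G) ?_
      have := congrArg (·[0]?) e
      simp only [cut, List.getElem?_take, List.getElem?_drop] at this ⊢
      rw [if_pos (by omega)] at this ⊢
      simpa using this
  · refine (tsum_aff (Icc 1 K ×ˢ range (V + 1)) R2_inj (fun z => sig F V z.1 z.2) (a := a)
      (e := (G + 2 + 4 * t) / g0) (d := 1 / g0) u0
      (fun y => (min_le_right _ _).trans ?_) fun z hz => (min_le_right _ _).trans ?_).trans ?_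
    · have := γ1 y; simp only [u]; nlinarith
    · simp [u, γ, sR, (mem_Icc.1 (mem_product.1 hz).1).2]
    · rw [← del'_sig, pow_succ, add_assoc (a * _), ← add_div]
      exact add_le_add_right (div_le_div_of_nonneg_right (by push_cast; linarith) g1.le) _

end Pool.Agent.Lib.MP_abd955_pr
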