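import Pool.Agent.Lib.MP_abd955_pr.WDefs

namespace Pool.Agent.Lib.MP_abd955_pr.WN

open PowerSeries Finset

lemma zt_nonneg (l0 V l : ℕ) : 0 ≤ zt l0 V l := by
  refine sum_nonneg fun v _ => ?_
  have : 0 ≤ coeff v (Zl l) := by
    unfold Zl
    split_ifs
    · exact Enum.q_nonneg v _
    · simp
  positivity

lemma wB_nonneg (V : ℕ) (c : Bub) : 0 ≤ wB V c := zt_nonneg _ _ _

lemma wC_nonneg (V : ℕ) (ch : List Bub) : 0 ≤ (ch.map (wB V)).prod :=
  List.prod_nonneg fun x hx => by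
    obtain ⟨c, _, rfl⟩ := List.mem_map.mp hx
    exact wB_nonneg V c

abbrev Bubs (B : ℕ) : Finset Bub := univ ×ˢ Icc 1 B ×ˢ Icc 1 B

lemma nil_mem (B n : ℕ) : [] ∈ Chs B n := by cases n <;> simp [Chs]

lemma sum_Chs (B n : ℕ) (f : List Bub → ℝ) :
    ∑ ch ∈ Chs B (n + 1), f ch = f [] + ∑ c ∈ Bubs B, ∑ ch ∈ Chs B n, f (c :: ch) := by
  rw [Chs, sum_insert (by simp), sum_image, sum_product]
  rintro ⟨a, b⟩ _ ⟨c, d⟩ _ h
  simp only [List.cons.injEq] at h
  exact Prod.ext h.1 h.2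

lemma Chs_bound (B : ℕ) : ∀ n, ∀ ch ∈ Chs B n, (ch.map toP).sum ≤ n * B ∧ (ch.map toQ).sum ≤ n * B ∧
    (ch ≠ [] → 1 ≤ (ch.map toP).sum ∧ 1 ≤ (ch.map toQ).sum)
  | 0, ch, h => by
    simp only [Chs, mem_singleton] at h
    simp [h]
  | n + 1, ch, h => by
    simp only [Chs, mem_insert, mem_image, mem_product, mem_univ, mem_Icc, true_and] at h
    rcases h with rfl | ⟨⟨c, d⟩, ⟨⟨h1, h2⟩, h3⟩, rfl⟩
    · simp
    · obtain ⟨i1, i2, _⟩ := Chs_bound B n d h3
      have p : 1 ≤ toP c ∧ toP c ≤ B := by unfold toP; split_ifs <;> assumption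
      have q : 1 ≤ toQ c ∧ toQ c ≤ B := by unfold toQ; split_ifs <;> assumption
      simp only [List.map_cons, List.sum_cons, add_mul, one_mul]
      refine ⟨by omega, by omega, fun _ => ⟨by omega, by omega⟩⟩

/-- truncated geometric series -/
noncomputable def geo (u : ℝ) : ℕ → ℝ
  | 0 => 1
  | n + 1 => 1 + u * geo u n

lemma geo_nonneg {u : ℝ} (hu : 0 ≤ u) : ∀ n, 0 ≤ geo u n
  | 0 => zero_le_one
  | n + 1 => add_nonneg zero_le_one (mul_nonneg hu (geo_nonneg hu n))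

lemma geo_le (V B : ℕ) {t t' u : ℝ} (hu : 0 ≤ u)
    (h : u ≤ ∑ c ∈ Bubs B, wB V c * t ^ toQ c * t' ^ toP c) : ∀ n,
    geo u n ≤ ∑ ch ∈ Chs B n,
      (ch.map (wB V)).prod * t ^ (ch.map toQ).sum * t' ^ (ch.map toP).sum
  | 0 => by simp [geo, Chs]
  | n + 1 => by
    have ih := geo_le V B hu h n
    rw [sum_Chs, geo]
    have : ∑ c ∈ Bubs B, ∑ ch ∈ Chs B n, ((c :: ch).map (wB V)).prod *
          t ^ ((c :: ch).map toQ).sum * t' ^ ((c :: ch).map toP).sum
        = (∑ c ∈ Bubs B, wB V c * t ^ toQ c * t' ^ toP c) * ∑ ch ∈ Chs B n,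
          (ch.map (wB V)).prod * t ^ (ch.map toQ).sum * t' ^ (ch.map toP).sum := by
      rw [sum_mul_sum]
      refine sum_congr rfl fun c _ => sum_congr rfl fun ch _ => ?_
      simp only [List.map_cons, List.prod_cons, List.sum_cons, pow_add]
      ring
    rw [this]
    have := mul_le_mul h ih (geo_nonneg hu n) (hu.trans h)
    simp only [List.map_nil, List.prod_nil, List.sum_nil, pow_zero, mul_one]
    linarith

lemma geo_le' (V B n : ℕ) {t t' u : ℝ} (hu : 0 ≤ u)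
    (h : u ≤ ∑ c ∈ Bubs B, wB V c * t ^ toQ c * t' ^ toP c) :
    geo u n - 1 ≤ ∑ ch ∈ (Chs B n).erase [],
      (ch.map (wB V)).prod * t ^ (ch.map toQ).sum * t' ^ (ch.map toP).sum := by
  have h1 := geo_le V B hu h n
  rw [← add_sum_erase _ _ (nil_mem B n)] at h1
  simp only [List.map_nil, List.prod_nil, List.sum_nil, pow_zero, mul_one] at h1
  linarith

noncomputable def Psi (P B N V n : ℕ) (o : Option Bool) (s : ℕ) : ℝ :=
  ∑ τ ∈ Its P B N n o, wI V s τ

noncomputable def AA (P V : ℕ) (σ : Bool) (s : ℕ) : ℝ :=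
  ∑ i ∈ Icc 1 P, ∑ j ∈ Icc 1 P, zt (lo σ) V (i + j + s)

lemma AA_nonneg (P V : ℕ) (σ : Bool) (s : ℕ) : 0 ≤ AA P V σ s :=
  sum_nonneg fun _ _ => sum_nonneg fun _ _ => zt_nonneg _ _ _

def own (σ : Bool) (ch : List Bub) : ℕ := ownL (σ, 0, 0, ch)
def oth (σ : Bool) (ch : List Bub) : ℕ := othL (σ, 0, 0, ch)
def nxt (σ : Bool) (ch : List Bub) : Option Bool := nxtS (σ, 0, 0, ch)

noncomputable def TT (P B N V n : ℕ) (σ : Bool) (s : ℕ) : ℝ :=
  ∑ ch ∈ Chs B N, AA P V σ (s + own σ ch) * (ch.map (wB V)).prod *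
    Psi P B N V n (nxt σ ch) (oth σ ch)

lemma Psi_succ (P B N V n : ℕ) (o : Option Bool) (s : ℕ) :
    Psi P B N V (n + 1) o s =
      ∑ σ : Bool, if o = none ∨ o = some σ then TT P B N V n σ s else 0 := by
  classical
  rw [Psi, Its, sum_biUnion, sum_filter, sum_product]
  · refine sum_congr rfl fun σ _ => ?_
    by_cases h : o = none ∨ o = some σ
    · simp only [h, if_true]
      rw [sum_product, TT]
      simp only [AA, sum_mul]
      rw [sum_comm (s := Chs B N)]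
      refine sum_congr rfl fun i _ => ?_
      rw [sum_product, sum_comm (s := Chs B N)]
      refine sum_congr rfl fun j _ => sum_congr rfl fun ch _ => ?_
      rw [sum_image (fun a _ b _ hab => (List.cons.inj hab).2), Psi, mul_sum]
      refine sum_congr rfl fun τ _ => ?_
      rw [wI, ← add_assoc]
      rfl
    · simp only [h, if_false, sum_const_zero]
  · intro a _ b _ hab
    rw [Function.onFun, disjoint_left]
    intro x hx hy
    obtain ⟨_, _, rfl⟩ := mem_image.mp hx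
    obtain ⟨_, _, h⟩ := mem_image.mp hy
    exact hab (List.cons.inj h).1.symm

lemma Psi_none (P B N V n s : ℕ) :
    Psi P B N V (n + 1) none s = TT P B N V n true s + TT P B N V n false s := by
  rw [Psi_succ]; simp

lemma Psi_some (P B N V n : ℕ) (σ : Bool) (s : ℕ) :
    Psi P B N V (n + 1) (some σ) s = TT P B N V n σ s := by
  rw [Psi_succ]; cases σ <;> simp

/-- The finitely many inequalities used by the induction. -/
structure Hyp (P B N V : ℕ) (t1 t2 a1 a2 m11 m12 m22 : ℝ) : Prop where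
  pt1 : 0 ≤ t1
  pt2 : 0 ≤ t2
  pa1 : 0 ≤ a1
  pa2 : 0 ≤ a2
  hA : ∀ σ s, 1 ≤ s → s ≤ 2 * (N * B) → a1 * t1 ^ s + a2 * t2 ^ s ≤ AA P V σ s
  h11 : m11 ≤ ∑ ch ∈ (Chs B N).erase [],
    (ch.map (wB V)).prod * t1 ^ (ch.map toQ).sum * t1 ^ (ch.map toP).sum
  h12 : m12 ≤ ∑ ch ∈ (Chs B N).erase [],
    (ch.map (wB V)).prod * t1 ^ (ch.map toQ).sum * t2 ^ (ch.map toP).sum
  h21 : m12 ≤ ∑ ch ∈ (Chs B N).erase [],
    (ch.map (wB V)).prod * t2 ^ (ch.map toQ).sum * t1 ^ (ch.map toP).sum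
  h22 : m22 ≤ ∑ ch ∈ (Chs B N).erase [],
    (ch.map (wB V)).prod * t2 ^ (ch.map toQ).sum * t2 ^ (ch.map toP).sum

lemma TT_ge {P B N V : ℕ} {t1 t2 a1 a2 m11 m12 m22 b1 b2 : ℝ}
    (H : Hyp P B N V t1 t2 a1 a2 m11 m12 m22) (hb1 : 0 ≤ b1) (hb2 : 0 ≤ b2)
    {n : ℕ} {F k : ℝ} (hk : 0 ≤ k) (hF : F ≤ Psi P B N V n none 0)
    (hG : ∀ σ s, 1 ≤ s → s ≤ N * B → k * (b1 * t1 ^ s + b2 * t2 ^ s) ≤ Psi P B N V n (some σ) s)
    (σ : Bool) (s : ℕ) (hs : s ≤ N * B) :
    AA P V σ s * F + k * (a1 * t1 ^ s * (m11 * b1 + m12 * b2)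
      + a2 * t2 ^ s * (m12 * b1 + m22 * b2)) ≤ TT P B N V n σ s := by
  rw [TT, ← add_sum_erase _ _ (nil_mem B N)]
  have ht1 := H.pt1
  have ht2 := H.pt2
  have ha1 := H.pa1
  have ha2 := H.pa2
  apply add_le_add
  · have e1 : own σ [] = 0 := by cases σ <;> rfl
    have e2 : oth σ [] = 0 := by cases σ <;> rfl
    have e3 : nxt σ [] = none := rfl
    rw [e1, e2, e3]
    simpa using mul_le_mul_of_nonneg_left hF (AA_nonneg P V σ s)
  · have step : ∀ ch ∈ (Chs B N).erase [],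
        (a1 * t1 ^ (s + own σ ch) + a2 * t2 ^ (s + own σ ch)) * (ch.map (wB V)).prod *
          (k * (b1 * t1 ^ oth σ ch + b2 * t2 ^ oth σ ch)) ≤
        AA P V σ (s + own σ ch) * (ch.map (wB V)).prod * Psi P B N V n (nxt σ ch) (oth σ ch) := by
      intro ch hch
      obtain ⟨hne, hch⟩ := mem_erase.mp hch
      obtain ⟨i1, i2, i3⟩ := Chs_bound B N ch hch
      obtain ⟨i3, i4⟩ := i3 hne
      have o1 : 1 ≤ own σ ch ∧ own σ ch ≤ N * B := by
        cases σ
        · exact ⟨i3, i1⟩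
        · exact ⟨i4, i2⟩
      have o2 : 1 ≤ oth σ ch ∧ oth σ ch ≤ N * B := by
        cases σ
        · exact ⟨i4, i2⟩
        · exact ⟨i3, i1⟩
      have e3 : nxt σ ch = some (!σ) := by simp [nxt, nxtS, hne]
      rw [e3]
      have w0 := wC_nonneg V ch
      refine mul_le_mul (mul_le_mul_of_nonneg_right (H.hA σ _ (by omega) (by omega)) w0)
        (hG _ _ o2.1 o2.2) (by positivity) (mul_nonneg (AA_nonneg _ _ _ _) w0)
    refine le_trans ?_ (sum_le_sum step)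
    have key : ∀ {x y m : ℝ}, (m ≤ ∑ ch ∈ (Chs B N).erase [],
          (ch.map (wB V)).prod * x ^ (ch.map toQ).sum * y ^ (ch.map toP).sum) →
        (m ≤ ∑ ch ∈ (Chs B N).erase [],
          (ch.map (wB V)).prod * y ^ (ch.map toQ).sum * x ^ (ch.map toP).sum) →
        m ≤ ∑ ch ∈ (Chs B N).erase [], (ch.map (wB V)).prod * x ^ own σ ch * y ^ oth σ ch := by
      intro x y m h1 h2
      cases σ
      · refine h2.trans (le_of_eq (sum_congr rfl fun ch _ => ?_))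
        rw [mul_right_comm]; rfl
      · exact h1
    have k11 := key H.h11 H.h11
    have k12 := key H.h12 H.h21
    have k21 := key H.h21 H.h12
    have k22 := key H.h22 H.h22
    have e : ∑ ch ∈ (Chs B N).erase [],
        (a1 * t1 ^ (s + own σ ch) + a2 * t2 ^ (s + own σ ch)) * (ch.map (wB V)).prod *
          (k * (b1 * t1 ^ oth σ ch + b2 * t2 ^ oth σ ch))
        = k * (a1 * t1 ^ s * ((∑ ch ∈ (Chs B N).erase [],
              (ch.map (wB V)).prod * t1 ^ own σ ch * t1 ^ oth σ ch) * b1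
            + (∑ ch ∈ (Chs B N).erase [],
              (ch.map (wB V)).prod * t1 ^ own σ ch * t2 ^ oth σ ch) * b2)
          + a2 * t2 ^ s * ((∑ ch ∈ (Chs B N).erase [],
              (ch.map (wB V)).prod * t2 ^ own σ ch * t1 ^ oth σ ch) * b1
            + (∑ ch ∈ (Chs B N).erase [],
              (ch.map (wB V)).prod * t2 ^ own σ ch * t2 ^ oth σ ch) * b2)) := by
      simp only [sum_mul, mul_sum, mul_add, ← sum_add_distrib]
      refine sum_congr rfl fun ch _ => ?_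
      simp only [pow_add]
      ring
    rw [e]
    gcongr

theorem main_ind {P B N V : ℕ} {t1 t2 a1 a2 m11 m12 m22 b1 b2 A0 lam c : ℝ}
    (H : Hyp P B N V t1 t2 a1 a2 m11 m12 m22) (hb1 : 0 ≤ b1) (hb2 : 0 ≤ b2)
    (hA0 : A0 ≤ AA P V true 0 + AA P V false 0) (hlam : 0 ≤ lam) (hc : 0 ≤ c)
    (c0 : c ≤ A0) (c1 : c * b1 ≤ a1) (c2 : c * b2 ≤ a2)
    (n0 : lam ≤ A0 + 2 * (a1 * (m11 * b1 + m12 * b2) + a2 * (m12 * b1 + m22 * b2)))
    (n1 : lam * b1 ≤ a1 * (1 + (m11 * b1 + m12 * b2)))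
    (n2 : lam * b2 ≤ a2 * (1 + (m12 * b1 + m22 * b2))) : ∀ n,
    c * lam ^ n ≤ Psi P B N V (n + 1) none 0 ∧ ∀ σ s, 1 ≤ s → s ≤ N * B →
      c * lam ^ n * (b1 * t1 ^ s + b2 * t2 ^ s) ≤ Psi P B N V (n + 1) (some σ) s
  | 0 => by
    have hF : (1 : ℝ) ≤ Psi P B N V 0 none 0 := by simp [Psi, Its, wI]
    have T := TT_ge H hb1 hb2 (k := 0) le_rfl hF (fun σ s _ _ => by simp [Psi, Its])
    simp only [zero_mul, add_zero, mul_one] at T
    refine ⟨?_, fun σ s h1 h2 => ?_⟩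
    · rw [Psi_none, pow_zero, mul_one]
      have := T true 0 (Nat.zero_le _)
      have := T false 0 (Nat.zero_le _)
      linarith
    · rw [Psi_some, pow_zero, mul_one]
      refine le_trans ?_ ((H.hA σ s h1 (by omega)).trans (T σ s h2))
      have := mul_le_mul_of_nonneg_right c1 (pow_nonneg H.pt1 s)
      have := mul_le_mul_of_nonneg_right c2 (pow_nonneg H.pt2 s)
      linarith
  | n + 1 => by
    obtain ⟨i1, i2⟩ := main_ind H hb1 hb2 hA0 hlam hc c0 c1 c2 n0 n1 n2 n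
    have hk : 0 ≤ c * lam ^ n := by positivity
    have T := TT_ge H hb1 hb2 hk i1 i2
    rw [pow_succ, ← mul_assoc]
    generalize c * lam ^ n = k at hk T
    refine ⟨?_, fun σ s h1 h2 => ?_⟩
    · rw [Psi_none]
      have T1 := T true 0 (Nat.zero_le _)
      have T2 := T false 0 (Nat.zero_le _)
      simp only [pow_zero, mul_one] at T1 T2
      have := mul_le_mul_of_nonneg_left n0 hk
      have := mul_le_mul_of_nonneg_left hA0 hk
      linarith
    · rw [Psi_some]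
      refine le_trans ?_ (T σ s h2)
      have := mul_le_mul_of_nonneg_right (H.hA σ s h1 (by omega)) hk
      have := mul_le_mul_of_nonneg_left n1 (mul_nonneg hk (pow_nonneg H.pt1 s))
      have := mul_le_mul_of_nonneg_left n2 (mul_nonneg hk (pow_nonneg H.pt2 s))
      linarith

end Pool.Agent.Lib.MP_abd955_pr.WN
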