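import Pool.Agent.Lib.MP_abd955_pr.WNumA

namespace Pool.Agent.Lib.MP_abd955_pr.WN

open PowerSeries Finset Filter Topology Enum

def zq : ℕ → ℚ
  | 0 => 0
  | 1 => 8 / 27
  | p + 2 => zq (p + 1) * (2 * (3 * p + 2) * (3 * p + 1) / (9 * (p + 2) * (2 * p + 3)))

def zlq (b : Bool) (l : ℕ) : ℚ :=
  (if l % 2 = 0 then zq (l / 2) else 0) - (if b = false ∧ l = 2 then 2 / 9 else 0)

def uq (t t' : ℚ) : ℚ :=
  ∑ c ∈ (univ ×ˢ Icc 1 30 ×ˢ Icc 1 30 : Finset Bub),
    zlq c.1 (c.2.1 + c.2.2) * t ^ toQ c * t' ^ toP c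

def go : ℕ → ℕ → ℚ → ℚ → ℚ → ℚ → ℚ → Bool
  | 0, _, _, _, _, _, _ => true
  | f + 1, p, A, D, y, x1, x2 =>
    decide (x1 * (13 / 20) + x2 * (97 / 100) < A - D) &&
    decide (x1 * (13 / 20) ^ 2 + x2 * (97 / 100) ^ 2 < A - D - (D - y)) &&
    go f (p + 1) (A - D - (D - y)) (D - y)
      (y * (2 * (3 * p + 2) * (3 * p + 1) / (9 * (p + 2) * (2 * p + 3))))
      (x1 * (13 / 20) ^ 2) (x2 * (97 / 100) ^ 2)

set_option maxRecDepth 100000 in
theorem go_ok : go 300 0 (5 / 9) (1 / 3) (8 / 27) (177 / 1000) (108 / 1000) = true := by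
  decide +kernel

set_option maxRecDepth 100000 in
theorem u11 : 186 / 1000 < uq (13 / 20) (13 / 20) := by decide +kernel
set_option maxRecDepth 100000 in
theorem u12 : 329 / 1000 < uq (13 / 20) (97 / 100) := by decide +kernel
set_option maxRecDepth 100000 in
theorem u21 : 329 / 1000 < uq (97 / 100) (13 / 20) := by decide +kernel
set_option maxRecDepth 100000 in
theorem u22 : 638 / 1000 < uq (97 / 100) (97 / 100) := by decide +kernel

lemma z_step (p : ℕ) : z (p + 2) =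
    z (p + 1) * (2 * (3 * p + 2) * (3 * p + 1) / (9 * (p + 2) * (2 * p + 3))) := by
  have h1 := z_eq_h p
  have h2 := z_eq_h (p + 1)
  have h3 := h_succ p
  have hp : (0 : ℝ) ≤ p := p.cast_nonneg
  push_cast at h2
  have e1 : h (p + 1) = z (p + 1) * ((3 * p + 1) * (3 * p + 2) * (3 * p + 3)) / 2 := by linarith
  have e2 : h (p + 2) = z (p + 2) * ((3 * (p + 1) + 1) * (3 * (p + 1) + 2) * (3 * (p + 1) + 3)) / 2 := by
    linarith
  rw [e1, e2] at h3
  have hne : (3 * (3 * (p : ℝ) + 4) * (3 * p + 5) * (p + 1)) ≠ 0 := by positivity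
  rw [← mul_div_assoc, eq_div_iff (by positivity)]
  apply mul_left_cancel₀ hne
  linear_combination 2 * h3

lemma zq_cast : ∀ p, ((zq p : ℚ) : ℝ) = z p
  | 0 => by simp [zq, z_zero]
  | 1 => by rw [zq, z_one]; norm_num
  | p + 2 => by rw [zq, z_step, ← zq_cast (p + 1)]; push_cast; ring

/-- limit of the truncated weights -/
noncomputable def zlim (b : Bool) (l : ℕ) : ℝ := zl l - if b = false ∧ l = 2 then 2 / 9 else 0

lemma zlq_cast (b : Bool) (l : ℕ) : ((zlq b l : ℚ) : ℝ) = zlim b l := by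
  rw [zlq, zlim, zl]
  simp only [Nat.even_iff]
  split_ifs <;> simp [zq_cast]

lemma zt_zero (l : ℕ) : Tendsto (fun V => zt 0 V l) atTop (𝓝 (zl l)) := by
  by_cases hl : Even l
  · have h := ((hasSum_q (l / 2)).mul_left ((2 / 9 : ℝ) ^ (l / 2))).tendsto_sum_nat
    have e : (2 / 9 : ℝ) ^ (l / 2) * ((9 / 2) ^ (l / 2) * z (l / 2)) = zl l := by
      rw [← mul_assoc, ← mul_pow, zl, if_pos hl]; norm_num
    rw [e] at h
    refine (h.comp (tendsto_add_atTop_nat 1)).congr fun V => ?_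
    simp only [Function.comp, zt, Zl, if_pos hl]
    rw [range_eq_Ico]
    exact sum_congr rfl fun v _ => by rw [q, mul_assoc]
  · simp [zt, Zl, zl, hl]

lemma zt_one (V l : ℕ) : zt 1 V l = zt 0 V l - if l = 2 then 2 / 9 else 0 := by
  have e : Icc 0 V = insert 0 (Icc 1 V) := by ext x; simp; omega
  have e0 : (2 / 9 : ℝ) ^ (l / 2) * coeff 0 (Zl l) * (1 / 12) ^ 0 = if l = 2 then 2 / 9 else 0 := by
    unfold Zl
    by_cases hl : Even l
    · rw [if_pos hl]
      change (2 / 9 : ℝ) ^ (l / 2) * q 0 (l / 2) * _ = _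
      rw [q_zero_left]
      obtain ⟨k, rfl⟩ := hl
      by_cases hk : k = 1
      · subst hk; norm_num
      · rw [if_neg (by omega), if_neg (by omega)]; simp
    · rw [if_neg hl, if_neg (by rintro rfl; exact hl even_two)]; simp
  rw [zt, zt, e, sum_insert (by simp), e0]
  ring

lemma zt_lim (b : Bool) (l : ℕ) : Tendsto (fun V => zt (lo b) V l) atTop (𝓝 (zlim b l)) := by
  cases b
  · simp only [lo, zlim, Bool.false_eq_true, if_false, zt_one, true_and]
    exact (zt_zero l).sub_const _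
  · simpa [lo, zlim] using zt_zero l

lemma zl_nonneg (l : ℕ) : 0 ≤ zl l := by
  unfold zl; split_ifs
  · exact z_nonneg _
  · exact le_rfl

noncomputable def Dr : ℕ → ℝ
  | 0 => 1 / 3
  | s + 1 => Dr s - zl (s + 2)

noncomputable def Ar : ℕ → ℝ
  | 0 => 5 / 9
  | s + 1 => Ar s - Dr s

lemma hs_zl : HasSum zl (1 / 3) := by
  have h1 : HasSum (fun k => zl (2 * k)) (1 / 3) :=
    hs_congr hasSum_z (fun k => by simp [zl]) rfl
  have h2 : HasSum (fun k => zl (2 * k + 1)) 0 := by simp [zl, hasSum_zero]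
  simpa using h1.even_add_odd h2

lemma hs_mul_zl : HasSum (fun l : ℕ => l * zl l) (8 / 9) := by
  have h1 : HasSum (fun k : ℕ => ((2 * k : ℕ) : ℝ) * zl (2 * k)) (8 / 9) :=
    hs_congr (hasSum_mul_z.mul_left 2) (fun k => by simp [zl, mul_assoc]) (by norm_num)
  have h2 : HasSum (fun k : ℕ => ((2 * k + 1 : ℕ) : ℝ) * zl (2 * k + 1)) 0 := by
    simp [zl, hasSum_zero]
  simpa using HasSum.even_add_odd (f := fun l : ℕ => (l : ℝ) * zl l) h1 h2

lemma hs_D : ∀ s, HasSum (fun m => zl (m + (s + 2))) (Dr s)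
  | 0 => by
    have := (hasSum_nat_add_iff' 2).mpr hs_zl
    simpa [sum_range_succ, zl, z_zero, Dr] using this
  | s + 1 => by
    have := (hasSum_nat_add_iff' 1).mpr (hs_D s)
    simp only [sum_range_one, zero_add] at this
    exact hs_congr this (fun m => by congr 1; ring) rfl

lemma hs_A : ∀ s, HasSum (fun m : ℕ => (m + 1 : ℝ) * zl (m + (s + 2))) (Ar s)
  | 0 => by
    have h1 := (hasSum_nat_add_iff' 2).mpr (hs_mul_zl.sub hs_zl)
    refine hs_congr h1 (fun m => ?_) ?_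
    · push_cast; ring
    · simp [sum_range_succ, zl, z_zero, Ar]; norm_num
  | s + 1 => by
    have := (hasSum_nat_add_iff' 1).mpr ((hs_A s).sub (hs_D s))
    refine hs_congr this (fun m => ?_) ?_
    · rw [show m + 1 + (s + 2) = m + (s + 1 + 2) by ring]; push_cast; ring
    · simp [Ar]

lemma go_sound : ∀ (f p : ℕ) (A D y x1 x2 : ℚ), go f p A D y x1 x2 = true →
    (A : ℝ) = Ar (2 * p) → (D : ℝ) = Dr (2 * p) → (y : ℝ) = z (p + 1) →
    (x1 : ℝ) = 177 / 1000 * (13 / 20) ^ (2 * p) → (x2 : ℝ) = 108 / 1000 * (97 / 100) ^ (2 * p) →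
    ∀ s, 2 * p < s → s ≤ 2 * (p + f) →
      177 / 1000 * (13 / 20 : ℝ) ^ s + 108 / 1000 * (97 / 100) ^ s < Ar s
  | 0, p, _, _, _, _, _, _, _, _, _, _, _, s, h1, h2 => by omega
  | f + 1, p, A, D, y, x1, x2, hg, hA, hD, hy, h1, h2, s, s1, s2 => by
    simp only [go, Bool.and_eq_true, decide_eq_true_eq] at hg
    obtain ⟨⟨g1, g2⟩, g3⟩ := hg
    have z1 : zl (2 * p + 2) = z (p + 1) := by
      rw [zl, if_pos ⟨p + 1, by ring⟩]; congr 1; omega
    have z2 : zl (2 * p + 1 + 2) = 0 := by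
      rw [zl, if_neg (by rw [Nat.even_iff]; omega)]
    have A1 : Ar (2 * p + 1) = A - D := by rw [Ar, hA, hD]
    have D1 : Dr (2 * p + 1) = D - y := by rw [Dr, hD, z1, hy]
    have A2 : Ar (2 * p + 1 + 1) = A - D - (D - y) := by rw [Ar, A1, D1]
    have D2 : Dr (2 * p + 1 + 1) = D - y := by rw [Dr, D1, z2, sub_zero]
    have g1' := (Rat.cast_lt (K := ℝ)).mpr g1
    have g2' := (Rat.cast_lt (K := ℝ)).mpr g2
    push_cast at g1' g2'
    rcases (by omega : s = 2 * p + 1 ∨ s = 2 * p + 1 + 1 ∨ 2 * (p + 1) < s) with rfl | rfl | h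
    · rw [A1, pow_succ, pow_succ]
      rw [h1, h2] at g1'
      linarith
    · rw [A2, pow_succ, pow_succ, pow_succ, pow_succ]
      rw [h1, h2] at g2'
      linarith
    · refine go_sound f (p + 1) _ _ _ _ _ g3 ?_ ?_ ?_ ?_ ?_ s h (by omega)
      · push_cast; exact A2.symm
      · push_cast; exact D2.symm
      · push_cast; rw [hy, z_step]
      · push_cast; rw [h1]; ring
      · push_cast; rw [h2]; ring

lemma E_lt (s : ℕ) (h1 : 1 ≤ s) (h2 : s ≤ 600) :
    177 / 1000 * (13 / 20 : ℝ) ^ s + 108 / 1000 * (97 / 100) ^ s < Ar s :=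
  go_sound 300 0 _ _ _ _ _ go_ok (by simp [Ar]) (by simp [Dr]) (by rw [zero_add, z_one]; norm_num)
    (by norm_num) (by norm_num) s h1 h2

lemma tri (P s : ℕ) : ∑ m ∈ range P, (m + 1 : ℝ) * zl (m + (s + 2)) ≤
    ∑ i ∈ Icc 1 P, ∑ j ∈ Icc 1 P, zl (i + j + s) := by
  have e : ∀ f : ℕ → ℝ, ∑ i ∈ Icc 1 P, f i = ∑ i ∈ range P, f (1 + i) := fun f => by
    rw [← Ico_add_one_right_eq_Icc, sum_Ico_eq_sum_range, Nat.add_sub_cancel]
  simp only [e]
  have h1 : ∑ m ∈ range P, (m + 1 : ℝ) * zl (m + (s + 2))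
      = ∑ m ∈ range P, ∑ k ∈ range (m + 1), zl (1 + k + (1 + (m - k)) + s) := by
    refine sum_congr rfl fun m _ => ?_
    rw [sum_congr rfl (g := fun _ => zl (m + (s + 2))) fun k hk => by
      have := mem_range.mp hk
      congr 1; omega]
    simp
  rw [h1, sum_range_diag_flip P fun i j => zl (1 + i + (1 + j) + s)]
  refine sum_le_sum fun i _ => sum_le_sum_of_subset_of_nonneg ?_ fun j _ _ => zl_nonneg _
  exact range_subset_range.mpr (Nat.sub_le _ _)

lemma ev_P (s : ℕ) {x : ℝ} (hx : x < Ar s) :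
    ∀ᶠ P in atTop, x < ∑ i ∈ Icc 1 P, ∑ j ∈ Icc 1 P, zl (i + j + s) :=
  ((hs_A s).tendsto_sum_nat.eventually (lt_mem_nhds hx)).mono fun P h => h.trans_le (tri P s)

lemma AA_lim (P : ℕ) (σ : Bool) (s : ℕ) : Tendsto (fun V => AA P V σ s) atTop
    (𝓝 (∑ i ∈ Icc 1 P, ∑ j ∈ Icc 1 P, zlim σ (i + j + s))) :=
  tendsto_finsetSum _ fun _ _ => tendsto_finsetSum _ fun _ _ => zt_lim σ _

lemma ev_u {t t' u : ℚ} (h : u < uq t t') : ∀ᶠ V in atTop,
    (u : ℝ) ≤ ∑ c ∈ Bubs 30, wB V c * (t : ℝ) ^ toQ c * (t' : ℝ) ^ toP c := by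
  have h1 : Tendsto (fun V => ∑ c ∈ Bubs 30, wB V c * (t : ℝ) ^ toQ c * (t' : ℝ) ^ toP c) atTop
      (𝓝 (uq t t' : ℝ)) := by
    rw [uq, Rat.cast_sum]
    refine tendsto_finsetSum _ fun c _ => ?_
    push_cast
    rw [zlq_cast]
    exact ((zt_lim c.1 _).mul_const _).mul_const _
  exact (h1.eventually (lt_mem_nhds ((Rat.cast_lt (K := ℝ)).mpr h))).mono fun V h => h.le

end Pool.Agent.Lib.MP_abd955_pr.WN
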