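import Pool.Agent.Lib.MP_abd955_pr.Seg

/-! Comparison of two explorations. -/

namespace Pool.Agent.Lib.MP_abd955_pr.XX

open Equiv Equiv.Perm Finset PowerSeries Step Filter Topology

set_option linter.unusedSectionVars false

lemma Md.comap {ι κ : Type} {𝓕 : Filter ι} {𝓖 : Filter κ} {Sz : κ → ℕ → ℕ → Prop}
    {wt : Step × ℕ → ℝ} (md : Md 𝓖 Sz wt) {π : ι → κ} (h : Tendsto π 𝓕 𝓖) :
    Md 𝓕 (fun i => Sz (π i)) wt :=
  ⟨md.sum, md.nn, fun y ε hε => h.eventually (md.lim y ε hε), fun V => h.eventually (md.big V),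
    fun V => h.eventually (md.rare V)⟩

/-- the two finite sets are matched along the relation -/
def Cpl {α β : Type} (A : Finset α) (A' : Finset β) (Rel : α → β → Prop) : Prop :=
  ∀ (Ψ : α → ℝ) (Ψ' : β → ℝ), (∀ c ∈ A, ∀ c' ∈ A', Rel c c' → Ψ c ≤ Ψ' c') →
    ∑ c ∈ A, Ψ c ≤ ∑ c' ∈ A', Ψ' c'

lemma Cpl.card {α β : Type} {A : Finset α} {A' : Finset β} {Rel} (h : Cpl A A' Rel) :
    (A.card : ℝ) = A'.card := by
  have h1 := h (fun _ => 1) (fun _ => 1) fun _ _ _ _ _ => le_rfl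
  have h2 := h (fun _ => -1) (fun _ => -1) fun _ _ _ _ _ => le_rfl
  simp only [sum_const, nsmul_eq_mul] at h1 h2
  linarith

section
variable {D D' : Type} [DecidableEq D] [Fintype D] [DecidableEq D'] [Fintype D']

lemma cpl_base {S : St D} {S' : St D'} {Rel} (h : Cpl S.A S'.A Rel) {E : Perm D → Prop}
    {E' : Perm D' → Prop} (e : ∀ c ∈ S.A, ∀ c' ∈ S'.A, Rel c c' → ∀ a ∈ VS (S.K true),
      ∀ b ∈ VS (S.K false), ∀ a' ∈ VS (S'.K true), ∀ b' ∈ VS (S'.K false),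
        E (c * (a * b)) → E' (c' * (a' * b'))) : S.cnt E * S'.tot ≤ S'.cnt E' * S.tot := by
  classical
  have h1 := h (fun c => (∑ a ∈ VS (S.K true), ∑ b ∈ VS (S.K false),
      if E (c * (a * b)) then (1 : ℝ) else 0) * ((VS (S'.K true)).card * (VS (S'.K false)).card))
    (fun c => (∑ a ∈ VS (S'.K true), ∑ b ∈ VS (S'.K false),
      if E' (c * (a * b)) then (1 : ℝ) else 0) * ((VS (S.K true)).card * (VS (S.K false)).card))
    fun c hc c' hc' r => by
      by_cases x : ∃ a ∈ VS (S.K true), ∃ b ∈ VS (S.K false), E (c * (a * b))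
      · obtain ⟨a, ha, b, hb, x⟩ := x
        rw [sum_congr rfl fun a' ha' => sum_congr rfl fun b' hb' =>
          if_pos (e c hc c' hc' r a ha b hb a' ha' b' hb' x), mul_comm]
        simp only [sum_const, nsmul_eq_mul, mul_one]
        refine mul_le_mul_of_nonneg_left ?_ (by positivity)
        refine (sum_le_sum fun a _ => sum_le_sum (g := fun _ => (1 : ℝ)) fun b _ => ?_).trans
          (by simp)
        split_ifs <;> norm_num
      · push Not at x
        rw [sum_eq_zero fun a ha => sum_eq_zero fun b hb => if_neg (x a ha b hb), zero_mul]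
        positivity
  rw [← sum_mul, ← sum_mul] at h1
  rw [St.tot_eq, St.tot_eq, h.card, mul_left_comm, mul_left_comm (S'.cnt E')]
  refine mul_le_mul_of_nonneg_left ?_ (by positivity)
  exact h1

lemma chs_pair {S : St D} {S' : St D'} (h : S.WF) (h' : S'.WF) {x rest x' rest'}
    (hl : Holes (S.K true) [x :: rest]) (hr : rest ≠ []) (hl' : Holes (S'.K true) [x' :: rest'])
    (hr' : rest' ≠ []) {y : Step × ℕ} {E : Perm D → Prop} {E' : Perm D' → Prop} {c : ℝ}
    (e : ∀ s W s' W', Kid S true x rest y.1 y.2 s W → Kid S' true x' rest' y.1 y.2 s' W' →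
      (S.ch true x s rest y.1 W).cnt E * (S'.ch true x' s' rest' y.1 W').tot ≤
        (S'.ch true x' s' rest' y.1 W').cnt E' * (S.ch true x s rest y.1 W).tot +
          c * ((S.ch true x s rest y.1 W).tot * (S'.ch true x' s' rest' y.1 W').tot)) :
    S.chs true x rest y (·.cnt E) * S'.chs true x' rest' y St.tot ≤
      S'.chs true x' rest' y (·.cnt E') * S.chs true x rest y St.tot +
        c * (S.chs true x rest y St.tot * S'.chs true x' rest' y St.tot) := by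
  simp only [St.chs]
  split_ifs with a b
  · rw [mul_comm (∑ s ∈ (S'.K true).U \ (S'.K true).X, _)]
    simp only [sum_mul, mul_sum, ← sum_add_distrib]
    refine sum_le_sum fun s' hs' => sum_le_sum fun W' hW' => sum_le_sum fun s hs =>
      sum_le_sum fun W hW => ?_
    have := e s W s' W' ⟨h, hl, hr, a, hs, hW⟩ ⟨h', hl', hr', b, hs', hW'⟩
    linarith
  all_goals simp

lemma chs_nn {S : St D} {b x rest y} {Φ : St D → ℝ} (h : ∀ S, 0 ≤ Φ S) :
    0 ≤ S.chs b x rest y Φ := by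
  unfold St.chs
  split_ifs
  exacts [sum_nonneg fun _ _ => sum_nonneg fun _ _ => h _, le_rfl]

end

lemma pair_num {w c η : ℝ} (hw : 0 ≤ w) (w1 : w ≤ 1) (c0 : 0 ≤ c) (c1 : c ≤ 1) (hη : 0 < η) :
    ∃ δ : ℝ, 0 < δ ∧ δ ≤ η ∧ ∀ T T' u u' t t' : ℝ, 0 ≤ T → 0 ≤ T' → 0 ≤ u → u ≤ t → 0 ≤ u' →
      u' ≤ t' → |t - w * T| ≤ δ * T → |t' - w * T'| ≤ δ * T' →
      u * t' ≤ u' * t + (c + δ) * (t * t') → u * T' ≤ u' * T + (w * c + η) * (T * T') := by
  rcases hw.eq_or_lt with rfl | hw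
  · refine ⟨η, hη, le_rfl, fun T T' u u' t t' a1 a2 a3 a4 a5 a6 a7 a8 _ => ?_⟩
    have := mul_le_mul_of_nonneg_right (a4.trans (by simpa using (abs_le.1 a7).2 : t ≤ η * T)) a2
    nlinarith [mul_nonneg a5 a1]
  obtain ⟨δ, d0, d1, d2, d3⟩ : ∃ δ : ℝ, 0 < δ ∧ δ ≤ 1 ∧ δ ≤ η ∧ 11 * δ ≤ w * η :=
    ⟨min 1 (min η (w * η / 11)), by positivity, min_le_left _ _,
      (min_le_right _ _).trans (min_le_left _ _),
      by linarith [(min_le_right 1 _).trans (min_le_right η (w * η / 11))]⟩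
  refine ⟨δ, d0, d2, fun T T' u u' t t' a1 a2 a3 a4 a5 a6 a7 a8 a9 => ?_⟩
  obtain ⟨b1, b2⟩ := abs_le.1 a7
  obtain ⟨b3, b4⟩ := abs_le.1 a8
  have p := mul_nonneg a1 a2
  have t1 : t ≤ (w + δ) * T := by linarith
  have t2 : t' ≤ (w + δ) * T' := by linarith
  have t3 : t ≤ 2 * T := t1.trans (mul_le_mul_of_nonneg_right (by linarith) a1)
  have t4 : t' ≤ 2 * T' := t2.trans (mul_le_mul_of_nonneg_right (by linarith) a2)
  have e1 : u * (w * T') ≤ u * t' + δ * (2 * T * T') := by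
    have := mul_le_mul_of_nonneg_left (show w * T' ≤ t' + δ * T' by linarith) a3
    have := mul_le_mul_of_nonneg_right (a4.trans t3) (mul_nonneg d0.le a2)
    nlinarith
  have e2 : u' * t ≤ u' * (w * T) + δ * (2 * T * T') := by
    have := mul_le_mul_of_nonneg_left t1 a5
    have := mul_le_mul_of_nonneg_right (a6.trans t4) (mul_nonneg d0.le a1)
    nlinarith
  have e3 : t * t' ≤ (w + δ) * T * ((w + δ) * T') :=
    mul_le_mul t1 t2 (a5.trans a6) (by positivity)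
  have e4 : (c + δ) * ((w + δ) * (w + δ)) ≤ w * (w * c) + 7 * δ := by
    have := mul_le_mul c1 w1 hw.le zero_le_one
    have := mul_le_mul w1 w1 hw.le zero_le_one
    have := mul_le_mul c1 d1 d0.le zero_le_one
    have := mul_le_mul w1 d1 d0.le zero_le_one
    have := mul_le_mul d1 d1 d0.le zero_le_one
    nlinarith
  have e5 := mul_le_mul_of_nonneg_left e3 (show 0 ≤ c + δ by linarith)
  have e6 := mul_le_mul_of_nonneg_right e4 p
  have e7 := mul_le_mul_of_nonneg_right d3 p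
  refine le_of_mul_le_mul_left ?_ hw
  nlinarith

variable {ι : Type} {𝓕 : Filter ι} {D D' : ι → Type} [∀ i, DecidableEq (D i)]
  [∀ i, Fintype (D i)] [∀ i, DecidableEq (D' i)] [∀ i, Fintype (D' i)]

abbrev Iv2 (D D' : ι → Type) :=
  ∀ i, St (D i) → (Perm (D i) → Prop) → St (D' i) → (Perm (D' i) → Prop) → Prop

/-- asymptotically the first event is at most c more likely than the second -/
def Bd2 (𝓕 : Filter ι) (I : Iv2 D D') (c : ℝ) : Prop :=
  ∀ ε : ℝ, 0 < ε → ∀ᶠ i in 𝓕, ∀ S E S' E', I i S E S' E' →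
    S.cnt E * S'.tot ≤ S'.cnt E' * S.tot + (c + ε) * (S.tot * S'.tot)

namespace Bd2
variable {I I' : Iv2 D D'} {c c' c1 c2 : ℝ}

lemma mono (h : Bd2 𝓕 I' c') (hc : c' ≤ c)
    (e : ∀ᶠ i in 𝓕, ∀ S E S' E', I i S E S' E' → I' i S E S' E') : Bd2 𝓕 I c := fun ε hε => by
  filter_upwards [h ε hε, e] with i h1 h2 S E S' E' hI
  refine (h1 S E S' E' (h2 _ _ _ _ hI)).trans (add_le_add_right ?_ _)
  exact mul_le_mul_of_nonneg_right (by linarith) (mul_nonneg S.tot_nonneg S'.tot_nonneg)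

lemma le (h : Bd2 𝓕 I c') (hc : c' ≤ c) : Bd2 𝓕 I c :=
  h.mono hc (Eventually.of_forall fun _ _ _ _ _ => id)

lemma one : Bd2 𝓕 I 1 := fun ε hε => Eventually.of_forall fun _ S E S' E' _ => by
  have := mul_le_mul_of_nonneg_right (S.cnt_le_tot E) S'.tot_nonneg
  have := mul_nonneg (S'.cnt_nonneg E') S.tot_nonneg
  have := mul_nonneg S.tot_nonneg S'.tot_nonneg
  nlinarith

lemma zero (e : ∀ᶠ i in 𝓕, ∀ S E S' E', I i S E S' E' → S.cnt E * S'.tot ≤ S'.cnt E' * S.tot) :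
    Bd2 𝓕 I 0 := fun ε hε => e.mono fun _ h S E S' E' hI => by
  have := h _ _ _ _ hI
  have := mul_nonneg S.tot_nonneg S'.tot_nonneg
  nlinarith

lemma small (h : ∀ ε : ℝ, 0 < ε → Bd2 𝓕 I ε) : Bd2 𝓕 I 0 := fun ε hε => by
  simpa using h _ (half_pos hε) _ (half_pos hε)

lemma or (h1 : Bd2 𝓕 I c) (h2 : Bd2 𝓕 I' c) :
    Bd2 𝓕 (fun i S E S' E' => I i S E S' E' ∨ I' i S E S' E') c := fun ε hε => by
  filter_upwards [h1 ε hε, h2 ε hε] with i a1 a2 S E S' E' hI
  exact hI.elim (a1 _ _ _ _) (a2 _ _ _ _)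

lemma min (h1 : Bd2 𝓕 I c1) (h2 : Bd2 𝓕 I c2) : Bd2 𝓕 I (min c1 c2) := by
  rcases le_total c1 c2 with e | e
  · rwa [min_eq_left e]
  · rwa [min_eq_right e]

/-- the peeling rule for two explorations -/
theorem step {Sz Sz' wt} (md : Md 𝓕 Sz wt) (md' : Md 𝓕 Sz' wt) {J : Step × ℕ → Iv2 D D'}
    {c : Step × ℕ → ℝ} (c0 : ∀ y, 0 ≤ c y) (c1 : ∀ y, c y ≤ 1) (hJ : ∀ y, Bd2 𝓕 (J y) (c y))
    {G : Step × ℕ → ι → Prop} (hG : ∀ y, ∀ᶠ i in 𝓕, G y i)
    (e : ∀ᶠ i in 𝓕, ∀ S E S' E', I i S E S' E' → S.WF ∧ S'.WF ∧ ∃ x rest x' rest',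
      Holes (S.K true) [x :: rest] ∧ Holes (S'.K true) [x' :: rest'] ∧
      Sz i (S.K true).m (rest.length + 1) ∧ Sz' i (S'.K true).m (rest'.length + 1) ∧
      ∀ y : Step × ℕ, G y i → ∀ s W s' W', Kid S true x rest y.1 y.2 s W →
        Kid S' true x' rest' y.1 y.2 s' W' →
        J y i (S.ch true x s rest y.1 W) E (S'.ch true x' s' rest' y.1 W') E') :
    Bd2 𝓕 I (∑' y, wt y * c y) := fun ε hε => by
  obtain ⟨A, hA⟩ := exists_mass md.sum (half_pos hε)
  have w1 : ∀ y, wt y ≤ 1 := fun y => le_hasSum md.sum y fun z _ => md.nn z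
  have hA2 : ∑ y ∈ A, wt y * c y ≤ ∑' y, wt y * c y :=
    (Summable.of_nonneg_of_le (fun y => mul_nonneg (md.nn y) (c0 y))
      (fun y => mul_le_of_le_one_right (md.nn y) (c1 y)) md.sum.summable).sum_le_tsum A
      fun y _ => mul_nonneg (md.nn y) (c0 y)
  obtain ⟨η, d0, d2⟩ : ∃ η : ℝ, 0 < η ∧ η * (2 * A.card + 1) ≤ ε / 2 :=
    ⟨ε / 2 / (2 * A.card + 1), by positivity, (div_mul_cancel₀ _ (by positivity)).le⟩
  choose δ δ0 δ1 δ2 using fun y => pair_num (md.nn y) (w1 y) (c0 y) (c1 y) d0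
  filter_upwards [md.split (D := D) A d0, md'.split (D := D') A d0,
    (eventually_all_finset A).2 fun y _ => md.split (D := D) {y} (δ0 y),
    (eventually_all_finset A).2 fun y _ => md'.split (D := D') {y} (δ0 y),
    (eventually_all_finset A).2 fun y _ => hJ y _ (δ0 y),
    (eventually_all_finset A).2 fun y _ => hG y, e] with i h1 h1' g1 g1' h2 h3 h4 S E S' E' hI
  obtain ⟨w, w', x, rest, x', rest', hl, hl', sz, sz', k⟩ := h4 S E S' E' hI
  obtain ⟨hr, a1, -, a2⟩ := h1 S true x rest w hl sz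
  obtain ⟨hr', -, a3, -⟩ := h1' S' true x' rest' w' hl' sz'
  have T := S.tot_nonneg
  have T' := S'.tot_nonneg
  have b1 : ∑ y ∈ A, S.chs true x rest y (·.cnt E) * S'.tot ≤ ∑ y ∈ A,
      (S'.chs true x' rest' y (·.cnt E') * S.tot + (wt y * c y + η) * (S.tot * S'.tot)) :=
    sum_le_sum fun y hy => δ2 y _ _ _ _ _ _ T T' (chs_nn fun S => S.cnt_nonneg E)
      (by simpa using chs_mono (c := 1) w hl hr fun s W _ => by simpa using St.cnt_le_tot E)
      (chs_nn fun S => S.cnt_nonneg E')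
      (by simpa using chs_mono (c := 1) w' hl' hr' fun s W _ => by simpa using St.cnt_le_tot E')
      ((g1 y hy S true x rest w hl sz).2.1 y (mem_singleton_self _))
      ((g1' y hy S' true x' rest' w' hl' sz').2.1 y (mem_singleton_self _))
      (chs_pair w w' hl hr hl' hr' fun s W s' W' kd kd' =>
        h2 y hy _ _ _ _ (k y (h3 y hy) s W s' W' kd kd'))
  have b2 : ∑ y ∈ A, (wt y - η) * S.tot ≤ ∑ y ∈ A, S.chs true x rest y St.tot :=
    sum_le_sum fun y hy => by linarith [(abs_le.1 (a1 y hy)).1]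
  simp only [sum_add_distrib, sum_sub_distrib, ← sum_mul, sum_const, nsmul_eq_mul] at b1 b2
  have b3 := mul_le_mul_of_nonneg_right (a2 E) T'
  have b4 := mul_le_mul_of_nonneg_right (a3 E') T
  have b5 := mul_le_mul_of_nonneg_right b2 T'
  have b6 : (∑ y ∈ A, wt y * c y + A.card * η + (1 - (∑ y ∈ A, wt y - A.card * η))) *
      (S.tot * S'.tot) ≤ (∑' y, wt y * c y + ε) * (S.tot * S'.tot) :=
    mul_le_mul_of_nonneg_right (by nlinarith) (mul_nonneg T T')
  nlinarith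

end Bd2

end Pool.Agent.Lib.MP_abd955_pr.XX
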