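import Pool.Agent.Lib.MP_abd955_pr.XA
import Pool.Agent.Lib.MP_abd955_pr.TransA

/-! Partial isomorphisms between two explorations. -/

namespace Pool.Agent.Lib.MP_abd955_pr.XX

open Equiv Equiv.Perm Finset Step

set_option linter.unusedSectionVars false

variable {D D' : Type} [DecidableEq D] [Fintype D] [DecidableEq D'] [Fintype D']

/-- the finite holes in terms of the swallowed darts -/
def finE {α : Type} (a b c : α) (P Q : List α) : Step → List (List α)
  | .N => []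
  | .R1 _ => [c :: (P ++ [b])]
  | .L2 _ => [Q ++ [a]]
  | .R2 _ => [c :: P]
  | .L1 _ => [Q ++ [a, b]]
  | .RR i _ => [c :: P.take i, P.drop i ++ [b]]
  | .LR _ _ => [c :: P, Q ++ [a]]
  | .LL i _ => [Q.take i ++ [b], Q.drop i ++ [a]]

lemma finE_map {α β : Type} (φ : α → β) (a b c : α) (P Q : List α) (t : Step) :
    (finE a b c P Q t).map (List.map φ) = finE (φ a) (φ b) (φ c) (P.map φ) (Q.map φ) t := by
  cases t <;> simp [finE]

lemma finL_eq (K : Cfg D) (s : D) {P Q : List D} (M : List D) {t : Step} (hP : P.length = t.sR)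
    (hQ : Q.length = t.sL) : finL K s (P ++ M ++ Q) t =
      finE (K.f s) (K.f (K.f s)) (K.f (K.f (K.f s))) P Q t := by
  have e1 : ∀ X : List D, (P ++ (M ++ X)).take P.length = P := fun X => List.take_left
  have e2 : ∀ X : List D, (P ++ (M ++ X)).take (P.length + M.length) = P ++ M := fun X => by
    rw [← List.append_assoc, ← List.length_append]; exact List.take_left
  have e3 : ∀ X : List D, (P ++ (M ++ X)).drop (P.length + M.length) = X := fun X => by
    rw [← List.append_assoc, ← List.length_append]; exact List.drop_left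
  cases t with
  | N => simp [finL, rawH, Step.raw, Step.mi, finE, extra]
  | R1 a =>
    simp only [sR, sL] at hP hQ
    subst hP
    simp [finL, rawH, Step.raw, Step.mi, finE, extra, c2, c3, keep]
  | L2 a =>
    simp only [sR, sL] at hP hQ
    subst hQ
    simp [finL, rawH, Step.raw, Step.mi, finE, extra, c2, c3, keep, ← add_assoc, e3]
  | R2 a =>
    simp only [sR, sL] at hP hQ
    subst hP
    simp [finL, rawH, Step.raw, Step.mi, finE, extra, c2, c3, keep]
  | L1 a =>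
    simp only [sR, sL] at hP hQ
    subst hQ
    simp [finL, rawH, Step.raw, Step.mi, finE, extra, c2, c3, keep, ← add_assoc, e3]
  | RR a b =>
    simp only [sR, sL] at hP hQ
    have : a ≤ P.length := by omega
    simp [finL, rawH, Step.raw, Step.mi, finE, extra, c2, c3, keep, ← hP,
      List.take_append_of_le_length this, List.drop_append_of_le_length this]
  | LR a b =>
    simp only [sR, sL] at hP hQ
    subst hP hQ
    simp [finL, rawH, Step.raw, Step.mi, finE, extra, c2, c3, keep, ← add_assoc, e3, e2]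
  | LL a b =>
    simp only [sR, sL] at hP hQ
    obtain rfl := List.eq_nil_of_length_eq_zero hP
    have h1 : M.length + Q.length - b = M.length + a := by omega
    have h2 : a ≤ Q.length := by omega
    simp [finL, rawH, Step.raw, Step.mi, finE, extra, c2, c3, keep, h1, List.take_append,
      List.drop_append, h2]

/-- unexplored darts -/
abbrev Un (S : St D) : Finset D := (S.K true).U \ (S.K true).X

/-- a state with one hole family whose unexplored faces are those of f -/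
structure Sd (f : Perm D) (S : St D) : Prop where
  wf : S.WF
  off : (S.K false).U = ∅
  fe : ∀ u ∈ Un S, (S.K true).f u = f u

lemma Sd.step {f : Perm D} {S : St D} (h : Sd f S) {x rest t v s W}
    (k : Kid S true x rest t v s W) : Sd f (S.ch true x s rest t W) :=
  ⟨k.wf', by rw [St.ch_ne (by simp)]; exact h.off,
    fun u hu => by rw [(k.inner hu).2]; exact h.fe u (k.inner hu).1⟩

lemma Sd.un_f {f : Perm D} {S : St D} (h : Sd f S) {u : D} : f u ∈ Un S ↔ u ∈ Un S :=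
  (mem_iff_of_maps (fun z hz => h.fe z hz ▸ (h.wf.wf true).fI hz) u).symm

/-- the darts of a square -/
def fl (K : Cfg D) (s : D) : List D := [s, K.f s, K.f (K.f s), K.f (K.f (K.f s))]

section
variable {S : St D} {x s : D} {rest : List D} {t : Step} {v : ℕ} {W : Finset D}
  (k : Kid S true x rest t v s W)
include k

lemma fl_nd : (fl (S.K true) s).Nodup := by
  have o := k.ok
  simp [fl, o.d1.symm, o.d2.symm, o.d3.symm]

lemma fl_un {u : D} (h : u ∈ fl (S.K true) s) : u ∈ Un S := by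
  have w := k.wf.wf true
  simp only [fl, List.mem_cons, List.not_mem_nil, or_false] at h
  rcases h with rfl | rfl | rfl | rfl
  exacts [k.hs, w.fI k.hs, w.fI (w.fI k.hs), w.fI (w.fI (w.fI k.hs))]

lemma fl_aft {u : D} (h : u ∈ fl (S.K true) s) (hu : u ∈ W) :
    u ∈ ((S.K true).aft x s rest t).X := by
  have := (k.aftU.1 (k.subW hu)).1
  rw [k.aftX]
  simp only [fl, List.mem_cons, List.not_mem_nil, or_false] at h
  tauto

lemma in_un {u : D} (hu : u ∈ W) (h : u ∉ ((S.K true).aft x s rest t).X) :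
    u ∈ Un S ∧ u ∉ fl (S.K true) s :=
  ⟨(k.aft_inner (k.subW hu) h).1, fun e => h (fl_aft k e hu)⟩

lemma un_ch {u : D} : u ∉ Un (S.ch true x s rest t W) ↔
    u ∉ Un S ∨ u ∈ fl (S.K true) s ∨ u ∈ W ∧ u ∉ ((S.K true).aft x s rest t).X := by
  have hx := k.ok.hx
  have e : u ∈ Un (S.ch true x s rest t W) ↔ u ∈ ((S.K true).main x s rest t W).U ∧
      u ∉ ((S.K true).aft x s rest t).X := by
    rw [mem_sdiff, St.ch_same]
    exact and_congr_right fun h => not_congr ⟨fun e => (mem_inter.1 e).1, fun e => mem_inter.2 ⟨e, h⟩⟩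
  rw [e, k.mainU, k.aftX, mem_sdiff]
  simp only [fl, List.mem_cons, List.not_mem_nil, or_false]
  by_cases c : u = x
  · subst c; tauto
  · tauto

end

/-- a partial isomorphism between the explored parts -/
structure PI (f : Perm D) (f' : Perm D') (r : D) (r' : D') (S : St D) (S' : St D') (φ : D → D')
    (Fa : Set D) : Prop where
  sd : Sd f S
  sd' : Sd f' S'
  rt : r ∉ Un S ∧ φ r = r'
  inj : ∀ u, u ∉ Un S → u ∉ Fa → ∀ v, v ∉ Un S → v ∉ Fa → φ u = φ v → u = v
  fc : ∀ u, u ∉ Un S → u ∉ Fa → f u ∉ Fa → f' (φ u) = φ (f u)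
  out : ∀ u, u ∉ (S.K true).U → φ u ∉ (S'.K true).U
  dm : ∀ u, u ∉ Un S → u ∉ Fa → φ u ∉ Un S'
  cpl : Cpl S.A S'.A fun c c' => ∀ u, u ∉ (S.K true).U → c' (φ u) = φ (c u)

theorem PI.step {f : Perm D} {f' : Perm D'} {r r' S S' φ Fa} (h : PI f f' r r' S S' φ Fa)
    {x s : D} {P M Q : List D} {t v W s' M' W'} (k : Kid S true x (P ++ M ++ Q) t v s W)
    (k' : Kid S' true (φ x) (P.map φ ++ M' ++ Q.map φ) t v s' W')
    (hP : P.length = t.sR) (hQ : Q.length = t.sL) :
    ∃ ψ, PI f f' r r' (S.ch true x s (P ++ M ++ Q) t W)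
        (S'.ch true (φ x) s' (P.map φ ++ M' ++ Q.map φ) t W') ψ Fa ∧
      (∀ u, u ∉ Un S → ψ u = φ u) ∧ (newL (S.K true) s t).map ψ = newL (S'.K true) s' t := by
  have : Nonempty D' := ⟨s'⟩
  obtain ⟨χ, hχ⟩ := exists_map_eq _ (fl (S'.K true) s') (fl_nd k) rfl
  obtain ⟨φ1, p1, p2⟩ : ∃ φ1 : D → D', (fl (S.K true) s).map φ1 = fl (S'.K true) s' ∧
      ∀ u, u ∉ fl (S.K true) s → φ1 u = φ u :=
    ⟨fun u => if u ∈ fl (S.K true) s then χ u else φ u,
      hχ ▸ List.map_congr_left fun u hu => if_pos hu, fun u hu => if_neg hu⟩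
  obtain ⟨w1, -, l1, -, m1, -⟩ := k.spec
  obtain ⟨w2, -, l2, -, m2, -⟩ := k'.spec
  obtain ⟨ψ0, i1, i2, i3, i4, i5⟩ := exists_shape_iso w1 w2 l1 l2
    ((finL_length _ _ k.fit).trans (finL_length _ _ k'.fit).symm) (m1.trans m2.symm)
  obtain ⟨T, hT, hT'⟩ := transfer w1 ψ0 i1 i2 i3 i4
  have p3 : ∀ u ∈ (S.K true).X, φ1 u = φ u := fun u hu =>
    p2 u fun e => (mem_sdiff.1 (fl_un k e)).2 hu
  have hX : ∀ u ∈ P ++ M ++ Q, u ∈ (S.K true).X := fun u hu =>
    k.hl.mem1.2 (List.mem_cons_of_mem _ hu)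
  have ag : ∀ u ∈ W, u ∈ ((S.K true).aft x s (P ++ M ++ Q) t).X → ψ0 u = φ1 u := fun u hu e => by
    have e1 : (finL (S.K true) s (P ++ M ++ Q) t).map (List.map φ1) =
        finL (S'.K true) s' (P.map φ ++ M' ++ Q.map φ) t := by
      have p := p1
      simp only [fl, List.map_cons, List.cons.injEq] at p
      rw [finL_eq _ _ _ hP hQ, finL_eq _ _ _ (by simpa using hP) (by simpa using hQ), finE_map,
        p.2.1, p.2.2.1, p.2.2.2.1, List.map_congr_left fun u hu => p3 u (hX u (by simp [hu])),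
        List.map_congr_left fun u hu => p3 u (hX u (by simp [hu]))]
    have e2 := congrArg List.flatten (i5.trans e1.symm)
    rw [← List.map_flatten, ← List.map_flatten] at e2
    exact List.map_inj_left.1 e2 u ((l1.mem u).1 (mem_inter.2 ⟨e, hu⟩))
  obtain ⟨ψ, q1, q2⟩ : ∃ ψ : D → D', (∀ u ∈ W, ψ u = ψ0 u) ∧
      ∀ u, ¬(u ∈ W ∧ u ∉ ((S.K true).aft x s (P ++ M ++ Q) t).X) → ψ u = φ1 u :=
    ⟨fun u => if u ∈ W then ψ0 u else φ1 u, fun u hu => if_pos hu, fun u hu => by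
      dsimp only
      split_ifs with c
      exacts [ag u c (by tauto), rfl]⟩
  have a2 : ∀ u, u ∉ Un S → ψ u = φ u := fun u hu => by
    rw [q2 u fun e => hu (in_un k e.1 e.2).1, p2 u fun e => hu (fl_un k e)]
  have a3 : (fl (S.K true) s).map ψ = fl (S'.K true) s' :=
    p1 ▸ List.map_congr_left fun u hu => q2 u fun e => (in_un k e.1 e.2).2 hu
  have a3' : ∀ u ∈ fl (S.K true) s, ψ u ∈ fl (S'.K true) s' := fun u hu =>
    a3 ▸ List.mem_map_of_mem hu
  have a5 : ∀ u ∈ W, ψ u ∈ W' := fun u hu => by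
    rw [q1 u hu, show W' = _ from i2]; exact mem_image_of_mem _ hu
  have a4 : ∀ u ∈ W, u ∉ ((S.K true).aft x s (P ++ M ++ Q) t).X →
      ψ u ∉ ((S'.K true).aft (φ x) s' (P.map φ ++ M' ++ Q.map φ) t).X := fun u hu e c => by
    have := mem_inter.2 ⟨c, a5 u hu⟩
    rw [show _ ∩ W' = _ from i3, q1 u hu] at this
    obtain ⟨z, hz, e'⟩ := mem_image.1 this
    exact e (i1 (mem_inter.1 hz).2 hu e' ▸ (mem_inter.1 hz).1)
  have p := a3
  simp only [fl, List.map_cons, List.cons.injEq] at p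
  obtain ⟨s0, s1, s2, s3, -⟩ := p
  have ax : ψ x = φ x := a2 x fun e => (mem_sdiff.1 e).2 k.ok.hx
  refine ⟨ψ, ⟨h.sd.step k, h.sd'.step k', ⟨(un_ch k).2 (Or.inl h.rt.1), (a2 r h.rt.1).trans h.rt.2⟩,
    fun u hu nu z hz nz e => ?_, fun u hu nu nf => ?_, fun u hu => ?_, fun u hu nu => ?_,
    fun Ψ Ψ' H => ?_⟩, a2, by cases t <;> simp [newL, s1, s2, s3]⟩
  · rcases (un_ch k).1 hu with c | c | c <;> rcases (un_ch k).1 hz with d | d | d
    · exact h.inj u c nu z d nz (by rwa [a2 u c, a2 z d] at e)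
    · exact absurd (fl_un k' (a3' z d)) (e ▸ a2 u c ▸ h.dm u c nu)
    · exact absurd (in_un k' (a5 z d.1) (a4 z d.1 d.2)).1 (e ▸ a2 u c ▸ h.dm u c nu)
    · exact absurd (fl_un k' (a3' u c)) (e ▸ a2 z d ▸ h.dm z d nz)
    · exact List.inj_on_of_nodup_map (a3 ▸ fl_nd k') c d e
    · exact absurd (a3' u c) (e ▸ (in_un k' (a5 z d.1) (a4 z d.1 d.2)).2)
    · exact absurd (in_un k' (a5 u c.1) (a4 u c.1 c.2)).1 (e ▸ a2 z d ▸ h.dm z d nz)
    · exact absurd (a3' z d) (e ▸ (in_un k' (a5 u c.1) (a4 u c.1 c.2)).2)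
    · exact i1 c.1 d.1 (by rwa [q1 u c.1, q1 z d.1] at e)
  · rcases (un_ch k).1 hu with c | c | c
    · rw [a2 u c, a2 _ (mt h.sd.un_f.1 c), h.fc u c nu nf]
    · rw [← h.sd.fe u (fl_un k c), ← h.sd'.fe _ (fl_un k' (a3' u c))]
      simp only [fl, List.mem_cons, List.not_mem_nil, or_false] at c
      rcases c with rfl | rfl | rfl | rfl
      · rw [s0, s1]
      · rw [s1, s2]
      · rw [s2, s3]
      · rw [s3, k.ok.e4, k'.ok.e4, s0]
    · obtain ⟨b1, b2⟩ := k.aft_inner (k.subW c.1) c.2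
      obtain ⟨b3, b4⟩ := k'.aft_inner (k'.subW (a5 u c.1)) (a4 u c.1 c.2)
      rw [← h.sd.fe u b1, ← h.sd'.fe _ b3, ← b2, ← b4, q1 u c.1]
      exact (i4 u c.1).trans (q1 _ (w1.fU u c.1)).symm
  · rw [St.ch_same, Kid.mainU (k := k)] at hu
    rw [St.ch_same, k'.mainU]
    by_cases c : u ∈ W
    · exact fun e => e.2 (a5 u c)
    by_cases c1 : u = s
    · exact fun e => e.1.1 (c1 ▸ s0)
    by_cases c2 : u = x
    · exact fun e => e.1.2.1 (c2 ▸ ax)
    have c3 : u ∉ (S.K true).U := by tauto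
    exact fun e => h.out u c3 (a2 u (fun e => c3 (mem_sdiff.1 e).1) ▸ e.1.2.2)
  · rw [un_ch k']
    rcases (un_ch k).1 hu with c | c | c
    exacts [Or.inl (a2 u c ▸ h.dm u c nu), Or.inr (Or.inl (a3' u c)),
      Or.inr (Or.inr ⟨a5 u c.1, a4 u c.1 c.2⟩)]
  · rw [k.sumA, k'.sumA]
    refine h.cpl _ _ fun c hc c' hc' e => ?_
    rw [← sum_nbij T (fun a ha => hT.mapsTo ha) hT.injOn hT.surjOn fun _ _ => rfl]
    refine sum_le_sum fun a ha => H _ (k.memA.2 ⟨c, hc, a, ha, rfl⟩) _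
      (k'.memA.2 ⟨c', hc', _, hT.mapsTo ha, rfl⟩) fun u hu => ?_
    obtain ⟨n1, n2, n3, -, -⟩ := k.new ha
    obtain ⟨n1', n2', n3', -, -⟩ := k'.new (hT.mapsTo ha)
    have fx := k.wf.fix c hc true
    have fx' := k'.wf.fix c' hc' true
    rw [St.ch_same, Kid.mainU (k := k)] at hu
    rw [mul_apply c, mul_apply c']
    by_cases c0 : u ∈ W
    · rw [(n3 u c0).1, (n3' _ (a5 u c0)).1, fx _ (k.aftU.1 (k.subW (n3 u c0).2)).2.2,
        fx' _ (k'.aftU.1 (k'.subW (n3' _ (a5 u c0)).2)).2.2, q1 u c0, q1 _ (n3 u c0).2]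
      exact hT' a ha u c0
    by_cases c1 : u = s
    · rw [c1, s0, n2, n2', fx _ k.xU, fx' _ k'.xU, ax]
    by_cases c2 : u = x
    · rw [c2, ax, n1, n1', fx _ k.ok.hs, fx' _ k'.ok.hs, s0]
    have c3 : u ∉ (S.K true).U := by tauto
    have c4 : c u ∉ (S.K true).U := fun d => c3 (c.injective (fx _ d) ▸ d)
    rw [a2 u fun e => c3 (mem_sdiff.1 e).1, k.new_off ha c3, k'.new_off (hT.mapsTo ha) (h.out u c3),
      a2 _ fun e => c4 (mem_sdiff.1 e).1, e u c3]

end Pool.Agent.Lib.MP_abd955_pr.XX
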