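import Pool.Agent.Lib.MP_abd955_pr.XB
import Pool.Agent.Lib.MP_abd955_pr.Loc

/-! Distances to the root along an exploration by layers; the end of the comparison. -/

namespace Pool.Agent.Lib.MP_abd955_pr.XX

open Equiv Equiv.Perm Finset Step

set_option linter.unusedSectionVars false

lemma act_ind {D D' : Type} {b f : Perm D} {b' f' : Perm D'} {Q : ℕ → D → D' → Prop} {x : D}
    {x' : D'} (h0 : Q 0 x x') (h : ∀ n y y', Q n y y' → Q (n + 1) (b y) (b' y') ∧
      Q (n + 1) (b⁻¹ y) (b'⁻¹ y') ∧ Q (n + 1) (f y) (f' y') ∧ Q (n + 1) (f⁻¹ y) (f'⁻¹ y'))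
    (w : Wd) : Q w.norm (act b f w x) (act b' f' w x') := by
  have k : ∀ L : List (Bool × Bool),
      Q L.length (act b f (FreeGroup.mk L) x) (act b' f' (FreeGroup.mk L) x') := by
    intro L
    induction L with
    | nil => simpa [← FreeGroup.one_eq_mk] using h0
    | cons s L ih =>
      have h4 : FreeGroup.mk (s :: L) = FreeGroup.mk [s] * FreeGroup.mk L := by
        rw [FreeGroup.mul_mk]; rfl
      obtain ⟨a1, a2, a3, a4⟩ := h _ _ _ ih
      rw [h4, map_mul, map_mul, mul_apply, mul_apply, List.length_cons]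
      obtain ⟨s1, s2⟩ := s
      have e1 : FreeGroup.mk [(s1, true)] = FreeGroup.of s1 := rfl
      have e2 : FreeGroup.mk [(s1, false)] = (FreeGroup.of s1)⁻¹ := rfl
      cases s2
      · rw [e2, map_inv, map_inv]
        cases s1
        · simpa [act] using a4
        · simpa [act] using a2
      · rw [e1]
        cases s1
        · simpa [act] using a3
        · simpa [act] using a1
  have := k w.toWord
  rwa [FreeGroup.mk_toWord] at this

variable {D D' : Type} [DecidableEq D] [Fintype D] [DecidableEq D'] [Fintype D']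

/-- active darts are at distance at least d, and only old ones are at distance d -/
structure Fr (f : Perm D) (r : D) (S : St D) (Old : Finset D) (d : ℕ) : Prop where
  old : ∀ u ∈ Old, u ∉ Un S
  far : ∀ g, S.Ok g → ∀ u ∈ (S.K true).U,
    (∀ n < d, ¬Near g f n r u) ∧ (Near g f d r u → u ∈ Old)

lemma Fr.step {f : Perm D} {r S Old d} (h : Fr f r S Old d) {x rest t v s W}
    (k : Kid S true x rest t v s W) : Fr f r (S.ch true x s rest t W) Old d :=
  ⟨fun u hu e => h.old u hu (k.inner e).1, fun g hg u hu => h.far g (k.up hg).1 u (k.subU hu)⟩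

lemma Fr.layer {f : Perm D} {r S Old d} (h : Fr f r S Old d) (sd : Sd f S)
    (h0 : ∀ u ∈ Old, u ∉ (S.K true).X) {Old' : Finset D} (h1 : ∀ u ∈ Old', u ∈ (S.K true).X)
    (h2 : ∀ u ∈ (S.K true).X, u ∉ Old' → f u ∈ (S.K true).U ∧ f⁻¹ u ∈ (S.K true).U) :
    Fr f r S Old' (d + 1) := by
  refine ⟨fun u hu e => (mem_sdiff.1 e).2 (h1 u hu), fun g hg => ?_⟩
  have k1 : ∀ u ∈ (S.K true).U, ¬Near g f d r u := fun u hu e => by
    have := (h.far g hg u hu).2 e
    exact h.old u this (mem_sdiff.2 ⟨hu, h0 u this⟩)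
  refine fun u hu => ⟨fun n hn e => k1 u hu (e.mono (by omega)), fun e => ?_⟩
  rcases near_succ.1 e with e | ⟨y, e, e'⟩
  · exact absurd e (k1 u hu)
  by_contra c
  refine k1 y ?_ e
  have k2 : f u ∈ (S.K true).U ∧ f⁻¹ u ∈ (S.K true).U := by
    by_cases x : u ∈ (S.K true).X
    · exact h2 u x c
    · have i := mem_sdiff.2 ⟨hu, x⟩
      exact ⟨(mem_sdiff.1 (sd.un_f.2 i)).1, (mem_sdiff.1 (sd.un_f.1 (by simpa using i))).1⟩
  rcases e' with rfl | rfl | rfl | rfl
  · exact (hg.mem_iff sd.wf true y).2 hu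
  · simpa using (hg.mem_iff sd.wf true _).1 hu
  · simpa using k2.2
  · simpa using k2.1

/-- the second event follows from the first when the balls of radius R agree -/
def Ev (f : Perm D) (f' : Perm D') (r : D) (r' : D') (R : ℕ) (S : St D) (E : Perm D → Prop)
    (S' : St D') (E' : Perm D' → Prop) : Prop :=
  ∀ g g', S.Ok g → S'.Ok g' → Same g f r g' f' r' R → E g → E' g'

lemma Ev.step {f : Perm D} {f' : Perm D'} {r r' R S E S' E'} (h : Ev f f' r r' R S E S' E')
    {x rest t v s W x' rest' t' v' s' W'} (k : Kid S true x rest t v s W)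
    (k' : Kid S' true x' rest' t' v' s' W') :
    Ev f f' r r' R (S.ch true x s rest t W) E (S'.ch true x' s' rest' t' W') E' :=
  fun g g' hg hg' => h g g' (k.up hg).1 (k'.up hg').1

namespace PI
variable {f : Perm D} {f' : Perm D'} {r : D} {r' : D'} {S : St D} {S' : St D'} {φ : D → D'}
  {Fa : Set D} (h : PI f f' r r' S S' φ Fa)
include h

lemma base (hF : ∀ u ∈ Fa, u ∈ (S.K true).U) {Old d R} (fr : Fr f r S Old d) (hd : R + 1 ≤ d)
    {E E'} (ev : Ev f f' r r' R S E S' E') : S.cnt E * S'.tot ≤ S'.cnt E' * S.tot := by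
  refine cpl_base h.cpl fun c hc c' hc' e a ha b hb a' ha' b' hb' =>
    ev _ _ ⟨c, hc, a, ha, b, hb, rfl⟩ ⟨c', hc', a', ha', b', hb', rfl⟩ fun w hw => ?_
  have n1 : ∀ {n u}, Near (c * (a * b)) f n r u → n ≤ R → u ∉ (S.K true).U := fun e hn hu =>
    (fr.far _ ⟨c, hc, a, ha, b, hb, rfl⟩ _ hu).1 _ (by omega) e
  have e1 : ∀ u, u ∉ (S.K true).U → (c' * (a' * b')) (φ u) = φ ((c * (a * b)) u) := fun u hu => by
    rw [St.off (b := true) ha hb hu (by simp [h.sd.off]),
      St.off (b := true) ha' hb' (h.out u hu) (by simp [h.sd'.off]), e u hu]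
  have e2 : ∀ u, u ∉ (S.K true).U → f u ∉ (S.K true).U → f' (φ u) = φ (f u) := fun u hu hu' =>
    h.fc u (fun e => hu (mem_sdiff.1 e).1) (mt (hF u) hu) (mt (hF _) hu')
  generalize c * (a * b) = g at n1 e1 ⊢
  generalize c' * (a' * b') = g' at e1 ⊢
  obtain ⟨k1, k2⟩ := act_ind (b := g) (f := f) (b' := g') (f' := f')
    (Q := fun n y y' => Near g f n r y ∧ (n ≤ R → y' = φ y)) ⟨Near.refl _ _ _ r, fun _ => h.rt.2.symm⟩
    (fun n y y' ⟨m, e⟩ => by
      have m1 := m.trans (near_b g f y)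
      have m2 := m.trans (near_bi g f y)
      have m3 := m.trans (near_f g f y)
      have m4 := m.trans (near_fi g f y)
      refine ⟨⟨m1, fun l => ?_⟩, ⟨m2, fun l => ?_⟩, ⟨m3, fun l => ?_⟩, m4, fun l => ?_⟩ <;>
        rw [e (by omega)]
      · exact e1 y (n1 m (by omega))
      · rw [inv_eq_iff_eq, e1 _ (n1 m2 l)]; simp
      · exact e2 y (n1 m (by omega)) (n1 m3 l)
      · rw [inv_eq_iff_eq, e2 _ (n1 m4 l) (by simpa using n1 m (by omega))]; simp) w
  rw [k2 hw, ← h.rt.2]
  have u1 := n1 k1 hw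
  have u2 := n1 (Near.refl g f 0 r) (Nat.zero_le _)
  exact ⟨congrArg φ, h.inj _ (fun e => u1 (mem_sdiff.1 e).1) (mt (hF _) u1) _ h.rt.1 (mt (hF _) u2)⟩

theorem step' {x s : D} {rest P M Q : List D} {t v W s' rest' M' W'}
    (k : Kid S true x rest t v s W) (k' : Kid S' true (φ x) rest' t v s' W')
    (e : rest = P ++ M ++ Q) (e' : rest' = P.map φ ++ M' ++ Q.map φ)
    (hP : P.length = t.sR) (hQ : Q.length = t.sL) :
    ∃ ψ, PI f f' r r' (S.ch true x s rest t W) (S'.ch true (φ x) s' rest' t W') ψ Fa ∧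
      (∀ u ∈ M, ψ u = φ u) ∧
      Holes ((S.ch true x s rest t W).K true) [newL (S.K true) s t ++ M] ∧
      Holes ((S'.ch true (φ x) s' rest' t W').K true) [(newL (S.K true) s t).map ψ ++ M'] := by
  subst e e'
  obtain ⟨ψ, a1, a2, a3⟩ := h.step k k' hP hQ
  have c : ∀ {α : Type} (P M Q : List α), cut P.length Q.length (P ++ M ++ Q) = M := by
    intro α P M Q; simp [cut]
  have h1 := k.holes
  have h2 := k'.holes
  rw [mainL, ← hP, ← hQ, c] at h1
  rw [mainL, ← hP, ← hQ, ← List.length_map φ, ← List.length_map (as := Q) φ, c, ← a3] at h2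
  exact ⟨ψ, a1, fun u hu => a2 u fun e => (mem_sdiff.1 e).2 (k.hl.mem1.2 (by simp [hu])), h1, h2⟩

end PI

lemma holes_rot {K : Cfg D} {l : List D} (h : Holes K [l]) (n : ℕ) : Holes K [l.rotate n] :=
  have c := (h.cyc l List.mem_cons_self).rotate n
  ⟨fun l' hl => by rw [List.mem_singleton.1 hl]; exact c, by simpa using c.1,
    fun x => by simp [h.mem1]⟩

lemma newL_lab {S : St D} {x rest t v s W} (k : Kid S true x rest t v s W) {Old : Finset D}
    (h : ∀ u ∈ Old, u ∉ Un S) : ∀ y ∈ newL (S.K true) s t, decide (y ∈ Old) = false :=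
  fun y hy => decide_eq_false fun e => h y e (k.new_inner hy)

/-- consecutive entries follow f -/
def Ch (f : Perm D) (l : List D) : Prop := ∀ A x y B, l = A ++ x :: y :: B → f x = y

lemma Ch.mid {f : Perm D} {P M Q : List D} (h : Ch f (P ++ M ++ Q)) : Ch f M :=
  fun A x y B e => h (P ++ A) x y (B ++ Q) (by simp [e])

lemma Ch.nb {f : Perm D} {a b u : D} {M : List D} (h : Ch f (a :: (M ++ [b]))) (hu : u ∈ M) :
    f u ∈ a :: (M ++ [b]) ∧ f⁻¹ u ∈ a :: (M ++ [b]) := by
  obtain ⟨M1, M2, rfl⟩ := List.append_of_mem hu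
  obtain ⟨y, B, e⟩ := List.exists_cons_of_ne_nil (l := M2 ++ [b]) (by simp)
  obtain ⟨A, z, e'⟩ := (List.eq_nil_or_concat' (a :: M1)).resolve_left (by simp)
  have e1 : a :: (M1 ++ u :: M2 ++ [b]) = (a :: M1) ++ u :: y :: B := by simp [e]
  have e2 : a :: (M1 ++ u :: M2 ++ [b]) = A ++ z :: u :: (M2 ++ [b]) := by
    rw [← List.cons_append, ← List.cons_append, e']; simp
  rw [h _ _ _ _ e1, inv_eq_iff_eq.2 (h _ _ _ _ e2).symm]
  exact ⟨by rw [e1]; simp, by rw [e2]; simp⟩

lemma decR {α : Type} (G A : List α) (s c : ℕ) (h : s - G.length + c ≤ A.length) :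
    ∃ P A0 A2 A1 : List α, A = A0 ++ A2 ++ A1 ∧ A0.length = s - G.length ∧ A2.length = c ∧
      P.length = s ∧ G ++ A = P ++ G.drop s ++ A2 ++ A1 :=
  ⟨(G ++ A).take s, A.take (s - G.length), (A.drop (s - G.length)).take c,
    (A.drop (s - G.length)).drop c,
    by rw [List.append_assoc, List.take_append_drop, List.take_append_drop], by simp; omega,
    by simp; omega, by simp; omega, by
      rw [List.append_assoc, List.take_append_drop, List.append_assoc, ← List.drop_append,
        List.take_append_drop]⟩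

lemma decL {α : Type} (G B : List α) (s c : ℕ) (h : s - G.length + c ≤ B.length) :
    ∃ Q B0 B2 B1 : List α, B = B1 ++ B2 ++ B0 ∧ B0.length = s - G.length ∧ B2.length = c ∧
      Q.length = s ∧ B ++ G = B1 ++ B2 ++ G.take (G.length - s) ++ Q := by
  obtain ⟨P, A0, A2, A1, e1, e2, e3, e4, e5⟩ := decR G.reverse B.reverse s c (by simpa using h)
  refine ⟨P.reverse, A0.reverse, A2.reverse, A1.reverse, ?_, by simpa using e2, by simpa using e3,
    by simpa using e4, ?_⟩
  · simpa using congrArg List.reverse e1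
  · simpa [List.drop_reverse] using congrArg List.reverse e5

end Pool.Agent.Lib.MP_abd955_pr.XX
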