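import Pool.Agent.Lib.MP_abd955_pr.XC
import Pool.Agent.Lib.MP_abd955_pr.MachE
import Pool.Agent.Lib.MP_abd955_pr.MachS2

/-! Coupled explorations by layers: a hole of fixed length, and a window in a long hole. -/

namespace Pool.Agent.Lib.MP_abd955_pr.XX

open Equiv Equiv.Perm Finset Step Filter

set_option linter.unusedSectionVars false

section
variable {D D' : Type} [DecidableEq D] [Fintype D] [DecidableEq D'] [Fintype D']
  {f : Perm D} {f' : Perm D'} {r : D} {r' : D'} {S : St D} {S' : St D'}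

/-- what one needs from a pair of states in order to make a step -/
def Stp (S : St D) (S' : St D') (l l' : ℕ) (I : Step → ℕ → St D → St D' → Prop) : Prop :=
  ∃ x rest x' rest', Holes (S.K true) [x :: rest] ∧ Holes (S'.K true) [x' :: rest'] ∧
    rest.length + 1 = l ∧ rest'.length + 1 = l' ∧ ∀ t v s W s' W', Kid S true x rest t v s W →
      Kid S' true x' rest' t v s' W' → I t v (S.ch true x s rest t W) (S'.ch true x' s' rest' t W')

def SP (f : Perm D) (f' : Perm D') (r : D) (r' : D') (s : List Bool × ℕ) (S : St D) (S' : St D') :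
    Prop :=
  ∃ φ l Old, PI f f' r r' S S' φ ∅ ∧ Fr f r S Old s.2 ∧ Holes (S.K true) [l] ∧
    Holes (S'.K true) [l.map φ] ∧ l.map (fun u => decide (u ∈ Old)) = s.1

lemma SP.layer {lab d} (h : SP f f' r r' (lab, d) S S') (c : true ∉ lab) :
    SP f f' r r' (List.replicate lab.length true, d + 1) S S' := by
  obtain ⟨φ, l, Old, a1, a2, a3, a4, a5⟩ := h
  dsimp only at a5
  refine ⟨φ, l, l.toFinset, a1, a2.layer a1.sd (fun u hu e => c ?_) (fun u hu => ?_)
    fun u hu e => ?_, a3, a4, ?_⟩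
  · exact a5 ▸ List.mem_map.2 ⟨u, a3.mem1.1 e, by simpa using hu⟩
  · exact a3.mem1.2 (List.mem_toFinset.1 hu)
  · exact absurd (List.mem_toFinset.2 (a3.mem1.1 hu)) e
  · exact List.eq_replicate_iff.2 ⟨by rw [← a5]; simp, List.forall_mem_map.2
      fun y hy => decide_eq_true (by simp [hy])⟩

lemma SP.step {s} (h : SP f f' r r' s S S') :
    Stp S S' s.1.length s.1.length fun t _ => SP f f' r r' (snext s t) := by
  obtain ⟨φ, l, Old, a1, a2, a3, a4, a5⟩ := h
  have b3 := holes_rot a3 (fstT s.1)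
  have b4 := holes_rot a4 (fstT s.1)
  obtain ⟨x, rest, e⟩ := List.exists_cons_of_ne_nil (b3.cyc _ List.mem_cons_self).2.1
  have ln : rest.length + 1 = s.1.length := by
    rw [← a5, List.length_map, ← l.length_rotate (fstT s.1), e]; rfl
  rw [← List.map_rotate, e] at b4
  rw [e] at b3
  refine ⟨x, rest, φ x, rest.map φ, b3, b4, ln, by simpa using ln, fun t v z W z' W' k k' => ?_⟩
  have ft := k.fit
  have c := cut_split t.sR t.sL rest (by omega)
  obtain ⟨ψ, c1, c2, c3, c4⟩ := a1.step' k k' c (M' := (cut t.sR t.sL rest).map φ)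
    (by rw [← List.map_append, ← List.map_append, ← c]) (by simp; omega) (by simp; omega)
  rw [← List.map_congr_left c2, ← List.map_append] at c4
  have h1 : SP f f' r r' (slab s.1 t, s.2) _ _ := ⟨ψ, _, Old, c1, a2.step k, c3, c4, by
    rw [List.map_append, cut_map, slab, ← a5, ← List.map_rotate, a5, e, List.map_cons, List.tail_cons,
      ← newL_length (S.K true) z t]
    congr 1
    exact List.eq_replicate_iff.2 ⟨by simp, List.forall_mem_map.2 (newL_lab k a2.old)⟩⟩
  beta_reduce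
  unfold snext
  split_ifs with c
  exacts [h1, h1.layer c]

lemma SP.empty {s} (h : SP f f' r r' s S S') (c : ¬(Even s.1.length ∧ 2 ≤ s.1.length))
    (g : Perm D) : ¬S.Ok g := fun hg => by
  obtain ⟨φ, l, Old, a1, -, a3, -, a5⟩ := h
  have c1 := a3.cyc l List.mem_cons_self
  have c2 := even_hole (a1.sd.wf.wf true) (hg.pre a1.sd.wf true) c1 fun x hx => a3.mem1.2 hx
  have := List.length_pos_iff.2 c1.2.1
  rw [← a5, List.length_map] at c
  exact c ⟨c2, by obtain ⟨r, e⟩ := c2; omega⟩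

def HP (f : Perm D) (f' : Perm D') (r : D) (r' : D') (lab : List Bool) (d q j : ℕ) (S : St D)
    (S' : St D') : Prop :=
  ∃ φ seg A Fa Fa' B Old, PI f f' r r' S S' φ {u | u ∈ Fa} ∧ Fr f r S Old d ∧
    Holes (S.K true) [seg ++ (A ++ Fa ++ B)] ∧
    Holes (S'.K true) [seg.map φ ++ (A.map φ ++ Fa' ++ B.map φ)] ∧
    seg.map (fun u => decide (u ∈ Old)) = lab ∧ (∀ u ∈ A ++ Fa ++ B, u ∉ Old) ∧
    Ch f (A ++ Fa ++ B) ∧ q ≤ A.length + j ∧ q ≤ B.length + j

lemma HP.mono {lab d q j j'} (h : HP f f' r r' lab d q j S S') (e : j ≤ j') :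
    HP f f' r r' lab d q j' S S' := by
  obtain ⟨φ, seg, A, Fa, Fa', B, Old, a1, a2, a3, a4, a5, a6, a7, a8, a9⟩ := h
  exact ⟨φ, seg, A, Fa, Fa', B, Old, a1, a2, a3, a4, a5, a6, a7, by omega, by omega⟩

lemma HP.layer {lab d q j} (h : HP f f' r r' lab d q j S S') (c : true ∉ lab) (hq : j < q) :
    HP f f' r r' (List.replicate (lab.length + 2) true) (d + 1) q (j + 1) S S' := by
  obtain ⟨φ, seg, A, Fa, Fa', B, Old, a1, a2, a3, a4, a5, a6, a7, a8, a9⟩ := h
  obtain ⟨a, A, rfl⟩ := List.exists_cons_of_length_pos (l := A) (by omega)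
  obtain ⟨B, b, rfl⟩ := (List.eq_nil_or_concat' B).resolve_left (by rintro rfl; simp at a9; omega)
  have b3 : Holes (S.K true) [(b :: (seg ++ [a])) ++ (A ++ Fa ++ B)] := by
    have := Holes.comm (A := seg ++ (a :: A ++ Fa ++ B)) (B := [b]) (by simpa using a3)
    simpa using this
  have b4 : Holes (S'.K true) [(b :: (seg ++ [a])).map φ ++ (A.map φ ++ Fa' ++ B.map φ)] := by
    have := Holes.comm (A := seg.map φ ++ (φ a :: A.map φ ++ Fa' ++ B.map φ)) (B := [φ b])
      (by simpa using a4)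
    simpa using this
  have b7 : Ch f (a :: ((A ++ Fa ++ B) ++ [b])) := by simpa using a7
  refine ⟨φ, b :: (seg ++ [a]), A, Fa, Fa', B, (b :: (seg ++ [a])).toFinset, a1,
    a2.layer a1.sd (fun u hu e => ?_) (fun u hu => ?_) fun u hu e => ?_, b3, b4, ?_,
    fun u hu e => ?_, Ch.mid (P := [a]) b7, by simp at a8; omega, by simp at a9; omega⟩
  · rcases List.mem_append.1 (a3.mem1.1 e) with e | e
    exacts [c (a5 ▸ List.mem_map.2 ⟨u, e, by simpa using hu⟩), a6 u e hu]
  · exact b3.mem1.2 (List.mem_append_left _ (List.mem_toFinset.1 hu))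
  · have := b7.nb ((List.mem_append.1 (b3.mem1.1 hu)).resolve_left (mt List.mem_toFinset.2 e))
    have k : ∀ y ∈ a :: ((A ++ Fa ++ B) ++ [b]), y ∈ (S.K true).U := fun y hy =>
      (a1.sd.wf.wf true).sub (a3.mem1.2 (List.mem_append_right _ (by simpa using hy)))
    exact ⟨k _ this.1, k _ this.2⟩
  · exact List.eq_replicate_iff.2 ⟨by rw [← a5]; simp, List.forall_mem_map.2
      fun y hy => decide_eq_true (List.mem_toFinset.2 hy)⟩
  · exact (List.nodup_append.1 (b3.cyc _ List.mem_cons_self).1).2.2 u (List.mem_toFinset.1 e) u hu rfl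

lemma HP.step {lab d q j} (h : HP f f' r r' lab d q j S S') {i : ℕ} (hi : i < lab.length) :
    Stp S S' (S.K true).X.card (S'.K true).X.card fun t _ T T' => j + (t.sL + t.sR) ≤ q →
      HP f f' r r' (pad (oR lab i t) (oL i t) (relab lab i t)) d q (j + (t.sL + t.sR)) T T' := by
  obtain ⟨φ, seg, A, Fa, Fa', B, Old, a1, a2, a3, a4, a5, a6, a7, a8, a9⟩ := h
  have ln : seg.length = lab.length := by rw [← a5, List.length_map]
  obtain ⟨x, hx⟩ : ∃ x, seg[i]? = some x := ⟨_, List.getElem?_eq_getElem (by omega)⟩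
  have b3 := a3.at hx
  have b4 := a4.at (i := i) (x := φ x) (by simp [hx])
  refine ⟨x, _, φ x, _, b3, b4, b3.len, b4.len, fun t v z W z' W' k k' hq => ?_⟩
  have l1 : (seg.drop (i + 1)).length = lab.length - 1 - i := by simp; omega
  have l2 : (seg.take i).length = i := by simp; omega
  obtain ⟨P, A0, A2, A1, rfl, e2, e3, e4, e5⟩ := decR (seg.drop (i + 1)) A t.sR (oL i t)
    (by unfold oL; omega)
  obtain ⟨Q, B0, B2, B1, rfl, g2, g3, g4, g5⟩ := decL (seg.take i) B t.sL (oR lab i t)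
    (by unfold oR; omega)
  rw [List.drop_drop] at e5
  rw [l2, List.take_take, min_eq_left (Nat.sub_le _ _)] at g5
  have m5 := congrArg (List.map φ) e5
  have m6 := congrArg (List.map φ) g5
  obtain ⟨ψ, c1, c2, c3, c4⟩ := a1.step' k k' (P := P) (Q := Q)
    (M := seg.drop (i + 1 + t.sR) ++ A2 ++ A1 ++ Fa ++ (B1 ++ B2 ++ seg.take (i - t.sL)))
    (M' := (seg.drop (i + 1 + t.sR) ++ A2 ++ A1).map φ ++ Fa' ++
      (B1 ++ B2 ++ seg.take (i - t.sL)).map φ)
    (by
      simp only [List.append_assoc] at e5 g5 ⊢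
      rw [← g5, ← List.append_assoc P, ← List.append_assoc (P ++ _), ← List.append_assoc (P ++ _ ++ _)]
      simp only [List.append_assoc P, List.append_assoc (seg.drop (i + 1 + t.sR)), ← e5]
      simp only [List.append_assoc])
    (by
      rw [← List.map_drop, ← List.map_take, ← List.append_assoc, ← List.append_assoc,
        ← List.map_append, List.append_assoc _ (List.map φ _), ← List.map_append, e5, g5]
      simp only [List.map_append, List.append_assoc]) e4 g4
  rw [← List.map_congr_left fun u hu => c2 u (List.mem_append_left _ (List.mem_append_left _ hu)),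
    ← List.map_congr_left fun u hu => c2 u (List.mem_append_right _ hu)] at c4
  have n : ∀ {L : List D} {a}, L.length = a → (∀ u ∈ L, u ∈ A0 ++ A2 ++ A1 ++ Fa ++ (B1 ++ B2 ++ B0)) →
      L.map (fun u => decide (u ∈ Old)) = List.replicate a false := fun e h =>
    List.eq_replicate_iff.2 ⟨by simpa using e,
      List.forall_mem_map.2 fun y hy => decide_eq_false (a6 y (h y hy))⟩
  refine ⟨ψ, B2 ++ segN (S.K true) z seg i t ++ A2, A1, Fa, Fa', B1, Old, c1, a2.step k, ?_, ?_, ?_,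
    fun u hu => a6 u (by simp only [List.mem_append] at hu ⊢; tauto),
    Ch.mid (P := A0 ++ A2) (Q := B2 ++ B0) (by simpa using a7), ?_, ?_⟩
  · have := Holes.comm (B := B2 ++ seg.take (i - t.sL)) (A := newL (S.K true) z t ++
      seg.drop (i + 1 + t.sR) ++ A2 ++ A1 ++ Fa ++ B1) (by simpa using c3)
    simpa [segN] using this
  · have := Holes.comm (B := (B2 ++ seg.take (i - t.sL)).map ψ) (A := (newL (S.K true) z t ++
      seg.drop (i + 1 + t.sR) ++ A2 ++ A1).map ψ ++ Fa' ++ B1.map ψ) (by simpa using c4)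
    simpa [segN] using this
  · rw [List.map_append, List.map_append, segN_map _ _ (newL_lab k a2.old), a5,
      n e3 fun u hu => by simp [hu], n g3 fun u hu => by simp [hu], pad]
  · simp only [List.length_append] at a8
    unfold oL at e3; omega
  · simp only [List.length_append] at a9
    unfold oR at g3; omega

lemma SP.wf {s} (h : SP f f' r r' s S S') : S.WF ∧ S'.WF := by
  obtain ⟨φ, l, Old, a1, -⟩ := h
  exact ⟨a1.sd.wf, a1.sd'.wf⟩

lemma HP.wf {lab d q j} (h : HP f f' r r' lab d q j S S') : S.WF ∧ S'.WF := by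
  obtain ⟨φ, seg, A, Fa, Fa', B, Old, a1, -⟩ := h
  exact ⟨a1.sd.wf, a1.sd'.wf⟩

end

variable {ι : Type} {𝓕 : Filter ι} {D D' : ι → Type} [∀ i, DecidableEq (D i)]
  [∀ i, Fintype (D i)] [∀ i, DecidableEq (D' i)] [∀ i, Fintype (D' i)]
  (f : ∀ i, Perm (D i)) (f' : ∀ i, Perm (D' i)) (r : ∀ i, D i) (r' : ∀ i, D' i)

def SIv (π π' : ι → ℕ) (R : ℕ) (s : List Bool × ℕ) (j : ℕ) : Iv2 D D' := fun i S E S' E' =>
  SP (f i) (f' i) (r i) (r' i) s S S' ∧ π i ≤ (S.K true).m + j ∧ π' i ≤ (S'.K true).m + j ∧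
    Ev (f i) (f' i) (r i) (r' i) R S E S' E'

theorem sph_bd {π π' : ι → ℕ} (hπ : Tendsto π 𝓕 atTop) (hπ' : Tendsto π' 𝓕 atTop) (R M n : ℕ) :
    ∀ s j, Bd2 𝓕 (SIv f f' r r' π π' R s j) (Fs (R + 1) M 0 n s) := by
  have z : ∀ (s : List Bool × ℕ) j, R + 1 ≤ s.2 → Bd2 𝓕 (SIv f f' r r' π π' R s j) 0 :=
    fun s j c => Bd2.zero (Eventually.of_forall fun i S E S' E' ⟨⟨φ, l, Old, a1, a2, _⟩, _, _, ev⟩ =>
      a1.base (by simp) a2 c ev)
  induction n with
  | zero =>
    intro s j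
    rw [Fs]
    split_ifs with c
    exacts [z s j c, Bd2.one]
  | succ n ih =>
    intro s j
    by_cases ev : Even s.1.length ∧ 2 ≤ s.1.length
    swap
    · refine (Bd2.zero (Eventually.of_forall fun i S E S' E' h => ?_)).le (Fs_mem _ _ _ le_rfl _ _).1
      rw [St.cnt_zero fun g hg _ => h.1.empty ev g hg, zero_mul]
      exact mul_nonneg (S'.cnt_nonneg _) S.tot_nonneg
    rw [Fs]
    split_ifs with c
    · exact z s j c
    · exact Bd2.one
    refine Bd2.min Bd2.one ?_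
    have md := mdS j _ ev.1 ev.2
    rw [zero_add, ← tsum_wt md.sum.summable md.nn (hasSum_wS _)
      (fun t => (Fs_mem _ _ _ le_rfl _ _).1) fun t => (Fs_mem _ _ _ le_rfl _ _).2]
    refine Bd2.step (Md.comap md hπ) (Md.comap md hπ')
      (fun y => (Fs_mem _ _ _ le_rfl _ _).1) (fun y => (Fs_mem _ _ _ le_rfl _ _).2)
      (fun y => ih (snext s y.1) (j + (y.2 + 1))) (G := fun _ _ => True)
      (fun y => Eventually.of_forall fun _ => trivial)
      (Eventually.of_forall fun i S E S' E' ⟨h, sz, sz', b⟩ => ?_)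
    obtain ⟨x, rest, x', rest', a1, a2, a3, a4, a5⟩ := h.step
    exact ⟨h.wf.1, h.wf.2, x, rest, x', rest', a1, a2, ⟨sz, a3⟩, ⟨sz', a4⟩, fun y _ z W z' W' k k' =>
      ⟨a5 _ _ _ _ _ _ k k', by have := k.m_eq; omega, by have := k'.m_eq; omega, b.step k k'⟩⟩

theorem sph_zero {π π' : ι → ℕ} (hπ : Tendsto π 𝓕 atTop) (hπ' : Tendsto π' 𝓕 atTop) (R L j : ℕ)
    (hE : Even L) (h2 : 2 ≤ L) : Bd2 𝓕 (SIv f f' r r' π π' R (List.replicate L true, 0) j) 0 :=
  Bd2.small fun ε hε => by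
    obtain ⟨M, n, e⟩ := sphere_small (R + 1) L hE h2 ε hε
    exact (sph_bd f f' r r' hπ hπ' R M n _ j).le e

def HIv (π π' : ι → ℕ × ℕ) (q : ι → ℕ) (R : ℕ) (lab : List Bool) (d j : ℕ) : Iv2 D D' :=
  fun i S E S' E' => HP (f i) (f' i) (r i) (r' i) lab d (q i) j S S' ∧
    SzH j (π i) (S.K true).m (S.K true).X.card ∧ SzH j (π' i) (S'.K true).m (S'.K true).X.card ∧
    Ev (f i) (f' i) (r i) (r' i) R S E S' E'

lemma ext_small (a : ℕ) (ha : 1 ≤ a) {ε : ℝ} (hε : 0 < ε) : ∃ J0 M n, Fe false 1 J0 M 0 n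
    ⟨fun c => List.replicate (if c then a else 0) true, 0, 0⟩ ≤ ε := by
  obtain ⟨C, C0, hC⟩ := extent_bound
  obtain ⟨m, hm⟩ := exists_nat_gt (3 * (a + 2 * C + 1) / ε)
  have m0 : (0 : ℝ) < m := lt_trans (by positivity) hm
  have m1 : 1 ≤ m := by exact_mod_cast m0
  have m2 : (1 : ℝ) ≤ m := by exact_mod_cast m1
  obtain ⟨n, e⟩ := hC false 1 (m * m) (m * m) a 0 0 le_rfl (Nat.mul_pos m1 m1) (Nat.mul_pos m1 m1) ha
  refine ⟨_, _, n, e.trans ?_⟩
  rw [div_lt_iff₀ hε] at hm
  push_cast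
  rw [Real.sqrt_mul_self m0.le, zero_mul, zero_mul, add_zero, ← add_div, div_le_iff₀ (by positivity)]
  have a0 : (0 : ℝ) ≤ a := Nat.cast_nonneg _
  nlinarith [mul_le_mul_of_nonneg_right hm.le m0.le, mul_le_mul_of_nonneg_left m2 a0,
    mul_nonneg C0 m0.le]

section
variable {π π' : ι → ℕ × ℕ} {q : ι → ℕ} (hπ : Tendsto π 𝓕 FH) (hπ' : Tendsto π' 𝓕 FH)
  (hq : Tendsto q 𝓕 atTop)
include hπ hπ' hq

lemma ext_stage {R d : ℕ} (ih0 : ∀ a j, 1 ≤ a →
    Bd2 𝓕 (HIv f f' r r' π π' q R (List.replicate a true) (d + 1) j) 0) (J0 M n : ℕ) :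
    ∀ (s : ES) j, true ∈ s.lab true → s.lab false = [] → s.j = 0 →
      Bd2 𝓕 (HIv f f' r r' π π' q R (s.lab true) d j) (Fe false 1 J0 M 0 n s) := by
  induction n with
  | zero =>
    intro s j _ _ h3
    rw [Fe, if_neg (by omega)]
    exact Bd2.one
  | succ n ih =>
    intro s j h1 h2 h3
    rw [Fe, if_neg (by omega)]
    split_ifs with c
    · exact Bd2.one
    refine Bd2.min Bd2.one ?_
    rw [zero_add, ← tsum_wt (wt := fun y => wv y.1 y.2) hasSum_wv2.summable (fun y => wv_nonneg _ _)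
      hasSum_wv (fun t => (Fe_mem _ _ _ _ _ le_rfl _ _).1) fun t => (Fe_mem _ _ _ _ _ le_rfl _ _).2]
    have cp : s.cp = true := by simp [ES.cp, h1]
    have l1 : ∀ t, s.lab1 false t true = pad (oR (s.lab true) (med (s.lab true)) t)
        (oL (med (s.lab true)) t) (relab (s.lab true) (med (s.lab true)) t) := fun t => by
      simp [ES.lab1, cp]
    have l2 : ∀ t, s.lab1 false t false = [] := fun t => by simp [ES.lab1, cp, h2]
    refine Bd2.step (Md.comap (mdH j) hπ) (Md.comap (mdH j) hπ')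
      (fun y => (Fe_mem _ _ _ _ _ le_rfl _ _).1) (fun y => (Fe_mem _ _ _ _ _ le_rfl _ _).2)
      (J := fun y => if true ∈ s.lab1 false y.1 true then
        HIv f f' r r' π π' q R (s.lab1 false y.1 true) d (j + (y.2 + y.1.sL + y.1.sR + 2))
        else HIv f f' r r' π π' q R (List.replicate ((s.lab1 false y.1 true).length + 2) true)
          (d + 1) (j + (y.2 + y.1.sL + y.1.sR + 2))) (fun y => ?_)
      (fun y => hq.eventually (eventually_gt_atTop (j + (y.1.sL + y.1.sR))))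
      (Eventually.of_forall fun i S E S' E' ⟨h, sz, sz', b⟩ => ?_)
    · split_ifs with e
      · have := ih (s.next false y.1) (j + (y.2 + y.1.sL + y.1.sR + 2))
        unfold ES.next at this ⊢
        simp only [e, true_or, if_true] at this ⊢
        exact this trivial (l2 _) h3
      · exact (ih0 _ _ (by omega)).le (Fe_mem _ _ _ _ _ le_rfl _ _).1
    obtain ⟨x, rest, x', rest', a1, a2, a3, a4, a5⟩ := h.step (lt_of_get (med_spec _ h1))
    refine ⟨h.wf.1, h.wf.2, x, rest, x', rest', a1, a2, a3 ▸ sz, a4 ▸ sz',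
      fun y hy z W z' W' k k' => ?_⟩
    have b1 := a5 _ _ _ _ _ _ k k' hy.le
    have b2 := k.szH (a3 ▸ sz) k.holes
    have b3 := k'.szH (a4 ▸ sz') k'.holes
    rw [k.holes.len] at b2
    rw [k'.holes.len] at b3
    rw [← l1] at b1
    split_ifs with e
    exacts [⟨b1.mono (by omega), b2, b3, b.step k k'⟩,
      ⟨(b1.layer e hy).mono (by omega), b2, b3, b.step k k'⟩]

theorem ext_zero (R k : ℕ) : ∀ d, R + 1 ≤ d + k → ∀ a j, 1 ≤ a →
    Bd2 𝓕 (HIv f f' r r' π π' q R (List.replicate a true) d j) 0 := by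
  induction k with
  | zero =>
    refine fun d c a j _ => Bd2.zero (Eventually.of_forall
      fun i S E S' E' ⟨⟨φ, seg, A, Fa, Fa', B, Old, a1, a2, a3, _⟩, _, _, ev⟩ =>
        a1.base (fun u hu => ?_) a2 c ev)
    exact (a1.sd.wf.wf true).sub (a3.mem1.2 (by simp [show u ∈ Fa from hu]))
  | succ k ih =>
    refine fun d c a j ha => Bd2.small fun ε hε => ?_
    obtain ⟨J0, M, n, e⟩ := ext_small a ha hε
    exact (ext_stage f f' r r' hπ hπ' hq (ih (d + 1) (by omega)) J0 M n _ j (mem_repl ha) rfl rfl).le e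

end

end Pool.Agent.Lib.MP_abd955_pr.XX
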