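import Pool.Agent.Lib.MP_abd955_pr.XD
import Pool.Agent.Lib.MP_abd955_pr.Zip

/-! The finite inputs for the existence of the local limits. -/

namespace Pool.Agent.Lib.MP_abd955_pr.XX

open Equiv Equiv.Perm Finset Step Filter

set_option linter.unusedSectionVars false

section
variable {D D' : Type} [DecidableEq D] [Fintype D] [DecidableEq D'] [Fintype D']

lemma PI.init {K : Cfg D} {K' : Cfg D'} (w : WF K) (w' : WF K') (hU : K.U = univ) {r φ Fa}
    (hr : r ∈ K.X) (inj : ∀ u ∈ K.X, u ∉ Fa → ∀ v ∈ K.X, v ∉ Fa → φ u = φ v → u = v)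
    (fc : ∀ u ∈ K.X, u ∉ Fa → K.f u ∉ Fa → K'.f (φ u) = φ (K.f u))
    (dm : ∀ u ∈ K.X, u ∉ Fa → φ u ∈ K'.X) : PI K.f K'.f r (φ r) (St.one K) (St.one K') φ Fa := by
  have e : ∀ u, u ∉ Un (St.one K) → u ∈ K.X := fun u hu => by
    by_contra c; exact hu (mem_sdiff.2 ⟨show u ∈ K.U from hU ▸ mem_univ u, c⟩)
  have o : ∀ u, u ∈ ((St.one K).K true).U := fun u => show u ∈ K.U from hU ▸ mem_univ u
  exact ⟨⟨one_wf w, rfl, fun _ _ => rfl⟩, ⟨one_wf w', rfl, fun _ _ => rfl⟩,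
    ⟨fun c => (mem_sdiff.1 c).2 hr, rfl⟩, fun u hu nu v hv nv => inj u (e u hu) nu v (e v hv) nv,
    fun u hu => fc u (e u hu), fun u hu => absurd (o u) hu,
    fun u hu nu c => (mem_sdiff.1 c).2 (dm u (e u hu) nu), fun Ψ Ψ' h => by
      simpa [St.one] using h 1 (by simp [St.one]) 1 (by simp [St.one]) fun u hu => absurd (o u) hu⟩

lemma Fr.init {K : Cfg D} {f : Perm D} {r : D} {Old : Finset D} (h : ∀ u ∈ Old, u ∈ K.X)
    (hr : r ∈ Old) : Fr f r (St.one K) Old 0 :=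
  ⟨fun u hu c => (mem_sdiff.1 c).2 (h u hu), fun _ _ _ _ =>
    ⟨fun _ hn => absurd hn (Nat.not_lt_zero _), fun e => near_zero.1 e ▸ hr⟩⟩

open Classical in
lemma ratio_le {K : Cfg D} {K' : Cfg D'} {E : Perm D → Prop} {E' : Perm D' → Prop} {ε : ℝ}
    (h : (VS K).Nonempty) (h' : (VS K').Nonempty)
    (e : (St.one K).cnt E * (St.one K').tot ≤ (St.one K').cnt E' * (St.one K).tot +
      (0 + ε) * ((St.one K).tot * (St.one K').tot)) :
    (((VS K).filter E).card : ℝ) / (VS K).card ≤ ((VS K').filter E').card / (VS K').card + ε := by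
  have a : (0 : ℝ) < (VS K).card := by exact_mod_cast h.card_pos
  have b : (0 : ℝ) < (VS K').card := by exact_mod_cast h'.card_pos
  rw [one_cnt, one_cnt, one_tot, one_tot] at e
  rw [div_add' _ _ _ b.ne', div_le_div_iff₀ a b]
  linarith

end

lemma disc_ne {n p : ℕ} (h : p ≤ n) : (DiscS n p).Nonempty := by
  obtain ⟨w, m, e, H⟩ := KD_spec n p
  have := card_VS w (H 0)
  rw [e, m] at this
  simp only [List.map_cons, List.map_nil, List.length_map, List.length_range, Zm_cons, Zm_nil,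
    mul_one] at this
  have c := mul_pos (GG_pos n) (coeff_Zl_pos (2 * p + 2) n ⟨p + 1, by ring⟩ (by omega) (by omega))
  rw [← this] at c
  exact card_pos.1 (by exact_mod_cast c)

theorem hD (p : ℕ) : ∀ᶠ n in atTop, (DiscS n p).Nonempty :=
  (eventually_ge_atTop p).mono fun _ => disc_ne

theorem hS : ∀ᶠ n in atTop, (SphS n).Nonempty := (eventually_ge_atTop 1).mono fun n hn => by
  rw [← card_pos, (sphere_card hn 0 (fun _ _ _ _ => True) fun _ _ _ _ _ _ _ _ _ h => h).2, card_pos]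
  exact disc_ne (Nat.zero_le n)

lemma cauchy_of {u : ℕ → ℝ} (h : ∀ ε : ℝ, 0 < ε → ∀ᶠ i : ℕ × ℕ in atTop, u i.1 ≤ u i.2 + ε) :
    CauchySeq u := Metric.cauchySeq_iff.2 fun ε hε => by
  obtain ⟨⟨a, b⟩, e⟩ := eventually_atTop.1 (h _ (half_pos hε))
  refine ⟨max a b, fun m hm n hn => ?_⟩
  have h1 := e (m, n) ⟨le_of_max_le_left hm, le_of_max_le_right hn⟩
  have h2 := e (n, m) ⟨le_of_max_le_left hn, le_of_max_le_right hm⟩
  rw [Real.dist_eq, abs_lt]
  constructor <;> linarith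

lemma tfst : Tendsto (Prod.fst : ℕ × ℕ → ℕ) atTop atTop := by
  rw [← prod_atTop_atTop_eq]; exact tendsto_fst
lemma tsnd : Tendsto (Prod.snd : ℕ × ℕ → ℕ) atTop atTop := by
  rw [← prod_atTop_atTop_eq]; exact tendsto_snd

lemma sp_init (n n' p : ℕ) : SP (poly n p) (poly n' p) (.inr 0) (.inr 0)
    (List.replicate (2 * p + 2) true, 0) (St.one (KD n p)) (St.one (KD n' p)) := by
  obtain ⟨w, -, -, H⟩ := KD_spec n p
  obtain ⟨w', -, -, H'⟩ := KD_spec n' p
  have x : ∀ u ∈ (KD n p).X, ∃ i, u = .inr i := fun u hu => by simpa [KD, eq_comm] using hu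
  refine ⟨_, _, (KD n p).X, PI.init (r := .inr 0) (φ := Sum.elim (fun _ => .inr 0) .inr) w w' rfl
    (by simp [KD]) (fun u hu _ v hv _ => ?_) (fun u hu _ _ => ?_) fun u hu _ => ?_,
    Fr.init (fun _ => id) (by simp [KD]), H 0, ?_, ?_⟩
  · obtain ⟨i, rfl⟩ := x u hu
    obtain ⟨k, rfl⟩ := x v hv
    simp
  · obtain ⟨i, rfl⟩ := x u hu
    rfl
  · obtain ⟨i, rfl⟩ := x u hu
    simp [KD]
  · have := H' 0
    simp only [List.map_map, ek_eq, Function.comp_def, Sum.elim_inr] at this ⊢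
    exact this
  · exact List.eq_replicate_iff.2 ⟨by simp, List.forall_mem_map.2 fun y hy =>
      decide_eq_true ((H 0).mem1.2 hy)⟩

open Classical in
theorem disc_cmp (p R : ℕ) (E : ∀ n, Perm (DD n p) → Prop)
    (hE : ∀ n n', 1 ≤ n → 1 ≤ n' → ∀ a ∈ DiscS n p, ∀ a' ∈ DiscS n' p,
      Same a (poly n p) (.inr 0) a' (poly n' p) (.inr 0) R → E n a → E n' a') {ε : ℝ} (hε : 0 < ε) :
    ∀ᶠ i : ℕ × ℕ in atTop, (((DiscS i.1 p).filter (E i.1)).card : ℝ) / (DiscS i.1 p).card ≤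
      ((DiscS i.2 p).filter (E i.2)).card / (DiscS i.2 p).card + ε := by
  filter_upwards [sph_zero (D := fun i : ℕ × ℕ => DD i.1 p) (D' := fun i => DD i.2 p)
    (fun i => poly i.1 p) (fun i => poly i.2 p) (fun _ => .inr 0) (fun _ => .inr 0) tfst tsnd R
    (2 * p + 2) 0 ⟨p + 1, by ring⟩ (by omega) ε hε, eventually_ge_atTop (p + 1, p + 1)] with i h hi
  obtain ⟨-, m, e, -⟩ := KD_spec i.1 p
  obtain ⟨-, m', e', -⟩ := KD_spec i.2 p
  have h1 : p + 1 ≤ i.1 := hi.1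
  have h2 : p + 1 ≤ i.2 := hi.2
  rw [← e, ← e']
  exact ratio_le (e ▸ disc_ne (by omega)) (e' ▸ disc_ne (by omega)) (h _ _ _ _
    ⟨sp_init _ _ p, m.ge, m'.ge, fun g g' hg hg' => hE _ _ (by omega) (by omega)
      g (e ▸ one_ok.1 hg) g' (e' ▸ one_ok.1 hg')⟩)

open Classical in
theorem h2 : ∀ R P, LocalP R P → ∀ p, CauchySeq fun n =>
    (((DiscS n p).filter fun a => P _ a (poly n p) (.inr 0)).card : ℝ) / (DiscS n p).card :=
  fun R P hP p => cauchy_of fun _ hε => disc_cmp p R (fun n a => P _ a (poly n p) (.inr 0))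
    (fun _ _ _ _ _ _ _ _ s => hP _ _ _ _ _ _ _ _ s) hε

lemma ext0 {n : ℕ} {z : DD n 0} : z ∈ extS n 0 ↔ z = .inr 0 ∨ z = poly n 0 (.inr 0) := by
  rw [Sph.fx]
  rcases Sph.dd_cases z with rfl | rfl | ⟨u, rfl⟩ <;> simp [extS]

lemma mir0 {n : ℕ} {z : DD n 0} (h : z ∈ extS n 0) : mirF n 0 z = poly n 0 z := by
  rcases Sph.dd_cases z with rfl | rfl | ⟨u, rfl⟩
  exacts [Sph.fx.symm, Sph.fy.symm, by simp [extS] at h]

lemma ext_rl {n n' N k : ℕ} {a : Perm (DD n 0)} {a' : Perm (DD n' 0)}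
    (s : Same a (poly n 0) (.inr 0) a' (poly n' 0) (.inr 0) N) {z z'}
    (h : Rl a (poly n 0) (.inr 0) a' (poly n' 0) (.inr 0) k z z') (e : k + 1 ≤ N)
    (hz : z ∈ extS n 0) : z' ∈ extS n' 0 := by
  have r0 : Rl a (poly n 0) (.inr 0) a' (poly n' 0) (.inr 0) 0 (.inr 0) (.inr 0) :=
    ⟨1, by simp, by simp, by simp⟩
  rcases ext0.1 hz with rfl | rfl
  exacts [ext0.2 (Or.inl (s.uniq h r0 (by omega))), ext0.2 (Or.inr (s.uniq h r0.sf (by omega)))]

lemma fold_in {n : ℕ} (hn : 1 ≤ n) {a : Perm (DD n 0)} (ha : a ∈ DiscS n 0) {y} (hy : y ∉ extS n 0) :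
    (foldP a)⁻¹ y = foldP a y ∧ foldP a y ∉ extS n 0 ∧ poly n 0 y ∉ extS n 0 ∧
      (poly n 0)⁻¹ y ∉ extS n 0 ∧ (a y ∉ extS n 0 → foldP a y = a y) ∧
      (a y ∈ extS n 0 → foldP a y = a (poly n 0 (a y))) := by
  obtain ⟨h1, h2⟩ := foldP_apply hn ha y
  rw [zipf, if_neg hy] at h1
  refine ⟨inv_eq_iff_eq.2 h2.symm, ?_, ?_, ?_, fun c => by rw [h1, if_neg c],
    fun c => by rw [h1, if_pos c, mir0 c]⟩
  · rw [h1]
    split_ifs with c
    · obtain ⟨i, e⟩ := c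
      rintro ⟨j, e'⟩
      rw [← e] at e'
      exact disc_nondeg hn ha _ j e'.symm
    · exact c
  all_goals
    rcases y with u | i
    · rintro ⟨j, e⟩; cases e
    · exact absurd ⟨i, rfl⟩ hy

lemma same_fold {n n' R : ℕ} (hn : 1 ≤ n) (hn' : 1 ≤ n') {a : Perm (DD n 0)} {a' : Perm (DD n' 0)}
    (ha : a ∈ DiscS n 0) (ha' : a' ∈ DiscS n' 0)
    (s : Same a (poly n 0) (.inr 0) a' (poly n' 0) (.inr 0) (3 * R + 4)) :
    Same (foldP a) (poly n 0) (a (ek n 0 (-1))) (foldP a') (poly n' 0) (a' (ek n' 0 (-1))) R := by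
  have r0 : Rl a (poly n 0) (.inr 0) a' (poly n' 0) (.inr 0) 0 (.inr 0) (.inr 0) :=
    ⟨1, by simp, by simp, by simp⟩
  have r2 : Rl a (poly n 0) (.inr 0) a' (poly n' 0) (.inr 0) 2 (a (ek n 0 (-1)))
      (a' (ek n' 0 (-1))) := by
    rw [ek, ek, zpow_neg_one, zpow_neg_one]; exact r0.sg.sb
  have i0 : ∀ {n}, 1 ≤ n → ∀ a ∈ DiscS n 0, a (ek n 0 (-1)) ∉ extS n 0 := fun hn a ha ⟨j, e⟩ =>
    disc_nondeg hn ha 1 j (by rw [e, Sph.ek_neg])
  intro w hw
  have k := (act_ind (b := foldP a) (f := poly n 0) (b' := foldP a') (f' := poly n' 0)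
    (Q := fun m y y' => y ∉ extS n 0 ∧ y' ∉ extS n' 0 ∧ (m ≤ R →
      Rl a (poly n 0) (.inr 0) a' (poly n' 0) (.inr 0) (3 * m + 2) y y'))
    ⟨i0 hn a ha, i0 hn' a' ha', fun _ => r2⟩ (fun m y y' ⟨c, c', e⟩ => by
      obtain ⟨a1, a2, a3, a4, a5, a6⟩ := fold_in hn ha c
      obtain ⟨b1, b2, b3, b4, b5, b6⟩ := fold_in hn' ha' c'
      have z : m + 1 ≤ R → Rl a (poly n 0) (.inr 0) a' (poly n' 0) (.inr 0) (3 * (m + 1) + 2)
          (foldP a y) (foldP a' y') := fun l => by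
        have e1 := (e (by omega)).sb
        by_cases d : a y ∈ extS n 0
        · rw [a6 d, b6 (ext_rl s e1 (by omega) d)]
          exact e1.sf.sb
        · rw [a5 d, b5 fun d' => d (ext_rl s.symm e1.symm (by omega) d')]
          exact e1.mono (by omega)
      rw [a1, b1]
      exact ⟨⟨a2, b2, z⟩, ⟨a2, b2, z⟩, ⟨a3, b3, fun l => (e (by omega)).sf.mono (by omega)⟩,
        a4, b4, fun l => (e (by omega)).sg.mono (by omega)⟩) w).2.2 hw
  exact ⟨fun e => s.uniq (e ▸ k) r2 (by omega), fun e => s.symm.uniq (e ▸ k.symm) r2.symm (by omega)⟩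

open Classical in
theorem h1 : ∀ R P, LocalP R P → CauchySeq fun n =>
    (((SphS n).filter fun x => P _ x.1 (sq n) x.2).card : ℝ) / (SphS n).card :=
  fun R P hP => cauchy_of fun _ hε => by
    filter_upwards [disc_cmp 0 (3 * R + 4) (fun n a => P _ (foldP a) (poly n 0) (a (ek n 0 (-1))))
      (fun _ _ hn hn' _ ha _ ha' s => hP _ _ _ _ _ _ _ _ (same_fold hn hn' ha ha' s)) hε,
      eventually_ge_atTop (1, 1)] with i h hi
    rwa [(sphere_card hi.1 R P hP).1, (sphere_card hi.1 R P hP).2, (sphere_card hi.2 R P hP).1,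
      (sphere_card hi.2 R P hP).2]

/-- consecutive exterior darts -/
def EL (n p : ℕ) (s : ℤ) (m : ℕ) : List (DD n p) := (List.range m).map fun i : ℕ => ek n p (s + i)

lemma EL_add (n p : ℕ) (s : ℤ) (a b : ℕ) : EL n p s (a + b) = EL n p s a ++ EL n p (s + a) b := by
  simp [EL, List.range_add, Function.comp_def, add_assoc]

lemma mem_EL {n p : ℕ} {s : ℤ} {m : ℕ} {u} :
    u ∈ EL n p s m ↔ ∃ k, s ≤ k ∧ k < s + m ∧ u = ek n p k := by
  simp only [EL, List.mem_map, List.mem_range]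
  refine ⟨fun ⟨i, h, e⟩ => ⟨_, by omega, by omega, e.symm⟩, fun ⟨k, a, b, e⟩ =>
    ⟨(k - s).toNat, by omega, by rw [e]; congr 1; omega⟩⟩

lemma hole_win (n : ℕ) {p q : ℕ} (h : q ≤ p) : Holes (KD n p)
    [EL n p 0 1 ++ (EL n p 1 q ++ EL n p (q + 1) (2 * p + 1 - 2 * q) ++ EL n p (-q) q)] := by
  have H : Holes (KD n p) [EL n p (-q) (2 * p + 2)] := (KD_spec n p).2.2.2 _
  rw [show 2 * p + 2 = q + (1 + (q + (2 * p + 1 - 2 * q))) by omega, EL_add, EL_add, EL_add] at H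
  simpa [add_comm] using H.comm

lemma hp_init (n : ℕ) {p p' q : ℕ} (h : q ≤ p) (h' : q ≤ p') : HP (poly n p) (poly n p') (.inr 0)
    (.inr 0) (List.replicate 1 true) 0 q 2 (St.one (KD n p)) (St.one (KD n p')) := by
  have H := hole_win n h
  have H' := hole_win n h'
  have iq : ∀ {p}, q ≤ p → ∀ k k' : ℤ, -q ≤ k → k ≤ q → -q ≤ k' → k' ≤ q → ek n p k = ek n p k' →
      k = k' := fun h k k' _ _ _ _ e => by
    have := Int.eq_zero_of_abs_lt_dvd ((ek_eq_iff _ _ _ _).1 e) (by rw [abs_lt]; omega)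
    omega
  obtain ⟨φ, e⟩ := exists_map_eq (EL n p (-q) (2 * q + 1)) (EL n p' (-q) (2 * q + 1))
    (List.nodup_range.map_on fun i hi j hj e => by
      rw [List.mem_range] at hi hj
      have := iq h _ _ (by omega) (by omega) (by omega) (by omega) e
      omega) (by simp [EL])
  have e1 : ∀ k : ℤ, -q ≤ k → k ≤ q → φ (ek n p k) = ek n p' k := fun k a b => by
    rw [EL, EL, List.map_map, List.map_inj_left] at e
    have := e (k + q).toNat (by rw [List.mem_range]; omega)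
    rwa [Function.comp, show -(q : ℤ) + ((k + q).toNat : ℕ) = k by omega] at this
  have e2 : ∀ (s : ℤ) m, -q ≤ s → s + (m : ℕ) ≤ q + 1 → (EL n p s m).map φ = EL n p' s m :=
    fun s m a b => by
      rw [EL, EL, List.map_map, List.map_inj_left]
      exact fun i hi => e1 _ (by omega) (by rw [List.mem_range] at hi; omega)
  have x : ∀ u ∈ (KD n p).X, u ∉ EL n p (q + 1) (2 * p + 1 - 2 * q) →
      ∃ k : ℤ, -q ≤ k ∧ k ≤ q ∧ u = ek n p k := fun u hu c => by
    have := H.mem1.1 hu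
    simp only [List.mem_append, c, or_false, mem_EL] at this
    rcases this with ⟨k, a, b, e⟩ | ⟨k, a, b, e⟩ | ⟨k, a, b, e⟩ <;>
      exact ⟨k, by omega, by omega, e⟩
  have r0 : ∀ p, ek n p 0 = .inr 0 := fun p => by simp [ek]
  have l0 : EL n p 0 1 = [.inr 0] := by simp [EL, r0]
  have pi := PI.init (KD_spec n p).1 (KD_spec n p').1 rfl (r := .inr 0) (φ := φ)
    (Fa := {u | u ∈ EL n p (q + 1) (2 * p + 1 - 2 * q)}) (by simp [KD])
    (fun u hu nu v hv nv => by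
      obtain ⟨k, a, b, rfl⟩ := x u hu nu
      obtain ⟨k', a', b', rfl⟩ := x v hv nv
      rw [e1 k a b, e1 k' a' b']
      exact fun e => by rw [iq h' k k' a b a' b' e])
    (fun u hu nu nf => by
      obtain ⟨k, a, b, rfl⟩ := x u hu nu
      change poly n p' _ = φ (poly n p _)
      change poly n p _ ∉ _ at nf
      rw [ek_succ] at nf ⊢
      have : k + 1 ≤ q := by
        by_contra c
        exact nf (mem_EL.2 ⟨_, by omega, by omega, rfl⟩)
      rw [e1 k a b, e1 _ (by omega) this, ek_succ])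
    (fun u hu nu => by
      obtain ⟨k, a, b, rfl⟩ := x u hu nu
      rw [e1 k a b, ek_eq]; simp [KD])
  rw [← r0 p, e1 0 (by omega) (by omega), r0, r0] at pi
  refine ⟨φ, _, _, _, EL n p' (q + 1) (2 * p' + 1 - 2 * q), _, {.inr 0}, pi,
    Fr.init (by simp [KD]) (by simp), H, ?_, by simp [l0], fun u hu c => ?_,
    fun A y z B c => ?_, by simp [EL], by simp [EL]⟩
  · rw [e2 _ _ (by omega) (by omega), e2 _ _ (by omega) (by omega), e2 _ _ (by omega) (by omega)]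
    exact H'
  · exact (List.nodup_append.1 (H.cyc _ List.mem_cons_self).1).2.2 u (by simpa [l0] using c) u hu rfl
  · have := H.cyc _ List.mem_cons_self
    rw [c, ← List.append_assoc] at this
    exact this.next

open Classical in
theorem h3 : ∀ R P, LocalP R P → ∀ ε : ℝ, 0 < ε → ∃ p0, ∀ p ≥ p0, ∀ p' ≥ p0, ∀ᶠ n in atTop,
    (((DiscS n p).filter fun a => P _ a (poly n p) (.inr 0)).card : ℝ) / (DiscS n p).card ≤
    (((DiscS n p').filter fun a => P _ a (poly n p') (.inr 0)).card : ℝ) / (DiscS n p').card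
      + ε := by
  intro R P hP ε hε
  have t : ∀ π : ℕ × ℕ → ℕ, Tendsto π atTop atTop → Tendsto (fun i : (ℕ × ℕ) × ℕ => (π i.1, i.2))
      (Filter.curry atTop atTop) FH := fun π hπ s hs =>
    eventually_curry_iff.2 (hπ.eventually (evH.1 hs))
  have tq : Tendsto (fun i : (ℕ × ℕ) × ℕ => min i.1.1 i.1.2) (Filter.curry atTop atTop) atTop :=
    tendsto_atTop.2 fun a => eventually_curry_iff.2 ((eventually_ge_atTop (a, a)).mono
      fun i hi => Eventually.of_forall fun _ => le_min hi.1 hi.2)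
  obtain ⟨⟨a, b⟩, e⟩ := eventually_atTop.1 (eventually_curry_iff.1
    (ext_zero (D := fun i : (ℕ × ℕ) × ℕ => DD i.2 i.1.1) (D' := fun i => DD i.2 i.1.2)
      (fun i => poly i.2 i.1.1) (fun i => poly i.2 i.1.2) (fun _ => .inr 0) (fun _ => .inr 0)
      (t _ tfst) (t _ tsnd) tq R (R + 1) 0 (by omega) 1 2 le_rfl ε hε))
  refine ⟨max a b, fun p hp p' hp' => ?_⟩
  filter_upwards [e (p, p') ⟨le_of_max_le_left hp, le_of_max_le_right hp'⟩, hD p, hD p']
    with n h d d'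
  obtain ⟨-, m, e, H⟩ := KD_spec n p
  obtain ⟨-, m', e', H'⟩ := KD_spec n p'
  have l := (H 0).len
  have l' := (H' 0).len
  rw [List.length_map, List.length_range] at l l'
  rw [← e, ← e']
  exact ratio_le (e ▸ d) (e' ▸ d') (h _ _ _ _ ⟨hp_init n (min_le_left _ _) (min_le_right _ _),
    show SzH 2 (p, n) (KD n p).m (KD n p).X.card from ⟨by simp [m], by simp [← l]; omega, l.ge⟩,
    show SzH 2 (p', n) (KD n p').m (KD n p').X.card from ⟨by simp [m'], by simp [← l']; omega, l'.ge⟩,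
    fun _ _ _ _ s => hP _ _ _ _ _ _ _ _ s⟩)

end Pool.Agent.Lib.MP_abd955_pr.XX
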