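import Pool.Agent.Lib.MP_abd955_pr.XE
import Pool.Agent.Lib.MP_abd955_pr.ExistB

/-! Existence of the local limits. -/

namespace Pool.Agent.Lib.MP_abd955_pr

open MeasureTheory ProbabilityTheory Filter

theorem limits_exist : ∃ (Q H : Measure Om) (Hp : ℕ → Measure Om),
    Lim (fun n => uniformOn (sphere n)) Q ∧ (∀ p, Lim (fun n => uniformOn (disc n p)) (Hp p)) ∧
      Lim Hp H :=
  exists_lim XX.hD XX.hS XX.h1 XX.h2 XX.h3

end Pool.Agent.Lib.MP_abd955_pr
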