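import Pool.Agent.Lib.MP_abd955_pr.CoreDefs

/-! Zipping two boundary darts, gluing holes along a segment. -/

namespace Pool.Agent.Lib.MP_abd955_pr

open Equiv Equiv.Perm Finset

set_option linter.unusedSectionVars false

variable {D : Type} [DecidableEq D] [Fintype D]

/-- the gluing in which the partners of x and y are glued to each other -/
def zb (a : Perm D) (x y : D) : Perm D := swap (a x) y * a * swap (a x) y

structure ZOk (a : Perm D) (x y : D) : Prop where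
  xy : x ≠ y
  ax : a (a x) = x
  ay : a (a y) = y
  nx : a x ≠ x
  ny : a y ≠ y
  nxy : a x ≠ y

namespace ZOk

variable {a : Perm D} {x y : D} (h : ZOk a x y)
include h

lemma nyx : a y ≠ x := fun e => h.nxy (by rw [← e, h.ay])
lemma axy : a y ≠ a x := fun e => h.xy (a.injective e).symm

lemma z_x : zb a x y x = y := by
  simp [zb, swap_apply_of_ne_of_ne h.nx.symm h.xy]

lemma z_y : zb a x y y = x := by
  simp [zb, h.ax, swap_apply_of_ne_of_ne h.nx.symm h.xy]

lemma z_ax : zb a x y (a x) = a y := by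
  simp [zb, swap_apply_of_ne_of_ne h.axy h.ny]

lemma z_ay : zb a x y (a y) = a x := by
  simp [zb, h.ay, swap_apply_of_ne_of_ne h.axy h.ny]

lemma z_of {u : D} (h1 : u ≠ x) (h2 : u ≠ y) (h3 : u ≠ a x) (h4 : u ≠ a y) :
    zb a x y u = a u := by
  have e1 : a u ≠ a x := a.injective.ne h1
  have e2 : a u ≠ y := fun e => h4 (a.injective (e.trans h.ay.symm))
  simp [zb, swap_apply_of_ne_of_ne h3 h2, swap_apply_of_ne_of_ne e1 e2]

lemma cases (u : D) : u = x ∨ u = y ∨ u = a x ∨ u = a y ∨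
    (u ≠ x ∧ u ≠ y ∧ u ≠ a x ∧ u ≠ a y ∧ zb a x y u = a u) := by
  by_cases h1 : u = x
  · exact Or.inl h1
  by_cases h2 : u = y
  · exact Or.inr (Or.inl h2)
  by_cases h3 : u = a x
  · exact Or.inr (Or.inr (Or.inl h3))
  by_cases h4 : u = a y
  · exact Or.inr (Or.inr (Or.inr (Or.inl h4)))
  exact Or.inr (Or.inr (Or.inr (Or.inr ⟨h1, h2, h3, h4, h.z_of h1 h2 h3 h4⟩)))

variable {g : Perm D} (gx : g x = y) (gy : g y = x)
include gx gy

lemma n1 : g (a x) ≠ x := fun e => h.nxy (g.injective (e.trans gy.symm))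
lemma n2 : g (a x) ≠ y := fun e => h.nx (g.injective (e.trans gx.symm))
lemma n3 : g (a y) ≠ x := fun e => h.ny (g.injective (e.trans gy.symm))
lemma n4 : g (a y) ≠ y := fun e => h.nyx (g.injective (e.trans gx.symm))

lemma e1 : (swap x ((g * a) x) * (g * a)) y = g (a y) := by
  simp [swap_apply_of_ne_of_ne (h.n3 gx gy) (g.injective.ne h.axy)]

lemma mul_eq : g * zb a x y = swap y ((swap x ((g * a) x) * (g * a)) y) *
    (swap x ((g * a) x) * (g * a)) := by
  rw [h.e1 gx gy]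
  have n1 := h.n1 gx gy
  have n2 := h.n2 gx gy
  have n3 := h.n3 gx gy
  have n5 := g.injective.ne h.axy
  ext u
  simp only [Perm.mul_apply]
  rcases h.cases u with rfl | rfl | rfl | rfl | ⟨h1, h2, h3, h4, h5⟩
  · rw [h.z_x, gy, swap_apply_right, swap_apply_of_ne_of_ne h.xy n3.symm]
  · rw [h.z_y, gx, swap_apply_of_ne_of_ne n3 n5, swap_apply_right]
  · rw [h.z_ax, h.ax, gx, swap_apply_of_ne_of_ne h.xy.symm n2.symm, swap_apply_left]
  · rw [h.z_ay, h.ay, gy, swap_apply_left, swap_apply_of_ne_of_ne n2 n5.symm]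
  · have c1 : g (a u) ≠ x := fun e =>
      h4 (a.injective ((g.injective (e.trans gy.symm)).trans h.ay.symm))
    have c2 : g (a u) ≠ y := fun e =>
      h3 (a.injective ((g.injective (e.trans gx.symm)).trans h.ax.symm))
    rw [h5, swap_apply_of_ne_of_ne c1 (g.injective.ne (a.injective.ne h1)),
      swap_apply_of_ne_of_ne c2 (g.injective.ne (a.injective.ne h2))]

lemma sc_zb {p q : D} (b1 : p ≠ x) (b2 : p ≠ y) (b3 : q ≠ x) (b4 : q ≠ y) :
    (g * zb a x y).SameCycle p q ↔ (g * a).SameCycle p q := by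
  rw [h.mul_eq gx gy, sc_excise (by rw [h.e1 gx gy]; exact h.n4 gx gy) b2 b4,
    sc_excise (h.n1 gx gy) b1 b3]

lemma cnt_zb {U : Finset D} (u1 : g (a x) ∈ U) (u2 : g (a y) ∈ U) :
    cnt (sc (g * zb a x y)) ((U.erase x).erase y) = cnt (sc (g * a)) U := by
  rw [h.mul_eq gx gy]
  refine (cnt_excise (by rw [h.e1 gx gy]; exact h.n4 gx gy) ?_).trans
    (cnt_excise (h.n1 gx gy) u1)
  rw [h.e1 gx gy]; exact mem_erase.2 ⟨h.n3 gx gy, u2⟩

end ZOk

/-- forget a hole of length two -/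
def Cfg.rm (K : Cfg D) (x y : D) : Cfg D := ⟨(K.U.erase x).erase y, (K.X.erase x).erase y, K.f⟩

lemma mem_rmU {K : Cfg D} {x y z : D} : z ∈ (K.rm x y).U ↔ z ≠ y ∧ z ≠ x ∧ z ∈ K.U := by
  simp [Cfg.rm]

lemma mem_rmX {K : Cfg D} {x y z : D} : z ∈ (K.rm x y).X ↔ z ≠ y ∧ z ≠ x ∧ z ∈ K.X := by
  simp [Cfg.rm]

lemma WF.rm {K : Cfg D} (h : WF K) {x y : D} (gx : K.f x = y) (gy : K.f y = x) :
    WF (K.rm x y) := by
  have n : ∀ z, z ≠ y → z ≠ x → K.f z ≠ y ∧ K.f z ≠ x := fun z h1 h2 =>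
    ⟨fun e => h2 (K.f.injective (e.trans gx.symm)), fun e => h1 (K.f.injective (e.trans gy.symm))⟩
  refine ⟨fun z hz => ?_, fun z hz => ?_, fun z hz => ?_, fun z hz hz' => ?_⟩
  · obtain ⟨h1, h2, h3⟩ := mem_rmX.1 hz
    exact mem_rmU.2 ⟨h1, h2, h.sub h3⟩
  · obtain ⟨h1, h2, h3⟩ := mem_rmU.1 hz
    exact mem_rmU.2 ⟨(n z h1 h2).1, (n z h1 h2).2, h.fU z h3⟩
  · obtain ⟨h1, h2, h3⟩ := mem_rmX.1 hz
    exact mem_rmX.2 ⟨(n z h1 h2).1, (n z h1 h2).2, h.fX z h3⟩
  · obtain ⟨h1, h2, h3⟩ := mem_rmU.1 hz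
    exact h.four z h3 fun e => hz' (mem_rmX.2 ⟨h1, h2, e⟩)

lemma Holes.rm {K : Cfg D} {x y : D} {ls : List (List D)} (h : Holes K ([y, x] :: ls)) :
    Holes (K.rm x y) ls := by
  have nd := h.nd
  simp only [List.flatten_cons, List.cons_append, List.nil_append, List.nodup_cons,
    List.mem_cons, not_or] at nd
  refine ⟨fun l hl => h.cyc l (List.mem_cons_of_mem _ hl), nd.2.2, fun z => ?_⟩
  rw [mem_rmX, h.mem]
  simp only [List.flatten_cons, List.cons_append, List.nil_append, List.mem_cons]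
  constructor
  · rintro ⟨h1, h2, h3 | h3 | h3⟩
    exacts [absurd h3 h1, absurd h3 h2, h3]
  · intro h3
    exact ⟨fun e => nd.1.2 (e ▸ h3), fun e => nd.2.1 (e ▸ h3), Or.inr (Or.inr h3)⟩

lemma Pre.mono {K : Cfg D} {Y Y' : Finset D} {a : Perm D} (p : Pre K Y a) (h : Y' ⊆ Y) :
    Pre K Y' a := ⟨p.inv, fun x hx y hy => p.simp x (h hx) y (h hy), p.con, p.eul⟩

theorem zip2 {K : Cfg D} (h : WF K) {x y : D} (hx : x ∈ K.X) (hy : y ∈ K.X) (gx : K.f x = y)
    (gy : K.f y = x) {a : Perm D} (ok : ZOk a x y)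
    (hi : ∀ z ∈ K.U, a z ∈ K.U ∧ a (a z) = z ∧ a z ≠ z)
    (hc : ∀ u ∈ K.U, ∃ z ∈ K.X, conn a K.f u z)
    (hS : ∀ p ∈ (K.rm x y).X, ∀ q ∈ (K.rm x y).X, (K.f * a).SameCycle p q → p = q)
    (hC : ∃ w ∈ (K.rm x y).X, (K.f * a).SameCycle y w)
    (hE : 2 * cnt (sc (K.f * a)) K.U + 4 = 2 * cnt (sc K.f) K.U + K.X.card) :
    Pre (K.rm x y) (K.rm x y).X (zb a x y) := by
  have ux := (hi x (h.sub hx)).1
  have uy := (hi y (h.sub hy)).1
  refine ⟨fun z hz => ?_, fun p hp q hq e => ?_, fun u hu => ?_, ?_⟩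
  · obtain ⟨h1, h2, h3⟩ := mem_rmU.1 hz
    rcases ok.cases z with rfl | rfl | rfl | rfl | ⟨-, -, c3, c4, c5⟩
    · exact absurd rfl h2
    · exact absurd rfl h1
    · rw [ok.z_ax, ok.z_ay]; exact ⟨mem_rmU.2 ⟨ok.ny, ok.nyx, uy⟩, rfl, ok.axy⟩
    · rw [ok.z_ay, ok.z_ax]; exact ⟨mem_rmU.2 ⟨ok.nxy, ok.nx, ux⟩, rfl, ok.axy.symm⟩
    · obtain ⟨i1, i2, i3⟩ := hi z h3
      have d1 : a z ≠ x := fun e => c3 (by rw [← e, i2])
      have d2 : a z ≠ y := fun e => c4 (by rw [← e, i2])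
      rw [c5, ok.z_of d1 d2 (a.injective.ne h2) (a.injective.ne h1)]
      exact ⟨mem_rmU.2 ⟨d2, d1, i1⟩, i2, i3⟩
  · obtain ⟨h1, h2, -⟩ := mem_rmX.1 hp
    obtain ⟨h3, h4, -⟩ := mem_rmX.1 hq
    exact hS p hp q hq ((ok.sc_zb gx gy h2 h1 h4 h3).1 e)
  · obtain ⟨h1, h2, h3⟩ := mem_rmU.1 hu
    obtain ⟨z, hz, c⟩ := hc u h3
    obtain ⟨w, hw, cw⟩ := hC
    set b := zb a x y with hb
    set G : D → Prop := fun z => ∃ w ∈ (K.rm x y).X, conn b K.f z w with hG
    have Gb : ∀ z, G z ↔ G (b z) := fun z => exists_congr fun y => and_congr_right fun _ =>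
      ⟨(conn b _).trans ((conn b _).symm (conn_a b _ z)), (conn b _).trans (conn_a b _ z)⟩
    have Gf : ∀ z, G z ↔ G (K.f z) := fun z => exists_congr fun y => and_congr_right fun _ =>
      ⟨(conn b _).trans ((conn b _).symm (conn_f b _ z)), (conn b _).trans (conn_f b _ z)⟩
    have g1 : G (a x) := by
      obtain ⟨w1, w2, -⟩ := mem_rmX.1 hw
      refine ⟨w, hw, conn_of_sc ((ok.sc_zb gx gy ok.nx ok.nxy w2 w1).2 ?_)⟩
      have := sc_step (K.f * a) (a x)
      rw [Perm.mul_apply, ok.ax, gx] at this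
      exact this.trans cw
    have g2 : G (a y) := ok.z_ax ▸ (Gb _).1 g1
    have gX : ∀ z ∈ K.X, z = x ∨ z = y ∨ G z := by
      intro z hz
      by_cases e1 : z = x
      · exact Or.inl e1
      by_cases e2 : z = y
      · exact Or.inr (Or.inl e2)
      exact Or.inr (Or.inr ⟨z, mem_rmX.2 ⟨e2, e1, hz⟩, (conn b _).refl _⟩)
    have key := (conn_of_on (⟨fun p q : Prop => p ↔ q, ⟨fun _ => Iff.rfl, Iff.symm, Iff.trans⟩⟩ :
      Setoid Prop) (fun z => z = x ∨ z = y ∨ G z) (fun z hz => (hi z hz).1) h.fU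
      (fun z hz => ?_) (fun z _ => ?_) h3 c).2 (gX z hz)
    · rcases key with e | e | e
      exacts [absurd e h2, absurd e h1, e]
    · rcases ok.cases z with rfl | rfl | rfl | rfl | ⟨c1, c2, c3, c4, c5⟩
      · exact iff_of_true (Or.inl rfl) (Or.inr (Or.inr g1))
      · exact iff_of_true (Or.inr (Or.inl rfl)) (Or.inr (Or.inr g2))
      · exact iff_of_true (Or.inr (Or.inr g1)) (Or.inl ok.ax)
      · exact iff_of_true (Or.inr (Or.inr g2)) (Or.inr (Or.inl ok.ay))
      · have i2 := (hi z hz).2.1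
        have d1 : a z ≠ x := fun e => c3 (by rw [← e, i2])
        have d2 : a z ≠ y := fun e => c4 (by rw [← e, i2])
        change _ ↔ _
        simp only [c1, c2, d1, d2, false_or]
        rw [← c5]; exact Gb z
    · change _ ↔ _
      by_cases e1 : z = x
      · exact iff_of_true (Or.inl e1) (Or.inr (Or.inl (e1 ▸ gx)))
      by_cases e2 : z = y
      · exact iff_of_true (Or.inr (Or.inl e2)) (Or.inl (e2 ▸ gy))
      have d1 : K.f z ≠ x := fun e => e2 (K.f.injective (e.trans gy.symm))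
      have d2 : K.f z ≠ y := fun e => e1 (K.f.injective (e.trans gx.symm))
      simp only [e1, e2, d1, d2, false_or]
      exact Gf z
  · have c1 := ok.cnt_zb gx gy (h.fU _ ux) (h.fU _ uy)
    have c2 := cnt_two (h.sub hx) gx gy
    have c3 := card_erase_add_one hx
    have c4 := card_erase_add_one (mem_erase.2 ⟨ok.xy.symm, hy⟩)
    simp only [Cfg.rm]
    omega

/-- zipping two consecutive boundary darts -/
theorem zip_adj {K : Cfg D} (h : WF K) {x y : D} {C : List D} {ls : List (List D)} (hC : C ≠ [])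
    (hl : Holes K ((y :: x :: C) :: ls)) :
    ∃ K' : Cfg D, WF K' ∧ Holes K' (C :: ls) ∧ K'.U = (K.U.erase x).erase y ∧ K'.X ⊆ K.X ∧
      (∀ u, u ∉ K.X → K'.f u = K.f u) ∧
      ∀ a, Pre K (K.X.erase x) a → a x ≠ y → ZOk a x y ∧ Pre K' K'.X (zb a x y) := by
  obtain ⟨c, C, rfl⟩ := List.exists_cons_of_ne_nil hC
  have hx : x ∈ K.X := hl.sub List.mem_cons_self (by simp)
  have hy : y ∈ K.X := hl.sub List.mem_cons_self (by simp)
  have hc : c ∈ K.X := hl.sub List.mem_cons_self (by simp)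
  have cy := hl.cyc _ List.mem_cons_self
  have nd := cy.1
  simp only [List.nodup_cons, List.mem_cons, not_or] at nd
  have yx : y ≠ x := nd.1.1
  have yc : y ≠ c := nd.1.2.1
  have xc : x ≠ c := nd.2.1.1
  have h1 : Holes (K.sw y c) ([y, x] :: (c :: C) :: ls) := Holes.split (B := [x]) hl
  have w1 := h.sw hy hc
  have c1 := h1.cyc _ List.mem_cons_self
  have gy : (K.sw y c).f y = x := c1.next (A := [])
  have gx : (K.sw y c).f x = y := c1.last (A := [])
  refine ⟨(K.sw y c).rm x y, w1.rm gx gy, h1.rm, rfl, fun z hz => (mem_rmX.1 hz).2.2,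
    fun u hu => h.sw_inner hy hc hu, fun a p hxy => ?_⟩
  have ix := p.inv x (h.sub hx)
  have iy := p.inv y (h.sub hy)
  have ok : ZOk a x y := ⟨yx.symm, ix.2.1, iy.2.1, ix.2.2, iy.2.2, hxy⟩
  have my := mem_erase.2 ⟨yx, hy⟩
  have mc := mem_erase.2 ⟨xc.symm, hc⟩
  have n : ¬(K.f * a).SameCycle y c := fun e => yc (p.simp y my c mc e)
  have j := sc_join n
  have hσ : (K.sw y c).f * a = swap y c * (K.f * a) := mul_assoc _ _ _
  refine ⟨ok, zip2 w1 hx hy gx gy ok p.inv (fun u hu => ?_) (fun u hu v hv e => ?_)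
    ⟨c, mem_rmX.2 ⟨yc.symm, xc.symm, hc⟩, ?_⟩ ?_⟩
  · obtain ⟨z, hz, e⟩ := p.con u hu
    exact con_change h (fun z hz => h.sw_inner hy hc hz) hz e
  · obtain ⟨u1, u2, u3⟩ := mem_rmX.1 hu
    obtain ⟨v1, v2, v3⟩ := mem_rmX.1 hv
    have mu := mem_erase.2 ⟨u2, u3⟩
    have mv := mem_erase.2 ⟨v2, v3⟩
    rw [hσ] at e
    rcases (j u v).1 e with e | ⟨e, -⟩ | ⟨-, e⟩
    · exact p.simp u mu v mv e
    · exact absurd (p.simp u mu y my e) u1
    · exact absurd (p.simp y my v mv e).symm v1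
  · rw [hσ]
    exact (j y c).2 (Or.inr (Or.inl ⟨SameCycle.refl _ _, SameCycle.refl _ _⟩))
  · have c2 := cnt_swap_join (h.sub hy) (h.sub hc) n
    have c3 := cnt_swap_split (h.sub hy) (h.sub hc) yc (cy.sc (by simp) (by simp))
    have c4 := p.eul
    rw [hσ]
    change 2 * cnt _ K.U + 4 = 2 * cnt (sc (swap y c * K.f)) K.U + K.X.card
    omega

lemma Holes.join {K : Cfg D} {u y : D} {B C : List D} {ls : List (List D)}
    (h : Holes K ((u :: B) :: (y :: C) :: ls)) :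
    Holes (K.sw u y) ((u :: (B ++ y :: C)) :: ls) := by
  have c1 := h.cyc _ List.mem_cons_self
  have c2 := h.cyc (y :: C) (by simp)
  have j := c1.join c2 fun z h1 h2 => h.disj (List.mem_cons_self) h2 h1
  have nd : ((u :: (B ++ y :: C)) :: ls).flatten.Nodup := by simpa using h.nd
  refine ⟨fun l hl => ?_, nd, fun x => (h.mem x).trans (by simp)⟩
  rcases List.mem_cons.1 hl with rfl | hl
  · exact j
  · have c := h.cyc l (by simp [hl])
    refine c.congr fun x hx => ?_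
    have : K.f x ∉ u :: (B ++ y :: C) := fun e =>
      (List.nodup_append.1 nd).2.2 _ e _ (List.mem_flatten.2 ⟨l, hl, c.mem hx⟩) rfl
    exact swap_apply_of_ne_of_ne (fun e => this (by simp [e])) fun e => this (by simp [e])

lemma Pre.join {K : Cfg D} (h : WF K) {u y : D} (hu : u ∈ K.X) (hy : y ∈ K.X) (hne : u ≠ y)
    (e : (K.sw u y).f.SameCycle u y) {a : Perm D} (p : Pre K K.X a) :
    Pre (K.sw u y) (K.X.erase u) a := by
  have := split_iff (h.sw hu hy) (Y := K.X.erase u) (erase_subset _ _) (a := a) hu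
    (notMem_erase _ _) (mem_erase.2 ⟨hne.symm, hy⟩) e
  have e2 : (K.sw u y).sw u y = K := by
    simp only [Cfg.sw, swap_mul_self_mul]
  rw [e2, insert_erase hu] at this
  exact (this.1 p).1

/-- an edge with both sides on the boundary fills its hole -/
lemma Pre.nondeg {K : Cfg D} (h : WF K) {a : Perm D} (p : Pre K K.X a) {l : List D}
    (c : Cyc K.f l) {x z : D} (hx : x ∈ K.X) (hax : a x ∈ K.X) (hl : x ∈ l) (hz : z ∈ l) :
    z = x ∨ z = a x := by
  have e1 : K.f x = a x := by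
    have := sc_step (K.f * a) (a x)
    rw [Perm.mul_apply, (p.inv x (h.sub hx)).2.1] at this
    exact (p.simp _ hax _ (h.fX x hx) this).symm
  have e2 : K.f (a x) = x := (p.simp _ hx _ (h.fX _ hax) (sc_step (K.f * a) x)).symm
  refine sc_ind (P := fun z => z = x ∨ z = a x) (c.sc hl hz) (Or.inl rfl) ?_
  rintro z (rfl | rfl)
  exacts [Or.inr e1, Or.inl e2]

lemma zipf_step {t a : Perm D} (ht : ∀ u, t (t u) = u) {x : D} (ok : ZOk a x (t x))
    {P : List D} (H : ∀ z ∈ (x :: P) ++ (x :: P).map t, a z ∉ (x :: P) ++ (x :: P).map t)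
    (nx : x ∉ P ++ P.map t) (ny : t x ∉ P ++ P.map t) :
    (∀ z ∈ P ++ P.map t, zb a x (t x) z = a z) ∧
    ∀ u, u ∉ (x :: P) ++ (x :: P).map t →
      zipf {z | z ∈ P ++ P.map t} t (zb a x (t x)) u =
        zipf {z | z ∈ (x :: P) ++ (x :: P).map t} t a u := by
  have sub : ∀ z, z ∈ (x :: P) ++ (x :: P).map t ↔ z = x ∨ z = t x ∨ z ∈ P ++ P.map t := by
    intro z
    simp only [List.map_cons, List.mem_append, List.mem_cons]
    tauto
  have mx := (sub x).2 (Or.inl rfl)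
  have my := (sub (t x)).2 (Or.inr (Or.inl rfl))
  have k1 : ∀ z ∈ P ++ P.map t, zb a x (t x) z = a z := fun z hz => by
    have mz := (sub z).2 (Or.inr (Or.inr hz))
    exact ok.z_of (fun e => nx (e ▸ hz)) (fun e => ny (e ▸ hz)) (fun e => H x mx (e ▸ mz))
      fun e => H _ my (e ▸ mz)
  have tm : ∀ z ∈ P ++ P.map t, t z ∈ P ++ P.map t := by
    intro z hz
    rcases List.mem_append.1 hz with hz | hz
    · exact List.mem_append_right _ (List.mem_map_of_mem hz)
    · obtain ⟨w, hw, rfl⟩ := List.mem_map.1 hz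
      rw [ht]; exact List.mem_append_left _ hw
  refine ⟨k1, fun u hu => ?_⟩
  have hu' : u ∉ P ++ P.map t := fun e => hu ((sub u).2 (Or.inr (Or.inr e)))
  unfold zipf
  simp only [Set.mem_ofPred_eq]
  rw [if_neg hu, if_neg hu']
  rcases ok.cases u with rfl | rfl | rfl | rfl | ⟨c1, c2, c3, c4, c5⟩
  · exact absurd mx hu
  · exact absurd my hu
  · rw [ok.z_ax, ok.ax, if_pos mx, if_neg fun e => H _ my ((sub _).2 (Or.inr (Or.inr e)))]
  · rw [ok.z_ay, ok.ay, if_pos my, ht, if_neg fun e => H _ mx ((sub _).2 (Or.inr (Or.inr e)))]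
  · rw [c5]
    by_cases e : a u ∈ P ++ P.map t
    · rw [if_pos e, if_pos ((sub _).2 (Or.inr (Or.inr e))), k1 _ (tm _ e)]
    · rw [if_neg e, if_neg]
      rw [sub]
      rintro (d | d | d)
      · exact c3 (a.injective (d.trans ok.ax.symm))
      · exact c4 (a.injective (d.trans ok.ay.symm))
      · exact e d

theorem adj_seg (t : Perm D) (ht : ∀ u, t (t u) = u) {C : List D} (hC : C ≠ [])
    {ls : List (List D)} : ∀ (P : List D) (K : Cfg D), WF K →
    Holes K (((P.map t).reverse ++ (P ++ C)) :: ls) →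
    ∃ K' : Cfg D, WF K' ∧ Holes K' (C :: ls) ∧ K'.U = K.U \ (P ++ P.map t).toFinset ∧
      (∀ u, u ∉ K.X → K'.f u = K.f u) ∧ ∀ a Y, Pre K Y a →
        (∀ z ∈ K.X, z ∈ Y ∨ P.head? = some z) → (∀ x ∈ P ++ P.map t, a x ∉ P ++ P.map t) →
        ∃ b, Pre K' K'.X b ∧ ∀ u ∈ K'.U, b u = zipf {x | x ∈ P ++ P.map t} t a u := by
  intro P
  induction P with
  | nil =>
    intro K h hl
    refine ⟨K, h, by simpa using hl, by simp, fun _ _ => rfl, fun a Y p hY _ =>
      ⟨a, p.mono fun z hz => by simpa using hY z hz, fun u _ => by simp [zipf]⟩⟩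
  | cons x P ih =>
    intro K h hl
    have hl1 : Holes K ((t x :: x :: (P ++ C ++ (P.map t).reverse)) :: ls) := by
      have : Holes K (((P.map t).reverse ++ (t x :: x :: (P ++ C))) :: ls) := by simpa using hl
      simpa using this.comm
    obtain ⟨K1, w1, h1, u1, x1, f1, p1⟩ := zip_adj h (by simp [hC]) hl1
    obtain ⟨K2, w2, h2, u2, f2, p2⟩ := ih K1 w1 h1.comm
    have nd := (hl1.cyc _ List.mem_cons_self).1
    simp only [List.nodup_cons, List.mem_cons, List.mem_append, List.mem_reverse, not_or] at nd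
    have nx : x ∉ P ++ P.map t := by
      simp only [List.mem_append, not_or]; exact ⟨nd.2.1.1.1, nd.2.1.2⟩
    have ny : t x ∉ P ++ P.map t := by
      simp only [List.mem_append, not_or]; exact ⟨nd.1.2.1.1, nd.1.2.2⟩
    have hU : K2.U = K.U \ ((x :: P) ++ (x :: P).map t).toFinset := by
      rw [u2, u1]
      ext z
      simp only [mem_sdiff, mem_erase, List.mem_toFinset, List.map_cons, List.mem_append,
        List.mem_cons]
      tauto
    refine ⟨K2, w2, h2, hU, fun u hu => (f2 u fun e => hu (x1 e)).trans (f1 u hu),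
      fun a Y p hY H => ?_⟩
    obtain ⟨ok, q1⟩ := p1 a (p.mono fun z hz => by
      rcases hY z (mem_erase.1 hz).2 with e | e
      · exact e
      · exact absurd (Option.some.inj e).symm (mem_erase.1 hz).1)
      (fun e => H x (by simp) (by simp [e]))
    obtain ⟨k1, k2⟩ := zipf_step ht ok H nx ny
    obtain ⟨b, q2, hb⟩ := p2 _ _ q1 (fun z hz => Or.inl hz) fun z hz e => by
      rw [k1 z hz] at e
      refine H z ?_ ?_ <;> simp only [List.map_cons, List.mem_append, List.mem_cons] at * <;> tauto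
    refine ⟨b, q2, fun u hu => (hb u hu).trans (k2 u ?_)⟩
    rw [hU] at hu
    simpa only [List.mem_toFinset] using (mem_sdiff.1 hu).2

/-- gluing two holes along a segment; t pairs the darts of P with those of Q -/
theorem glue_seg {K : Cfg D} (h : WF K) (t : Perm D) (ht : ∀ u, t (t u) = u) {P A B : List D}
    {ls : List (List D)} (hP : P ≠ []) (hA : A ≠ []) (hB : B ≠ [])
    (hl : Holes K ((P ++ A) :: ((P.map t).reverse ++ B) :: ls)) :
    ∃ K' : Cfg D, WF K' ∧ Holes K' ((B ++ A) :: ls) ∧ K'.U = K.U \ (P ++ P.map t).toFinset ∧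
      (∀ u ∈ K.U, u ∉ K.X → K'.f u = K.f u) ∧ ∀ a, Pre K K.X a →
        (∀ x ∈ P ++ P.map t, a x ∉ P ++ P.map t) ∧
        ∃ b, Pre K' K'.X b ∧ ∀ u ∈ K'.U, b u = zipf {x | x ∈ P ++ P.map t} t a u := by
  obtain ⟨x, P, rfl⟩ := List.exists_cons_of_ne_nil hP
  obtain ⟨v, B, rfl⟩ := List.exists_cons_of_ne_nil hB
  obtain ⟨c, A, rfl⟩ := List.exists_cons_of_ne_nil hA
  set Q := ((x :: P).map t).reverse with hQ
  have hl1 : Holes K ((x :: (P ++ c :: A)) :: (v :: (B ++ Q)) :: ls) :=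
    ((hl.perm (List.Perm.swap _ _ _)).comm).perm (List.Perm.swap _ _ _)
  have hl2 := hl1.join
  have hl3 : Holes (K.sw x v) ((Q ++ ((x :: P) ++ ((c :: A) ++ v :: B))) :: ls) := by
    have : Holes (K.sw x v) ((((x :: P) ++ ((c :: A) ++ v :: B)) ++ Q) :: ls) := by
      simpa using hl2
    exact this.comm
  have hx : x ∈ K.X := hl1.sub List.mem_cons_self (by simp)
  have hv : v ∈ K.X := hl1.sub (l := v :: (B ++ Q)) (by simp) (by simp)
  have xv : x ≠ v := fun e => hl1.disj (l' := v :: (B ++ Q)) List.mem_cons_self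
    List.mem_cons_self (e ▸ List.mem_cons_self)
  obtain ⟨K', w, h1, u1, f1, p1⟩ := adj_seg t ht (by simp) (x :: P) _ (h.sw hx hv) hl3
  refine ⟨K', w, h1.comm, u1, fun u _ hu => (f1 u hu).trans (h.sw_inner hx hv hu),
    fun a p => ?_⟩
  have mem : ∀ z ∈ (x :: P) ++ (x :: P).map t, z ∈ Q ++ (x :: P) := fun z hz => by
    rw [hQ]; simp only [List.mem_append, List.mem_reverse] at hz ⊢; tauto
  have nd := (hl3.cyc _ List.mem_cons_self).1
  rw [← List.append_assoc, List.nodup_append] at nd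
  have inX : ∀ z ∈ (x :: P) ++ (x :: P).map t, z ∈ K.X := fun z hz =>
    hl3.sub List.mem_cons_self (by
      rw [← List.append_assoc]; exact List.mem_append_left _ (mem z hz))
  have H : ∀ z ∈ (x :: P) ++ (x :: P).map t, a z ∉ (x :: P) ++ (x :: P).map t := by
    intro z hz e
    have fin : ∀ w ∈ (c :: A) ++ v :: B, ¬(w = z ∨ w = a z) := by
      rintro w hw (rfl | rfl)
      exacts [nd.2.2 _ (mem _ hz) _ hw rfl, nd.2.2 _ (mem _ e) _ hw rfl]
    rcases List.mem_append.1 hz with hz' | hz'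
    · exact fin c (by simp) (p.nondeg h (hl.cyc _ List.mem_cons_self) (inX z hz) (inX _ e)
        (List.mem_append_left _ hz') (by simp))
    · exact fin v (by simp) (p.nondeg h (hl.cyc (Q ++ v :: B) (by simp)) (inX z hz) (inX _ e)
        (List.mem_append_left _ (List.mem_reverse.2 hz')) (by simp))
  refine ⟨H, p1 a _ (p.join h hx hv xv ((hl2.cyc _ List.mem_cons_self).sc (by simp) (by simp)))
    (fun z hz => ?_) H⟩
  by_cases e : z = x
  · exact Or.inr (by simp [e])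
  · exact Or.inl (mem_erase.2 ⟨e, hz⟩)

end Pool.Agent.Lib.MP_abd955_pr
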